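import Pool.Agent.WD.Defs
import Pool.Agent.IT.WBase

/-!
# Basic facts on closed braids and parallels as sliced diagrams
-/

set_option autoImplicit false

namespace Pool.Agent.WD

open Pool.Agent.LibH11 Pool.Agent.LibH11.Sliced Pool.Agent.IT Pool.Agent.TwoBr

/-! ### Braid words -/

theorem braidWord_nil : braidWord [] = [] := rfl

theorem braidWord_cons (x : ℕ × Bool) (w : Word) :
    braidWord (x :: w) = (.crs x.2, x.1) :: braidWord w := rfl

theorem braidWord_append (u w : Word) : braidWord (u ++ w) = braidWord u ++ braidWord w := by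
  simp [braidWord]

theorem sh_braidWord (k : ℕ) (w : Word) : sh k (braidWord w) = braidWord (shw k w) := by
  simp [sh, braidWord, shw, Function.comp_def]

/-- a word with letters `< N` as a word in `Fin N` -/
theorem exists_fin {N : ℕ} {w : Word} (hw : Bd N w) : ∃ x : List (Fin N × Bool),
    bw x = braidWord w ∧ wd x = ev N w := by
  induction w with
  | nil => exact ⟨[], rfl, rfl⟩
  | cons p w ih =>
    obtain ⟨i, e⟩ := p
    have hi : i < N := hw (i, e) (List.mem_cons_self)
    obtain ⟨x, h1, h2⟩ := ih (fun y hy => hw y (List.mem_cons_of_mem _ hy))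
    refine ⟨(⟨i, hi⟩, e) :: x, ?_, ?_⟩
    · rw [bw_cons, h1, braidWord_cons]
    · rw [wd_cons, h2, ev_cons]
      unfold gen
      rw [dif_pos hi]

/-- **Equal braids have equivalent diagrams.** -/
theorem bwe {N : ℕ} {w w' : Word} (hw : Bd N w) (hw' : Bd N w') (h : ev N w = ev N w') :
    EqD (N + 1) (braidWord w) (braidWord w') := by
  obtain ⟨x, h1, h2⟩ := exists_fin hw
  obtain ⟨y, h3, h4⟩ := exists_fin hw'
  rw [← h1, ← h3]
  exact bw_eqd (by rw [h2, h4, h])

theorem cnt_crs {M i : ℕ} {e : Bool} (h : i + 2 ≤ M) : cnt M [(.crs e, i)] = some M := by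
  simp only [cnt, Kind.ins, Kind.outs]
  rw [if_pos h]
  congr 1
  omega

theorem cnt_bwd {N M : ℕ} {w : Word} (hw : Bd N w) (h : N + 1 ≤ M) :
    cnt M (braidWord w) = some M := by
  induction w with
  | nil => rfl
  | cons p w ih =>
    have hi := hw p List.mem_cons_self
    rw [braidWord_cons, ← List.singleton_append, cnt_append, cnt_crs (by omega)]
    exact ih (fun y hy => hw y (List.mem_cons_of_mem _ hy))

/-! ### Minima and maxima -/

theorem cups_zero : cups 0 = [] := rfl
theorem caps_zero : caps 0 = [] := rfl

theorem cups_succ (n : ℕ) : cups (n + 1) = cups n ++ [(.cup, n + 1)] := by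
  simp [cups, List.range_succ]

theorem caps_succ (n : ℕ) : caps (n + 1) = (.cap, n + 1) :: caps n := by
  simp [caps, List.range_succ]

theorem cups_cons (n : ℕ) : cups (n + 1) = (.cup, 1) :: sh 1 (cups n) := by
  unfold cups sh
  rw [List.range_succ_eq_map]
  simp [Function.comp_def]

theorem caps_snoc (n : ℕ) : caps (n + 1) = sh 1 (caps n) ++ [(.cap, 1)] := by
  unfold caps sh
  rw [List.range_succ_eq_map]
  simp [Function.comp_def]

theorem cnt_cups (n k : ℕ) : cnt (1 + k) (cups n) = some (2 * n + 1 + k) := by
  induction n with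
  | zero =>
    simp only [cups_zero, cnt]
  | succ n ih =>
    rw [cups_succ, cnt_append, ih]
    simp only [Option.bind_some, cnt, Kind.ins, Kind.outs]
    rw [if_pos (by omega)]
    congr 1
    omega

theorem cnt_caps (n k : ℕ) : cnt (2 * n + 1 + k) (caps n) = some (1 + k) := by
  induction n with
  | zero =>
    simp only [caps_zero, cnt]
  | succ n ih =>
    rw [caps_succ, ← List.singleton_append, cnt_append]
    simp only [cnt, Kind.ins, Kind.outs]
    rw [if_pos (by omega)]
    simp only [Option.bind_some]
    rw [← ih]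
    congr 1
    omega

theorem cl_zero (w : Word) : cl 0 w = braidWord w := by simp [cl, cups_zero, caps_zero]

theorem cnt_cl {n : ℕ} {w : Word} (hw : Bd n w) (k : ℕ) : cnt (1 + k) (cl n w) = some (1 + k) := by
  unfold cl
  rw [List.append_assoc, cnt_app (cnt_cups n k), cnt_app (cnt_bwd hw (by omega)), cnt_caps]

/-! ### Parallels -/

theorem para_nil : para [] = [] := rfl
theorem para_cons (p : Kind × ℕ) (D : Diag) : para (p :: D) = par2 p ++ para D := rfl
theorem para_append (u v : Diag) : para (u ++ v) = para u ++ para v := by simp [para]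

theorem par2_sh (p : Kind × ℕ) (k : ℕ) : par2 (p.1, p.2 + k) = sh (2 * k) (par2 p) := by
  obtain ⟨κ, i⟩ := p
  cases κ <;> simp [par2, sh] <;> omega

theorem para_sh (k : ℕ) (D : Diag) : para (sh k D) = sh (2 * k) (para D) := by
  induction D with
  | nil => rfl
  | cons p D ih => rw [sh_cons, para_cons, para_cons, sh_append, ih, ← par2_sh]

theorem cnt_par2 {κ : Kind} {i N : ℕ} (h : i + κ.ins ≤ N) :
    cnt (2 * N) (par2 (κ, i)) = some (2 * (N - κ.ins + κ.outs)) := by
  cases κ <;> simp only [Kind.ins, Kind.outs] at h ⊢ <;> simp only [par2, cnt, Kind.ins, Kind.outs]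
  · rw [if_pos (by omega), if_pos (by omega)]
    exact congrArg some (by omega)
  · rw [if_pos (by omega), if_pos (by omega)]
    exact congrArg some (by omega)
  · rw [if_pos (by omega), if_pos (by omega), if_pos (by omega), if_pos (by omega)]
    exact congrArg some (by omega)

theorem cnt_para : ∀ (D : Diag) (N M : ℕ), cnt N D = some M → cnt (2 * N) (para D) = some (2 * M)
    := by
  intro D
  induction D with
  | nil =>
    intro N M h
    simp only [cnt, Option.some.injEq] at h
    rw [h]
    rfl
  | cons p D ih =>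
    obtain ⟨κ, i⟩ := p
    intro N M h
    obtain ⟨h1, h2⟩ := cnt_cons_some h
    rw [para_cons, cnt_app (cnt_par2 h1)]
    exact ih _ _ h2

theorem cnt_twists (m : ℤ) (k : ℕ) : cnt (2 + k) (twists m) = some (2 + k) := by
  unfold twists
  induction 2 * m.natAbs with
  | zero => rfl
  | succ j ih =>
    rw [List.replicate_succ, ← List.singleton_append, cnt_append, cnt_crs (by omega)]
    exact ih

theorem cnt_double {D : Diag} (h : cnt 1 D = some 1) (e : Bool) (m : ℤ) :
    cnt 1 (double e m D) = some 1 := by
  unfold double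
  rw [← List.singleton_append, cnt_append]
  simp only [cnt, Kind.ins, Kind.outs]
  rw [if_pos (by omega)]
  simp only [Option.bind_some]
  rw [List.append_assoc, cnt_app (cnt_widen 1 _ _ _ (cnt_para D 1 1 h)),
    cnt_app (cnt_twists m 1)]
  rfl

/-- every word of braids has equivalent closures when the words are equal in the braid group -/
theorem cl_congr {n : ℕ} {w w' : Word} (hw : Bd n w) (hw' : Bd n w') (h : ev n w = ev n w') :
    EqD 1 (cl n w) (cl n w') := by
  unfold cl
  have h1 := (bwe hw hw' h).widen n
  have e : n + 1 + n = 2 * n + 1 + 0 := by omega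
  rw [e] at h1
  refine h1.ctx _ _ (cnt_cups n 0) ?_
  have := cnt_cl hw 0
  unfold cl at this
  rw [this]
  simp

end Pool.Agent.WD
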