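import Pool.Agent.WD.StT

/-!
SLC: a letter `≥ 1` of a braid word moves around the closure.
-/

set_option autoImplicit false

namespace Pool.Agent.WD

open Pool.Agent.LibH11 Pool.Agent.LibH11.Sliced Pool.Agent.IT Pool.Agent.TwoBr

namespace SLC

theorem cnt_c (n : ℕ) : cnt 1 (cups n) = some (2 * n + 1) := by
  have := cnt_cups n 0
  simpa using this

theorem cnt_p (n : ℕ) : cnt (2 * n + 1) (caps n) = some 1 := by
  have := cnt_caps n 0
  simpa using this

/-- a crossing to the left of a minimum -/
theorem cup_crs {n i N : ℕ} (e : Bool) (h : i < n) (hN : n + 1 ≤ N) :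
    EqD N [(.cup, n + 1), (.crs e, i)] [(.crs e, i), (.cup, n + 1)] := by
  have hm := Move.far (.crs e) .cup i (n + 1 - (i + 2))
  have e1 : i + (Kind.crs e).outs + (n + 1 - (i + 2)) = n + 1 := by
    simp only [Kind.outs]
    omega
  have e2 : i + (Kind.crs e).ins + (n + 1 - (i + 2)) = n + 1 := by
    simp only [Kind.ins]
    omega
  rw [e1, e2] at hm
  refine (EqD.move hm ?_ ?_).symm
  · simp only [cnt, Kind.ins, Kind.outs]
    rw [if_pos (by omega), if_pos (by omega)]
    simp
  · simp only [cnt, Kind.ins, Kind.outs]
    rw [if_pos (by omega), if_pos (by omega)]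
    simp

/-- a crossing to the right of a minimum -/
theorem crs_cup {n j N : ℕ} (e : Bool) (h : n + 1 ≤ j) (hN : j + 2 ≤ N) :
    EqD N [(.crs e, j), (.cup, n + 1)] [(.cup, n + 1), (.crs e, j + 2)] := by
  have hm := Move.far .cup (.crs e) (n + 1) (j - (n + 1))
  have e1 : n + 1 + Kind.cup.outs + (j - (n + 1)) = j + 2 := by
    simp only [Kind.outs]
    omega
  have e2 : n + 1 + Kind.cup.ins + (j - (n + 1)) = j := by
    simp only [Kind.ins]
    omega
  rw [e1, e2] at hm
  refine (EqD.move hm ?_ ?_).symm
  · simp only [cnt, Kind.ins, Kind.outs]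
    rw [if_pos (by omega), if_pos (by omega)]
    simp
  · simp only [cnt, Kind.ins, Kind.outs]
    rw [if_pos (by omega), if_pos (by omega)]
    simp

/-- a crossing to the left of a maximum -/
theorem crs_cap {n i N : ℕ} (e : Bool) (h : i < n) (hN : n + 3 ≤ N) :
    EqD N [(.crs e, i), (.cap, n + 1)] [(.cap, n + 1), (.crs e, i)] := by
  have hm := Move.far (.crs e) .cap i (n + 1 - (i + 2))
  have e1 : i + (Kind.crs e).outs + (n + 1 - (i + 2)) = n + 1 := by
    simp only [Kind.outs]
    omega
  have e2 : i + (Kind.crs e).ins + (n + 1 - (i + 2)) = n + 1 := by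
    simp only [Kind.ins]
    omega
  rw [e1, e2] at hm
  refine EqD.move hm ?_ ?_
  · simp only [cnt, Kind.ins, Kind.outs]
    rw [if_pos (by omega), if_pos (by omega)]
    simp
  · simp only [cnt, Kind.ins, Kind.outs]
    rw [if_pos (by omega), if_pos (by omega)]
    simp

/-- a crossing to the right of a maximum -/
theorem cap_crs {n j N : ℕ} (e : Bool) (h : n + 1 ≤ j) (hN : j + 4 ≤ N) :
    EqD N [(.cap, n + 1), (.crs e, j)] [(.crs e, j + 2), (.cap, n + 1)] := by
  have hm := Move.far .cap (.crs e) (n + 1) (j - (n + 1))
  have e1 : n + 1 + Kind.cap.outs + (j - (n + 1)) = j := by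
    simp only [Kind.outs]
    omega
  have e2 : n + 1 + Kind.cap.ins + (j - (n + 1)) = j + 2 := by
    simp only [Kind.ins]
    omega
  rw [e1, e2] at hm
  refine EqD.move hm ?_ ?_
  · simp only [cnt, Kind.ins, Kind.outs]
    rw [if_pos (by omega), if_pos (by omega)]
    simp
  · simp only [cnt, Kind.ins, Kind.outs]
    rw [if_pos (by omega), if_pos (by omega)]
    simp

/-- a crossing moves around the minima -/
theorem partA (e : Bool) (n : ℕ) : ∀ i, 1 ≤ i → i < n →
    EqD 1 (cups n ++ [(.crs e, i)]) (cups n ++ [(.crs e, 2 * n - i)]) := by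
  induction n with
  | zero => intro i _ h; omega
  | succ n ih =>
    intro i hi hin
    by_cases h : i < n
    · have h1 := (cup_crs (N := 2 * n + 1) e h (by omega)).left (cups n) (cnt_c n)
      have h2 := (ih i hi h).right [(.cup, n + 1)] (by
        rw [List.append_assoc, cnt_app (cnt_c n)]
        simp only [List.singleton_append, cnt, Kind.ins, Kind.outs]
        rw [if_pos (by omega), if_pos (by omega)]
        simp)
      have h3 := (crs_cup (n := n) (j := 2 * n - i) (N := 2 * n + 1) e (by omega)
        (by omega)).left (cups n) (cnt_c n)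
      rw [cups_succ]
      simp only [List.append_assoc, List.singleton_append] at h2 ⊢
      rw [show 2 * (n + 1) - i = 2 * n - i + 2 by omega]
      exact (h1.trans h2).trans h3
    · obtain ⟨k, rfl⟩ : ∃ k, n = k + 1 := ⟨n - 1, by omega⟩
      obtain rfl : i = k + 1 := by omega
      have h1 := ((c_slcup e).sh (k + 1)).widen k
      have h2 := h1.left (cups k) (M := 0 + (k + 1) + k) (by
        rw [cnt_c]
        exact congrArg some (by omega))
      rw [cups_succ, cups_succ]
      simp only [sh_cons, sh_nil, List.append_assoc, List.singleton_append] at h2 ⊢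
      rw [show 2 * (k + 1 + 1) - (k + 1) = 2 + (k + 1) by omega]
      rw [show 0 + (k + 1) = k + 1 by omega, show 1 + (k + 1) = k + 1 + 1 by omega] at h2
      exact h2

/-- a crossing moves around the maxima -/
theorem partB (e : Bool) (n : ℕ) : ∀ i, 1 ≤ i → i < n →
    EqD (2 * n + 1) ([(.crs e, i)] ++ caps n) ([(.crs e, 2 * n - i)] ++ caps n) := by
  induction n with
  | zero => intro i _ h; omega
  | succ n ih =>
    intro i hi hin
    have hc : cnt (2 * (n + 1) + 1) [(Kind.cap, n + 1)] = some (2 * n + 1) := by
      simp only [cnt, Kind.ins, Kind.outs]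
      rw [if_pos (by omega)]
      exact congrArg some (by omega)
    by_cases h : i < n
    · have h1 := (crs_cap (N := 2 * (n + 1) + 1) e h (by omega)).right (caps n) (by
        have : cnt (2 * (n + 1) + 1) [(Kind.crs e, i), (Kind.cap, n + 1)] =
            some (2 * n + 1) := by
          simp only [cnt, Kind.ins, Kind.outs]
          rw [if_pos (by omega), if_pos (by omega)]
          exact congrArg some (by omega)
        rw [cnt_app this, cnt_p]
        simp)
      have h2 := (ih i hi h).left [(.cap, n + 1)] hc
      have h3 := (cap_crs (n := n) (j := 2 * n - i) (N := 2 * (n + 1) + 1) e (by omega)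
        (by omega)).right (caps n) (by
        have : cnt (2 * (n + 1) + 1) [(Kind.cap, n + 1), (Kind.crs e, 2 * n - i)] =
            some (2 * n + 1) := by
          simp only [cnt, Kind.ins, Kind.outs]
          rw [if_pos (by omega), if_pos (by omega)]
          exact congrArg some (by omega)
        rw [cnt_app this, cnt_p]
        simp)
      rw [caps_succ]
      rw [show 2 * (n + 1) - i = 2 * n - i + 2 by omega]
      exact (h1.trans h2).trans h3
    · obtain ⟨k, rfl⟩ : ∃ k, n = k + 1 := ⟨n - 1, by omega⟩
      obtain rfl : i = k + 1 := by omega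
      have h1 := ((c_slcap e).sh (k + 1)).widen k
      have e1 : 4 + (k + 1) + k = 2 * (k + 1 + 1) + 1 := by omega
      rw [e1] at h1
      have h2 := h1.right (caps k) (by
        have : cnt (2 * (k + 1 + 1) + 1) (sh (k + 1) [(Kind.crs e, 0), (Kind.cap, 1),
            (Kind.cap, 0)]) = some (2 * k + 1) := by
          simp only [sh_cons, sh_nil, cnt, Kind.ins, Kind.outs]
          rw [if_pos (by omega), if_pos (by omega), if_pos (by omega)]
          exact congrArg some (by omega)
        rw [cnt_app this, cnt_p]
        simp)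
      rw [caps_succ, caps_succ]
      simp only [sh_cons, sh_nil, List.cons_append, List.nil_append] at h2 ⊢
      rw [show 2 * (k + 1 + 1) - (k + 1) = 2 + (k + 1) by omega]
      rw [show 0 + (k + 1) = k + 1 by omega, show 1 + (k + 1) = k + 1 + 1 by omega] at h2
      exact h2

end SLC

open SLC in
theorem t_SLC : SLC_Stmt := by
  intro n i e w hi hin hw
  have hx : ∀ j, j + 2 ≤ 2 * n + 1 → cnt (2 * n + 1) [(Kind.crs e, j)] = some (2 * n + 1) :=
    fun j hj => cnt_crs hj
  have hb : cnt (2 * n + 1) (braidWord w) = some (2 * n + 1) := cnt_bwd hw (by omega)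
  -- around the minima
  have h1 := (partA e n i hi hin).right (braidWord w ++ caps n) (by
    rw [List.append_assoc, cnt_app (cnt_c n), cnt_app (hx i (by omega)), cnt_app hb, cnt_p]
    simp)
  -- past the word
  have h2 : EqD (2 * n + 1) ([(.crs e, 2 * n - i)] ++ braidWord w)
      (braidWord w ++ [(.crs e, 2 * n - i)]) := by
    have h3 := far_words (braidWord w) [(.crs e, n - 1 - i)] (n + 1) (n + 1) n
      (cnt_bwd hw (by omega)) (by
        rw [cnt_crs (by omega)]
        simp)
    simp only [sh_cons, sh_nil] at h3
    rw [show n - 1 - i + (n + 1) = 2 * n - i by omega,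
      show n + 1 + n = 2 * n + 1 by omega] at h3
    exact h3.symm
  have h4 := h2.ctx (cups n) (caps n) (cnt_c n) (by
    rw [List.append_assoc, List.append_assoc, cnt_app (cnt_c n),
      cnt_app (hx (2 * n - i) (by omega)), cnt_app hb, cnt_p]
    simp)
  -- around the maxima
  have h5 := ((partB e n i hi hin).symm.left (braidWord w) hb).left (cups n) (cnt_c n)
  unfold cl
  rw [braidWord_cons, braidWord_append, braidWord_cons, braidWord_nil]
  simp only [List.append_assoc, List.cons_append, List.nil_append] at h1 h4 h5 ⊢
  exact (h1.trans h4).trans h5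

end Pool.Agent.WD
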