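import Pool.Agent.WD.NAT
import Pool.Agent.WD.SLC

/-!
# Alexander's theorem for diagrams in Morse position: definitions and basic facts

Orientations of the strands, sorted diagrams (all upward strands to the left of all downward
strands), normal forms.
-/

set_option autoImplicit false

namespace Pool.Agent.WD

open Pool.Agent.LibH11 Pool.Agent.LibH11.Sliced Pool.Agent.IT Pool.Agent.TwoBr

/-! ## Orientations -/

/-- Compatible orientations (`true`: upwards) of the strands below and above a slice. -/
inductive OS : Kind × ℕ → List Bool → List Bool → Prop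
  | cup (x : Bool) (b : List Bool) : OS (.cup, 0) b (x :: (!x) :: b)
  | cap (x : Bool) (b : List Bool) : OS (.cap, 0) (x :: (!x) :: b) b
  | crs (e x y : Bool) (b : List Bool) : OS (.crs e, 0) (x :: y :: b) (y :: x :: b)
  | cons (x : Bool) {κ : Kind} {i : ℕ} {o o' : List Bool} (h : OS (κ, i) o o') :
      OS (κ, i + 1) (x :: o) (x :: o')

/-- Compatible orientations of the strands below and above a diagram. -/
inductive OD : Diag → List Bool → List Bool → Prop
  | nil (o : List Bool) : OD [] o o
  | cons {p : Kind × ℕ} {u : Diag} {o o1 o2 : List Bool} (h : OS p o o1) (h' : OD u o1 o2) :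
      OD (p :: u) o o2

theorem OD.append {u v : Diag} {o o1 o2 : List Bool} (h : OD u o o1) (h' : OD v o1 o2) :
    OD (u ++ v) o o2 := by
  induction h with
  | nil o => exact h'
  | cons h1 _ ih => exact OD.cons h1 (ih h')

theorem OD.snoc {u : Diag} {p : Kind × ℕ} {o o1 o2 : List Bool} (h : OD u o o1) (h' : OS p o1 o2) :
    OD (u ++ [p]) o o2 := h.append (OD.cons h' (OD.nil _))

/-- the number of upward strands -/
def ups (o : List Bool) : ℕ := o.count true

/-- the number of downward strands -/
def dns (o : List Bool) : ℕ := o.count false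

@[simp] theorem ups_nil : ups [] = 0 := rfl
@[simp] theorem dns_nil : dns [] = 0 := rfl
@[simp] theorem ups_true (o : List Bool) : ups (true :: o) = ups o + 1 := by simp [ups]
@[simp] theorem ups_false (o : List Bool) : ups (false :: o) = ups o := by simp [ups]
@[simp] theorem dns_true (o : List Bool) : dns (true :: o) = dns o := by simp [dns]
@[simp] theorem dns_false (o : List Bool) : dns (false :: o) = dns o + 1 := by simp [dns]

theorem ups_add_dns (o : List Bool) : ups o + dns o = o.length := by
  induction o with
  | nil => rfl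
  | cons x o ih => cases x <;> simp [← ih] <;> omega

theorem OS.cnt_one {κ : Kind} {i : ℕ} {o o' : List Bool} (h : OS (κ, i) o o') :
    i + κ.ins ≤ o.length ∧ o'.length = o.length - κ.ins + κ.outs := by
  generalize hp : (κ, i) = p at h
  induction h generalizing κ i with
  | cup x b => cases hp; simp [Kind.ins, Kind.outs]
  | cap x b => cases hp; simp [Kind.ins, Kind.outs]
  | crs e x y b => cases hp; simp [Kind.ins, Kind.outs]
  | cons x h ih =>
    cases hp
    obtain ⟨h1, h2⟩ := ih rfl
    simp only [List.length_cons]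
    omega

theorem OS.cnt {p : Kind × ℕ} {o o' : List Bool} (h : OS p o o') :
    cnt o.length [p] = some o'.length := by
  obtain ⟨κ, i⟩ := p
  obtain ⟨h1, h2⟩ := h.cnt_one
  simp only [Sliced.cnt]
  rw [if_pos h1, h2]

theorem OD.cnt {u : Diag} {o o' : List Bool} (h : OD u o o') :
    cnt o.length u = some o'.length := by
  induction h with
  | nil o => rfl
  | cons h _ ih =>
    rw [← List.singleton_append, cnt_app h.cnt, ih]

theorem cnt_cup {N i : ℕ} (h : i ≤ N) : cnt N [(.cup, i)] = some (N + 2) := by
  rw [cnt_one (show i + Kind.cup.ins ≤ N from h)]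
  rfl

theorem cnt_cap {N i : ℕ} (h : i ≤ N) : cnt (N + 2) [(.cap, i)] = some N := by
  rw [cnt_one (show i + Kind.cap.ins ≤ N + 2 from Nat.add_le_add_right h 2)]
  exact congrArg some (Nat.add_sub_cancel N 2)

/-! ## Sorting the strands -/

/-- The last strand passes the `n` strands to its left: `(crs e, n - 1), …, (crs e, 0)`. -/
def ys (e : Bool) (n : ℕ) : Diag := (List.range n).reverse.map fun j => (Kind.crs e, j)

theorem ys_zero (e : Bool) : ys e 0 = [] := rfl

theorem ys_succ (e : Bool) (n : ℕ) : ys e (n + 1) = (.crs e, n) :: ys e n := by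
  simp [ys, List.range_succ]

theorem cnt_ys (e : Bool) : ∀ (n M : ℕ), n + 1 ≤ M → cnt M (ys e n) = some M := by
  intro n
  induction n with
  | zero => intro M _; rfl
  | succ n ih =>
    intro M h
    rw [ys_succ, ← List.singleton_append, cnt_app (cnt_crs (by omega))]
    exact ih M (by omega)

/-- The downward strands pass over (under) the upward strands to their right: below the diagram the
orientations are `o`, above it the `ups o` upward strands are to the left of the `dns o` downward
strands. -/
def T (c : Bool) : List Bool → Diag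
  | [] => []
  | true :: o => sh 1 (T c o)
  | false :: o => sh 1 (T c o) ++ xs c (ups o)

theorem T_true (c : Bool) (o : List Bool) : T c (true :: o) = sh 1 (T c o) := rfl

theorem T_false (c : Bool) (o : List Bool) : T c (false :: o) = sh 1 (T c o) ++ xs c (ups o) := rfl

theorem cnt_T (c : Bool) (o : List Bool) : cnt o.length (T c o) = some o.length := by
  induction o with
  | nil => rfl
  | cons x o ih =>
    have h1 : cnt (o.length + 1) (sh 1 (T c o)) = some (o.length + 1) := by
      rw [cnt_sh, ih]
      rfl
    cases x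
    · rw [T_false, List.length_cons, cnt_app h1, NAT.cnt_xs]
      have := ups_add_dns o
      omega
    · rw [T_true, List.length_cons, h1]

/-! ## Sorted diagrams -/

/-- Diagrams in which all upward strands are to the left of all downward strands at every level;
`a`, `b` are the numbers of upward and downward strands at the bottom, `a'`, `b'` at the top. -/
inductive SW : ℕ → ℕ → ℕ → ℕ → Diag → Prop
  | nil (a b : ℕ) : SW a b a b []
  | up {a b a' b' : ℕ} {v : Diag} (e : Bool) (j : ℕ) (hj : j + 1 < a) (h : SW a b a' b' v) :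
      SW a b a' b' ((.crs e, j) :: v)
  | dn {a b a' b' : ℕ} {v : Diag} (e : Bool) (j : ℕ) (hj : j + 1 < b) (h : SW a b a' b' v) :
      SW a b a' b' ((.crs e, a + j) :: v)
  | cup {a b a' b' : ℕ} {v : Diag} (h : SW (a + 1) (b + 1) a' b' v) :
      SW a b a' b' ((.cup, a) :: v)
  | cap {a b a' b' : ℕ} {v : Diag} (h : SW a b a' b' v) :
      SW (a + 1) (b + 1) a' b' ((.cap, a) :: v)

theorem SW.append {a b a' b' a'' b'' : ℕ} {u v : Diag} (h : SW a b a' b' u)
    (h' : SW a' b' a'' b'' v) : SW a b a'' b'' (u ++ v) := by
  induction h with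
  | nil => exact h'
  | up e j hj _ ih => exact SW.up e j hj (ih h')
  | dn e j hj _ ih => exact SW.dn e j hj (ih h')
  | cup _ ih => exact SW.cup (ih h')
  | cap _ ih => exact SW.cap (ih h')

theorem SW.cnt {a b a' b' : ℕ} {v : Diag} (h : SW a b a' b' v) :
    Sliced.cnt (a + b) v = some (a' + b') := by
  induction h with
  | nil => rfl
  | up e j hj _ ih => rw [← List.singleton_append, cnt_app (cnt_crs (by omega)), ih]
  | dn e j hj _ ih => rw [← List.singleton_append, cnt_app (cnt_crs (by omega)), ih]
  | cup _ ih =>
    rw [← List.singleton_append, cnt_app (cnt_cup (by omega)), ← ih]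
    congr 1
    omega
  | @cap a b a' b' v _ ih =>
    rw [← List.singleton_append, show a + 1 + (b + 1) = a + b + 2 by omega,
      cnt_app (cnt_cap (by omega)), ih]

/-- one more upward strand on the left -/
theorem SW.sh_one {a b a' b' : ℕ} {v : Diag} (h : SW a b a' b' v) :
    SW (a + 1) b (a' + 1) b' (sh 1 v) := by
  induction h with
  | nil => exact SW.nil _ _
  | up e j hj _ ih => exact SW.up e (j + 1) (by omega) ih
  | @dn a b a' b' v e j hj _ ih =>
    have := SW.dn (a := a + 1) e j hj ih
    rw [sh_cons, show a + j + 1 = a + 1 + j by omega]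
    exact this
  | cup _ ih => exact SW.cup ih
  | cap _ ih => exact SW.cap ih

/-- one more downward strand on the right -/
theorem SW.more {a b a' b' : ℕ} {v : Diag} (h : SW a b a' b' v) : SW a (b + 1) a' (b' + 1) v := by
  induction h with
  | nil => exact SW.nil _ _
  | up e j hj _ ih => exact SW.up e j hj ih
  | dn e j hj _ ih => exact SW.dn e j (by omega) ih
  | cup _ ih => exact SW.cup ih
  | cap _ ih => exact SW.cap ih

theorem sw_xs (e : Bool) (n a b : ℕ) (h : n < a) : SW a b a b (xs e n) := by
  induction n with
  | zero => exact SW.nil _ _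
  | succ n ih =>
    rw [NAT.xs_succ]
    exact (ih (by omega)).append (SW.up e n (by omega) (SW.nil _ _))

theorem sw_ys (e : Bool) (n a b : ℕ) (h : n < a) : SW a b a b (ys e n) := by
  induction n with
  | zero => exact SW.nil _ _
  | succ n ih =>
    rw [ys_succ]
    exact SW.up e n (by omega) (ih (by omega))

/-! ## Normal forms -/

/-- `v` is equivalent to `b + m` nested minima, a braid word on the upward strands, and `m` nested
maxima above it; there are `b + 1` upward and `b` downward strands at the top. -/
def NFP (b : ℕ) (v : Diag) : Prop := ∃ (m : ℕ) (w : Word), Bd (b + m) w ∧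
  EqD 1 v (cups (b + m) ++ braidWord w ++ sh b (caps m))

theorem cnt_nf {b m : ℕ} {w : Word} (hw : Bd (b + m) w) :
    cnt 1 (cups (b + m) ++ braidWord w ++ sh b (caps m)) = some (2 * b + 1) := by
  rw [List.append_assoc, cnt_app (cnt_cups (b + m) 0), cnt_app (cnt_bwd hw (by omega))]
  have h1 := cnt_caps m b
  have h2 := cnt_sh b (caps m) (2 * m + 1 + b)
  rw [h1] at h2
  rw [show 2 * (b + m) + 1 + 0 = 2 * m + 1 + b + b by omega, h2]
  simp only [Option.map_some]
  exact congrArg some (by omega)

theorem NFP.cnt {b : ℕ} {v : Diag} (h : NFP b v) : Sliced.cnt 1 v = some (2 * b + 1) := by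
  obtain ⟨m, w, hw, hE⟩ := h
  rw [hE.cnt_eq, cnt_nf hw]

theorem nfp_nil : NFP 0 [] := ⟨0, [], fun _ h => absurd h (List.not_mem_nil), EqD.refl _⟩

theorem NFP.congr {b : ℕ} {v v' : Diag} (h : NFP b v) (h' : EqD 1 v' v) : NFP b v' := by
  obtain ⟨m, w, hw, hE⟩ := h
  exact ⟨m, w, hw, h'.trans hE⟩

/-- a maximum on top -/
theorem NFP.cap {b : ℕ} {v : Diag} (h : NFP (b + 1) v) : NFP b (v ++ [(.cap, b + 1)]) := by
  obtain ⟨m, w, hw, hE⟩ := h
  have e1 : b + 1 + m = b + (m + 1) := by omega
  rw [e1] at hw hE
  refine ⟨m + 1, w, hw, ?_⟩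
  have e2 : sh b (caps (m + 1)) = sh (b + 1) (caps m) ++ [(.cap, b + 1)] := by
    rw [caps_snoc, sh_append, sh_sh]
    simp [add_comm]
  rw [e2, ← List.append_assoc]
  refine hE.right _ ?_
  rw [cnt_app (show Sliced.cnt 1 v = some (2 * (b + 1) + 1) by
    rw [hE.cnt_eq, ← e1]
    exact cnt_nf (e1 ▸ hw))]
  rw [show 2 * (b + 1) + 1 = 2 * b + 1 + 2 by omega, cnt_cap (by omega)]
  simp

theorem NFP.closed {v : Diag} (h : NFP 0 v) : ∃ (n : ℕ) (w : Word), Bd n w ∧ EqD 1 v (cl n w) := by
  obtain ⟨m, w, hw, hE⟩ := h
  rw [Nat.zero_add] at hw hE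
  refine ⟨m, w, hw, ?_⟩
  rw [sh_zero] at hE
  exact hE

/-! ## Certificates -/

/-- a crossing passes below two strands that cross over (under) a third one -/
theorem c_l3 (e c : Bool) :
    EqD 3 [(.crs e, 0), (.crs c, 1), (.crs c, 0)] [(.crs c, 1), (.crs c, 0), (.crs e, 1)] := by
  cases e <;> cases c
  · exact EqD.of_chk [(0, true, .r2 1 false), (2, true, .zg 0), (3, false, .far .cap (.crs false) 0 0), (2, false, .su 1 false), (4, false, .far .cap (.crs false) 0 1), (3, false, .far (.crs true) (.crs false) 1 0), (2, false, .su 2 false), (1, false, .far (.crs true) .cup 1 0), (2, false, .r3 1), (1, true, .su 2 false), (2, true, .far (.crs true) (.crs false) 1 0), (1, true, .su 1 false), (4, true, .far .cap (.crs true) 0 0), (5, false, .r2 0 true), (3, true, .far .cap (.crs false) 0 1), (2, true, .far .cap (.crs false) 0 0), (1, false, .zg 0)] rfl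
  · exact EqD.of_chk [(3, true, .r2 1 true), (1, true, .r3 0), (0, false, .r2 0 false)] rfl
  · exact EqD.of_chk [(1, true, .zz 2), (2, true, .far (.crs false) .cap 1 0), (1, true, .su 1 true), (3, true, .far (.crs false) .cap 0 1), (2, true, .far (.crs false) (.crs true) 0 0), (1, true, .su 0 true), (0, true, .far .cup (.crs true) 0 0), (1, true, .r3 1), (0, false, .su 0 true), (1, false, .far (.crs false) (.crs true) 0 0), (0, false, .su 1 true), (3, false, .far (.crs true) .cap 1 0), (2, false, .far (.crs false) .cap 0 1), (1, false, .far (.crs false) .cap 1 0), (0, false, .zz 2)] rfl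
  · exact EqD.of_chk [(0, false, .r3 0)] rfl

/-- a full twist of antiparallel strands as a full twist of parallel strands -/
theorem c_tw (e : Bool) :
    EqD 2 [(.crs (!e), 0), (.crs (!e), 0)]
      [(.cup, 1), (.crs e, 0), (.crs e, 0), (.crs (!e), 2), (.cap, 1)] := by
  cases e
  · exact EqD.of_chk [(1, true, .zg 0), (2, true, .a1 0 false), (3, false, .far .cap (.crs true) 0 0), (1, true, .su 0 true), (0, true, .far .cup (.crs true) 0 0), (1, true, .r3 1), (3, false, .sa 0 true), (2, true, .far (.crs false) (.crs true) 0 0), (0, false, .su 0 true)] rfl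
  · exact EqD.of_chk [(0, true, .zz 1), (1, true, .far (.crs false) .cap 0 0), (2, true, .far (.crs false) .cap 0 0), (0, true, .su 0 true), (0, true, .u1 0 true), (1, true, .r2 1 false), (2, true, .r3 0), (4, false, .r2 0 true), (3, true, .sa 1 false), (0, false, .su 0 false)] rfl

/-- a maximum followed by a minimum -/
theorem c_tb : EqD 2 [(.cap, 0), (.cup, 0)]
    [(.cup, 1), (.crs true, 0), (.crs false, 2), (.cap, 1)] :=
  EqD.of_chk [(0, true, .far .cup .cap 0 0), (1, true, .r2 1 false), (2, true, .sa 1 false), (0, false, .su 0 false)] rfl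

end Pool.Agent.WD
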