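import Pool.Agent.WD.StX

/-!
# CAT: a maximum moves to the right
-/

set_option autoImplicit false

namespace Pool.Agent.WD

open Pool.Agent.LibH11 Pool.Agent.LibH11.Sliced Pool.Agent.IT Pool.Agent.TwoBr

namespace CAT

/-- the last three slices -/
theorem tail (c : Bool) (a : ℕ) :
    EqD (a + 3) [(.crs c, a + 1), (.crs c, a), (.cap, a + 1)] [(.cap, a)] := by
  have k1 : EqD (a + 3) [(.crs c, a), (.cap, a + 1)] [(.crs (!c), a + 1), (.cap, a)] := by
    have hm := Move.slideCap a (!c)
    rw [Bool.not_not] at hm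
    refine (EqD.move hm ?_ ?_).symm
    · simp [Sliced.cnt, Kind.ins, Kind.outs]
    · simp [Sliced.cnt, Kind.ins, Kind.outs]
  have k2 : EqD (a + 3) [(.crs c, a + 1), (.crs (!c), a + 1)] [] := by
    refine EqD.move (Move.r2 (a + 1) c) ?_ ?_
    · simp [Sliced.cnt, Kind.ins, Kind.outs]
    · simp [Sliced.cnt]
  have s1 := k1.left [(.crs c, a + 1)] (cnt_crs (M := a + 3) (by omega))
  have s2 := k2.right [(.cap, a)] (by simp [Sliced.cnt, Kind.ins, Kind.outs])
  simp only [List.cons_append, List.nil_append] at s1 s2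
  exact s1.trans s2

end CAT

theorem t_CAT : CAT_Stmt := by
  intro c a
  induction a with
  | zero =>
    simp only [NAT.xs_zero, sh_nil, List.nil_append]
    exact EqD.refl _
  | succ a ih =>
    have c1 : cnt (a + 3) (sh 1 (xs c a)) = some (a + 3) := by
      have h := cnt_sh 1 (xs c a) (a + 2)
      rw [NAT.cnt_xs c a (a + 2) (by omega)] at h
      exact h
    have c2 : cnt (a + 3) (xs c a) = some (a + 3) := NAT.cnt_xs c a _ (by omega)
    have e0 : sh 1 (xs c (a + 1)) ++ xs c (a + 1) ++ [(Kind.cap, a + 1)] =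
        sh 1 (xs c a) ++ ([(Kind.crs c, a + 1)] ++ xs c a) ++
          [(Kind.crs c, a), (Kind.cap, a + 1)] := by
      rw [NAT.xs_succ, sh_append]
      simp
    have h1 : EqD (a + 3) ([(Kind.crs c, a + 1)] ++ xs c a) (xs c a ++ [(Kind.crs c, a + 1)]) := by
      have := far_words (xs c a) [(Kind.crs c, 0)] (a + 1) (a + 1) 2 (NAT.cnt_xs c a _ le_rfl)
        (by rw [cnt_crs (by omega)]; simp)
      rw [show a + 1 + 2 = a + 3 by omega] at this
      have h2 := this.symm
      simpa using h2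
    have d1 : cnt (a + 3) (sh 1 (xs c a) ++ ([(Kind.crs c, a + 1)] ++ xs c a) ++
        [(Kind.crs c, a), (Kind.cap, a + 1)]) ≠ none := by
      rw [List.append_assoc, cnt_app c1, List.append_assoc, cnt_app (cnt_crs (by omega)),
        cnt_app c2]
      simp [Sliced.cnt, Kind.ins, Kind.outs]
    have s1 := h1.ctx (sh 1 (xs c a)) [(Kind.crs c, a), (Kind.cap, a + 1)] c1 d1
    have e1 : sh 1 (xs c a) ++ (xs c a ++ [(Kind.crs c, a + 1)]) ++
        [(Kind.crs c, a), (Kind.cap, a + 1)] = (sh 1 (xs c a) ++ xs c a) ++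
          [(Kind.crs c, a + 1), (Kind.crs c, a), (Kind.cap, a + 1)] := by
      simp
    have c3 : cnt (a + 3) (sh 1 (xs c a) ++ xs c a) = some (a + 3) := by
      rw [cnt_app c1, c2]
    have s2 := (CAT.tail c a).left (sh 1 (xs c a) ++ xs c a) c3
    have s3 := ih.widen 1
    rw [show a + 1 + 2 = a + 3 by omega, e0]
    rw [e1] at s1
    rw [show a + 2 + 1 = a + 3 by omega] at s3
    exact (s1.trans s2).trans s3

end Pool.Agent.WD
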