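import Pool.Agent.WD.StQ

/-!
# Module CFV: the formulas for dimension 2 and 3
-/

namespace Pool.Agent.WD

open Pool.Agent.LibH11 Pool.Agent.IT Pool.Agent.GK Pool.Agent.TwoBr
open Pool.Agent.LibH11.Sliced (Diag Kind cnt IsLongKnot ofDiag braidWord)
open scoped BigOperators
open PowerSeries

namespace CFV

/-! ### Fields -/

theorem ne1 {K : Type} [Field K] {a : K} (ha : a ≠ 0) (h2 : a ^ 2 ≠ 1) : a - a⁻¹ ≠ 0 := by
  intro h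
  apply h2
  field_simp at h
  linear_combination h

/-- the coefficient of the summand of dimension 3 in dimension 3 -/
theorem alg3 {K : Type} [Field K] (a c0 c1 c2 T : K) (ha : a ≠ 0) (h4 : a ^ 4 ≠ 1)
    (h0 : c0 + c1 + c2 = 1) (h1 : c0 + c1 * a ^ 4 + c2 * a ^ 12 = T)
    (h2 : (a ^ 2 + 1 + a⁻¹ ^ 2) * T = a ^ 24 + a ^ 6 * (a ^ 4 + a ^ 2 + 1 + a⁻¹ ^ 2 + a⁻¹ ^ 4) -
      a ^ 18 * (a ^ 2 + 1 + a⁻¹ ^ 2))
    (h3 : (a ^ 2 + 1 + a⁻¹ ^ 2) * c2 = a ^ 5 * (a - a⁻¹) ^ 2 * (a + a⁻¹) *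
      (a ^ 4 + a ^ 2 + 1 + a⁻¹ ^ 2 + a⁻¹ ^ 4)) :
    (a ^ 2 + 1 + a⁻¹ ^ 2) * c1 = (a ^ 2 + 1 + a⁻¹ ^ 2) - a ^ 8 * (a ^ 6 + 1 + a⁻¹ ^ 6) -
      a ^ 5 * (a - a⁻¹) ^ 2 * (a + a⁻¹) * (a ^ 4 + a ^ 2 + 1 + a⁻¹ ^ 2 + a⁻¹ ^ 4) := by
  have hk : ((a ^ 2 + 1 + a⁻¹ ^ 2) - a ^ 8 * (a ^ 6 + 1 + a⁻¹ ^ 6) -
      a ^ 5 * (a - a⁻¹) ^ 2 * (a + a⁻¹) * (a ^ 4 + a ^ 2 + 1 + a⁻¹ ^ 2 + a⁻¹ ^ 4)) * (a ^ 4 - 1) =
      a ^ 24 + a ^ 6 * (a ^ 4 + a ^ 2 + 1 + a⁻¹ ^ 2 + a⁻¹ ^ 4) -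
      a ^ 18 * (a ^ 2 + 1 + a⁻¹ ^ 2) - (a ^ 2 + 1 + a⁻¹ ^ 2) -
      a ^ 5 * (a - a⁻¹) ^ 2 * (a + a⁻¹) * (a ^ 4 + a ^ 2 + 1 + a⁻¹ ^ 2 + a⁻¹ ^ 4) *
        (a ^ 12 - 1) := by
    field_simp
    ring
  apply mul_right_cancel₀ (sub_ne_zero.mpr h4)
  rw [hk]
  linear_combination (a ^ 2 + 1 + a⁻¹ ^ 2) * h1 - (a ^ 2 + 1 + a⁻¹ ^ 2) * h0 + h2 -
    (a ^ 12 - 1) * h3

section Qn

variable {K : Type} [Field K] {s : K}

theorem zp (n : ℕ) : s ^ (-(n : ℤ)) = (s ^ n)⁻¹ := by rw [zpow_neg, zpow_natCast]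

/-- `qn` in terms of `u = s ^ 2` -/
theorem qn_eq (n : ℕ) : qn s n = ((s ^ 2) ^ n - ((s ^ 2)⁻¹) ^ n) / (s ^ 2 - (s ^ 2)⁻¹) := by
  unfold qn
  have e1 : s ^ (2 * (n : ℤ)) = (s ^ 2) ^ n := by
    rw [← pow_mul, ← zpow_natCast]
    push_cast
    rfl
  have e2 : s ^ (-(2 * (n : ℤ))) = ((s ^ 2)⁻¹) ^ n := by
    rw [zpow_neg, e1, inv_pow]
  have e3 : s ^ (2 : ℤ) = s ^ 2 := by norm_cast
  have e4 : s ^ (-2 : ℤ) = (s ^ 2)⁻¹ := by rw [zpow_neg, e3]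
  rw [e1, e2, e3, e4]

theorem qn1 (hs : s ≠ 0) (h : (s ^ 2) ^ 2 ≠ 1) : qn s 1 = 1 := by
  have h1 := qn_eq (s := s) 1
  rw [Nat.cast_one] at h1
  rw [h1, pow_one, pow_one]
  exact div_self (ne1 (pow_ne_zero 2 hs) h)

theorem qn2 (hs : s ≠ 0) (h : (s ^ 2) ^ 2 ≠ 1) : qn s 2 = s ^ 2 + (s ^ 2)⁻¹ := by
  have h1 := qn_eq (s := s) 2
  rw [Nat.cast_ofNat] at h1
  rw [h1, div_eq_iff (ne1 (pow_ne_zero 2 hs) h)]
  ring

theorem qn3 (hs : s ≠ 0) (h : (s ^ 2) ^ 2 ≠ 1) :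
    qn s 3 = (s ^ 2) ^ 2 + 1 + (s ^ 2)⁻¹ ^ 2 := by
  have h1 := qn_eq (s := s) 3
  rw [Nat.cast_ofNat] at h1
  rw [h1, div_eq_iff (ne1 (pow_ne_zero 2 hs) h)]
  field_simp
  ring

theorem qn5 (hs : s ≠ 0) (h : (s ^ 2) ^ 2 ≠ 1) :
    qn s 5 = (s ^ 2) ^ 4 + (s ^ 2) ^ 2 + 1 + (s ^ 2)⁻¹ ^ 2 + (s ^ 2)⁻¹ ^ 4 := by
  have h1 := qn_eq (s := s) 5
  rw [Nat.cast_ofNat] at h1
  rw [h1, div_eq_iff (ne1 (pow_ne_zero 2 hs) h)]
  field_simp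
  ring

theorem qfac1 (hs : s ≠ 0) (h : (s ^ 2) ^ 2 ≠ 1) : qfac s 1 = 1 := by
  unfold qfac
  rw [Finset.prod_range_one, Nat.cast_zero, zero_add, qn1 hs h]

theorem qfac2 (hs : s ≠ 0) (h : (s ^ 2) ^ 2 ≠ 1) : qfac s 2 = s ^ 2 + (s ^ 2)⁻¹ := by
  unfold qfac
  rw [Finset.prod_range_succ, Finset.prod_range_one, Nat.cast_zero, zero_add, qn1 hs h, one_mul,
    Nat.cast_one, one_add_one_eq_two, qn2 hs h]

end Qn

/-! ### The leading coefficients -/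

/-- `q` -/
noncomputable def u : KQ := sQ ^ 2

theorem u_ne (hE : ESER_Stmt) : u ≠ 0 := pow_ne_zero 2 hE.2.2.2.2.1.1

theorem u_pow (hE : ESER_Stmt) (n : ℕ) (hn : 0 < n) : u ^ (2 * n) ≠ 1 := by
  have h := hE.2.2.2.2.1.2 n hn
  unfold u
  rwa [← pow_mul, ← mul_assoc]

theorem u2 (hE : ESER_Stmt) : u ^ 2 ≠ 1 := u_pow hE 1 one_pos

theorem u4 (hE : ESER_Stmt) : u ^ 4 ≠ 1 := u_pow hE 2 two_pos

theorem su_ne (hE : ESER_Stmt) : u + u⁻¹ ≠ 0 := by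
  intro h
  apply u4 hE
  have h0 := u_ne hE
  field_simp at h
  linear_combination (u ^ 2 - 1) * h

theorem b_ne (hE : ESER_Stmt) : u ^ 2 + 1 + u⁻¹ ^ 2 ≠ 0 := by
  intro h
  have h6 := u_pow hE 3 (by norm_num)
  apply h6
  have h0 := u_ne hE
  field_simp at h
  linear_combination (u ^ 2 - 1) * h

theorem szp (k : ℤ) : sQ ^ (2 * k) = u ^ k := by
  rw [zpow_mul]
  rfl

theorem s2 : sQ ^ (2 : ℤ) = u := by
  have := szp 1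
  rw [zpow_one] at this
  rw [← this]
  norm_num

theorem sm2 : sQ ^ (-2 : ℤ) = u⁻¹ := by rw [zpow_neg, s2]

theorem spn (k : ℤ) (n : ℕ) (h : k = 2 * n) : sQ ^ k = u ^ n := by
  rw [h, szp, zpow_natCast]

theorem smn (k : ℤ) (n : ℕ) (h : k = -(2 * n)) : sQ ^ k = u⁻¹ ^ n := by
  rw [h, zpow_neg, szp, zpow_natCast, inv_pow]

theorem gt2t (hE : ESER_Stmt) : gtop sQ 2 true = u⁻¹ * (u - u⁻¹) := by
  have h1 : qfac sQ (2 - 1) = 1 := qfac1 hE.2.2.2.2.1.1 (u2 hE)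
  unfold gtop
  rw [if_pos rfl, h1, s2, sm2, smn _ 1 (by norm_num)]
  ring

theorem gt2f (hE : ESER_Stmt) : gtop sQ 2 false = u * (u⁻¹ - u) := by
  have h1 : qfac sQ (2 - 1) = 1 := qfac1 hE.2.2.2.2.1.1 (u2 hE)
  unfold gtop
  rw [if_neg Bool.false_ne_true, h1, s2, sm2, spn _ 1 (by norm_num)]
  ring

theorem gt3t (hE : ESER_Stmt) : gtop sQ 3 true = u⁻¹ ^ 3 * (u - u⁻¹) ^ 2 * (u + u⁻¹) := by
  have h1 : qfac sQ (3 - 1) = u + u⁻¹ := qfac2 hE.2.2.2.2.1.1 (u2 hE)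
  unfold gtop
  rw [if_pos rfl, h1, s2, sm2, smn _ 3 (by norm_num)]

theorem gt3f (hE : ESER_Stmt) : gtop sQ 3 false = u ^ 3 * (u⁻¹ - u) ^ 2 * (u + u⁻¹) := by
  have h1 : qfac sQ (3 - 1) = u + u⁻¹ := qfac2 hE.2.2.2.2.1.1 (u2 hE)
  unfold gtop
  rw [if_neg Bool.false_ne_true, h1, s2, sm2, spn _ 3 (by norm_num)]

theorem q2 (hE : ESER_Stmt) : qn sQ ((2 : ℕ) : ℤ) = u + u⁻¹ := by
  rw [Nat.cast_ofNat]
  exact qn2 hE.2.2.2.2.1.1 (u2 hE)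

theorem q3 (hE : ESER_Stmt) : qn sQ (2 * ((2 : ℕ) : ℤ) - 1) = u ^ 2 + 1 + u⁻¹ ^ 2 := by
  have h : (2 * ((2 : ℕ) : ℤ) - 1) = 3 := by norm_num
  rw [h]
  exact qn3 hE.2.2.2.2.1.1 (u2 hE)

theorem q3' (hE : ESER_Stmt) : qn sQ ((3 : ℕ) : ℤ) = u ^ 2 + 1 + u⁻¹ ^ 2 := by
  rw [Nat.cast_ofNat]
  exact qn3 hE.2.2.2.2.1.1 (u2 hE)

theorem q5 (hE : ESER_Stmt) : qn sQ (2 * ((3 : ℕ) : ℤ) - 1) =
    u ^ 4 + u ^ 2 + 1 + u⁻¹ ^ 2 + u⁻¹ ^ 4 := by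
  have h : (2 * ((3 : ℕ) : ℤ) - 1) = 5 := by norm_num
  rw [h]
  exact qn5 hE.2.2.2.2.1.1 (u2 hE)

theorem ct2t (hE : ESER_Stmt) : (u + u⁻¹) * cftop 2 true =
    -(u ^ 2 * (u - u⁻¹) * (u ^ 2 + 1 + u⁻¹ ^ 2)) := by
  unfold cftop
  rw [if_pos rfl, gt2t hE, q2 hE, q3 hE, spn _ 3 (by norm_num), mul_div_cancel₀ _ (su_ne hE)]
  have h0 := u_ne hE
  have h1 : (-1 : KQ) ^ (2 - 1) = -1 := by norm_num
  rw [h1]
  have h2 : u * u⁻¹ = 1 := mul_inv_cancel₀ h0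
  linear_combination (-(u ^ 2 * (u - u⁻¹) * (u ^ 2 + 1 + u⁻¹ ^ 2))) * h2

theorem ct2f (hE : ESER_Stmt) : (u + u⁻¹) * cftop 2 false =
    u⁻¹ ^ 2 * (u - u⁻¹) * (u ^ 2 + 1 + u⁻¹ ^ 2) := by
  unfold cftop
  rw [if_neg Bool.false_ne_true, gt2f hE, q2 hE, q3 hE, smn _ 3 (by norm_num),
    mul_div_cancel₀ _ (su_ne hE)]
  have h0 := u_ne hE
  have h1 : (-1 : KQ) ^ (2 - 1) = -1 := by norm_num
  rw [h1]
  have h2 : u * u⁻¹ = 1 := mul_inv_cancel₀ h0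
  linear_combination (u⁻¹ ^ 2 * (u - u⁻¹) * (u ^ 2 + 1 + u⁻¹ ^ 2)) * h2

theorem ct3t (hE : ESER_Stmt) : (u ^ 2 + 1 + u⁻¹ ^ 2) * cftop 3 true =
    u ^ 5 * (u - u⁻¹) ^ 2 * (u + u⁻¹) * (u ^ 4 + u ^ 2 + 1 + u⁻¹ ^ 2 + u⁻¹ ^ 4) := by
  unfold cftop
  rw [if_pos rfl, gt3t hE, q3' hE, q5 hE, spn _ 8 (by norm_num), mul_div_cancel₀ _ (b_ne hE)]
  have h0 := u_ne hE
  have h1 : (-1 : KQ) ^ (3 - 1) = 1 := by norm_num
  have h3 : u ^ 8 * (u⁻¹ ^ 3 * (u - u⁻¹) ^ 2 * (u + u⁻¹)) =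
      u ^ 5 * (u - u⁻¹) ^ 2 * (u + u⁻¹) := by
    have : u ^ 8 * u⁻¹ ^ 3 = u ^ 5 := by
      rw [inv_pow]
      field_simp
    rw [← this]
    ring
  rw [h1, one_mul, h3]

theorem ct3f (hE : ESER_Stmt) : (u ^ 2 + 1 + u⁻¹ ^ 2) * cftop 3 false =
    u⁻¹ ^ 5 * (u - u⁻¹) ^ 2 * (u + u⁻¹) * (u ^ 4 + u ^ 2 + 1 + u⁻¹ ^ 2 + u⁻¹ ^ 4) := by
  unfold cftop
  rw [if_neg Bool.false_ne_true, gt3f hE, q3' hE, q5 hE, smn _ 8 (by norm_num),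
    mul_div_cancel₀ _ (b_ne hE)]
  have h0 := u_ne hE
  have h1 : (-1 : KQ) ^ (3 - 1) = 1 := by norm_num
  have h3 : u⁻¹ ^ 8 * (u ^ 3 * (u⁻¹ - u) ^ 2 * (u + u⁻¹)) =
      u⁻¹ ^ 5 * (u - u⁻¹) ^ 2 * (u + u⁻¹) := by
    have : u⁻¹ ^ 8 * u ^ 3 = u⁻¹ ^ 5 := by
      rw [inv_pow, inv_pow]
      field_simp
    rw [← this]
    ring
  rw [h1, one_mul, h3]

/-! ### Exponential series -/

theorem tE (hE : ESER_Stmt) (n : ℕ) : toK (E n) = u ^ n := by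
  have h := hE.2.2.2.1 (2 * n)
  rw [szp, zpow_natCast] at h
  rw [h]
  congr 2
  push_cast
  ring

theorem tEn (hE : ESER_Stmt) (n : ℕ) : toK (E (-n)) = u⁻¹ ^ n := by
  have h := hE.2.2.2.1 (-(2 * n))
  rw [zpow_neg, szp, zpow_natCast, ← inv_pow] at h
  rw [h]
  congr 2
  push_cast
  ring

theorem toK_inj : Function.Injective toK := IsFractionRing.injective ℚ⟦X⟧ KQ

theorem dn_ne (M : ℕ) (hM : 1 ≤ M) : (E M - E (-M) : ℚ⟦X⟧) ≠ 0 := by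
  intro h
  have h3 := congrArg (fun f : ℚ⟦X⟧ => coeff 1 f) h
  have h4 : (M : ℚ) ≠ 0 := by exact_mod_cast Nat.one_le_iff_ne_zero.mp hM
  simp only [E, map_sub, coeff_mk, map_zero, pow_one, Nat.factorial_one, Nat.cast_one, div_one,
    sub_neg_eq_add] at h3
  apply h4
  linarith

theorem d1_ne : (E 1 - E (-1) : ℚ⟦X⟧) ≠ 0 := by
  have := dn_ne 1 le_rfl
  rwa [Nat.cast_one] at this

/-! ### Knots -/

section Kn

variable {M : CommMonoid Knot} {cb : ℕ → ℤ → Knot → Knot} {v : ℕ → Knot → ℚ⟦X⟧}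
  {JS : ℕ → SKnot → ℚ⟦X⟧}

/-- the unknot -/
theorem jun (hv : VOk M cb v) (hj : JOk v JS) (N : ℕ) (hN : 1 ≤ N)
    (hl : IsLongKnot (cl 0 [])) : JS N (ofDiag (cl 0 []) hl) = 1 := by
  have h1 := hj.br N hN 0 [] isKnot_nil hl (bd_nil 0)
  have h2 : (E 1 - E (-1)) * v N (closure (ev 0 []) isKnot_nil) = E N - E (-N) := hv.unit N
  rw [h2] at h1
  exact mul_left_cancel₀ (dn_ne N hN) (h1.trans (mul_one _).symm)

/-- dimension one -/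
theorem jone (hv : VOk M cb v) (hj : JOk v JS) (n : ℕ) (w : Word) (h : LibH11.IsKnot (ev n w))
    (hl : IsLongKnot (cl n w)) (hb : Bd n w) : JS 1 (ofDiag (cl n w) hl) = 1 := by
  have h1 := hj.br 1 le_rfl n w h hl hb
  rw [hv.one, Nat.cast_one] at h1
  exact mul_left_cancel₀ d1_ne h1

theorem lnil : IsLongKnot (cl 0 []) := ⟨_, _, rfl⟩

/-- the untwisted double of the unknot -/
theorem dun (hv : VOk M cb v) (hj : JOk v JS) (hu : ∀ e : Bool, EqD 1 (double e 0 []) [])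
    (e : Bool) (N : ℕ) (hN : 1 ≤ N) (hd : IsLongKnot (double e 0 (cl 0 []))) :
    JS N (ofDiag (double e 0 (cl 0 [])) hd) = 1 := by
  have h1 : ofDiag (double e 0 (cl 0 [])) hd = ofDiag (cl 0 []) ((hu e).isLongKnot hd) :=
    (hu e).knot hd
  rw [h1]
  exact jun hv hj N hN _

theorem isKnot_tref (e : Bool) : LibH11.IsKnot (ev 1 [(0, e), (0, e), (0, e)]) := by
  have hp : LibH11.perm (ev 1 [(0, e), (0, e), (0, e)]) = Equiv.swap 0 1 := by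
    cases e <;> simp [gen]
  unfold LibH11.IsKnot
  rw [hp]
  intro x y
  rcases eq_or_ne x y with rfl | hxy
  · exact Equiv.Perm.SameCycle.refl _ _
  · refine ⟨1, ?_⟩
    rw [zpow_one]
    revert hxy
    revert x y
    decide

theorem vu (hE : ESER_Stmt) (hv : VOk M cb v) (N : ℕ) :
    (u - u⁻¹) * toK (v N unknot) = u ^ N - u⁻¹ ^ N := by
  have h := congrArg toK (hv.unit N)
  rw [map_mul, map_sub, map_sub, tE hE, tEn hE] at h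
  have e1 : toK (E 1) = u := by
    have := tE hE 1
    rwa [Nat.cast_one, pow_one] at this
  have e2 : toK (E (-1)) = u⁻¹ := by
    have := tEn hE 1
    rwa [Nat.cast_one, pow_one] at this
  rw [e1, e2] at h
  exact h

theorem vu3 (hE : ESER_Stmt) (hv : VOk M cb v) : toK (v 3 unknot) = u ^ 2 + 1 + u⁻¹ ^ 2 := by
  have h0 := u_ne hE
  apply mul_left_cancel₀ (ne1 h0 (u2 hE))
  rw [vu hE hv]
  field_simp
  ring

theorem vu5 (hE : ESER_Stmt) (hv : VOk M cb v) : toK (v 5 unknot) =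
    u ^ 4 + u ^ 2 + 1 + u⁻¹ ^ 2 + u⁻¹ ^ 4 := by
  have h0 := u_ne hE
  apply mul_left_cancel₀ (ne1 h0 (u2 hE))
  rw [vu hE hv]
  field_simp
  ring

theorem br3 (hE : ESER_Stmt) (hj : JOk v JS) (n : ℕ) (w : Word) (h : LibH11.IsKnot (ev n w))
    (hl : IsLongKnot (cl n w)) (hb : Bd n w) :
    (u ^ 2 + 1 + u⁻¹ ^ 2) * toK (JS 3 (ofDiag (cl n w) hl)) = toK (v 3 (closure (ev n w) h)) := by
  have h1 := congrArg toK (hj.br 3 (by norm_num) n w h hl hb)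
  have h0 := u_ne hE
  rw [map_mul, map_mul, map_sub, map_sub, tE hE, tEn hE] at h1
  have e1 : toK (E 1) = u := by
    have := tE hE 1
    rwa [Nat.cast_one, pow_one] at this
  have e2 : toK (E (-1)) = u⁻¹ := by
    have := tEn hE 1
    rwa [Nat.cast_one, pow_one] at this
  rw [e1, e2] at h1
  apply mul_left_cancel₀ (ne1 h0 (u2 hE))
  rw [← h1, ← mul_assoc]
  congr 1
  field_simp
  ring

theorem cabm : cab 2 (-3) [] = [(0, false), (0, false), (0, false)] := by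
  rw [cab_nil]
  decide

theorem cabp : cab 2 3 [] = [(0, true), (0, true), (0, true)] := by
  rw [cab_nil]
  decide

theorem cbt (ho : Ops M cb) (q : ℤ) (w : Word) (hw : cab 2 q [] = w)
    (h : LibH11.IsKnot (ev 1 w)) (hq : Int.gcd (2 : ℕ) q = 1) :
    cb 2 q unknot = closure (ev 1 w) h := by
  subst hw
  exact ho.cab 0 [] isKnot_nil 2 q h (bd_nil 0) (by norm_num) hq

/-- the trefoil with negative crossings -/
theorem trm (hE : ESER_Stmt) (ho : Ops M cb) (hv : VOk M cb v) (hj : JOk v JS)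
    (hl : IsLongKnot (cl 1 [(0, false), (0, false), (0, false)])) :
    (u ^ 2 + 1 + u⁻¹ ^ 2) * toK (JS 3 (ofDiag (cl 1 [(0, false), (0, false), (0, false)]) hl)) =
      u ^ 24 + u ^ 6 * (u ^ 4 + u ^ 2 + 1 + u⁻¹ ^ 2 + u⁻¹ ^ 4) -
        u ^ 18 * (u ^ 2 + 1 + u⁻¹ ^ 2) := by
  have hb : Bd 1 [(0, false), (0, false), (0, false)] := by
    intro x hx
    simp only [List.mem_cons, List.not_mem_nil, or_false, or_self] at hx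
    rw [hx]
    exact one_pos
  have hcb : cb 2 (-3) unknot =
      closure (ev 1 [(0, false), (0, false), (0, false)]) (isKnot_tref false) :=
    cbt ho (-3) _ cabm _ (by decide)
  rw [br3 hE hj 1 _ (isKnot_tref false) hl hb, ← hcb]
  have hr := hv.cab 2 (-3) unknot (by norm_num) (by decide) 2 (by norm_num)
  have hr2 := congrArg toK hr
  simp only [map_sub, map_mul] at hr2
  have hone : v (2 - 1) (cb 2 (-3) unknot) = 1 := hv.one _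
  have h3 : v (2 * 2 - 1) unknot = v 3 unknot := rfl
  have h5 : v (2 * 2 + 1) unknot = v 5 unknot := rfl
  have h3' : v (2 + 1) (cb 2 (-3) unknot) = v 3 (cb 2 (-3) unknot) := rfl
  rw [hone, h3, h5, h3', vu3 hE hv, vu5 hE hv, map_one, mul_one] at hr2
  have e1 : toK (E (((2 : ℕ) : ℚ) * ((-3 : ℤ) : ℚ) * ((2 : ℕ) : ℚ))) = u⁻¹ ^ 12 := by
    rw [← tEn hE 12]
    norm_num
  have e2 : toK (E (-(((2 : ℕ) : ℚ) * ((-3 : ℤ) : ℚ) * ((2 : ℕ) : ℚ)))) = u ^ 12 := by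
    rw [← tE hE 12]
    norm_num
  have e3 : toK (E (((-3 : ℤ) : ℚ) * ((2 : ℕ) : ℚ))) = u⁻¹ ^ 6 := by
    rw [← tEn hE 6]
    norm_num
  have e4 : toK (E (-(((-3 : ℤ) : ℚ) * ((2 : ℕ) : ℚ)))) = u ^ 6 := by
    rw [← tE hE 6]
    norm_num
  rw [e1, e2, e3, e4] at hr2
  have h0 := u_ne hE
  have h6 : u ^ 6 * u⁻¹ ^ 6 = 1 := by rw [← mul_pow, mul_inv_cancel₀ h0, one_pow]
  have h12 : u ^ 12 * u⁻¹ ^ 12 = 1 := by rw [← mul_pow, mul_inv_cancel₀ h0, one_pow]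
  linear_combination u ^ 12 * hr2 - toK (v 3 (cb 2 (-3) unknot)) * h12 +
    u ^ 6 * (u ^ 4 + u ^ 2 + 1 + u⁻¹ ^ 2 + u⁻¹ ^ 4) * h6

/-- the trefoil with positive crossings -/
theorem trp (hE : ESER_Stmt) (ho : Ops M cb) (hv : VOk M cb v) (hj : JOk v JS)
    (hl : IsLongKnot (cl 1 [(0, true), (0, true), (0, true)])) :
    (u ^ 2 + 1 + u⁻¹ ^ 2) * toK (JS 3 (ofDiag (cl 1 [(0, true), (0, true), (0, true)]) hl)) =
      u⁻¹ ^ 24 + u⁻¹ ^ 6 * (u ^ 4 + u ^ 2 + 1 + u⁻¹ ^ 2 + u⁻¹ ^ 4) -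
        u⁻¹ ^ 18 * (u ^ 2 + 1 + u⁻¹ ^ 2) := by
  have hb : Bd 1 [(0, true), (0, true), (0, true)] := by
    intro x hx
    simp only [List.mem_cons, List.not_mem_nil, or_false, or_self] at hx
    rw [hx]
    exact one_pos
  have hcb : cb 2 3 unknot =
      closure (ev 1 [(0, true), (0, true), (0, true)]) (isKnot_tref true) :=
    cbt ho 3 _ cabp _ (by decide)
  rw [br3 hE hj 1 _ (isKnot_tref true) hl hb, ← hcb]
  have hr := hv.cab 2 3 unknot (by norm_num) (by decide) 2 (by norm_num)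
  have hr2 := congrArg toK hr
  simp only [map_sub, map_mul] at hr2
  have hone : v (2 - 1) (cb 2 3 unknot) = 1 := hv.one _
  have h3 : v (2 * 2 - 1) unknot = v 3 unknot := rfl
  have h5 : v (2 * 2 + 1) unknot = v 5 unknot := rfl
  have h3' : v (2 + 1) (cb 2 3 unknot) = v 3 (cb 2 3 unknot) := rfl
  rw [hone, h3, h5, h3', vu3 hE hv, vu5 hE hv, map_one, mul_one] at hr2
  have e1 : toK (E (((2 : ℕ) : ℚ) * ((3 : ℤ) : ℚ) * ((2 : ℕ) : ℚ))) = u ^ 12 := by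
    rw [← tE hE 12]
    norm_num
  have e2 : toK (E (-(((2 : ℕ) : ℚ) * ((3 : ℤ) : ℚ) * ((2 : ℕ) : ℚ)))) = u⁻¹ ^ 12 := by
    rw [← tEn hE 12]
    norm_num
  have e3 : toK (E (((3 : ℤ) : ℚ) * ((2 : ℕ) : ℚ))) = u ^ 6 := by
    rw [← tE hE 6]
    norm_num
  have e4 : toK (E (-(((3 : ℤ) : ℚ) * ((2 : ℕ) : ℚ)))) = u⁻¹ ^ 6 := by
    rw [← tEn hE 6]
    norm_num
  rw [e1, e2, e3, e4] at hr2
  have h0 := u_ne hE
  have h6 : u ^ 6 * u⁻¹ ^ 6 = 1 := by rw [← mul_pow, mul_inv_cancel₀ h0, one_pow]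
  have h12 : u ^ 12 * u⁻¹ ^ 12 = 1 := by rw [← mul_pow, mul_inv_cancel₀ h0, one_pow]
  linear_combination u⁻¹ ^ 12 * hr2 - toK (v 3 (cb 2 3 unknot)) * h12 +
    u⁻¹ ^ 6 * (u ^ 4 + u ^ 2 + 1 + u⁻¹ ^ 2 + u⁻¹ ^ 4) * h6

/-- dimension 2 -/
theorem ex2 (Cf : ℕ → KQ) (t : ℚ) (K : SKnot) (h1 : JS 1 K = 1) :
    ∑ j ∈ Finset.range 2, Cf j * toK (E (2 * j * (j + 1) * t) * JS (2 * j + 1) K) =
      Cf 0 + Cf 1 * toK (E (4 * t) * JS 3 K) := by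
  have e0 : E (2 * ((0 : ℕ) : ℚ) * (((0 : ℕ) : ℚ) + 1) * t) = E 0 := by
    congr 1
    push_cast
    ring
  have e1 : E (2 * ((1 : ℕ) : ℚ) * (((1 : ℕ) : ℚ) + 1) * t) = E (4 * t) := by
    congr 1
    push_cast
    ring
  rw [Finset.sum_range_succ, Finset.sum_range_one, e0, e1]
  have h2 : JS (2 * 0 + 1) K = 1 := h1
  have h3 : JS (2 * 1 + 1) K = JS 3 K := rfl
  rw [h2, h3, mul_one]
  have h4 : toK (E 0) = 1 := by
    have : E 0 = 1 := by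
      ext n
      rw [E, coeff_mk, coeff_one]
      rcases n with _ | n <;> simp
    rw [this, map_one]
  rw [h4, mul_one]

/-- dimension 3 -/
theorem ex3 (Cf : ℕ → KQ) (t : ℚ) (K : SKnot) (h1 : JS 1 K = 1) :
    ∑ j ∈ Finset.range 3, Cf j * toK (E (2 * j * (j + 1) * t) * JS (2 * j + 1) K) =
      Cf 0 + Cf 1 * toK (E (4 * t) * JS 3 K) + Cf 2 * toK (E (12 * t) * JS 5 K) := by
  rw [Finset.sum_range_succ, ex2 Cf t K h1]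
  have e1 : E (2 * ((2 : ℕ) : ℚ) * (((2 : ℕ) : ℚ) + 1) * t) = E (12 * t) := by
    congr 1
    push_cast
    ring
  rw [e1]

end Kn

/-! ### Values of the exponential series -/

theorem e1 (hE : ESER_Stmt) : toK (E 1) = u := by
  have := tE hE 1
  rwa [Nat.cast_one, pow_one] at this

theorem em1 (hE : ESER_Stmt) : toK (E (-1)) = u⁻¹ := by
  have := tEn hE 1
  rwa [Nat.cast_one, pow_one] at this

theorem eo (hE : ESER_Stmt) (n : ℕ) [n.AtLeastTwo] :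
    toK (E (OfNat.ofNat n)) = u ^ (OfNat.ofNat n : ℕ) := by
  have := tE hE (OfNat.ofNat n)
  rwa [Nat.cast_ofNat] at this

theorem emo (hE : ESER_Stmt) (n : ℕ) [n.AtLeastTwo] :
    toK (E (-(OfNat.ofNat n))) = u⁻¹ ^ (OfNat.ofNat n : ℕ) := by
  have := tEn hE (OfNat.ofNat n)
  rwa [Nat.cast_ofNat] at this

/-- the relation for dimension 2 -/
theorem d2t (hE : ESER_Stmt) (c0 c1 : KQ) (t : ℚ) (D J : ℚ⟦X⟧) (h0 : c0 + c1 = 1)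
    (h1 : (u + u⁻¹) * c1 = -(u ^ 2 * (u - u⁻¹) * (u ^ 2 + 1 + u⁻¹ ^ 2)))
    (hD : toK D = c0 + c1 * toK (E (4 * t) * J)) : D2E 1 t D J := by
  unfold D2E
  apply toK_inj
  have e4 : E (2 * (1 : ℚ)) = E 2 := by norm_num
  rw [map_one, one_mul, e4]
  simp only [map_mul, map_add, map_sub, map_neg, map_one] at hD ⊢
  rw [e1 hE, em1 hE, eo hE 2, emo hE 2, hD]
  linear_combination (u + u⁻¹) * h0 + (toK (E (4 * t)) * toK J - 1) * h1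

theorem d2f (hE : ESER_Stmt) (c0 c1 : KQ) (t : ℚ) (D J : ℚ⟦X⟧) (h0 : c0 + c1 = 1)
    (h1 : (u + u⁻¹) * c1 = u⁻¹ ^ 2 * (u - u⁻¹) * (u ^ 2 + 1 + u⁻¹ ^ 2))
    (hD : toK D = c0 + c1 * toK (E (4 * t) * J)) : D2E (-1) t D J := by
  unfold D2E
  apply toK_inj
  have e4 : E (2 * (-1 : ℚ)) = E (-2) := by norm_num
  rw [e4]
  simp only [map_mul, map_add, map_sub, map_neg, map_one] at hD ⊢
  rw [e1 hE, em1 hE, eo hE 2, emo hE 2, hD]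
  linear_combination (u + u⁻¹) * h0 + (toK (E (4 * t)) * toK J - 1) * h1

theorem d3t (hE : ESER_Stmt) (c0 c1 c2 : KQ) (t : ℚ) (D J J' : ℚ⟦X⟧) (h0 : c0 + c1 + c2 = 1)
    (h1 : (u ^ 2 + 1 + u⁻¹ ^ 2) * c1 = (u ^ 2 + 1 + u⁻¹ ^ 2) - u ^ 8 * (u ^ 6 + 1 + u⁻¹ ^ 6) -
      u ^ 5 * (u - u⁻¹) ^ 2 * (u + u⁻¹) * (u ^ 4 + u ^ 2 + 1 + u⁻¹ ^ 2 + u⁻¹ ^ 4))
    (h2 : (u ^ 2 + 1 + u⁻¹ ^ 2) * c2 =
      u ^ 5 * (u - u⁻¹) ^ 2 * (u + u⁻¹) * (u ^ 4 + u ^ 2 + 1 + u⁻¹ ^ 2 + u⁻¹ ^ 4))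
    (hD : toK D = c0 + c1 * toK (E (4 * t) * J) + c2 * toK (E (12 * t) * J')) :
    D3E 1 t D J J' := by
  unfold D3E cf1 cf2
  apply toK_inj
  have e5 : E (5 * (1 : ℚ)) = E 5 := by norm_num
  have e8 : E (8 * (1 : ℚ)) = E 8 := by norm_num
  rw [e5, e8]
  simp only [map_mul, map_add, map_sub, map_pow, map_one] at hD ⊢
  rw [e1 hE, em1 hE, eo hE 2, emo hE 2, eo hE 4, emo hE 4, eo hE 6, emo hE 6, eo hE 5, eo hE 8, hD]
  linear_combination (u ^ 2 + 1 + u⁻¹ ^ 2) * h0 + (toK (E (4 * t)) * toK J - 1) * h1 +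
    (toK (E (12 * t)) * toK J' - 1) * h2

theorem d3f (hE : ESER_Stmt) (c0 c1 c2 : KQ) (t : ℚ) (D J J' : ℚ⟦X⟧) (h0 : c0 + c1 + c2 = 1)
    (h1 : (u ^ 2 + 1 + u⁻¹ ^ 2) * c1 = (u ^ 2 + 1 + u⁻¹ ^ 2) - u⁻¹ ^ 8 * (u ^ 6 + 1 + u⁻¹ ^ 6) -
      u⁻¹ ^ 5 * (u - u⁻¹) ^ 2 * (u + u⁻¹) * (u ^ 4 + u ^ 2 + 1 + u⁻¹ ^ 2 + u⁻¹ ^ 4))
    (h2 : (u ^ 2 + 1 + u⁻¹ ^ 2) * c2 =
      u⁻¹ ^ 5 * (u - u⁻¹) ^ 2 * (u + u⁻¹) * (u ^ 4 + u ^ 2 + 1 + u⁻¹ ^ 2 + u⁻¹ ^ 4))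
    (hD : toK D = c0 + c1 * toK (E (4 * t) * J) + c2 * toK (E (12 * t) * J')) :
    D3E (-1) t D J J' := by
  unfold D3E cf1 cf2
  apply toK_inj
  have e5 : E (5 * (-1 : ℚ)) = E (-5) := by norm_num
  have e8 : E (8 * (-1 : ℚ)) = E (-8) := by norm_num
  rw [e5, e8]
  simp only [map_mul, map_add, map_sub, map_pow, map_one] at hD ⊢
  rw [e1 hE, em1 hE, eo hE 2, emo hE 2, eo hE 4, emo hE 4, eo hE 6, emo hE 6, emo hE 5, emo hE 8,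
    hD]
  linear_combination (u ^ 2 + 1 + u⁻¹ ^ 2) * h0 + (toK (E (4 * t)) * toK J - 1) * h1 +
    (toK (E (12 * t)) * toK J' - 1) * h2

/-! ### The formulas for doubles -/

section Db

variable {M : CommMonoid Knot} {cb : ℕ → ℤ → Knot → Knot} {v : ℕ → Knot → ℚ⟦X⟧}
  {JS : ℕ → SKnot → ℚ⟦X⟧}

theorem f2 (hE : ESER_Stmt) (hv : VOk M cb v) (hj : JOk v JS)
    (hu : ∀ e : Bool, EqD 1 (double e 0 []) []) (e : Bool) :
    ∃ c0 c1 : KQ, c0 + c1 = 1 ∧ c1 = cftop 2 e ∧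
      ∀ (m : ℤ) (n : ℕ) (w : Word) (hl : IsLongKnot (cl n w))
        (hd : IsLongKnot (double e m (cl n w))), Bd n w → LibH11.IsKnot (ev n w) →
        toK (JS 2 (ofDiag (double e m (cl n w)) hd)) =
          c0 + c1 * toK (E (4 * (m + wr w)) * JS 3 (ofDiag (cl n w) hl)) := by
  obtain ⟨Cf, htop, hC⟩ := hj.dbl e 2 (by norm_num)
  have key : ∀ (m : ℤ) (n : ℕ) (w : Word) (hl : IsLongKnot (cl n w))
        (hd : IsLongKnot (double e m (cl n w))), Bd n w → LibH11.IsKnot (ev n w) →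
        toK (JS 2 (ofDiag (double e m (cl n w)) hd)) =
          Cf 0 + Cf 1 * toK (E (4 * (m + wr w)) * JS 3 (ofDiag (cl n w) hl)) := by
    intro m n w hl hd hb hk
    rw [hC m n w hl hd hb hk]
    exact ex2 Cf _ _ (jone hv hj n w hk hl hb)
  refine ⟨Cf 0, Cf 1, ?_, htop, key⟩
  have hd0 : IsLongKnot (double e 0 (cl 0 [])) := (hu e).symm.isLongKnot lnil
  have h1 := key 0 0 [] lnil hd0 (bd_nil 0) isKnot_nil
  rw [dun hv hj hu e 2 (by norm_num) hd0, jun hv hj 3 (by norm_num) lnil, mul_one] at h1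
  have h2 : E (4 * (((0 : ℤ) : ℚ) + ((wr [] : ℤ) : ℚ))) = 1 := by
    rw [wr_nil, Int.cast_zero, add_zero, mul_zero, hE.1]
  rw [h2, map_one, mul_one] at h1
  exact h1.symm

theorem f3 (hE : ESER_Stmt) (hv : VOk M cb v) (hj : JOk v JS)
    (hu : ∀ e : Bool, EqD 1 (double e 0 []) []) (e : Bool) :
    ∃ c0 c1 c2 : KQ, c0 + c1 + c2 = 1 ∧ c2 = cftop 3 e ∧
      ∀ (m : ℤ) (n : ℕ) (w : Word) (hl : IsLongKnot (cl n w))
        (hd : IsLongKnot (double e m (cl n w))), Bd n w → LibH11.IsKnot (ev n w) →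
        toK (JS 3 (ofDiag (double e m (cl n w)) hd)) =
          c0 + c1 * toK (E (4 * (m + wr w)) * JS 3 (ofDiag (cl n w) hl)) +
          c2 * toK (E (12 * (m + wr w)) * JS 5 (ofDiag (cl n w) hl)) := by
  obtain ⟨Cf, htop, hC⟩ := hj.dbl e 3 (by norm_num)
  have key : ∀ (m : ℤ) (n : ℕ) (w : Word) (hl : IsLongKnot (cl n w))
        (hd : IsLongKnot (double e m (cl n w))), Bd n w → LibH11.IsKnot (ev n w) →
        toK (JS 3 (ofDiag (double e m (cl n w)) hd)) =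
          Cf 0 + Cf 1 * toK (E (4 * (m + wr w)) * JS 3 (ofDiag (cl n w) hl)) +
          Cf 2 * toK (E (12 * (m + wr w)) * JS 5 (ofDiag (cl n w) hl)) := by
    intro m n w hl hd hb hk
    rw [hC m n w hl hd hb hk]
    exact ex3 Cf _ _ (jone hv hj n w hk hl hb)
  refine ⟨Cf 0, Cf 1, Cf 2, ?_, htop, key⟩
  have hd0 : IsLongKnot (double e 0 (cl 0 [])) := (hu e).symm.isLongKnot lnil
  have h1 := key 0 0 [] lnil hd0 (bd_nil 0) isKnot_nil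
  rw [dun hv hj hu e 3 (by norm_num) hd0, jun hv hj 3 (by norm_num) lnil,
    jun hv hj 5 (by norm_num) lnil, mul_one, mul_one] at h1
  have h2 : E (4 * (((0 : ℤ) : ℚ) + ((wr [] : ℤ) : ℚ))) = 1 := by
    rw [wr_nil, Int.cast_zero, add_zero, mul_zero, hE.1]
  have h3 : E (12 * (((0 : ℤ) : ℚ) + ((wr [] : ℤ) : ℚ))) = 1 := by
    rw [wr_nil, Int.cast_zero, add_zero, mul_zero, hE.1]
  rw [h2, h3, map_one, mul_one, mul_one] at h1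
  exact h1.symm

end Db

end CFV

open CFV in
theorem t_CFV (hE : ESER_Stmt) (hu : ∀ e : Bool, EqD 1 (double e 0 []) [])
    (ht : EqD 1 (double true 1 []) (cl 1 [(0, false), (0, false), (0, false)]))
    (hf : EqD 1 (double false (-1) []) (cl 1 [(0, true), (0, true), (0, true)])) : CFV_Stmt := by
  intro M cb v JS ho hv hj e m n w hl hd hb hk
  obtain ⟨c0, c1, h01, hc1, h2⟩ := f2 hE hv hj hu e
  obtain ⟨d0, d1, d2, h012, hd2, h3⟩ := f3 hE hv hj hu e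
  have hun := u_ne hE
  cases e
  · rw [if_neg Bool.false_ne_true]
    have hT : IsLongKnot (double false (-1) (cl 0 [])) := by
      refine hf.symm.isLongKnot ?_
      exact ⟨_, _, rfl⟩
    have hT2 := h3 (-1) 0 [] lnil hT (bd_nil 0) isKnot_nil
    have hT3 := trp hE ho hv hj (hf.isLongKnot hT)
    have hT4 : ofDiag (double false (-1) (cl 0 [])) hT =
        ofDiag (cl 1 [(0, true), (0, true), (0, true)]) (hf.isLongKnot hT) := hf.knot hT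
    rw [hT4, jun hv hj 3 (by norm_num) lnil, jun hv hj 5 (by norm_num) lnil, mul_one,
      mul_one] at hT2
    have g1 : toK (E (4 * (((-1 : ℤ) : ℚ) + ((wr [] : ℤ) : ℚ)))) = u⁻¹ ^ 4 := by
      rw [← tEn hE 4, wr_nil]
      norm_num
    have g2 : toK (E (12 * (((-1 : ℤ) : ℚ) + ((wr [] : ℤ) : ℚ)))) = u⁻¹ ^ 12 := by
      rw [← tEn hE 12, wr_nil]
      norm_num
    rw [g1, g2] at hT2
    have hd2' := ct3f hE
    rw [← hd2] at hd2'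
    refine ⟨d2f hE c0 c1 _ _ _ h01 ?_ (h2 m n w hl hd hb hk),
      d3f hE d0 d1 d2 _ _ _ _ h012 ?_ hd2' (h3 m n w hl hd hb hk)⟩
    · rw [hc1]
      exact ct2f hE
    · have := alg3 u⁻¹ d0 d1 d2 _ (inv_ne_zero hun) ?_ h012 hT2.symm ?_ ?_
      · rw [inv_inv] at this
        linear_combination this
      · intro h
        apply u4 hE
        rw [inv_pow, inv_eq_one] at h
        exact h
      · rw [inv_inv]
        linear_combination hT3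
      · rw [inv_inv]
        linear_combination hd2'
  · rw [if_pos rfl]
    have hT : IsLongKnot (double true 1 (cl 0 [])) := by
      refine ht.symm.isLongKnot ?_
      exact ⟨_, _, rfl⟩
    have hT2 := h3 1 0 [] lnil hT (bd_nil 0) isKnot_nil
    have hT3 := trm hE ho hv hj (ht.isLongKnot hT)
    have hT4 : ofDiag (double true 1 (cl 0 [])) hT =
        ofDiag (cl 1 [(0, false), (0, false), (0, false)]) (ht.isLongKnot hT) := ht.knot hT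
    rw [hT4, jun hv hj 3 (by norm_num) lnil, jun hv hj 5 (by norm_num) lnil, mul_one,
      mul_one] at hT2
    have g1 : toK (E (4 * (((1 : ℤ) : ℚ) + ((wr [] : ℤ) : ℚ)))) = u ^ 4 := by
      rw [← tE hE 4, wr_nil]
      norm_num
    have g2 : toK (E (12 * (((1 : ℤ) : ℚ) + ((wr [] : ℤ) : ℚ)))) = u ^ 12 := by
      rw [← tE hE 12, wr_nil]
      norm_num
    rw [g1, g2] at hT2
    have hd2' := ct3t hE
    rw [← hd2] at hd2'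
    refine ⟨d2t hE c0 c1 _ _ _ h01 ?_ (h2 m n w hl hd hb hk),
      d3t hE d0 d1 d2 _ _ _ _ h012 ?_ hd2' (h3 m n w hl hd hb hk)⟩
    · rw [hc1]
      exact ct2t hE
    · exact alg3 u d0 d1 d2 _ hun (u4 hE) h012 hT2.symm hT3 hd2'

end Pool.Agent.WD
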