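import Pool.Agent.WD.StA

/-!
# The expansion of the coloured Jones polynomials of a double (module CGK of WD, MP_31fd3b_gt)
-/

set_option autoImplicit false

namespace Pool.Agent.WD

open Pool.Agent.LibH11 Pool.Agent.IT Pool.Agent.GK
open scoped BigOperators
open PowerSeries

namespace CGK

/-- The first five coefficients. -/
structure Jet (f : ℚ⟦X⟧) (a0 a1 a2 a3 a4 : ℚ) : Prop where
  h0 : coeff 0 f = a0
  h1 : coeff 1 f = a1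
  h2 : coeff 2 f = a2
  h3 : coeff 3 f = a3
  h4 : coeff 4 f = a4

variable {f g : ℚ⟦X⟧} {a0 a1 a2 a3 a4 b0 b1 b2 b3 b4 : ℚ}

theorem Jet.mul (hf : Jet f a0 a1 a2 a3 a4) (hg : Jet g b0 b1 b2 b3 b4) :
    Jet (f * g) (a0 * b0) (a0 * b1 + a1 * b0) (a0 * b2 + a1 * b1 + a2 * b0)
      (a0 * b3 + a1 * b2 + a2 * b1 + a3 * b0)
      (a0 * b4 + a1 * b3 + a2 * b2 + a3 * b1 + a4 * b0) := by
  obtain ⟨e0, e1, e2, e3, e4⟩ := hf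
  obtain ⟨k0, k1, k2, k3, k4⟩ := hg
  refine ⟨?_, ?_, ?_, ?_, ?_⟩ <;> rw [PowerSeries.coeff_mul] <;>
    simp only [Finset.Nat.antidiagonal_succ, Finset.Nat.antidiagonal_zero, Finset.map_singleton,
      Finset.map_cons, Finset.sum_cons, Finset.sum_singleton,
      Function.Embedding.coeFn_mk, Function.Embedding.prodMap, Prod.map_apply,
      Function.Embedding.refl_apply, Nat.succ_eq_add_one, zero_add, Nat.reduceAdd,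
      e0, e1, e2, e3, e4, k0, k1, k2, k3, k4] <;> ring

theorem Jet.add (hf : Jet f a0 a1 a2 a3 a4) (hg : Jet g b0 b1 b2 b3 b4) :
    Jet (f + g) (a0 + b0) (a1 + b1) (a2 + b2) (a3 + b3) (a4 + b4) := by
  obtain ⟨e0, e1, e2, e3, e4⟩ := hf
  obtain ⟨k0, k1, k2, k3, k4⟩ := hg
  refine ⟨?_, ?_, ?_, ?_, ?_⟩ <;> rw [map_add]
  · rw [e0, k0]
  · rw [e1, k1]
  · rw [e2, k2]
  · rw [e3, k3]
  · rw [e4, k4]

theorem Jet.sub (hf : Jet f a0 a1 a2 a3 a4) (hg : Jet g b0 b1 b2 b3 b4) :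
    Jet (f - g) (a0 - b0) (a1 - b1) (a2 - b2) (a3 - b3) (a4 - b4) := by
  obtain ⟨e0, e1, e2, e3, e4⟩ := hf
  obtain ⟨k0, k1, k2, k3, k4⟩ := hg
  refine ⟨?_, ?_, ?_, ?_, ?_⟩ <;> rw [map_sub]
  · rw [e0, k0]
  · rw [e1, k1]
  · rw [e2, k2]
  · rw [e3, k3]
  · rw [e4, k4]

theorem Jet.neg (hf : Jet f a0 a1 a2 a3 a4) : Jet (-f) (-a0) (-a1) (-a2) (-a3) (-a4) := by
  obtain ⟨e0, e1, e2, e3, e4⟩ := hf
  refine ⟨?_, ?_, ?_, ?_, ?_⟩ <;> rw [map_neg]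
  · rw [e0]
  · rw [e1]
  · rw [e2]
  · rw [e3]
  · rw [e4]

theorem jC (c : ℚ) : Jet (C c) c 0 0 0 0 := by
  refine ⟨?_, ?_, ?_, ?_, ?_⟩ <;> simp [PowerSeries.coeff_C]

theorem j1 : Jet (1 : ℚ⟦X⟧) 1 0 0 0 0 := by
  refine ⟨?_, ?_, ?_, ?_, ?_⟩ <;> simp [PowerSeries.coeff_one]

theorem jE (c : ℚ) : Jet (E c) 1 c (c ^ 2 / 2) (c ^ 3 / 6) (c ^ 4 / 24) := by
  refine ⟨?_, ?_, ?_, ?_, ?_⟩ <;> unfold E <;> rw [PowerSeries.coeff_mk] <;>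
    norm_num [Nat.factorial]

theorem js (f : ℚ⟦X⟧) :
    Jet f (coeff 0 f) (coeff 1 f) (coeff 2 f) (coeff 3 f) (coeff 4 f) :=
  ⟨rfl, rfl, rfl, rfl, rfl⟩

theorem Jet.eq (hf : Jet f a0 a1 a2 a3 a4) (hg : Jet g b0 b1 b2 b3 b4) (h : f = g) :
    a0 = b0 ∧ a1 = b1 ∧ a2 = b2 ∧ a3 = b3 ∧ a4 = b4 := by
  subst h
  exact ⟨hf.h0.symm.trans hg.h0, hf.h1.symm.trans hg.h1, hf.h2.symm.trans hg.h2,
    hf.h3.symm.trans hg.h3, hf.h4.symm.trans hg.h4⟩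

end CGK

open CGK

theorem t_CGK : CGK_Stmt := by
  intro σ t a b a₁ α β D2 D3 J3 J5 hσ hD2 hD3 hJ3 hJ5 hd2 hd24 hd34
  have jJ3 : Jet J3 1 0 (8 * a) (8 * b) (coeff 4 J3) := by
    refine ⟨hJ3.c0, hJ3.c1, ?_, ?_, rfl⟩
    · rw [hJ3.c2]; push_cast; ring
    · rw [hJ3.c3]; push_cast; ring
  have jJ5 : Jet J5 1 0 (24 * a) (24 * b) (coeff 4 J5) := by
    refine ⟨hJ5.c0, hJ5.c1, ?_, ?_, rfl⟩
    · rw [hJ5.c2]; push_cast; ring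
    · rw [hJ5.c3]; push_cast; ring
  have jD2 : Jet D2 (coeff 0 D2) (coeff 1 D2) (3 * a₁) (coeff 3 D2) (3 * (4 * α + β)) :=
    ⟨rfl, rfl, hd2, rfl, hd24⟩
  have jD3 : Jet D3 (coeff 0 D3) (coeff 1 D3) (coeff 2 D3) (coeff 3 D3) (8 * (9 * α + β)) :=
    ⟨rfl, rfl, rfl, rfl, hd34⟩
  have jG1 := ((jE (4 * t)).mul jJ3).sub j1
  have jG2 := ((jE (12 * t)).mul jJ5).sub j1
  have jq := (jE 1).sub (jE (-1))
  have jp := (jE 1).add (jE (-1))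
  have j3 := ((jE 2).add j1).add (jE (-2))
  have j5 := ((((jE 4).add (jE 2)).add j1).add (jE (-2))).add (jE (-4))
  have e2 := (jp.mul (jD2.sub j1)).eq (((jC σ).mul ((((jE (2 * σ)).mul jq).mul j3).mul jG1)).neg)
    hD2
  have jcf2 := (((jE (5 * σ)).mul (jq.mul jq)).mul jp).mul j5
  have jcf1 := (j3.sub ((jE (8 * σ)).mul (((jE 6).add j1).add (jE (-6))))).sub jcf2
  have hD3' : (E 2 + 1 + E (-2)) * (D3 - 1) =
      ((E 2 + 1 + E (-2)) - E (8 * σ) * (E 6 + 1 + E (-6)) -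
        E (5 * σ) * ((E 1 - E (-1)) * (E 1 - E (-1))) * (E 1 + E (-1)) *
          (E 4 + E 2 + 1 + E (-2) + E (-4))) * (E (4 * t) * J3 - 1) +
      (E (5 * σ) * ((E 1 - E (-1)) * (E 1 - E (-1))) * (E 1 + E (-1)) *
          (E 4 + E 2 + 1 + E (-2) + E (-4))) * (E (12 * t) * J5 - 1) := by
    have h := hD3
    unfold D3E cf1 cf2 at h
    rw [sq] at h
    exact h
  have e3 := (j3.mul (jD3.sub j1)).eq ((jcf1.mul jG1).add (jcf2.mul jG2)) hD3'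
  obtain ⟨p0, p1, p2, p3, p4⟩ := e2
  obtain ⟨r0, r1, r2, r3, r4⟩ := e3
  clear jJ3 jJ5 jD2 jD3 jG1 jG2 jq jp j3 j5 jcf2 jcf1 hD2 hD3 hD3' hJ3 hJ5 hd2 hd24 hd34 p1 p3 r3
  rcases hσ with rfl | rfl
  · norm_num at p0 p2 p4 r0 r1 r2 r4 ⊢
    have q2 : a₁ = -(4 * t) := by linarith
    refine ⟨q2, ?_⟩
    rw [q2] at p4 ⊢
    linarith
  · norm_num at p0 p2 p4 r0 r1 r2 r4 ⊢
    have q2 : a₁ = 4 * t := by linarith
    refine ⟨q2, ?_⟩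
    rw [q2] at p4 ⊢
    linarith

end Pool.Agent.WD
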