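import Pool.Agent.WD.StQ
import Pool.Agent.GK.CJK

/-!
CJF: the coloured Jones polynomials with their formula (from `Pool/Agent/GK/CJK.lean`).
-/

namespace Pool.Agent.WD
open Pool.Agent.LibH11 Pool.Agent.IT Pool.Agent.GK
open scoped BigOperators
open PowerSeries

namespace Cjf

open IT.CJ

/-- The coloured Jones polynomials, with the data they come from. -/
theorem cj'' : ∃ (T : (N : ℕ) → RData ℚ⟦X⟧ (Fin N)) (θ : ℕ → ℚ⟦X⟧ˣ) (v : ℕ → Knot → ℚ⟦X⟧),
    (∀ N, (T N).map toK = RD sQ (V sQ N)) ∧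
    (∀ N, ((θ N : ℚ⟦X⟧ˣ) : ℚ⟦X⟧) = E (((N : ℚ) ^ 2 - 1) / 2)) ∧
    (∀ (N n : ℕ) (w : Word) (h : IsKnot (ev n w)), Bd n w →
      v N (closure (ev n w) h) = J (T N) (θ N) n w) ∧
    (∀ N : ℕ, (E 1 - E (-1)) * ∑ i : Fin N, (T N).κ i = E N - E (-N)) ∧
    (∀ (N : ℕ) (K K' : Knot), (∀ u : Knot → ℚ, IsFiniteType u → u K = u K') → v N K = v N K') ∧
    (∀ K, v 0 K = 0) ∧ (∀ K, v 1 K = 1) ∧
    (∀ N : ℕ, (E 1 - E (-1)) * v N unknot = E N - E (-N)) ∧
    (∀ (n : ℕ) (w : Word) (h : IsKnot (ev n w)) (p : ℕ) (q : ℤ)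
      (h' : IsKnot (ev (pn p n) (cab p q w))), Bd n w → 1 ≤ p → Int.gcd p q = 1 →
      Recur p q (fun N => v N (closure (ev n w) h))
        (fun N => v N (closure (ev (pn p n) (cab p q w)) h'))) := by
  classical
  have he : ESER_Stmt := IT.Fin.fESER
  have hl : LIFT_Stmt := IT.Fin.fLIFT
  have hg : GOODQ_Stmt := IT.Fin.fGOODQ
  have hm : MARK_Stmt := IT.Fin.fMARK
  have hf : FTB_Stmt := IT.Fin.fFTB
  have hj : JMAP_Stmt := IT.Fin.fJMAP
  have hc : CABJ_Stmt := IT.Fin.fCABJ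
  have hs : SUMR_Stmt := IT.Fin.fSUMR
  choose T hT1 hT2 hT3 hT4 using hl
  set θ : ℕ → ℚ⟦X⟧ˣ := fun N => uE he (((N : ℚ) ^ 2 - 1) / 2) with hθ
  have hgood : ∀ N, Good (T N) (θ N) := fun N => hg N (T N) (hT1 N) (θ N) rfl
  choose v hv using fun N => hm ℚ⟦X⟧ (Fin N) (T N) (θ N) (hgood N)
  -- the values over the fraction field
  set θ' : ℕ → KQˣ := fun N => Units.map (toK : ℚ⟦X⟧ →* KQ) (θ N) with hθ'
  have hθ'v : ∀ N : ℕ, ((θ' N : KQˣ) : KQ) = sQ ^ ((N : ℤ) ^ 2 - 1) := by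
    intro N
    have h1 : ((θ' N : KQˣ) : KQ) = toK (E (((N : ℚ) ^ 2 - 1) / 2)) := rfl
    rw [h1, he.2.2.2.1 ((N : ℤ) ^ 2 - 1)]
    push_cast
    rfl
  have hJ : ∀ (N n : ℕ) (w : Word), toK (J (T N) (θ N) n w) = J (RD sQ (V sQ N)) (θ' N) n w := by
    intro N n w
    have := (hj ℚ⟦X⟧ KQ toK (Fin N) (T N) (θ N) n w).2
    rw [this, hT1 N]
  have hmain0 : ∀ K, v 0 K = 0 := by
    intro K
    obtain ⟨n, w, h, hb, rfl⟩ := knot_word K
    rw [hv 0 n w h hb]
    unfold J Jfr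
    rw [Finset.univ_eq_empty (α := Fin (n + 1) → Fin 0), Finset.sum_empty, mul_zero]
  have hκN : ∀ N : ℕ, (E 1 - E (-1)) * ∑ i : Fin N, (T N).κ i = E N - E (-N) := by
    intro N
    have hκ : ∀ i : Fin N, (T N).κ i = E ((N : ℚ) - 1 - 2 * (i : ℕ)) := by
      intro i
      apply toK_inj
      have h1 : toK ((T N).κ i) = ((T N).map toK).κ i := rfl
      rw [h1, hT1 N]
      have h2 : (RD sQ (V sQ N)).κ i = sQ ^ (2 * ((N : ℤ) - 1 - 2 * (i : ℕ))) := rfl
      rw [h2, he.2.2.2.1]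
      congr 2
      push_cast
      ring
    rw [Finset.sum_congr rfl (fun i _ => hκ i),
      Fin.sum_univ_eq_sum_range (fun i : ℕ => E ((N : ℚ) - 1 - 2 * (i : ℕ))) N]
    have key : ∀ M : ℕ, (E 1 - E (-1)) * ∑ i ∈ Finset.range M, E ((N : ℚ) - 1 - 2 * (i : ℕ))
        = E N - E ((N : ℚ) - 2 * M) := by
      intro M
      induction M with
      | zero => simp
      | succ M ih =>
        rw [Finset.sum_range_succ, mul_add, ih, sub_mul, ← he.2.1, ← he.2.1]
        have e1 : (1 : ℚ) + ((N : ℚ) - 1 - 2 * M) = N - 2 * M := by ring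
        have e2 : (-1 : ℚ) + ((N : ℚ) - 1 - 2 * M) = N - 2 * ((M + 1 : ℕ) : ℚ) := by
          push_cast; ring
        rw [e1, e2]
        ring
    rw [key N]
    congr 2
    ring
  refine ⟨T, θ, v, hT1, fun N => rfl, hv, hκN, ?_, hmain0, ?_, ?_, ?_⟩
  · -- finite type
    intro N K K' hu
    refine hf (Fin N) (T N) (θ N) (hgood N) ?_ (v N) (hv N) K K' hu
    intro x y
    have c1 : constantCoeff (((θ N)⁻¹ : ℚ⟦X⟧ˣ) : ℚ⟦X⟧) = 1 := he.2.2.1 _
    have c2 : constantCoeff ((θ N : ℚ⟦X⟧ˣ) : ℚ⟦X⟧) = 1 := he.2.2.1 _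
    rw [map_mul, map_mul, c1, c2, hT2, hT3]
  · -- one label
    intro K
    obtain ⟨n, w, h, hb, rfl⟩ := knot_word K
    rw [hv 1 n w h hb]
    have hwt : ∀ i : Fin 1, (V sQ 1).wt i = 0 := by
      intro i
      simp [V]
    have haq : aq sQ 0 = 1 := by simp [aq, qfac]
    have haq' : aq' sQ 0 = 1 := by simp [aq', qfac]
    have hR : ∀ x y, (T 1).R x y = 1 := by
      intro x y
      apply toK_inj
      have h1 : toK ((T 1).R x y) = ((T 1).map toK).R x y := rfl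
      rw [h1, hT1 1, map_one]
      have e1 : x.2 = y.1 := Subsingleton.elim _ _
      have e2 : x.1 = y.2 := Subsingleton.elim _ _
      simp only [RD, Rm, hwt, Fintype.card_fin, Finset.sum_range_one, pow_zero, haq, e1, e2,
        Matrix.one_apply_eq, mul_one, mul_zero, zpow_zero]
    have hR' : ∀ x y, (T 1).R' x y = 1 := by
      intro x y
      apply toK_inj
      have h1 : toK ((T 1).R' x y) = ((T 1).map toK).R' x y := rfl
      rw [h1, hT1 1, map_one]
      have e1 : x.2 = y.1 := Subsingleton.elim _ _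
      have e2 : x.1 = y.2 := Subsingleton.elim _ _
      simp only [RD, Rm', hwt, Fintype.card_fin, Finset.sum_range_one, pow_zero, haq', e1, e2,
        Matrix.one_apply_eq, mul_one, mul_zero, zpow_zero, neg_zero]
    have hκ : ∀ i, (T 1).κ i = 1 := by
      intro i
      apply toK_inj
      have h1 : toK ((T 1).κ i) = ((T 1).map toK).κ i := rfl
      rw [h1, hT1 1, map_one]
      simp only [RD, hwt, mul_zero, zpow_zero]
    have hθ1 : θ 1 = 1 := by
      apply Units.ext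
      have h1 : ((θ 1 : ℚ⟦X⟧ˣ) : ℚ⟦X⟧) = E ((((1 : ℕ) : ℚ) ^ 2 - 1) / 2) := rfl
      rw [h1]
      have h2 : ((((1 : ℕ) : ℚ) ^ 2 - 1) / 2) = 0 := by norm_num
      rw [h2, he.1]
      rfl
    unfold J Jfr
    rw [hθ1, one_zpow, Units.val_one, one_mul]
    have : ∀ s : Fin (n + 1) → Fin 1, op (T 1) n w s s * ∏ i, (T 1).κ (s i) = 1 := by
      intro s
      rw [op_one (T 1) hR hR' n w, Matrix.one_apply_eq, one_mul]
      exact Finset.prod_eq_one (fun i _ => hκ _)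
    rw [Finset.sum_congr rfl (fun s _ => this s)]
    simp
  · -- the unknot
    intro N
    have h1 : v N unknot = J (T N) (θ N) 0 [] := hv N 0 [] isKnot_nil (bd_nil 0)
    have h2 : J (T N) (θ N) 0 [] = ∑ i : Fin N, (T N).κ i := by
      unfold J Jfr
      rw [wr_nil, neg_zero, zpow_zero, Units.val_one, one_mul]
      have h3 : ∀ s : Fin (0 + 1) → Fin N, op (T N) 0 [] s s * ∏ i, (T N).κ (s i)
          = (T N).κ (s 0) := by
        intro s
        have : op (T N) 0 [] = 1 := rfl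
        rw [this, Matrix.one_apply_eq, one_mul]
        exact Fin.prod_univ_one _
      rw [Finset.sum_congr rfl (fun s _ => h3 s)]
      exact Fintype.sum_equiv (Equiv.funUnique (Fin 1) (Fin N))
        (fun s : Fin 1 → Fin N => (T N).κ (s 0)) _ (fun s => rfl)
    rw [h1, h2, hκN N]
  · -- cables
    intro n w h p q h' hb hp hpq
    obtain ⟨c, rfl⟩ : ∃ c, p = c + 1 := ⟨p - 1, by omega⟩
    have hb' : Bd (pn (c + 1) n) (cab (c + 1) q w) := bd_cab hp q w hb
    have hcast : ((c + 1 : ℕ) : ℤ) = (c : ℤ) + 1 := by push_cast; ring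
    have hgcd : Int.gcd ((c : ℤ) + 1) q = 1 := by rw [← hcast]; exact hpq
    have h1 := hs ℚ⟦X⟧ E he.1 he.2.1 (fun N => v N (closure (ev n w) h)) (c + 1) q hp
      (hmain0 _) (fun N => v N (closure (ev (pn (c + 1) n) (cab (c + 1) q w)) h')) (by
        intro N
        apply toK_inj
        rw [hv N _ _ h' hb', hJ]
        have h2 := hc θ' hθ'v N c n q w hb h hgcd
        have h3 : pn (c + 1) n = (c + 1) * n + c := rfl
        rw [h3, h2, map_sum]
        refine Finset.sum_congr rfl (fun k _ => ?_)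
        rw [map_mul, map_mul, map_intCast, hv (k + 1) n w h hb, hJ]
        push_cast
        rfl)
    intro N hN
    exact h1 N hN



end Cjf

open Cjf GK.CJK IT.CJ in
theorem t_CJF (hk : KSUM_Stmt) (h : SUMJ_Stmt) : CJF_Stmt := by
  classical
  intro M cb ops
  obtain ⟨T, θ, v, hT, hθ, hv, hκ, h1, h2, h3, h4, h5⟩ := cj''
  refine ⟨T, θ, v, ⟨h1, h2, h3, h4, ?_, ?_⟩, hT, hθ, hv⟩
  · intro p q K hp hpq
    obtain ⟨n, w, hw, hb, rfl⟩ := knot_word K
    have h' : IsKnot (ev (pn p n) (cab p q w)) := (topPrm p n q w hp hb hw).mpr hpq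
    have e := ops.cab n w hw p q h' hb hp hpq
    rw [e]
    exact h5 n w hw p q h' hb hp hpq
  · intro N K K'
    obtain ⟨n, u, hu, hbu, rfl⟩ := knot_word K
    obtain ⟨m, w, hw, hbw, rfl⟩ := knot_word K'
    have hs := hk n m u w hbu hbw hu hw
    rw [ops.sum n m u w hu hw hs hbu hbw, hv N _ _ hs (bd_csum hbu hbw), hv N _ _ hu hbu,
      hv N _ _ hw hbw]
    have e1 : (∑ i, (T N).κ i) * Jfr (T N) (n + m) (csum n u w) =
        Jfr (T N) n u * Jfr (T N) m w := by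
      apply toK_inj
      have hG : IT.Gen sQ := IT.Fin.fESER.2.2.2.2.1
      have e2 := h KQ sQ hG N n m u w hbu hbw
      rw [map_mul, map_mul, map_sum, jfr_map, jfr_map, jfr_map, hT N, ← e2]
      congr 1
      refine Finset.sum_congr rfl fun i _ => ?_
      have e3 : toK ((T N).κ i) = ((T N).map toK).κ i := rfl
      rw [e3, hT N]
    have e4 : wr (csum n u w) = wr u + wr w := by
      unfold csum
      rw [wr_append, wr_shw]
    unfold J
    rw [e4, neg_add, zpow_add, Units.val_mul, ← hκ N]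
    linear_combination (E 1 - E (-1)) * (((θ N) ^ (-wr u) : ℚ⟦X⟧ˣ) : ℚ⟦X⟧) *
      (((θ N) ^ (-wr w) : ℚ⟦X⟧ˣ) : ℚ⟦X⟧) * e1

end Pool.Agent.WD
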