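import Pool.Agent.WD.StQ

/-!
CLM: the clasp is a morphism.
-/

set_option autoImplicit false

namespace Pool.Agent.WD.CLM

open Pool.Agent.LibH11 Pool.Agent.IT Pool.Agent.GK Pool.Agent.TwoBr Pool.Agent.WD
open scoped BigOperators

section Gen

variable {K : Type} [Field K] {ι κ ν ι' κ' : Type} [Fintype ι] [DecidableEq ι] [Fintype κ]
  [DecidableEq κ] [Fintype ν] [DecidableEq ν] [Fintype ι'] [DecidableEq ι'] [Fintype κ']
  [DecidableEq κ']

theorem mor_mul {M : WM K ι} {N : WM K κ} {L : WM K ν} {f : Matrix κ ι K} {g : Matrix ν κ K}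
    (hf : Mor M N f) (hg : Mor N L g) : Mor M L (g * f) where
  wt := by
    intro b a h
    rw [Matrix.mul_apply] at h
    obtain ⟨c, _, hc⟩ := Finset.exists_ne_zero_of_sum_ne_zero h
    rw [hg.wt b c (left_ne_zero_of_mul hc), hf.wt c a (right_ne_zero_of_mul hc)]
  E := by
    rw [← Matrix.mul_assoc, hg.E, Matrix.mul_assoc, hf.E, Matrix.mul_assoc]
  F := by
    rw [← Matrix.mul_assoc, hg.F, Matrix.mul_assoc, hf.F, Matrix.mul_assoc]

theorem mor_one (M : WM K ι) : Mor M M (1 : Matrix ι ι K) := by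
  refine ⟨?_, by rw [Matrix.mul_one, Matrix.one_mul], by rw [Matrix.mul_one, Matrix.one_mul]⟩
  intro b a h
  by_cases hba : b = a
  · rw [hba]
  · exact absurd (Matrix.one_apply_ne hba) h

/-- two modules agree up to a bijection of the labels -/
structure Is (M' : WM K ι') (M : WM K ι) (φ : ι' ≃ ι) : Prop where
  wt : ∀ x, M'.wt x = M.wt (φ x)
  E : ∀ x y, M'.E x y = M.E (φ x) (φ y)
  F : ∀ x y, M'.F x y = M.F (φ x) (φ y)

theorem Is.mor {M : WM K ι} {M' : WM K ι'} {N : WM K κ} {N' : WM K κ'} {φ : ι' ≃ ι}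
    {ψ : κ' ≃ κ} (hM : Is M' M φ) (hN : Is N' N ψ) {f : Matrix κ ι K} (h : Mor M N f) :
    Mor M' N' (f.submatrix ψ φ) := by
  have e1 : M'.E = M.E.submatrix φ φ := by ext a b; exact hM.E a b
  have e2 : M'.F = M.F.submatrix φ φ := by ext a b; exact hM.F a b
  have e3 : N'.E = N.E.submatrix ψ ψ := by ext a b; exact hN.E a b
  have e4 : N'.F = N.F.submatrix ψ ψ := by ext a b; exact hN.F a b
  refine ⟨?_, ?_, ?_⟩
  · intro b a hba
    rw [Matrix.submatrix_apply] at hba
    rw [hM.wt, hN.wt]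
    exact h.wt _ _ hba
  · rw [e1, e3, Matrix.submatrix_mul_equiv, Matrix.submatrix_mul_equiv, h.E]
  · rw [e2, e4, Matrix.submatrix_mul_equiv, Matrix.submatrix_mul_equiv, h.F]

theorem is_two {s : K} (M : WM K ι) :
    Is (fpow s M 2) (tens s M M) (finTwoArrowEquiv ι) := by
  have f0 : Finset.univ.filter (fun l : Fin 2 => 0 < l) = {1} := by decide
  have f1 : Finset.univ.filter (fun l : Fin 2 => 1 < l) = ∅ := by decide
  have f2 : Finset.univ.filter (fun l : Fin 2 => l < 0) = ∅ := by decide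
  have f3 : Finset.univ.filter (fun l : Fin 2 => l < 1) = {0} := by decide
  refine ⟨?_, ?_, ?_⟩
  · intro x
    show ∑ i, M.wt (x i) = M.wt (x 0) + M.wt (x 1)
    rw [Fin.sum_univ_two]
  · intro x y
    show (∑ k : Fin 2, if ∀ l, l ≠ k → x l = y l then
      M.E (x k) (y k) * s ^ (2 * ∑ l ∈ Finset.univ.filter (fun l => k < l), M.wt (y l)) else 0) =
      (if x 1 = y 1 then M.E (x 0) (y 0) * s ^ (2 * M.wt (y 1)) else 0) +
      (if x 0 = y 0 then M.E (x 1) (y 1) else 0)
    rw [Fin.sum_univ_two, f0, f1]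
    simp [Fin.forall_fin_two]
  · intro x y
    show (∑ k : Fin 2, if ∀ l, l ≠ k → x l = y l then
      s ^ (-(2 * ∑ l ∈ Finset.univ.filter (fun l => l < k), M.wt (y l))) * M.F (x k) (y k) else 0) =
      (if x 1 = y 1 then M.F (x 0) (y 0) else 0) +
      (if x 0 = y 0 then s ^ (-(2 * M.wt (y 0))) * M.F (x 1) (y 1) else 0)
    rw [Fin.sum_univ_two, f2, f3]
    simp [Fin.forall_fin_two]

theorem is_four {s : K} (hs : IT.Gen s) (hf : FPOWT_Stmt) (M : WM K ι) :
    Is (fpow s M (2 + 2)) (tens s (fpow s M 2) (fpow s M 2)) (Fin.appendEquiv 2 2).symm := by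
  have h := (hf K s hs ι M).1 2 2
  refine ⟨?_, ?_, ?_⟩
  · intro x
    obtain ⟨⟨a, b⟩, rfl⟩ := (Fin.appendEquiv 2 2).surjective x
    rw [Equiv.symm_apply_apply]
    exact (h a a b b).1
  · intro x y
    obtain ⟨⟨a, b⟩, rfl⟩ := (Fin.appendEquiv 2 2).surjective x
    obtain ⟨⟨c, d⟩, rfl⟩ := (Fin.appendEquiv 2 2).surjective y
    rw [Equiv.symm_apply_apply, Equiv.symm_apply_apply]
    exact (h a c b d).2.1
  · intro x y
    obtain ⟨⟨a, b⟩, rfl⟩ := (Fin.appendEquiv 2 2).surjective x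
    obtain ⟨⟨c, d⟩, rfl⟩ := (Fin.appendEquiv 2 2).surjective y
    rw [Equiv.symm_apply_apply, Equiv.symm_apply_apply]
    exact (h a c b d).2.2

theorem is_right {s : K} (P : WM K ι) :
    Is P (tens s P (V s 1)) (Equiv.prodUnique ι (Fin 1)).symm := by
  refine ⟨?_, ?_, ?_⟩
  · intro x
    show P.wt x = P.wt x + (V s 1).wt default
    simp [V]
  · intro x y
    show P.E x y = (if (default : Fin 1) = default then P.E x y * s ^ (2 * (V s 1).wt default)
      else 0) + (if x = y then (V s 1).E default default else 0)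
    simp [V]
  · intro x y
    show P.F x y = (if (default : Fin 1) = default then P.F x y else 0) +
      (if x = y then s ^ (-(2 * P.wt y)) * (V s 1).F default default else 0)
    simp [V]

theorem is_left {s : K} (P : WM K ι) :
    Is P (tens s (V s 1) P) (Equiv.uniqueProd ι (Fin 1)).symm := by
  refine ⟨?_, ?_, ?_⟩
  · intro x
    show P.wt x = (V s 1).wt default + P.wt x
    simp [V]
  · intro x y
    show P.E x y = (if x = y then (V s 1).E default default * s ^ (2 * P.wt y) else 0) +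
      (if (default : Fin 1) = default then P.E x y else 0)
    simp [V]
  · intro x y
    show P.F x y = (if x = y then (V s 1).F default default else 0) +
      (if (default : Fin 1) = default then s ^ (-(2 * (V s 1).wt default)) * P.F x y else 0)
    simp [V]

end Gen

/-- sums over two labels -/
theorem sum_two {A ι : Type} [AddCommMonoid A] [Fintype ι] (f : (Fin 2 → ι) → A) :
    ∑ w, f w = ∑ c, ∑ d, f ![c, d] := by
  rw [← (finTwoArrowEquiv ι).symm.sum_comp, Fintype.sum_prod_type]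
  rfl

theorem sum_four {A ι : Type} [AddCommMonoid A] [Fintype ι] (f : (Fin (2 + 2) → ι) → A) :
    ∑ w, f w = ∑ a : Fin 2 → ι, ∑ b : Fin 2 → ι, f (Fin.append a b) := by
  rw [← (Fin.appendEquiv 2 2).sum_comp, Fintype.sum_prod_type]
  rfl

/-- a matrix acting in the middle of four labels -/
theorem atp_mid {A ι : Type} [CommRing A] [DecidableEq ι] (R : Matrix (ι × ι) (ι × ι) A)
    (x w u y : Fin 2 → ι) :
    atp R (1 : Fin (2 + 2)) 2 (Fin.append x w) (Fin.append u y) =
      if x 0 = u 0 ∧ w 1 = y 1 then R (x 1, w 0) (u 1, y 0) else 0 := by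
  have h : (∀ z : Fin (2 + 2), z ≠ 1 → z ≠ 2 → Fin.append x w z = Fin.append u y z) ↔
      (x 0 = u 0 ∧ w 1 = y 1) := by
    constructor
    · intro h
      exact ⟨h 0 (by decide) (by decide), h 3 (by decide) (by decide)⟩
    · rintro ⟨h1, h2⟩ z hz1 hz2
      fin_cases z
      · exact h1
      · exact absurd rfl hz1
      · exact absurd rfl hz2
      · exact h2
  unfold atp
  by_cases hc : x 0 = u 0 ∧ w 1 = y 1
  · rw [if_pos (h.2 hc), if_pos hc]
    rfl
  · rw [if_neg (fun hh => hc (h.1 hh)), if_neg hc]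

/-- the middle part of the clasp -/
theorem op_mid {A ι : Type} [CommRing A] [Fintype ι] [DecidableEq ι] (hA : ATP_Stmt)
    (T : RData A ι) (e : Bool) : op T 3 [(1, e), (1, e)] =
      atp ((if e then T.R else T.R') * (if e then T.R else T.R')) (1 : Fin (3 + 1)) 2 := by
  rw [(hA A ι (Fin (3 + 1)) (if e then T.R else T.R') (if e then T.R else T.R') 1 1 1 2 1 1
    (by decide)).1]
  simp only [op, List.map_cons, List.map_nil, List.prod_cons, List.prod_nil, mul_one]
  rfl

/-- the form below, on the last two of four labels -/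
def B1 {K : Type} [Field K] (s : K) (N : ℕ) : Matrix (Fin 2 → Fin N) (Fin (2 + 2) → Fin N) K :=
  (kr (1 : Matrix (Fin 2 → Fin N) (Fin 2 → Fin N) K)
    (Matrix.submatrix (fun _ y => vcup s N y.1 y.2 : Matrix (Fin 1) (Fin N × Fin N) K)
      (Equiv.refl (Fin 1)) (finTwoArrowEquiv (Fin N)))).submatrix
    (Equiv.prodUnique (Fin 2 → Fin N) (Fin 1)).symm (Fin.appendEquiv 2 2).symm

/-- the vector above, on the first two of four labels -/
def B3 {K : Type} [Field K] (s : K) (N : ℕ) : Matrix (Fin (2 + 2) → Fin N) (Fin 2 → Fin N) K :=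
  (kr (Matrix.submatrix (fun x _ => vcap s N x.1 x.2 : Matrix (Fin N × Fin N) (Fin 1) K)
      (finTwoArrowEquiv (Fin N)) (Equiv.refl (Fin 1)))
    (1 : Matrix (Fin 2 → Fin N) (Fin 2 → Fin N) K)).submatrix
    (Fin.appendEquiv 2 2).symm (Equiv.uniqueProd (Fin 2 → Fin N) (Fin 1)).symm

theorem B1_apply {K : Type} [Field K] (s : K) (N : ℕ) (x a w : Fin 2 → Fin N) :
    B1 s N x (Fin.append a w) = (if x = a then 1 else 0) * vcup s N (w 0) (w 1) := by
  have h : (Fin.appendEquiv 2 2).symm (Fin.append a w) = (a, w) :=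
    (Fin.appendEquiv 2 2).symm_apply_apply (a, w)
  unfold B1
  rw [Matrix.submatrix_apply, h]
  rfl

theorem B3_apply {K : Type} [Field K] (s : K) (N : ℕ) (u v y : Fin 2 → Fin N) :
    B3 s N (Fin.append u v) y = vcap s N (u 0) (u 1) * (if v = y then 1 else 0) := by
  have h : (Fin.appendEquiv 2 2).symm (Fin.append u v) = (u, v) :=
    (Fin.appendEquiv 2 2).symm_apply_apply (u, v)
  unfold B3
  rw [Matrix.submatrix_apply, h]
  rfl

/-- the clasp as a product -/
theorem clasp_eq {K : Type} [Field K] (hA : ATP_Stmt) (s : K) (N : ℕ) (e : Bool) :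
    clasp (MV s N) e =
      (B1 s N * (op (RD s (V s N)) 3 [(1, e), (1, e)] :
        Matrix (Fin (2 + 2) → Fin N) (Fin (2 + 2) → Fin N) K)) * B3 s N := by
  have hR : ∀ x y c d, (MV s N).X e x y c d =
      (if e then (RD s (V s N)).R else (RD s (V s N)).R') (x, y) (c, d) := by
    intro x y c d
    cases e <;> rfl
  rw [op_mid hA]
  generalize (if e then (RD s (V s N)).R else (RD s (V s N)).R') = R at hR ⊢
  ext x y
  rw [Matrix.mul_apply, sum_four]
  have h1 : ∀ u v : Fin 2 → Fin N,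
      (B1 s N * (atp (R * R) (1 : Fin (2 + 2)) 2)) x (Fin.append u v) =
      ∑ c, vcup s N c (v 1) * (if x 0 = u 0 then (R * R) (x 1, c) (u 1, v 0) else 0) := by
    intro u v
    rw [Matrix.mul_apply, sum_four, Finset.sum_eq_single x, sum_two]
    · refine Finset.sum_congr rfl fun c _ => ?_
      rw [Finset.sum_eq_single (v 1)]
      · rw [B1_apply, atp_mid, if_pos rfl, one_mul]
        simp
      · intro d _ hd
        rw [B1_apply, atp_mid, if_neg (c := x 0 = u 0 ∧ _), mul_zero]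
        rintro ⟨-, h⟩
        exact hd h
      · intro h
        exact absurd (Finset.mem_univ _) h
    · intro a _ ha
      refine Finset.sum_eq_zero fun w _ => ?_
      rw [B1_apply, if_neg (Ne.symm ha), zero_mul, zero_mul]
    · intro h
      exact absurd (Finset.mem_univ _) h
  have h2 : ∀ u : Fin 2 → Fin N, ∑ v : Fin 2 → Fin N,
      (B1 s N * (atp (R * R) (1 : Fin (2 + 2)) 2)) x (Fin.append u v) *
        B3 s N (Fin.append u v) y =
      (∑ c, vcup s N c (y 1) * (if x 0 = u 0 then (R * R) (x 1, c) (u 1, y 0) else 0)) *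
        vcap s N (u 0) (u 1) := by
    intro u
    rw [Finset.sum_eq_single y]
    · rw [h1, B3_apply, if_pos rfl, mul_one]
    · intro v _ hv
      rw [B3_apply, if_neg hv, mul_zero, mul_zero]
    · intro h
      exact absurd (Finset.mem_univ _) h
  refine Eq.trans ?_ (Finset.sum_congr rfl fun u _ => (h2 u).symm)
  rw [sum_two, Finset.sum_eq_single (x 0)]
  · show ∑ c, ∑ z, (MV s N).cup c (y 1) * (∑ p, ∑ r, (MV s N).X e (x 1) c p r *
      (MV s N).X e p r z (y 0)) * (MV s N).cap (x 0) z = _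
    rw [Finset.sum_comm]
    refine Finset.sum_congr rfl fun z _ => ?_
    rw [Finset.sum_mul]
    refine Finset.sum_congr rfl fun c _ => ?_
    show _ = vcup s N c (y 1) * (if x 0 = x 0 then (R * R) (x 1, c) (z, y 0) else 0) *
      vcap s N (x 0) z
    rw [if_pos rfl, Matrix.mul_apply, Fintype.sum_prod_type]
    simp only [hR]
    rfl
  · intro z' _ hz
    refine Finset.sum_eq_zero fun z _ => ?_
    rw [Finset.sum_eq_zero, zero_mul]
    intro c _
    show vcup s N c (y 1) * (if x 0 = z' then (R * R) (x 1, c) (z, y 0) else 0) = 0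
    rw [if_neg (Ne.symm hz), mul_zero]
  · intro h
    exact absurd (Finset.mem_univ _) h

end Pool.Agent.WD.CLM

namespace Pool.Agent.WD

open Pool.Agent.LibH11 Pool.Agent.IT Pool.Agent.GK Pool.Agent.TwoBr
open scoped BigOperators

/-- **CLM**: the clasp is a morphism -/
theorem t_CLM (hC : CUPM_Stmt) (hM : MOP_Stmt) (hT : TENSOK_Stmt) (hP : FPOWOK_Stmt)
    (hV : VOK_Stmt) (hF : FPOWT_Stmt) (hA : ATP_Stmt) : CLM_Stmt := by
  intro K _ s hs N hN e
  obtain ⟨-, -, -, -, hcup, hcap⟩ := hC K s hs N hN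
  have hVN : Ok s (V s N) := (hV K s hs).1 N
  have hV1 : Ok s (V s 1) := (hV K s hs).1 1
  have hP2 : Ok s (fpow s (V s N) 2) := hP K s hs (Fin N) (V s N) hVN 2
  have i2 := CLM.is_two (s := s) (V s N)
  have i4 := CLM.is_four hs hF (V s N)
  have ir := CLM.is_right (s := s) (fpow s (V s N) 2)
  have il := CLM.is_left (s := s) (fpow s (V s N) 2)
  have i1 : CLM.Is (V s 1) (V s 1) (Equiv.refl _) :=
    ⟨fun _ => rfl, fun _ _ => rfl, fun _ _ => rfl⟩
  have k1 := i4.mor ir ((hT K s hs _ _ _ _ (fpow s (V s N) 2) (fpow s (V s N) 2)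
    (fpow s (V s N) 2) (V s 1) hP2 hP2).2 _ _ (CLM.mor_one _) (i2.mor i1 hcup))
  have k3 := il.mor i4 ((hT K s hs _ _ _ _ (V s 1) (fpow s (V s N) 2)
    (fpow s (V s N) 2) (fpow s (V s N) 2) hV1 hP2).2 _ _ (i1.mor i2 hcap) (CLM.mor_one _))
  have k2 := hM K s hs (Fin N) (V s N) hVN 3 [(1, e), (1, e)]
  rw [CLM.clasp_eq hA]
  exact CLM.mor_mul k3 (CLM.mor_mul k2 k1)

end Pool.Agent.WD
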