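import Pool.Agent.WD.StT

/-!
CNJ: the closure of a knot braid does not change under conjugation.
-/

set_option autoImplicit false

namespace Pool.Agent.WD

open Pool.Agent.LibH11 Pool.Agent.LibH11.Sliced Pool.Agent.IT Pool.Agent.TwoBr

namespace CNJ

/-- equivalent closures -/
def E {n : ℕ} (g h : Br n) : Prop := ∀ u w : Word, Bd n u → Bd n w → ev n u = g → ev n w = h →
  EqD 1 (cl n u) (cl n w)

theorem E.refl {n : ℕ} (g : Br n) : E g g := fun _ _ hu hw h1 h2 =>
  cl_congr hu hw (h1.trans h2.symm)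

theorem E.symm {n : ℕ} {g h : Br n} (h1 : E g h) : E h g := fun u w hu hw hg hh =>
  (h1 w u hw hu hh hg).symm

theorem E.trans {n : ℕ} {g h k : Br n} (h1 : E g h) (h2 : E h k) : E g k := by
  intro u w hu hw hg hk
  obtain ⟨v, hv, hh⟩ := exists_word h
  exact (h1 u v hu hv hg hh).trans (h2 v w hv hw hh hk)

theorem E_of_word {n : ℕ} {u w : Word} (hu : Bd n u) (hw : Bd n w)
    (h : EqD 1 (cl n u) (cl n w)) : E (ev n u) (ev n w) := by
  intro u' w' hu' hw' h1 h2
  exact ((cl_congr hu' hu h1).trans h).trans (cl_congr hw hw' h2.symm)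

/-- the braids that can be moved around the closure -/
def C (n : ℕ) : Subgroup (Br n) where
  carrier := {c | ∀ g, E (g * c) (c * g)}
  one_mem' := by
    intro g
    rw [mul_one, one_mul]
    exact E.refl _
  mul_mem' := by
    intro a b ha hb g
    have h1 := hb (g * a)
    have h2 := ha (b * g)
    have e1 : g * (a * b) = g * a * b := by group
    have e2 : b * g * a = b * (g * a) := by group
    have e3 : a * b * g = a * (b * g) := by group
    rw [e1, e3]
    rw [e2] at h2
    exact h1.trans h2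
  inv_mem' := by
    intro a ha g
    have h1 := ha (a⁻¹ * g * a⁻¹)
    have e1 : a⁻¹ * g * a⁻¹ * a = a⁻¹ * g := by group
    have e2 : a * (a⁻¹ * g * a⁻¹) = g * a⁻¹ := by group
    rw [e1, e2] at h1
    exact h1.symm

theorem mem_C {n : ℕ} {c : Br n} : c ∈ C n ↔ ∀ g, E (g * c) (c * g) := Iff.rfl

theorem far_mem (h : SLC_Stmt) {n : ℕ} (i : Fin n) (hi : 1 ≤ (i : ℕ)) : sg i ∈ C n := by
  rw [mem_C]
  intro g
  obtain ⟨u, hu, rfl⟩ := exists_word g
  have hs : Bd n [((i : ℕ), true)] := by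
    intro x hx
    rw [List.mem_singleton] at hx
    rw [hx]
    exact i.2
  have e1 : ev n [((i : ℕ), true)] = sg i := by
    rw [ev_single, gen_true i.2]
  rw [← e1, ← ev_append, ← ev_append]
  exact E_of_word (hu.append hs) (hs.append hu) (h n i true u hi i.2 hu).symm

theorem sq_mem (h : SQR_Stmt) {n : ℕ} (i : Fin n) (hi : (i : ℕ) = 0) : sg i * sg i ∈ C n := by
  rw [mem_C]
  intro g
  obtain ⟨u, hu, rfl⟩ := exists_word g
  have hn : 0 < n := by
    have := i.2
    omega
  have hs : Bd n [(0, true), (0, true)] := by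
    intro x hx
    have hx' : x = (0, true) := by simpa using hx
    rw [hx']
    exact hn
  have e1 : ev n [(0, true), (0, true)] = sg i * sg i := by
    have hi' : i = ⟨0, hn⟩ := Fin.ext hi
    rw [ev_cons, ev_single, gen_true hn, hi']
  rw [← e1, ← ev_append, ← ev_append]
  exact E_of_word (hu.append hs) (hs.append hu) (h n true u hn hu).symm

theorem main (h1 : SLC_Stmt) (h2 : SQR_Stmt) (h3 : FIX_Stmt) {n : ℕ} (c y : Br n)
    (hy : IsKnot y) : E (c * y * c⁻¹) y := by
  obtain ⟨k, hk⟩ := (hy 0 ((perm c)⁻¹ 0)).exists_nat_pow_eq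
  have h4 : perm (c * y ^ k) 0 = 0 := by
    rw [map_mul, map_pow, Equiv.Perm.mul_apply, hk]
    simp
  have h5 := h3 n (C n) (fun i hi => far_mem h1 i hi) (fun i hi => sq_mem h2 i hi) _ h4
    (y * (c * y ^ k)⁻¹)
  have e1 : y * (c * y ^ k)⁻¹ * (c * y ^ k) = y := by group
  have e2 : c * y ^ k * (y * (c * y ^ k)⁻¹) = c * y * c⁻¹ := by
    have : y ^ k * y = y * y ^ k := (pow_succ y k).symm.trans (pow_succ' y k)
    calc c * y ^ k * (y * (c * y ^ k)⁻¹) = c * (y ^ k * y) * (y ^ k)⁻¹ * c⁻¹ := by group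
      _ = _ := by rw [this]; group
  rw [e1, e2] at h5
  exact h5.symm

end CNJ

theorem t_CNJ (h1 : SLC_Stmt) (h2 : SQR_Stmt) (h3 : FIX_Stmt) : CNJ_Stmt := by
  intro n c y hc hy hk
  have h4 := CNJ.main h1 h2 h3 (ev n c) (ev n y) hk
  rw [← ev_iw, ← ev_append, ← ev_append] at h4
  exact h4 _ _ ((hc.append hy).append (bd_iw.mpr hc)) hy rfl rfl

end Pool.Agent.WD
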