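import Pool.Agent.LibH11.SlicedNoether
import Pool.Agent.IT.Coef

/-!
COE: if integer valued finite type invariants of sliced knots separate two knots, so do finite type
invariants with values in any given nontrivial abelian group.
-/

set_option autoImplicit false

namespace Pool.Agent.WD.COE

open Pool.Agent.LibH11 Pool.Agent.LibH11.Sliced

theorem of_map {A C : Type*} [AddCommGroup A] [AddCommGroup C] {v : Sliced.Knot → A}
    (φ : A →+ C) (hφ : Function.Injective φ) (h : Sliced.IsFiniteType (fun K => φ (v K))) :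
    Sliced.IsFiniteType v := by
  obtain ⟨d, hd⟩ := h
  refine ⟨d, ?_⟩
  intro s hs
  have h1 := hd s hs
  have : onDiags (fun K => φ (v K)) = fun w => φ (onDiags v w) :=
    funext (onDiags_comp v φ (map_zero φ))
  rw [this, resolve_map] at h1
  exact hφ (by rw [h1, map_zero])

variable {v : Sliced.Knot → ℚ}

theorem pow (hv : Sliced.IsFiniteType v) : ∀ i : ℕ, Sliced.IsFiniteType (fun K => v K ^ (i + 1)) := by
  intro i
  induction i with
  | zero => simpa using hv
  | succ i ih =>
    have := ih.mul hv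
    simpa only [pow_succ] using this

theorem sum {ι : Type*} (s : Finset ι) (f : ι → Sliced.Knot → ℚ)
    (h : ∀ i ∈ s, Sliced.IsFiniteType (f i)) : Sliced.IsFiniteType (fun K => ∑ i ∈ s, f i K) := by
  classical
  induction s using Finset.induction_on with
  | empty => simpa using isFiniteType_zero
  | insert a s ha ih =>
    have h1 := (h a (Finset.mem_insert_self a s)).add
      (ih fun i hi => h i (Finset.mem_insert_of_mem hi))
    simpa only [Finset.sum_insert ha] using h1

theorem poly (hv : Sliced.IsFiniteType v) (P : Polynomial ℚ) (h0 : P.eval 0 = 0) :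
    Sliced.IsFiniteType (fun K => P.eval (v K)) := by
  have e : (fun K => P.eval (v K)) =
      fun K => ∑ i ∈ Finset.range P.natDegree, P.coeff (i + 1) * v K ^ (i + 1) := by
    funext K
    rw [Polynomial.eval_eq_sum_range, Finset.sum_range_succ']
    have : P.coeff 0 = 0 := by rw [Polynomial.coeff_zero_eq_eval_zero, h0]
    rw [this, zero_mul, add_zero]
  rw [e]
  exact sum _ _ fun i _ => (pow hv i).const_mul _

/-- `2 n ^ 2 + n` as a natural number -/
def un (n : ℤ) : ℕ := (2 * n ^ 2 + n).toNat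

theorem un_cast (n : ℤ) : ((un n : ℕ) : ℤ) = 2 * n ^ 2 + n :=
  Int.toNat_of_nonneg (sq_nonneg' n)

theorem un_inj {n m : ℤ} (h : un n = un m) : n = m := by
  apply sq_inj
  rw [← un_cast, ← un_cast, h]

theorem chs (hv : Sliced.IsFiniteType v) {z : Sliced.Knot → ℤ} (hz : ∀ K, v K = z K) {m : ℕ}
    (hm : m ≠ 0) : Sliced.IsFiniteType (fun K => (((un (z K)).choose m : ℕ) : ℤ)) := by
  refine of_map (Int.castAddHom ℚ) Int.cast_injective ?_
  let P : Polynomial ℚ := (descPochhammer ℚ m).comp (2 * Polynomial.X ^ 2 + Polynomial.X)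
  have h0 : P.eval 0 = 0 := by
    simp only [P, Polynomial.eval_comp, Polynomial.eval_add, Polynomial.eval_mul,
      Polynomial.eval_pow, Polynomial.eval_X]
    have : (2 : Polynomial ℚ).eval 0 * 0 ^ 2 + 0 = ((0 : ℕ) : ℚ) := by simp
    rw [this, descPochhammer_eval_eq_descFactorial,
      Nat.descFactorial_eq_zero_iff_lt.mpr (Nat.pos_of_ne_zero hm)]
    simp
  have h1 := (poly hv P h0).const_mul ((m.factorial : ℚ)⁻¹)
  have e : (fun K => (Int.castAddHom ℚ) ((((un (z K)).choose m : ℕ) : ℤ))) =
      fun K => ((m.factorial : ℚ)⁻¹) * P.eval (v K) := by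
    funext K
    have h2 : P.eval (v K) = ((un (z K)).descFactorial m : ℚ) := by
      simp only [P, Polynomial.eval_comp, Polynomial.eval_add, Polynomial.eval_mul,
        Polynomial.eval_pow, Polynomial.eval_X]
      have h3 : (2 : Polynomial ℚ).eval (v K) * v K ^ 2 + v K = ((un (z K) : ℕ) : ℚ) := by
        have h4 : ((un (z K) : ℕ) : ℚ) = ((2 * (z K) ^ 2 + z K : ℤ) : ℚ) := by
          rw [← un_cast]
          simp
        rw [h4, hz K]
        push_cast
        have : (2 : Polynomial ℚ).eval ((z K : ℤ) : ℚ) = 2 := by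
          simpa using Polynomial.eval_C (a := (2 : ℚ)) (x := ((z K : ℤ) : ℚ))
        rw [this]
      rw [h3, descPochhammer_eval_eq_descFactorial]
    rw [h2, Nat.descFactorial_eq_factorial_mul_choose]
    have h5 : (m.factorial : ℚ) ≠ 0 := by exact_mod_cast m.factorial_ne_zero
    push_cast
    rw [← mul_assoc, inv_mul_cancel₀ h5, one_mul]
    simp
  rw [e]
  exact h1

theorem exists_prime (hv : Sliced.IsFiniteType v) (hz : ∀ K, ∃ n : ℤ, v K = n)
    {K K' : Sliced.Knot} (h : v K ≠ v K') (p : ℕ) [hp : Fact p.Prime] :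
    ∃ w : Sliced.Knot → ZMod p, Sliced.IsFiniteType w ∧ w K ≠ w K' := by
  choose z hz using hz
  have hne : un (z K) ≠ un (z K') := fun h1 => h (by rw [hz, hz, un_inj h1])
  obtain ⟨k, hk⟩ : ∃ k : ℕ, un (z K) < p ^ k ∧ un (z K') < p ^ k := by
    refine ⟨max (un (z K)) (un (z K')), ?_, ?_⟩
    · exact lt_of_le_of_lt (le_max_left _ _) (Nat.lt_pow_self hp.out.one_lt)
    · exact lt_of_le_of_lt (le_max_right _ _) (Nat.lt_pow_self hp.out.one_lt)
  obtain ⟨j, -, hj⟩ : ∃ j, j < k ∧ un (z K) / p ^ j % p ≠ un (z K') / p ^ j % p := by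
    by_contra hcon
    push Not at hcon
    exact hne (eq_of_digits hp.out.pos k _ _ hk.1 hk.2 hcon)
  have hm : p ^ j ≠ 0 := pow_ne_zero _ hp.out.ne_zero
  refine ⟨fun K => Int.castAddHom (ZMod p) (((un (z K)).choose (p ^ j) : ℕ) : ℤ),
    (chs hv hz hm).map _, ?_⟩
  intro h1
  apply hj
  simp only [Int.coe_castAddHom, Int.cast_natCast] at h1
  rw [choose_pow_cast, choose_pow_cast, ZMod.natCast_eq_natCast_iff'] at h1
  exact h1

/-- Separation by an integer valued finite type invariant gives separation with values in `A`. -/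
theorem exists_separating (hv : Sliced.IsFiniteType v) (hz : ∀ K, ∃ n : ℤ, v K = n)
    {K K' : Sliced.Knot} (h : v K ≠ v K') (A : Type*) [AddCommGroup A] [Nontrivial A] :
    ∃ w : Sliced.Knot → A, Sliced.IsFiniteType w ∧ w K ≠ w K' := by
  obtain ⟨a, ha⟩ := exists_ne (0 : A)
  by_cases h0 : addOrderOf a = 0
  · choose z hz' using hz
    have hzt : Sliced.IsFiniteType z := by
      refine of_map (Int.castAddHom ℚ) Int.cast_injective ?_
      have : (fun K => (Int.castAddHom ℚ) (z K)) = v := by
        funext K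
        rw [hz' K]
        rfl
      rw [this]
      exact hv
    refine ⟨fun K => zmultiplesHom A a (z K), hzt.map (zmultiplesHom A a), ?_⟩
    intro h1
    change z K • a = z K' • a at h1
    rw [← sub_eq_zero, ← sub_smul] at h1
    have h2 := (addOrderOf_dvd_iff_zsmul_eq_zero (x := a)).mpr h1
    rw [h0, Nat.cast_zero, zero_dvd_iff, sub_eq_zero] at h2
    exact h (by rw [hz', hz', h2])
  · set n := addOrderOf a with hn
    have hn1 : n ≠ 1 := by
      intro h1
      exact ha (AddMonoid.addOrderOf_eq_one_iff.mp h1)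
    obtain ⟨p, hp, m, hm⟩ := Nat.exists_prime_and_dvd hn1
    have hb : addOrderOf (m • a) = p := by
      have hm0 : m ≠ 0 := by
        rintro rfl
        exact h0 (by rw [hm, mul_zero])
      rw [addOrderOf_nsmul' a hm0, ← hn, hm, Nat.gcd_eq_right (dvd_mul_left m p),
        Nat.mul_div_cancel _ (Nat.pos_of_ne_zero hm0)]
    obtain ⟨φ, hφ⟩ := IT.exists_zmod_embedding hb
    have : Fact p.Prime := ⟨hp⟩
    obtain ⟨w, hw, hne⟩ := exists_prime hv hz h p
    exact ⟨fun K => φ (w K), hw.map φ, fun h1 => hne (hφ h1)⟩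

end Pool.Agent.WD.COE
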