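import Pool.Agent.WD.StQ
import Pool.Agent.IT.QQnum
import Pool.Agent.IT.QQbin

/-!
# Module CUPM (helper89): the invariant form and the invariant vector
-/

set_option autoImplicit false

namespace Pool.Agent.WD

open Pool.Agent.LibH11 Pool.Agent.IT Pool.Agent.GK Pool.Agent.TwoBr
open Pool.Agent.LibH11.Sliced (Diag Kind cnt IsLongKnot ofDiag braidWord)
open scoped BigOperators

namespace CUPM

variable {K : Type} [Field K] {s : K}

/-- The coefficient of the form. -/
def C (s : K) (N x y : ℕ) : K :=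
  (-1) ^ x * s ^ (2 * (x : ℤ) * ((x : ℤ) - N)) * (qfac s (N - 1) / (qfac s x * qfac s y))

lemma qfac_ne (h : IT.Gen s) (n : ℕ) : qfac s n ≠ 0 :=
  QBIN.qfac_ne s (qnum K s h).2.1 n

lemma C_ne (h : IT.Gen s) (N x y : ℕ) : C s N x y ≠ 0 := by
  unfold C
  refine mul_ne_zero (mul_ne_zero (pow_ne_zero _ (neg_ne_zero.2 one_ne_zero))
    (zpow_ne_zero _ h.1)) ?_
  exact div_ne_zero (qfac_ne h _) (mul_ne_zero (qfac_ne h _) (qfac_ne h _))

lemma vcup_pos {N : ℕ} {x y : Fin N} (h : (x : ℕ) + y + 1 = N) :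
    vcup s N x y = C s N x y := by
  unfold vcup C
  rw [if_pos h]

lemma vcup_neg {N : ℕ} {x y : Fin N} (h : ¬ (x : ℕ) + y + 1 = N) : vcup s N x y = 0 := by
  unfold vcup
  rw [if_neg h]

lemma vcap_pos {N : ℕ} {x y : Fin N} (h : (x : ℕ) + y + 1 = N) :
    vcap s N x y = (C s N y x)⁻¹ := by
  unfold vcap
  rw [if_pos h, vcup_pos (by omega)]

lemma vcap_neg {N : ℕ} {x y : Fin N} (h : ¬ (x : ℕ) + y + 1 = N) : vcap s N x y = 0 := by
  unfold vcap
  rw [if_neg h]

/-- The basic relation. -/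
lemma key (h : IT.Gen s) {N a b : ℕ} (hN : N = a + b + 2) :
    C s N a (b + 1) * qn s ((b : ℤ) + 1) * s ^ (2 * ((a : ℤ) - b - 1)) +
      C s N (a + 1) b * qn s ((a : ℤ) + 1) = 0 := by
  have h1 := qfac_ne h a
  have h2 := qfac_ne h b
  have h3 : qn s ((a : ℤ) + 1) ≠ 0 := (qnum K s h).2.1 _ (by omega)
  have h4 : qn s ((b : ℤ) + 1) ≠ 0 := (qnum K s h).2.1 _ (by omega)
  have e1 : s ^ (2 * (a : ℤ) * ((a : ℤ) - N)) * s ^ (2 * ((a : ℤ) - b - 1)) =
      s ^ (-(2 * ((a : ℤ) + 1) * ((b : ℤ) + 1))) := by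
    rw [← zpow_add₀ h.1]
    congr 1
    rw [hN]
    push_cast
    ring
  have e2 : s ^ (2 * ((a + 1 : ℕ) : ℤ) * (((a + 1 : ℕ) : ℤ) - N)) =
      s ^ (-(2 * ((a : ℤ) + 1) * ((b : ℤ) + 1))) := by
    congr 1
    rw [hN]
    push_cast
    ring
  unfold C
  rw [QBIN.qfac_succ, QBIN.qfac_succ, e2, pow_succ]
  have e3 : (-1 : K) ^ a * s ^ (2 * (a : ℤ) * ((a : ℤ) - N)) *
      (qfac s (N - 1) / (qfac s a * (qfac s b * qn s ((b : ℤ) + 1)))) * qn s ((b : ℤ) + 1) *
      s ^ (2 * ((a : ℤ) - b - 1)) =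
      (-1 : K) ^ a * (s ^ (2 * (a : ℤ) * ((a : ℤ) - N)) * s ^ (2 * ((a : ℤ) - b - 1))) *
      (qfac s (N - 1) / (qfac s a * qfac s b)) := by
    field_simp
  rw [e3, e1]
  field_simp
  ring

/-- The basic relation for the inverses. -/
lemma key2 (h : IT.Gen s) {N a b : ℕ} (hN : N = a + b + 2) :
    qn s ((a : ℤ) + 1) * s ^ (2 * ((b : ℤ) + 1 - a)) * (C s N a (b + 1))⁻¹ +
      qn s ((b : ℤ) + 1) * (C s N (a + 1) b)⁻¹ = 0 := by
  have h1 := C_ne h N a (b + 1)
  have h2 := C_ne h N (a + 1) b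
  have h3 := key h hN
  have e1 : s ^ (2 * ((b : ℤ) + 1 - a)) * s ^ (2 * ((a : ℤ) - b - 1)) = 1 := by
    rw [← zpow_add₀ h.1]
    have : 2 * ((b : ℤ) + 1 - a) + 2 * ((a : ℤ) - b - 1) = 0 := by ring
    rw [this, zpow_zero]
  have h5 : (C s N a (b + 1) * C s N (a + 1) b) *
      (qn s ((a : ℤ) + 1) * s ^ (2 * ((b : ℤ) + 1 - a)) * (C s N a (b + 1))⁻¹ +
      qn s ((b : ℤ) + 1) * (C s N (a + 1) b)⁻¹) =
      s ^ (2 * ((b : ℤ) + 1 - a)) * (C s N a (b + 1) * qn s ((b : ℤ) + 1) *
        s ^ (2 * ((a : ℤ) - b - 1)) + C s N (a + 1) b * qn s ((a : ℤ) + 1)) := by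
    have h6 : (C s N a (b + 1) * C s N (a + 1) b) *
      (qn s ((a : ℤ) + 1) * s ^ (2 * ((b : ℤ) + 1 - a)) * (C s N a (b + 1))⁻¹ +
      qn s ((b : ℤ) + 1) * (C s N (a + 1) b)⁻¹) =
      C s N (a + 1) b * qn s ((a : ℤ) + 1) * s ^ (2 * ((b : ℤ) + 1 - a)) +
        C s N a (b + 1) * qn s ((b : ℤ) + 1) := by
      field_simp
    rw [h6]
    linear_combination (-(C s N a (b + 1) * qn s ((b : ℤ) + 1))) * e1
  rw [h3, mul_zero] at h5
  exact (mul_eq_zero.1 h5).resolve_left (mul_ne_zero h1 h2)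

/-- Two sums over the labels. -/
lemma two {N : ℕ} (f g : Fin N → K) (x y : Fin N) (hf : ∀ z, z ≠ x → f z = 0)
    (hg : ∀ z, z ≠ y → g z = 0) : ∑ z, f z + ∑ z, g z = f x + g y := by
  rw [Finset.sum_eq_single x (fun z _ hz => hf z hz) (fun h => absurd (Finset.mem_univ _) h),
    Finset.sum_eq_single y (fun z _ hz => hg z hz) (fun h => absurd (Finset.mem_univ _) h)]

lemma cupE (h : IT.Gen s) {N : ℕ} (y₁ y₂ : Fin N) :
    ∑ x, vcup s N x y₂ * ((V s N).E x y₁ * s ^ (2 * (V s N).wt y₂)) +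
      ∑ x, vcup s N y₁ x * (V s N).E x y₂ = 0 := by
  by_cases hy : (y₁ : ℕ) + y₂ = N
  · obtain ⟨a, ha⟩ : ∃ a : ℕ, (y₁ : ℕ) = a + 1 := ⟨y₁ - 1, by omega⟩
    obtain ⟨b, hb⟩ : ∃ b : ℕ, (y₂ : ℕ) = b + 1 := ⟨y₂ - 1, by omega⟩
    have hN : N = a + b + 2 := by omega
    rw [two _ _ (⟨a, by omega⟩ : Fin N) (⟨b, by omega⟩ : Fin N)]
    · rw [vcup_pos (by simp; omega), vcup_pos (by simp; omega)]
      have k := key h hN
      simp only [V, ha, hb, if_true]
      have e1 : ((N : ℤ) - ((a + 1 : ℕ) : ℤ)) = (b : ℤ) + 1 := by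
        rw [hN]
        push_cast
        ring
      have e2 : ((N : ℤ) - ((b + 1 : ℕ) : ℤ)) = (a : ℤ) + 1 := by
        rw [hN]
        push_cast
        ring
      have e3 : 2 * ((N : ℤ) - 1 - 2 * ((b + 1 : ℕ) : ℤ)) = 2 * ((a : ℤ) - b - 1) := by
        rw [hN]
        push_cast
        ring
      rw [e1, e2, e3, ← mul_assoc]
      exact k
    · intro z hz
      have : ¬ (z : ℕ) + 1 = y₁ := by
        intro h1
        apply hz
        apply Fin.ext
        simp
        omega
      simp [V, this]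
    · intro z hz
      have : ¬ (z : ℕ) + 1 = y₂ := by
        intro h1
        apply hz
        apply Fin.ext
        simp
        omega
      simp [V, this]
  · rw [Finset.sum_eq_zero, Finset.sum_eq_zero, add_zero]
    · intro z _
      by_cases h1 : (z : ℕ) + 1 = y₂
      · rw [vcup_neg (by omega), zero_mul]
      · simp [V, h1]
    · intro z _
      by_cases h1 : (z : ℕ) + 1 = y₁
      · rw [vcup_neg (by omega), zero_mul]
      · simp [V, h1]

lemma cupF (h : IT.Gen s) {N : ℕ} (y₁ y₂ : Fin N) :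
    ∑ x, vcup s N x y₂ * (V s N).F x y₁ +
      ∑ x, vcup s N y₁ x * (s ^ (-(2 * (V s N).wt y₁)) * (V s N).F x y₂) = 0 := by
  by_cases hy : (y₁ : ℕ) + y₂ + 2 = N
  · obtain ⟨a, ha⟩ : ∃ a : ℕ, (y₁ : ℕ) = a := ⟨y₁, rfl⟩
    obtain ⟨b, hb⟩ : ∃ b : ℕ, (y₂ : ℕ) = b := ⟨y₂, rfl⟩
    have hN : N = a + b + 2 := by omega
    rw [two _ _ (⟨a + 1, by omega⟩ : Fin N) (⟨b + 1, by omega⟩ : Fin N)]
    · rw [vcup_pos (by simp; omega), vcup_pos (by simp; omega)]
      have k := key h hN
      simp only [V, ha, hb, if_true]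
      have e3 : -(2 * ((N : ℤ) - 1 - 2 * (a : ℤ))) = 2 * ((a : ℤ) - b - 1) := by
        rw [hN]
        push_cast
        ring
      rw [e3]
      push_cast
      linear_combination k
    · intro z hz
      have : ¬ (z : ℕ) = y₁ + 1 := by
        intro h1
        apply hz
        apply Fin.ext
        simp
        omega
      simp [V, this]
    · intro z hz
      have : ¬ (z : ℕ) = y₂ + 1 := by
        intro h1
        apply hz
        apply Fin.ext
        simp
        omega
      simp [V, this]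
  · rw [Finset.sum_eq_zero, Finset.sum_eq_zero, add_zero]
    · intro z _
      by_cases h1 : (z : ℕ) = y₂ + 1
      · rw [vcup_neg (by omega), zero_mul]
      · simp [V, h1]
    · intro z _
      by_cases h1 : (z : ℕ) = y₁ + 1
      · rw [vcup_neg (by omega), zero_mul]
      · simp [V, h1]

lemma capE (h : IT.Gen s) {N : ℕ} (x₁ x₂ : Fin N) :
    ∑ y, ((V s N).E x₁ y * s ^ (2 * (V s N).wt x₂)) * vcap s N y x₂ +
      ∑ y, (V s N).E x₂ y * vcap s N x₁ y = 0 := by
  by_cases hy : (x₁ : ℕ) + x₂ + 2 = N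
  · obtain ⟨b, hb⟩ : ∃ b : ℕ, (x₁ : ℕ) = b := ⟨x₁, rfl⟩
    obtain ⟨a, ha⟩ : ∃ a : ℕ, (x₂ : ℕ) = a := ⟨x₂, rfl⟩
    have hN : N = a + b + 2 := by omega
    rw [two _ _ (⟨b + 1, by omega⟩ : Fin N) (⟨a + 1, by omega⟩ : Fin N)]
    · rw [vcap_pos (by simp; omega), vcap_pos (by simp; omega)]
      have k := key2 h hN
      simp only [V, ha, hb, if_true]
      have e1 : ((N : ℤ) - ((a + 1 : ℕ) : ℤ)) = (b : ℤ) + 1 := by
        rw [hN]
        push_cast
        ring
      have e2 : ((N : ℤ) - ((b + 1 : ℕ) : ℤ)) = (a : ℤ) + 1 := by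
        rw [hN]
        push_cast
        ring
      have e3 : 2 * ((N : ℤ) - 1 - 2 * (a : ℤ)) = 2 * ((b : ℤ) + 1 - a) := by
        rw [hN]
        push_cast
        ring
      rw [e1, e2, e3]
      exact k
    · intro z hz
      have : ¬ (x₁ : ℕ) + 1 = z := by
        intro h1
        apply hz
        apply Fin.ext
        simp
        omega
      simp [V, this]
    · intro z hz
      have : ¬ (x₂ : ℕ) + 1 = z := by
        intro h1
        apply hz
        apply Fin.ext
        simp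
        omega
      simp [V, this]
  · rw [Finset.sum_eq_zero, Finset.sum_eq_zero, add_zero]
    · intro z _
      by_cases h1 : (x₂ : ℕ) + 1 = z
      · rw [vcap_neg (by omega), mul_zero]
      · simp [V, h1]
    · intro z _
      by_cases h1 : (x₁ : ℕ) + 1 = z
      · rw [vcap_neg (by omega), mul_zero]
      · simp [V, h1]

lemma capF (h : IT.Gen s) {N : ℕ} (x₁ x₂ : Fin N) :
    ∑ y, (V s N).F x₁ y * vcap s N y x₂ +
      ∑ y, (s ^ (-(2 * (V s N).wt x₁)) * (V s N).F x₂ y) * vcap s N x₁ y = 0 := by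
  by_cases hy : (x₁ : ℕ) + x₂ = N
  · obtain ⟨b, hb⟩ : ∃ b : ℕ, (x₁ : ℕ) = b + 1 := ⟨x₁ - 1, by omega⟩
    obtain ⟨a, ha⟩ : ∃ a : ℕ, (x₂ : ℕ) = a + 1 := ⟨x₂ - 1, by omega⟩
    have hN : N = a + b + 2 := by omega
    rw [two _ _ (⟨b, by omega⟩ : Fin N) (⟨a, by omega⟩ : Fin N)]
    · rw [vcap_pos (by simp; omega), vcap_pos (by simp; omega)]
      have k := key2 h hN
      simp only [V, ha, hb, if_true]
      have e3 : -(2 * ((N : ℤ) - 1 - 2 * ((b + 1 : ℕ) : ℤ))) = 2 * ((b : ℤ) + 1 - a) := by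
        rw [hN]
        push_cast
        ring
      rw [e3]
      push_cast
      linear_combination k
    · intro z hz
      have : ¬ (x₁ : ℕ) = z + 1 := by
        intro h1
        apply hz
        apply Fin.ext
        simp
        omega
      simp [V, this]
    · intro z hz
      have : ¬ (x₂ : ℕ) = z + 1 := by
        intro h1
        apply hz
        apply Fin.ext
        simp
        omega
      simp [V, this]
  · rw [Finset.sum_eq_zero, Finset.sum_eq_zero, add_zero]
    · intro z _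
      by_cases h1 : (x₂ : ℕ) = z + 1
      · rw [vcap_neg (by omega), mul_zero]
      · simp [V, h1]
    · intro z _
      by_cases h1 : (x₁ : ℕ) = z + 1
      · rw [vcap_neg (by omega), mul_zero]
      · simp [V, h1]

/-- The matrices of the trivial module are zero. -/
lemma V1E : (V s 1).E = 0 := by
  ext a b
  simp [V]

lemma V1F : (V s 1).F = 0 := by
  ext a b
  simp [V]

/-- The weights. -/
lemma piv (h : IT.Gen s) {N a b : ℕ} (hN : a + b + 1 = N) :
    C s N a b * (C s N b a)⁻¹ = (-1) ^ (N - 1) * s ^ (2 * ((N : ℤ) - 1 - 2 * a)) := by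
  have h2 := qfac_ne h a
  have h3 := qfac_ne h b
  have h4 := qfac_ne h (N - 1)
  have h6 : s ^ (2 * (b : ℤ) * ((b : ℤ) - N)) ≠ 0 := zpow_ne_zero _ h.1
  have e1 : s ^ (2 * (a : ℤ) * ((a : ℤ) - N)) =
      s ^ (2 * ((N : ℤ) - 1 - 2 * a)) * s ^ (2 * (b : ℤ) * ((b : ℤ) - N)) := by
    rw [← zpow_add₀ h.1]
    congr 1
    rw [← hN]
    push_cast
    ring
  have e2 : ((-1 : K) ^ a) = (-1) ^ (N - 1) * (-1) ^ b := by
    have : N - 1 = a + b := by omega
    rw [this, pow_add, mul_assoc, ← mul_pow, neg_one_mul, neg_neg, one_pow, mul_one]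
  have h7 := C_ne h N b a
  rw [← div_eq_mul_inv, div_eq_iff h7]
  unfold C
  rw [e1, e2, mul_comm (qfac s b) (qfac s a)]
  ring

end CUPM

open CUPM in
theorem t_CUPM : CUPM_Stmt := by
  intro K _ s h N hN
  refine ⟨?_, ?_, ?_, ?_, ?_, ?_⟩
  · intro x y hxy
    rw [vcup_pos hxy]
    exact C_ne h _ _ _
  · intro x a
    show ∑ b, vcup s N a b * vcap s N b x = _
    have hb : N - 1 - (a : ℕ) < N := by omega
    rw [Finset.sum_eq_single (⟨N - 1 - a, hb⟩ : Fin N)]
    · rw [vcup_pos (by simp; omega)]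
      split_ifs with h1
      · subst h1
        rw [vcap_pos (by simp; omega)]
        exact mul_inv_cancel₀ (C_ne h _ _ _)
      · rw [vcap_neg, mul_zero]
        simp only
        intro h2
        apply h1
        apply Fin.ext
        omega
    · intro z _ hz
      rw [vcup_neg, zero_mul]
      intro h2
      apply hz
      apply Fin.ext
      simp
      omega
    · intro h1
      exact absurd (Finset.mem_univ _) h1
  · intro x b
    show ∑ a, vcup s N a b * vcap s N x a = _
    have hb : N - 1 - (b : ℕ) < N := by omega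
    rw [Finset.sum_eq_single (⟨N - 1 - b, hb⟩ : Fin N)]
    · rw [vcup_pos (by simp; omega)]
      split_ifs with h1
      · subst h1
        rw [vcap_pos (by simp; omega)]
        exact mul_inv_cancel₀ (C_ne h _ _ _)
      · rw [vcap_neg, mul_zero]
        simp only
        intro h2
        apply h1
        apply Fin.ext
        omega
    · intro z _ hz
      rw [vcup_neg, zero_mul]
      intro h2
      apply hz
      apply Fin.ext
      simp
      omega
    · intro h1
      exact absurd (Finset.mem_univ _) h1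
  · intro a a'
    show ∑ b, vcup s N a b * vcap s N a' b = _
    have hb : N - 1 - (a : ℕ) < N := by omega
    rw [Finset.sum_eq_single (⟨N - 1 - a, hb⟩ : Fin N)]
    · rw [vcup_pos (by simp; omega)]
      split_ifs with h1
      · subst h1
        rw [vcap_pos (by simp; omega)]
        unfold kap
        simp only [V]
        exact piv h (by omega)
      · rw [vcap_neg, mul_zero]
        simp only
        intro h2
        apply h1
        apply Fin.ext
        omega
    · intro z _ hz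
      rw [vcup_neg, zero_mul]
      intro h2
      apply hz
      apply Fin.ext
      simp
      omega
    · intro h1
      exact absurd (Finset.mem_univ _) h1
  · refine ⟨?_, ?_, ?_⟩
    · intro b a hab
      have h1 : (a.1 : ℕ) + a.2 + 1 = N := by
        by_contra h2
        exact hab (vcup_neg h2)
      simp only [V, tens]
      have := b.2
      push_cast
      omega
    · rw [V1E, Matrix.zero_mul]
      ext b y
      rw [Matrix.zero_apply, Matrix.mul_apply, Fintype.sum_prod_type]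
      simp only [tens, mul_add, Finset.sum_add_distrib, mul_ite, mul_zero,
        Finset.sum_ite_eq', Finset.mem_univ, if_true]
      rw [Finset.sum_comm (f := fun x z => if x = y.1 then vcup s N x z * (V s N).E z y.2 else 0)]
      simp only [Finset.sum_ite_eq', Finset.mem_univ, if_true]
      exact (cupE h y.1 y.2).symm
    · rw [V1F, Matrix.zero_mul]
      ext b y
      rw [Matrix.zero_apply, Matrix.mul_apply, Fintype.sum_prod_type]
      simp only [tens, mul_add, Finset.sum_add_distrib, mul_ite, mul_zero,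
        Finset.sum_ite_eq', Finset.mem_univ, if_true]
      rw [Finset.sum_comm (f := fun x z => if x = y.1 then
        vcup s N x z * (s ^ (-(2 * (V s N).wt y.1)) * (V s N).F z y.2) else 0)]
      simp only [Finset.sum_ite_eq', Finset.mem_univ, if_true]
      exact (cupF h y.1 y.2).symm
  · refine ⟨?_, ?_, ?_⟩
    · intro b a hab
      have h1 : (b.1 : ℕ) + b.2 + 1 = N := by
        by_contra h2
        exact hab (vcap_neg h2)
      simp only [V, tens]
      have := a.2
      push_cast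
      omega
    · rw [V1E, Matrix.mul_zero]
      ext x b
      rw [Matrix.zero_apply, Matrix.mul_apply, Fintype.sum_prod_type]
      simp only [tens, add_mul, Finset.sum_add_distrib, ite_mul, zero_mul,
        Finset.sum_ite_eq, Finset.mem_univ, if_true]
      rw [Finset.sum_comm (f := fun y z => if x.1 = y then (V s N).E x.2 z * vcap s N y z else 0)]
      simp only [Finset.sum_ite_eq, Finset.mem_univ, if_true]
      exact capE h x.1 x.2
    · rw [V1F, Matrix.mul_zero]
      ext x b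
      rw [Matrix.zero_apply, Matrix.mul_apply, Fintype.sum_prod_type]
      simp only [tens, add_mul, Finset.sum_add_distrib, ite_mul, zero_mul,
        Finset.sum_ite_eq, Finset.mem_univ, if_true]
      rw [Finset.sum_comm (f := fun y z => if x.1 = y then
        (s ^ (-(2 * (V s N).wt y)) * (V s N).F x.2 z) * vcap s N y z else 0)]
      simp only [Finset.sum_ite_eq, Finset.mem_univ, if_true]
      exact capF h x.1 x.2

end Pool.Agent.WD
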