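import Pool.Agent.WD.StX

/-!
# Alexander's theorem for diagrams in Morse position: a minimum moves to the right
-/

set_option autoImplicit false

namespace Pool.Agent.WD

open Pool.Agent.LibH11 Pool.Agent.LibH11.Sliced Pool.Agent.IT Pool.Agent.TwoBr

theorem t_CUT : CUT_Stmt := by
  intro c a
  induction a with
  | zero => exact EqD.refl _
  | succ a ih =>
    have e1 : sh 1 (xs c (a + 1)) = sh 1 (xs c a) ++ [(.crs c, a + 1)] := by
      rw [NAT.xs_succ, sh_append]
      rfl
    have e2 : sh (a + 1) [(Kind.crs c, 0)] = [(.crs c, a + 1)] := by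
      simp
    have h0 : cnt (a + 1) [(Kind.cup, a)] = some (a + 3) := cnt_cup (by omega)
    have h0' : cnt (a + 1) [(Kind.cup, a + 1)] = some (a + 3) := cnt_cup (by omega)
    have hy : cnt (a + 3) (ys (!c) a) = some (a + 3) := cnt_ys _ _ _ (by omega)
    have hc : cnt (a + 3) [(Kind.crs c, a + 1)] = some (a + 3) := cnt_crs (by omega)
    -- the induction hypothesis
    have h1 : EqD (a + 1) (((.cup, 0) :: sh 1 (xs c a)) ++ [(.crs c, a + 1)])
        (((.cup, a) :: ys (!c) a) ++ [(.crs c, a + 1)]) := by
      refine (ih.widen 1).right _ ?_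
      have h2 : cnt (a + 1) ((.cup, 0) :: sh 1 (xs c a)) = some (a + 3) := by
        rw [(ih.widen 1).cnt_eq, ← List.singleton_append, cnt_app h0, hy]
      rw [cnt_app h2, hc]
      simp
    -- the crossing passes the others
    have h3 : EqD (a + 3) (ys (!c) a ++ [(.crs c, a + 1)]) ([(.crs c, a + 1)] ++ ys (!c) a) := by
      have h4 := far_words (ys (!c) a) [(Kind.crs c, 0)] (a + 1) (a + 1) 2
        (cnt_ys _ _ _ (by omega)) (by rw [cnt_crs (by omega)]; simp)
      rw [e2] at h4
      exact h4
    have h5 := h3.left [(Kind.cup, a)] h0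
    -- the slide
    have h6 : EqD (a + 1) [(.cup, a), (.crs c, a + 1)] [(.cup, a + 1), (.crs (!c), a)] := by
      refine EqD.move (Move.slideCup a c) ?_ ?_
      · rw [← List.singleton_append, cnt_app h0, hc]
        simp
      · rw [← List.singleton_append, cnt_app h0', cnt_crs (by omega)]
        simp
    have h7 : EqD (a + 1) ([(.cup, a), (.crs c, a + 1)] ++ ys (!c) a)
        ([(.cup, a + 1), (.crs (!c), a)] ++ ys (!c) a) := by
      refine h6.right _ ?_
      have h8 : cnt (a + 1) [(.cup, a), (.crs c, a + 1)] = some (a + 3) := by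
        rw [← List.singleton_append, cnt_app h0, hc]
      rw [cnt_app h8, hy]
      simp
    rw [e1, ys_succ]
    exact h1.trans (h5.trans h7)

end Pool.Agent.WD
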