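import Pool.Agent.WD.Base

/-!
Certificates for the equivalence of small explicit diagrams.
-/

set_option autoImplicit false

namespace Pool.Agent.WD

open Pool.Agent.LibH11 Pool.Agent.LibH11.Sliced Pool.Agent.IT Pool.Agent.TwoBr

/-- two parallel strands: zigzag -/
theorem c_zz :
    EqD 2 (para [(.cup, 0), (.cap, 1)]) [] :=
  EqD.of_chk [(1, false, .far .cup .cap 1 0), (2, false, .zz 1), (0, false, .zz 0)] rfl

/-- two parallel strands: zagzig -/
theorem c_zg :
    EqD 2 (para [(.cup, 1), (.cap, 0)]) [] :=
  EqD.of_chk [(1, true, .far .cap .cup 1 0), (0, false, .zg 1), (0, false, .zg 0)] rfl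

/-- two parallel strands cross a maximum -/
theorem c_sa (e : Bool) :
    EqD 6 (para [(.crs e, 1), (.cap, 0)]) (para [(.crs (!e), 0), (.cap, 1)]) := by
  cases e
  · exact EqD.of_chk [(3, true, .far .cap (.crs false) 1 0), (2, true, .far .cap (.crs false) 1 1), (4, false,
      .sa 0 false), (3, true, .far (.crs true) (.crs false) 0 0), (4, false, .sa 1 false), (1,
      false, .sa 1 false), (0, true, .far (.crs true) (.crs false) 1 0), (1, false, .sa 2 false),
      (2, true, .far (.crs true) .cap 0 1), (3, true, .far (.crs true) .cap 1 0), (1, true, .far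
      (.crs true) (.crs true) 0 0)] rfl
  · exact EqD.of_chk [(3, true, .far .cap (.crs true) 1 0), (2, true, .far .cap (.crs true) 1 1), (4, false, .sa
      0 true), (3, true, .far (.crs false) (.crs true) 0 0), (4, false, .sa 1 true), (1, false,
      .sa 1 true), (0, true, .far (.crs false) (.crs true) 1 0), (1, false, .sa 2 true), (2, true,
      .far (.crs false) .cap 0 1), (3, true, .far (.crs false) .cap 1 0), (1, true, .far (.crs
      false) (.crs false) 0 0)] rfl

/-- two parallel strands cross a minimum -/
theorem c_su (e : Bool) :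
    EqD 2 (para [(.cup, 0), (.crs e, 1)]) (para [(.cup, 1), (.crs (!e), 0)]) := by
  cases e
  · exact EqD.of_chk [(1, false, .far .cup (.crs false) 1 0), (2, false, .su 1 false), (3, false, .far (.crs
      true) (.crs false) 1 1), (2, false, .far .cup (.crs false) 2 0), (4, false, .far (.crs true)
      (.crs false) 1 0), (3, false, .su 2 false), (0, false, .su 0 false), (1, false, .far (.crs
      true) (.crs false) 0 0), (2, false, .far (.crs true) .cup 0 1), (0, false, .su 1 false), (1,
      false, .far (.crs true) .cup 1 0)] rfl
  · exact EqD.of_chk [(1, false, .far .cup (.crs true) 1 0), (2, false, .su 1 true), (3, false, .far (.crs false)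
      (.crs true) 1 1), (2, false, .far .cup (.crs true) 2 0), (4, false, .far (.crs false) (.crs
      true) 1 0), (3, false, .su 2 true), (0, false, .su 0 true), (1, false, .far (.crs false)
      (.crs true) 0 0), (2, false, .far (.crs false) .cup 0 1), (0, false, .su 1 true), (1, false,
      .far (.crs false) .cup 1 0)] rfl

/-- two parallel strands: second move -/
theorem c_r2 (e : Bool) :
    EqD 4 (para [(.crs e, 0), (.crs (!e), 0)]) [] := by
  cases e
  · exact EqD.of_chk [(1, false, .far (.crs false) (.crs false) 0 0), (3, false, .r2 1 false), (2, false, .r2 0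
      false), (1, false, .r2 2 false), (0, false, .r2 1 false)] rfl
  · exact EqD.of_chk [(1, false, .far (.crs true) (.crs true) 0 0), (3, false, .r2 1 true), (2, false, .r2 0
      true), (1, false, .r2 2 true), (0, false, .r2 1 true)] rfl

/-- a kink of two parallel strands is a full twist -/
theorem c_a1 (e : Bool) :
    EqD 4 (para [(.crs e, 0), (.cap, 0)]) ((.crs (!e), 0) :: (.crs (!e), 0) :: para [(.cap, 0)]) := by
  cases e
  · exact EqD.of_chk [(3, false, .a1 1 false), (2, false, .sa 1 false), (3, true, .far .cap .cap 0 0), (0, true,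
      .zz 2), (1, true, .far (.crs false) .cap 1 0), (0, true, .su 1 true), (2, true, .far (.crs
      false) .cap 0 1), (1, true, .far (.crs false) (.crs true) 0 0), (0, true, .su 0 true), (3,
      true, .far (.crs true) .cap 1 0), (1, false, .r3 1), (0, false, .far .cup (.crs true) 0 0),
      (1, false, .su 0 true), (4, true, .far .cap .cap 0 1), (3, true, .far .cap (.crs true) 0 0),
      (2, false, .a1 0 false), (1, false, .zg 0)] rfl
  · exact EqD.of_chk [(3, false, .a1 1 true), (2, false, .sa 1 true), (3, true, .far .cap .cap 0 0), (0, true,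
      .r2 0 false), (1, false, .r3 0), (3, false, .r2 1 true), (2, false, .a1 0 true), (1, false,
      .sa 0 true)] rfl

/-- a kink of two parallel strands is a full twist -/
theorem c_u1 (e : Bool) :
    EqD 0 (para [(.cup, 0), (.crs e, 0)]) (para [(.cup, 0)] ++ [(.crs (!e), 0), (.crs (!e), 0)]) := by
  cases e
  · exact EqD.of_chk [(1, false, .u1 1 false), (2, false, .far (.crs false) (.crs false) 0 0), (1, false, .su 1
      false), (0, false, .far .cup .cup 0 0), (3, true, .zg 0), (4, false, .far .cap (.crs false)
      0 0), (3, false, .su 1 false), (5, false, .far .cap (.crs false) 0 1), (4, false, .far (.crs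
      true) (.crs false) 1 0), (3, false, .su 2 false), (2, false, .far (.crs true) .cup 1 0), (1,
      false, .far .cup .cup 0 1), (3, false, .r3 1), (2, false, .far .cup (.crs true) 0 0), (3,
      false, .su 0 true), (5, true, .far .cap (.crs true) 0 0), (4, false, .a1 0 false), (3,
      false, .zg 0)] rfl
  · exact EqD.of_chk [(1, false, .u1 1 true), (2, false, .far (.crs true) (.crs true) 0 0), (1, false, .su 1
      true), (0, false, .far .cup .cup 0 0), (5, true, .r2 0 true), (3, false, .r3 0), (2, false,
      .r2 1 false), (1, false, .u1 0 true), (1, false, .su 0 true)] rfl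

/-- a half twist moves around a maximum -/
theorem c_htcap (e : Bool) :
    EqD 4 ((.crs e, 0) :: para [(.cap, 0)]) ((.crs e, 2) :: para [(.cap, 0)]) := by
  cases e
  · exact EqD.of_chk [(0, true, .sa 0 true), (1, false, .far .cap .cap 0 0), (0, true, .sa 1 false)] rfl
  · exact EqD.of_chk [(0, true, .sa 0 false), (1, false, .far .cap .cap 0 0), (0, true, .sa 1 true)] rfl

/-- a half twist moves around a minimum -/
theorem c_htcup (e : Bool) :
    EqD 0 (para [(.cup, 0)] ++ [(.crs e, 0)]) (para [(.cup, 0)] ++ [(.crs e, 2)]) := by
  cases e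
  · exact EqD.of_chk [(1, true, .su 0 true), (0, true, .far .cup .cup 0 0), (1, true, .su 1 false)] rfl
  · exact EqD.of_chk [(1, true, .su 0 false), (0, true, .far .cup .cup 0 0), (1, true, .su 1 true)] rfl

/-- a half twist passes a crossing -/
theorem c_htx1 (e f : Bool) :
    EqD 4 ((.crs e, 0) :: para [(.crs f, 0)]) (para [(.crs f, 0)] ++ [(.crs e, 2)]) := by
  cases e <;> cases f
  · exact EqD.of_chk [(0, true, .r2 1 false), (2, true, .zg 0), (3, false, .far .cap (.crs false) 0 0), (2,
      false, .su 1 false), (4, false, .far .cap (.crs false) 0 1), (3, false, .far (.crs true)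
      (.crs false) 1 0), (2, false, .su 2 false), (1, false, .far (.crs true) .cup 1 0), (2,
      false, .r3 1), (4, true, .far .cap (.crs true) 0 0), (3, false, .sa 0 true), (2, true, .far
      (.crs false) (.crs true) 0 0), (1, true, .far (.crs false) .cup 0 1), (5, false, .r2 0
      true), (4, false, .far .cap (.crs false) 1 1), (3, false, .far (.crs true) (.crs false) 2
      0), (2, false, .su 3 false), (5, false, .far .cap (.crs false) 1 0), (2, true, .r2 2 false),
      (3, false, .far (.crs true) .cup 2 0), (4, false, .r3 2), (3, true, .su 3 false), (6, false,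
      .r2 3 true), (4, true, .far (.crs true) (.crs false) 2 0), (5, true, .far .cap (.crs false)
      1 1), (3, true, .su 2 false), (4, true, .far .cap (.crs false) 1 0), (3, false, .zg 1)] rfl
  · exact EqD.of_chk [(5, true, .r2 2 true), (3, true, .r3 1), (1, true, .r3 0), (0, false, .r2 0 false)] rfl
  · exact EqD.of_chk [(1, true, .zz 2), (2, true, .far (.crs false) .cap 1 0), (1, true, .su 1 true), (3, true,
      .far (.crs false) .cap 0 1), (2, true, .far (.crs false) (.crs true) 0 0), (1, true, .su 0
      true), (0, true, .far .cup (.crs true) 0 0), (1, true, .r3 1), (0, false, .su 0 true), (1,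
      false, .far (.crs false) (.crs true) 0 0), (0, false, .su 1 true), (3, false, .far (.crs
      true) .cap 1 0), (2, false, .far (.crs false) .cap 0 1), (1, false, .far (.crs false) .cap 1
      0), (0, false, .zz 2), (3, true, .zz 3), (4, true, .far (.crs false) .cap 2 0), (3, true,
      .su 2 true), (5, true, .far (.crs false) .cap 1 1), (4, true, .far (.crs false) (.crs true)
      1 0), (3, true, .su 1 true), (2, true, .far .cup (.crs true) 1 0), (3, true, .r3 2), (2,
      false, .su 1 true), (3, false, .far (.crs false) (.crs true) 1 0), (2, false, .su 2 true),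
      (5, false, .far (.crs true) .cap 2 0), (4, false, .far (.crs false) .cap 1 1), (3, false,
      .far (.crs false) .cap 2 0), (2, false, .zz 3)] rfl
  · exact EqD.of_chk [(0, false, .r3 0), (2, false, .r3 1)] rfl

/-- a half twist passes a crossing -/
theorem c_htx2 (e f : Bool) :
    EqD 4 ((.crs e, 2) :: para [(.crs f, 0)]) (para [(.crs f, 0)] ++ [(.crs e, 0)]) := by
  cases e <;> cases f
  · exact EqD.of_chk [(2, false, .far (.crs false) (.crs false) 0 0), (0, true, .r2 1 false), (2, true, .zz 3),
      (3, true, .far (.crs false) .cap 2 0), (2, true, .su 2 true), (4, true, .far (.crs false)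
      .cap 1 1), (3, true, .far (.crs false) (.crs true) 1 0), (2, true, .su 1 true), (1, true,
      .far .cup (.crs true) 1 0), (2, true, .r3 2), (4, false, .far (.crs true) .cap 2 0), (3,
      true, .sa 3 false), (2, false, .far (.crs true) (.crs false) 2 0), (1, false, .far .cup
      (.crs false) 1 1), (5, false, .r2 2 true), (4, true, .far (.crs false) .cap 0 1), (3, true,
      .far (.crs false) (.crs true) 0 0), (2, true, .su 0 true), (5, true, .far (.crs false) .cap
      1 0), (1, true, .r2 0 false), (2, false, .far (.crs true) (.crs false) 0 0), (3, true, .far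
      .cup (.crs true) 0 0), (4, true, .r3 1), (3, false, .su 0 true), (6, false, .r2 1 true), (4,
      false, .far (.crs false) (.crs true) 0 0), (5, false, .far (.crs false) .cap 0 1), (3,
      false, .su 1 true), (4, false, .far (.crs false) .cap 1 0), (3, false, .zz 2)] rfl
  · exact EqD.of_chk [(2, false, .far (.crs true) (.crs true) 0 0), (5, true, .r2 0 true), (3, false, .r3 0), (1,
      false, .r3 1), (0, false, .r2 2 false), (1, true, .far (.crs true) (.crs true) 0 0)] rfl
  · exact EqD.of_chk [(2, false, .far (.crs false) (.crs false) 0 0), (1, true, .zg 1), (2, false, .far .cap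
      (.crs false) 1 0), (1, false, .su 2 false), (3, false, .far .cap (.crs false) 1 1), (2,
      false, .far (.crs true) (.crs false) 2 0), (1, false, .su 3 false), (0, false, .far (.crs
      true) .cup 2 0), (1, false, .r3 2), (0, true, .su 3 false), (1, true, .far (.crs true) (.crs
      false) 2 0), (0, true, .su 2 false), (3, true, .far .cap (.crs true) 1 0), (2, true, .far
      .cap (.crs false) 1 1), (1, true, .far .cap (.crs false) 1 0), (0, false, .zg 1), (3, true,
      .zg 0), (4, false, .far .cap (.crs false) 0 0), (3, false, .su 1 false), (5, false, .far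
      .cap (.crs false) 0 1), (4, false, .far (.crs true) (.crs false) 1 0), (3, false, .su 2
      false), (2, false, .far (.crs true) .cup 1 0), (3, false, .r3 1), (2, true, .su 2 false),
      (3, true, .far (.crs true) (.crs false) 1 0), (2, true, .su 1 false), (5, true, .far .cap
      (.crs true) 0 0), (4, true, .far .cap (.crs false) 0 1), (3, true, .far .cap (.crs false) 0
      0), (2, false, .zg 0), (1, true, .far (.crs false) (.crs false) 0 0)] rfl
  · exact EqD.of_chk [(2, false, .far (.crs true) (.crs true) 0 0), (0, true, .r3 1), (2, true, .r3 0), (1, true,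
      .far (.crs true) (.crs true) 0 0)] rfl

/-- a strand passes a minimum -/
theorem c_natcup (e : Bool) :
    EqD 1 [(.cup, 1), (.crs e, 0), (.crs e, 1)] [(.cup, 0)] := by
  cases e
  · exact EqD.of_chk [(0, true, .su 0 true), (1, false, .r2 1 true)] rfl
  · exact EqD.of_chk [(0, true, .su 0 false), (1, false, .r2 1 false)] rfl

/-- a strand passes a maximum -/
theorem c_natcap (e : Bool) :
    EqD 3 [(.crs e, 0), (.crs e, 1), (.cap, 0)] [(.cap, 1)] := by
  cases e
  · exact EqD.of_chk [(1, false, .sa 0 false), (0, false, .r2 0 false)] rfl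
  · exact EqD.of_chk [(1, false, .sa 0 true), (0, false, .r2 0 true)] rfl

/-- a strand passes a crossing -/
theorem c_natx (e f : Bool) :
    EqD 3 [(.crs e, 0), (.crs e, 1), (.crs f, 0)] [(.crs f, 1), (.crs e, 0), (.crs e, 1)] := by
  cases e <;> cases f
  · exact EqD.of_chk [(0, true, .r2 1 false), (2, true, .zg 0), (3, false, .far .cap (.crs false) 0 0), (2,
      false, .su 1 false), (4, false, .far .cap (.crs false) 0 1), (3, false, .far (.crs true)
      (.crs false) 1 0), (2, false, .su 2 false), (1, false, .far (.crs true) .cup 1 0), (2,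
      false, .r3 1), (1, true, .su 2 false), (2, true, .far (.crs true) (.crs false) 1 0), (1,
      true, .su 1 false), (4, true, .far .cap (.crs true) 0 0), (5, false, .r2 0 true), (3, true,
      .far .cap (.crs false) 0 1), (2, true, .far .cap (.crs false) 0 0), (1, false, .zg 0)] rfl
  · exact EqD.of_chk [(0, true, .zg 0), (1, false, .far .cap (.crs false) 0 0), (0, false, .su 1 false), (2,
      false, .far .cap (.crs false) 0 1), (1, false, .far (.crs true) (.crs false) 1 0), (0,
      false, .su 2 false), (3, false, .far .cap (.crs true) 0 0), (1, true, .r3 1), (0, true, .far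
      (.crs true) .cup 1 0), (1, true, .su 2 false), (2, true, .far (.crs true) (.crs false) 1 0),
      (1, true, .su 1 false), (3, true, .far .cap (.crs false) 0 1), (2, true, .far .cap (.crs
      false) 0 0), (1, false, .zg 0)] rfl
  · exact EqD.of_chk [(0, true, .r2 1 false), (1, true, .r3 0), (3, false, .r2 0 true)] rfl
  · exact EqD.of_chk [(0, false, .r3 0)] rfl

/-- a crossing moves around two nested minima -/
theorem c_slcup (e : Bool) :
    EqD 0 [(.cup, 0), (.cup, 1), (.crs e, 0)] [(.cup, 0), (.cup, 1), (.crs e, 2)] := by
  cases e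
  · exact EqD.of_chk [(1, true, .su 0 true), (0, true, .far .cup .cup 0 0), (1, true, .su 1 false)] rfl
  · exact EqD.of_chk [(1, true, .su 0 false), (0, true, .far .cup .cup 0 0), (1, true, .su 1 true)] rfl

/-- a crossing moves around two nested maxima -/
theorem c_slcap (e : Bool) :
    EqD 4 [(.crs e, 0), (.cap, 1), (.cap, 0)] [(.crs e, 2), (.cap, 1), (.cap, 0)] := by
  cases e
  · exact EqD.of_chk [(0, true, .sa 0 true), (1, false, .far .cap .cap 0 0), (0, true, .sa 1 false)] rfl
  · exact EqD.of_chk [(0, true, .sa 0 false), (1, false, .far .cap .cap 0 0), (0, true, .sa 1 true)] rfl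

/-- stabilisation -/
theorem c_stb (e : Bool) :
    EqD 1 [(.cup, 1), (.crs e, 0), (.cap, 1)] [] := by
  cases e
  · exact EqD.of_chk [(0, true, .su 0 true), (1, false, .a1 1 true), (0, false, .zz 0)] rfl
  · exact EqD.of_chk [(0, true, .su 0 false), (1, false, .a1 1 false), (0, false, .zz 0)] rfl

/-- two forms of the clasp -/
theorem c_tail (e : Bool) :
    EqD 3 [(.cup, 2), (.crs e, 1), (.crs e, 1), (.cap, 0), (.cap, 1)] [(.crs e, 1), (.crs e, 1),
    (.cap, 0)] := by
  cases e
  · exact EqD.of_chk [(3, false, .far .cap .cap 0 1), (2, false, .far (.crs false) .cap 1 0), (1, false, .far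
      (.crs false) .cap 1 0), (0, false, .zz 2)] rfl
  · exact EqD.of_chk [(3, false, .far .cap .cap 0 1), (2, false, .far (.crs true) .cap 1 0), (1, false, .far
      (.crs true) .cap 1 0), (0, false, .zz 2)] rfl

/-- two parallel strands: third move -/
theorem c_r3 :
    EqD 6 (para [(.crs true, 0), (.crs true, 1), (.crs true, 0)]) (para [(.crs true, 1), (.crs
    true, 0), (.crs true, 1)]) :=
  EqD.of_chk [(3, false, .far (.crs true) (.crs true) 1 0), (5, false, .far (.crs true) (.crs true) 2 0),
    (4, false, .far (.crs true) (.crs true) 1 1), (7, true, .far (.crs true) (.crs true) 1 0), (5,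
    false, .r3 1), (4, true, .far (.crs true) (.crs true) 2 0), (8, true, .far (.crs true) (.crs
    true) 0 1), (7, true, .far (.crs true) (.crs true) 0 0), (8, false, .r3 2), (10, true, .far
    (.crs true) (.crs true) 1 0), (7, false, .far (.crs true) (.crs true) 0 1), (6, false, .far
    (.crs true) (.crs true) 1 0), (2, false, .r3 2), (4, false, .r3 3), (6, true, .far (.crs true)
    (.crs true) 1 1), (7, true, .far (.crs true) (.crs true) 0 2), (8, true, .far (.crs true)
    (.crs true) 2 0), (9, true, .far (.crs true) (.crs true) 1 1), (1, false, .far (.crs true)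
    (.crs true) 0 1), (2, false, .far (.crs true) (.crs true) 0 0), (3, false, .far (.crs true)
    (.crs true) 0 2), (4, false, .far (.crs true) (.crs true) 0 1), (5, false, .r3 0), (7, false,
    .r3 1), (0, false, .far (.crs true) (.crs true) 1 0), (2, false, .far (.crs true) (.crs true)
    2 0), (1, false, .far (.crs true) (.crs true) 1 1), (4, true, .far (.crs true) (.crs true) 1
    0), (2, false, .r3 1), (1, true, .far (.crs true) (.crs true) 2 0), (5, true, .far (.crs true)
    (.crs true) 0 1), (4, true, .far (.crs true) (.crs true) 0 0), (5, false, .r3 2), (7, true,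
    .far (.crs true) (.crs true) 1 0), (4, false, .far (.crs true) (.crs true) 0 1), (3, false,
    .far (.crs true) (.crs true) 1 0)] rfl

end Pool.Agent.WD
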