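import Pool.Agent.WD.StT

/-!
# Equivalent long knots have equivalent doubles, up to the number of twists
# (module WD_DBE, MP_31fd3b_gt, helper54)
-/

set_option autoImplicit false

namespace Pool.Agent.WD

open Pool.Agent.LibH11 Pool.Agent.LibH11.Sliced Pool.Agent.IT Pool.Agent.TwoBr

namespace DBE

theorem cnt_lk {w : Diag} (h : IsLongKnot w) : cnt 1 w = some 1 := by
  rw [isLongKnot_iff] at h
  obtain ⟨lab, c, h⟩ := h
  exact run_cnt w start _ h

theorem cnt_p {w : Diag} (h : IsLongKnot w) : cnt 2 (para w) = some 2 :=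
  cnt_para w 1 1 (cnt_lk h)

theorem cnt_h (f : Bool) : cnt 2 (ht f 0) = some 2 := cnt_crs (by omega)

theorem cnt_t (m : ℤ) : cnt 2 (twists m) = some 2 := cnt_twists m 0

/-! ### Twists -/

/-- the sign of a crossing -/
def sn (f : Bool) : ℤ := if f = true then 1 else -1

theorem tw_word (m : ℤ) :
    twists m = braidWord (List.replicate (2 * m.natAbs) (0, decide (0 < m))) := by
  unfold twists braidWord
  rw [List.map_replicate]

theorem ev_rep (k : ℕ) (x : ℕ × Bool) : ev 1 (List.replicate k x) = gen 1 x ^ k := by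
  unfold ev
  rw [List.map_replicate, List.prod_replicate]

theorem ev_tw (m : ℤ) :
    ev 1 (List.replicate (2 * m.natAbs) (0, decide (0 < m))) = gen 1 (0, true) ^ (2 * m) := by
  rw [ev_rep]
  by_cases hm : 0 < m
  · rw [decide_eq_true hm, ← zpow_natCast]
    congr 1
    omega
  · rw [decide_eq_false hm, gen_false, inv_pow, ← zpow_natCast, ← zpow_neg]
    congr 1
    omega

theorem ev_two (f : Bool) :
    ev 1 [(0, f), (0, f)] = gen 1 (0, true) ^ (2 * sn f) := by
  rw [ev_cons, ev_single]
  cases f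
  · rw [gen_false]
    show _ = gen 1 (0, true) ^ (2 * (if false = true then (1 : ℤ) else -1))
    rw [if_neg Bool.false_ne_true, mul_comm (2 : ℤ), neg_one_mul, zpow_neg, zpow_two, mul_inv_rev]
  · show _ = gen 1 (0, true) ^ (2 * (if true = true then (1 : ℤ) else -1))
    rw [if_pos rfl, mul_one, zpow_two]

theorem bd_rep (k : ℕ) (e : Bool) : Bd 1 (List.replicate k (0, e)) := by
  intro x hx
  rw [List.eq_of_mem_replicate hx]
  exact Nat.zero_lt_one

theorem bd_two (f : Bool) : Bd 1 [(0, f), (0, f)] := bd_rep 2 f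

/-- two half twists are absorbed in the twists -/
theorem tw (f : Bool) (m : ℤ) :
    EqD 2 (ht f 0 ++ ht f 0 ++ twists m) (twists (m + sn f)) := by
  have h1 : ht f 0 ++ ht f 0 = braidWord [(0, f), (0, f)] := rfl
  rw [h1, tw_word, tw_word, ← braidWord_append]
  refine bwe (N := 1) ((bd_two f).append (bd_rep _ _)) (bd_rep _ _) ?_
  rw [ev_append, ev_tw, ev_tw, ev_two, ← zpow_add]
  congr 1
  ring

/-- two opposite half twists cancel -/
theorem canc (f : Bool) (i N : ℕ) (h : 2 * i + 2 ≤ N) :
    EqD N (ht f i ++ ht (!f) i) [] := by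
  refine EqD.move (Move.r2 (2 * i) f) ?_ (by simp [cnt])
  have h1 : cnt N (ht f i) = some N := cnt_crs h
  have h2 : cnt N (ht (!f) i) = some N := cnt_crs h
  rw [cnt_app h1, h2]
  exact Option.some_ne_none _

/-- the conclusion from the equivalence up to a half twist on both sides -/
theorem conc {w w' : Diag} {f : Bool} (hw : IsLongKnot w) (hw' : IsLongKnot w')
    (h : EqD 2 (para w ++ ht f 0) (para w' ++ ht (!f) 0)) (m : ℤ) :
    EqD 2 (para w ++ twists m) (para w' ++ twists (m + sn (!f))) := by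
  have h1 : EqD 2 (para w ++ (ht f 0 ++ ht (!f) 0) ++ twists m) (para w ++ [] ++ twists m) := by
    refine (canc f 0 2 (by omega)).ctx _ _ (cnt_p hw) ?_
    rw [List.append_assoc, List.append_assoc, cnt_app (cnt_p hw), cnt_app (cnt_h f),
      cnt_app (cnt_h _), cnt_t]
    exact Option.some_ne_none _
  have h2 : EqD 2 ((para w ++ ht f 0) ++ (ht (!f) 0 ++ twists m))
      ((para w' ++ ht (!f) 0) ++ (ht (!f) 0 ++ twists m)) := by
    refine h.right _ ?_
    rw [List.append_assoc, cnt_app (cnt_p hw), cnt_app (cnt_h f), cnt_app (cnt_h _), cnt_t]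
    exact Option.some_ne_none _
  have h3 := (tw (!f) m).left (para w') (cnt_p hw')
  simp only [List.append_assoc, List.append_nil] at h1 h2 h3 ⊢
  exact (h1.symm.trans h2).trans h3

/-! ### The first Reidemeister move -/

/-- the first move at a maximum -/
theorem capcase (h2 : SLD_Stmt) {u v : Diag} {i : ℕ} {f : Bool}
    (hw : IsLongKnot (u ++ [(.crs f, i), (.cap, i)] ++ v))
    (hw' : IsLongKnot (u ++ [(.cap, i)] ++ v)) :
    EqD 2 (para (u ++ [(.crs f, i), (.cap, i)] ++ v) ++ ht f 0)
      (para (u ++ [(.cap, i)] ++ v) ++ ht (!f) 0) := by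
  obtain ⟨N, hu, hN⟩ : ∃ N, cnt 1 u = some N ∧ cnt N ([(.crs f, i), (.cap, i)] ++ v) ≠ none := by
    apply cnt_prefix
    rw [← List.append_assoc, cnt_lk hw]
    exact Option.some_ne_none _
  have hi : i + 2 ≤ N := by
    have := (cnt_cons_ne (w := (.cap, i) :: v) hN).1
    exact this
  -- the kink of the doubled strand
  have k1 : EqD (2 * N) (para [(.crs f, i), (.cap, i)])
      (ht (!f) i ++ ht (!f) i ++ para [(.cap, i)]) := by
    have := ((c_a1 f).sh (2 * i)).widen (2 * N - 4 - 2 * i)
    rw [sh_cons, sh_cons, ← para_sh, ← para_sh] at this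
    simp only [sh_cons, sh_nil, zero_add] at this
    rw [show 4 + 2 * i + (2 * N - 4 - 2 * i) = 2 * N by omega] at this
    exact this
  -- the half twist below the kink
  have k2 : EqD (2 * N) (ht f i ++ para [(.crs f, i), (.cap, i)])
      (ht (!f) i ++ para [(.cap, i)]) := by
    have e1 : cnt (2 * N) (ht f i) = some (2 * N) := cnt_crs (by omega)
    have e1' : cnt (2 * N) (ht (!f) i) = some (2 * N) := cnt_crs (by omega)
    have e2 : cnt (2 * N) (para [(.cap, i)]) ≠ none := by
      rw [cnt_para [(.cap, i)] N (N - 2 + 0) (cnt_one hi)]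
      exact Option.some_ne_none _
    have q1 := k1.left _ e1
    have q2 := (canc f i (2 * N) (by omega)).right (ht (!f) i ++ para [(.cap, i)]) (by
      rw [List.append_assoc, cnt_app e1, cnt_app e1', cnt_app e1']
      exact e2)
    simp only [List.append_assoc, List.nil_append] at q1 q2 ⊢
    exact q1.trans q2
  have hu2 : cnt 2 (para u) = some (2 * N) := cnt_para u 1 N hu
  have hw2 : IsLongKnot (u ++ ([(.crs f, i), (.cap, i)] ++ v)) := by
    rw [← List.append_assoc]
    exact hw
  have hw2' : IsLongKnot (u ++ ([(.cap, i)] ++ v)) := by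
    rw [← List.append_assoc]
    exact hw'
  have s1 := h2 f u ([(.crs f, i), (.cap, i)] ++ v) hw2 N hu i (by omega)
  have s2 := h2 (!f) u ([(.cap, i)] ++ v) hw2' N hu i (by omega)
  have k3 := k2.ctx (para u) (para v) hu2 (by
    have h5 := s1.cnt_eq
    rw [List.append_assoc, List.append_assoc]
    rw [List.append_assoc, para_append] at h5
    rw [h5, ← para_append, ← para_append, cnt_app (cnt_p hw2), cnt_h]
    exact Option.some_ne_none _)
  simp only [para_append, List.append_assoc] at s1 s2 k3 ⊢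
  exact (s1.symm.trans k3).trans s2

/-- the first move at a minimum -/
theorem cupcase (h2 : SLD_Stmt) {u v : Diag} {i : ℕ} {f : Bool}
    (hw : IsLongKnot (u ++ [(.cup, i), (.crs f, i)] ++ v))
    (hw' : IsLongKnot (u ++ [(.cup, i)] ++ v)) :
    EqD 2 (para (u ++ [(.cup, i), (.crs f, i)] ++ v) ++ ht f 0)
      (para (u ++ [(.cup, i)] ++ v) ++ ht (!f) 0) := by
  obtain ⟨N, hu, hN⟩ : ∃ N, cnt 1 u = some N ∧ cnt N ([(.cup, i), (.crs f, i)] ++ v) ≠ none := by
    apply cnt_prefix
    rw [← List.append_assoc, cnt_lk hw]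
    exact Option.some_ne_none _
  have hi : i ≤ N := by
    have := (cnt_cons_ne (w := (.crs f, i) :: v) hN).1
    exact this
  have c1 : cnt N [(.cup, i)] = some (N + 2) := by
    rw [cnt_one (p := .cup) (i := i) (N := N) hi]
    rfl
  have c2 : cnt N [(.cup, i), (.crs f, i)] = some (N + 2) := by
    rw [← List.singleton_append, cnt_app c1, cnt_crs (by omega)]
  -- the kink of the doubled strand
  have k1 : EqD (2 * N) (para [(.cup, i), (.crs f, i)])
      (para [(.cup, i)] ++ (ht (!f) i ++ ht (!f) i)) := by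
    have := ((c_u1 f).sh (2 * i)).widen (2 * N - 2 * i)
    rw [sh_append, ← para_sh, ← para_sh] at this
    simp only [sh_cons, sh_nil, zero_add] at this
    rw [show 2 * i + (2 * N - 2 * i) = 2 * N by omega] at this
    exact this
  -- the half twist above the kink
  have k2 : EqD (2 * N) (para [(.cup, i), (.crs f, i)] ++ ht f i)
      (para [(.cup, i)] ++ ht (!f) i) := by
    have e1 : cnt (2 * (N + 2)) (ht f i) = some (2 * (N + 2)) := cnt_crs (by omega)
    have e1' : cnt (2 * (N + 2)) (ht (!f) i) = some (2 * (N + 2)) := cnt_crs (by omega)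
    have e2 : cnt (2 * N) (para [(.cup, i)]) = some (2 * (N + 2)) := cnt_para _ _ _ c1
    have e3 : cnt (2 * N) (para [(.cup, i), (.crs f, i)]) = some (2 * (N + 2)) :=
      cnt_para _ _ _ c2
    have q1 := k1.right (ht f i) (by
      rw [cnt_app e3, e1]
      exact Option.some_ne_none _)
    have q0 := canc (!f) i (2 * (N + 2)) (by omega)
    rw [Bool.not_not] at q0
    have q2 := (q0.left _ e1').left _ e2
    simp only [List.append_assoc, List.append_nil] at q1 q2 ⊢
    exact q1.trans q2
  have hu2 : cnt 2 (para u) = some (2 * N) := cnt_para u 1 N hu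
  have cu : cnt 1 (u ++ [(.cup, i), (.crs f, i)]) = some (N + 2) := by rw [cnt_app hu, c2]
  have cu' : cnt 1 (u ++ [(.cup, i)]) = some (N + 2) := by rw [cnt_app hu, c1]
  have s1 := h2 f (u ++ [(.cup, i), (.crs f, i)]) v hw (N + 2) cu i (by omega)
  have s2 := h2 (!f) (u ++ [(.cup, i)]) v hw' (N + 2) cu' i (by omega)
  have k3 := k2.ctx (para u) (para v) hu2 (by
    have h5 := s1.cnt_eq
    rw [← List.append_assoc, ← para_append, h5, ← para_append, cnt_app (cnt_p hw), cnt_h]
    exact Option.some_ne_none _)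
  simp only [para_append, List.append_assoc] at s1 s2 k3 ⊢
  exact (s1.symm.trans k3).trans s2

/-! ### The induction -/

theorem main (h1 : DBM_Stmt) (h2 : SLD_Stmt) {w w' : Diag} (h : EqD 1 w w') :
    IsLongKnot w → ∃ c : ℤ, ∀ m : ℤ, EqD 2 (para w ++ twists m) (para w' ++ twists (m + c)) := by
  induction h with
  | rel x y h =>
    intro hw
    have hw' : IsLongKnot y := EqD.isLongKnot (Relation.EqvGen.rel _ _ h) hw
    obtain ⟨u, a, b, v, hm, rfl, rfl, hx, hy⟩ := h
    rw [List.append_assoc] at hx hy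
    obtain ⟨N, hu, hx'⟩ := cnt_prefix hx
    rw [cnt_app hu] at hy
    obtain ⟨M1, ha, -⟩ := cnt_prefix hx'
    obtain ⟨M2, hb, -⟩ := cnt_prefix hy
    rcases h1 a b hm N (by rw [ha]; exact Option.some_ne_none _)
      (by rw [hb]; exact Option.some_ne_none _) with h | ⟨i, f, rfl, rfl⟩ | ⟨i, f, rfl, rfl⟩
    · refine ⟨0, fun m => ?_⟩
      rw [add_zero]
      have hu2 : cnt 2 (para u) = some (2 * N) := cnt_para u 1 N hu
      have k := h.ctx (para u) (para v) hu2 (by
        rw [← para_append, ← para_append, cnt_p hw]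
        exact Option.some_ne_none _)
      rw [← para_append, ← para_append, ← para_append, ← para_append] at k
      refine k.right _ ?_
      rw [cnt_app (cnt_p hw), cnt_t]
      exact Option.some_ne_none _
    · exact ⟨sn (!f), conc hw hw' (capcase h2 hw hw')⟩
    · exact ⟨sn (!f), conc hw hw' (cupcase h2 hw hw')⟩
  | refl x =>
    intro _
    refine ⟨0, fun m => ?_⟩
    rw [add_zero]
    exact EqD.refl _
  | symm x y h ih =>
    intro hy
    obtain ⟨c, hc⟩ := ih (EqD.isLongKnot (Relation.EqvGen.symm _ _ h) hy)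
    refine ⟨-c, fun m => ?_⟩
    have := hc (m + -c)
    rw [neg_add_cancel_right] at this
    exact this.symm
  | trans x y z h h' ih1 ih2 =>
    intro hx
    obtain ⟨c, hc⟩ := ih1 hx
    obtain ⟨d, hd⟩ := ih2 (EqD.isLongKnot h hx)
    refine ⟨c + d, fun m => ?_⟩
    rw [← add_assoc]
    exact (hc m).trans (hd (m + c))

end DBE

open DBE in
theorem t_DBE (h1 : DBM_Stmt) (h2 : SLD_Stmt) : DBE_Stmt := by
  intro w w' h hw
  obtain ⟨c, hc⟩ := main h1 h2 h hw
  refine ⟨c, fun e m => ?_⟩
  have k := (hc m).widen 1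
  have k2 := k.ctx (N := 1) [(.cup, 1)] [(.crs e, 1), (.crs e, 1), (.cap, 0)] rfl (by
    have := cnt_double (cnt_lk hw) e m
    unfold double at this
    rw [List.append_assoc, List.singleton_append, this]
    exact Option.some_ne_none _)
  unfold double
  simp only [List.append_assoc, List.cons_append] at k2 ⊢
  exact k2

end Pool.Agent.WD
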