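import Pool.Agent.WD.StT

/-!
# WD_DBM: all moves except the first Reidemeister move pass to the parallel (MP_31fd3b_gt)
-/

set_option autoImplicit false

namespace Pool.Agent.WD

open Pool.Agent.LibH11 Pool.Agent.LibH11.Sliced Pool.Agent.IT Pool.Agent.TwoBr

namespace DBM

/-- A certificate, shifted and widened. -/
theorem lift {M N : ℕ} (i : ℕ) {x y a b : Diag} (h : EqD M (para x) (para y))
    (hN : M + 2 * i ≤ 2 * N) (ha : TwoBr.sh i x = a) (hb : TwoBr.sh i y = b) :
    EqD (2 * N) (para a) (para b) := by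
  have h1 := (h.sh (2 * i)).widen (2 * N - (M + 2 * i))
  rw [← para_sh, ← para_sh, ha, hb, Nat.add_sub_cancel' hN] at h1
  exact h1

theorem cnt_two {N i j : ℕ} {p q : Kind} (h : cnt N [(p, i), (q, j)] ≠ none) :
    i + p.ins ≤ N ∧ j + q.ins ≤ N - p.ins + p.outs := by
  obtain ⟨h1, h2⟩ := cnt_cons_ne h
  obtain ⟨h3, -⟩ := cnt_cons_ne h2
  exact ⟨h1, h3⟩

end DBM

open DBM in
theorem t_DBM : DBM_Stmt := by
  intro a b hab N ha hb
  cases hab with
  | far p q i k =>
    left
    obtain ⟨h1, h2⟩ := cnt_two hb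
    have e1 : para [(p, i), (q, i + p.outs + k)] =
        par2 (p, i) ++ TwoBr.sh (2 * (i + p.outs + k)) (par2 (q, 0)) := by
      rw [← par2_sh, zero_add]
      simp [para]
    have e2 : para [(q, i + p.ins + k), (p, i)] =
        TwoBr.sh (2 * (i + p.ins + k)) (par2 (q, 0)) ++ par2 (p, i) := by
      rw [← par2_sh, zero_add]
      simp [para]
    have h3 : cnt (2 * (i + p.ins + k)) (par2 (p, i)) = some (2 * (i + p.outs + k)) := by
      rw [cnt_par2 (show i + p.ins ≤ i + p.ins + k by omega)]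
      exact congrArg some (by omega)
    have h4 : cnt (2 * (N - (i + p.ins + k))) (par2 (q, 0)) ≠ none := by
      rw [cnt_par2 (show 0 + q.ins ≤ N - (i + p.ins + k) by omega)]
      simp
    have h5 := far_words (par2 (p, i)) (par2 (q, 0)) _ _ _ h3 h4
    rw [e1, e2]
    have e3 : 2 * (i + p.ins + k) + 2 * (N - (i + p.ins + k)) = 2 * N := by omega
    rw [e3] at h5
    exact h5
  | zigzag i =>
    left
    obtain ⟨h1, h2⟩ := cnt_two ha
    simp only [Kind.ins, Kind.outs] at h1 h2
    exact lift (y := []) i c_zz (by omega) (by simp [TwoBr.sh, add_comm]) rfl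
  | zagzig i =>
    left
    obtain ⟨h1, h2⟩ := cnt_two ha
    simp only [Kind.ins, Kind.outs] at h1 h2
    exact lift (y := []) i c_zg (by omega) (by simp [TwoBr.sh, add_comm]) rfl
  | slideCap i e =>
    left
    obtain ⟨h1, h2⟩ := cnt_two ha
    simp only [Kind.ins, Kind.outs] at h1 h2
    exact lift i (c_sa e) (by omega) (by simp [TwoBr.sh, add_comm]) (by simp [TwoBr.sh, add_comm])
  | slideCup i e =>
    left
    obtain ⟨h1, h2⟩ := cnt_two ha
    simp only [Kind.ins, Kind.outs] at h1 h2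
    exact lift i (c_su e) (by omega) (by simp [TwoBr.sh, add_comm]) (by simp [TwoBr.sh, add_comm])
  | r1Cap i e => exact Or.inr (Or.inl ⟨i, e, rfl, rfl⟩)
  | r1Cup i e => exact Or.inr (Or.inr ⟨i, e, rfl, rfl⟩)
  | r2 i e =>
    left
    obtain ⟨h1, h2⟩ := cnt_two ha
    simp only [Kind.ins, Kind.outs] at h1 h2
    exact lift (y := []) i (c_r2 e) (by omega) (by simp [TwoBr.sh]) rfl
  | r3 i =>
    left
    obtain ⟨h1, h2⟩ := cnt_cons_ne ha
    obtain ⟨h3, h4⟩ := cnt_two h2
    simp only [Kind.ins, Kind.outs] at h1 h3 h4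
    exact lift i c_r3 (by omega) (by simp [TwoBr.sh, add_comm]) (by simp [TwoBr.sh, add_comm])

end Pool.Agent.WD
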