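import Pool.Agent.WD.StQ

/-!
# WD_DBV (helper49): parallels, proof of `DBV_Stmt`
-/

set_option autoImplicit false

namespace Pool.Agent.WD

open Pool.Agent.LibH11 Pool.Agent.IT Pool.Agent.GK Pool.Agent.TwoBr
open Pool.Agent.LibH11.Sliced (Diag Kind cnt IsLongKnot ofDiag braidWord)
open scoped BigOperators

namespace DBV

variable {A ι : Type} [CommRing A] [Fintype ι] [DecidableEq ι]

theorem flt_cons (x : ι × ι) (l : List (ι × ι)) : flt (x :: l) = x.1 :: x.2 :: flt l := rfl

/-- the word of the parallel of a crossing -/
def w4 (e : Bool) : Word := [(1, e), (0, e), (2, e), (1, e)]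

theorem op_w4 (hA : ATP_Stmt) (T : RData A ι) (e : Bool) :
    op T 3 (w4 e) = op T 3 (blk 2 (0, e)) := by
  cases e with
  | true =>
    have h : blk 2 (0, true) = w4 true := by decide
    rw [h]
  | false =>
    have h : blk 2 (0, false) = [(1, false), (2, false), (0, false), (1, false)] := by decide
    have hc : Commute (opl T 3 (0, false)) (opl T 3 (2, false)) := by
      have h1 := (hA A ι (Fin 4) T.R' T.R' 1 1 0 1 2 3 (by decide)).2.2.1 (by decide) (by decide)
        (by decide) (by decide) (by decide)
      exact h1
    rw [h]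
    unfold op w4
    simp only [List.map_cons, List.map_nil, List.prod_cons, List.prod_nil]
    rw [← mul_assoc (opl T 3 (0, false)), hc.eq, mul_assoc (opl T 3 (2, false))]

/-- four labels as two pairs -/
def e4 : ((ι × ι) × (ι × ι)) ≃ (Fin 4 → ι) where
  toFun p := ![p.1.1, p.1.2, p.2.1, p.2.2]
  invFun t := ((t 0, t 1), (t 2, t 3))
  left_inv _ := rfl
  right_inv t := by
    funext i
    fin_cases i <;> rfl

theorem par2_succ (k : Kind) (i : ℕ) : par2 (k, i + 1) = shD (shD (par2 (k, i))) := by
  cases k <;> rfl

theorem slice (hV : VOP_Stmt) (hA : ATP_Stmt) (M : Mats A ι) (k : Kind) : ∀ (i : ℕ)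
    (F : List ι → A) (l : List (ι × ι)), i + k.ins ≤ l.length →
    M.val (par2 (k, i)) F (flt l) = (dblM M).act k i (fun l' => F (flt l')) l
  | 0, F, l, h => by
    cases k with
    | cup =>
      simp only [par2, Mats.val, Mats.act, Mats.loc, dblM, Fintype.sum_prod_type]
      refine Finset.sum_congr rfl fun a _ => ?_
      simp only [flt_cons, Finset.mul_sum]
      rw [Finset.sum_comm]
      refine Finset.sum_congr rfl fun b _ => ?_
      rw [Finset.sum_comm]
      refine Finset.sum_congr rfl fun c _ => Finset.sum_congr rfl fun d _ => ?_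
      ring
    | cap =>
      match l, h with
      | [], h => simp [Kind.ins] at h
      | [_], h => simp [Kind.ins] at h
      | x :: y :: l, _ =>
        simp only [par2, flt_cons, Mats.val, Mats.act, Mats.loc, dblM]
        ring
    | crs e =>
      match l, h with
      | [], h => simp [Kind.ins] at h
      | [_], h => simp [Kind.ins] at h
      | x :: y :: l, _ =>
        have h1 := hV A ι M 0 3 (w4 e) (by
          intro p hp
          simp only [w4, List.mem_cons, List.not_mem_nil, or_false] at hp
          rcases hp with rfl | rfl | rfl | rfl <;> norm_num) F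
          ![x.1, x.2, y.1, y.2] (flt l)
        have h2 : List.ofFn (![x.1, x.2, y.1, y.2] : Fin (3 + 1) → ι) ++ flt l =
            flt (x :: y :: l) := rfl
        rw [h2] at h1
        have h3 : braidWord (w4 e) = par2 (.crs e, 0) := rfl
        rw [h3] at h1
        rw [h1, op_w4 hA]
        simp only [Mats.act, Mats.loc]
        rw [← Fintype.sum_prod_type' (f := fun z t : ι × ι => (dblM M).X e x y z t *
          F (flt (z :: t :: l)))]
        rw [← Equiv.sum_comp (e4 (ι := ι))]
        rfl
  | i + 1, F, [], h => by simp at h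
  | i + 1, F, x :: l, h => by
    have hl : i + k.ins ≤ l.length := by
      simp only [List.length_cons] at h
      omega
    rw [par2_succ, flt_cons, M.val_sh, M.val_sh]
    simp only [Mats.act]
    rw [slice hV hA M k i (fun l' => F (x.1 :: x.2 :: l')) l hl]
    rfl

end DBV

theorem t_DBV (hV : VOP_Stmt) (hA : ATP_Stmt) : DBV_Stmt := by
  intro A _ ι _ _ M D
  induction D with
  | nil =>
    intro N N' _ F l _
    rfl
  | cons p D ih =>
    obtain ⟨k, i⟩ := p
    intro N N' h F l hl
    simp only [cnt] at h
    split_ifs at h with h1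
    rw [para_cons, Mats.val_append, DBV.slice hV hA M k i _ l (by omega)]
    simp only [Mats.val]
    obtain ⟨j, hj⟩ := Nat.exists_eq_add_of_le h1
    refine (dblM M).act_congr k i (n := j) (fun l' hl' => ?_) l (by omega)
    exact ih _ _ h F l' (by omega)

end Pool.Agent.WD
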