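import Pool.Agent.WD.StQ

/-!
# The parallel of a closed braid (module WD_DCL, helper30)
-/

set_option autoImplicit false

namespace Pool.Agent.WD

open Pool.Agent.LibH11 Pool.Agent.IT Pool.Agent.GK Pool.Agent.TwoBr
open Pool.Agent.LibH11.Sliced (Diag Kind cnt IsLongKnot ofDiag braidWord)
open scoped BigOperators

namespace DCLAux

section

variable {A L L' : Type} [CommRing A] [Fintype L] [DecidableEq L] [Fintype L'] [DecidableEq L']

/-- composition with a bijection of the labels -/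
def ec (e : L ≃ L') (n : ℕ) : (Fin n → L) ≃ (Fin n → L') := Equiv.arrowCongr (Equiv.refl _) e

theorem ec_apply (e : L ≃ L') (n : ℕ) (s : Fin n → L) : ec e n s = e ∘ s := rfl

theorem atp_ec (e : L ≃ L') {n : ℕ} (R : Matrix (L × L) (L × L) A)
    (R' : Matrix (L' × L') (L' × L') A)
    (h : ∀ a b c d, R (a, b) (c, d) = R' (e a, e b) (e c, e d)) (x y : Fin n) :
    atp R x y = (atp R' x y).submatrix (ec e n) (ec e n) := by
  ext s t
  rw [Matrix.submatrix_apply, ec_apply, ec_apply]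
  unfold atp
  have h1 : (∀ z, z ≠ x → z ≠ y → s z = t z) ↔
      ∀ z, z ≠ x → z ≠ y → (e ∘ s) z = (e ∘ t) z := by
    constructor
    · intro h2 z hz hz'
      rw [Function.comp_apply, Function.comp_apply, h2 z hz hz']
    · intro h2 z hz hz'
      exact e.injective (h2 z hz hz')
  by_cases h3 : ∀ z, z ≠ x → z ≠ y → s z = t z
  · rw [if_pos h3, if_pos (h1.1 h3), h]
    rfl
  · rw [if_neg h3, if_neg fun h4 => h3 (h1.2 h4)]

theorem one_ec (e : L ≃ L') (n : ℕ) : (1 : Matrix (Fin n → L) (Fin n → L) A) =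
    (1 : Matrix (Fin n → L') (Fin n → L') A).submatrix (ec e n) (ec e n) := by
  rw [Matrix.submatrix_one_equiv]

theorem op_ec (e : L ≃ L') (T : RData A L) (T' : RData A L')
    (h : ∀ a b c d, T.R (a, b) (c, d) = T'.R (e a, e b) (e c, e d))
    (h' : ∀ a b c d, T.R' (a, b) (c, d) = T'.R' (e a, e b) (e c, e d)) (n : ℕ) (w : Word) :
    op T n w = (op T' n w).submatrix (ec e (n + 1)) (ec e (n + 1)) := by
  have hl : ∀ x : ℕ × Bool,
      opl T n x = (opl T' n x).submatrix (ec e (n + 1)) (ec e (n + 1)) := by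
    intro x
    unfold opl
    by_cases hx : x.1 < n
    · rw [dif_pos hx, dif_pos hx]
      obtain ⟨i, b⟩ := x
      cases b
      · exact atp_ec e _ _ h' _ _
      · exact atp_ec e _ _ h _ _
    · rw [dif_neg hx, dif_neg hx]
      exact one_ec e (n + 1)
  unfold op
  induction w with
  | nil => exact one_ec e (n + 1)
  | cons p w ih =>
    rw [List.map_cons, List.map_cons, List.prod_cons, List.prod_cons, ih, hl p,
      Matrix.submatrix_mul_equiv]

theorem ptr_ec (e : L ≃ L') (T : RData A L) (T' : RData A L')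
    (h : ∀ a b c d, T.R (a, b) (c, d) = T'.R (e a, e b) (e c, e d))
    (h' : ∀ a b c d, T.R' (a, b) (c, d) = T'.R' (e a, e b) (e c, e d))
    (hk : ∀ a, T.κ a = T'.κ (e a)) (n : ℕ) (w : Word) (a c : L) :
    ptr T n w a c = ptr T' n w (e a) (e c) := by
  unfold ptr
  rw [← Equiv.sum_comp (ec e n)]
  refine Finset.sum_congr rfl fun x _ => ?_
  rw [op_ec e T T' h h' n w, Matrix.submatrix_apply, ec_apply, ec_apply, Fin.comp_cons,
    Fin.comp_cons, ec_apply]
  congr 1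
  exact Finset.prod_congr rfl fun i _ => hk (x i)

end

section

variable {A ι : Type} [CommRing A] [Fintype ι] [DecidableEq ι]

/-- pairs as functions -/
def e2 (ι : Type) : (ι × ι) ≃ (Fin 2 → ι) := (finTwoArrowEquiv ι).symm

theorem e2_apply (x : ι × ι) : e2 ι x = ![x.1, x.2] := rfl

theorem append_e2 (x y : ι × ι) :
    (Fin.append (e2 ι x) (e2 ι y) : Fin (2 + 2) → ι) = ![x.1, x.2, y.1, y.2] := by
  funext i
  fin_cases i <;> rfl

theorem op_kappa (M : Mats A ι) (κ κ' : ι → A) (n : ℕ) (w : Word) :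
    op (rdM M κ) n w = op (rdM M κ') n w := rfl

theorem dbl_R (M : Mats A ι) (κ : ι → A) (κ₂ : ι × ι → A) (a b c d : ι × ι) :
    (rdM (dblM M) κ₂).R (a, b) (c, d) =
      (blkD (rdM M κ) 1).R (e2 ι a, e2 ι b) (e2 ι c, e2 ι d) := by
  change op (rdM M 0) 3 (blk 2 (0, true)) ![a.1, a.2, b.1, b.2] ![c.1, c.2, d.1, d.2] =
    op (rdM M κ) 3 (blk 2 (0, true)) (Fin.append (e2 ι a) (e2 ι b) : Fin (2 + 2) → ι)
      (Fin.append (e2 ι c) (e2 ι d) : Fin (2 + 2) → ι)
  rw [append_e2, append_e2, op_kappa M 0 κ]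

theorem dbl_R' (M : Mats A ι) (κ : ι → A) (κ₂ : ι × ι → A) (a b c d : ι × ι) :
    (rdM (dblM M) κ₂).R' (a, b) (c, d) =
      (blkD (rdM M κ) 1).R' (e2 ι a, e2 ι b) (e2 ι c, e2 ι d) := by
  change op (rdM M 0) 3 (blk 2 (0, false)) ![a.1, a.2, b.1, b.2] ![c.1, c.2, d.1, d.2] =
    op (rdM M κ) 3 (blk 2 (0, false)) (Fin.append (e2 ι a) (e2 ι b) : Fin (2 + 2) → ι)
      (Fin.append (e2 ι c) (e2 ι d) : Fin (2 + 2) → ι)
  rw [append_e2, append_e2, op_kappa M 0 κ]

theorem dbl_piv (M : Mats A ι) (ε : A) (κ : ι → A) (h : Piv M ε κ) :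
    Piv (dblM M) (ε ^ 2) (fun x : ι × ι => κ x.1 * κ x.2) := by
  intro a a'
  have h1 : ∑ b : ι × ι, (dblM M).cup a b * (dblM M).cap a' b =
      (∑ b, M.cup a.2 b * M.cap a'.2 b) * ∑ b, M.cup a.1 b * M.cap a'.1 b := by
    rw [Finset.sum_mul_sum, ← Finset.univ_product_univ, Finset.sum_product]
    refine Finset.sum_congr rfl fun x _ => Finset.sum_congr rfl fun y _ => ?_
    change M.cup a.1 y * M.cup a.2 x * (M.cap a'.1 y * M.cap a'.2 x) = _
    ring
  rw [h1, h, h]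
  by_cases h2 : a.2 = a'.2
  · by_cases h3 : a.1 = a'.1
    · rw [if_pos h2, if_pos h3, if_pos (Prod.ext h3 h2)]
      ring
    · rw [if_neg h3, mul_zero, if_neg fun h4 => h3 (congrArg Prod.fst h4)]
  · rw [if_neg h2, zero_mul, if_neg fun h4 => h2 (congrArg Prod.snd h4)]

end

end DCLAux

open DCLAux in
theorem t_DCL (hDBV : DBV_Stmt) (hTRC : TRC_Stmt) : DCL_Stmt := by
  intro A _ ι _ _ M ε κ hP n w hw F a b
  have h0 : cnt 1 (cl n w) = some 1 := cnt_cl hw 0
  have h1 := hDBV A ι M (cl n w) 1 1 h0 F [(a, b)] rfl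
  have h2 := hTRC A (ι × ι) (dblM M) (ε ^ 2) (fun x => κ x.1 * κ x.2) (dbl_piv M ε κ hP) n w hw
    (fun l' => F (flt l')) (a, b)
  have h3 : flt [(a, b)] = [a, b] := rfl
  rw [h3, h2] at h1
  rw [h1, ← pow_mul]
  congr 1
  rw [← Equiv.sum_comp (e2 ι)]
  refine Finset.sum_congr rfl fun c _ => ?_
  rw [ptr_ec (e2 ι) (rdM (dblM M) fun x => κ x.1 * κ x.2) (blkD (rdM M κ) 1) (dbl_R M κ _)
    (dbl_R' M κ _) ?_ n w (a, b) c]
  · rfl
  · intro x
    change κ x.1 * κ x.2 = ∏ i : Fin 2, κ (e2 ι x i)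
    rw [Fin.prod_univ_two]
    rfl

end Pool.Agent.WD
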