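import Pool.Agent.WD.StQ

/-!
# Module DVF: the value of a double
-/

set_option autoImplicit false

namespace Pool.Agent.WD

open Pool.Agent.LibH11 Pool.Agent.IT Pool.Agent.GK Pool.Agent.TwoBr
open Pool.Agent.LibH11.Sliced (Diag Kind cnt IsLongKnot ofDiag braidWord)
open scoped BigOperators

namespace DVFx

variable {A ι : Type} [CommRing A] [Fintype ι] [DecidableEq ι]

lemma sum4 (f : ι → ι → ι → ι → A) :
    ∑ p, ∑ r, ∑ z, ∑ u, f p r z u = ∑ u, ∑ z, ∑ p, ∑ r, f p r z u := by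
  have h : ∀ p, ∑ r, ∑ z, ∑ u, f p r z u = ∑ u, ∑ z, ∑ r, f p r z u := by
    intro p
    calc ∑ r, ∑ z, ∑ u, f p r z u = ∑ r, ∑ u, ∑ z, f p r z u :=
          Finset.sum_congr rfl fun r _ => Finset.sum_comm
      _ = ∑ u, ∑ r, ∑ z, f p r z u := Finset.sum_comm
      _ = ∑ u, ∑ z, ∑ r, f p r z u := Finset.sum_congr rfl fun u _ => Finset.sum_comm
  rw [Finset.sum_congr rfl fun p _ => h p, Finset.sum_comm]
  exact Finset.sum_congr rfl fun u _ => Finset.sum_comm

/-- the clasp with the last strand not yet closed -/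
def Y (M : Mats A ι) (e : Bool) (t : Fin 2 → ι) (c u : ι) : A :=
  ∑ z, (∑ p, ∑ r, M.X e (t 1) c p r * M.X e p r z u) * M.cap (t 0) z

lemma top_val (M : Mats A ι) (e : Bool) (F : List ι → A) (t : Fin 2 → ι) (c : ι) :
    M.val [(Kind.crs e, 1), (Kind.crs e, 1), (Kind.cap, 0)] F [t 0, t 1, c] =
      ∑ u, Y M e t c u * F [u] := by
  have h : M.val [(Kind.crs e, 1), (Kind.crs e, 1), (Kind.cap, 0)] F [t 0, t 1, c] =
      ∑ p, ∑ r, M.X e (t 1) c p r * ∑ z, ∑ u, M.X e p r z u * (M.cap (t 0) z * F [u]) := rfl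
  rw [h]
  have h1 : ∀ p r, M.X e (t 1) c p r * ∑ z, ∑ u, M.X e p r z u * (M.cap (t 0) z * F [u]) =
      ∑ z, ∑ u, M.X e (t 1) c p r * (M.X e p r z u * (M.cap (t 0) z * F [u])) := by
    intro p r
    rw [Finset.mul_sum]
    refine Finset.sum_congr rfl fun z _ => ?_
    rw [Finset.mul_sum]
  rw [Finset.sum_congr rfl fun p _ => Finset.sum_congr rfl fun r _ => h1 p r,
    sum4 fun p r z u => M.X e (t 1) c p r * (M.X e p r z u * (M.cap (t 0) z * F [u]))]
  refine Finset.sum_congr rfl fun u _ => ?_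
  unfold Y
  rw [Finset.sum_mul]
  refine Finset.sum_congr rfl fun z _ => ?_
  rw [Finset.sum_mul, Finset.sum_mul]
  refine Finset.sum_congr rfl fun p _ => ?_
  rw [Finset.sum_mul, Finset.sum_mul]
  exact Finset.sum_congr rfl fun r _ => by ring

lemma clasp_eq (M : Mats A ι) (e : Bool) (t : Fin 2 → ι) (u v : ι) :
    clasp M e t ![u, v] = ∑ c, M.cup c v * Y M e t c u := by
  unfold clasp Y
  refine Finset.sum_congr rfl fun c _ => ?_
  rw [Finset.mul_sum]
  refine Finset.sum_congr rfl fun z _ => ?_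
  rw [← mul_assoc]
  rfl

lemma Y_eq {M : Mats A ι} (hz : Zig M) (e : Bool) (t : Fin 2 → ι) (c u : ι) :
    Y M e t c u = ∑ v, clasp M e t ![u, v] * M.cap v c := by
  have h1 : ∀ v, clasp M e t ![u, v] * M.cap v c =
      ∑ c', Y M e t c' u * (M.cup c' v * M.cap v c) := by
    intro v
    rw [clasp_eq, Finset.sum_mul]
    exact Finset.sum_congr rfl fun c' _ => by ring
  rw [Finset.sum_congr rfl fun v _ => h1 v, Finset.sum_comm]
  have h2 : ∀ c', ∑ v, Y M e t c' u * (M.cup c' v * M.cap v c) =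
      if c' = c then Y M e t c' u else 0 := by
    intro c'
    rw [← Finset.mul_sum, hz c c']
    split_ifs
    · rw [mul_one]
    · rw [mul_zero]
  rw [Finset.sum_congr rfl fun c' _ => h2 c', Finset.sum_ite_eq' Finset.univ c,
    if_pos (Finset.mem_univ c)]

lemma perm {T : Type} [Fintype T] (f : ι → T → ι → ι → A) :
    ∑ c, ∑ t, ∑ u, ∑ v, f c t u v = ∑ u, ∑ v, ∑ c, ∑ t, f c t u v := by
  rw [Finset.sum_congr rfl fun c _ => (Finset.sum_comm (s := (Finset.univ : Finset T))
    (t := (Finset.univ : Finset ι)) (f := fun t u => ∑ v, f c t u v)), Finset.sum_comm]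
  refine Finset.sum_congr rfl fun u _ => ?_
  rw [Finset.sum_congr rfl fun c _ => (Finset.sum_comm (s := (Finset.univ : Finset T))
    (t := (Finset.univ : Finset ι)) (f := fun t v => f c t u v)), Finset.sum_comm]

lemma rearr {T : Type} [Fintype T] (cup : ι → A) (q : T → A) (C : T → ι → ι → A)
    (cap : ι → ι → A) (F : ι → A) :
    ∑ c, cup c * ∑ t, q t * ∑ u, (∑ v, C t u v * cap v c) * F u =
      ∑ u, ∑ v, (∑ t, q t * C t u v) * (∑ c, cup c * cap v c) * F u := by
  have h1 : ∀ c, cup c * ∑ t, q t * ∑ u, (∑ v, C t u v * cap v c) * F u =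
      ∑ t, ∑ u, ∑ v, cup c * (q t * (C t u v * cap v c * F u)) := by
    intro c
    rw [Finset.mul_sum]
    refine Finset.sum_congr rfl fun t _ => ?_
    rw [Finset.mul_sum, Finset.mul_sum]
    refine Finset.sum_congr rfl fun u _ => ?_
    rw [Finset.sum_mul, Finset.mul_sum, Finset.mul_sum]
  rw [Finset.sum_congr rfl fun c _ => h1 c,
    perm fun c t u v => cup c * (q t * (C t u v * cap v c * F u))]
  refine Finset.sum_congr rfl fun u _ => Finset.sum_congr rfl fun v _ => ?_
  rw [Finset.sum_mul_sum, Finset.sum_comm, Finset.sum_mul]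
  refine Finset.sum_congr rfl fun c _ => ?_
  rw [Finset.sum_mul]
  exact Finset.sum_congr rfl fun t _ => by ring

end DVFx

open DVFx in
/-- **DVF** -/
theorem t_DVF (hV : VRI_Stmt) (hD : DCL_Stmt) (hO : VOP_Stmt) : DVF_Stmt := by
  intro A _ ι _ _ M ε κ hp hz e m n w hw F a
  have hcnt : cnt 2 (para (cl n w)) = some 2 := cnt_para (cl n w) 1 1 (cnt_cl hw 0)
  have hofn : ∀ y : Fin 2 → ι, List.ofFn y = [y 0, y 1] := by
    intro y
    simp [List.ofFn_succ]
  have htw : braidWord (List.replicate (2 * m.natAbs) (0, decide (0 < m))) = twists m := by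
    simp [braidWord, twists]
  have hbd : Bd 1 (List.replicate (2 * m.natAbs) ((0 : ℕ), decide (0 < m))) := by
    intro x hx
    rw [(List.mem_replicate.1 hx).2]
    exact Nat.zero_lt_one
  obtain ⟨Q, hQ⟩ : ∃ Q : Matrix (Fin 2 → ι) (Fin 2 → ι) A,
      Q = ptr (blkD (rdM M κ) 1) n w * tw (rdM M κ) m := ⟨_, rfl⟩
  rw [← hQ]
  have hin : ∀ b c, M.val (para (cl n w) ++ twists m ++
      [(Kind.crs e, 1), (Kind.crs e, 1), (Kind.cap, 0)]) F [a, b, c] =
      ε ^ (2 * n) * ∑ t, Q ![a, b] t * ∑ u, (∑ v, clasp M e t ![u, v] * M.cap v c) * F [u] := by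
    intro b c
    rw [List.append_assoc, Mats.val_append, Mats.val_append]
    have h1 := hV A ι M (para (cl n w)) 2 2 hcnt (M.val (twists m)
      (M.val [(Kind.crs e, 1), (Kind.crs e, 1), (Kind.cap, 0)] F)) [a, b] [c] rfl
    have h2 := hD A ι M ε κ hp n w hw (fun l' => M.val (twists m)
      (M.val [(Kind.crs e, 1), (Kind.crs e, 1), (Kind.cap, 0)] F) (l' ++ [c])) a b
    refine h1.trans (h2.trans ?_)
    congr 1
    have h4 : ∀ t, Q ![a, b] t = ∑ y, ptr (blkD (rdM M κ) 1) n w ![a, b] y *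
        tw (rdM M κ) m y t := by
      intro t
      rw [hQ]
      rfl
    have h5 : ∀ t, Q ![a, b] t * ∑ u, (∑ v, clasp M e t ![u, v] * M.cap v c) * F [u] =
        ∑ y, ptr (blkD (rdM M κ) 1) n w ![a, b] y * (tw (rdM M κ) m y t *
          M.val [(Kind.crs e, 1), (Kind.crs e, 1), (Kind.cap, 0)] F [t 0, t 1, c]) := by
      intro t
      rw [h4, Finset.sum_mul, top_val]
      refine Finset.sum_congr rfl fun y _ => ?_
      rw [Finset.sum_congr rfl fun u _ => by rw [← Y_eq hz e t c u], mul_assoc]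
    rw [Finset.sum_congr rfl fun t _ => h5 t, Finset.sum_comm]
    refine Finset.sum_congr rfl fun y _ => ?_
    rw [← Finset.mul_sum]
    congr 1
    have h3 := hO A ι M κ 1 (List.replicate (2 * m.natAbs) (0, decide (0 < m))) hbd
      (M.val [(Kind.crs e, 1), (Kind.crs e, 1), (Kind.cap, 0)] F) y [c]
    rw [htw, hofn y] at h3
    refine h3.trans (Finset.sum_congr rfl fun t _ => ?_)
    rw [hofn t]
    rfl
  have h0 : M.val (double e m (cl n w)) F [a] = ∑ b, ∑ c, M.cup b c *
      M.val (para (cl n w) ++ twists m ++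
        [(Kind.crs e, 1), (Kind.crs e, 1), (Kind.cap, 0)]) F [a, b, c] := rfl
  rw [h0]
  have h6 : ∀ b, ∑ c, M.cup b c * M.val (para (cl n w) ++ twists m ++
        [(Kind.crs e, 1), (Kind.crs e, 1), (Kind.cap, 0)]) F [a, b, c] =
      ε ^ (2 * n + 1) * ∑ u, κ b * (Q * clasp M e) ![a, b] ![u, b] * F [u] := by
    intro b
    have h7 : ∀ c, M.cup b c * M.val (para (cl n w) ++ twists m ++
        [(Kind.crs e, 1), (Kind.crs e, 1), (Kind.cap, 0)]) F [a, b, c] =
        ε ^ (2 * n) * (M.cup b c * ∑ t, Q ![a, b] t *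
          ∑ u, (∑ v, clasp M e t ![u, v] * M.cap v c) * F [u]) := by
      intro c
      rw [hin b c]
      ring
    rw [Finset.sum_congr rfl fun c _ => h7 c, ← Finset.mul_sum,
      rearr (fun c => M.cup b c) (fun t => Q ![a, b] t) (fun t u v => clasp M e t ![u, v])
        (fun v c => M.cap v c) (fun u => F [u]), pow_succ, mul_assoc]
    congr 1
    rw [Finset.mul_sum]
    refine Finset.sum_congr rfl fun u _ => ?_
    have h8 : ∀ v, (∑ t, Q ![a, b] t * clasp M e t ![u, v]) *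
        (∑ c, M.cup b c * M.cap v c) * F [u] =
        if b = v then (∑ t, Q ![a, b] t * clasp M e t ![u, v]) * (ε * κ b) * F [u] else 0 := by
      intro v
      rw [hp b v]
      split_ifs
      · rfl
      · rw [mul_zero, zero_mul]
    rw [Finset.sum_congr rfl fun v _ => h8 v, Finset.sum_ite_eq Finset.univ b,
      if_pos (Finset.mem_univ b), Matrix.mul_apply]
    ring
  rw [Finset.sum_congr rfl fun b _ => h6 b, ← Finset.mul_sum, Finset.sum_comm]
  congr 1
  refine Finset.sum_congr rfl fun u _ => ?_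
  rw [Finset.sum_mul]

end Pool.Agent.WD
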