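import Pool.Agent.TwoBr.BrEq
import Pool.Agent.GK.Defs

/-!
# Graph knots and their twisted Whitehead doubles as diagrams in Morse position (MP_31fd3b_gt)

Knots are diagrams of long knots in Morse position, read from bottom to top, modulo the moves
(`LibH11/SlicedKnots`). A braid word has letters `(i, true)` for `σ_i` and `(i, false)` for its
inverse.
-/

set_option autoImplicit false

namespace Pool.Agent.WD

open Pool.Agent.LibH11.Sliced
open Pool.Agent.IT (Word ev)
open Pool.Agent.GK (GraphKnot)

/-- `n` nested minima to the right of the first strand -/
def cups (n : ℕ) : Diag := (List.range n).map fun j => (Kind.cup, j + 1)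

/-- `n` nested maxima to the right of the first strand -/
def caps (n : ℕ) : Diag := (List.range n).reverse.map fun j => (Kind.cap, j + 1)

/-- The closure of the braid word `w` on `n + 1` strands, cut open at the first strand. -/
def cl (n : ℕ) (w : Word) : Diag := cups n ++ braidWord w ++ caps n

/-- The slice with every strand replaced by two parallel strands. -/
def par2 : Kind × ℕ → Diag
  | (.cup, i) => [(.cup, 2 * i), (.cup, 2 * i + 1)]
  | (.cap, i) => [(.cap, 2 * i + 1), (.cap, 2 * i)]
  | (.crs e, i) => [(.crs e, 2 * i + 1), (.crs e, 2 * i), (.crs e, 2 * i + 2), (.crs e, 2 * i + 1)]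

/-- The blackboard parallel of a diagram: every strand is replaced by two parallel strands. -/
def para (D : Diag) : Diag := D.flatMap par2

/-- `m` full twists of the first two strands -/
def twists (m : ℤ) : Diag := List.replicate (2 * m.natAbs) (Kind.crs (decide (0 < m)), 0)

/-- The twisted Whitehead double with clasp of type `e` of the long knot with diagram `D`: the
blackboard parallel of `D` with `m` full twists, closed by a minimum at the bottom on the right, and
at the top by a clasp with the strand on the right and a maximum. -/
def double (e : Bool) (m : ℤ) (D : Diag) : Diag :=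
  (.cup, 1) :: (para D ++ twists m ++ [(.crs e, 1), (.crs e, 1), (.cap, 0)])

/-- `K` is a graph knot, or a twisted Whitehead double (any twisting number, any clasp) of a graph
knot. -/
def IsGraphOrDouble (K : Knot) : Prop :=
  ∃ (n : ℕ) (w : Word) (h : LibH11.IsKnot (ev n w)), (∀ x ∈ w, x.1 < n) ∧
    GraphKnot (LibH11.closure (ev n w) h) ∧
    ((∃ hl : IsLongKnot (cl n w), K = ofDiag (cl n w) hl) ∨
      ∃ (e : Bool) (m : ℤ) (hl : IsLongKnot (double e m (cl n w))),
        K = ofDiag (double e m (cl n w)) hl)

end Pool.Agent.WD
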