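import Pool.Agent.WD.StQ

/-!
# The evaluation of Laurent polynomials at `T = exp (X / 2)`
-/

namespace Pool.Agent.WD

open Pool.Agent.LibH11 Pool.Agent.IT Pool.Agent.GK Pool.Agent.TwoBr
open scoped BigOperators
open PowerSeries LaurentPolynomial

theorem inj_of_poly {A : Type} [CommRing A] (ψ : ℤ[T;T⁻¹] →+* A)
    (h : ∀ p : Polynomial ℤ, ψ (Polynomial.toLaurent p) = 0 → p = 0) : Function.Injective ψ := by
  rw [injective_iff_map_eq_zero]
  intro f hf
  obtain ⟨n, f', hf'⟩ := exists_T_pow f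
  have h1 : f' = 0 := by
    apply h
    rw [hf', map_mul, hf, zero_mul]
  rw [h1, map_zero] at hf'
  have h2 : f * T n * T (-n) = f := by
    rw [mul_assoc, ← T_add]
    simp
  rw [← h2, ← hf', zero_mul]

/-- A ring homomorphism to power series that sends `T` to `1 + …`, `T` not to `1`, is injective. -/
theorem inj_of_const {R : Type} [CommRing R] [IsDomain R] [CharZero R]
    (ψ : ℤ[T;T⁻¹] →+* R⟦X⟧) (h1 : constantCoeff (ψ (T 1)) = 1) (h2 : ψ (T 1) ≠ 1) :
    Function.Injective ψ := by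
  apply inj_of_poly
  intro p hp
  by_contra hp0
  obtain ⟨g, hg, hg'⟩ := Polynomial.exists_eq_pow_rootMultiplicity_mul_and_not_dvd p hp0 1
  have h3 : ψ (Polynomial.toLaurent p) =
      (ψ (T 1) - 1) ^ Polynomial.rootMultiplicity 1 p * ψ (Polynomial.toLaurent g) := by
    conv_lhs => rw [hg]
    rw [map_mul, map_mul, map_pow, map_pow, map_sub, map_sub]
    simp [Polynomial.toLaurent_X]
  have h4 : ∀ g : Polynomial ℤ,
      constantCoeff (ψ (Polynomial.toLaurent g)) = ((g.eval 1 : ℤ) : R) := by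
    intro g
    have h5 : ((constantCoeff (R := R)).comp (ψ.comp Polynomial.toLaurent)) =
        (Int.castRingHom R).comp (Polynomial.evalRingHom 1) := by
      apply Polynomial.ringHom_ext
      · intro a
        simp
      · simpa [Polynomial.toLaurent_X] using h1
    exact congrArg (fun f => f g) h5
  rw [h3] at hp
  rcases mul_eq_zero.1 hp with h | h
  · exact h2 (sub_eq_zero.1 (eq_zero_of_pow_eq_zero h))
  · have h6 := h4 g
    rw [h, map_zero] at h6
    have h7 : g.eval 1 = 0 := by exact_mod_cast h6.symm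
    exact hg' (Polynomial.dvd_iff_isRoot.2 h7)

theorem t_EVT (he : ESER_Stmt) : EVT_Stmt := by
  obtain ⟨h0, hadd, hcc, -⟩ := he
  have hu : ∀ t : ℚ, E t * E (-t) = 1 := by
    intro t
    rw [← hadd, add_neg_cancel, h0]
  have hu' : ∀ t : ℚ, E (-t) * E t = 1 := by
    intro t
    rw [mul_comm, hu]
  let u : (ℚ⟦X⟧)ˣ := ⟨E (1 / 2), E (-(1 / 2)), hu _, hu' _⟩
  have hpow : ∀ n : ℤ, ((u ^ n : (ℚ⟦X⟧)ˣ) : ℚ⟦X⟧) = E (n / 2) := by
    intro n
    induction n using Int.induction_on with
    | zero => simp [h0]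
    | succ n ih =>
      rw [zpow_add_one, Units.val_mul, ih]
      change E _ * E (1 / 2) = _
      rw [← hadd]
      congr 1
      push_cast
      ring
    | pred n ih =>
      rw [zpow_sub_one, Units.val_mul, ih]
      change E _ * E (-(1 / 2)) = _
      rw [← hadd]
      congr 1
      push_cast
      ring
  let φ : ℤ[T;T⁻¹] →+* ℚ⟦X⟧ := LaurentPolynomial.eval₂ (algebraMap ℤ ℚ⟦X⟧) u
  have hφ : IsEv φ := by
    intro n
    rw [← hpow]
    exact LaurentPolynomial.eval₂_T _ _ _
  refine ⟨φ, hφ, inj_of_const φ ?_ ?_⟩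
  · rw [hφ, hcc]
  · rw [hφ]
    intro h
    have h1 := congrArg (coeff 1) h
    simp only [E, coeff_mk, coeff_one] at h1
    norm_num at h1

end Pool.Agent.WD
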