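import Pool.Agent.WD.StA

/-!
# WD, module EXP4: the expansion of the normalised coloured Jones polynomials
-/

set_option autoImplicit false

namespace Pool.Agent.WD

open Pool.Agent.LibH11 Pool.Agent.IT Pool.Agent.GK
open scoped BigOperators
open PowerSeries

namespace EXP4X

theorem coE (c : ℚ) (n : ℕ) : coeff n (E c - E (-c)) = (c ^ n - (-c) ^ n) / (n.factorial : ℚ) := by
  rw [map_sub, E, E, coeff_mk, coeff_mk]
  ring

theorem coM (f g : ℚ⟦X⟧) (n : ℕ) : coeff n (f * g) =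
    ∑ k ∈ Finset.range (n + 1), coeff k f * coeff (n - k) g := by
  rw [coeff_mul, Finset.Nat.sum_antidiagonal_eq_sum_range_succ_mk]

theorem coV (x : ℚ) (F : B) (m : ℕ) : coeff m (evB x F) =
    ∑ k ∈ Finset.range (m + 1), coeff (m - k) (coeff k F) * x ^ (m - k) :=
  PowerSeries.coeff_mk _ _

end EXP4X

open EXP4X in
theorem t_EXP4 : EXP4_Stmt := by
  intro G A B' J h1 hG hJ
  obtain ⟨g, hg⟩ : ∃ g : ℕ → ℕ → ℚ, ∀ k m, coeff m (coeff k G) = g k m := ⟨_, fun _ _ => rfl⟩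
  have g0 : ∀ k, g k 0 = 0 := fun k => (hg k 0).symm.trans (hG.odd k 0 (by decide))
  have g2 : ∀ k, g k 2 = 0 := fun k => (hg k 2).symm.trans (hG.odd k 2 (by decide))
  have g4 : ∀ k, g k 4 = 0 := fun k => (hg k 4).symm.trans (hG.odd k 4 (by decide))
  have c1 : g 0 1 = 2 := (hg 0 1).symm.trans hG.c1
  have c3 : g 0 3 = (1 - A) / 3 := (hg 0 3).symm.trans hG.c3
  have c5 : g 0 5 = 1 / 60 - A / 18 + A ^ 2 / 36 + B' / 90 := (hg 0 5).symm.trans hG.c5
  have e1 : ∀ x : ℚ, coeff 1 (evB x G) = 2 * x := fun x => by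
    rw [coV]
    simp only [Finset.sum_range_succ, Finset.sum_range_zero, hg]
    norm_num
    rw [g0, c1]
    ring
  have e2 : ∀ x : ℚ, coeff 2 (evB x G) = g 1 1 * x := fun x => by
    rw [coV]
    simp only [Finset.sum_range_succ, Finset.sum_range_zero, hg]
    norm_num
    rw [g0, g2]
    ring
  have e3 : ∀ x : ℚ, coeff 3 (evB x G) = g 0 3 * x ^ 3 + g 2 1 * x := fun x => by
    rw [coV]
    simp only [Finset.sum_range_succ, Finset.sum_range_zero, hg]
    norm_num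
    rw [g0, g2]
    ring
  have e4 : ∀ x : ℚ, coeff 4 (evB x G) = g 1 3 * x ^ 3 + g 3 1 * x := fun x => by
    rw [coV]
    simp only [Finset.sum_range_succ, Finset.sum_range_zero, hg]
    norm_num
    rw [g0, g2, g4]
    ring
  have e5 : ∀ x : ℚ, coeff 5 (evB x G) = g 0 5 * x ^ 5 + g 2 3 * x ^ 3 + g 4 1 * x := fun x => by
    rw [coV]
    simp only [Finset.sum_range_succ, Finset.sum_range_zero, hg]
    norm_num
    rw [g0, g2, g4]
    ring
  have u2 := e2 1
  have u3 := e3 1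
  have u4 := e4 1
  have u5 := e5 1
  rw [h1, coE] at u2 u3 u4 u5
  norm_num [Nat.factorial] at u2 u3 u4 u5
  refine ⟨g 1 3 / 2, (g 0 5 - 1 / 60 + g 2 3) / 2, fun N hN => ?_⟩
  have hN0 : (N : ℚ) ≠ 0 := by
    have : 0 < N := hN
    exact_mod_cast this.ne'
  obtain ⟨x, hx⟩ : ∃ x : ℚ, x = (N : ℚ) := ⟨_, rfl⟩
  have hE := hJ N hN
  rw [← hx] at hN0 hE ⊢
  have f1 := e1 x
  have f2 := e2 x
  have f3 := e3 x
  have f4 := e4 x
  have f5 := e5 x
  rw [← hE, coM] at f1 f2 f3 f4 f5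
  simp only [Finset.sum_range_succ, Finset.sum_range_zero, coE] at f1 f2 f3 f4 f5
  norm_num [Nat.factorial] at f1 f2 f3 f4 f5
  have hx2 : x + x ≠ 0 := by
    intro h
    apply hN0
    linarith
  have j0 : constantCoeff (J N) = 1 := by
    apply mul_left_cancel₀ hx2
    linear_combination f1
  have j1 : coeff 1 (J N) = 0 := by
    apply mul_left_cancel₀ hx2
    linear_combination f2 - x * u2
  rw [j0] at f3 f5
  rw [j1] at f4
  have j2 : coeff 2 (J N) = -(A / 6) * (x ^ 2 - 1) := by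
    apply mul_left_cancel₀ hx2
    linear_combination f3 - x * u3 + (x ^ 3 - x) * c3
  have j3 : coeff 3 (J N) = g 1 3 / 2 * (x ^ 2 - 1) := by
    apply mul_left_cancel₀ hx2
    linear_combination f4 - x * u4
  rw [j2] at f5
  have j4 : coeff 4 (J N) =
      (x ^ 2 - 1) * ((A ^ 2 / 72 + B' / 180) * x ^ 2 + (g 0 5 - 1 / 60 + g 2 3) / 2) := by
    apply mul_left_cancel₀ hx2
    linear_combination f5 - x * u5 + (x ^ 5 - x ^ 3) * c5
  refine ⟨⟨?_, j1, ?_, ?_⟩, j4⟩
  · rw [coeff_zero_eq_constantCoeff_apply]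
    exact j0
  · rw [← hx]
    exact j2
  · rw [← hx]
    exact j3

end Pool.Agent.WD
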