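import Pool.Agent.WD.StT

/-!
FIX: the braids that fix the first strand.
-/

namespace Pool.Agent.WD

open Pool.Agent.LibH11 Pool.Agent.IT Pool.Agent.GK

namespace FIX

/-- the elements of `C` that fix the first strand -/
def D {n : ℕ} (C : Subgroup (Br n)) : Subgroup (Br n) where
  carrier := {c | perm c 0 = 0 ∧ c ∈ C}
  one_mem' := ⟨by rw [map_one]; rfl, C.one_mem⟩
  mul_mem' := by
    rintro a b ⟨ha, ha'⟩ ⟨hb, hb'⟩
    exact ⟨by rw [map_mul, Equiv.Perm.mul_apply, hb, ha], C.mul_mem ha' hb'⟩
  inv_mem' := by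
    rintro a ⟨ha, ha'⟩
    exact ⟨by rw [map_inv, Equiv.Perm.inv_eq_iff_eq, ha], C.inv_mem ha'⟩

/-- the generators other than the first one and the square of the first one are in `C` -/
def Ok {n : ℕ} (C : Subgroup (Br n)) : Prop :=
  (∀ i : Fin n, 1 ≤ (i : ℕ) → sg i ∈ C) ∧ (∀ i : Fin n, (i : ℕ) = 0 → sg i * sg i ∈ C)

theorem far_mem {n : ℕ} {C : Subgroup (Br n)} (h : Ok C) (i : ℕ) (h1 : 1 ≤ i) (hi : i < n) :
    gen n (i, true) ∈ D C := by
  rw [gen_true hi]
  refine ⟨?_, h.1 ⟨i, hi⟩ h1⟩
  rw [IT.perm_sg]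
  apply Equiv.swap_apply_of_ne_of_ne
  · rw [Fin.ne_iff_vne]
    simp
    omega
  · rw [Fin.ne_iff_vne]
    simp

theorem sq_mem {n : ℕ} {C : Subgroup (Br n)} (h : Ok C) (hn : 1 ≤ n) :
    gen n (0, true) * gen n (0, true) ∈ D C := by
  rw [gen_true (by omega : 0 < n)]
  refine ⟨?_, h.2 ⟨0, by omega⟩ rfl⟩
  rw [map_mul, IT.perm_sg, Equiv.swap_mul_self]
  rfl

/-- the rows `σ_0 ⋯ σ_(k-1)` -/
noncomputable def T (n : ℕ) : ℕ → Br n
  | 0 => 1
  | k + 1 => T n k * gen n (k, true)

theorem T_far (n k : ℕ) (i : ℕ) (hi : k + 1 ≤ i) (e : Bool) :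
    Commute (T n k) (gen n (i, e)) := by
  induction k with
  | zero => exact Commute.one_left _
  | succ k ih =>
    refine Commute.mul_left (ih (by omega)) (gen_far n ?_ true e)
    omega

theorem T_shift (n : ℕ) : ∀ k : ℕ, k ≤ n → ∀ i : ℕ, i + 1 < k →
    T n k * gen n (i, true) = gen n (i + 1, true) * T n k := by
  intro k
  induction k with
  | zero => intro _ i h1; omega
  | succ k ih =>
    intro hk i h1
    by_cases hi : i + 1 < k
    · have hc : Commute (gen n (k, true)) (gen n (i, true)) :=
        gen_far n (by omega) true true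
      show T n k * gen n (k, true) * gen n (i, true) = _ * (T n k * gen n (k, true))
      rw [mul_assoc, hc.eq, ← mul_assoc, ih (by omega) i hi, mul_assoc]
    · obtain ⟨l, rfl⟩ : ∃ l, k = l + 1 := ⟨k - 1, by omega⟩
      have hi' : i = l := by omega
      subst hi'
      show T n i * gen n (i, true) * gen n (i + 1, true) * gen n (i, true) =
        gen n (i + 1, true) * (T n i * gen n (i, true) * gen n (i + 1, true))
      have hb := gen_braid (N := n) (i := i) (by omega)
      have hc := T_far n i (i + 1) (by omega) true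
      calc T n i * gen n (i, true) * gen n (i + 1, true) * gen n (i, true)
          = T n i * (gen n (i, true) * gen n (i + 1, true) * gen n (i, true)) := by group
        _ = T n i * gen n (i + 1, true) * (gen n (i, true) * gen n (i + 1, true)) := by
          rw [hb]; group
        _ = _ := by rw [hc.eq]; group

theorem A_mem {n : ℕ} {C : Subgroup (Br n)} (h : Ok C) :
    ∀ k : ℕ, k < n → T n k * (gen n (k, true) * gen n (k, true)) * (T n k)⁻¹ ∈ D C := by
  intro k
  induction k with
  | zero =>
    intro hk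
    show 1 * _ * 1⁻¹ ∈ _
    rw [inv_one, mul_one, one_mul]
    exact sq_mem h (by omega)
  | succ k ih =>
    intro hk
    have h1 := ih (by omega)
    have ha := far_mem h (k + 1) (by omega) hk
    have hb := gen_braid (N := n) (i := k) (by omega)
    have hc := T_far n k (k + 1) (by omega) true
    have h2 := Subgroup.mul_mem _ (Subgroup.mul_mem _ (Subgroup.inv_mem _ ha) h1) ha
    have e4 : T n (k + 1) * (gen n (k + 1, true) * gen n (k + 1, true)) *
        (T n (k + 1))⁻¹ = (gen n (k + 1, true))⁻¹ *
        (T n k * (gen n (k, true) * gen n (k, true)) * (T n k)⁻¹) * gen n (k + 1, true) := by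
      show T n k * gen n (k, true) * (gen n (k + 1, true) * gen n (k + 1, true)) *
        (T n k * gen n (k, true))⁻¹ = _
      generalize gen n (k + 1, true) = a at *
      generalize gen n (k, true) = b at *
      generalize T n k = t at *
      have h3 : b * (a * a) * b⁻¹ = a⁻¹ * (b * b) * a := by
        have : a * (b * (a * a) * b⁻¹) = b * b * a := by
          calc a * (b * (a * a) * b⁻¹) = (a * b * a) * a * b⁻¹ := by group
            _ = (b * a * b) * a * b⁻¹ := by rw [hb]
            _ = b * (a * b * a) * b⁻¹ := by group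
            _ = b * (b * a * b) * b⁻¹ := by rw [hb]
            _ = b * b * a := by group
        calc b * (a * a) * b⁻¹ = a⁻¹ * (a * (b * (a * a) * b⁻¹)) := by group
          _ = _ := by rw [this]; group
      have hc' : t * a⁻¹ = a⁻¹ * t := (hc.inv_right).eq
      have hc'' : a * t⁻¹ = t⁻¹ * a := (hc.symm.inv_right).eq
      calc t * b * (a * a) * (t * b)⁻¹ = t * (b * (a * a) * b⁻¹) * t⁻¹ := by group
        _ = (t * a⁻¹) * (b * b) * (a * t⁻¹) := by rw [h3]; group
        _ = _ := by rw [hc', hc'']; group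
    rw [e4]
    exact h2

/-- right multiplication of the coset representatives -/
theorem coset_step {n : ℕ} {C : Subgroup (Br n)} (h : Ok C) (k : ℕ) (hk : k ≤ n)
    (i : ℕ) (hi : i < n) (e : Bool) :
    ∃ c ∈ D C, ∃ l ≤ n, T n k * gen n (i, e) = c * T n l := by
  rcases lt_trichotomy k i with hlt | heq | hgt
  · have ha := far_mem h i (by omega) hi
    refine ⟨gen n (i, e), ?_, k, hk, (T_far n k i (by omega) e).eq⟩
    cases e
    · rw [gen_false]
      exact Subgroup.inv_mem _ ha
    · exact ha
  · subst heq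
    cases e
    · refine ⟨(T n k * (gen n (k, true) * gen n (k, true)) * (T n k)⁻¹)⁻¹,
        Subgroup.inv_mem _ (A_mem h k (by omega)), k + 1, by omega, ?_⟩
      show _ = _ * (T n k * gen n (k, true))
      rw [gen_false]
      group
    · refine ⟨1, Subgroup.one_mem _, k + 1, by omega, ?_⟩
      rw [one_mul]
      rfl
  · by_cases hik : i + 1 < k
    · have ha := far_mem h (i + 1) (by omega) (by omega)
      have hs := T_shift n k hk i hik
      cases e
      · refine ⟨(gen n (i + 1, true))⁻¹, Subgroup.inv_mem _ ha, k, hk, ?_⟩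
        rw [gen_false]
        have : gen n (i + 1, true) * (T n k * (gen n (i, true))⁻¹) = T n k := by
          rw [← mul_assoc, ← hs]
          group
        calc T n k * (gen n (i, true))⁻¹
            = (gen n (i + 1, true))⁻¹ * (gen n (i + 1, true) * (T n k * (gen n (i, true))⁻¹)) := by
              group
          _ = _ := by rw [this]
      · exact ⟨gen n (i + 1, true), ha, k, hk, hs⟩
    · obtain ⟨l, rfl⟩ : ∃ l, k = l + 1 := ⟨k - 1, by omega⟩
      have hi' : i = l := by omega
      subst hi'
      cases e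
      · refine ⟨1, Subgroup.one_mem _, i, by omega, ?_⟩
        show T n i * gen n (i, true) * _ = _
        rw [gen_false]
        group
      · refine ⟨T n i * (gen n (i, true) * gen n (i, true)) * (T n i)⁻¹,
          A_mem h i (by omega), i, by omega, ?_⟩
        show T n i * gen n (i, true) * _ = _
        group

theorem coset {n : ℕ} {C : Subgroup (Br n)} (h : Ok C) (w : Word) (hw : Bd n w) :
    ∃ c ∈ D C, ∃ l ≤ n, ev n w = c * T n l := by
  induction w using List.reverseRecOn with
  | nil => exact ⟨1, Subgroup.one_mem _, 0, by omega, by simp [T]⟩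
  | append_singleton w x ih =>
    obtain ⟨c, hc, l, hl, hwl⟩ := ih hw.left
    have hx : x.1 < n := hw x (by simp)
    obtain ⟨c', hc', l', hl', hh⟩ := coset_step h l hl x.1 hx x.2
    refine ⟨c * c', Subgroup.mul_mem _ hc hc', l', hl', ?_⟩
    rw [ev_append, ev_single, hwl, mul_assoc, mul_assoc]
    congr 1

theorem perm_T (n k : ℕ) (hk : k ≤ n) : perm (T n k) ⟨k, by omega⟩ = 0 := by
  induction k with
  | zero =>
    show perm (1 : Br n) _ = _
    rw [map_one]
    rfl
  | succ k ih =>
    have h1 := ih (by omega)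
    show perm (T n k * gen n (k, true)) _ = _
    rw [map_mul, Equiv.Perm.mul_apply, gen_true (by omega : k < n), IT.perm_sg]
    have e1 : (⟨k + 1, by omega⟩ : Fin (n + 1)) = (⟨k, by omega⟩ : Fin n).succ := Fin.ext (by simp)
    rw [e1, Equiv.swap_apply_right]
    exact h1

end FIX

theorem t_FIX : FIX_Stmt := by
  intro n C h1 h2 b hb
  have h : FIX.Ok C := ⟨h1, h2⟩
  obtain ⟨w, hw, rfl⟩ := exists_word b
  obtain ⟨c, hc, l, hl, hwl⟩ := FIX.coset h w hw
  have h3 : perm (ev n w) ⟨l, by omega⟩ = 0 := by
    rw [hwl, map_mul, Equiv.Perm.mul_apply, FIX.perm_T n l hl, hc.1]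
  have h4 : (⟨l, by omega⟩ : Fin (n + 1)) = 0 := (perm (ev n w)).injective (h3.trans hb.symm)
  have h5 : l = 0 := by simpa using congrArg Fin.val h4
  subst h5
  rw [hwl]
  show c * 1 ∈ _
  rw [mul_one]
  exact hc.2

end Pool.Agent.WD
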