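import Pool.Agent.WD.StX

/-!
# An oriented diagram is equivalent to a sorted one (module FLO, helper68)
-/

set_option autoImplicit false

namespace Pool.Agent.WD

open Pool.Agent.LibH11 Pool.Agent.LibH11.Sliced Pool.Agent.IT Pool.Agent.TwoBr

namespace FLO

theorem claim (h1 : LSX_Stmt) {D : Diag} {o o' : List Bool} (h : OD D o o') :
    ∃ v : Diag, SW (ups o) (dns o) (ups o') (dns o') v ∧
      EqD o.length (D ++ T true o') (T true o ++ v) := by
  induction h with
  | nil o => exact ⟨[], SW.nil _ _, by simpa using EqD.refl _⟩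
  | @cons p u o o1 o2 hp hu ih =>
    obtain ⟨v1, hv1, hE1⟩ := h1 true p o o1 hp
    obtain ⟨v2, hv2, hE2⟩ := ih
    refine ⟨v1 ++ v2, hv1.append hv2, ?_⟩
    have e1 : EqD o.length (p :: (u ++ T true o2)) (p :: (T true o1 ++ v2)) :=
      hE2.left [p] hp.cnt
    have hc : cnt o.length (p :: (T true o1 ++ v2)) = some o2.length := by
      rw [← List.singleton_append, cnt_app hp.cnt, cnt_app (cnt_T true o1), ← ups_add_dns o1,
        hv2.cnt, ups_add_dns]
    have e2 : EqD o.length ((p :: T true o1) ++ v2) ((T true o ++ v1) ++ v2) := by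
      refine hE1.right v2 ?_
      rw [List.cons_append, hc]
      simp
    have e3 := e1.trans e2
    rw [List.append_assoc] at e3
    exact e3

end FLO

/-- FLO: an oriented diagram is equivalent to a sorted one -/
theorem t_FLO (h1 : LSX_Stmt) : FLO_Stmt := by
  intro D hD
  obtain ⟨v, hv, hE⟩ := FLO.claim h1 hD
  refine ⟨v, hv, ?_⟩
  have e1 : T true [true] = [] := rfl
  rw [e1, List.append_nil, List.nil_append] at hE
  exact hE

end Pool.Agent.WD
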