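import Pool.Agent.WD.EVT

/-!
# Integral models give invariants determined by the finite type invariants
-/

namespace Pool.Agent.WD

open Pool.Agent.LibH11 Pool.Agent.IT Pool.Agent.GK Pool.Agent.TwoBr
open scoped BigOperators
open PowerSeries LaurentPolynomial

theorem t_FTZ : FTZ_Stmt := by
  intro L _ _ Z hZ hX F a K K' hft
  have hc : IsUnit (constantCoeff (1 + X : ℤ⟦X⟧)) := by simp
  obtain ⟨u, hu⟩ := PowerSeries.isUnit_iff_constantCoeff.2 hc
  let ψ : ℤ[T;T⁻¹] →+* ℤ⟦X⟧ := LaurentPolynomial.eval₂ (algebraMap ℤ ℤ⟦X⟧) u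
  have hψ : ψ (T 1) = 1 + X := by
    have := LaurentPolynomial.eval₂_T (algebraMap ℤ ℤ⟦X⟧) u 1
    rw [zpow_one, hu] at this
    exact this
  have hinj : Function.Injective ψ := by
    apply inj_of_const ψ
    · rw [hψ]; simp
    · rw [hψ]
      intro h
      have h1 := congrArg (coeff 1) h
      simp at h1
  apply hinj
  ext k
  let φ : ℤ[T;T⁻¹] →+ ℤ := (coeff (R := ℤ) k).toAddMonoidHom.comp ψ.toAddMonoidHom
  have hφ : ∀ r, φ ((T 1 - 1) ^ (k + 1) * r) = 0 := by
    intro r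
    change coeff k (ψ ((T 1 - 1) ^ (k + 1) * r)) = 0
    rw [map_mul, map_pow, map_sub, map_one, hψ, add_sub_cancel_left]
    rw [coeff_X_pow_mul']
    simp
  have h1 := hft (fun K => φ (Z.inv hZ F a K)) ⟨k, Z.hasOrderLE hZ (T 1 - 1) hX F a φ k hφ⟩
  exact h1

end Pool.Agent.WD
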