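import Pool.Agent.WD.StT

/-!
# The clasp of the long strand moves around the closure (module HOOK, project WD)
-/

set_option autoImplicit false

namespace Pool.Agent.WD

open Pool.Agent.LibH11 Pool.Agent.LibH11.Sliced Pool.Agent.IT Pool.Agent.TwoBr

namespace HOOK

theorem botL (e : Bool) : EqD 1 [(.cup, 1), (.crs e, 0), (.crs e, 0)]
    [(.cup, 0), (.crs e, 1), (.crs (!e), 0), (.crs (!e), 1)] := by
  cases e
  · exact EqD.of_chk [(0, true, .su 0 true), (1, true, .r2 0 false), (2, true, .r2 1 false),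
      (3, true, .r3 0), (5, false, .r2 0 true), (0, false, .u1 0 false)] rfl
  · exact EqD.of_chk [(0, true, .su 0 false), (3, true, .r2 1 true), (4, true, .r2 0 true),
      (2, false, .r3 0), (1, false, .r2 1 false), (0, false, .u1 0 true)] rfl

theorem topL (e : Bool) : EqD 3 [(.crs (!e), 0), (.crs (!e), 1), (.cap, 1)]
    [(.crs e, 1), (.cap, 0)] := by
  cases e
  · exact EqD.of_chk [(1, false, .a1 1 true), (0, true, .sa 0 false)] rfl
  · exact EqD.of_chk [(1, false, .a1 1 false), (0, true, .sa 0 true)] rfl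

theorem topR (e : Bool) : EqD 3 [(.crs e, 0), (.crs e, 0), (.cap, 1)]
    [(.crs (!e), 1), (.crs (!e), 0), (.crs e, 1), (.cap, 0)] := by
  cases e
  · exact EqD.of_chk [(1, true, .sa 0 true), (2, true, .r2 0 true), (3, true, .r2 1 true),
      (1, true, .r3 0), (0, false, .r2 0 false), (3, false, .a1 0 false)] rfl
  · exact EqD.of_chk [(1, true, .sa 0 false), (0, true, .r2 1 false), (1, true, .r2 0 false),
      (2, false, .r3 0), (4, false, .r2 1 true), (3, false, .a1 0 true)] rfl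

theorem botR (e : Bool) : EqD 1 [(.cup, 1), (.crs (!e), 1), (.crs (!e), 0)]
    [(.cup, 0), (.crs e, 1)] := by
  cases e
  · exact EqD.of_chk [(0, false, .u1 1 true), (0, true, .su 0 false)] rfl
  · exact EqD.of_chk [(0, false, .u1 1 false), (0, true, .su 0 true)] rfl

theorem inv1 (e : Bool) : EqD 3 [(.crs e, 0), (.crs e, 1), (.crs (!e), 1), (.crs (!e), 0)] [] := by
  cases e
  · exact EqD.of_chk [(1, false, .r2 1 false), (0, false, .r2 0 false)] rfl
  · exact EqD.of_chk [(1, false, .r2 1 true), (0, false, .r2 0 true)] rfl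

theorem inv2 (e : Bool) : EqD 3 [(.crs (!e), 1), (.crs (!e), 0), (.crs e, 0), (.crs e, 1)] [] := by
  cases e
  · exact EqD.of_chk [(1, false, .r2 0 true), (0, false, .r2 1 true)] rfl
  · exact EqD.of_chk [(1, false, .r2 0 false), (0, false, .r2 1 false)] rfl

theorem xs_two (e : Bool) : xs e 2 = [(.crs e, 0), (.crs e, 1)] := rfl

theorem cnt3 {t : Diag} (h : cnt 2 t = some 2) : cnt 3 t = some 3 := cnt_widen 1 t 2 2 h

theorem cnt3s {t : Diag} (h : cnt 2 t = some 2) : cnt 3 (sh 1 t) = some 3 := by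
  have := cnt_sh 1 t 2
  rw [h] at this
  exact this

/-- the middle part of the right hand side -/
theorem mid (h1 : NAT_Stmt) (e : Bool) (t : Diag) (ht : cnt 2 t = some 2) :
    EqD 3 (t ++ [(.crs (!e), 1), (.crs (!e), 0)]) ([(.crs (!e), 1), (.crs (!e), 0)] ++ sh 1 t) := by
  have hn := h1 e t 2 2 ht
  rw [xs_two] at hn
  have c1 := cnt3 ht
  have c2 := cnt3s ht
  have cY : cnt 3 ([(.crs (!e), 1), (.crs (!e), 0)] : Diag) = some 3 := by cases e <;> rfl
  have cX : cnt 3 ([(.crs e, 0), (.crs e, 1)] : Diag) = some 3 := by cases e <;> rfl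
  have s1 : EqD 3 ([] ++ (t ++ [(.crs (!e), 1), (.crs (!e), 0)]))
      ([(.crs (!e), 1), (.crs (!e), 0), (.crs e, 0), (.crs e, 1)] ++
        (t ++ [(.crs (!e), 1), (.crs (!e), 0)])) := by
    refine (inv2 e).symm.right _ ?_
    rw [List.nil_append, cnt_app c1, cY]
    simp
  have s2 : EqD 3 ([(.crs (!e), 1), (.crs (!e), 0)] ++
        ([(.crs e, 0), (.crs e, 1)] ++ t) ++ [(.crs (!e), 1), (.crs (!e), 0)])
      ([(.crs (!e), 1), (.crs (!e), 0)] ++
        (sh 1 t ++ [(.crs e, 0), (.crs e, 1)]) ++ [(.crs (!e), 1), (.crs (!e), 0)]) := by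
    refine hn.ctx _ _ cY ?_
    rw [List.append_assoc, List.append_assoc, cnt_app cY, cnt_app cX, cnt_app c1, cY]
    simp
  have s3 : EqD 3 ([(.crs (!e), 1), (.crs (!e), 0)] ++ sh 1 t ++
        [(.crs e, 0), (.crs e, 1), (.crs (!e), 1), (.crs (!e), 0)])
      ([(.crs (!e), 1), (.crs (!e), 0)] ++ sh 1 t ++ []) := by
    refine (inv1 e).left _ ?_
    rw [cnt_app cY, c2]
  simp only [List.nil_append, List.append_nil, List.append_assoc, List.cons_append] at s1 s2 s3 ⊢
  exact (s1.trans s2).trans s3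

end HOOK

open HOOK in
theorem t_HOOK (h1 : NAT_Stmt) : HOOK_Stmt := by
  intro e t ht
  have c1 := cnt3 ht
  have c2 := cnt3s ht
  have hn := h1 (!e) t 2 2 ht
  rw [xs_two] at hn
  have cX : cnt 3 ([(.crs (!e), 0), (.crs (!e), 1)] : Diag) = some 3 := by cases e <;> rfl
  have cY : cnt 3 ([(.crs (!e), 1), (.crs (!e), 0)] : Diag) = some 3 := by cases e <;> rfl
  have cB : cnt 1 ([(.cup, 0), (.crs e, 1)] : Diag) = some 3 := by cases e <;> rfl
  have cC : cnt 1 ([(.cup, 1), (.crs e, 0), (.crs e, 0)] : Diag) = some 3 := by cases e <;> rfl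
  have cD : cnt 1 ([(.cup, 1)] : Diag) = some 3 := rfl
  have cE : cnt 1 ([(.cup, 1), (.crs (!e), 1), (.crs (!e), 0)] : Diag) = some 3 := by
    cases e <;> rfl
  have cF : cnt 3 ([(.crs e, 1), (.cap, 0)] : Diag) = some 1 := by cases e <;> rfl
  have cG : cnt 3 ([(.cap, 1)] : Diag) = some 1 := rfl
  -- the left hand side
  have l1 : EqD 1 ([(.cup, 1), (.crs e, 0), (.crs e, 0)] ++ (t ++ [(.cap, 1)]))
      ([(.cup, 0), (.crs e, 1), (.crs (!e), 0), (.crs (!e), 1)] ++ (t ++ [(.cap, 1)])) := by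
    refine (botL e).right _ ?_
    rw [cnt_app cC, cnt_app c1, cG]
    simp
  have l2 : EqD 1 ([(.cup, 0), (.crs e, 1)] ++ ([(.crs (!e), 0), (.crs (!e), 1)] ++ t) ++ [(.cap, 1)])
      ([(.cup, 0), (.crs e, 1)] ++ (sh 1 t ++ [(.crs (!e), 0), (.crs (!e), 1)]) ++ [(.cap, 1)]) := by
    refine hn.ctx _ _ cB ?_
    rw [List.append_assoc, List.append_assoc, cnt_app cB, cnt_app cX, cnt_app c1, cG]
    simp
  have l3 : EqD 1 ([(.cup, 0), (.crs e, 1)] ++ sh 1 t ++
        [(.crs (!e), 0), (.crs (!e), 1), (.cap, 1)])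
      ([(.cup, 0), (.crs e, 1)] ++ sh 1 t ++ [(.crs e, 1), (.cap, 0)]) := by
    refine (topL e).left _ ?_
    rw [cnt_app cB, c2]
  -- the right hand side
  have r1 : EqD 1 ([(.cup, 1)] ++ t ++ [(.crs e, 0), (.crs e, 0), (.cap, 1)])
      ([(.cup, 1)] ++ t ++ [(.crs (!e), 1), (.crs (!e), 0), (.crs e, 1), (.cap, 0)]) := by
    refine (topR e).left _ ?_
    rw [cnt_app cD, c1]
  have r2 : EqD 1 ([(.cup, 1)] ++ (t ++ [(.crs (!e), 1), (.crs (!e), 0)]) ++
        [(.crs e, 1), (.cap, 0)])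
      ([(.cup, 1)] ++ ([(.crs (!e), 1), (.crs (!e), 0)] ++ sh 1 t) ++
        [(.crs e, 1), (.cap, 0)]) := by
    refine (mid h1 e t ht).ctx _ _ cD ?_
    rw [List.append_assoc, List.append_assoc, cnt_app cD, cnt_app c1, cnt_app cY, cF]
    simp
  have r3 : EqD 1 ([(.cup, 1), (.crs (!e), 1), (.crs (!e), 0)] ++
        (sh 1 t ++ [(.crs e, 1), (.cap, 0)]))
      ([(.cup, 0), (.crs e, 1)] ++ (sh 1 t ++ [(.crs e, 1), (.cap, 0)])) := by
    refine (botR e).right _ ?_
    rw [cnt_app cE, cnt_app c2, cF]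
    simp
  simp only [List.nil_append, List.append_nil, List.append_assoc, List.cons_append]
    at l1 l2 l3 r1 r2 r3 ⊢
  exact ((l1.trans l2).trans l3).trans ((r1.trans r2).trans r3).symm

end Pool.Agent.WD
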