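import Pool.Agent.WD.StT

/-!
# Module HTP: a half twist of a doubled strand passes a doubled slice
-/

set_option autoImplicit false

namespace Pool.Agent.WD

open Pool.Agent.LibH11 Pool.Agent.LibH11.Sliced Pool.Agent.IT Pool.Agent.TwoBr

namespace HTP

theorem par2_eq (κ : Kind) (i : ℕ) : par2 (κ, i) = sh (2 * i) (par2 (κ, 0)) := by
  have h := par2_sh (κ, 0) i
  simp only [Nat.zero_add] at h
  exact h

/-- a certificate at the place `2 i` -/
theorem place {M : ℕ} {x y : Diag} (h : EqD M x y) (i N : ℕ) (hN : M + 2 * i ≤ 2 * N) :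
    EqD (2 * N) (sh (2 * i) x) (sh (2 * i) y) := by
  have h1 := (h.sh (2 * i)).widen (2 * N - (M + 2 * i))
  rw [show M + 2 * i + (2 * N - (M + 2 * i)) = 2 * N by omega] at h1
  exact h1

end HTP

open HTP in
theorem t_HTP : HTP_Stmt := by
  intro e N κ i hi
  refine ⟨fun j hj => ?_, fun j hj hij => ?_, fun f hf => ?_, fun hκ => ?_, fun hκ => ?_⟩
  · have h1 : cnt (2 * i) (ht e j) = some (2 * i) := by
      unfold ht
      exact cnt_crs (by omega)
    have h2 : cnt (2 * (N - i)) (par2 (κ, 0)) ≠ none := by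
      rw [cnt_par2 (by omega)]
      simp
    have h3 := far_words (ht e j) (par2 (κ, 0)) (2 * i) (2 * i) (2 * (N - i)) h1 h2
    rw [show 2 * i + 2 * (N - i) = 2 * N by omega, ← par2_eq] at h3
    exact h3
  · have h1 : cnt (2 * (i + κ.ins)) (par2 (κ, i)) = some (2 * (i + κ.outs)) := by
      rw [cnt_par2 (by omega)]
      congr 1
      omega
    have h2 : cnt (2 * (N - (i + κ.ins))) (ht e (j - (i + κ.ins))) ≠ none := by
      unfold ht
      rw [cnt_crs (by omega)]
      simp
    have h3 := far_words (par2 (κ, i)) (ht e (j - (i + κ.ins))) (2 * (i + κ.ins))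
      (2 * (i + κ.outs)) (2 * (N - (i + κ.ins))) h1 h2
    have e1 : sh (2 * (i + κ.outs)) (ht e (j - (i + κ.ins))) = ht e (j - κ.ins + κ.outs) := by
      unfold ht
      rw [sh_cons, sh_nil]
      simp only
      rw [show 2 * (j - (i + κ.ins)) + 2 * (i + κ.outs) = 2 * (j - κ.ins + κ.outs) by omega]
    have e2 : sh (2 * (i + κ.ins)) (ht e (j - (i + κ.ins))) = ht e j := by
      unfold ht
      rw [sh_cons, sh_nil]
      simp only
      rw [show 2 * (j - (i + κ.ins)) + 2 * (i + κ.ins) = 2 * j by omega]
    rw [e1, e2, show 2 * (i + κ.ins) + 2 * (N - (i + κ.ins)) = 2 * N by omega] at h3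
    exact h3.symm
  · subst hf
    have hi2 : i + 2 ≤ N := hi
    have a1 := place (c_htx1 e f) i N (by omega)
    have a2 := place (c_htx2 e f) i N (by omega)
    rw [sh_cons, sh_append, ← para_sh] at a1 a2
    constructor
    · unfold ht
      have e1 : para (sh i [(Kind.crs f, 0)]) = par2 (.crs f, i) := by
        simp [para, sh]
      rw [e1] at a1
      simp only [sh_cons, sh_nil, Nat.zero_add] at a1
      rw [show 2 * (i + 1) = 2 + 2 * i by omega]
      exact a1
    · unfold ht
      have e1 : para (sh i [(Kind.crs f, 0)]) = par2 (.crs f, i) := by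
        simp [para, sh]
      rw [e1] at a2
      simp only [sh_cons, sh_nil, Nat.zero_add] at a2
      rw [show 2 * (i + 1) = 2 + 2 * i by omega]
      exact a2
  · subst hκ
    have hi2 : i + 2 ≤ N := hi
    have a1 := place (c_htcap e) i N (by omega)
    rw [sh_cons, sh_cons, ← para_sh] at a1
    have e1 : para (sh i [(Kind.cap, 0)]) = par2 (.cap, i) := by
      simp [para, sh]
    rw [e1] at a1
    unfold ht
    simp only [Nat.zero_add] at a1
    rw [show 2 * (i + 1) = 2 + 2 * i by omega]
    exact a1
  · subst hκ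
    have hi2 : i ≤ N := hi
    have a1 := place (c_htcup e) i N (by omega)
    rw [sh_append, sh_append, ← para_sh] at a1
    have e1 : para (sh i [(Kind.cup, 0)]) = par2 (.cup, i) := by
      simp [para, sh]
    rw [e1] at a1
    simp only [sh_cons, sh_nil, Nat.zero_add] at a1
    unfold ht
    rw [show 2 * (i + 1) = 2 + 2 * i by omega]
    exact a1

end Pool.Agent.WD
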