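import Pool.Agent.WD.StT

/-!
# A half twist can be moved along an arc below it (module LAB of WD, MP_31fd3b_gt)
-/

set_option autoImplicit false

namespace Pool.Agent.WD

open Pool.Agent.LibH11 Pool.Agent.LibH11.Sliced Pool.Agent.IT Pool.Agent.TwoBr

namespace LAB

theorem cnt_ht {N i : ℕ} (e : Bool) (h : i < N) : cnt (2 * N) (ht e i) = some (2 * N) :=
  cnt_crs (by omega)

theorem down {u : Diag} {p : Kind × ℕ} {e : Bool} {n0 i i0 : ℕ}
    (hc : cnt 2 (para u) = some (2 * n0))
    (h : EqD (2 * n0) (ht e i0 ++ par2 p) (par2 p ++ ht e i)) :
    EqD 2 (para (u ++ [p]) ++ ht e i) (para u ++ (ht e i0 ++ par2 p)) := by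
  have h1 : para (u ++ [p]) ++ ht e i = para u ++ (par2 p ++ ht e i) := by
    rw [para_append, para_cons, para_nil, List.append_nil, List.append_assoc]
  rw [h1]
  exact (h.left (para u) hc).symm

theorem up {u : Diag} {κ : Kind} {k : ℕ} {e : Bool} {n0 i0 j0 : ℕ}
    (hc : cnt 2 (para u) = some (2 * n0)) (hk : k + κ.ins ≤ n0) (hi : i0 < n0)
    (h : EqD 2 (para u ++ ht e i0) (para u ++ ht e j0)) :
    EqD 2 (para u ++ (ht e i0 ++ par2 (κ, k))) (para u ++ (ht e j0 ++ par2 (κ, k))) := by
  rw [← List.append_assoc, ← List.append_assoc]
  refine h.right _ ?_
  rw [List.append_assoc, cnt_app hc, cnt_app (cnt_ht e hi), cnt_par2 hk]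
  simp

theorem labels {u : Diag} {n : ℕ} {lab : ℕ → ℕ} {c : ℕ} (h : run u start = some (n, lab, c)) :
    ∀ i < n, lab i < c := by
  have h1 := run_osim u start_sim
  rw [h] at h1
  exact h1.v1

end LAB

open LAB

theorem t_LAB (h1 : HTP_Stmt) : LAB_Stmt := by
  intro e u
  induction u using List.reverseRecOn with
  | nil =>
    intro n lab c hr i j hi hj _
    simp only [run, start, Option.some.injEq, Prod.mk.injEq] at hr
    obtain ⟨rfl, -, -⟩ := hr
    have e1 : i = j := by omega
    rw [e1]
    exact EqD.refl _
  | append_singleton u p ih =>
    obtain ⟨κ, k⟩ := p
    intro n lab c hr i j hi hj hij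
    rw [run_append] at hr
    cases hu : run u start with
    | none => rw [hu] at hr; simp at hr
    | some s =>
      obtain ⟨n0, lab0, c0⟩ := s
      rw [hu] at hr
      simp only [Option.bind_some, run] at hr
      have hv := labels hu
      have hcu : cnt 1 u = some n0 := by
        have := run_cnt _ _ _ hu
        simpa only [start] using this
      have hc : cnt 2 (para u) = some (2 * n0) := cnt_para u 1 n0 hcu
      have ih' := ih n0 lab0 c0 hu
      cases κ with
      | cup =>
        simp only [step] at hr
        split_ifs at hr with hk
        · simp only [Option.bind_some, Option.some.injEq, Prod.mk.injEq] at hr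
          obtain ⟨rfl, rfl, rfl⟩ := hr
          beta_reduce at hij
          have H := h1 e n0 Kind.cup k (by simpa [Kind.ins] using hk)
          -- the old place of a position which is not new
          have old : ∀ x < n0 + 2, (x < k ∨ k + 2 ≤ x) → ∃ x0 < n0,
              (if x < k then lab0 x else if x < k + 2 then c0 else lab0 (x - 2)) = lab0 x0 ∧
              EqD 2 (para (u ++ [(Kind.cup, k)]) ++ ht e x)
                (para u ++ (ht e x0 ++ par2 (Kind.cup, k))) := by
            intro x hx hx2
            rcases hx2 with hx2 | hx2
            · refine ⟨x, by omega, by rw [if_pos hx2], down hc (H.1 x hx2)⟩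
            · refine ⟨x - 2, by omega, by rw [if_neg (by omega), if_neg (by omega)], down hc ?_⟩
              have h2 := H.2.1 (x - 2) (by omega) (by simp only [Kind.ins]; omega)
              have e2 : x - 2 - Kind.cup.ins + Kind.cup.outs = x := by
                simp only [Kind.ins, Kind.outs]; omega
              rw [e2] at h2
              exact h2
          have new : EqD 2 (para (u ++ [(Kind.cup, k)]) ++ ht e k)
              (para (u ++ [(Kind.cup, k)]) ++ ht e (k + 1)) := by
            have h2 := (H.2.2.2.2 rfl).left (para u) hc
            rw [para_append, para_cons, para_nil, List.append_nil, List.append_assoc,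
              List.append_assoc]
            exact h2
          by_cases hi2 : i < k ∨ k + 2 ≤ i
          · obtain ⟨i0, hi0, ei, Ei⟩ := old i hi hi2
            by_cases hj2 : j < k ∨ k + 2 ≤ j
            · obtain ⟨j0, hj0, ej, Ej⟩ := old j hj hj2
              have e3 : lab0 i0 = lab0 j0 := by
                rw [← ei, ← ej]
                exact hij
              exact Ei.trans ((up hc (by simpa [Kind.ins] using hk) hi0
                (ih' i0 j0 hi0 hj0 e3)).trans Ej.symm)
            · exfalso
              have e3 : lab0 i0 = c0 := by
                rw [← ei]
                rw [if_neg (by omega : ¬ j < k), if_pos (by omega : j < k + 2)] at hij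
                exact hij
              have := hv i0 hi0
              omega
          · by_cases hj2 : j < k ∨ k + 2 ≤ j
            · exfalso
              obtain ⟨j0, hj0, ej, Ej⟩ := old j hj hj2
              have e3 : lab0 j0 = c0 := by
                rw [← ej]
                rw [if_neg (by omega : ¬ i < k), if_pos (by omega : i < k + 2)] at hij
                exact hij.symm
              have := hv j0 hj0
              omega
            · have hi3 : i = k ∨ i = k + 1 := by omega
              have hj3 : j = k ∨ j = k + 1 := by omega
              rcases hi3 with rfl | rfl <;> rcases hj3 with rfl | rfl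
              · exact EqD.refl _
              · exact new
              · exact new.symm
              · exact EqD.refl _
        · simp at hr
      | cap =>
        simp only [step] at hr
        split_ifs at hr with hk
        · simp only [Option.bind_some, Option.some.injEq, Prod.mk.injEq] at hr
          obtain ⟨rfl, rfl, rfl⟩ := hr
          obtain ⟨hk, hne⟩ := hk
          have hk' : k + Kind.cap.ins ≤ n0 := by simpa [Kind.ins] using hk
          have H := h1 e n0 Kind.cap k hk'
          have old : ∀ x < n0 - 2, EqD 2 (para (u ++ [(Kind.cap, k)]) ++ ht e x)
              (para u ++ (ht e (if x < k then x else x + 2) ++ par2 (Kind.cap, k))) := by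
            intro x hx
            by_cases hx2 : x < k
            · rw [if_pos hx2]
              exact down hc (H.1 x hx2)
            · rw [if_neg hx2]
              refine down hc ?_
              have h2 := H.2.1 (x + 2) (by omega) (by simp only [Kind.ins]; omega)
              have e2 : x + 2 - Kind.cap.ins + Kind.cap.outs = x := by
                simp only [Kind.ins, Kind.outs]; omega
              rw [e2] at h2
              exact h2
          have hlt : ∀ x < n0 - 2, (if x < k then x else x + 2) < n0 := by
            intro x hx
            split_ifs <;> omega
          have mid : EqD 2 (para u ++ (ht e k ++ par2 (Kind.cap, k)))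
              (para u ++ (ht e (k + 1) ++ par2 (Kind.cap, k))) :=
            (H.2.2.2.1 rfl).left (para u) hc
          have key : ∀ a b : ℕ, a < n0 → b < n0 →
              (if lab0 a = lab0 (k + 1) then lab0 k else lab0 a) =
                (if lab0 b = lab0 (k + 1) then lab0 k else lab0 b) →
              EqD 2 (para u ++ (ht e a ++ par2 (Kind.cap, k)))
                (para u ++ (ht e b ++ par2 (Kind.cap, k))) := by
            intro a b ha hb hab
            by_cases ha1 : lab0 a = lab0 (k + 1)
            · by_cases hb1 : lab0 b = lab0 (k + 1)
              · exact up hc hk' ha (ih' a b ha hb (ha1.trans hb1.symm))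
              · rw [if_pos ha1, if_neg hb1] at hab
                refine (up hc hk' ha (ih' a (k + 1) ha (by omega) ha1)).trans
                  (mid.symm.trans (up hc hk' (by omega) (ih' k b (by omega) hb hab)))
            · by_cases hb1 : lab0 b = lab0 (k + 1)
              · rw [if_neg ha1, if_pos hb1] at hab
                refine (up hc hk' ha (ih' a k ha (by omega) hab)).trans
                  (mid.trans (up hc hk' (by omega) (ih' (k + 1) b (by omega) hb hb1.symm)))
              · rw [if_neg ha1, if_neg hb1] at hab
                exact up hc hk' ha (ih' a b ha hb hab)
          exact (old i hi).trans ((key _ _ (hlt i hi) (hlt j hj) hij).trans (old j hj).symm)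
        · simp at hr
      | crs f =>
        simp only [step] at hr
        split_ifs at hr with hk
        · simp only [Option.bind_some, Option.some.injEq, Prod.mk.injEq] at hr
          obtain ⟨rfl, rfl, rfl⟩ := hr
          have hk' : k + (Kind.crs f).ins ≤ n0 := by simpa [Kind.ins] using hk
          have H := h1 e n0 (Kind.crs f) k hk'
          have old : ∀ x < n0, EqD 2 (para (u ++ [(Kind.crs f, k)]) ++ ht e x)
              (para u ++ (ht e (Equiv.swap k (k + 1) x) ++ par2 (Kind.crs f, k))) := by
            intro x hx
            by_cases hx1 : x = k
            · rw [hx1, Equiv.swap_apply_left]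
              exact down hc (H.2.2.1 f rfl).2
            · by_cases hx2 : x = k + 1
              · rw [hx2, Equiv.swap_apply_right]
                exact down hc (H.2.2.1 f rfl).1
              · rw [Equiv.swap_apply_of_ne_of_ne hx1 hx2]
                by_cases hx3 : x < k
                · exact down hc (H.1 x hx3)
                · refine down hc ?_
                  have h2 := H.2.1 x hx (by simp only [Kind.ins]; omega)
                  have e2 : x - (Kind.crs f).ins + (Kind.crs f).outs = x := by
                    simp only [Kind.ins, Kind.outs]; omega
                  rw [e2] at h2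
                  exact h2
          have hs : ∀ x < n0, Equiv.swap k (k + 1) x < n0 := by
            intro x hx
            simp only [Equiv.swap_apply_def]
            split_ifs <;> omega
          exact (old i hi).trans ((up hc hk' (hs i hi)
            (ih' _ _ (hs i hi) (hs j hj) hij)).trans (old j hj).symm)
        · simp at hr

end Pool.Agent.WD
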