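import Pool.Agent.WD.StT

/-!
# LKC: the closure of a knot braid is a diagram of a long knot
-/

set_option autoImplicit false

namespace Pool.Agent.WD

open Pool.Agent.LibH11 Pool.Agent.LibH11.Sliced Pool.Agent.IT Pool.Agent.TwoBr

namespace LKC

/-- the permutation of the natural numbers given by a word -/
def pw (w : Word) : Equiv.Perm ℕ := (w.map fun x => Equiv.swap x.1 (x.1 + 1)).prod

theorem pw_nil : pw [] = 1 := rfl

theorem pw_cons (x : ℕ × Bool) (w : Word) : pw (x :: w) = Equiv.swap x.1 (x.1 + 1) * pw w := by
  unfold pw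
  rw [List.map_cons, List.prod_cons]

/-- the permutation of the strands is given by `pw` -/
theorem perm_ev {N : ℕ} (w : Word) (hw : Bd N w) (x : Fin (N + 1)) :
    ((perm (ev N w) x : Fin (N + 1)) : ℕ) = pw w x := by
  induction w with
  | nil => simp [pw_nil]
  | cons y w ih =>
    have hw' : Bd N w := fun z hz => hw z (List.mem_cons_of_mem _ hz)
    have hy : y.1 < N := hw y List.mem_cons_self
    have key : ∀ z : Fin (N + 1), ((perm (gen N y) z : Fin (N + 1)) : ℕ) =
        Equiv.swap y.1 (y.1 + 1) (z : ℕ) := by
      intro z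
      have h1 : perm (gen N y) = Equiv.swap (⟨y.1, by omega⟩ : Fin (N + 1)) ⟨y.1 + 1, by omega⟩ := by
        rcases y with ⟨i, e⟩
        simp only at hy
        have h2 : perm (gen N (i, true)) =
            Equiv.swap (⟨i, by omega⟩ : Fin (N + 1)) ⟨i + 1, by omega⟩ := by
          rw [gen_true hy, IT.perm_sg]
          rfl
        cases e
        · rw [gen_false, map_inv, h2, Equiv.swap_inv]
        · exact h2
      rw [h1, Equiv.swap_apply_def, Equiv.swap_apply_def]
      simp only [Fin.ext_iff]
      split_ifs <;> rfl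
    rw [ev_cons, map_mul, Equiv.Perm.mul_apply, key, ih hw', pw_cons, Equiv.Perm.mul_apply]

theorem perm_ev_pow {N : ℕ} (w : Word) (hw : Bd N w) (x : Fin (N + 1)) (m : ℕ) :
    (((perm (ev N w) ^ m) x : Fin (N + 1)) : ℕ) = (pw w)^[m] x := by
  induction m with
  | zero => simp
  | succ m ih =>
    rw [pow_succ', Equiv.Perm.mul_apply, perm_ev w hw, ih, Function.iterate_succ_apply']

/-- letters below `N` do not move `j > N` -/
theorem pw_fix {N : ℕ} (w : Word) (hw : Bd N w) {j : ℕ} (hj : N < j) : pw w j = j := by
  induction w with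
  | nil => rfl
  | cons y w ih =>
    have hw' : Bd N w := fun z hz => hw z (List.mem_cons_of_mem _ hz)
    have hy : y.1 < N := hw y List.mem_cons_self
    rw [pw_cons, Equiv.Perm.mul_apply, ih hw']
    exact Equiv.swap_apply_of_ne_of_ne (by omega) (by omega)

/-- the labels after `n` minima -/
def Lb (n j : ℕ) : ℕ := if j ≤ n then j else 2 * n + 1 - j

theorem run_cups (n : ℕ) : run (cups n) start = some (2 * n + 1, Lb n, n + 1) := by
  induction n with
  | zero =>
    simp only [cups_zero, run, start]
    congr 1
    apply Prod.ext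
    · rfl
    · apply Prod.ext
      · funext j
        simp only [Lb]
        split_ifs <;> omega
      · rfl
  | succ n ih =>
    rw [cups_succ, run_append, ih]
    simp only [Option.bind_some, run, step]
    rw [if_pos (by omega)]
    simp only [Option.bind_some]
    congr 1
    apply Prod.ext
    · simp only
      omega
    · apply Prod.ext
      · funext j
        simp only [Lb]
        split_ifs <;> omega
      · rfl

theorem run_bw {n : ℕ} (w : Word) (hw : Bd n w) {M : ℕ} (hM : n + 1 ≤ M) (lab : ℕ → ℕ) (c : ℕ) :
    run (braidWord w) (M, lab, c) = some (M, fun j => lab (pw w j), c) := by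
  induction w generalizing lab with
  | nil => rfl
  | cons y w ih =>
    have hw' : Bd n w := fun z hz => hw z (List.mem_cons_of_mem _ hz)
    have hy : y.1 < n := hw y List.mem_cons_self
    rw [braidWord_cons]
    simp only [run, step]
    rw [if_pos (by omega)]
    simp only [Option.bind_some]
    rw [ih hw']
    simp only [pw_cons, Equiv.Perm.mul_apply]

/-- the hypotheses on `τ` -/
structure Cyc (k : ℕ) (τ : ℕ → ℕ) : Prop where
  map : ∀ j ≤ k, τ j ≤ k
  inj : ∀ i ≤ k, ∀ j ≤ k, τ i = τ j → i = j
  orb : ∀ x ≤ k, ∃ m : ℕ, τ^[m] 0 = x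

theorem Cyc.iter {k : ℕ} {τ : ℕ → ℕ} (h : Cyc k τ) (m : ℕ) : τ^[m] 0 ≤ k := by
  induction m with
  | zero => simp
  | succ m ih =>
    rw [Function.iterate_succ_apply']
    exact h.map _ ih

theorem Cyc.ne {k : ℕ} {τ : ℕ → ℕ} (h : Cyc (k + 1) τ) : τ (k + 1) ≠ k + 1 := by
  classical
  intro he
  have hex := h.orb (k + 1) le_rfl
  have h1 := Nat.find_spec hex
  have h2 : Nat.find hex ≠ 0 := by
    intro h0
    rw [h0] at h1
    simp at h1
  obtain ⟨m, hm⟩ := Nat.exists_eq_succ_of_ne_zero h2
  rw [hm, Nat.succ_eq_add_one, Function.iterate_succ_apply'] at h1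
  have h3 : τ^[m] 0 = k + 1 := h.inj _ (h.iter m) _ le_rfl (by rw [h1, he])
  exact Nat.find_min hex (by omega) h3

/-- the next permutation -/
def nx (k : ℕ) (τ : ℕ → ℕ) (j : ℕ) : ℕ := if τ j = k + 1 then τ (k + 1) else τ j

theorem Cyc.next {k : ℕ} {τ : ℕ → ℕ} (h : Cyc (k + 1) τ) : Cyc k (nx k τ) := by
  have hne := h.ne
  have hle : τ (k + 1) ≤ k := by
    have := h.map (k + 1) le_rfl
    omega
  refine ⟨?_, ?_, ?_⟩
  · intro j hj
    unfold nx
    split_ifs with h1
    · exact hle
    · have := h.map j (by omega)
      omega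
  · intro i hi j hj he
    unfold nx at he
    split_ifs at he with h1 h2 h2
    · exact h.inj i (by omega) j (by omega) (by rw [h1, h2])
    · have := h.inj (k + 1) le_rfl j (by omega) he
      omega
    · have := h.inj i (by omega) (k + 1) le_rfl he
      omega
    · exact h.inj i (by omega) j (by omega) he
  · have key : ∀ m : ℕ, τ^[m] 0 ≤ k → ∃ m' : ℕ, (nx k τ)^[m'] 0 = τ^[m] 0 := by
      intro m
      induction m using Nat.strong_induction_on with
      | _ m ih =>
        intro hm
        match m, ih, hm with
        | 0, _, _ => exact ⟨0, rfl⟩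
        | m + 1, ih, hm =>
          by_cases hy : τ^[m] 0 ≤ k
          · obtain ⟨m', hm'⟩ := ih m (by omega) hy
            refine ⟨m' + 1, ?_⟩
            rw [Function.iterate_succ_apply', Function.iterate_succ_apply', hm']
            rw [Function.iterate_succ_apply'] at hm
            unfold nx
            rw [if_neg (by omega)]
          · have hy' : τ^[m] 0 = k + 1 := by
              have := h.iter m
              omega
            match m, ih, hm, hy, hy' with
            | 0, _, _, _, hy' => simp at hy'
            | m + 1, ih, hm, hy, hy' =>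
              rw [Function.iterate_succ_apply'] at hy'
              have hz : τ^[m] 0 ≤ k := by
                have h1 := h.iter m
                by_contra h2
                have h3 : τ^[m] 0 = k + 1 := by omega
                rw [h3] at hy'
                exact hne hy'
              obtain ⟨m', hm'⟩ := ih m (by omega) hz
              refine ⟨m' + 1, ?_⟩
              rw [Function.iterate_succ_apply', hm', Function.iterate_succ_apply',
                Function.iterate_succ_apply', hy']
              unfold nx
              rw [if_pos hy']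
    intro x hx
    obtain ⟨m, hm⟩ := h.orb x (by omega)
    obtain ⟨m', hm'⟩ := key m (by omega)
    exact ⟨m', by rw [hm', hm]⟩

theorem run_caps (k : ℕ) : ∀ (τ lab : ℕ → ℕ) (c : ℕ), Cyc k τ → (∀ j ≤ k, lab j = τ j) →
    (∀ j, 1 ≤ j → j ≤ k → lab (2 * k + 1 - j) = j) →
    ∃ lab' : ℕ → ℕ, run (caps k) (2 * k + 1, lab, c) = some (1, lab', c) := by
  induction k with
  | zero =>
    intro τ lab c _ _ _
    exact ⟨lab, rfl⟩
  | succ k ih =>
    intro τ lab c h h1 h2
    have e1 : lab (k + 1) = τ (k + 1) := h1 _ le_rfl
    have e2 : lab (k + 1 + 1) = k + 1 := by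
      have := h2 (k + 1) (by omega) le_rfl
      rwa [show 2 * (k + 1) + 1 - (k + 1) = k + 1 + 1 by omega] at this
    obtain ⟨lab', hl⟩ := ih (nx k τ) (fun j =>
          if lab (if j < k + 1 then j else j + 2) = lab (k + 1 + 1) then lab (k + 1)
          else lab (if j < k + 1 then j else j + 2)) c h.next (by
        intro j hj
        rw [if_pos (show j < k + 1 by omega), e1, e2, h1 j (by omega)]
        rfl) (by
        intro j hj1 hj2
        rw [if_neg (show ¬ 2 * k + 1 - j < k + 1 by omega)]
        have := h2 j hj1 (by omega)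
        rw [show 2 * k + 1 - j + 2 = 2 * (k + 1) + 1 - j by omega, this, e2,
          if_neg (by omega)])
    refine ⟨lab', ?_⟩
    rw [caps_succ]
    simp only [run, step]
    rw [if_pos ⟨by omega, by rw [e1, e2]; exact h.ne⟩]
    simp only [Option.bind_some]
    rw [show 2 * (k + 1) + 1 - 2 = 2 * k + 1 by omega]
    exact hl

end LKC

open LKC in
theorem t_LKC : LKC_Stmt := by
  intro n w hw hk
  rw [isLongKnot_iff]
  have hm : ∀ j ≤ n, pw w j ≤ n := by
    intro j hj
    have := perm_ev w hw (⟨j, by omega⟩ : Fin (n + 1))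
    simp only at this
    rw [← this]
    omega
  have hc : Cyc n (pw w) := by
    refine ⟨hm, fun i _ j _ he => (pw w).injective he, ?_⟩
    intro x hx
    obtain ⟨m, hm'⟩ := (hk 0 (⟨x, by omega⟩ : Fin (n + 1))).exists_nat_pow_eq
    refine ⟨m, ?_⟩
    have h1 := perm_ev_pow w hw (0 : Fin (n + 1)) m
    rw [hm'] at h1
    simp only [Fin.val_zero] at h1
    exact h1.symm
  obtain ⟨lab', hl⟩ := run_caps n (pw w) (fun j => Lb n (pw w j)) (n + 1) hc (by
      intro j hj
      simp only [Lb]
      rw [if_pos (hm j hj)]) (by
      intro j hj1 hj2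
      rw [pw_fix w hw (show n < 2 * n + 1 - j by omega)]
      unfold Lb
      rw [if_neg (by omega)]
      omega)
  refine ⟨lab', n + 1, ?_⟩
  unfold cl
  rw [List.append_assoc, run_append, run_cups, Option.bind_some, run_append,
    run_bw w hw (by omega), Option.bind_some, hl]

end Pool.Agent.WD
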