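import Pool.Agent.WD.StT

/-!
# Project WD, module LKD: the double of a long knot diagram is a long knot diagram
-/

set_option autoImplicit false

namespace Pool.Agent.WD

open Pool.Agent.LibH11 Pool.Agent.LibH11.Sliced Pool.Agent.IT Pool.Agent.TwoBr

namespace LKD

/-- The relation between the labels of the diagram and of its parallel (`l`, `r`: left and right
copies, `z`: the strand on the right). -/
structure Inv (N : ℕ) (lab l r : ℕ → ℕ) (z : ℕ) : Prop where
  A0 : ∀ i < N, ∀ j < N, l i = l j → i = j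
  A1 : ∀ i < N, ∀ j < N, r i = r j → i = j
  B1 : ∀ i < N, ∀ j < N, l i = r j → lab i = lab j ∧ i ≠ j
  B2 : ∀ i < N, ∀ j < N, lab i = lab j → i ≠ j → l i = r j
  C : ∀ i < N, l i ≠ z
  D : ∀ i < N, r i ≠ z → ∃ j < N, j ≠ i ∧ lab j = lab i

/-- the place of the strand `p` if two places `i`, `i + 1` are left out -/
def dl (i p : ℕ) : ℕ := if p < i then p else p + 2

theorem dl_inj {i p q : ℕ} (h : dl i p = dl i q) : p = q := by
  unfold dl at h
  split_ifs at h <;> omega

theorem dl_ne (i p : ℕ) : dl i p ≠ i := by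
  unfold dl
  split_ifs <;> omega

theorem dl_ne' (i p : ℕ) : dl i p ≠ i + 1 := by
  unfold dl
  split_ifs <;> omega

theorem dl_lt {i p M : ℕ} (hp : p < M) : dl i p < M + 2 := by
  unfold dl
  split_ifs <;> omega

theorem dl_surj {i M j : ℕ} (hi : i ≤ M) (hj : j < M + 2) (h1 : j ≠ i) (h2 : j ≠ i + 1) :
    ∃ p < M, j = dl i p := by
  by_cases h : j < i
  · exact ⟨j, by omega, by unfold dl; rw [if_pos h]⟩
  · exact ⟨j - 2, by omega, by unfold dl; rw [if_neg (by omega)]; omega⟩

theorem inv_crs {N i z : ℕ} {lab l r lab2 l2 r2 : ℕ → ℕ} (h : Inv N lab l r z) (hi : i + 2 ≤ N)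
    (e0 : ∀ j < N, lab2 j = lab (Equiv.swap i (i + 1) j))
    (e1 : ∀ j < N, l2 j = l (Equiv.swap i (i + 1) j))
    (e2 : ∀ j < N, r2 j = r (Equiv.swap i (i + 1) j)) : Inv N lab2 l2 r2 z := by
  have hs : ∀ j, j < N → Equiv.swap i (i + 1) j < N := by
    intro j hj
    simp only [Equiv.swap_apply_def]
    split_ifs <;> omega
  refine ⟨?_, ?_, ?_, ?_, ?_, ?_⟩
  · intro a ha b hb e
    rw [e1 a ha, e1 b hb] at e
    exact (Equiv.swap i (i + 1)).injective (h.A0 _ (hs a ha) _ (hs b hb) e)
  · intro a ha b hb e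
    rw [e2 a ha, e2 b hb] at e
    exact (Equiv.swap i (i + 1)).injective (h.A1 _ (hs a ha) _ (hs b hb) e)
  · intro a ha b hb e
    rw [e1 a ha, e2 b hb] at e
    obtain ⟨h1, h2⟩ := h.B1 _ (hs a ha) _ (hs b hb) e
    rw [e0 a ha, e0 b hb]
    exact ⟨h1, fun e' => h2 (by rw [e'])⟩
  · intro a ha b hb e hne
    rw [e0 a ha, e0 b hb] at e
    rw [e1 a ha, e2 b hb]
    exact h.B2 _ (hs a ha) _ (hs b hb) e (fun e' => hne ((Equiv.swap i (i + 1)).injective e'))
  · intro a ha
    rw [e1 a ha]
    exact h.C _ (hs a ha)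
  · intro a ha hne
    rw [e2 a ha] at hne
    obtain ⟨j, hj, h1, h2⟩ := h.D _ (hs a ha) hne
    refine ⟨Equiv.swap i (i + 1) j, hs j hj, ?_, ?_⟩
    · intro e'
      apply h1
      rw [← e', Equiv.swap_apply_self]
    · rw [e0 _ (hs j hj), e0 a ha, Equiv.swap_apply_self, h2]

theorem inv_cup {N i c c' z z2 : ℕ} {lab l r lab2 l2 r2 : ℕ → ℕ} (h : Inv N lab l r z)
    (hi : i ≤ N)
    (hc : ∀ j < N, lab j < c) (hl : ∀ j < N, l j < c') (hr : ∀ j < N, r j < c') (hz : z < c')
    (e0 : ∀ p < N, lab2 (dl i p) = lab p) (e1 : ∀ p < N, l2 (dl i p) = l p)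
    (e2 : ∀ p < N, r2 (dl i p) = r p)
    (f0 : lab2 i = c) (f0' : lab2 (i + 1) = c) (f1 : l2 i = c') (f1' : l2 (i + 1) = c' + 1)
    (f2 : r2 i = c' + 1) (f2' : r2 (i + 1) = c') (e3 : z2 = z) :
    Inv (N + 2) lab2 l2 r2 z2 := by
  subst e3
  have hcase : ∀ j < N + 2, j = i ∨ j = i + 1 ∨ ∃ p < N, j = dl i p := by
    intro j hj
    by_cases h1 : j = i
    · exact Or.inl h1
    · by_cases h2 : j = i + 1
      · exact Or.inr (Or.inl h2)
      · exact Or.inr (Or.inr (dl_surj hi hj h1 h2))
  refine ⟨?_, ?_, ?_, ?_, ?_, ?_⟩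
  · intro a ha b hb e
    rcases hcase a ha with rfl | rfl | ⟨p, hp, rfl⟩ <;>
      rcases hcase b hb with e' | rfl | ⟨q, hq, rfl⟩
    · exact e'.symm
    · omega
    · have := hl q hq
      rw [f1, e1 q hq] at e
      omega
    · subst e'
      omega
    · rfl
    · have := hl q hq
      rw [f1', e1 q hq] at e
      omega
    · subst e'
      have := hl p hp
      rw [f1, e1 p hp] at e
      omega
    · have := hl p hp
      rw [f1', e1 p hp] at e
      omega
    · rw [e1 p hp, e1 q hq] at e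
      rw [h.A0 p hp q hq e]
  · intro a ha b hb e
    rcases hcase a ha with rfl | rfl | ⟨p, hp, rfl⟩ <;>
      rcases hcase b hb with e' | rfl | ⟨q, hq, rfl⟩
    · exact e'.symm
    · omega
    · have := hr q hq
      rw [f2, e2 q hq] at e
      omega
    · subst e'
      omega
    · rfl
    · have := hr q hq
      rw [f2', e2 q hq] at e
      omega
    · subst e'
      have := hr p hp
      rw [f2, e2 p hp] at e
      omega
    · have := hr p hp
      rw [f2', e2 p hp] at e
      omega
    · rw [e2 p hp, e2 q hq] at e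
      rw [h.A1 p hp q hq e]
  · intro a ha b hb e
    rcases hcase a ha with rfl | rfl | ⟨p, hp, rfl⟩ <;>
      rcases hcase b hb with e' | rfl | ⟨q, hq, rfl⟩
    · subst e'
      omega
    · exact ⟨by omega, by omega⟩
    · have := hr q hq
      rw [f1, e2 q hq] at e
      omega
    · subst e'
      exact ⟨by omega, by omega⟩
    · omega
    · have := hr q hq
      rw [f1', e2 q hq] at e
      omega
    · subst e'
      have := hl p hp
      rw [f2, e1 p hp] at e
      omega
    · have := hl p hp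
      rw [f2', e1 p hp] at e
      omega
    · rw [e1 p hp, e2 q hq] at e
      obtain ⟨h1, h2⟩ := h.B1 p hp q hq e
      rw [e0 p hp, e0 q hq]
      exact ⟨h1, fun e' => h2 (dl_inj e')⟩
  · intro a ha b hb e hne
    rcases hcase a ha with rfl | rfl | ⟨p, hp, rfl⟩ <;>
      rcases hcase b hb with e' | rfl | ⟨q, hq, rfl⟩
    · exact absurd e'.symm hne
    · omega
    · have := hc q hq
      rw [f0, e0 q hq] at e
      omega
    · subst e'
      omega
    · exact absurd rfl hne
    · have := hc q hq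
      rw [f0', e0 q hq] at e
      omega
    · subst e'
      have := hc p hp
      rw [f0, e0 p hp] at e
      omega
    · have := hc p hp
      rw [f0', e0 p hp] at e
      omega
    · rw [e0 p hp, e0 q hq] at e
      rw [e1 p hp, e2 q hq]
      exact h.B2 p hp q hq e (fun e' => hne (by rw [e']))
  · intro a ha
    rcases hcase a ha with rfl | rfl | ⟨p, hp, rfl⟩
    · omega
    · omega
    · rw [e1 p hp]
      exact h.C p hp
  · intro a ha hne
    rcases hcase a ha with rfl | rfl | ⟨p, hp, rfl⟩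
    · exact ⟨a + 1, by omega, by omega, by omega⟩
    · exact ⟨i, by omega, by omega, by omega⟩
    · rw [e2 p hp] at hne
      obtain ⟨q, hq, h1, h2⟩ := h.D p hp hne
      exact ⟨dl i q, dl_lt hq, fun e' => h1 (dl_inj e'), by rw [e0 q hq, e0 p hp, h2]⟩

theorem inv_cap {M i z z2 : ℕ} {lab l r lab2 l2 r2 : ℕ → ℕ} (h : Inv (M + 2) lab l r z)
    (hi : i ≤ M) (hne : lab i ≠ lab (i + 1))
    (e0 : ∀ p < M, lab2 p = if lab (dl i p) = lab (i + 1) then lab i else lab (dl i p))
    (e1 : ∀ p < M, l2 p = if l (dl i p) = r (i + 1) then l i else l (dl i p))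
    (e2 : ∀ p < M, r2 p = if r (dl i p) = l (i + 1) then r i else r (dl i p))
    (e3 : z2 = if z = r (i + 1) then l i else z) : Inv M lab2 l2 r2 z2 := by
  have hi1 : i < M + 2 := by omega
  have hi2 : i + 1 < M + 2 := by omega
  -- the labels of the partners
  have k1 : ∀ p < M, (l (dl i p) = r (i + 1) ↔ lab (dl i p) = lab (i + 1)) := fun p hp =>
    ⟨fun e => (h.B1 _ (dl_lt hp) _ hi2 e).1, fun e => h.B2 _ (dl_lt hp) _ hi2 e (dl_ne' i p)⟩
  have k2 : ∀ p < M, (r (dl i p) = l (i + 1) ↔ lab (dl i p) = lab (i + 1)) := fun p hp =>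
    ⟨fun e => (h.B1 _ hi2 _ (dl_lt hp) e.symm).1.symm,
      fun e => (h.B2 _ hi2 _ (dl_lt hp) e.symm (dl_ne' i p).symm).symm⟩
  have e1' : ∀ p < M, l2 p = if lab (dl i p) = lab (i + 1) then l i else l (dl i p) := by
    intro p hp
    rw [e1 p hp]
    by_cases hh : lab (dl i p) = lab (i + 1)
    · rw [if_pos hh, if_pos ((k1 p hp).2 hh)]
    · rw [if_neg hh, if_neg (fun e => hh ((k1 p hp).1 e))]
  have e2' : ∀ p < M, r2 p = if lab (dl i p) = lab (i + 1) then r i else r (dl i p) := by
    intro p hp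
    rw [e2 p hp]
    by_cases hh : lab (dl i p) = lab (i + 1)
    · rw [if_pos hh, if_pos ((k2 p hp).2 hh)]
    · rw [if_neg hh, if_neg (fun e => hh ((k2 p hp).1 e))]
  -- at most one partner of `i + 1`
  have k3 : ∀ p < M, ∀ q < M, lab (dl i p) = lab (i + 1) → lab (dl i q) = lab (i + 1) → p = q := by
    intro p hp q hq h1 h2
    have h3 := h.B2 _ (dl_lt hp) _ hi2 h1 (dl_ne' i p)
    have h4 := h.B2 _ (dl_lt hq) _ hi2 h2 (dl_ne' i q)
    exact dl_inj (h.A0 _ (dl_lt hp) _ (dl_lt hq) (h3.trans h4.symm))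
  refine ⟨?_, ?_, ?_, ?_, ?_, ?_⟩
  · intro p hp q hq e
    rw [e1' p hp, e1' q hq] at e
    by_cases h1 : lab (dl i p) = lab (i + 1) <;> by_cases h2 : lab (dl i q) = lab (i + 1)
    · exact k3 p hp q hq h1 h2
    · rw [if_pos h1, if_neg h2] at e
      exact absurd (h.A0 _ hi1 _ (dl_lt hq) e).symm (dl_ne i q)
    · rw [if_neg h1, if_pos h2] at e
      exact absurd (h.A0 _ (dl_lt hp) _ hi1 e) (dl_ne i p)
    · rw [if_neg h1, if_neg h2] at e
      exact dl_inj (h.A0 _ (dl_lt hp) _ (dl_lt hq) e)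
  · intro p hp q hq e
    rw [e2' p hp, e2' q hq] at e
    by_cases h1 : lab (dl i p) = lab (i + 1) <;> by_cases h2 : lab (dl i q) = lab (i + 1)
    · exact k3 p hp q hq h1 h2
    · rw [if_pos h1, if_neg h2] at e
      exact absurd (h.A1 _ hi1 _ (dl_lt hq) e).symm (dl_ne i q)
    · rw [if_neg h1, if_pos h2] at e
      exact absurd (h.A1 _ (dl_lt hp) _ hi1 e) (dl_ne i p)
    · rw [if_neg h1, if_neg h2] at e
      exact dl_inj (h.A1 _ (dl_lt hp) _ (dl_lt hq) e)
  · intro p hp q hq e
    rw [e1' p hp, e2' q hq] at e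
    rw [e0 p hp, e0 q hq]
    by_cases h1 : lab (dl i p) = lab (i + 1) <;> by_cases h2 : lab (dl i q) = lab (i + 1)
    · rw [if_pos h1, if_pos h2] at e
      exact absurd rfl (h.B1 _ hi1 _ hi1 e).2
    · rw [if_pos h1, if_neg h2] at e
      obtain ⟨h3, h4⟩ := h.B1 _ hi1 _ (dl_lt hq) e
      rw [if_pos h1, if_neg h2]
      exact ⟨h3, fun e' => h2 (e' ▸ h1)⟩
    · rw [if_neg h1, if_pos h2] at e
      obtain ⟨h3, h4⟩ := h.B1 _ (dl_lt hp) _ hi1 e
      rw [if_neg h1, if_pos h2]
      exact ⟨h3, fun e' => h1 (e' ▸ h2)⟩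
    · rw [if_neg h1, if_neg h2] at e
      obtain ⟨h3, h4⟩ := h.B1 _ (dl_lt hp) _ (dl_lt hq) e
      rw [if_neg h1, if_neg h2]
      exact ⟨h3, fun e' => h4 (by rw [e'])⟩
  · intro p hp q hq e hpq
    rw [e0 p hp, e0 q hq] at e
    rw [e1' p hp, e2' q hq]
    by_cases h1 : lab (dl i p) = lab (i + 1) <;> by_cases h2 : lab (dl i q) = lab (i + 1)
    · exact absurd (k3 p hp q hq h1 h2) hpq
    · rw [if_pos h1, if_neg h2] at e ⊢
      exact h.B2 _ hi1 _ (dl_lt hq) e (dl_ne i q).symm
    · rw [if_neg h1, if_pos h2] at e ⊢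
      exact h.B2 _ (dl_lt hp) _ hi1 e (dl_ne i p)
    · rw [if_neg h1, if_neg h2] at e ⊢
      exact h.B2 _ (dl_lt hp) _ (dl_lt hq) e (fun e' => hpq (dl_inj e'))
  · intro p hp e
    rw [e1 p hp, e3] at e
    by_cases h1 : l (dl i p) = r (i + 1) <;> by_cases h2 : z = r (i + 1)
    · exact h.C _ (dl_lt hp) (h1.trans h2.symm)
    · rw [if_pos h1, if_neg h2] at e
      exact h.C _ hi1 e
    · rw [if_neg h1, if_pos h2] at e
      exact dl_ne i p (h.A0 _ (dl_lt hp) _ hi1 e)
    · rw [if_neg h1, if_neg h2] at e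
      exact h.C _ (dl_lt hp) e
  · intro p hp e
    rw [e2' p hp, e3] at e
    by_cases h1 : lab (dl i p) = lab (i + 1)
    · rw [if_pos h1] at e
      have h2 : z ≠ r (i + 1) := by
        intro e'
        exact h.C _ (dl_lt hp) (((k1 p hp).2 h1).trans e'.symm)
      rw [if_neg h2] at e
      obtain ⟨j, hj, h3, h4⟩ := h.D _ hi1 e
      have h5 : j ≠ i + 1 := fun e' => hne (by rw [← h4, e'])
      obtain ⟨q, hq, rfl⟩ := dl_surj hi hj h3 h5
      refine ⟨q, hq, ?_, ?_⟩
      · intro e'
        rw [e'] at h4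
        exact hne (h4.symm.trans h1)
      · rw [e0 q hq, e0 p hp, if_pos h1, if_neg (fun e' => hne (h4.symm.trans e')), h4]
    · rw [if_neg h1] at e
      by_cases h2 : z = r (i + 1)
      · rw [if_pos h2] at e
        have h3 : lab (dl i p) ≠ lab i := by
          intro e'
          exact e (h.B2 _ hi1 _ (dl_lt hp) e'.symm (dl_ne i p).symm).symm
        have h4 : r (dl i p) ≠ z := by
          intro e'
          exact dl_ne' i p (h.A1 _ (dl_lt hp) _ hi2 (e'.trans h2))
        obtain ⟨j, hj, h5, h6⟩ := h.D _ (dl_lt hp) h4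
        have h7 : j ≠ i := fun e' => h3 (by rw [← h6, e'])
        have h8 : j ≠ i + 1 := fun e' => h1 (by rw [← h6, e'])
        obtain ⟨q, hq, rfl⟩ := dl_surj hi hj h7 h8
        refine ⟨q, hq, fun e' => h5 (by rw [e']), ?_⟩
        rw [e0 q hq, e0 p hp, h6]
      · rw [if_neg h2] at e
        obtain ⟨j, hj, h5, h6⟩ := h.D _ (dl_lt hp) e
        have h8 : j ≠ i + 1 := fun e' => h1 (by rw [← h6, e'])
        by_cases h7 : j = i
        · subst h7
          obtain ⟨k, hk, h9, h10⟩ := h.D _ hi2 (fun e' => h2 e'.symm)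
          have h11 : k ≠ j := fun e' => hne (by rw [← h10, e'])
          obtain ⟨q, hq, rfl⟩ := dl_surj hi hk h11 h9
          refine ⟨q, hq, ?_, ?_⟩
          · intro e'
            rw [e'] at h10
            exact h1 h10
          · rw [e0 q hq, e0 p hp, if_pos h10, if_neg h1, h6]
        · obtain ⟨q, hq, rfl⟩ := dl_surj hi hj h7 h8
          refine ⟨q, hq, fun e' => h5 (by rw [e']), ?_⟩
          rw [e0 q hq, e0 p hp, h6]

/-- The relation between the states. -/
def Rel (s t : State) : Prop :=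
  t.1 = 2 * s.1 + 1 ∧
  Inv s.1 s.2.1 (fun j => t.2.1 (2 * j)) (fun j => t.2.1 (2 * j + 1)) (t.2.1 (2 * s.1)) ∧
  (∀ j < s.1, s.2.1 j < s.2.2) ∧ (∀ j < t.1, t.2.1 j < t.2.2)

theorem step_cup {N i c c' : ℕ} {lab lab' : ℕ → ℕ} (h : Rel (N, lab, c) (2 * N + 1, lab', c'))
    (h1 : i ≤ N) :
    ∃ t', run (par2 (.cup, i)) (2 * N + 1, lab', c') = some t' ∧
      Rel (N + 2, fun j => if j < i then lab j else if j < i + 2 then c else lab (j - 2), c + 1)
        t' := by
  obtain ⟨-, hI, hc, hc'⟩ := h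
  dsimp only at hI hc hc'
  simp only [par2, run, step]
  rw [if_pos (by omega)]
  simp only [Option.bind_some]
  rw [if_pos (by omega)]
  refine ⟨_, rfl, ?_, ?_, ?_, ?_⟩
  · dsimp only
    omega
  · dsimp only
    refine inv_cup hI h1 hc (fun j hj => hc' _ (by omega)) (fun j hj => hc' _ (by omega))
      (hc' _ (by omega)) ?_ ?_ ?_ ?_ ?_ ?_ ?_ ?_ ?_ ?_
    · intro p hp
      grind [dl]
    · intro p hp
      grind [dl]
    · intro p hp
      grind [dl]
    · grind
    · grind
    · grind
    · grind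
    · grind
    · grind
    · grind
  · dsimp only
    intro j hj
    have := hc j
    have := hc (j - 2)
    grind
  · dsimp only
    intro j hj
    have := hc' j
    have := hc' (j - 2)
    have := hc' (j - 2 - 2)
    grind

/-- the permutation of the four crossings -/
theorem perm4 (i x : ℕ) :
    Equiv.swap (2 * i + 1) (2 * i + 1 + 1) (Equiv.swap (2 * i) (2 * i + 1)
      (Equiv.swap (2 * i + 2) (2 * i + 2 + 1) (Equiv.swap (2 * i + 1) (2 * i + 1 + 1) x))) =
    if x = 2 * i then 2 * i + 2 else if x = 2 * i + 1 then 2 * i + 3 else if x = 2 * i + 2 then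
      2 * i else if x = 2 * i + 3 then 2 * i + 1 else x := by
  simp only [Equiv.swap_apply_def]
  split_ifs <;> omega

theorem perm4_two (i j : ℕ) : (if 2 * j = 2 * i then 2 * i + 2 else if 2 * j = 2 * i + 1 then
    2 * i + 3 else if 2 * j = 2 * i + 2 then 2 * i else if 2 * j = 2 * i + 3 then 2 * i + 1
    else 2 * j) = 2 * Equiv.swap i (i + 1) j := by
  simp only [Equiv.swap_apply_def]
  split_ifs <;> omega

theorem perm4_two' (i j : ℕ) : (if 2 * j + 1 = 2 * i then 2 * i + 2 else if 2 * j + 1 = 2 * i + 1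
    then 2 * i + 3 else if 2 * j + 1 = 2 * i + 2 then 2 * i else if 2 * j + 1 = 2 * i + 3 then
    2 * i + 1 else 2 * j + 1) = 2 * Equiv.swap i (i + 1) j + 1 := by
  simp only [Equiv.swap_apply_def]
  split_ifs <;> omega

theorem step_crs {N i c c' : ℕ} {lab lab' : ℕ → ℕ} (e : Bool)
    (h : Rel (N, lab, c) (2 * N + 1, lab', c')) (h1 : i + 2 ≤ N) :
    ∃ t', run (par2 (.crs e, i)) (2 * N + 1, lab', c') = some t' ∧
      Rel (N, fun j => lab (Equiv.swap i (i + 1) j), c) t' := by
  obtain ⟨-, hI, hc, hc'⟩ := h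
  dsimp only at hI hc hc'
  simp only [par2, run, step]
  rw [if_pos (by omega)]
  simp only [Option.bind_some]
  rw [if_pos (by omega)]
  simp only [Option.bind_some]
  rw [if_pos (by omega)]
  simp only [Option.bind_some]
  rw [if_pos (by omega)]
  refine ⟨_, rfl, ?_, ?_, ?_, ?_⟩
  · dsimp only
  · dsimp only
    have e4 : lab' (Equiv.swap (2 * i + 1) (2 * i + 1 + 1) (Equiv.swap (2 * i) (2 * i + 1)
        (Equiv.swap (2 * i + 2) (2 * i + 2 + 1) (Equiv.swap (2 * i + 1) (2 * i + 1 + 1)
        (2 * N))))) = lab' (2 * N) := by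
      rw [perm4, if_neg (by omega), if_neg (by omega), if_neg (by omega), if_neg (by omega)]
    rw [e4]
    refine inv_crs hI h1 (fun j _ => rfl) (fun j _ => ?_) (fun j _ => ?_)
    · rw [perm4, perm4_two]
    · rw [perm4, perm4_two']
  · dsimp only
    intro j hj
    apply hc
    simp only [Equiv.swap_apply_def]
    split_ifs <;> omega
  · dsimp only
    intro j hj
    apply hc'
    rw [perm4]
    split_ifs <;> omega

theorem ix1 (i p : ℕ) : (if (if 2 * p < 2 * i then 2 * p else 2 * p + 2) < 2 * i + 1 then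
    (if 2 * p < 2 * i then 2 * p else 2 * p + 2) else
    (if 2 * p < 2 * i then 2 * p else 2 * p + 2) + 2) = 2 * dl i p := by
  unfold dl
  split_ifs <;> omega

theorem ix2 (i p : ℕ) : (if (if 2 * p + 1 < 2 * i then 2 * p + 1 else 2 * p + 1 + 2) < 2 * i + 1 then
    (if 2 * p + 1 < 2 * i then 2 * p + 1 else 2 * p + 1 + 2) else
    (if 2 * p + 1 < 2 * i then 2 * p + 1 else 2 * p + 1 + 2) + 2) = 2 * dl i p + 1 := by
  unfold dl
  split_ifs <;> omega

theorem step_cap {N i c c' : ℕ} {lab lab' : ℕ → ℕ}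
    (h : Rel (N, lab, c) (2 * N + 1, lab', c')) (h1 : i + 2 ≤ N) (hne : lab i ≠ lab (i + 1)) :
    ∃ t', run (par2 (.cap, i)) (2 * N + 1, lab', c') = some t' ∧
      Rel (N - 2, fun j => if lab (if j < i then j else j + 2) = lab (i + 1) then lab i
          else lab (if j < i then j else j + 2), c) t' := by
  obtain ⟨-, hI, hc, hc'⟩ := h
  dsimp only at hI hc hc'
  obtain ⟨M, rfl⟩ : ∃ M, N = M + 2 := ⟨N - 2, by omega⟩
  have hiM : i ≤ M := by omega
  -- the four labels
  have n1 : lab' (2 * i + 1) ≠ lab' (2 * i + 1 + 1) := by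
    intro e
    exact hne (hI.B1 (i + 1) (by omega) i (by omega) e.symm).1.symm
  have n2 : lab' (2 * i) ≠ lab' (2 * i + 2) := by
    intro e
    have := hI.A0 i (by omega) (i + 1) (by omega) e
    omega
  have n3 : lab' (2 * i + 3) ≠ lab' (2 * i + 2) := by
    intro e
    exact (hI.B1 (i + 1) (by omega) (i + 1) (by omega) e.symm).2 rfl
  have n4 : lab' (2 * i) ≠ lab' (2 * i + 3) := by
    intro e
    exact hne (hI.B1 i (by omega) (i + 1) (by omega) e).1
  have n5 : ∀ p < M, lab' (2 * dl i p) ≠ lab' (2 * i + 2) := by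
    intro p hp e
    exact dl_ne' i p (hI.A0 _ (dl_lt hp) (i + 1) (by omega) e)
  have n6 : ∀ p < M, lab' (2 * dl i p + 1) ≠ lab' (2 * i + 3) := by
    intro p hp e
    exact dl_ne' i p (hI.A1 _ (dl_lt hp) (i + 1) (by omega) e)
  have n7 : lab' (2 * i + 1) ≠ lab' (2 * i + 3) := by
    intro e
    have := hI.A1 i (by omega) (i + 1) (by omega) e
    omega
  have n8 : lab' (2 * i + 2) ≠ lab' (2 * (M + 2)) := hI.C (i + 1) (by omega)
  simp only [par2, run, step]
  rw [if_pos ⟨by omega, n1⟩]
  simp only [Option.bind_some]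
  have m1 : (if 2 * i < 2 * i + 1 then 2 * i else 2 * i + 2) = 2 * i := if_pos (by omega)
  have m2 : (if 2 * i + 1 < 2 * i + 1 then 2 * i + 1 else 2 * i + 1 + 2) = 2 * i + 3 :=
    if_neg (by omega)
  rw [m1, m2, if_neg n2, if_neg n3, if_pos ⟨by omega, n4⟩]
  refine ⟨_, rfl, ?_, ?_, ?_, ?_⟩
  · dsimp only
    omega
  · dsimp only
    refine inv_cap hI hiM hne ?_ ?_ ?_ ?_
    · intro p hp
      rfl
    · intro p hp
      rw [ix1, if_neg (n5 p hp)]
      rfl
    · intro p hp
      rw [ix2]
      by_cases h2 : lab' (2 * dl i p + 1) = lab' (2 * i + 2)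
      · have h3 : lab' (2 * dl i p + 1) = lab' (2 * (i + 1)) := h2
        rw [if_pos h2, if_neg n7, if_pos h3]
      · have h3 : ¬ lab' (2 * dl i p + 1) = lab' (2 * (i + 1)) := h2
        rw [if_neg h2, if_neg (n6 p hp), if_neg h3]
    · have e5 : 2 * (M + 2 - 2) = 2 * M := by omega
      rw [e5, ix1]
      have e6 : 2 * dl i M = 2 * (M + 2) := by
        unfold dl
        rw [if_neg (by omega)]
      rw [e6, if_neg n8.symm]
      rfl
  · dsimp only
    intro j hj
    have a1 := hc i (by omega)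
    have a2 := hc (if j < i then j else j + 2) (by split_ifs <;> omega)
    split_ifs at a2 ⊢ <;> assumption
  · dsimp only
    intro j hj
    have a1 := hc' (2 * i) (by omega)
    have a2 := hc' (2 * i + 1) (by omega)
    have hx : (if j < 2 * i then j else j + 2) < 2 * M + 3 := by
      split_ifs <;> omega
    generalize (if j < 2 * i then j else j + 2) = x at hx ⊢
    have hy : (if x < 2 * i + 1 then x else x + 2) < 2 * (M + 2) + 1 := by
      split_ifs <;> omega
    have a4 := hc' _ hy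
    split_ifs at a4 ⊢ <;> assumption

theorem step_rel (p : Kind × ℕ) {s t s' : State} (h : Rel s t) (hs : step p s = some s') :
    ∃ t', run (par2 p) t = some t' ∧ Rel s' t' := by
  obtain ⟨κ, i⟩ := p
  obtain ⟨N, lab, c⟩ := s
  obtain ⟨N', lab', c'⟩ := t
  have hN : N' = 2 * N + 1 := h.1
  subst hN
  cases κ with
  | cup =>
    simp only [step] at hs
    split_ifs at hs with h1
    simp only [Option.some.injEq] at hs
    subst hs
    exact step_cup h h1
  | cap =>
    simp only [step] at hs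
    split_ifs at hs with h1
    simp only [Option.some.injEq] at hs
    subst hs
    exact step_cap h h1.1 h1.2
  | crs e =>
    simp only [step] at hs
    split_ifs at hs with h1
    simp only [Option.some.injEq] at hs
    subst hs
    exact step_crs e h h1

theorem run_rel : ∀ (D : Diag) {s t s' : State}, Rel s t → run D s = some s' →
    ∃ t', run (para D) t = some t' ∧ Rel s' t' := by
  intro D
  induction D with
  | nil =>
    intro s t s' h hs
    simp only [run, Option.some.injEq] at hs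
    subst hs
    exact ⟨t, rfl, h⟩
  | cons p D ih =>
    intro s t s' h hs
    simp only [run] at hs
    cases h1 : step p s with
    | none =>
      rw [h1] at hs
      exact absurd hs (by simp)
    | some s1 =>
      rw [h1, Option.bind_some] at hs
      obtain ⟨t1, h2, h3⟩ := step_rel p h h1
      obtain ⟨t', h4, h5⟩ := ih h3 hs
      refine ⟨t', ?_, h5⟩
      rw [para_cons, run_append, h2, Option.bind_some, h4]

/-- two crossings do not change the labels -/
theorem two_crs (e : Bool) (i n c : ℕ) (lab : ℕ → ℕ) (w : Diag) (h : i + 2 ≤ n) :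
    run ((.crs e, i) :: (.crs e, i) :: w) (n, lab, c) = run w (n, lab, c) := by
  simp only [run, step]
  rw [if_pos h]
  simp only [Option.bind_some]
  rw [if_pos h]
  simp only [Option.bind_some, Equiv.swap_apply_self]

theorem run_twists (b : Bool) (k n c : ℕ) (lab : ℕ → ℕ) (h : 2 ≤ n) :
    run (List.replicate (2 * k) (Kind.crs b, 0)) (n, lab, c) = some (n, lab, c) := by
  induction k with
  | zero => rfl
  | succ k ih =>
    have e : 2 * (k + 1) = 2 * k + 1 + 1 := by ring
    rw [e, List.replicate_succ, List.replicate_succ, two_crs b 0 n c lab _ (by omega), ih]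

end LKD

theorem t_LKD : LKD_Stmt := by
  intro D hD e m
  obtain ⟨lab, c, hr⟩ := hD
  have h0 : LKD.Rel (1, fun _ => 0, 1)
      (3, fun j => if j < 1 then 0 else if j < 1 + 2 then 1 else 0, 2) := by
    refine ⟨rfl, ⟨?_, ?_, ?_, ?_, ?_, ?_⟩, ?_, ?_⟩
    · intro i hi j hj _
      dsimp only at hi hj
      omega
    · intro i hi j hj _
      dsimp only at hi hj
      omega
    · intro i hi j hj h
      dsimp only at hi hj h
      have h1 : i = 0 := by omega
      have h2 : j = 0 := by omega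
      subst h1
      subst h2
      simp at h
    · intro i hi j hj _ hne
      dsimp only at hi hj
      omega
    · intro i hi
      dsimp only at hi
      have h1 : i = 0 := by omega
      subst h1
      simp
    · intro i hi h
      dsimp only at hi h
      have h1 : i = 0 := by omega
      subst h1
      simp at h
    · intro j hj
      dsimp only
      omega
    · intro j hj
      dsimp only
      split_ifs <;> omega
  obtain ⟨t', h1, h2⟩ := LKD.run_rel D h0 hr
  obtain ⟨n', lab', c'⟩ := t'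
  obtain ⟨h3, hI, -, -⟩ := h2
  dsimp only at h3 hI
  subst h3
  have hne : lab' 0 ≠ lab' 1 := fun e' => (hI.B1 0 (by omega) 0 (by omega) e').2 rfl
  have hrun : run (double e m D) start = run [(.cap, 0)] (2 * 1 + 1, lab', c') := by
    unfold double start
    rw [← List.singleton_append, run_append]
    have hs : run [(Kind.cup, 1)] (1, fun _ => 0, 1) =
        some (3, fun j => if j < 1 then 0 else if j < 1 + 2 then 1 else 0, 2) := by
      simp only [run, step]
      rw [if_pos (by omega)]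
      simp only [Option.bind_some]
    rw [hs, Option.bind_some, List.append_assoc, run_append, h1, Option.bind_some, run_append]
    unfold twists
    rw [LKD.run_twists _ _ _ _ _ (by omega), Option.bind_some, LKD.two_crs e 1 _ _ _ _ (by omega)]
  rw [isLongKnot_iff, hrun]
  simp only [run, step]
  rw [if_pos ⟨by omega, hne⟩]
  exact ⟨_, _, rfl⟩

end Pool.Agent.WD
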