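import Pool.Agent.WD.Certs

/-!
# Statements of the topological modules (MP_31fd3b_gt, project WD)

The module `WD_XXX` is the file `Pool/Agent/WD/XXX.lean` with `theorem t_XXX : XXX_Stmt` (or
`theorem t_XXX (h : YYY_Stmt) : XXX_Stmt` if the text says that it uses YYY) in the namespace
`Pool.Agent.WD`, helper lemmas in the namespace `Pool.Agent.WD.XXX`.

Tools: `WD/Base.lean` (`bwe`: equal braid words give equivalent diagrams; `cnt_*`; `cups_succ`,
`cups_cons`, `caps_succ`, `caps_snoc`; `para_*`, `par2_sh`; `cl_congr`), `WD/Certs.lean`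
(certificates `c_*` for small diagrams), `TwoBr/EqD.lean` (`EqD.sh`, `EqD.widen`, `EqD.ctx`,
`EqD.left`, `EqD.right`, `far_words`, `cnt_app`, `cnt_sh`, `cnt_widen`, `EqD.cnt_eq`), `IT/WBase`
(`ev_append`, `ev_iw`, `exists_word`, `incl_ev`). A model for this kind of proof is `TwoBr/Rev.lean`.

A certificate `h : EqD N x y` at the place `i` on `M` strands is `(h.sh i).widen k`, where
`M = N + i + k`; then use `EqD.ctx` for the context.
-/

set_option autoImplicit false

namespace Pool.Agent.WD

open Pool.Agent.LibH11 Pool.Agent.LibH11.Sliced Pool.Agent.IT Pool.Agent.TwoBr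

/-! ## Closed braids -/

/-- The first strand crosses the next `n` strands (all crossings of type `e`). -/
def xs (e : Bool) (n : ℕ) : Diag := (List.range n).map fun j => (Kind.crs e, j)

/-- NAT (150 lines): a strand passes over (under) a diagram.
Proof. `xs e (a + b) = xs e a ++ sh a (xs e b)` and `cnt M (xs e n) = some M` for `n + 1 ≤ M`.
Induction on `t` (generalise `n`): it is enough to treat one slice `t = [(κ, i)]` (then
`xs e n ++ (p :: t) ~ sh 1 [p] ++ xs e n' ++ t`, and the induction hypothesis behind `sh 1 [p]`).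
(cup) `i ≤ n`, `n = i + b`. `xs e n ++ [(cup, i)] = xs e i ++ sh i (xs e b) ++ [(cup, i)]`;
`sh i (xs e b) ++ [(cup,i)] ~ [(cup,i)] ++ sh (i+2) (xs e b)` (`far_words` with `u = [(cup, i)]`,
`N = i`, `M = i + 2`, `v = xs e b`, `N' = b + 1`: it says `[(cup,i)] ++ sh (i+2) v ~ sh i v ++ [(cup,i)]`);
`[(cup, i)] ~ [(cup, i+1), (crs e, i), (crs e, i+1)]` (`c_natcup`); `xs e i ++ [(cup, i+1)] ~
[(cup, i+1)] ++ xs e i` (`far_words` with `u = xs e i`, `N = M = i + 1`, `v = [(cup, 0)]`); result
`[(cup, i+1)] ++ xs e i ++ [(crs e, i), (crs e, i+1)] ++ sh (i+2) (xs e b) = sh 1 [(cup,i)] ++ xs e (n+2)`.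
(cap) `i + 2 ≤ n`, `n = i + 2 + b`: `sh (i+2) (xs e b) ++ [(cap, i)] ~ [(cap,i)] ++ sh i (xs e b)`,
`[(crs e, i), (crs e, i+1), (cap, i)] ~ [(cap, i+1)]` (`c_natcap`), `xs e i ++ [(cap, i+1)] ~
[(cap, i+1)] ++ xs e i`.
(crs f) the same with `c_natx`: `[(crs e, i), (crs e, i+1), (crs f, i)] ~ [(crs f, i+1), (crs e, i),
(crs e, i+1)]`. -/
def NAT_Stmt : Prop := ∀ (e : Bool) (t : Diag) (n m : ℕ), cnt n t = some m →
  EqD (n + 1) (xs e n ++ t) (sh 1 t ++ xs e m)

/-- SLC (130 lines): a letter `≥ 1` moves around the closure.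
Proof. Let `1 ≤ i < n`. (1) `EqD 1 (cups n ++ [(crs e, i)]) (cups n ++ [(crs e, 2 * n - i)])`.
`cups n = cups (i - 1) ++ [(cup, i), (cup, i + 1)] ++ (rest = cups at i+2, ..., n)`, by
`c_slcup` shifted by `i` the crossing at `i` can be replaced by the crossing at `i + 2` directly
above `(cup, i + 1)`; both commute with the rest: the crossing at `i` is to the left of the minima
at `≥ i + 2`, and the crossing at `i + 2` moves to `i + 2 + 2 (n - i - 1) = 2 n - i`.
Convenient: induction on `n` (with `cups_succ`): for `i + 1 < n` the last minimum `(cup, n)` is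
far from `(crs e, i)` (`[(cup, n), (crs e, i)] ~ [(crs e, i), (cup, n)]`, far move), and
`[(crs e, 2 (n-1) - i), (cup, n)] ~ [(cup, n), (crs e, 2 n - i)]` (far move, `n ≤ 2 (n-1) - i`); for
`i + 1 = n` use `c_slcup` (`2 n - i = i + 2`).
(2) In the same way `EqD (2 * n + 1) ((crs e, i) :: caps n) ((crs e, 2 * n - i) :: caps n)`
(`c_slcap`, `caps_succ`).
(3) `(crs e, 2 * n - i)` commutes with `braidWord w`, since the letters of `w` are `< n` and
`2 * n - i ≥ n + 1` (`far_words` with `u = braidWord w`, `N = M = n + 1`,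
`v = [(crs e, n - 1 - i)]`, `N' = n`; `n + 1 + (n - 1 - i) = 2 n - i`). -/
def SLC_Stmt : Prop := ∀ (n i : ℕ) (e : Bool) (w : Word), 1 ≤ i → i < n → Bd n w →
  EqD 1 (cl n ((i, e) :: w)) (cl n (w ++ [(i, e)]))

/-- STB (60 lines): stabilisation.
Proof. `cl (n+1) (w ++ [(n, e)]) = cups n ++ [(cup, n+1)] ++ braidWord w ++ [(crs e, n)] ++
[(cap, n+1)] ++ caps n`. `[(cup, n+1)] ++ braidWord w ~ braidWord w ++ [(cup, n+1)]` (`far_words`,
`u = braidWord w`, `N = M = n + 1`, `v = [(cup, 0)]`), `[(cup, n+1), (crs e, n), (cap, n+1)] ~ []` is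
`c_stb` shifted by `n`. -/
def STB_Stmt : Prop := ∀ (n : ℕ) (e : Bool) (w : Word), Bd n w →
  EqD 1 (cl (n + 1) (w ++ [(n, e)])) (cl n w)

/-- HOOK (120 lines), uses NAT: the clasp of the long strand with the closing strand moves from
below `t` to above `t`.
Proof. Let `M = (cup, 0) :: (crs e, 1) :: (sh 1 t ++ [(crs e, 1), (cap, 0)])`. Both sides are
equivalent to `M`. Left side (`ē = !e`):
`[(cup,1), (crs e,0), (crs e,0)] ~ [(cup,0), (crs ē,1), (crs e,0)]` (slideCup)
`~ [(cup,0), (crs e,0), (crs e,1), (crs ē,0), (crs ē,1)]` (braid relation `s1^-1 s0 = s0 s1 s0^-1 s1^-1`,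
`bwe` or a certificate: insert `(crs e,0)(crs ē,0)`, and `c_natx`)
`~ [(cup,0), (crs e,1), (crs ē,0), (crs ē,1)]` (r1Cup). Then `[(crs ē,0), (crs ē,1)] ++ t ~
sh 1 t ++ [(crs ē,0), (crs ē,1)]` (NAT with `ē`, `n = m = 2`, `xs ē 2`), and
`[(crs ē,0), (crs ē,1), (cap,1)] ~ [(crs ē,0), (cap,1)] ~ [(crs e,1), (cap,0)]` (r1Cap, slideCap).
Right side: `[(crs e,0), (crs e,0), (cap,1)] ~ [(crs e,0), (crs ē,1), (cap,0)]` (slideCap)
`~ [(crs ē,1), (crs ē,0), (crs e,1), (crs e,0), (cap,0)]` (braid relation)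
`~ [(crs ē,1), (crs ē,0), (crs e,1), (cap,0)]` (r1Cap). Now `t ++ [(crs ē,1), (crs ē,0)] ~
[(crs ē,1), (crs ē,0)] ++ sh 1 t`: this is NAT for `e` multiplied by the inverse on both sides
(`xs e 2 ++ [(crs ē,1), (crs ē,0)] ~ []` in both orders). At the bottom
`[(cup,1), (crs ē,1), (crs ē,0)] ~ [(cup,1), (crs ē,0)] ~ [(cup,0), (crs e,1)]` (r1Cup, slideCup).
All these equivalences of diagrams on at most 3 strands are certificates (`EqD.of_chk`) after
`cases e`. -/
def HOOK_Stmt : Prop := ∀ (e : Bool) (t : Diag), cnt 2 t = some 2 →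
  EqD 1 ((.cup, 1) :: (.crs e, 0) :: (.crs e, 0) :: (t ++ [(.cap, 1)]))
    ((.cup, 1) :: (t ++ [(.crs e, 0), (.crs e, 0), (.cap, 1)]))

/-- SQR (60 lines), uses HOOK: the square of the first letter moves around the closure.
Proof. `n = k + 1`; `cups n = (cup, 1) :: sh 1 (cups k)`, `caps n = sh 1 (caps k) ++ [(cap, 1)]`
(`cups_cons`, `caps_snoc`). Put `t = sh 1 (cups k) ++ braidWord w ++ sh 1 (caps k)`, `cnt 2 t = some 2`
(`cnt_sh`, `cnt_cups`, `cnt_bwd`, `cnt_caps`). `(crs e, 0)` commutes with `sh 1 (cups k)` and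
`sh 1 (caps k)`, whose slices are at places `≥ 2` (`sh 1 (cups k) = sh 2 (cups' k)` where
`cups' k = (List.range k).map fun j => (cup, j)`; `far_words` with `u = [(crs e,0), (crs e,0)]`). -/
def SQR_Stmt : Prop := ∀ (n : ℕ) (e : Bool) (w : Word), 1 ≤ n → Bd n w →
  EqD 1 (cl n ((0, e) :: (0, e) :: w)) (cl n (w ++ [(0, e), (0, e)]))

/-- FIX (150 lines): the braids that fix the first strand are generated by the generators other
than the first one and by the square of the first one.
Proof. The mirror image of `GK/CINV.lean` (`T`, `T_far`, `T_shift`, `A_mem`, `coset_step`, `coset`,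
`perm_T`, `fix_mem`), which does this for the last strand: put `T 0 = 1`,
`T (k + 1) = T k * gen n (k, true)`. Then `T k` commutes with `gen n (i, e)` for `k < i`... precisely
`k + 1 ≤ i`; `T k * gen n (i, true) = gen n (i + 1, true) * T k` for `i + 1 < k ≤ n`;
`T k * gen n (k, true)^2 * (T k)⁻¹ ∈ C` for `k < n` (induction: it is
`(gen n (k+1... ))` conjugated, as in `A_mem`: `T (k+1) s_{k+1}^2 T (k+1)⁻¹ =
s_{k+1}⁻¹ (T k s_k^2 (T k)⁻¹) s_{k+1}`); hence every braid is `c * T k`, `c ∈ C`, `k ≤ n`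
(induction over words from the right), and `perm (T k) k = 0`, `perm c 0 = 0` for `c ∈ C`: if
`perm b 0 = 0` then `k = 0`. Here one also needs `perm c 0 = 0` for all `c ∈ C`: replace `C` by
`C ⊓ (the stabiliser of 0)`, which contains the same generators. -/
def FIX_Stmt : Prop := ∀ (n : ℕ) (C : Subgroup (Br n)),
  (∀ i : Fin n, 1 ≤ (i : ℕ) → sg i ∈ C) → (∀ i : Fin n, (i : ℕ) = 0 → sg i * sg i ∈ C) →
  ∀ b : Br n, perm b 0 = 0 → b ∈ C

/-- CNJ (120 lines), uses SLC, SQR, FIX: the closure of a knot braid does not change under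
conjugation.
Proof. For `g h : Br n` let `E g h` say: for all words `u, w` with `Bd n u`, `Bd n w`,
`ev n u = g`, `ev n w = h` we have `EqD 1 (cl n u) (cl n w)`. By `cl_congr` and `exists_word` it is an
equivalence relation. Let `C` be the subgroup of all `c` with `∀ g, E (g * c) (c * g)` (closed
under products and inverses exactly as `CINV.C` in `GK/CINV.lean`). It contains `sg i`, `i ≥ 1`, by
SLC, and `sg 0 * sg 0` by SQR. By FIX it contains every `b` with `perm b 0 = 0`. If `y` is a knot
braid and `c` arbitrary then there is `k` with `perm y ^ k 0 = (perm c)⁻¹ 0`, so `c * y ^ k ∈ C`,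
and with `g = y * (c * y ^ k)⁻¹`: `E y (c * y * c⁻¹)` (see `CINV.main`). -/
def CNJ_Stmt : Prop := ∀ (n : ℕ) (c y : Word), Bd n c → Bd n y → IsKnot (ev n y) →
  EqD 1 (cl n (c ++ y ++ iw c)) (cl n y)

/-- MRK (80 lines), uses CNJ, STB: braids with equal closures have equivalent diagrams.
Proof. `EqD 1` is an equivalence relation (setoid `r`). For `b : Br n` choose a word
`wd b` (`exists_word`): `Bd n (wd b)`, `ev n (wd b) = b`. `F : LibH11.Knot → Quotient r`,
`closure b h ↦ [cl n (wd b)]` is well defined on the Markov moves: `conj` by CNJ and `cl_congr`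
(`a * b * a⁻¹ = ev (a ++ b ++ iw a)`), `stabPos`, `stabNeg` by STB and `cl_congr` (`incl_ev`,
`gen_true`, `gen_false`: `incl b * sg (Fin.last n) = ev (n+1) (w ++ [(n, true)])`). -/
def MRK_Stmt : Prop := ∀ (n n' : ℕ) (w w' : Word), Bd n w → Bd n' w' →
  ∀ (h : IsKnot (ev n w)) (h' : IsKnot (ev n' w')),
  closure (ev n w) h = closure (ev n' w') h' → EqD 1 (cl n w) (cl n' w')

/-- LKC (150 lines): the closure of a knot braid is a diagram of a long knot.
Proof. (1) `run (cups n) start = some (2 n + 1, lab, n + 1)` with `lab 0 = 0`, and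
`lab j = j`, `lab (2 n + 1 - j) = j` for `1 ≤ j ≤ n` (induction with `cups_succ`).
(2) For `Bd n w` and `n + 1 ≤ M`: `run (braidWord w) (M, lab, c) = some (M, lab', c)` with
`lab' j = lab (perm (ev n w) j)` for `j ≤ n` and `lab' j = lab j` for `j > n`.
(3) Claim for `k` and `τ : ℕ → ℕ` with: `τ` maps `{0, …, k}` injectively into itself, and for all
`x ≤ k` there is `m` with `τ^[m] 0 = x`: if `lab j = τ j` for `j ≤ k`, `lab (2 k + 1 - j) = j` for
`1 ≤ j ≤ k`, then `run (caps k) (2 k + 1, lab, c) = some (1, _, c)`. Induction on `k`: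
`caps (k) = (cap, k) :: caps (k-1)`; `τ k ≠ k` (the first `m` with `τ^[m] 0 = k` is positive, and
`τ (τ^[m-1] 0) = k = τ k` contradicts injectivity); new labels: `τ' j = if τ j = k then τ k else τ j`
for `j < k`, and `τ'` satisfies the hypotheses: if `τ^[m] 0 ≠ k` then some `τ'^[m'] 0 = τ^[m] 0`
(strong induction on `m`; if `τ^[m-1] 0 = k` go back to `m - 2`).
(4) `τ = perm (ev n w)` satisfies the hypotheses since it has one cycle
(`Equiv.Perm.SameCycle`, `exists_nat_pow_eq`). -/
def LKC_Stmt : Prop := ∀ (n : ℕ) (w : Word), Bd n w → IsKnot (ev n w) → IsLongKnot (cl n w)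

/-! ## Parallels -/

/-- A half twist of the two parallel copies of the strand `j`. -/
def ht (e : Bool) (j : ℕ) : Diag := [(.crs e, 2 * j)]

/-- DBM (120 lines): all moves except the first Reidemeister move pass to the parallel.
Proof. `cases` on the move. `far p q i k`: `para [(p, i), (q, i + p.outs + k)] = par2 (p, i) ++
sh (2 (i + p.outs + k)) (par2 (q, 0))` (`par2_sh`), `para [(q, i + p.ins + k), (p, i)] =
sh (2 (i + p.ins + k)) (par2 (q, 0)) ++ par2 (p, i)`; this is `far_words` with `u = par2 (p, i)`,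
`N = 2 (i + p.ins + k)`, `M = 2 (i + p.outs + k)`, `v = par2 (q, 0)`, `N' = 2 * (N0 - i - p.ins - k)` where `N0` is the number of strands.
The other moves: the certificates `c_zz`, `c_zg`, `c_sa`, `c_su`, `c_r2`, `c_r3` of `WD/Certs.lean`
shifted by `2 i` (`para_sh`) and widened. -/
def DBM_Stmt : Prop := ∀ (a b : Diag), Move a b → ∀ N : ℕ, cnt N a ≠ none → cnt N b ≠ none →
  EqD (2 * N) (para a) (para b) ∨
  (∃ (i : ℕ) (e : Bool), a = [(.crs e, i), (.cap, i)] ∧ b = [(.cap, i)]) ∨
  (∃ (i : ℕ) (e : Bool), a = [(.cup, i), (.crs e, i)] ∧ b = [(.cup, i)])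

/-- HTP (120 lines): a half twist of a doubled strand passes a doubled slice.
Proof. `far_words` for the first two, the certificates `c_htx1`, `c_htx2`, `c_htcap`, `c_htcup`
shifted by `2 i` and widened for the others. -/
def HTP_Stmt : Prop := ∀ (e : Bool) (N : ℕ) (κ : Kind) (i : ℕ), i + κ.ins ≤ N →
  (∀ j < i, EqD (2 * N) (ht e j ++ par2 (κ, i)) (par2 (κ, i) ++ ht e j)) ∧
  (∀ j < N, i + κ.ins ≤ j →
    EqD (2 * N) (ht e j ++ par2 (κ, i)) (par2 (κ, i) ++ ht e (j - κ.ins + κ.outs))) ∧
  (∀ f : Bool, κ = .crs f →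
    EqD (2 * N) (ht e i ++ par2 (κ, i)) (par2 (κ, i) ++ ht e (i + 1)) ∧
    EqD (2 * N) (ht e (i + 1) ++ par2 (κ, i)) (par2 (κ, i) ++ ht e i)) ∧
  (κ = .cap → EqD (2 * N) (ht e i ++ par2 (κ, i)) (ht e (i + 1) ++ par2 (κ, i))) ∧
  (κ = .cup → EqD (2 * N) (par2 (κ, i) ++ ht e i) (par2 (κ, i) ++ ht e (i + 1)))

/-- LAB (150 lines), uses HTP: a half twist can be moved along an arc below it to its other end.
Proof. Induction on `u` from the top (`List.reverseRecOn`, `run_append`), `u ++ [(κ, k)]`; write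
`(n0, lab0, c0)` for the state before the last slice (`cnt 2 (para u) = some (2 * n0)` by `run_cnt`
and `cnt_para`). Every position `i` of the new state which is not one of the two new positions of
a minimum comes from an old position `i0`, and `para (u ++ [p]) ++ ht e i ~ para u ++ ht e i0 ++
par2 p` by HTP. `cup`: the new labels of the two new positions are `c0`, which does not occur
otherwise (labels are `< c0`: invariant of `run`, see `Sim` in `TwoBr/Sim.lean`, `run_osim` with
`start_sim`, field `v1`); both new: the last part of HTP; both old: induction hypothesis.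
`crs f`: `i0, j0` are the images under the swap, induction hypothesis. `cap` at `k`: the new label
of `i` is the old label of `i0`, with `lab0 (k+1)` replaced by `lab0 k`. So either
`lab0 i0 = lab0 j0`, or (up to symmetry) `lab0 i0 = lab0 k` and `lab0 j0 = lab0 (k+1)`; then
`ht i0 ~ ht k` (induction hypothesis, followed by `par2 (cap, k)`), `ht k ++ par2 (cap, k) ~
ht (k+1) ++ par2 (cap, k)` (HTP), `ht (k+1) ~ ht j0` (induction hypothesis). -/
def LAB_Stmt : Prop := ∀ (e : Bool) (u : Diag) (n : ℕ) (lab : ℕ → ℕ) (c : ℕ),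
  run u start = some (n, lab, c) → ∀ i j : ℕ, i < n → j < n → lab i = lab j →
  EqD 2 (para u ++ ht e i) (para u ++ ht e j)

/-- PRT (100 lines): at least one of two different arcs has its other end elsewhere.
Proof. By induction on `u` from the top, `run u start = some (n, lab, c)` implies: (I) there is a
label `m0` such that for all `i < n` with `lab i ≠ m0` there is `j < n`, `j ≠ i`, `lab j = lab i`; and
all labels are `< c`. `cup`: same `m0`. `crs`: same `m0`. `cap` at `k`, `a = lab k ≠ b = lab (k+1)`: the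
new `m0` is `a` if `m0 ∈ {a, b}` and `m0` otherwise. Let `i` be an old position `≠ k, k+1` with new
label `≠` new `m0`. If `lab i ∈ {a, b}` then `m0 ∉ {a, b}`; if `lab i = a`, the partner of `k+1` is not
`k`, not `i`, and its new label is `a`; if `lab i = b`, use the partner of `k`. If `lab i ∉ {a, b}` its
old partner has the same label, hence is `≠ k, k+1`. -- The statement: one of `lab k`, `lab (k+1)` is
`≠ m0`, say `lab k`; its partner `j ≠ k` has the label `lab k ≠ lab (k+1)`, so `j ≠ k + 1`. -/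
def PRT_Stmt : Prop := ∀ (u : Diag) (n : ℕ) (lab : ℕ → ℕ) (c : ℕ),
  run u start = some (n, lab, c) → ∀ k : ℕ, k + 2 ≤ n → lab k ≠ lab (k + 1) →
  ∃ j < n, j ≠ k ∧ j ≠ k + 1 ∧ (lab j = lab k ∨ lab j = lab (k + 1))

/-- SLD (120 lines), uses HTP, LAB, PRT: in a long knot a half twist can be moved to the top.
Proof. Induction on `v`, for all `u`, `i`. `v = []`: `n = 1` (`IsLongKnot`, `run_cnt`), `i = 0`.
`v = (κ, k) :: v'`: apply the induction hypothesis to `u ++ [(κ, k)]`. If `i` is not `k`, `k+1` with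
`κ = cap`, then by HTP `ht e i ++ par2 (κ, k) ~ par2 (κ, k) ++ ht e i'`. If `κ = cap` and
`i ∈ {k, k+1}`: `run u start = some (n, lab, c)` and `lab k ≠ lab (k+1)` (the next step succeeds since
`u ++ v` is a long knot); by HTP `ht k` and `ht (k+1)` are equivalent below `par2 (cap, k)`; by PRT
there is `j ≠ k, k+1` with `lab j = lab k` or `lab j = lab (k+1)`; by LAB `para u ++ ht j ~ para u ++
ht k` (or `k+1`), and for `j` we are in the first case. -/
def SLD_Stmt : Prop := ∀ (e : Bool) (u v : Diag), IsLongKnot (u ++ v) → ∀ n : ℕ,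
  cnt 1 u = some n → ∀ i < n,
  EqD 2 (para u ++ ht e i ++ para v) (para u ++ para v ++ ht e 0)

/-- DBE (150 lines), uses DBM, SLD: equivalent long knots have equivalent doubles, up to the
number of twists.
Proof. (1) `EqD 2 ([(crs e, 0), (crs e, 0)] ++ twists m) (twists (m + s))`, `s = 1` for `e = true`,
`s = -1` for `e = false`: both sides are `braidWord` of words in the letter `0` with the same value in
`Br 1` (`bwe`; `twists m = braidWord (List.replicate (2 * m.natAbs) (0, decide (0 < m)))`, whose value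
is `(sg 0) ^ (2 m)`).
(2) Induction on `EqD 1 w w'` with the hypothesis that `w` is a long knot (`EqD.isLongKnot`).
`refl`: `c = 0`; `symm`: `-c` (use `m - c`); `trans`: the sum. `rel`: `w = u ++ a ++ v`, `w' = u ++ b ++ v`,
`Move a b`. If `EqD (2 N) (para a) (para b)` (DBM, `N` the number of strands after `u`) then `c = 0`
(context). If `a = [(crs f, i), (cap, i)]`, `b = [(cap, i)]`: `para a ~ [(crs f', 2 i), (crs f', 2 i)] ++
para b`, `f' = !f` (`c_a1` shifted by `2 i`), and SLD for `u`, `b ++ v` (a long knot since `w'` is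
one), twice, moves the two crossings to the top: `para u ++ [(crs f', 2i), (crs f', 2i)] ++ para b ++ para v ~
para u ++ para b ++ para v ++ [(crs f', 0), (crs f', 0)]` (for the second time: SLD followed by
`ht f' 0`). With (1) `c = ±1`. If `a = [(cup, i), (crs f, i)]`, `b = [(cup, i)]`: `c_u1`, and SLD
for `u ++ b`, `v`, `i`. Everything takes place between `(cup, 1)` and the clasp, with one more
strand on the right (`EqD.widen 1`, `EqD.ctx`). -/
def DBE_Stmt : Prop := ∀ w w' : Diag, EqD 1 w w' → IsLongKnot w →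
  ∃ c : ℤ, ∀ (e : Bool) (m : ℤ), EqD 1 (double e m w) (double e (m + c) w')

/-- LKD (200 lines): the double of a long knot diagram is a long knot diagram.
Proof. Simulation of `run D start = some (N, lab, c)` by
`run ((cup, 1) :: para D) start = some (2 N + 1, lab', c')` with
(A) `lab' (2 i) = lab' (2 j) → i = j`, `lab' (2 i + 1) = lab' (2 j + 1) → i = j`,
(B) `lab' (2 i) = lab' (2 j + 1) ↔ lab i = lab j ∧ i ≠ j`, (C) `lab' (2 i) ≠ lab' (2 N)`,
(D) `lab' (2 i + 1) = lab' (2 N) ↔ ∀ j < N, lab j = lab i → j = i` (for `i, j < N`), all labels `< c`,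
`< c'`, and (E) every label occurs at most twice in `lab`, and at most one position is alone.
Induction on `D` from the top with the steps of the two or four slices of `par2`. At the end
`N = 1`, the twists and the clasp do not change the labels (even numbers of crossings), and
`lab' 0 ≠ lab' 1`. -/
def LKD_Stmt : Prop := ∀ (D : Diag), IsLongKnot D → ∀ (e : Bool) (m : ℤ),
  IsLongKnot (double e m D)

end Pool.Agent.WD
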