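import Pool.Agent.WD.StQ
import Pool.Agent.WD.StT

/-!
LONG: closed knot braids and their doubles are diagrams of long knots.
-/

set_option autoImplicit false

namespace Pool.Agent.WD

theorem t_LONG (h1 : LKC_Stmt) (h2 : LKD_Stmt) : LONG_Stmt :=
  fun n w hw h => ⟨h1 n w hw h, fun e m => h2 _ (h1 n w hw h) e m⟩

end Pool.Agent.WD
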