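import Pool.Agent.WD.StT

/-!
# Module MRK: braids with equal closures have equivalent diagrams (MP_31fd3b_gt, project WD)
-/

set_option autoImplicit false

namespace Pool.Agent.WD

open Pool.Agent.LibH11 Pool.Agent.LibH11.Sliced Pool.Agent.IT Pool.Agent.TwoBr

namespace MRK

/-- all diagrams which are equivalent to the closure of a word for the braid -/
def F (x : LibH11.KnotBraid) (D : Diag) : Prop :=
  ∃ w : Word, Bd x.1.1 w ∧ ev x.1.1 w = x.1.2 ∧ EqD 1 (cl x.1.1 w) D

/-- the closures of words for the two sides of a Markov move are equivalent -/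
theorem step (h1 : CNJ_Stmt) (h2 : STB_Stmt) {x y : Σ n : ℕ, Br n} (h : MarkovMove x y) :
    LibH11.IsKnot x.2 → ∀ u v : Word, Bd x.1 u → Bd y.1 v → ev x.1 u = x.2 → ev y.1 v = y.2 →
      EqD 1 (cl x.1 u) (cl y.1 v) := by
  induction h with
  | conj n a b =>
    intro hk u v hu hv eu ev'
    simp only at hk hu hv eu ev' ⊢
    obtain ⟨c, hc, ec⟩ := exists_word a
    have hk' : LibH11.IsKnot (ev n u) := by rw [eu]; exact hk
    have e1 := h1 n c u hc hu hk'
    have hb : Bd n (c ++ u ++ iw c) := (hc.append hu).append (bd_iw.mpr hc)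
    have e2 : EqD 1 (cl n (c ++ u ++ iw c)) (cl n v) := by
      refine cl_congr hb hv ?_
      rw [ev_append, ev_append, ev_iw, ec, eu, ev']
    exact e1.symm.trans e2
  | stabPos n b =>
    intro hk u v hu hv eu ev'
    simp only at hk hu hv eu ev' ⊢
    have e1 := h2 n true u hu
    have hb : Bd (n + 1) (u ++ [(n, true)]) := by
      refine (hu.mono (Nat.le_succ n)).append ?_
      intro z hz
      rw [List.mem_singleton] at hz
      rw [hz]
      exact Nat.lt_succ_self n
    have e2 : EqD 1 (cl (n + 1) (u ++ [(n, true)])) (cl (n + 1) v) := by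
      refine cl_congr hb hv ?_
      rw [ev_append, ev_single, gen_true (Nat.lt_succ_self n), ← incl_ev hu, eu, ev']
      rfl
    exact e1.symm.trans e2
  | stabNeg n b =>
    intro hk u v hu hv eu ev'
    simp only at hk hu hv eu ev' ⊢
    have e1 := h2 n false u hu
    have hb : Bd (n + 1) (u ++ [(n, false)]) := by
      refine (hu.mono (Nat.le_succ n)).append ?_
      intro z hz
      rw [List.mem_singleton] at hz
      rw [hz]
      exact Nat.lt_succ_self n
    have e2 : EqD 1 (cl (n + 1) (u ++ [(n, false)])) (cl (n + 1) v) := by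
      refine cl_congr hb hv ?_
      rw [ev_append, ev_single, gen_false, gen_true (Nat.lt_succ_self n), ← incl_ev hu, eu, ev']
      rfl
    exact e1.symm.trans e2

theorem F_eq (h1 : CNJ_Stmt) (h2 : STB_Stmt) (x y : LibH11.KnotBraid)
    (h : MarkovMove x.1 y.1) : F x = F y := by
  funext D
  apply propext
  constructor
  · rintro ⟨u, hu, eu, hD⟩
    obtain ⟨v, hv, ev'⟩ := exists_word y.1.2
    exact ⟨v, hv, ev', (step h1 h2 h x.2 u v hu hv eu ev').symm.trans hD⟩
  · rintro ⟨v, hv, ev', hD⟩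
    obtain ⟨u, hu, eu⟩ := exists_word x.1.2
    exact ⟨u, hu, eu, (step h1 h2 h x.2 u v hu hv eu ev').trans hD⟩

end MRK

theorem t_MRK (h1 : CNJ_Stmt) (h2 : STB_Stmt) : MRK_Stmt := by
  intro n n' w w' hw hw' h h' e
  have e1 : Quot.lift MRK.F (MRK.F_eq h1 h2) (closure (ev n w) h) =
      Quot.lift MRK.F (MRK.F_eq h1 h2) (closure (ev n' w') h') := by
    rw [e]
  have e2 : MRK.F ⟨⟨n, ev n w⟩, h⟩ = MRK.F ⟨⟨n', ev n' w'⟩, h'⟩ := e1
  have e3 : MRK.F ⟨⟨n', ev n' w'⟩, h'⟩ (cl n' w') := ⟨w', hw', rfl, EqD.refl _⟩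
  rw [← e2] at e3
  obtain ⟨v, hv, ev', hD⟩ := e3
  exact (cl_congr hw hv ev'.symm).trans hD

end Pool.Agent.WD
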