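import Pool.Agent.WD.Base
import Pool.Agent.TwoBr.Rev

/-!
TU: the twisted Whitehead doubles of the unknot which are needed: the unknot, the trefoils and the
figure eight knot.
-/

set_option autoImplicit false

namespace Pool.Agent.WD

open Pool.Agent.LibH11 Pool.Agent.LibH11.Sliced Pool.Agent.IT Pool.Agent.TwoBr

theorem unknot_double (e : Bool) : EqD 1 (double e 0 []) [] := by
  cases e
  · exact EqD.of_chk [(0, false, .u1 1 false), (0, false, .u1 1 false), (0, false, .zg 0)] rfl
  · exact EqD.of_chk [(0, false, .u1 1 true), (0, false, .u1 1 true), (0, false, .zg 0)] rfl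

theorem trefoil_true : EqD 1 (double true 1 []) (cl 1 [(0, false), (0, false), (0, false)]) :=
  EqD.of_chk [(0, true, .su 0 false), (4, false, .sa 0 true), (4, true, .r2 0 true),
    (2, false, .r3 0), (1, false, .r2 1 false), (0, false, .u1 0 true), (0, false, .su 0 true)] rfl

theorem trefoil_false : EqD 1 (double false (-1) []) (cl 1 [(0, true), (0, true), (0, true)]) :=
  EqD.of_chk [(0, true, .su 0 true), (4, false, .sa 0 false), (2, true, .zg 0),
    (3, false, .far .cap (.crs false) 0 0), (2, false, .su 1 false),
    (4, false, .far .cap (.crs false) 0 1), (3, false, .far (.crs true) (.crs false) 1 0),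
    (2, false, .su 2 false), (1, false, .far (.crs true) .cup 1 0), (0, false, .far .cup .cup 0 1),
    (2, false, .r3 1), (1, false, .far .cup (.crs true) 0 0), (2, false, .su 0 true),
    (4, true, .far .cap (.crs true) 0 0), (3, false, .a1 0 false), (2, false, .zg 0)] rfl

theorem figure_eight : EqD 1 (double true (-1) []) (double false 1 []) :=
  rev_KW [(0, false), (0, false), (1, true), (1, true)]

end Pool.Agent.WD
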