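import Pool.Agent.WD.StQ
import Pool.Agent.WD.StT
import Pool.Agent.WD.TU
import Pool.Agent.WD.COE

/-!
The main theorem from the statements of the modules.
-/

set_option autoImplicit false

namespace Pool.Agent.WD

open Pool.Agent.LibH11 Pool.Agent.IT Pool.Agent.GK Pool.Agent.TwoBr
open Pool.Agent.LibH11.Sliced (Diag Kind cnt IsLongKnot ofDiag braidWord)

namespace Mn

variable {K K' : SKnot}

theorem Same0.symm {K K' : SKnot} (h : Same0 K K') : Same0 K' K := fun u hu => (h u hu).symm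

theorem isLong_of {D D' : Diag} (h : EqD 1 D D') (hD : IsLongKnot D) : IsLongKnot D' :=
  h.isLongKnot hD

/-- closed braids of graph knots and their doubles -/
structure Comp (n : ℕ) (w : Word) : Prop where
  bd : Bd n w
  kn : LibH11.IsKnot (ev n w)
  gr : GraphKnot (closure (ev n w) kn)

theorem comp_nil : Comp 0 [] where
  bd := bd_nil 0
  kn := isKnot_zero 1
  gr := GraphKnot.unknot

/-- two doubles with the same clasp -/
theorem same (h1 : S1_Stmt) (hM : MRK_Stmt) (hD : DBE_Stmt) (hL : LKC_Stmt) {n n' : ℕ}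
    {w w' : Word} (c : Comp n w) (c' : Comp n' w') (e : Bool) (m m' : ℤ)
    (hd : IsLongKnot (double e m (cl n w))) (hd' : IsLongKnot (double e m' (cl n' w')))
    (hs : Same0 (ofDiag (double e m (cl n w)) hd) (ofDiag (double e m' (cl n' w')) hd')) :
    ofDiag (double e m (cl n w)) hd = ofDiag (double e m' (cl n' w')) hd' := by
  obtain ⟨-, hcl⟩ := h1 e m m' n n' w w' c.kn c'.kn hd hd' c.bd c'.bd c.gr c'.gr hs
  have hE := hM n n' w w' c.bd c'.bd c.kn c'.kn hcl
  obtain ⟨k, hk⟩ := hD _ _ hE (hL n w c.bd c.kn)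
  have hE2 := hk e m
  have e1 := hE2.knot hd
  have hs2 : Same0 (ofDiag (double e (m + k) (cl n' w')) (hE2.isLongKnot hd))
      (ofDiag (double e m' (cl n' w')) hd') := by
    rw [← e1]
    exact hs
  obtain ⟨ht, -⟩ := h1 e (m + k) m' n' n' w' w' c'.kn c'.kn _ hd' c'.bd c'.bd c'.gr c'.gr hs2
  have hm : m + k = m' := by omega
  subst hm
  exact e1

/-- a double of a companion with the trivial closure is a double of the trivial diagram -/
theorem to_nil (h1 : S1_Stmt) (hM : MRK_Stmt) (hD : DBE_Stmt) (hL : LKC_Stmt) {n : ℕ}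
    {w : Word} (c : Comp n w) (hu : closure (ev n w) c.kn = unknot) (e : Bool) (m : ℤ)
    (hd : IsLongKnot (double e m (cl n w))) :
    EqD 1 (double e m (cl n w)) (double e (m + wr w) []) := by
  have hE := hM n 0 w [] c.bd comp_nil.bd c.kn comp_nil.kn hu
  have e0 : cl 0 [] = [] := rfl
  obtain ⟨k, hk⟩ := hD _ _ hE (hL n w c.bd c.kn)
  have hE2 := hk e m
  have hs2 : Same0 (ofDiag (double e m (cl n w)) hd)
      (ofDiag (double e (m + k) (cl 0 [])) (hE2.isLongKnot hd)) := by
    rw [← hE2.knot hd]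
    intro u _
    rfl
  obtain ⟨ht, -⟩ := h1 e m (m + k) n 0 w [] c.kn comp_nil.kn hd _ c.bd comp_nil.bd c.gr
    comp_nil.gr hs2
  rw [wr_nil, add_zero] at ht
  rw [ht]
  exact hE2

/-- two doubles with opposite clasps -/
theorem opp (h1 : S1_Stmt) (h2 : S2_Stmt) (hM : MRK_Stmt) (hD : DBE_Stmt) (hL : LKC_Stmt)
    {n n' : ℕ} {w w' : Word} (c : Comp n w) (c' : Comp n' w') (m m' : ℤ)
    (hd : IsLongKnot (double true m (cl n w))) (hd' : IsLongKnot (double false m' (cl n' w')))
    (hs : Same0 (ofDiag (double true m (cl n w)) hd) (ofDiag (double false m' (cl n' w')) hd')) :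
    ofDiag (double true m (cl n w)) hd = ofDiag (double false m' (cl n' w')) hd' := by
  obtain ⟨ht, ht', hu, hu'⟩ := h2 m m' n n' w w' c.kn c'.kn hd hd' c.bd c'.bd c.gr c'.gr hs
  have a1 := to_nil h1 hM hD hL c hu true m hd
  have a2 := to_nil h1 hM hD hL c' hu' false m' hd'
  rw [ht'] at a2
  rcases ht with ht | ht
  · rw [ht] at a1
    rw [ht, neg_zero] at a2
    exact ((a1.trans (unknot_double true)).trans ((unknot_double false).symm.trans a2.symm)).knot hd
  · rw [ht] at a1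
    rw [ht, neg_neg] at a2
    exact ((a1.trans figure_eight).trans a2.symm).knot hd

/-- two doubles -/
theorem dd (h1 : S1_Stmt) (h2 : S2_Stmt) (hM : MRK_Stmt) (hD : DBE_Stmt) (hL : LKC_Stmt)
    {n n' : ℕ} {w w' : Word} (c : Comp n w) (c' : Comp n' w') (e e' : Bool) (m m' : ℤ)
    (hd : IsLongKnot (double e m (cl n w))) (hd' : IsLongKnot (double e' m' (cl n' w')))
    (hs : Same0 (ofDiag (double e m (cl n w)) hd) (ofDiag (double e' m' (cl n' w')) hd')) :
    ofDiag (double e m (cl n w)) hd = ofDiag (double e' m' (cl n' w')) hd' := by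
  cases e <;> cases e'
  · exact same h1 hM hD hL c c' false m m' hd hd' hs
  · exact (opp h1 h2 hM hD hL c' c m' m hd' hd (Same0.symm hs)).symm
  · exact opp h1 h2 hM hD hL c c' m m' hd hd' hs
  · exact same h1 hM hD hL c c' true m m' hd hd' hs

/-- a double and a graph knot -/
theorem dg (h1 : S1_Stmt) (h2 : S2_Stmt) (h3 : S3_Stmt) (hM : MRK_Stmt) (hD : DBE_Stmt)
    (hL : LKC_Stmt) {n n' : ℕ} {w w' : Word} (c : Comp n w) (c' : Comp n' w') (e : Bool) (m : ℤ)
    (hd : IsLongKnot (double e m (cl n w))) (hl' : IsLongKnot (cl n' w'))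
    (hs : Same0 (ofDiag (double e m (cl n w)) hd) (ofDiag (cl n' w') hl')) :
    ofDiag (double e m (cl n w)) hd = ofDiag (cl n' w') hl' := by
  have key : ∀ (e' : Bool) (m' : ℤ), EqD 1 (cl n' w') (double e' m' (cl 0 [])) →
      ofDiag (double e m (cl n w)) hd = ofDiag (cl n' w') hl' := by
    intro e' m' hE
    have e1 := hE.knot hl'
    rw [e1] at hs ⊢
    exact dd h1 h2 hM hD hL c comp_nil e e' m m' hd _ hs
  rcases h3 e m n n' w w' c.kn c'.kn hd hl' c.bd c'.bd c.gr c'.gr hs with hu | ⟨ht, hu⟩ | ⟨ht, hu⟩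
  · have hE := hM n' 0 w' [] c'.bd comp_nil.bd c'.kn comp_nil.kn hu
    exact key false 0 (hE.trans (unknot_double false).symm)
  · have hE := hM n' 1 w' _ c'.bd (by intro x hx; simp at hx; simp [hx]) c'.kn ht hu
    exact key false (-1) (hE.trans trefoil_false.symm)
  · have hE := hM n' 1 w' _ c'.bd (by intro x hx; simp at hx; simp [hx]) c'.kn ht hu
    exact key true 1 (hE.trans trefoil_true.symm)

end Mn

/-- **Main theorem**, for invariants with integer values. -/
theorem main_int (h1 : S1_Stmt) (h2 : S2_Stmt) (h3 : S3_Stmt) (h4 : S4_Stmt) (hM : MRK_Stmt)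
    (hD : DBE_Stmt) (hL : LKC_Stmt) (K K' : SKnot) (hK : IsGraphOrDouble K)
    (hK' : IsGraphOrDouble K') (hs : Same0 K K') : K = K' := by
  obtain ⟨n, w, h, hw, hg, hK⟩ := hK
  obtain ⟨n', w', h', hw', hg', hK'⟩ := hK'
  have c : Mn.Comp n w := ⟨hw, h, hg⟩
  have c' : Mn.Comp n' w' := ⟨hw', h', hg'⟩
  rcases hK with ⟨hl, rfl⟩ | ⟨e, m, hd, rfl⟩
  · rcases hK' with ⟨hl', rfl⟩ | ⟨e', m', hd', rfl⟩
    · have hcl := h4 n n' w w' h h' hl hl' hw hw' hg hg' hs
      exact (hM n n' w w' hw hw' h h' hcl).knot hl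
    · exact (Mn.dg h1 h2 h3 hM hD hL c' c e' m' hd' hl (Mn.Same0.symm hs)).symm
  · rcases hK' with ⟨hl', rfl⟩ | ⟨e', m', hd', rfl⟩
    · exact Mn.dg h1 h2 h3 hM hD hL c c' e m hd hl' hs
    · exact Mn.dd h1 h2 hM hD hL c c' e e' m m' hd hd' hs

/-- From invariants with values in `A` to invariants with integer values. -/
theorem same0_of (A : Type*) [AddCommGroup A] [Nontrivial A] {K K' : SKnot}
    (h : ∀ v : SKnot → A, Sliced.IsFiniteType v → v K = v K') : Same0 K K' := by
  intro u hu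
  by_contra hne
  have hq : Sliced.IsFiniteType (fun K => ((u K : ℤ) : ℚ)) := hu.map (Int.castAddHom ℚ)
  obtain ⟨w, hw, hne'⟩ := COE.exists_separating hq (fun K => ⟨u K, rfl⟩) (K := K) (K' := K')
    (fun h1 => hne (by exact_mod_cast h1)) A
  exact hne' (h w hw)

end Pool.Agent.WD
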