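import Pool.Agent.WD.StT

/-!
NAT: a strand passes over (under) a diagram.
-/

set_option autoImplicit false

namespace Pool.Agent.WD.NAT

open Pool.Agent.LibH11 Pool.Agent.LibH11.Sliced Pool.Agent.IT Pool.Agent.TwoBr
open Pool.Agent.WD

theorem xs_zero (e : Bool) : xs e 0 = [] := rfl

theorem xs_succ (e : Bool) (n : ℕ) : xs e (n + 1) = xs e n ++ [(.crs e, n)] := by
  simp [xs, List.range_succ]

theorem xs_add (e : Bool) (a b : ℕ) : xs e (a + b) = xs e a ++ sh a (xs e b) := by
  induction b with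
  | zero => simp [xs_zero]
  | succ b ih =>
    rw [← add_assoc, xs_succ, ih, xs_succ, sh_append, List.append_assoc]
    simp [add_comm]

theorem cnt_xs (e : Bool) : ∀ (n M : ℕ), n + 1 ≤ M → cnt M (xs e n) = some M := by
  intro n
  induction n with
  | zero => intro M _; rfl
  | succ n ih =>
    intro M h
    rw [xs_succ, cnt_app (ih M (by omega))]
    exact cnt_crs (by omega)

/-- the certificates, for all kinds of slices -/
theorem core (e : Bool) (κ : Kind) :
    EqD (κ.ins + 1) (xs e κ.ins ++ [(κ, 0)]) ([(κ, 1)] ++ xs e κ.outs) := by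
  cases κ with
  | cup => exact (c_natcup e).symm
  | cap => exact c_natcap e
  | crs f => exact c_natx e f

/-- one slice -/
theorem one (e : Bool) (κ : Kind) (i b : ℕ) :
    EqD (i + κ.ins + b + 1) (xs e (i + κ.ins + b) ++ [(κ, i)])
      ([(κ, i + 1)] ++ xs e (i + κ.outs + b)) := by
  have c1 : cnt (i + κ.ins) [(κ, i)] = some (i + κ.outs) := by
    rw [cnt_one (by omega)]
    exact congrArg some (by omega)
  have c2 : cnt (b + 1) (xs e b) = some (b + 1) := cnt_xs e b _ le_rfl
  have c3 : cnt (i + κ.ins + b + 1) (xs e (i + κ.ins)) = some (i + κ.ins + b + 1) :=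
    cnt_xs e _ _ (by omega)
  have c4 : cnt (i + κ.ins + b + 1) (xs e i) = some (i + κ.ins + b + 1) :=
    cnt_xs e _ _ (by omega)
  have c0 : cnt (i + κ.ins + b + 1) (xs e (i + κ.ins + b) ++ [(κ, i)]) ≠ none := by
    rw [cnt_app (cnt_xs e _ _ le_rfl), cnt_one (by omega)]
    simp
  -- the last part of the strand passes
  have h1 : EqD (i + κ.ins + b + 1) (sh (i + κ.ins) (xs e b) ++ [(κ, i)])
      ([(κ, i)] ++ sh (i + κ.outs) (xs e b)) :=
    (far_words [(κ, i)] (xs e b) (i + κ.ins) (i + κ.outs) (b + 1) c1 (by rw [c2]; simp)).symm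
  have e0 : xs e (i + κ.ins + b) ++ [(κ, i)] =
      xs e (i + κ.ins) ++ (sh (i + κ.ins) (xs e b) ++ [(κ, i)]) := by
    rw [xs_add, List.append_assoc]
  have s1 := h1.left (xs e (i + κ.ins)) c3
  have e1 : xs e (i + κ.ins) ++ ([(κ, i)] ++ sh (i + κ.outs) (xs e b)) =
      xs e i ++ sh i (xs e κ.ins ++ [(κ, 0)]) ++ sh (i + κ.outs) (xs e b) := by
    rw [xs_add]
    simp [sh_append]
  have f1 : cnt (i + κ.ins + b + 1)
      (xs e i ++ sh i (xs e κ.ins ++ [(κ, 0)]) ++ sh (i + κ.outs) (xs e b)) ≠ none := by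
    rw [← e1, ← s1.cnt_eq, ← e0]
    exact c0
  -- the middle part
  have h2 := ((core e κ).sh i).widen b
  rw [show κ.ins + 1 + i + b = i + κ.ins + b + 1 by omega] at h2
  have s2 := h2.ctx (xs e i) (sh (i + κ.outs) (xs e b)) c4 f1
  have e2 : xs e i ++ sh i ([(κ, 1)] ++ xs e κ.outs) ++ sh (i + κ.outs) (xs e b) =
      (xs e i ++ [(κ, i + 1)]) ++ (sh i (xs e κ.outs) ++ sh (i + κ.outs) (xs e b)) := by
    simp [add_comm]
  -- the first part
  have h3 : EqD (i + κ.ins + b + 1) (xs e i ++ [(κ, i + 1)]) ([(κ, i + 1)] ++ xs e i) := by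
    have := (far_words (xs e i) [(κ, 0)] (i + 1) (i + 1) κ.ins (cnt_xs e _ _ le_rfl)
      (by rw [cnt_one (by omega)]; simp)).widen b
    rw [show i + 1 + κ.ins + b = i + κ.ins + b + 1 by omega] at this
    simpa using this
  have s3 := h3.right (sh i (xs e κ.outs) ++ sh (i + κ.outs) (xs e b)) (by
    rw [← e2, ← s2.cnt_eq]
    exact f1)
  have e3 : ([(κ, i + 1)] ++ xs e i) ++ (sh i (xs e κ.outs) ++ sh (i + κ.outs) (xs e b)) =
      [(κ, i + 1)] ++ xs e (i + κ.outs + b) := by
    rw [xs_add e (i + κ.outs) b, xs_add e i κ.outs]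
    simp
  rw [e0]
  rw [e1] at s1
  rw [e2] at s2
  rw [e3] at s3
  exact (s1.trans s2).trans s3

end Pool.Agent.WD.NAT

namespace Pool.Agent.WD

open Pool.Agent.LibH11 Pool.Agent.LibH11.Sliced Pool.Agent.IT Pool.Agent.TwoBr

/-- **NAT**: a strand passes over (under) a diagram. -/
theorem t_NAT : NAT_Stmt := by
  intro e t
  induction t with
  | nil =>
    intro n m h
    simp only [cnt, Option.some.injEq] at h
    subst h
    simp only [List.append_nil, sh_nil, List.nil_append]
    exact EqD.refl _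
  | cons p t ih =>
    obtain ⟨κ, i⟩ := p
    intro n m h
    obtain ⟨h1, h2⟩ := cnt_cons_some h
    obtain ⟨b, rfl⟩ : ∃ b, n = i + κ.ins + b := ⟨n - (i + κ.ins), by omega⟩
    rw [show i + κ.ins + b - κ.ins + κ.outs = i + κ.outs + b by omega] at h2
    have h3 := NAT.one e κ i b
    have h4 := ih _ _ h2
    have c1 : cnt (i + κ.ins + b + 1) [(κ, i + 1)] = some (i + κ.outs + b + 1) := by
      rw [cnt_one (by omega)]
      exact congrArg some (by omega)
    have c2 : cnt (i + κ.ins + b + 1) (xs e (i + κ.ins + b) ++ [(κ, i)] ++ t) ≠ none := by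
      have h5 := cnt_widen 1 _ _ _ h
      rw [List.append_assoc, cnt_app (NAT.cnt_xs e _ _ le_rfl)]
      rw [List.singleton_append, h5]
      simp
    have s1 := h3.right t c2
    have s2 := h4.left [(κ, i + 1)] c1
    simp only [List.append_assoc, List.cons_append, List.nil_append,
      sh_cons] at s1 s2 ⊢
    exact s1.trans s2

end Pool.Agent.WD
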