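import Pool.Agent.WD.StT

/-!
# PRT: at least one of two different arcs has its other end elsewhere
-/

set_option autoImplicit false

namespace Pool.Agent.WD

open Pool.Agent.LibH11 Pool.Agent.LibH11.Sliced Pool.Agent.IT Pool.Agent.TwoBr

namespace PRT

/-- all arcs but one have two ends on the level -/
def Inv (s : State) : Prop :=
  ∃ m0 : ℕ, ∀ i < s.1, s.2.1 i ≠ m0 → ∃ j < s.1, j ≠ i ∧ s.2.1 j = s.2.1 i

lemma inv_step (p : Kind × ℕ) (s t : State) (hs : Inv s) (h : step p s = some t) : Inv t := by
  obtain ⟨κ, k⟩ := p
  obtain ⟨n, lab, c⟩ := s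
  obtain ⟨m0, hm⟩ := hs
  simp only at hm
  cases κ with
  | cup =>
    simp only [step] at h
    split_ifs at h with h1
    simp only [Option.some.injEq] at h
    subst h
    refine ⟨m0, fun i hi him => ?_⟩
    simp only at hi him ⊢
    rcases Nat.lt_trichotomy i k with hik | hik | hik
    · rw [if_pos hik] at him ⊢
      obtain ⟨j, hj, hji, hjl⟩ := hm i (by omega) him
      by_cases hjk : j < k
      · exact ⟨j, by omega, hji, by rw [if_pos hjk, hjl]⟩
      · refine ⟨j + 2, by omega, by omega, ?_⟩
        rw [if_neg (by omega), if_neg (by omega), Nat.add_sub_cancel, hjl]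
    · refine ⟨k + 1, by omega, by omega, ?_⟩
      rw [if_neg (by omega), if_pos (by omega), if_neg (by omega), if_pos (by omega)]
    · by_cases hik2 : i = k + 1
      · refine ⟨k, by omega, by omega, ?_⟩
        rw [if_neg (by omega), if_pos (by omega), if_neg (by omega), if_pos (by omega)]
      · rw [if_neg (by omega), if_neg (by omega)] at him
        rw [if_neg (by omega), if_neg (by omega)]
        obtain ⟨j, hj, hji, hjl⟩ := hm (i - 2) (by omega) him
        by_cases hjk : j < k
        · exact ⟨j, by omega, by omega, by rw [if_pos hjk, hjl]⟩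
        · refine ⟨j + 2, by omega, by omega, ?_⟩
          rw [if_neg (by omega), if_neg (by omega), Nat.add_sub_cancel, hjl]
  | cap =>
    simp only [step] at h
    split_ifs at h with h1
    obtain ⟨h1, h2⟩ := h1
    simp only [Option.some.injEq] at h
    subst h
    -- every old position different from `k`, `k + 1` comes from a new one
    have hold : ∀ j' < n, j' ≠ k → j' ≠ k + 1 → ∃ j < n - 2, (if j < k then j else j + 2) = j' := by
      intro j' hj' h3 h4
      by_cases h5 : j' < k
      · exact ⟨j', by omega, by rw [if_pos h5]⟩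
      · exact ⟨j' - 2, by omega, by rw [if_neg (by omega)]; omega⟩
    refine ⟨if m0 = lab k ∨ m0 = lab (k + 1) then lab k else m0, fun i hi him => ?_⟩
    simp only at hi him ⊢
    obtain ⟨i', hi'⟩ : ∃ i', i' = if i < k then i else i + 2 := ⟨_, rfl⟩
    have hi1 : i' < n ∧ i' ≠ k ∧ i' ≠ k + 1 := by
      rw [hi']
      split_ifs <;> omega
    rw [← hi'] at him ⊢
    -- from an old partner to a new one
    have hnew : ∀ j' < n, j' ≠ k → j' ≠ k + 1 → j' ≠ i' →
        (if lab j' = lab (k + 1) then lab k else lab j') =
          (if lab i' = lab (k + 1) then lab k else lab i') →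
        ∃ j < n - 2, j ≠ i ∧ (if lab (if j < k then j else j + 2) = lab (k + 1) then lab k
          else lab (if j < k then j else j + 2)) =
            (if lab i' = lab (k + 1) then lab k else lab i') := by
      intro j' hj' h3 h4 h5 h6
      obtain ⟨j, hj, hjj⟩ := hold j' hj' h3 h4
      refine ⟨j, hj, ?_, ?_⟩
      · rintro rfl
        exact h5 (by rw [← hjj, hi'])
      · rw [hjj]
        exact h6
    by_cases hb : lab i' = lab (k + 1)
    · rw [if_pos hb] at him hnew ⊢
      have hm0 : ¬ (m0 = lab k ∨ m0 = lab (k + 1)) := by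
        intro h3
        rw [if_pos h3] at him
        exact him rfl
      push Not at hm0
      obtain ⟨j, hj, hji, hjl⟩ := hm k (by omega) (fun h3 => hm0.1 h3.symm)
      refine hnew j hj hji (fun h3 => h2 ?_) (fun h3 => h2 ?_) ?_
      · rw [← hjl, h3]
      · rw [← hjl, h3, hb]
      · rw [hjl, if_neg h2]
    · rw [if_neg hb] at him hnew ⊢
      by_cases ha : lab i' = lab k
      · have hm0 : ¬ (m0 = lab k ∨ m0 = lab (k + 1)) := by
          intro h3
          rw [if_pos h3] at him
          exact him ha
        push Not at hm0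
        obtain ⟨j, hj, hji, hjl⟩ := hm (k + 1) (by omega) (fun h3 => hm0.2 h3.symm)
        refine hnew j hj (fun h3 => h2 ?_) hji (fun h3 => hb ?_) ?_
        · rw [← hjl, h3]
        · rw [← h3, hjl]
        · rw [if_pos hjl, ha]
      · have hne : lab i' ≠ m0 := by
          by_cases h3 : m0 = lab k ∨ m0 = lab (k + 1)
          · rcases h3 with h3 | h3
            · rw [h3]; exact ha
            · rw [h3]; exact hb
          · rwa [if_neg h3] at him
        obtain ⟨j, hj, hji, hjl⟩ := hm i' hi1.1 hne
        refine hnew j hj (fun h3 => ha ?_) (fun h3 => hb ?_) hji ?_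
        · rw [← hjl, h3]
        · rw [← hjl, h3]
        · rw [hjl, if_neg hb]
  | crs f =>
    simp only [step] at h
    split_ifs at h with h1
    simp only [Option.some.injEq] at h
    subst h
    have hsw : ∀ i < n, Equiv.swap k (k + 1) i < n := by
      intro i hi
      rw [Equiv.swap_apply_def]
      split_ifs <;> omega
    refine ⟨m0, fun i hi him => ?_⟩
    simp only at hi him ⊢
    obtain ⟨j, hj, hji, hjl⟩ := hm _ (hsw i hi) him
    refine ⟨Equiv.swap k (k + 1) j, hsw j hj, fun h3 => hji ?_, ?_⟩
    · rw [← h3, Equiv.swap_apply_self]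
    · rw [Equiv.swap_apply_self, hjl]

lemma inv_run : ∀ (w : Diag) (s t : State), Inv s → run w s = some t → Inv t := by
  intro w
  induction w with
  | nil =>
    intro s t hs h
    simp only [run, Option.some.injEq] at h
    rw [← h]
    exact hs
  | cons p w ih =>
    intro s t hs h
    simp only [run] at h
    cases h1 : step p s with
    | none => rw [h1] at h; simp at h
    | some s' =>
      rw [h1, Option.bind_some] at h
      exact ih s' t (inv_step p s s' hs h1) h

lemma inv_start : Inv start := ⟨0, fun _ _ h => absurd rfl h⟩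

end PRT

theorem t_PRT : PRT_Stmt := by
  intro u n lab c hrun k hk hne
  obtain ⟨m0, hm⟩ := PRT.inv_run u start (n, lab, c) PRT.inv_start hrun
  simp only at hm
  by_cases h1 : lab k = m0
  · obtain ⟨j, hj, hji, hjl⟩ := hm (k + 1) (by omega) (fun h2 => hne (h1.trans h2.symm))
    exact ⟨j, hj, fun h3 => hne (by rw [← hjl, h3]), hji, Or.inr hjl⟩
  · obtain ⟨j, hj, hji, hjl⟩ := hm k (by omega) h1
    exact ⟨j, hj, hji, fun h3 => hne (by rw [← hjl, h3]), Or.inl hjl⟩

end Pool.Agent.WD
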