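import Pool.Agent.WD.StT

/-!
# In a long knot a half twist can be moved to the top (module SLD of WD, MP_31fd3b_gt)
-/

set_option autoImplicit false

namespace Pool.Agent.WD

open Pool.Agent.LibH11 Pool.Agent.LibH11.Sliced Pool.Agent.IT Pool.Agent.TwoBr

namespace SLDx

theorem cnt_ht {N i : ℕ} (e : Bool) (h : i < N) : cnt (2 * N) (ht e i) = some (2 * N) :=
  cnt_crs (by omega)

end SLDx

open SLDx

theorem t_SLD (h1 : HTP_Stmt) (h2 : LAB_Stmt) (h3 : PRT_Stmt) : SLD_Stmt := by
  intro e u v
  induction v generalizing u with
  | nil =>
    intro hl n hn i hi
    obtain ⟨lab, c, hr⟩ := hl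
    have hc := run_cnt _ _ _ hr
    rw [List.append_nil] at hc
    have e1 : n = 1 := by
      rw [hn] at hc
      simpa using hc
    have e2 : i = 0 := by omega
    rw [e2, para_nil, List.append_nil, List.append_nil]
    exact EqD.refl _
  | cons p v ih =>
    obtain ⟨κ, k⟩ := p
    intro hl n hn i hi
    have hl' : IsLongKnot ((u ++ [(κ, k)]) ++ v) := by
      rw [List.append_assoc, List.singleton_append]
      exact hl
    obtain ⟨lab1, c1, hr⟩ := hl
    have hc : cnt 1 (u ++ (κ, k) :: v) = some 1 := run_cnt _ _ _ hr
    have hc1 : cnt n ((κ, k) :: v) = some 1 := by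
      rw [cnt_app hn] at hc
      exact hc
    obtain ⟨hk, hc2⟩ := cnt_cons_some hc1
    have hn' : cnt 1 (u ++ [(κ, k)]) = some (n - κ.ins + κ.outs) := by
      rw [cnt_app hn]
      simp only [cnt]
      rw [if_pos hk]
    have hpu : cnt 2 (para u) = some (2 * n) := cnt_para u 1 n hn
    have hpv : cnt (2 * (n - κ.ins + κ.outs)) (para v) = some 2 := cnt_para v _ 1 hc2
    have ok : ∀ i < n, cnt 2 (para u ++ (ht e i ++ par2 (κ, k)) ++ para v) ≠ none := by
      intro i hi
      rw [List.append_assoc, cnt_app hpu, List.append_assoc, cnt_app (cnt_ht e hi),
        cnt_app (cnt_par2 hk), hpv]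
      simp
    have as1 : ∀ i, para u ++ ht e i ++ para ((κ, k) :: v) =
        para u ++ (ht e i ++ par2 (κ, k)) ++ para v := by
      intro i
      rw [para_cons]
      simp only [List.append_assoc]
    -- the slice is passed
    have key : ∀ i i' : ℕ, i < n → i' < n - κ.ins + κ.outs →
        EqD (2 * n) (ht e i ++ par2 (κ, k)) (par2 (κ, k) ++ ht e i') →
        EqD 2 (para u ++ ht e i ++ para ((κ, k) :: v)) (para u ++ para ((κ, k) :: v) ++ ht e 0) := by
      intro i i' hi hi' hE
      have a1 := hE.ctx (para u) (para v) hpu (ok i hi)
      have a2 := ih (u ++ [(κ, k)]) hl' _ hn' i' hi'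
      rw [as1]
      refine a1.trans ?_
      have e1 : para u ++ (par2 (κ, k) ++ ht e i') ++ para v =
          para (u ++ [(κ, k)]) ++ ht e i' ++ para v := by
        rw [para_append, para_cons, para_nil, List.append_nil]
        simp only [List.append_assoc]
      have e2 : para u ++ para ((κ, k) :: v) ++ ht e 0 =
          para (u ++ [(κ, k)]) ++ para v ++ ht e 0 := by
        rw [para_append, para_cons, para_cons, para_nil, List.append_nil]
        simp only [List.append_assoc]
      rw [e1, e2]
      exact a2
    have H := h1 e n κ k hk
    have away : ∀ i < n, (i < k ∨ k + κ.ins ≤ i) →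
        EqD 2 (para u ++ ht e i ++ para ((κ, k) :: v)) (para u ++ para ((κ, k) :: v) ++ ht e 0) := by
      intro i hi h
      rcases h with h | h
      · exact key i i hi (by omega) (H.1 i h)
      · exact key i (i - κ.ins + κ.outs) hi (by omega) (H.2.1 i hi h)
    by_cases ha : i < k ∨ k + κ.ins ≤ i
    · exact away i hi ha
    · cases κ with
      | cup => simp only [Kind.ins] at ha; omega
      | crs f =>
        simp only [Kind.ins, Kind.outs] at ha hk key
        have H3 := H.2.2.1 f rfl
        have hi3 : i = k ∨ i = k + 1 := by omega
        rcases hi3 with rfl | rfl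
        · exact key i (i + 1) hi (by omega) H3.1
        · exact key (k + 1) k hi (by omega) H3.2
      | cap =>
        have hk2 : k + 2 ≤ n := hk
        have H4 := H.2.2.2.1 rfl
        -- the state before the maximum
        rw [run_append] at hr
        cases hu : run u (1, fun _ => 0, 1) with
        | none => rw [hu] at hr; simp at hr
        | some s =>
          obtain ⟨n0, lab, c⟩ := s
          rw [hu] at hr
          have e0 : n0 = n := by
            have h5 : cnt 1 u = some n0 := run_cnt _ _ _ hu
            rw [hn] at h5
            simpa using h5.symm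
          subst e0
          simp only [Option.bind_some, run, step] at hr
          split_ifs at hr with hs
          · have hne : lab k ≠ lab (k + 1) := hs.2
            obtain ⟨j, hj, hj1, hj2, hj3⟩ := h3 u n0 lab c hu k hk2 hne
            have hjj := away j hj (by simp only [Kind.ins]; omega)
            -- from k or k + 1 to j
            have step1 : ∀ m, m < n0 → lab j = lab m →
                EqD 2 (para u ++ ht e m ++ para ((.cap, k) :: v))
                  (para u ++ para ((.cap, k) :: v) ++ ht e 0) := by
              intro m hm hjm
              have a1 := h2 e u n0 lab c hu m j hm hj hjm.symm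
              refine EqD.trans (a1.right _ ?_) hjj
              rw [as1]
              exact ok m hm
            have step2 : EqD 2 (para u ++ ht e k ++ para ((.cap, k) :: v))
                (para u ++ ht e (k + 1) ++ para ((.cap, k) :: v)) := by
              rw [as1, as1]
              exact H4.ctx (para u) (para v) hpu (ok k (by omega))
            have hi3 : i = k ∨ i = k + 1 := by simp only [Kind.ins] at ha; omega
            rcases hj3 with hj3 | hj3
            · have a3 := step1 k (by omega) hj3
              rcases hi3 with rfl | rfl
              · exact a3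
              · exact step2.symm.trans a3
            · have a3 := step1 (k + 1) (by omega) hj3
              rcases hi3 with rfl | rfl
              · exact step2.trans a3
              · exact a3
          · simp at hr

end Pool.Agent.WD
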