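import Pool.Agent.WD.StT

/-!
# Module SQR: the square of the first letter moves around the closure
-/

set_option autoImplicit false

namespace Pool.Agent.WD

open Pool.Agent.LibH11 Pool.Agent.LibH11.Sliced Pool.Agent.IT Pool.Agent.TwoBr

namespace SQR

/-- minima without the first strand -/
def cups' (k : ℕ) : Diag := (List.range k).map fun j => (Kind.cup, j)

/-- maxima without the first strand -/
def caps' (k : ℕ) : Diag := (List.range k).reverse.map fun j => (Kind.cap, j)

theorem cups_eq (k : ℕ) : cups k = sh 1 (cups' k) := by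
  simp [cups, cups', sh, Function.comp_def]

theorem caps_eq (k : ℕ) : caps k = sh 1 (caps' k) := by
  simp [caps, caps', sh, Function.comp_def]

theorem cups_two (k : ℕ) : sh 1 (cups k) = sh 2 (cups' k) := by
  rw [cups_eq, sh_sh]

theorem caps_two (k : ℕ) : sh 1 (caps k) = sh 2 (caps' k) := by
  rw [caps_eq, sh_sh]

theorem cnt_cups' (k : ℕ) : cnt 1 (cups' k) ≠ none := by
  intro h
  have h1 := cnt_sh 1 (cups' k) 1
  rw [← cups_eq, cnt_cups k 1, h] at h1
  exact absurd h1 (by simp)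

theorem cnt_caps' (k : ℕ) : cnt (2 * k + 1) (caps' k) ≠ none := by
  intro h
  have h1 := cnt_sh 1 (caps' k) (2 * k + 1)
  rw [← caps_eq, cnt_caps k 1, h] at h1
  exact absurd h1 (by simp)

theorem cnt_sq (e : Bool) : cnt 2 [(.crs e, 0), (.crs e, 0)] = some 2 := rfl

theorem cups_comm (e : Bool) (k : ℕ) :
    EqD 3 (sh 1 (cups k) ++ [(.crs e, 0), (.crs e, 0)])
      ([(.crs e, 0), (.crs e, 0)] ++ sh 1 (cups k)) := by
  have h := far_words [(.crs e, 0), (.crs e, 0)] (cups' k) 2 2 1 (cnt_sq e) (cnt_cups' k)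
  rw [← cups_two] at h
  exact h.symm

theorem caps_comm (e : Bool) (k : ℕ) :
    EqD (2 * k + 3) ([(.crs e, 0), (.crs e, 0)] ++ sh 1 (caps k))
      (sh 1 (caps k) ++ [(.crs e, 0), (.crs e, 0)]) := by
  have h := far_words [(.crs e, 0), (.crs e, 0)] (caps' k) 2 2 (2 * k + 1) (cnt_sq e)
    (cnt_caps' k)
  rw [← caps_two, show 2 + (2 * k + 1) = 2 * k + 3 by omega] at h
  exact h

theorem cl_two (k : ℕ) (w : Word) :
    cl (k + 1) w = (.cup, 1) :: (sh 1 (cups k) ++ braidWord w ++ sh 1 (caps k) ++ [(.cap, 1)]) := by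
  unfold cl
  rw [cups_cons, caps_snoc]
  simp

end SQR

open SQR in
theorem t_SQR (h1 : HOOK_Stmt) : SQR_Stmt := by
  intro n e w hn hw
  obtain ⟨k, rfl⟩ : ∃ k, n = k + 1 := ⟨n - 1, by omega⟩
  have h0 : ∀ x ∈ ([(0, e), (0, e)] : Word), x.1 < k + 1 := by
    intro x hx
    simp only [List.mem_cons, List.not_mem_nil, or_false] at hx
    rcases hx with rfl | rfl <;> exact Nat.succ_pos k
  have hL : Bd (k + 1) ((0, e) :: (0, e) :: w) := by
    intro x hx
    rcases List.mem_cons.1 hx with rfl | hx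
    · exact Nat.succ_pos k
    rcases List.mem_cons.1 hx with rfl | hx
    · exact Nat.succ_pos k
    exact hw x hx
  have hR : Bd (k + 1) (w ++ [(0, e), (0, e)]) := by
    intro x hx
    rcases List.mem_append.1 hx with hx | hx
    · exact hw x hx
    · exact h0 x hx
  have cL := cnt_cl hL 0
  have cR := cnt_cl hR 0
  -- the diagram between
  have ht : cnt 2 (sh 1 (cups k) ++ braidWord w ++ sh 1 (caps k)) = some 2 := by
    rw [List.append_assoc, cnt_app (M := 2 * k + 2), cnt_app (M := 2 * k + 2)]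
    · have h := cnt_sh 1 (caps k) (2 * k + 1 + 0)
      rw [cnt_caps k 0] at h
      exact h
    · exact cnt_bwd hw (by omega)
    · have h := cnt_sh 1 (cups k) (1 + 0)
      rw [cnt_cups k 0] at h
      exact h
  have hH := h1 e _ ht
  -- below
  have hA : EqD 1 (cl (k + 1) ((0, e) :: (0, e) :: w))
      ((.cup, 1) :: (.crs e, 0) :: (.crs e, 0) ::
        (sh 1 (cups k) ++ braidWord w ++ sh 1 (caps k) ++ [(.cap, 1)])) := by
    have h := (cups_comm e k).ctx (N := 1) [(.cup, 1)]
      (braidWord w ++ sh 1 (caps k) ++ [(.cap, 1)]) rfl (by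
        rw [cl_two] at cL
        have e1 : [(Kind.cup, 1)] ++ (sh 1 (cups k) ++ [(.crs e, 0), (.crs e, 0)]) ++
            (braidWord w ++ sh 1 (caps k) ++ [(.cap, 1)]) = (.cup, 1) :: (sh 1 (cups k) ++
            braidWord ((0, e) :: (0, e) :: w) ++ sh 1 (caps k) ++ [(.cap, 1)]) := by
          simp [braidWord_cons]
        rw [e1, show (1 : ℕ) = 1 + 0 from rfl, cL]
        simp)
    rw [cl_two]
    have e1 : [(Kind.cup, 1)] ++ (sh 1 (cups k) ++ [(.crs e, 0), (.crs e, 0)]) ++
        (braidWord w ++ sh 1 (caps k) ++ [(.cap, 1)]) = (.cup, 1) :: (sh 1 (cups k) ++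
        braidWord ((0, e) :: (0, e) :: w) ++ sh 1 (caps k) ++ [(.cap, 1)]) := by
      simp [braidWord_cons]
    have e2 : [(Kind.cup, 1)] ++ ([(.crs e, 0), (.crs e, 0)] ++ sh 1 (cups k)) ++
        (braidWord w ++ sh 1 (caps k) ++ [(.cap, 1)]) = (.cup, 1) :: (.crs e, 0) :: (.crs e, 0) ::
        (sh 1 (cups k) ++ braidWord w ++ sh 1 (caps k) ++ [(.cap, 1)]) := by
      simp
    rw [e1, e2] at h
    exact h
  -- above
  have hB : EqD 1 (cl (k + 1) (w ++ [(0, e), (0, e)]))
      ((.cup, 1) :: (sh 1 (cups k) ++ braidWord w ++ sh 1 (caps k) ++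
        [(.crs e, 0), (.crs e, 0), (.cap, 1)])) := by
    have e1 : [(Kind.cup, 1)] ++ sh 1 (cups k) ++ braidWord w ++ ([(.crs e, 0), (.crs e, 0)] ++
        sh 1 (caps k)) ++ [(.cap, 1)] = (.cup, 1) :: (sh 1 (cups k) ++
        braidWord (w ++ [(0, e), (0, e)]) ++ sh 1 (caps k) ++ [(.cap, 1)]) := by
      simp [braidWord_cons, braidWord_append, braidWord_nil]
    have e2 : [(Kind.cup, 1)] ++ sh 1 (cups k) ++ braidWord w ++ (sh 1 (caps k) ++
        [(.crs e, 0), (.crs e, 0)]) ++ [(.cap, 1)] = (.cup, 1) :: (sh 1 (cups k) ++ braidWord w ++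
        sh 1 (caps k) ++ [(.crs e, 0), (.crs e, 0), (.cap, 1)]) := by
      simp
    have h := (caps_comm e k).ctx (N := 1) ([(.cup, 1)] ++ sh 1 (cups k) ++ braidWord w)
      [(.cap, 1)] (by
        rw [List.append_assoc, cnt_app (M := 3) rfl, cnt_app (M := 2 * k + 3)]
        · exact cnt_bwd hw (by omega)
        · have h := cnt_sh 1 (cups k) (1 + 1)
          rw [cnt_cups k 1] at h
          exact h) (by
        rw [cl_two] at cR
        rw [e1, show (1 : ℕ) = 1 + 0 from rfl, cR]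
        simp)
    rw [cl_two]
    rw [e1, e2] at h
    exact h
  exact (hA.trans hH).trans hB.symm

end Pool.Agent.WD
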