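import Pool.Agent.WD.StT

/-!
# WD, module STB: stabilisation
-/

set_option autoImplicit false

namespace Pool.Agent.WD

open Pool.Agent.LibH11 Pool.Agent.LibH11.Sliced Pool.Agent.IT Pool.Agent.TwoBr

theorem t_STB : STB_Stmt := by
  intro n e w hw
  have hb : cnt (2 * n + 1) (braidWord w) = some (2 * n + 1) := cnt_bwd hw (by omega)
  have hc : cnt 1 (cups n) = some (2 * n + 1) := cnt_cups n 0
  have h1 : EqD (2 * n + 1) ([(Kind.cup, n + 1)] ++ braidWord w)
      (braidWord w ++ [(Kind.cup, n + 1)]) := by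
    have h := far_words (braidWord w) [(Kind.cup, 0)] (n + 1) (n + 1) n (cnt_bwd hw le_rfl)
      (by simp [cnt, Kind.ins])
    have e1 : n + 1 + n = 2 * n + 1 := by omega
    have es : sh (n + 1) [(Kind.cup, 0)] = [(Kind.cup, n + 1)] := by simp [sh]
    rw [e1, es] at h
    exact h.symm
  have h2 : EqD (2 * n + 1) [(Kind.cup, n + 1), (Kind.crs e, n), (Kind.cap, n + 1)] [] := by
    have h := ((c_stb e).sh n).widen n
    have e1 : 1 + n + n = 2 * n + 1 := by omega
    have es : sh n [(Kind.cup, 1), (Kind.crs e, 0), (Kind.cap, 1)] =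
        [(Kind.cup, n + 1), (Kind.crs e, n), (Kind.cap, n + 1)] := by
      simp [sh]
      omega
    have es' : sh n ([] : Diag) = [] := by simp [sh]
    rw [e1, es, es'] at h
    exact h
  have hw' : Bd (n + 1) (w ++ [(n, e)]) := by
    intro x hx
    rcases List.mem_append.1 hx with h | h
    · exact Nat.lt_succ_of_lt (hw x h)
    · rw [List.mem_singleton.1 h]
      exact Nat.lt_succ_self n
  have hcl : cnt 1 (cl (n + 1) (w ++ [(n, e)])) = some 1 := cnt_cl hw' 0
  have e1 : cl (n + 1) (w ++ [(n, e)]) = cups n ++ ([(Kind.cup, n + 1)] ++ braidWord w) ++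
      ([(Kind.crs e, n), (Kind.cap, n + 1)] ++ caps n) := by
    unfold cl
    rw [cups_succ, caps_succ, braidWord_append, braidWord_cons, braidWord_nil]
    simp only [List.append_assoc, List.cons_append, List.nil_append]
  have e2 : cups n ++ (braidWord w ++ [(Kind.cup, n + 1)]) ++
      ([(Kind.crs e, n), (Kind.cap, n + 1)] ++ caps n) =
      (cups n ++ braidWord w) ++ [(Kind.cup, n + 1), (Kind.crs e, n), (Kind.cap, n + 1)] ++
        caps n := by
    simp only [List.append_assoc, List.cons_append, List.nil_append]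
  have e3 : (cups n ++ braidWord w) ++ [] ++ caps n = cl n w := by
    rw [List.append_nil]
    rfl
  have s1 : EqD 1 (cl (n + 1) (w ++ [(n, e)])) (cups n ++ (braidWord w ++ [(Kind.cup, n + 1)]) ++
      ([(Kind.crs e, n), (Kind.cap, n + 1)] ++ caps n)) := by
    rw [e1]
    refine h1.ctx _ _ hc ?_
    rw [← e1, hcl]
    simp
  have s2 := s1.cnt_eq
  rw [e2] at s1 s2
  refine s1.trans ?_
  rw [← e3]
  refine h2.ctx _ _ (by rw [cnt_app hc]; exact hb) ?_
  rw [← s2, hcl]
  simp

end Pool.Agent.WD
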