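import Pool.Agent.WD.QAll
import Pool.Agent.WD.Main
import Pool.Agent.WD.LONG
import Pool.Agent.WD.NAT
import Pool.Agent.WD.SLC
import Pool.Agent.WD.STB
import Pool.Agent.WD.HOOK
import Pool.Agent.WD.SQR
import Pool.Agent.WD.FIX
import Pool.Agent.WD.CNJ
import Pool.Agent.WD.MRK
import Pool.Agent.WD.LKC
import Pool.Agent.WD.DBM
import Pool.Agent.WD.HTP
import Pool.Agent.WD.LAB
import Pool.Agent.WD.PRT
import Pool.Agent.WD.SLD
import Pool.Agent.WD.DBE
import Pool.Agent.WD.LKD

/-!
Finite type invariants separate all graph knots and all their twisted Whitehead doubles: all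
modules together.
-/

set_option autoImplicit false

namespace Pool.Agent.WD

open Pool.Agent.LibH11 Pool.Agent.IT Pool.Agent.GK Pool.Agent.TwoBr
open Pool.Agent.LibH11.Sliced (Diag Kind cnt IsLongKnot ofDiag braidWord)

theorem mrk_all : MRK_Stmt := t_MRK (t_CNJ t_SLC (t_SQR (t_HOOK t_NAT)) t_FIX) t_STB

theorem dbe_all : DBE_Stmt := t_DBE t_DBM (t_SLD t_HTP (t_LAB t_HTP) t_PRT)

/-- Finite type invariants with values in any nontrivial abelian group separate all graph knots and
all their twisted Whitehead doubles. -/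
theorem main_thm (A : Type*) [AddCommGroup A] [Nontrivial A] (K K' : SKnot)
    (hK : IsGraphOrDouble K) (hK' : IsGraphOrDouble K')
    (h : ∀ v : SKnot → A, Sliced.IsFiniteType v → v K = v K') : K = K' :=
  main_int s1_all s2_all s3_all s4_all mrk_all dbe_all t_LKC K K' hK hK' (same0_of A h)

theorem long_all (n : ℕ) (w : Word) (hw : ∀ x ∈ w, x.1 < n) (h : LibH11.IsKnot (ev n w)) :
    IsLongKnot (cl n w) ∧ ∀ (e : Bool) (m : ℤ), IsLongKnot (double e m (cl n w)) :=
  t_LONG t_LKC t_LKD n w hw h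

theorem cl_all (n n' : ℕ) (w w' : Word) (hw : ∀ x ∈ w, x.1 < n) (hw' : ∀ x ∈ w', x.1 < n')
    (h : LibH11.IsKnot (ev n w)) (h' : LibH11.IsKnot (ev n' w'))
    (hc : closure (ev n w) h = closure (ev n' w') h') (hl : IsLongKnot (cl n w))
    (hl' : IsLongKnot (cl n' w')) : ofDiag (cl n w) hl = ofDiag (cl n' w') hl' :=
  (mrk_all n n' w w' hw hw' h h' hc).knot hl

end Pool.Agent.WD
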