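import Pool.Agent.WD.StA

/-!
# GAB: every graph knot has a series and the numbers `A`, `B`
-/

namespace Pool.Agent.WD

open Pool.Agent.LibH11 Pool.Agent.IT Pool.Agent.GK
open scoped BigOperators
open PowerSeries

theorem t_GAB (hU : SERU_Stmt) (hC : SERC_Stmt) (hS : SERS_Stmt) (aU : HABU_Stmt)
    (aC : HABC_Stmt) (aS : HABS_Stmt) (qC : QCAB_Stmt) (qS : QSUM_Stmt) : GAB_Stmt := by
  intro M cb v hO hV K hK
  induction hK with
  | unknot => exact ⟨fu, 0, 0, hU M cb v hV, aU, Or.inl ⟨rfl, rfl, rfl⟩⟩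
  | cable n w h p q h' hb hp hg hK ih =>
    obtain ⟨G, A, B', hG, hA, hQ⟩ := ih
    rw [← hO.cab n w h p q h' hb hp hg]
    by_cases hq : q = 0
    · subst hq
      have hp1 : p = 1 := by
        simpa using hg
      subst hp1
      rw [hO.cab_one]
      exact ⟨G, A, B', hG, hA, hQ⟩
    · obtain ⟨G', hG', hF⟩ := hC M cb v hV _ G p q hG hp hq hg
      exact ⟨G', _, _, hG', aC p q G G' A B' hp hq hG'.1 hF hA,
        qC M cb hO p q _ A B' hp hq hg hQ⟩
  | sum n m u w hu hw h hbu hbw _ _ ih1 ih2 =>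
    obtain ⟨G, A, B', hG, hA, hQ⟩ := ih1
    obtain ⟨G', A', B'', hG', hA', hQ'⟩ := ih2
    rw [← hO.sum n m u w hu hw h hbu hbw]
    obtain ⟨G'', hG'', hF⟩ := hS M cb v hV _ _ G G' hG hG'
    exact ⟨G'', _, _, hG'', aS G G' G'' A B' A' B'' hG''.1 hF hA hA',
      qS M cb hO _ _ A B' A' B'' hQ hQ'⟩

end Pool.Agent.WD
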