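import Pool.Agent.WD.StQ

/-!
# Whitehead doubles of graph knots: change of the basis vectors
-/

set_option autoImplicit false

namespace Pool.Agent.WD

open Pool.Agent.LibH11 Pool.Agent.IT Pool.Agent.GK Pool.Agent.TwoBr
open Pool.Agent.LibH11.Sliced (Diag Kind cnt IsLongKnot ofDiag braidWord)
open scoped BigOperators
open PowerSeries

namespace GAUAux

variable {A : Type} [CommRing A] {ι : Type} [Fintype ι]

lemma prod_one {g g' : ι → A} (h : ∀ u, g u * g' u = 1) (l : List ι) :
    (l.map g').prod * (l.map g).prod = 1 := by
  induction l with
  | nil => simp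
  | cons x l ih =>
    rw [List.map_cons, List.map_cons, List.prod_cons, List.prod_cons]
    calc g' x * (l.map g').prod * (g x * (l.map g).prod)
        = (g x * g' x) * ((l.map g').prod * (l.map g).prod) := by ring
      _ = 1 := by rw [h, ih, one_mul]

lemma loc_gau (M : Mats A ι) {g g' : ι → A} (h : ∀ u, g u * g' u = 1) (k : Kind)
    (V : List ι → A) (l : List ι) :
    (gau M g g').loc k (fun l' => (l'.map g').prod * V l') l = (l.map g').prod * M.loc k V l := by
  cases k with
  | cup =>
    simp only [Mats.loc, gau, Finset.mul_sum, List.map_cons, List.prod_cons]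
    refine Finset.sum_congr rfl fun a _ => Finset.sum_congr rfl fun b _ => ?_
    calc g a * g b * M.cup a b * (g' a * (g' b * (l.map g').prod) * V (a :: b :: l))
        = (g a * g' a) * (g b * g' b) *
          ((l.map g').prod * (M.cup a b * V (a :: b :: l))) := by ring
      _ = _ := by rw [h, h, one_mul, one_mul]
  | cap =>
    match l with
    | [] => simp [Mats.loc]
    | [_] => simp [Mats.loc]
    | x :: y :: l =>
      simp only [Mats.loc, gau, List.map_cons, List.prod_cons]
      ring
  | crs e =>
    match l with
    | [] => simp [Mats.loc]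
    | [_] => simp [Mats.loc]
    | x :: y :: l =>
      simp only [Mats.loc, gau, Finset.mul_sum, List.map_cons, List.prod_cons]
      refine Finset.sum_congr rfl fun c _ => Finset.sum_congr rfl fun d _ => ?_
      calc g' x * g' y * (g c * g d) * M.X e x y c d *
            (g' c * (g' d * (l.map g').prod) * V (c :: d :: l))
          = (g c * g' c) * (g d * g' d) *
            (g' x * (g' y * (l.map g').prod) * (M.X e x y c d * V (c :: d :: l))) := by ring
        _ = _ := by rw [h, h, one_mul, one_mul]

lemma act_gau (M : Mats A ι) {g g' : ι → A} (h : ∀ u, g u * g' u = 1) (k : Kind) :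
    ∀ (i : ℕ) (V : List ι → A) (l : List ι),
    (gau M g g').act k i (fun l' => (l'.map g').prod * V l') l =
      (l.map g').prod * M.act k i V l := by
  intro i
  induction i with
  | zero =>
    intro V l
    exact loc_gau M h k V l
  | succ i ih =>
    intro V l
    match l with
    | [] => simp [Mats.act]
    | x :: l =>
      simp only [Mats.act, List.map_cons, List.prod_cons]
      have h1 : (fun l' : List ι => g' x * (l'.map g').prod * V (x :: l')) =
          fun l' => (l'.map g').prod * (fun l'' => g' x * V (x :: l'')) l' := by
        funext l'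
        ring
      rw [h1, ih, M.act_mul]
      ring

lemma val_gau (M : Mats A ι) {g g' : ι → A} (h : ∀ u, g u * g' u = 1) (D : Diag)
    (F : List ι → A) : ∀ l : List ι, (gau M g g').val D F l =
      (l.map g').prod * M.val D (fun l' => (l'.map g).prod * F l') l := by
  induction D with
  | nil =>
    intro l
    show F l = (l.map g').prod * ((l.map g).prod * F l)
    rw [← mul_assoc, prod_one h, one_mul]
  | cons p w ih =>
    obtain ⟨k, i⟩ := p
    intro l
    show (gau M g g').act k i ((gau M g g').val w F) l = _
    have h1 : (gau M g g').val w F =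
        fun l' => (l'.map g').prod * M.val w (fun l' => (l'.map g).prod * F l') l' := by
      funext l'
      exact ih l'
    rw [h1, act_gau M h]
    rfl

end GAUAux

open GAUAux in
theorem t_GAU : GAU_Stmt := by
  intro A _ ι _ _ M g g' h
  refine ⟨fun hM => ?_, fun D F l => val_gau M h D F l⟩
  have hc : ∀ a b : ι, g a * g' a * (g b * g' b) = 1 := fun a b => by rw [h, h, one_mul]
  refine ⟨?_, ?_, ?_, ?_, ?_, ?_, ?_, ?_⟩
  · intro x a
    show ∑ b, g a * g b * M.cup a b * (g' b * g' x * M.cap b x) = _
    calc ∑ b, g a * g b * M.cup a b * (g' b * g' x * M.cap b x)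
        = ∑ b, g a * g' x * (M.cup a b * M.cap b x) := by
          refine Finset.sum_congr rfl fun b _ => ?_
          linear_combination (g a * g' x * (M.cup a b * M.cap b x)) * h b
      _ = g a * g' x * (if a = x then 1 else 0) := by rw [← Finset.mul_sum, hM.zigzag]
      _ = _ := by
          split_ifs with he
          · rw [he, h, one_mul]
          · rw [mul_zero]
  · intro x b
    show ∑ a, g a * g b * M.cup a b * (g' x * g' a * M.cap x a) = _
    calc ∑ a, g a * g b * M.cup a b * (g' x * g' a * M.cap x a)
        = ∑ a, g b * g' x * (M.cup a b * M.cap x a) := by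
          refine Finset.sum_congr rfl fun a _ => ?_
          linear_combination (g b * g' x * (M.cup a b * M.cap x a)) * h a
      _ = g b * g' x * (if b = x then 1 else 0) := by rw [← Finset.mul_sum, hM.zagzig]
      _ = _ := by
          split_ifs with he
          · rw [he, h, one_mul]
          · rw [mul_zero]
  · intro e x y z t
    show ∑ c, g' y * g' z * (g c * g t) * M.X e y z c t * (g' x * g' c * M.cap x c) =
      ∑ d, g' x * g' y * (g t * g d) * M.X (!e) x y t d * (g' d * g' z * M.cap d z)
    calc ∑ c, g' y * g' z * (g c * g t) * M.X e y z c t * (g' x * g' c * M.cap x c)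
        = ∑ c, (g' x * g' y * g' z * g t) * (M.X e y z c t * M.cap x c) := by
          refine Finset.sum_congr rfl fun c _ => ?_
          linear_combination (g' x * g' y * g' z * g t * (M.X e y z c t * M.cap x c)) * h c
      _ = ∑ d, (g' x * g' y * g' z * g t) * (M.X (!e) x y t d * M.cap d z) := by
          rw [← Finset.mul_sum, ← Finset.mul_sum, hM.slideCap]
      _ = _ := by
          refine Finset.sum_congr rfl fun d _ => ?_
          linear_combination (-(g' x * g' y * g' z * g t * (M.X (!e) x y t d * M.cap d z))) * h d
  · intro e x p q r
    show ∑ b, g p * g b * M.cup p b * (g' b * g' x * (g q * g r) * M.X e b x q r) =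
      ∑ a, g a * g r * M.cup a r * (g' x * g' a * (g p * g q) * M.X (!e) x a p q)
    calc ∑ b, g p * g b * M.cup p b * (g' b * g' x * (g q * g r) * M.X e b x q r)
        = ∑ b, (g p * g' x * g q * g r) * (M.cup p b * M.X e b x q r) := by
          refine Finset.sum_congr rfl fun b _ => ?_
          linear_combination (g p * g' x * g q * g r * (M.cup p b * M.X e b x q r)) * h b
      _ = ∑ a, (g p * g' x * g q * g r) * (M.cup a r * M.X (!e) x a p q) := by
          rw [← Finset.mul_sum, ← Finset.mul_sum, hM.slideCup]
      _ = _ := by
          refine Finset.sum_congr rfl fun a _ => ?_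
          linear_combination (-(g p * g' x * g q * g r * (M.cup a r * M.X (!e) x a p q))) * h a
  · intro e x y
    show ∑ c, ∑ d, g' x * g' y * (g c * g d) * M.X e x y c d * (g' c * g' d * M.cap c d) =
      g' x * g' y * M.cap x y
    rw [← hM.r1Cap e x y, Finset.mul_sum]
    refine Finset.sum_congr rfl fun c _ => ?_
    rw [Finset.mul_sum]
    refine Finset.sum_congr rfl fun d _ => ?_
    linear_combination (g' x * g' y * (M.X e x y c d * M.cap c d)) * hc c d
  · intro e c d
    show ∑ a, ∑ b, g a * g b * M.cup a b * (g' a * g' b * (g c * g d) * M.X e a b c d) =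
      g c * g d * M.cup c d
    rw [← hM.r1Cup e c d, Finset.mul_sum]
    refine Finset.sum_congr rfl fun a _ => ?_
    rw [Finset.mul_sum]
    refine Finset.sum_congr rfl fun b _ => ?_
    linear_combination (g c * g d * (M.cup a b * M.X e a b c d)) * hc a b
  · intro e x y p q
    show ∑ c, ∑ d, g' x * g' y * (g c * g d) * M.X e x y c d *
      (g' c * g' d * (g p * g q) * M.X (!e) c d p q) = _
    calc ∑ c, ∑ d, g' x * g' y * (g c * g d) * M.X e x y c d *
          (g' c * g' d * (g p * g q) * M.X (!e) c d p q)
        = ∑ c, ∑ d, (g' x * g' y * g p * g q) * (M.X e x y c d * M.X (!e) c d p q) := by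
          refine Finset.sum_congr rfl fun c _ => Finset.sum_congr rfl fun d _ => ?_
          linear_combination
            (g' x * g' y * g p * g q * (M.X e x y c d * M.X (!e) c d p q)) * hc c d
      _ = (g' x * g' y * g p * g q) * (if p = x ∧ q = y then 1 else 0) := by
          rw [← hM.r2 e x y p q, Finset.mul_sum]
          refine Finset.sum_congr rfl fun c _ => ?_
          rw [Finset.mul_sum]
      _ = _ := by
          split_ifs with he
          · rw [he.1, he.2, mul_one]
            linear_combination hc x y
          · rw [mul_zero]
  · intro x y z p q r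
    show ∑ a, ∑ b, ∑ c, g' x * g' y * (g a * g b) * M.X true x y a b *
        (g' b * g' z * (g c * g r) * M.X true b z c r) *
        (g' a * g' c * (g p * g q) * M.X true a c p q) =
      ∑ a, ∑ b, ∑ c, g' y * g' z * (g a * g b) * M.X true y z a b *
        (g' x * g' a * (g p * g c) * M.X true x a p c) *
        (g' c * g' b * (g q * g r) * M.X true c b q r)
    have h3 : ∀ a b c : ι, g a * g' a * (g b * g' b) * (g c * g' c) = 1 := fun a b c => by
      rw [h, h, h, one_mul, one_mul]
    calc ∑ a, ∑ b, ∑ c, g' x * g' y * (g a * g b) * M.X true x y a b *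
          (g' b * g' z * (g c * g r) * M.X true b z c r) *
          (g' a * g' c * (g p * g q) * M.X true a c p q)
        = ∑ a, ∑ b, ∑ c, (g' x * g' y * g' z * g p * g q * g r) *
            (M.X true x y a b * M.X true b z c r * M.X true a c p q) := by
          refine Finset.sum_congr rfl fun a _ => Finset.sum_congr rfl fun b _ =>
            Finset.sum_congr rfl fun c _ => ?_
          linear_combination (g' x * g' y * g' z * g p * g q * g r *
            (M.X true x y a b * M.X true b z c r * M.X true a c p q)) * h3 a b c
      _ = (g' x * g' y * g' z * g p * g q * g r) * ∑ a, ∑ b, ∑ c,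
            M.X true x y a b * M.X true b z c r * M.X true a c p q := by
          simp only [Finset.mul_sum]
      _ = (g' x * g' y * g' z * g p * g q * g r) * ∑ a, ∑ b, ∑ c,
            M.X true y z a b * M.X true x a p c * M.X true c b q r := by rw [hM.r3]
      _ = ∑ a, ∑ b, ∑ c, (g' x * g' y * g' z * g p * g q * g r) *
            (M.X true y z a b * M.X true x a p c * M.X true c b q r) := by
          simp only [Finset.mul_sum]
      _ = _ := by
          refine Finset.sum_congr rfl fun a _ => Finset.sum_congr rfl fun b _ =>
            Finset.sum_congr rfl fun c _ => ?_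
          linear_combination (-(g' x * g' y * g' z * g p * g q * g r *
            (M.X true y z a b * M.X true x a p c * M.X true c b q r))) * h3 a b c

end Pool.Agent.WD
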