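import Pool.Agent.WD.StA

/-!
# GKO: the coloured Jones polynomials of odd dimension separate graph knots (helper20)
-/

set_option autoImplicit false

namespace Pool.Agent.WD

open Pool.Agent.LibH11 Pool.Agent.IT Pool.Agent.GK
open PowerSeries

/-- The unknot series is not zero. -/
theorem GKO.fu_ne : fu ≠ 0 := by
  intro h
  have h1 : (E 1 - E (-1) : ℚ⟦X⟧) = 0 := by
    have h2 := congrArg (fun F : B => coeff 0 F) h
    simpa [fu, zB] using h2
  have h3 := congrArg (fun f : ℚ⟦X⟧ => coeff 1 f) h1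
  simp [E] at h3

/-- **GKO** -/
theorem t_GKO (hgnf : GNF_Stmt) (hfam : FAM_Stmt) (hctx : CTX_Stmt) (_he : ESER_Stmt)
    (hi : EVO_Stmt) : GKO_Stmt := by
  intro M cb v ho hv K K' hK hK' hJ
  obtain ⟨ι, t, kn, hkn, hall⟩ := hgnf M cb ho
  obtain ⟨G, hG, hS⟩ := hfam M cb v ho hv ι t kn hkn
  obtain ⟨S, rfl⟩ := hall K hK
  obtain ⟨S', rfl⟩ := hall K' hK'
  obtain ⟨H, hH1, hH2⟩ := hS S
  obtain ⟨H', hH1', hH2'⟩ := hS S'
  have hHH : H = H' := by
    apply hi
    intro N hN
    rw [hH1.2, hH1'.2, hJ N hN]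
  subst hHH
  have key : fu ^ (Multiset.card S') * (S.map G).prod = fu ^ (Multiset.card S) * (S'.map G).prod := by
    apply mul_left_cancel₀ GKO.fu_ne
    calc fu * (fu ^ (Multiset.card S') * (S.map G).prod)
        = (fu * (S.map G).prod) * fu ^ (Multiset.card S') := by ring
      _ = (H * fu ^ (Multiset.card S)) * fu ^ (Multiset.card S') := by rw [hH2]
      _ = (H * fu ^ (Multiset.card S')) * fu ^ (Multiset.card S) := by ring
      _ = (fu * (S'.map G).prod) * fu ^ (Multiset.card S) := by rw [hH2']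
      _ = fu * (fu ^ (Multiset.card S) * (S'.map G).prod) := by ring
  have := hctx ι t G hG S S' key
  rw [this]

end Pool.Agent.WD
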