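import Pool.Agent.WD.StQ

/-!
# The closure of the first strand (WD): module GPT
-/

set_option autoImplicit false

namespace Pool.Agent.WD

open Pool.Agent.LibH11 Pool.Agent.IT
open scoped BigOperators

namespace GPTAux

theorem sum_cons {A ι : Type} [CommRing A] [Fintype ι] {n : ℕ} (f : (Fin (n + 1) → ι) → A) :
    ∑ s : Fin (n + 1) → ι, f s = ∑ a : ι, ∑ x : Fin n → ι, f (Fin.cons a x : Fin (n + 1) → ι) := by
  rw [← Fintype.sum_prod_type (f := fun p : ι × (Fin n → ι) =>
    f (Fin.cons p.1 p.2 : Fin (n + 1) → ι))]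
  exact ((Fin.consEquiv (fun _ : Fin (n + 1) => ι)).sum_comp f).symm

theorem prod_cons {A ι : Type} [CommRing A] {n : ℕ} (κ : ι → A) (a : ι) (x : Fin n → ι) :
    ∏ i, κ ((Fin.cons a x : Fin (n + 1) → ι) i) = κ a * ∏ i, κ (x i) := by
  rw [Fin.prod_univ_succ]
  simp

theorem at1_cons {A ι : Type} [CommRing A] [Fintype ι] [DecidableEq ι] {n : ℕ}
    (X : Matrix ι ι A) (a c : ι) (x y : Fin n → ι) :
    at1 X (0 : Fin (n + 1)) (Fin.cons c y : Fin (n + 1) → ι) (Fin.cons a x : Fin (n + 1) → ι) =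
      if y = x then X c a else 0 := by
  unfold at1
  by_cases h : y = x
  · subst h
    rw [if_pos rfl, if_pos]
    · rfl
    · intro z hz
      obtain ⟨j, rfl⟩ := Fin.exists_succ_eq.2 hz
      simp
  · rw [if_neg h, if_neg]
    intro h1
    apply h
    funext j
    have h2 := h1 j.succ (Fin.succ_ne_zero j)
    simpa using h2

theorem mul_at1 {A ι : Type} [CommRing A] [Fintype ι] [DecidableEq ι] {n : ℕ}
    (M : Matrix (Fin (n + 1) → ι) (Fin (n + 1) → ι) A) (X : Matrix ι ι A) (a : ι)
    (x : Fin n → ι) :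
    (M * at1 X (0 : Fin (n + 1))) (Fin.cons a x : Fin (n + 1) → ι)
      (Fin.cons a x : Fin (n + 1) → ι) =
      ∑ c, M (Fin.cons a x : Fin (n + 1) → ι) (Fin.cons c x : Fin (n + 1) → ι) * X c a := by
  rw [Matrix.mul_apply, sum_cons]
  refine Finset.sum_congr rfl fun c _ => ?_
  simp only [at1_cons, mul_ite, mul_zero]
  rw [Finset.sum_ite_eq' Finset.univ x]
  simp

end GPTAux

open GPTAux in
theorem t_GPT : GPT_Stmt := by
  intro A _ ι _ _ T n w
  constructor
  · intro X
    unfold G
    rw [sum_cons]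
    refine Finset.sum_congr rfl fun a _ => ?_
    simp only [mul_at1, prod_cons]
    rw [Matrix.mul_apply, Finset.mul_sum]
    unfold ptr
    simp only [Finset.sum_mul, Finset.mul_sum]
    rw [Finset.sum_comm]
    refine Finset.sum_congr rfl fun c _ => Finset.sum_congr rfl fun x _ => ?_
    ring
  · unfold Jfr
    rw [sum_cons]
    refine Finset.sum_congr rfl fun a _ => ?_
    simp only [prod_cons]
    unfold ptr
    rw [Finset.mul_sum]
    refine Finset.sum_congr rfl fun x _ => ?_
    ring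

end Pool.Agent.WD
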