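import Pool.Agent.WD.StQ

/-!
# Whitehead doubles of graph knots: the closure with twists and clasp (module GSUM)
-/

namespace Pool.Agent.WD

open Pool.Agent.LibH11 Pool.Agent.IT Pool.Agent.GK Pool.Agent.TwoBr
open scoped BigOperators

namespace GSUMM

/-- a sum with only even terms -/
theorem sum_even {K : Type} [Field K] (f : ℕ → K) (hf : ∀ k, f (2 * k + 1) = 0) (N : ℕ)
    (hN : 1 ≤ N) :
    ∑ k ∈ Finset.range (2 * N - 1), f k = ∑ j ∈ Finset.range N, f (2 * j) := by
  obtain ⟨M, rfl⟩ : ∃ M, N = M + 1 := ⟨N - 1, by omega⟩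
  have h : 2 * (M + 1) - 1 = 2 * M + 1 := by omega
  rw [h]
  clear h hN
  induction M with
  | zero => simp
  | succ M ih =>
    have h2 : 2 * (M + 1) + 1 = (2 * M + 1) + 1 + 1 := by ring
    have h3 : 2 * (M + 1) = (2 * M + 1) + 1 := by ring
    rw [h2, Finset.sum_range_succ, Finset.sum_range_succ, ih, hf M, add_zero,
      Finset.sum_range_succ _ (M + 1), h3]

section Alg

variable {K : Type} [Field K] {α β : Type} [Fintype α] [DecidableEq α] [Fintype β]
  [DecidableEq β]

theorem pow_act (A : Matrix α α K) (P : Matrix α β K) (r : K) (h : A * A * P = r • P) (n : ℕ) :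
    A ^ (2 * n) * P = r ^ n • P := by
  induction n with
  | zero => simp
  | succ n ih =>
    have h2 : 2 * (n + 1) = 2 * n + 2 := by ring
    rw [h2, pow_add, pow_two, Matrix.mul_assoc, h, Matrix.mul_smul, ih, smul_smul]
    congr 1
    ring

theorem inv_act (A B : Matrix α α K) (hBA : B * A = 1) (P : Matrix α β K) (r : K) (hr : r ≠ 0)
    (h : A * A * P = r • P) : B * B * P = r⁻¹ • P := by
  have h1 : B * B * (A * A * P) = P := by
    have h2 : B * B * (A * A * P) = B * (B * A) * A * P := by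
      simp only [Matrix.mul_assoc]
    rw [h2, hBA, Matrix.mul_one, hBA, Matrix.one_mul]
  rw [h, Matrix.mul_smul] at h1
  calc B * B * P = r⁻¹ • (r • (B * B * P)) := by rw [smul_smul, inv_mul_cancel₀ hr, one_smul]
    _ = r⁻¹ • P := by rw [h1]

theorem trace_act (C T : Matrix α α K) (P : Matrix α β K) (Q : Matrix β α K) (hQP : Q * P = 1)
    (hC : C * P = P * (Q * C * P)) (r : K) (hT : T * P = r • P) :
    (Q * (T * C) * P).trace = r * (Q * C * P).trace := by
  have h1 : Q * (T * C) * P = r • (Q * C * P) := by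
    calc Q * (T * C) * P = Q * (T * (C * P)) := by simp only [Matrix.mul_assoc]
      _ = Q * (T * (P * (Q * C * P))) := by rw [← hC]
      _ = Q * ((T * P) * (Q * C * P)) := by simp only [Matrix.mul_assoc]
      _ = r • ((Q * P) * (Q * C * P)) := by
        rw [hT, Matrix.smul_mul, Matrix.mul_smul]
        simp only [Matrix.mul_assoc]
      _ = r • (Q * C * P) := by rw [hQP, Matrix.one_mul]
  rw [h1, Matrix.trace_smul, smul_eq_mul]

end Alg

section Two

variable {K : Type} [Field K] (s : K) {ι : Type} [Fintype ι] [DecidableEq ι] (M : WM K ι)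

/-- the identification of pairs -/
def φ (ι : Type) : (Fin 2 → ι) ≃ ι × ι := finTwoArrowEquiv ι

omit [Fintype ι] [DecidableEq ι] in
theorem φ_apply (x : Fin 2 → ι) : φ ι x = (x 0, x 1) := rfl

theorem wt_two (x : Fin 2 → ι) :
    (fpow s M 2).wt x = (tens s M M).wt (φ ι x) := by
  change ∑ i, M.wt (x i) = M.wt (x 0) + M.wt (x 1)
  rw [Fin.sum_univ_two]

theorem E_two : (fpow s M 2).E = ((tens s M M).E).submatrix (φ ι) (φ ι) := by
  ext x y
  change (∑ k : Fin 2, if ∀ l, l ≠ k → x l = y l then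
    M.E (x k) (y k) * s ^ (2 * ∑ l ∈ Finset.univ.filter (fun l => k < l), M.wt (y l)) else 0) =
    (if x 1 = y 1 then M.E (x 0) (y 0) * s ^ (2 * M.wt (y 1)) else 0) +
    (if x 0 = y 0 then M.E (x 1) (y 1) else 0)
  rw [Fin.sum_univ_two]
  have h0 : (∀ l : Fin 2, l ≠ 0 → x l = y l) ↔ x 1 = y 1 := by
    constructor
    · intro h
      exact h 1 (by decide)
    · intro h l hl
      have hl' : l = 1 := by omega
      rw [hl']
      exact h
  have h1 : (∀ l : Fin 2, l ≠ 1 → x l = y l) ↔ x 0 = y 0 := by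
    constructor
    · intro h
      exact h 0 (by decide)
    · intro h l hl
      have hl' : l = 0 := by omega
      rw [hl']
      exact h
  have f0 : (Finset.univ.filter fun l : Fin 2 => (0 : Fin 2) < l) = {1} := by decide
  have f1 : (Finset.univ.filter fun l : Fin 2 => (1 : Fin 2) < l) = ∅ := by decide
  rw [f0, f1, Finset.sum_singleton, Finset.sum_empty, mul_zero, zpow_zero, mul_one]
  congr 1
  · by_cases h : x 1 = y 1
    · rw [if_pos (h0.mpr h), if_pos h]
    · rw [if_neg (fun h' => h (h0.mp h')), if_neg h]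
  · by_cases h : x 0 = y 0
    · rw [if_pos (h1.mpr h), if_pos h]
    · rw [if_neg (fun h' => h (h1.mp h')), if_neg h]

theorem opl_two (T : RData K ι) (b : Bool) :
    opl T 1 (0, b) = (if b then T.R else T.R').submatrix (φ ι) (φ ι) := by
  ext x y
  unfold opl
  rw [dif_pos (by norm_num : (0, b).1 < 1)]
  unfold atp
  rw [if_pos]
  · rfl
  · intro z hz0 hz1
    exfalso
    have : (z : ℕ) < 2 := z.2
    have h0 : (z : ℕ) ≠ 0 := fun h => hz0 (Fin.ext h)
    have h1 : (z : ℕ) ≠ 1 := fun h => hz1 (Fin.ext h)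
    omega

theorem op_rep (T : RData K ι) (b : Bool) (n : ℕ) :
    op T 1 (List.replicate n (0, b)) = (opl T 1 (0, b)) ^ n := by
  unfold op
  rw [List.map_replicate, List.prod_replicate]

end Two

section Main

variable {K : Type} [Field K] {s : K} {N : ℕ}

theorem R_act (hDBL : DBL_Stmt) (hs : IT.Gen s) (k : ℤ) {β : Type} [Fintype β] [DecidableEq β]
    (P : Matrix (Fin 2 → Fin N) β K)
    (hE : (fpow s (V s N) 2).E * P = 0)
    (hw : ∀ a j, P a j ≠ 0 → (fpow s (V s N) 2).wt a = k) :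
    (opl (RD s (V s N)) 1 (0, true)) * (opl (RD s (V s N)) 1 (0, true)) * P =
      s ^ ((k + 1) ^ 2 - 1 - ((N : ℤ) ^ 2 - 1) - ((N : ℤ) ^ 2 - 1)) • P := by
  have hop : opl (RD s (V s N)) 1 (0, true) =
      (Rm s (V s N) (V s N)).submatrix (φ (Fin N)) (φ (Fin N)) := opl_two _ true
  rw [hop, Matrix.submatrix_mul_equiv]
  ext a j
  have h1 := hDBL K s hs N N k ((fun a => P a j) ∘ (φ (Fin N)).symm) ?_ ?_
  · have h2 : ((Rm s (V s N) (V s N) * Rm s (V s N) (V s N)).submatrix (φ (Fin N))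
        (φ (Fin N))).mulVec (fun a => P a j) =
        s ^ ((k + 1) ^ 2 - 1 - ((N : ℤ) ^ 2 - 1) - ((N : ℤ) ^ 2 - 1)) • (fun a => P a j) := by
      rw [Matrix.submatrix_mulVec_equiv, h1]
      ext b
      simp [Function.comp]
    exact congrFun h2 a
  · intro x hx
    have h3 := hw ((φ (Fin N)).symm x) j hx
    rw [wt_two, Equiv.apply_symm_apply] at h3
    exact h3
  · have h4 : ((fpow s (V s N) 2).E).mulVec (fun a => P a j) = 0 := by
      ext b
      exact congrFun (congrFun hE b) j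
    rw [E_two, Matrix.submatrix_mulVec_equiv] at h4
    ext x
    have h5 := congrFun h4 ((φ (Fin N)).symm x)
    simpa [Function.comp] using h5

theorem tw_act (hDBL : DBL_Stmt) (hRINV : RINV_Stmt) (hVOK : VOK_Stmt) (hs : IT.Gen s) (k : ℤ)
    {β : Type} [Fintype β] [DecidableEq β] (P : Matrix (Fin 2 → Fin N) β K)
    (hE : (fpow s (V s N) 2).E * P = 0)
    (hw : ∀ a j, P a j ≠ 0 → (fpow s (V s N) 2).wt a = k) (m : ℤ) :
    tw (RD s (V s N)) m * P =
      (s ^ ((k + 1) ^ 2 - 1 - ((N : ℤ) ^ 2 - 1) - ((N : ℤ) ^ 2 - 1))) ^ m • P := by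
  have hA := R_act hDBL hs k P hE hw
  have hop : opl (RD s (V s N)) 1 (0, true) =
      (Rm s (V s N) (V s N)).submatrix (φ (Fin N)) (φ (Fin N)) := opl_two _ true
  have hop' : opl (RD s (V s N)) 1 (0, false) =
      (Rm' s (V s N) (V s N)).submatrix (φ (Fin N)) (φ (Fin N)) := opl_two _ false
  have hBA : opl (RD s (V s N)) 1 (0, false) * opl (RD s (V s N)) 1 (0, true) = 1 := by
    rw [hop, hop', Matrix.submatrix_mul_equiv,
      (hRINV K s hs (Fin N) (Fin N) (V s N) (V s N) ((hVOK K s hs).1 N) ((hVOK K s hs).1 N)).1,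
      Matrix.submatrix_one_equiv]
  have hr : s ^ ((k + 1) ^ 2 - 1 - ((N : ℤ) ^ 2 - 1) - ((N : ℤ) ^ 2 - 1)) ≠ 0 :=
    zpow_ne_zero _ hs.1
  have hB := inv_act _ _ hBA P _ hr hA
  unfold tw
  rw [op_rep]
  by_cases hm : 0 < m
  · have h1 : decide (0 < m) = true := decide_eq_true hm
    rw [h1, pow_act _ P _ hA]
    congr 1
    have h2 : m = (m.natAbs : ℤ) := by omega
    conv_rhs => rw [h2]
    rw [zpow_natCast]
  · have h1 : decide (0 < m) = false := decide_eq_false hm
    rw [h1, pow_act _ P _ hB]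
    congr 1
    have h2 : m = -(m.natAbs : ℤ) := by omega
    conv_rhs => rw [h2]
    rw [zpow_neg, zpow_natCast, inv_pow]

theorem wt_val (x : Fin 2 → Fin N) :
    (fpow s (V s N) 2).wt x = 2 * ((N : ℤ) - 1 - ((x 0 : ℕ) : ℤ) - ((x 1 : ℕ) : ℤ)) := by
  rw [wt_two]
  change ((N : ℤ) - 1 - 2 * ((x 0 : ℕ) : ℤ)) + ((N : ℤ) - 1 - 2 * ((x 1 : ℕ) : ℤ)) = _
  ring

theorem wtr_odd (X : Matrix (Fin 2 → Fin N) (Fin 2 → Fin N) K) (k : ℤ) :
    wtr (fpow s (V s N) 2) (2 * k + 1) X = 0 := by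
  unfold wtr
  refine Finset.sum_eq_zero fun x hx => ?_
  exfalso
  have h := (Finset.mem_filter.mp hx).2
  rw [wt_val] at h
  omega

end Main

end GSUMM

open GSUMM in
/-- GSUM -/
theorem t_GSUM (hCLM : CLM_Stmt) (hTOPV : TOPV_Stmt) (hBLKD : BLKD_Stmt)
    (hCABSUM : CABSUM_Stmt) (hMULT : MULT_Stmt) (hDBL : DBL_Stmt) (hMOP : MOP_Stmt)
    (hFPOWOK : FPOWOK_Stmt) (hVOK : VOK_Stmt) (hRINV : RINV_Stmt) : GSUM_Stmt := by
  intro K _ s hs N hN e
  have hV : IT.Ok s (V s N) := (hVOK K s hs).1 N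
  have hW : IT.Ok s (fpow s (V s N) 2) := hFPOWOK K s hs (Fin N) (V s N) hV 2
  have hC := hCLM K s hs N hN e
  refine ⟨fun j => wtr (fpow s (V s N) 2) (2 * (j : ℤ)) (clasp (MV s N) e) -
    wtr (fpow s (V s N) 2) (2 * (j : ℤ) + 2) (clasp (MV s N) e), ?_, ?_⟩
  · -- the top coefficient
    have h1 : wtr (fpow s (V s N) 2) (2 * ((N - 1 : ℕ) : ℤ)) (clasp (MV s N) e) =
        gtop s N e := by
      unfold wtr
      have hf : (Finset.univ.filter fun x : Fin 2 → Fin N =>
          (fpow s (V s N) 2).wt x = 2 * ((N - 1 : ℕ) : ℤ)) = {fun _ => ⟨0, hN⟩} := by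
        ext x
        rw [Finset.mem_filter, Finset.mem_singleton, wt_val]
        constructor
        · rintro ⟨-, h⟩
          funext i
          apply Fin.ext
          have hi : i = 0 ∨ i = 1 := by omega
          rcases hi with rfl | rfl
          · change ((x 0 : Fin N) : ℕ) = 0
            omega
          · change ((x 1 : Fin N) : ℕ) = 0
            omega
        · intro h
          subst h
          refine ⟨Finset.mem_univ _, ?_⟩
          push_cast [Nat.cast_sub hN]
          ring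
      rw [hf, Finset.sum_singleton]
      exact hTOPV K s hs N hN e
    have h2 : wtr (fpow s (V s N) 2) (2 * ((N - 1 : ℕ) : ℤ) + 2) (clasp (MV s N) e) = 0 := by
      unfold wtr
      refine Finset.sum_eq_zero fun x hx => ?_
      exfalso
      have h := (Finset.mem_filter.mp hx).2
      rw [wt_val] at h
      omega
    change wtr (fpow s (V s N) 2) (2 * ((N - 1 : ℕ) : ℤ)) (clasp (MV s N) e) -
      wtr (fpow s (V s N) 2) (2 * ((N - 1 : ℕ) : ℤ) + 2) (clasp (MV s N) e) = _
    rw [h1, h2, sub_zero]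
  · intro m n w hk
    have hB : blkD (RD s (V s N)) 1 = RD s (fpow s (V s N) 2) :=
      hBLKD K s hs (Fin N) (V s N) hV 1
    have hTm : Mor (fpow s (V s N) 2) (fpow s (V s N) 2) (tw (RD s (V s N)) m) :=
      hMOP K s hs (Fin N) (V s N) hV 1 _
    have hX : Mor (fpow s (V s N) 2) (fpow s (V s N) 2)
        (tw (RD s (V s N)) m * clasp (MV s N) e) := by
      refine ⟨?_, ?_, ?_⟩
      · intro b a hab
        rw [Matrix.mul_apply] at hab
        obtain ⟨c, -, hc⟩ := Finset.exists_ne_zero_of_sum_ne_zero hab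
        rw [hTm.wt b c (left_ne_zero_of_mul hc), hC.wt c a (right_ne_zero_of_mul hc)]
      · rw [← Matrix.mul_assoc, hTm.E, Matrix.mul_assoc, hC.E, Matrix.mul_assoc]
      · rw [← Matrix.mul_assoc, hTm.F, Matrix.mul_assoc, hC.F, Matrix.mul_assoc]
    rw [hB, hCABSUM K s hs (Fin 2 → Fin N) (fpow s (V s N) 2) hW _ hX n w hk (2 * N - 1)]
    · rw [sum_even _ _ N hN]
      · refine Finset.sum_congr rfl fun j _ => ?_
        congr 1
        obtain ⟨r, P, Q, hQP, hEP, hwP, hQ⟩ :=
          hMULT K s hs (Fin 2 → Fin N) (fpow s (V s N) 2) hW (2 * j)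
        have hT := tw_act hDBL hRINV hVOK hs ((2 * j : ℕ) : ℤ) P hEP hwP m
        have h1 := trace_act (clasp (MV s N) e) (tw (RD s (V s N)) m) P Q hQP
          (hQ _ hC).1 _ hT
        rw [(hQ _ hX).2, (hQ _ hC).2] at h1
        have hc : ((2 * j : ℕ) : ℤ) = 2 * (j : ℤ) := by push_cast; ring
        rw [hc] at h1
        rw [hc, h1, mul_comm]
        congr 1
        rw [mul_comm m, zpow_mul]
        congr 2
        ring
      · intro k
        have hc : ((2 * k + 1 : ℕ) : ℤ) = 2 * (k : ℤ) + 1 := by push_cast; ring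
        have hc2 : ((2 * k + 1 : ℕ) : ℤ) + 2 = 2 * ((k : ℤ) + 1) + 1 := by push_cast; ring
        rw [hc2, hc, wtr_odd, wtr_odd, sub_zero, zero_mul]
    · intro a
      rw [wt_val]
      have h0 : 0 ≤ (((a 0 : Fin N) : ℕ) : ℤ) := Int.natCast_nonneg _
      have h1 : 0 ≤ (((a 1 : Fin N) : ℕ) : ℤ) := Int.natCast_nonneg _
      omega

end Pool.Agent.WD
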