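import Pool.Agent.WD.StA

/-!
# Whitehead doubles of graph knots: the first coefficients, cables
-/

set_option autoImplicit false

namespace Pool.Agent.WD

open Pool.Agent.LibH11 Pool.Agent.IT Pool.Agent.GK
open scoped BigOperators
open PowerSeries

namespace HABCAux

/-- the product of two odd series -/
lemma odd_mul (u w : ℚ⟦X⟧) (hu : ∀ m, Even m → coeff m u = 0) (hw : ∀ m, Even m → coeff m w = 0) :
    coeff 2 (u * w) = coeff 1 u * coeff 1 w ∧
    coeff 4 (u * w) = coeff 1 u * coeff 3 w + coeff 3 u * coeff 1 w ∧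
    coeff 6 (u * w) = coeff 1 u * coeff 5 w + coeff 3 u * coeff 3 w + coeff 5 u * coeff 1 w := by
  have u0 := hu 0 (by decide)
  have u2 := hu 2 (by decide)
  have u4 := hu 4 (by decide)
  have u6 := hu 6 (by decide)
  have w0 := hw 0 (by decide)
  have w2 := hw 2 (by decide)
  have w4 := hw 4 (by decide)
  have w6 := hw 6 (by decide)
  refine ⟨?_, ?_, ?_⟩
  · rw [PowerSeries.coeff_mul, Finset.Nat.sum_antidiagonal_eq_sum_range_succ_mk]
    simp only [Finset.sum_range_succ, Finset.sum_range_zero, Nat.succ_eq_add_one, Nat.reduceAdd,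
      Nat.reduceSub, u0, u2, w0, w2]
    ring
  · rw [PowerSeries.coeff_mul, Finset.Nat.sum_antidiagonal_eq_sum_range_succ_mk]
    simp only [Finset.sum_range_succ, Finset.sum_range_zero, Nat.succ_eq_add_one, Nat.reduceAdd,
      Nat.reduceSub, u0, u2, u4, w0, w2, w4]
    ring
  · rw [PowerSeries.coeff_mul, Finset.Nat.sum_antidiagonal_eq_sum_range_succ_mk]
    simp only [Finset.sum_range_succ, Finset.sum_range_zero, Nat.succ_eq_add_one, Nat.reduceAdd,
      Nat.reduceSub, u0, u2, u4, u6, w0, w2, w4, w6]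
    ring

/-- the series `exp (c z) - exp (- c z)` -/
lemma sub_even (c : ℚ) (m : ℕ) (hm : Even m) : coeff m (E c - E (-c)) = 0 := by
  rw [map_sub]
  unfold E
  rw [coeff_mk, coeff_mk, hm.neg_pow, sub_self]

lemma sub_odd (c : ℚ) : coeff 1 (E c - E (-c)) = 2 * c ∧ coeff 3 (E c - E (-c)) = c ^ 3 / 3 ∧
    coeff 5 (E c - E (-c)) = c ^ 5 / 60 := by
  refine ⟨?_, ?_, ?_⟩
  · rw [map_sub]
    unfold E
    rw [coeff_mk, coeff_mk]
    norm_num [Nat.factorial]
    ring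
  · rw [map_sub]
    unfold E
    rw [coeff_mk, coeff_mk]
    norm_num [Nat.factorial]
    ring
  · rw [map_sub]
    unfold E
    rw [coeff_mk, coeff_mk]
    norm_num [Nat.factorial]
    ring

lemma coeff_dl (x : ℚ) (f : ℚ⟦X⟧) (n : ℕ) : coeff n (dl x f) = coeff n f * x ^ n := by
  show coeff n (PowerSeries.mk fun n => coeff n f * x ^ n) = _
  rw [coeff_mk]

end HABCAux

open HABCAux in
theorem t_HABC (hL : LEADEQ_Stmt) : HABC_Stmt := by
  intro p q G G' A B' hp hq hodd hF hG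
  have hz := (hL p q G G' hF).zero
  set f : ℚ⟦X⟧ := coeff 0 G with hf
  set g : ℚ⟦X⟧ := coeff 0 G' with hg
  have hfo : ∀ m, Even m → coeff m (dl (p : ℚ) f) = 0 := by
    intro m hm
    rw [coeff_dl, hf, hG.odd 0 m hm, zero_mul]
  have hgo : ∀ m, Even m → coeff m g = 0 := fun m hm => hodd 0 m hm
  obtain ⟨l2, l4, l6⟩ := odd_mul _ g (fun m hm => sub_even ((p : ℚ) * q) m hm) hgo
  obtain ⟨r2, r4, r6⟩ := odd_mul _ (dl (p : ℚ) f) (fun m hm => sub_even (q : ℚ) m hm) hfo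
  obtain ⟨a1, a3, a5⟩ := sub_odd ((p : ℚ) * q)
  obtain ⟨b1, b3, b5⟩ := sub_odd (q : ℚ)
  have e2 := congrArg (coeff 2) hz
  have e4 := congrArg (coeff 4) hz
  have e6 := congrArg (coeff 6) hz
  rw [l2, r2, a1, b1, coeff_dl, hG.c1] at e2
  rw [l4, r4, a1, a3, b1, b3, coeff_dl, coeff_dl, hG.c1, hG.c3] at e4
  rw [l6, r6, a1, a3, a5, b1, b3, b5, coeff_dl, coeff_dl, coeff_dl, hG.c1, hG.c3, hG.c5] at e6
  have hp0 : (p : ℚ) ≠ 0 := by
    have : p ≠ 0 := by omega
    exact_mod_cast this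
  have hq0 : (q : ℚ) ≠ 0 := by exact_mod_cast hq
  have hpq : (2 : ℚ) * ((p : ℚ) * q) ≠ 0 := mul_ne_zero two_ne_zero (mul_ne_zero hp0 hq0)
  have g1 : coeff 1 g = 2 := by
    apply mul_left_cancel₀ hpq
    linear_combination e2
  rw [g1] at e4
  have g3 : coeff 3 g = (1 - ((p : ℚ) ^ 2 * A + tA p q)) / 3 := by
    apply mul_left_cancel₀ hpq
    unfold tA
    linear_combination e4
  rw [g1, g3] at e6
  have g5 : coeff 5 g = 1 / 60 - ((p : ℚ) ^ 2 * A + tA p q) / 18 +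
      ((p : ℚ) ^ 2 * A + tA p q) ^ 2 / 36 + ((p : ℚ) ^ 4 * B' + tB p q) / 90 := by
    apply mul_left_cancel₀ hpq
    unfold tA at e6 ⊢
    unfold tB
    linear_combination e6
  exact ⟨hodd, g1, g3, g5⟩

end Pool.Agent.WD
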