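import Pool.Agent.WD.StA

/-!
HABS: the first coefficients of the leading term of the series of a connected sum.
-/

set_option autoImplicit false

namespace Pool.Agent.WD.HABS

open Pool.Agent.LibH11 Pool.Agent.IT Pool.Agent.GK Pool.Agent.WD
open scoped BigOperators
open PowerSeries

theorem mul2 (f g : ℚ⟦X⟧) : coeff 2 (f * g) =
    coeff 0 f * coeff 2 g + coeff 1 f * coeff 1 g + coeff 2 f * coeff 0 g := by
  rw [PowerSeries.coeff_mul, Finset.Nat.sum_antidiagonal_eq_sum_range_succ_mk]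
  simp only [Finset.sum_range_succ, Finset.sum_range_zero, zero_add]

theorem mul4 (f g : ℚ⟦X⟧) : coeff 4 (f * g) =
    coeff 0 f * coeff 4 g + coeff 1 f * coeff 3 g + coeff 2 f * coeff 2 g +
      coeff 3 f * coeff 1 g + coeff 4 f * coeff 0 g := by
  rw [PowerSeries.coeff_mul, Finset.Nat.sum_antidiagonal_eq_sum_range_succ_mk]
  simp only [Finset.sum_range_succ, Finset.sum_range_zero, zero_add]

theorem mul6 (f g : ℚ⟦X⟧) : coeff 6 (f * g) =
    coeff 0 f * coeff 6 g + coeff 1 f * coeff 5 g + coeff 2 f * coeff 4 g +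
      coeff 3 f * coeff 3 g + coeff 4 f * coeff 2 g + coeff 5 f * coeff 1 g +
      coeff 6 f * coeff 0 g := by
  rw [PowerSeries.coeff_mul, Finset.Nat.sum_antidiagonal_eq_sum_range_succ_mk]
  simp only [Finset.sum_range_succ, Finset.sum_range_zero, zero_add]

theorem cE (t : ℚ) (n : ℕ) : coeff n (E t) = t ^ n / (n.factorial : ℚ) := by
  unfold E
  rw [PowerSeries.coeff_mk]

theorem e0 : coeff 0 (E 1 - E (-1) : ℚ⟦X⟧) = 0 := by
  rw [map_sub, cE, cE]; norm_num
theorem e1 : coeff 1 (E 1 - E (-1) : ℚ⟦X⟧) = 2 := by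
  rw [map_sub, cE, cE]; norm_num
theorem e2 : coeff 2 (E 1 - E (-1) : ℚ⟦X⟧) = 0 := by
  rw [map_sub, cE, cE]; norm_num
theorem e3 : coeff 3 (E 1 - E (-1) : ℚ⟦X⟧) = 1 / 3 := by
  rw [map_sub, cE, cE]; norm_num [Nat.factorial]
theorem e4 : coeff 4 (E 1 - E (-1) : ℚ⟦X⟧) = 0 := by
  rw [map_sub, cE, cE]; norm_num
theorem e5 : coeff 5 (E 1 - E (-1) : ℚ⟦X⟧) = 1 / 60 := by
  rw [map_sub, cE, cE]; norm_num [Nat.factorial]
theorem e6 : coeff 6 (E 1 - E (-1) : ℚ⟦X⟧) = 0 := by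
  rw [map_sub, cE, cE]; norm_num

theorem mul0 (F F' : B) : coeff 0 (F * F') = coeff 0 F * coeff 0 F' := by
  rw [PowerSeries.coeff_mul, Finset.Nat.sum_antidiagonal_eq_sum_range_succ_mk]
  simp only [Finset.sum_range_succ, Finset.sum_range_zero, zero_add]

theorem lead {G G' G'' : B} (h : G'' * fu = G * G') :
    coeff 0 G'' * (E 1 - E (-1)) = coeff 0 G * coeff 0 G' := by
  have h1 := congrArg (coeff 0) h
  rw [mul0, mul0] at h1
  have h2 : coeff 0 fu = E 1 - E (-1) := by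
    unfold fu zB
    rw [PowerSeries.coeff_zero_C]
  rw [h2] at h1
  exact h1

end Pool.Agent.WD.HABS

namespace Pool.Agent.WD

open Pool.Agent.LibH11 Pool.Agent.IT Pool.Agent.GK
open scoped BigOperators
open PowerSeries

/-- **HABS**: connected sums -/
theorem t_HABS : HABS_Stmt := by
  intro G G' G'' A B' A' B'' hodd h hG hG'
  have hl := HABS.lead h
  have z0 := hG.odd 0
  have z1 := hG'.odd 0
  have z2 := hodd 0
  have k2 := congrArg (coeff 2) hl
  have k4 := congrArg (coeff 4) hl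
  have k6 := congrArg (coeff 6) hl
  rw [HABS.mul2, HABS.mul2, HABS.e0, HABS.e1, HABS.e2, z0 0 (by decide), z0 2 (by decide),
    hG.c1, hG'.c1, z1 0 (by decide)] at k2
  rw [HABS.mul4, HABS.mul4, HABS.e0, HABS.e1, HABS.e2, HABS.e3, HABS.e4, z0 0 (by decide),
    z0 2 (by decide), z0 4 (by decide), hG.c1, hG'.c1, hG.c3, hG'.c3, z1 0 (by decide)] at k4
  rw [HABS.mul6, HABS.mul6, HABS.e0, HABS.e1, HABS.e2, HABS.e3, HABS.e4, HABS.e5, HABS.e6,
    z0 0 (by decide), z0 2 (by decide), z0 4 (by decide), hG.c1, hG'.c1, hG.c3, hG'.c3, hG.c5,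
    hG'.c5, z1 0 (by decide)] at k6
  have d1 : coeff 1 (coeff 0 G'') = 2 := by linarith
  rw [d1] at k4 k6
  have d3 : coeff 3 (coeff 0 G'') = (1 - (A + A')) / 3 := by linarith
  rw [d3] at k6
  refine ⟨hodd, d1, d3, ?_⟩
  linear_combination (1 / 2) * k6

end Pool.Agent.WD
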