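import Pool.Agent.WD.StA

/-!
# HABU: the series of the unknot
-/

set_option autoImplicit false

namespace Pool.Agent.WD

open Pool.Agent.LibH11 Pool.Agent.IT Pool.Agent.GK
open scoped BigOperators
open PowerSeries

namespace HABUAux

lemma cE (t : ℚ) (n : ℕ) : coeff n (E t) = t ^ n / (n.factorial : ℚ) := coeff_mk _ _

lemma fu0 : coeff 0 fu = E 1 - E (-1) := by
  unfold fu zB
  exact PowerSeries.coeff_zero_C _

end HABUAux

open HABUAux in
/-- **HABU** -/
theorem t_HABU : HABU_Stmt := by
  refine ⟨?_, ?_, ?_, ?_⟩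
  · intro k m hm
    by_cases hk : k = 0
    · subst hk
      rw [fu0, map_sub, cE, cE, one_pow, hm.neg_one_pow, sub_self]
    · have h1 : coeff k fu = 0 := by
        unfold fu zB
        exact (PowerSeries.coeff_C _ _).trans (if_neg hk)
      rw [h1, map_zero]
  · rw [fu0, map_sub, cE, cE]
    norm_num [Nat.factorial]
  · rw [fu0, map_sub, cE, cE]
    norm_num [Nat.factorial]
  · rw [fu0, map_sub, cE, cE]
    norm_num [Nat.factorial]

end Pool.Agent.WD
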