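import Pool.Agent.WD.StQ

/-!
# Module INT (helper85): the integral model
-/

set_option autoImplicit false

namespace Pool.Agent.WD

open Pool.Agent.LibH11 Pool.Agent.IT Pool.Agent.GK Pool.Agent.TwoBr
open scoped BigOperators
open PowerSeries

namespace INT

lemma rev_iff {N : ℕ} (x y : Fin N) : (x : ℕ) + y + 1 = N ↔ y = Fin.rev x := by
  rw [Fin.ext_iff, Fin.val_rev]
  omega

lemma rev_comm {N : ℕ} (x y : Fin N) : y = Fin.rev x ↔ x = Fin.rev y :=
  ⟨fun h => by rw [h, Fin.rev_rev], fun h => by rw [h, Fin.rev_rev]⟩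

section

variable {K : Type} [Field K] (s : K) (N : ℕ)

/-- the nonzero entries of the form -/
def uu (x : Fin N) : K := vcup s N x (Fin.rev x)

lemma cup_eq (x y : Fin N) : (MV s N).cup x y = if y = Fin.rev x then uu s N x else 0 := by
  show vcup s N x y = _
  by_cases h : y = Fin.rev x
  · rw [if_pos h, h]
    rfl
  · rw [if_neg h]
    unfold vcup
    rw [if_neg]
    rwa [rev_iff]

lemma cap_eq (x y : Fin N) : (MV s N).cap x y = if y = Fin.rev x then (uu s N y)⁻¹ else 0 := by
  show vcap s N x y = _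
  unfold vcap uu
  by_cases h : y = Fin.rev x
  · rw [if_pos h, if_pos ((rev_iff x y).2 h), ← (rev_comm x y).1 h]
  · rw [if_neg h, if_neg]
    rwa [rev_iff]

lemma uu_ne (h : ∀ x y : Fin N, (x : ℕ) + y + 1 = N → vcup s N x y ≠ 0) (x : Fin N) :
    uu s N x ≠ 0 := h x (Fin.rev x) ((rev_iff _ _).2 rfl)

/-- the slide across a minimum -/
lemma SB (h : ∀ e x p q r, ∑ b, (MV s N).cup p b * (MV s N).X e b x q r =
      ∑ a, (MV s N).cup a r * (MV s N).X (!e) x a p q) (e : Bool) (x y c d : Fin N) :
    uu s N (Fin.rev x) * (MV s N).X e x y c d =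
      uu s N (Fin.rev d) * (MV s N).X (!e) y (Fin.rev d) (Fin.rev x) c := by
  have h1 := h e y (Fin.rev x) c d
  simp only [cup_eq, ite_mul, zero_mul] at h1
  have h2 : ∀ a : Fin N, (d = Fin.rev a) = (a = Fin.rev d) := fun a => propext (rev_comm a d)
  simp only [h2, Finset.sum_ite_eq', Finset.mem_univ, if_true, Fin.rev_rev] at h1
  exact h1

/-- the slide across a maximum -/
lemma SA (h : ∀ e x y z t, ∑ c, (MV s N).X e y z c t * (MV s N).cap x c =
      ∑ d, (MV s N).X (!e) x y t d * (MV s N).cap d z) (e : Bool) (x y c d : Fin N) :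
    (MV s N).X e x y c d * (uu s N c)⁻¹ =
      (MV s N).X (!e) (Fin.rev c) x d (Fin.rev y) * (uu s N y)⁻¹ := by
  have h1 := h e (Fin.rev c) x y d
  simp only [cap_eq, mul_ite, mul_zero] at h1
  have h2 : ∀ a : Fin N, (y = Fin.rev a) = (a = Fin.rev y) := fun a => propext (rev_comm a y)
  simp only [h2, Finset.sum_ite_eq', Finset.mem_univ, if_true, Fin.rev_rev] at h1
  exact h1

/-- the quotient of the two entries of the form -/
lemma ratio (ε : K) (κ : Fin N → K) (h : Piv (MV s N) ε κ) (x : Fin N) :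
    uu s N x * (uu s N (Fin.rev x))⁻¹ = ε * κ x := by
  have h1 := h x x
  simp only [cup_eq, cap_eq, ite_mul, zero_mul, Finset.sum_ite_eq', Finset.mem_univ, if_true] at h1
  exact h1

end

open LaurentPolynomial in
/-- the crossings of the integral model -/
noncomputable def ZX {N : ℕ} (Y : Bool → Fin N → Fin N → Fin N → Fin N → ℤ[T;T⁻¹]) (e : Bool) :
    Bool × Fin N → Bool × Fin N → Bool × Fin N → Bool × Fin N → ℤ[T;T⁻¹] :=
  fun u v u' v' => if u'.1 = v.1 ∧ v'.1 = u.1 then
    match u.1, v.1 with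
    | true, true => Y e u.2 v.2 u'.2 v'.2
    | false, true => Y (!e) v.2 (Fin.rev v'.2) (Fin.rev u.2) u'.2
    | true, false => T (4 * ((v.2 : ℤ) - u'.2)) * Y (!e) (Fin.rev u'.2) u.2 v'.2 (Fin.rev v.2)
    | false, false => Y e (Fin.rev v'.2) (Fin.rev u'.2) (Fin.rev v.2) (Fin.rev u.2)
    else 0

open LaurentPolynomial in
/-- the integral model -/
noncomputable def ZM {N : ℕ} (Y : Bool → Fin N → Fin N → Fin N → Fin N → ℤ[T;T⁻¹]) :
    Mats ℤ[T;T⁻¹] (Bool × Fin N) where
  cup := fun u v => if u.1 = v.1 then 0 else if v.2 = Fin.rev u.2 then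
    (if u.1 then 1 else (-1) ^ (N - 1) * T (2 * ((N : ℤ) - 1 - 2 * (u.2 : ℕ)))) else 0
  cap := fun u v => if u.1 = v.1 then 0 else if v.2 = Fin.rev u.2 then
    (if u.1 then (-1) ^ (N - 1) * T (2 * ((N : ℤ) - 1 - 2 * (u.2 : ℕ))) else 1) else 0
  X := ZX Y

/-- the change of the basis vectors -/
noncomputable def gg (N : ℕ) (u : Bool × Fin N) : KQ :=
  if u.1 then 1 else (uu sQ N (Fin.rev u.2))⁻¹

/-- the inverse change -/
noncomputable def gg' (N : ℕ) (u : Bool × Fin N) : KQ :=
  if u.1 then 1 else uu sQ N (Fin.rev u.2)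

open LaurentPolynomial in
lemma ZX_dvd {N : ℕ} (Y : Bool → Fin N → Fin N → Fin N → Fin N → ℤ[T;T⁻¹])
    (h : ∀ x y c d, (T 1 - 1) ∣ Y true x y c d - Y false x y c d) (x y c d : Bool × Fin N) :
    (T 1 - 1) ∣ ZX Y true x y c d - ZX Y false x y c d := by
  obtain ⟨o1, x⟩ := x
  obtain ⟨o2, y⟩ := y
  obtain ⟨o3, c⟩ := c
  obtain ⟨o4, d⟩ := d
  have h' : ∀ x y c d, (T 1 - 1) ∣ Y false x y c d - Y true x y c d :=
    fun x y c d => dvd_sub_comm.1 (h x y c d)
  unfold ZX
  by_cases hc : o3 = o2 ∧ o4 = o1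
  · simp only [if_pos hc]
    cases o1 <;> cases o2
    · exact h _ _ _ _
    · exact h' _ _ _ _
    · simp only [Bool.not_true, Bool.not_false]
      rw [← mul_sub]
      exact Dvd.dvd.mul_left (h' _ _ _ _) _
    · exact h _ _ _ _
  · simp only [if_neg hc, sub_self, dvd_zero]

end INT

open INT in
theorem t_INT (hINX : INX_Stmt) (hSLI : SLI_Stmt) (hCUPM : CUPM_Stmt) (hESER : ESER_Stmt) :
    INT_Stmt := by
  intro φ hφ N hN
  obtain ⟨Y, hY, hYd⟩ := hINX φ hφ N hN
  obtain ⟨-, -, -, hsQ, hgen, -⟩ := hESER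
  obtain ⟨hne, -, -, hpiv, -⟩ := hCUPM KQ sQ hgen N hN
  obtain ⟨hsa, hsb⟩ := hSLI KQ sQ hgen N hN
  have hu : ∀ x, uu sQ N x ≠ 0 := uu_ne sQ N hne
  have hT : ∀ n : ℤ, toK (φ (LaurentPolynomial.T n)) = sQ ^ n := fun n => by rw [hφ n, hsQ]
  have hs0 : sQ ≠ 0 := hgen.1
  have hrat := ratio sQ N _ _ hpiv
  have hkap : ∀ x : Fin N, kap sQ N x = sQ ^ (2 * ((N : ℤ) - 1 - 2 * (x : ℕ))) := fun x => rfl
  refine ⟨ZM Y, gg N, gg' N, ?_, fun i => rfl, ?_, fun x y c d => ZX_dvd Y hYd x y c d⟩
  · rintro ⟨o, x⟩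
    cases o
    · exact inv_mul_cancel₀ (hu _)
    · exact one_mul _
  · unfold mapM gau
    rw [Mats.mk.injEq]
    refine ⟨?_, ?_, ?_⟩
    · funext u v
      obtain ⟨o, x⟩ := u
      obtain ⟨o', y⟩ := v
      by_cases hxy : y = Fin.rev x
      · subst hxy
        cases o <;> cases o'
        · simp [ZM, Mats.nrm]
        · simp only [ZM, Mats.nrm, gg, cup_eq, Bool.false_eq_true, if_false, if_true, mul_one,
            RingHom.comp_apply, map_mul, map_pow, map_neg, map_one, hT]
          rw [← hkap, ← hrat, mul_comm]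
        · simp only [ZM, Mats.nrm, gg, cup_eq, Bool.true_eq_false, Bool.false_eq_true, if_false,
            if_true, one_mul, map_one, Fin.rev_rev]
          exact (inv_mul_cancel₀ (hu x)).symm
        · simp [ZM, Mats.nrm]
      · simp [ZM, Mats.nrm, cup_eq, hxy]
    · funext u v
      obtain ⟨o, x⟩ := u
      obtain ⟨o', y⟩ := v
      by_cases hxy : y = Fin.rev x
      · subst hxy
        cases o <;> cases o'
        · simp [ZM, Mats.nrm]
        · simp only [ZM, Mats.nrm, gg', cap_eq, Bool.false_eq_true, if_false, if_true, mul_one,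
            map_one]
          exact (mul_inv_cancel₀ (hu _)).symm
        · simp only [ZM, Mats.nrm, gg', cap_eq, Bool.true_eq_false, Bool.false_eq_true, if_false,
            if_true, one_mul, RingHom.comp_apply, map_mul, map_pow, map_neg, map_one, hT,
            Fin.rev_rev]
          rw [← hkap, ← hrat]
        · simp [ZM, Mats.nrm]
      · simp [ZM, Mats.nrm, cap_eq, hxy]
    · funext e u v u' v'
      obtain ⟨o1, x⟩ := u
      obtain ⟨o2, y⟩ := v
      obtain ⟨o3, c⟩ := u'
      obtain ⟨o4, d⟩ := v'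
      by_cases hc : o3 = o2 ∧ o4 = o1
      · obtain ⟨rfl, rfl⟩ := hc
        cases o4 <;> cases o3
        · -- both strands `false`
          simp only [ZM, ZX, Mats.nrm, gg, gg', and_self, if_true, Bool.false_eq_true, if_false,
            RingHom.comp_apply, hY]
          have h1 := SB sQ N hsb e x y c d
          have h2 := SB sQ N hsb (!e) y (Fin.rev d) (Fin.rev x) c
          rw [Bool.not_not] at h2
          have h3 := hu (Fin.rev c)
          have h4 := hu (Fin.rev d)
          have h5 : uu sQ N (Fin.rev x) * uu sQ N (Fin.rev y) * (MV sQ N).X e x y c d =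
              uu sQ N (Fin.rev c) * uu sQ N (Fin.rev d) *
                (MV sQ N).X e (Fin.rev d) (Fin.rev c) (Fin.rev y) (Fin.rev x) := by
            linear_combination uu sQ N (Fin.rev y) * h1 + uu sQ N (Fin.rev d) * h2
          field_simp
          linear_combination (-th sQ N e) * h5
        · -- `x` false, `y` true
          simp only [ZM, ZX, Mats.nrm, gg, gg', and_self, if_true, Bool.false_eq_true, if_false,
            RingHom.comp_apply, hY, mul_one, one_mul]
          have h1 := SB sQ N hsb e x y c d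
          have h4 := hu (Fin.rev d)
          field_simp
          linear_combination (-th sQ N (!e)) * h1
        · -- `x` true, `y` false
          simp only [ZM, ZX, Mats.nrm, gg, gg', and_self, if_true, Bool.true_eq_false,
            Bool.false_eq_true, if_false, RingHom.comp_apply, hY, mul_one, one_mul, map_mul, hT]
          have h1 := SA sQ N hsa e x y c d
          have h2 := hrat y
          have h3 := hrat c
          have h4 : sQ ^ (4 * ((y : ℤ) - (c : ℤ))) * kap sQ N y = kap sQ N c := by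
            rw [hkap, hkap, ← zpow_add₀ hs0]
            congr 1
            ring
          have hε : ((-1 : KQ) ^ (N - 1)) * (-1) ^ (N - 1) = 1 := by
            rw [← mul_pow]
            norm_num
          have e1 := hu c
          have e2 := hu y
          have e3 := hu (Fin.rev c)
          have e4 := hu (Fin.rev y)
          have hky : kap sQ N y ≠ 0 := by
            rw [hkap]
            exact zpow_ne_zero _ hs0
          have h5 : uu sQ N (Fin.rev y) * (uu sQ N (Fin.rev c))⁻¹ * (MV sQ N).X e x y c d =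
              sQ ^ (4 * ((y : ℤ) - (c : ℤ))) *
                (MV sQ N).X (!e) (Fin.rev c) x d (Fin.rev y) := by
            have h6 : sQ ^ (4 * ((y : ℤ) - (c : ℤ))) *
                (uu sQ N y * (uu sQ N (Fin.rev y))⁻¹) = uu sQ N c * (uu sQ N (Fin.rev c))⁻¹ := by
              rw [h2, h3, ← h4]
              ring
            have h7 : (MV sQ N).X e x y c d =
                (MV sQ N).X (!e) (Fin.rev c) x d (Fin.rev y) * (uu sQ N y)⁻¹ * uu sQ N c := by
              rw [← h1]
              field_simp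
            rw [h7]
            have h8 : sQ ^ (4 * ((y : ℤ) - (c : ℤ))) = uu sQ N (Fin.rev y) *
                (uu sQ N (Fin.rev c))⁻¹ * (uu sQ N y)⁻¹ * uu sQ N c := by
              have h9 : sQ ^ (4 * ((y : ℤ) - (c : ℤ))) = (uu sQ N c * (uu sQ N (Fin.rev c))⁻¹) *
                  (uu sQ N y * (uu sQ N (Fin.rev y))⁻¹)⁻¹ := by
                rw [← h6]
                field_simp
              rw [h9]
              field_simp
            rw [h8]
            ring
          linear_combination (-th sQ N (!e)) * h5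
        · simp only [ZM, ZX, Mats.nrm, gg, gg', and_self, if_true, RingHom.comp_apply, hY, mul_one,
            one_mul]
      · simp only [ZM, ZX, Mats.nrm, if_neg hc, map_zero, mul_zero]

end Pool.Agent.WD
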