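import Pool.Agent.WD.StQ

/-!
# WD_INX: the normalised crossings are integral and congruent modulo `T - 1` (MP_31fd3b_gt)
-/

set_option autoImplicit false

namespace Pool.Agent.WD

open Pool.Agent.LibH11 Pool.Agent.IT Pool.Agent.GK Pool.Agent.TwoBr
open scoped BigOperators
open LaurentPolynomial

namespace INX

/-! ### Integral elements -/

section Cong

variable {K : Type} [Field K] (ψ : ℤ[T;T⁻¹] →+* K)

/-- `z` is the image of an element which is congruent to the integer `m`. -/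
def Cg (z : K) (m : ℤ) : Prop := ∃ y : ℤ[T;T⁻¹], ψ y = z ∧ (T 1 - 1) ∣ y - (m : ℤ[T;T⁻¹])

/-- `z` is in the image. -/
def In (z : K) : Prop := ∃ y : ℤ[T;T⁻¹], ψ y = z

variable {ψ}

theorem Cg.to_in {z : K} {m : ℤ} (h : Cg ψ z m) : In ψ z := by
  obtain ⟨y, h, -⟩ := h
  exact ⟨y, h⟩

theorem In.add {z z' : K} (h : In ψ z) (h' : In ψ z') : In ψ (z + z') := by
  obtain ⟨y, rfl⟩ := h
  obtain ⟨y', rfl⟩ := h'
  exact ⟨y + y', map_add _ _ _⟩

theorem In.mul {z z' : K} (h : In ψ z) (h' : In ψ z') : In ψ (z * z') := by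
  obtain ⟨y, rfl⟩ := h
  obtain ⟨y', rfl⟩ := h'
  exact ⟨y * y', map_mul _ _ _⟩

theorem In.neg {z : K} (h : In ψ z) : In ψ (-z) := by
  obtain ⟨y, rfl⟩ := h
  exact ⟨-y, map_neg _ _⟩

theorem In.zero : In ψ 0 := ⟨0, map_zero _⟩

theorem In.one : In ψ 1 := ⟨1, map_one _⟩

theorem In.sum {α : Type} (S : Finset α) (f : α → K) (h : ∀ i ∈ S, In ψ (f i)) :
    In ψ (∑ i ∈ S, f i) := by
  classical
  induction S using Finset.induction_on with
  | empty => rw [Finset.sum_empty]; exact In.zero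
  | insert a S ha ih =>
    rw [Finset.sum_insert ha]
    exact (h a (Finset.mem_insert_self _ _)).add
      (ih fun i hi => h i (Finset.mem_insert_of_mem hi))

theorem Cg.add {z z' : K} {m m' : ℤ} (h : Cg ψ z m) (h' : Cg ψ z' m') :
    Cg ψ (z + z') (m + m') := by
  obtain ⟨y, rfl, h1⟩ := h
  obtain ⟨y', rfl, h2⟩ := h'
  refine ⟨y + y', map_add _ _ _, ?_⟩
  have := dvd_add h1 h2
  rw [show y + y' - ((m + m' : ℤ) : ℤ[T;T⁻¹]) = (y - m) + (y' - m') by push_cast; ring]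
  exact this

theorem Cg.mul {z z' : K} {m m' : ℤ} (h : Cg ψ z m) (h' : Cg ψ z' m') :
    Cg ψ (z * z') (m * m') := by
  obtain ⟨y, rfl, h1⟩ := h
  obtain ⟨y', rfl, h2⟩ := h'
  refine ⟨y * y', map_mul _ _ _, ?_⟩
  have := dvd_add (h1.mul_right y') (h2.mul_left (m : ℤ[T;T⁻¹]))
  rw [show y * y' - ((m * m' : ℤ) : ℤ[T;T⁻¹]) = (y - m) * y' + m * (y' - m') by push_cast; ring]
  exact this

theorem Cg.sub {z z' : K} {m m' : ℤ} (h : Cg ψ z m) (h' : Cg ψ z' m') :
    Cg ψ (z - z') (m - m') := by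
  obtain ⟨y, rfl, h1⟩ := h
  obtain ⟨y', rfl, h2⟩ := h'
  refine ⟨y - y', map_sub _ _ _, ?_⟩
  have := dvd_sub h1 h2
  rw [show y - y' - ((m - m' : ℤ) : ℤ[T;T⁻¹]) = (y - m) - (y' - m') by push_cast; ring]
  exact this

theorem Cg.int (m : ℤ) : Cg ψ (m : K) m := ⟨m, map_intCast _ _, by rw [sub_self]; exact dvd_zero _⟩

theorem Cg.pow {z : K} {m : ℤ} (h : Cg ψ z m) (n : ℕ) : Cg ψ (z ^ n) (m ^ n) := by
  induction n with
  | zero =>
    have := Cg.int (ψ := ψ) 1
    simpa using this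
  | succ n ih => rw [pow_succ, pow_succ]; exact ih.mul h

/-- multiples of elements congruent to `0` -/
theorem Cg.mul_in {z z' : K} (h : Cg ψ z 0) (h' : In ψ z') : Cg ψ (z * z') 0 := by
  obtain ⟨y, rfl, h1⟩ := h
  obtain ⟨y', rfl⟩ := h'
  refine ⟨y * y', map_mul _ _ _, ?_⟩
  rw [Int.cast_zero, sub_zero] at h1 ⊢
  exact h1.mul_right y'

theorem Cg.sum {α : Type} (S : Finset α) (f : α → K) (m : α → ℤ)
    (h : ∀ i ∈ S, Cg ψ (f i) (m i)) : Cg ψ (∑ i ∈ S, f i) (∑ i ∈ S, m i) := by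
  classical
  induction S using Finset.induction_on with
  | empty =>
    rw [Finset.sum_empty, Finset.sum_empty]
    have := Cg.int (ψ := ψ) 0
    simpa using this
  | insert a S ha ih =>
    rw [Finset.sum_insert ha, Finset.sum_insert ha]
    exact (h a (Finset.mem_insert_self _ _)).add
      (ih fun i hi => h i (Finset.mem_insert_of_mem hi))

theorem T_npow (k : ℕ) : (T (k : ℤ) : ℤ[T;T⁻¹]) = (T 1) ^ k := by
  rw [LaurentPolynomial.T_pow, mul_one]

theorem T_dvd (k : ℤ) : (T 1 - 1 : ℤ[T;T⁻¹]) ∣ T k - 1 := by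
  have key : ∀ k : ℕ, (T 1 - 1 : ℤ[T;T⁻¹]) ∣ T (k : ℤ) - 1 := by
    intro k
    have h := sub_dvd_pow_sub_pow (T 1 : ℤ[T;T⁻¹]) 1 k
    rw [one_pow, ← T_npow] at h
    exact h
  obtain ⟨n, rfl | rfl⟩ := k.eq_nat_or_neg
  · exact key n
  · have h : (T (-(n : ℤ)) - 1 : ℤ[T;T⁻¹]) = -T (-(n : ℤ)) * (T (n : ℤ) - 1) := by
      have h1 : (T (-(n : ℤ)) * T (n : ℤ) : ℤ[T;T⁻¹]) = 1 := by
        rw [← T_add, neg_add_cancel, T_zero]
      linear_combination h1
    rw [h]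
    exact (key n).mul_left _

theorem cg_T {s : K} (hs : ∀ k : ℤ, ψ (T k) = s ^ k) (k : ℤ) : Cg ψ (s ^ k) 1 :=
  ⟨T k, hs k, by rw [Int.cast_one]; exact T_dvd k⟩

/-! ### Quantum integers -/

theorem gen_ne {s : K} (hg : Gen s) : s ^ (2 : ℤ) - s ^ (-2 : ℤ) ≠ 0 := by
  intro h
  apply hg.2 1 one_pos
  have h1 : s ^ (2 : ℤ) = s ^ (-2 : ℤ) := sub_eq_zero.1 h
  have h2 : s ^ (2 : ℤ) * s ^ (2 : ℤ) = 1 := by
    nth_rewrite 1 [h1]
    rw [← zpow_add₀ hg.1, show (-2 : ℤ) + 2 = 0 by norm_num, zpow_zero]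
  have h3 : s ^ (2 : ℤ) = s ^ (2 : ℕ) := zpow_natCast s 2
  rw [h3, ← pow_add] at h2
  exact h2

theorem qn_succ {s : K} (hg : Gen s) (k : ℤ) :
    qn s (k + 1) = s ^ (2 : ℤ) * qn s k + s ^ (-(2 * k)) := by
  have h := gen_ne hg
  have hs := hg.1
  unfold qn
  rw [← mul_div_assoc, div_add' _ _ _ h, div_left_inj' h]
  have e1 : s ^ (2 * (k + 1)) = s ^ (2 : ℤ) * s ^ (2 * k) := by
    rw [← zpow_add₀ hs]; congr 1; ring
  have e2 : s ^ (-(2 * (k + 1))) = s ^ (-(2 * k)) * s ^ (-2 : ℤ) := by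
    rw [← zpow_add₀ hs]; congr 1; ring
  rw [e1, e2]
  ring

theorem qn_neg (s : K) (k : ℤ) : qn s (-k) = -qn s k := by
  unfold qn
  rw [mul_neg, neg_neg, ← neg_sub, neg_div]

theorem qn_in {s : K} (hg : Gen s) (hs : ∀ k : ℤ, ψ (T k) = s ^ k) (k : ℤ) : In ψ (qn s k) := by
  have key : ∀ n : ℕ, In ψ (qn s (n : ℤ)) := by
    intro n
    induction n with
    | zero =>
      have : qn s ((0 : ℕ) : ℤ) = 0 := by simp [qn]
      rw [this]
      exact In.zero
    | succ n ih =>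
      rw [Nat.cast_succ, qn_succ hg]
      exact ((cg_T hs 2).to_in.mul ih).add (cg_T hs _).to_in
  obtain ⟨n, rfl | rfl⟩ := k.eq_nat_or_neg
  · exact key n
  · rw [qn_neg]
    exact (key n).neg

theorem qn_ne {s : K} (hg : Gen s) (n : ℕ) : qn s ((n : ℤ) + 1) ≠ 0 := by
  unfold qn
  refine div_ne_zero ?_ (gen_ne hg)
  intro h
  apply hg.2 (n + 1) n.succ_pos
  have h1 := sub_eq_zero.1 h
  have h2 : s ^ (2 * ((n : ℤ) + 1)) * s ^ (2 * ((n : ℤ) + 1)) = 1 := by
    nth_rewrite 1 [h1]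
    rw [← zpow_add₀ hg.1, neg_add_cancel, zpow_zero]
  rw [← zpow_add₀ hg.1, ← zpow_natCast] at *
  rw [← h2]
  congr 1
  push_cast
  ring

theorem qfac_ne {s : K} (hg : Gen s) (n : ℕ) : qfac s n ≠ 0 :=
  Finset.prod_ne_zero_iff.2 fun i _ => qn_ne hg i

theorem qfac_succ (s : K) (n : ℕ) : qfac s (n + 1) = qfac s n * qn s ((n : ℤ) + 1) :=
  Finset.prod_range_succ _ _

/-- Powers of `F`. -/
theorem F_pow {s : K} (hg : Gen s) (N n : ℕ) (a b : Fin N) :
    ((V s N).F ^ n) a b = if (a : ℕ) = b + n then qfac s a / qfac s b else 0 := by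
  induction n generalizing b with
  | zero =>
    rw [pow_zero, Matrix.one_apply]
    by_cases h : a = b
    · subst h
      rw [if_pos rfl, if_pos (show (a : ℕ) = a + 0 from rfl), div_self (qfac_ne hg _)]
    · rw [if_neg h, if_neg]
      exact fun h' => h (Fin.ext h')
  | succ n ih =>
    rw [pow_succ, Matrix.mul_apply]
    by_cases hb : (b : ℕ) + 1 < N
    · rw [Finset.sum_eq_single (⟨(b : ℕ) + 1, hb⟩ : Fin N)]
      · rw [ih]
        show _ * (if ((b : ℕ) + 1) = b + 1 then qn s (((b : ℕ) + 1 : ℕ) : ℤ) else 0) = _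
        rw [if_pos rfl]
        by_cases h : (a : ℕ) = b + (n + 1)
        · rw [if_pos h, if_pos (show (a : ℕ) = ((⟨(b : ℕ) + 1, hb⟩ : Fin N) : ℕ) + n by
            show (a : ℕ) = (b : ℕ) + 1 + n
            omega)]
          show qfac s a / qfac s ((b : ℕ) + 1) * _ = _
          rw [qfac_succ]
          have h1 := qfac_ne hg (b : ℕ)
          have h2 := qn_ne hg (b : ℕ)
          push_cast
          field_simp
        · rw [if_neg h, if_neg (show ¬ (a : ℕ) = ((⟨(b : ℕ) + 1, hb⟩ : Fin N) : ℕ) + n by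
            show ¬ (a : ℕ) = (b : ℕ) + 1 + n
            omega), zero_mul]
      · intro j _ hj
        show _ * (if (j : ℕ) = b + 1 then _ else 0) = 0
        rw [if_neg, mul_zero]
        exact fun h => hj (Fin.ext h)
      · intro h
        exact absurd (Finset.mem_univ _) h
    · rw [if_neg (by have := a.2; omega)]
      refine Finset.sum_eq_zero fun j _ => ?_
      show _ * (if (j : ℕ) = b + 1 then _ else 0) = 0
      rw [if_neg, mul_zero]
      have := j.2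
      omega

/-- Powers of `E` are integral. -/
theorem E_in {s : K} (hg : Gen s) (hs : ∀ k : ℤ, ψ (T k) = s ^ k) (N n : ℕ) (a b : Fin N) :
    In ψ (((V s N).E ^ n) a b) := by
  induction n generalizing b with
  | zero =>
    rw [pow_zero, Matrix.one_apply]
    split_ifs
    · exact In.one
    · exact In.zero
  | succ n ih =>
    rw [pow_succ, Matrix.mul_apply]
    refine In.sum _ _ fun j _ => (ih j).mul ?_
    show In ψ (if (j : ℕ) + 1 = b then qn s ((N : ℤ) - (b : ℕ)) else 0)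
    split_ifs
    · exact qn_in hg hs _
    · exact In.zero

/-- The coefficients with the powers of `F`. -/
theorem coef {s : K} (hg : Gen s)
    (hq : ∀ a b : ℕ, In ψ (qfac s (a + b) / (qfac s a * qfac s b))) (N n : ℕ) (hn : n ≠ 0)
    (u v : K) (hu : Cg ψ u 1) (hv : Cg ψ v 0) (a b : Fin N) :
    Cg ψ (u * v ^ n / qfac s n * ((V s N).F ^ n) a b) 0 := by
  rw [F_pow hg]
  by_cases h : (a : ℕ) = b + n
  · rw [if_pos h, h]
    have e : u * v ^ n / qfac s n * (qfac s (b + n) / qfac s b) =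
        v ^ n * (u * (qfac s (b + n) / (qfac s b * qfac s n))) := by
      have h1 := qfac_ne hg n
      have h2 := qfac_ne hg (b : ℕ)
      field_simp
    rw [e]
    have h3 := hv.pow n
    rw [zero_pow hn] at h3
    exact h3.mul_in (hu.to_in.mul (hq _ _))
  · rw [if_neg h, mul_zero]
    have := Cg.int (ψ := ψ) 0
    simpa using this

/-- The sum over `n` of the terms of the braiding. -/
theorem csum {s : K} (hg : Gen s) (hs : ∀ k : ℤ, ψ (T k) = s ^ k)
    (hq : ∀ a b : ℕ, In ψ (qfac s (a + b) / (qfac s a * qfac s b))) (N : ℕ) (hN : 1 ≤ N)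
    (u : ℕ → K) (v : K) (hu : ∀ n, Cg ψ (u n) 1) (hu0 : u 0 = 1) (hv : Cg ψ v 0)
    (a b c d : Fin N) :
    Cg ψ (∑ n ∈ Finset.range N, u n * v ^ n / qfac s n * ((V s N).E ^ n) a b *
      ((V s N).F ^ n) c d) ((if a = b then 1 else 0) * (if c = d then 1 else 0)) := by
  obtain ⟨M, rfl⟩ : ∃ M, N = M + 1 := ⟨N - 1, by omega⟩
  rw [Finset.sum_range_succ', add_comm]
  have h0 : Cg ψ (u 0 * v ^ 0 / qfac s 0 * ((V s (M + 1)).E ^ 0) a b *
      ((V s (M + 1)).F ^ 0) c d) ((if a = b then 1 else 0) * (if c = d then 1 else 0)) := by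
    have h1 : qfac s 0 = 1 := rfl
    rw [hu0, h1, pow_zero, pow_zero, pow_zero, Matrix.one_apply, Matrix.one_apply, mul_one,
      div_one, one_mul]
    have h2 := Cg.int (ψ := ψ) ((if a = b then 1 else 0) * (if c = d then 1 else 0))
    have h3 : (((if a = b then 1 else 0) * (if c = d then 1 else 0) : ℤ) : K) =
        (if a = b then 1 else 0) * (if c = d then 1 else 0) := by
      push_cast
      rfl
    rw [h3] at h2
    exact h2
  have h1 := Cg.sum (ψ := ψ) (Finset.range M) (fun k => u (k + 1) * v ^ (k + 1) / qfac s (k + 1) *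
    ((V s (M + 1)).E ^ (k + 1)) a b * ((V s (M + 1)).F ^ (k + 1)) c d) (fun _ => 0) (by
      intro k _
      have h2 := coef hg hq (M + 1) (k + 1) (Nat.succ_ne_zero k) (u (k + 1)) v (hu _) hv c d
      have h3 := h2.mul_in (E_in hg hs (M + 1) (k + 1) a b)
      have e : u (k + 1) * v ^ (k + 1) / qfac s (k + 1) * ((V s (M + 1)).F ^ (k + 1)) c d *
          ((V s (M + 1)).E ^ (k + 1)) a b = u (k + 1) * v ^ (k + 1) / qfac s (k + 1) *
          ((V s (M + 1)).E ^ (k + 1)) a b * ((V s (M + 1)).F ^ (k + 1)) c d := by ring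
      rw [e] at h3
      exact h3)
  have h4 := h0.add h1
  rw [Finset.sum_const_zero, add_zero] at h4
  exact h4

/-- The crossings. -/
theorem X_cg {s : K} (hg : Gen s) (hs : ∀ k : ℤ, ψ (T k) = s ^ k)
    (hq : ∀ a b : ℕ, In ψ (qfac s (a + b) / (qfac s a * qfac s b))) (N : ℕ) (hN : 1 ≤ N)
    (e : Bool) (x y c d : Fin N) :
    Cg ψ (th s N e * (MV s N).X e x y c d)
      ((-1) ^ (N - 1) * ((if y = c then 1 else 0) * (if x = d then 1 else 0))) := by
  have hm : Cg ψ ((-1) ^ (N - 1) : K) ((-1) ^ (N - 1)) := by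
    have h1 := Cg.int (ψ := ψ) ((-1) ^ (N - 1))
    have h2 : (((-1) ^ (N - 1) : ℤ) : K) = (-1) ^ (N - 1) := by push_cast; rfl
    rw [h2] at h1
    exact h1
  have hT := cg_T (ψ := ψ) hs
  have hv : Cg ψ (s ^ (2 : ℤ) - s ^ (-2 : ℤ)) 0 := by
    have := (hT 2).sub (hT (-2))
    rwa [sub_self] at this
  have hv' : Cg ψ (s ^ (-2 : ℤ) - s ^ (2 : ℤ)) 0 := by
    have := (hT (-2)).sub (hT 2)
    rwa [sub_self] at this
  cases e with
  | true =>
    have h1 := csum hg hs hq N hN (fun n => s ^ ((n : ℤ) * (n - 1))) _ (fun n => hT _)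
      (by simp) hv y c x d
    have h2 := (hm.mul (hT (-((N : ℤ) ^ 2 - 1)))).mul
      ((hT ((V s N).wt y * (V s N).wt x)).mul h1)
    rw [one_mul, mul_one] at h2
    have e1 : th s N true * (MV s N).X true x y c d =
        (-1) ^ (N - 1) * s ^ (-((N : ℤ) ^ 2 - 1)) * (s ^ ((V s N).wt y * (V s N).wt x) *
        ∑ n ∈ Finset.range N, s ^ ((n : ℤ) * (n - 1)) * (s ^ (2 : ℤ) - s ^ (-2 : ℤ)) ^ n /
          qfac s n * ((V s N).E ^ n) y c * ((V s N).F ^ n) x d) := by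
      show _ * Rm s (V s N) (V s N) (x, y) (c, d) = _
      unfold Rm aq
      rw [Fintype.card_fin]
      rfl
    rw [e1]
    exact h2
  | false =>
    have h1 := csum hg hs hq N hN (fun n => s ^ (-((n : ℤ) * (n - 1)))) _ (fun n => hT _)
      (by simp) hv' x d y c
    have h2 := (hm.mul (hT ((N : ℤ) ^ 2 - 1))).mul
      (h1.mul (hT (-((V s N).wt d * (V s N).wt c))))
    rw [mul_one, mul_one, mul_comm (if x = d then (1 : ℤ) else 0)] at h2
    have e1 : th s N false * (MV s N).X false x y c d =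
        (-1) ^ (N - 1) * s ^ ((N : ℤ) ^ 2 - 1) * ((∑ n ∈ Finset.range N,
        s ^ (-((n : ℤ) * (n - 1))) * (s ^ (-2 : ℤ) - s ^ (2 : ℤ)) ^ n /
          qfac s n * ((V s N).E ^ n) x d * ((V s N).F ^ n) y c) *
        s ^ (-((V s N).wt d * (V s N).wt c))) := by
      show _ * Rm' s (V s N) (V s N) (x, y) (c, d) = _
      unfold Rm' aq'
      rw [Fintype.card_fin]
      rfl
    rw [e1]
    exact h2

end Cong

end INX

open INX in
theorem t_INX (hQBI : QBI_Stmt) (hE : ESER_Stmt) : INX_Stmt := by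
  intro φ hφ N hN
  obtain ⟨-, -, -, hpow, hg, -⟩ := hE
  let ψ : ℤ[T;T⁻¹] →+* KQ := toK.comp φ
  have hs : ∀ k : ℤ, ψ (T k) = sQ ^ k := by
    intro k
    rw [hpow k]
    show toK (φ (T k)) = _
    rw [hφ k]
  have hq : ∀ a b : ℕ, In ψ (qfac sQ (a + b) / (qfac sQ a * qfac sQ b)) := by
    intro a b
    obtain ⟨z, hz⟩ := hQBI φ hφ a b
    exact ⟨z, hz⟩
  have key := fun (e : Bool) (x y c d : Fin N) => X_cg hg hs hq N hN e x y c d
  choose Y h1 h2 using key
  refine ⟨Y, h1, fun x y c d => ?_⟩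
  have h3 := dvd_sub (h2 true x y c d) (h2 false x y c d)
  rw [sub_sub_sub_cancel_right] at h3
  exact h3

end Pool.Agent.WD
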