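import Pool.Agent.WD.StQ

/-!
# JFD: the values of the invariants of the integral model
-/

namespace Pool.Agent.WD

open Pool.Agent.LibH11 Pool.Agent.IT Pool.Agent.GK Pool.Agent.TwoBr
open Pool.Agent.LibH11.Sliced (Diag Kind cnt IsLongKnot ofDiag braidWord)
open scoped BigOperators
open PowerSeries

namespace JFD

open LaurentPolynomial in
theorem val_eq (hMPM : MPM_Stmt) (hGAU : GAU_Stmt) (φ : ℤ[T;T⁻¹] →+* ℚ⟦X⟧) (N : ℕ) (hN : 1 ≤ N)
    (Z : Mats ℤ[T;T⁻¹] (Bool × Fin N)) (g g' : Bool × Fin N → KQ) (hg : ∀ u, g u * g' u = 1)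
    (hg1 : ∀ i, g (true, i) = 1) (M : Mats KQ (Bool × Fin N))
    (hZ : mapM (toK.comp φ) Z = gau M g g')
    (F : List (Bool × Fin N) → ℤ[T;T⁻¹])
    (hF : ∀ l, F l = if l = [(true, ⟨0, hN⟩)] then 1 else 0) (D : Diag) :
    toK (φ (Z.val D F [(true, ⟨0, hN⟩)])) =
      M.val D (fun l => if l = [(true, ⟨0, hN⟩)] then 1 else 0) [(true, ⟨0, hN⟩)] := by
  have h1 := (hMPM _ _ _ (toK.comp φ) Z).1 D F [(true, ⟨0, hN⟩)]
  have h2 : toK (φ (Z.val D F [(true, ⟨0, hN⟩)])) = (toK.comp φ) (Z.val D F [(true, ⟨0, hN⟩)]) :=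
    rfl
  rw [h2, ← h1, hZ, (hGAU KQ _ M g g' hg).2 D]
  have h3 : (fun l' : List (Bool × Fin N) => (l'.map g).prod * (toK.comp φ) (F l')) =
      fun l => if l = [(true, ⟨0, hN⟩)] then 1 else 0 := by
    funext l
    rw [hF]
    by_cases hl : l = [(true, ⟨0, hN⟩)]
    · rw [if_pos hl, if_pos hl, hl, map_one]
      simp [hg1]
    · rw [if_neg hl, if_neg hl, map_zero, mul_zero]
  rw [h3]
  have h4 : g' (true, ⟨0, hN⟩) = 1 := by
    have := hg (true, ⟨0, hN⟩)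
    rwa [hg1, one_mul] at this
  simp [h4]

theorem map_F (N : ℕ) (hN : 1 ≤ N) :
    (if List.map (fun x => (true, x)) [(⟨0, hN⟩ : Fin N)] = [(true, (⟨0, hN⟩ : Fin N))]
      then (1 : KQ) else 0) = 1 := if_pos rfl

theorem pow_neg_one_sq (N : ℕ) : ((-1 : KQ) ^ (N - 1)) * ((-1) ^ (N - 1)) = 1 := by
  rw [← mul_pow]
  simp

theorem th_mul (s : KQ) (hs : s ≠ 0) (N : ℕ) (e : Bool) : th s N e * th s N (!e) = 1 := by
  unfold th
  have h : ((-1 : KQ) ^ (N - 1)) * ((-1) ^ (N - 1)) = 1 := pow_neg_one_sq N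
  cases e
  · simp only [Bool.false_eq_true, if_false, Bool.not_false, if_true]
    calc (-1 : KQ) ^ (N - 1) * s ^ ((N : ℤ) ^ 2 - 1) * ((-1) ^ (N - 1) * s ^ (-((N : ℤ) ^ 2 - 1)))
        = ((-1 : KQ) ^ (N - 1) * (-1) ^ (N - 1)) *
          (s ^ ((N : ℤ) ^ 2 - 1) * s ^ (-((N : ℤ) ^ 2 - 1))) := by ring
      _ = 1 := by rw [h, ← zpow_add₀ hs, add_neg_cancel, zpow_zero, one_mul]
  · simp only [Bool.not_true, Bool.false_eq_true, if_false, if_true]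
    calc (-1 : KQ) ^ (N - 1) * s ^ (-((N : ℤ) ^ 2 - 1)) * ((-1) ^ (N - 1) * s ^ ((N : ℤ) ^ 2 - 1))
        = ((-1 : KQ) ^ (N - 1) * (-1) ^ (N - 1)) *
          (s ^ (-((N : ℤ) ^ 2 - 1)) * s ^ ((N : ℤ) ^ 2 - 1)) := by ring
      _ = 1 := by rw [h, ← zpow_add₀ hs, neg_add_cancel, zpow_zero, one_mul]

theorem th_sq (s : KQ) (N : ℕ) (e : Bool) (k : ℕ) :
    th s N e ^ (2 * k) = s ^ ((2 * k : ℤ) * (if e then -((N : ℤ) ^ 2 - 1) else (N : ℤ) ^ 2 - 1)) := by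
  unfold th
  rw [mul_pow, ← pow_mul, mul_comm (N - 1), pow_mul, pow_mul]
  rw [show ((-1 : KQ) ^ 2) = 1 by ring, one_pow, one_pow, one_mul, ← zpow_natCast, ← zpow_mul]
  congr 1
  push_cast
  ring

theorem word_prod (s : KQ) (hs : s ≠ 0) (N : ℕ) (w : Word) :
    (w.map fun p => th s N p.2).prod =
      s ^ (-(((N : ℤ) ^ 2 - 1) * wr w)) * ((-1) ^ (N - 1)) ^ w.length := by
  induction w with
  | nil => simp [wr]
  | cons p w ih =>
    have h1 : wr (p :: w) = (if p.2 then (1 : ℤ) else -1) + wr w := by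
      unfold wr
      rw [List.map_cons, List.sum_cons]
    rw [List.map_cons, List.prod_cons, ih, h1, List.length_cons, pow_succ]
    have h2 : th s N p.2 = (-1) ^ (N - 1) *
        s ^ (-(((N : ℤ) ^ 2 - 1) * (if p.2 then (1 : ℤ) else -1))) := by
      unfold th
      cases p.2 <;> simp
    rw [h2, mul_add, neg_add, zpow_add₀ hs]
    ring

end JFD

theorem t_JFD (hMPM : MPM_Stmt) (hGAU : GAU_Stmt) (hNRC : NRC_Stmt) (hNRD : NRD_Stmt)
    (hSCC : SCC_Stmt) (hSCD : SCD_Stmt) (hCUPM : CUPM_Stmt) (hESER : ESER_Stmt) : JFD_Stmt := by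
  intro φ _ N hN Z g g' hg hg1 hZ F hF n w hw hk
  have hG : IT.Gen sQ := hESER.2.2.2.2.1
  have hs : (sQ : KQ) ≠ 0 := hG.1
  obtain ⟨-, hZig, -, hPiv, -, -⟩ := hCUPM KQ sQ hG N hN
  have key := JFD.val_eq hMPM hGAU φ N hN Z g g' hg hg1 _ hZ F hF
  constructor
  · rw [key, hNRC KQ (Fin N) (MV sQ N) _ _ (th sQ N) hPiv n w hw hk]
    obtain ⟨c, hc, hc'⟩ := hSCC KQ sQ hG N hN n w hw
    rw [hc, JFD.map_F, mul_one, mul_assoc, hc', JFD.word_prod sQ hs]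
    ring
  · intro e m
    rw [key, hNRD KQ (Fin N) (MV sQ N) _ _ (th sQ N) hPiv hZig (JFD.th_mul sQ hs N) e m n w hw hk]
    obtain ⟨c, hc, hc'⟩ := hSCD KQ sQ hG N hN e m n w hw
    rw [hc, JFD.map_F, mul_one, mul_assoc, hc']
    have h2 : th sQ N (!e) ^ 2 = sQ ^ ((if e then (2 : ℤ) else -2) * ((N : ℤ) ^ 2 - 1)) := by
      have := JFD.th_sq sQ N (!e) 1
      rw [mul_one] at this
      rw [this]
      congr 1
      cases e <;> simp <;> ring
    have h3 : th sQ N (!(decide (0 < m))) ^ (2 * m.natAbs) = sQ ^ (2 * m * ((N : ℤ) ^ 2 - 1)) := by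
      rw [JFD.th_sq]
      congr 1
      by_cases hm : 0 < m
      · have h5 : (m.natAbs : ℤ) = m := Int.natAbs_of_nonneg hm.le
        rw [h5]
        simp [hm]
      · have h5 : (m.natAbs : ℤ) = -m := Int.ofNat_natAbs_of_nonpos (not_lt.1 hm)
        rw [h5]
        simp only [hm, decide_false, Bool.not_false, if_true]
        ring
    rw [h2, h3, add_mul, zpow_add₀ hs]
    ring

end Pool.Agent.WD
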