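import Pool.Agent.WD.StQ

/-!
JSX: the coloured Jones polynomials of long knots exist.
-/

namespace Pool.Agent.WD

open Pool.Agent.LibH11 Pool.Agent.IT Pool.Agent.GK Pool.Agent.TwoBr
open Pool.Agent.LibH11.Sliced (Diag Kind cnt IsLongKnot ofDiag braidWord)
open scoped BigOperators
open PowerSeries LaurentPolynomial

namespace Jsx

theorem toK_injective : Function.Injective toK := IsFractionRing.injective ℚ⟦X⟧ KQ

/-- the quantum dimension -/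
noncomputable def brk (N : ℕ) : KQ := ∑ i, (RD sQ (V sQ N)).κ i

theorem sQ_ne (he : ESER_Stmt) : sQ ≠ 0 := he.2.2.2.2.1.1

theorem d_ne (he : ESER_Stmt) : sQ ^ (2 : ℤ) - sQ ^ (-2 : ℤ) ≠ 0 := by
  intro h
  have h0 := sQ_ne he
  have h4 := he.2.2.2.2.1.2 1 one_pos
  apply h4
  have h1 : sQ ^ (2 : ℤ) = sQ ^ (-2 : ℤ) := sub_eq_zero.mp h
  have h2 : sQ ^ (2 : ℤ) * sQ ^ (2 : ℤ) = 1 := by
    nth_rewrite 2 [h1]
    rw [← zpow_add₀ h0]
    norm_num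
  have h3 : sQ ^ (4 * 1 : ℕ) = sQ ^ (2 : ℤ) * sQ ^ (2 : ℤ) := by
    rw [← zpow_add₀ h0]
    norm_num
  rw [h3, h2]

theorem brk_eq (he : ESER_Stmt) (N : ℕ) : brk N = qn sQ N := by
  have h0 := sQ_ne he
  have hd := d_ne he
  unfold qn
  rw [eq_div_iff hd]
  unfold brk
  have h1 : ∀ i : Fin N, (RD sQ (V sQ N)).κ i = sQ ^ (2 * ((N : ℤ) - 1 - 2 * (i : ℕ))) :=
    fun i => rfl
  rw [Finset.sum_congr rfl (fun i _ => h1 i),
    Fin.sum_univ_eq_sum_range (fun i : ℕ => sQ ^ (2 * ((N : ℤ) - 1 - 2 * (i : ℕ)))) N]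
  have key : ∀ M : ℕ, (∑ i ∈ Finset.range M, sQ ^ (2 * ((N : ℤ) - 1 - 2 * (i : ℕ)))) *
      (sQ ^ (2 : ℤ) - sQ ^ (-2 : ℤ)) = sQ ^ (2 * (N : ℤ)) - sQ ^ (2 * ((N : ℤ) - 2 * M)) := by
    intro M
    induction M with
    | zero => simp
    | succ M ih =>
      have e3 : sQ ^ (2 * ((N : ℤ) - 1 - 2 * (M : ℕ))) * (sQ ^ (2 : ℤ) - sQ ^ (-2 : ℤ)) =
          sQ ^ (2 * ((N : ℤ) - 2 * M)) - sQ ^ (2 * ((N : ℤ) - 2 * ((M + 1 : ℕ) : ℤ))) := by
        rw [mul_sub, ← zpow_add₀ h0, ← zpow_add₀ h0]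
        congr 2
        · ring
        · push_cast
          ring
      rw [Finset.sum_range_succ, add_mul, ih, e3]
      ring
  rw [key N]
  congr 2
  ring

theorem toK_E (he : ESER_Stmt) (k : ℤ) (x : ℚ) (hx : x = (k : ℚ) / 2) : toK (E x) = sQ ^ k := by
  rw [he.2.2.2.1 k, hx]

theorem qn_mul (he : ESER_Stmt) (N : ℕ) :
    toK (E 1 - E (-1)) * qn sQ N = toK (E N - E (-N)) := by
  have hd := d_ne he
  rw [map_sub, map_sub, toK_E he 2 1 (by norm_num), toK_E he (-2) (-1) (by norm_num),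
    toK_E he (2 * N) N (by push_cast; ring), toK_E he (-(2 * N)) (-N) (by push_cast; ring)]
  unfold qn
  rw [mul_div_cancel₀ _ hd]

theorem qn_ne (he : ESER_Stmt) {N : ℕ} (hN : 1 ≤ N) : qn sQ N ≠ 0 := by
  have h0 := sQ_ne he
  have hd := d_ne he
  unfold qn
  refine div_ne_zero ?_ hd
  intro h
  have h1 : sQ ^ (2 * (N : ℤ)) = sQ ^ (-(2 * (N : ℤ))) := sub_eq_zero.mp h
  apply he.2.2.2.2.1.2 N hN
  have h2 : sQ ^ (4 * N : ℕ) = sQ ^ (2 * (N : ℤ)) * sQ ^ (2 * (N : ℤ)) := by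
    rw [← zpow_add₀ h0, ← zpow_natCast]
    congr 1
    push_cast
    ring
  rw [h2]
  nth_rewrite 2 [h1]
  rw [← zpow_add₀ h0, add_neg_cancel, zpow_zero]

/-- the invariant of `Pool/Agent/IT` over the fraction field -/
theorem toK_J (hjm : JMAP_Stmt) (he : ESER_Stmt) {N : ℕ} {T : RData ℚ⟦X⟧ (Fin N)} {θ : ℚ⟦X⟧ˣ}
    (hT : T.map toK = RD sQ (V sQ N)) (hθ : (θ : ℚ⟦X⟧) = E (((N : ℚ) ^ 2 - 1) / 2)) (n : ℕ)
    (w : Word) : toK (J T θ n w) =
      sQ ^ (-(((N : ℤ) ^ 2 - 1) * wr w)) * Jfr (RD sQ (V sQ N)) n w := by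
  have h := (hjm ℚ⟦X⟧ KQ toK (Fin N) T θ n w).2
  rw [h, hT]
  unfold J
  congr 1
  have h1 : ((Units.map (toK : ℚ⟦X⟧ →* KQ) θ : KQˣ) : KQ) = sQ ^ ((N : ℤ) ^ 2 - 1) := by
    have : ((Units.map (toK : ℚ⟦X⟧ →* KQ) θ : KQˣ) : KQ) = toK (θ : ℚ⟦X⟧) := rfl
    rw [this, hθ]
    exact toK_E he _ _ (by push_cast; ring)
  rw [Units.val_zpow_eq_zpow_val]
  rw [h1, ← zpow_mul]
  congr 1
  ring

end Jsx

open Jsx

theorem t_JSX (hev : EVT_Stmt) (hint : INT_Stmt) (hmpm : MPM_Stmt) (hokf : OKF_Stmt)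
    (hgau : GAU_Stmt) (hftz : FTZ_Stmt) (hjfd : JFD_Stmt) (hcjf : CJF_Stmt) (hgs : GSUM_Stmt)
    (hpar : PAR_Stmt) (hjm : JMAP_Stmt) (he : ESER_Stmt) : JSX_Stmt := by
  intro M cb ops
  obtain ⟨T, θ, v, hv, hT, hθ, hf⟩ := hcjf M cb ops
  obtain ⟨φ, hφ, hinj⟩ := hev
  have hG : IT.Gen sQ := he.2.2.2.2.1
  have h0 := sQ_ne he
  have hφK : Function.Injective (toK.comp φ) := by
    rw [RingHom.coe_comp]
    exact toK_injective.comp hinj
  have H := fun (N : ℕ) (hN : 1 ≤ N) => hint φ hφ N hN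
  choose Z g g' h1 h2 h3 h4 using H
  have hZ : ∀ (N : ℕ) (hN : 1 ≤ N), (Z N hN).Ok := by
    intro N hN
    refine (hmpm _ _ _ (toK.comp φ) (Z N hN)).2 hφK ?_
    rw [h3 N hN]
    exact (hgau _ _ _ _ _ (h1 N hN)).1 (hokf KQ sQ hG N hN).nrm
  let F : (N : ℕ) → (hN : 1 ≤ N) → List (Bool × Fin N) → ℤ[T;T⁻¹] :=
    fun N hN l => if l = [(true, ⟨0, hN⟩)] then 1 else 0
  let JS : ℕ → SKnot → ℚ⟦X⟧ := fun N K =>
    if hN : 1 ≤ N then φ ((Z N hN).inv (hZ N hN) (F N hN) (true, ⟨0, hN⟩) K) else 0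
  have hJS : ∀ (N : ℕ) (hN : 1 ≤ N) (D : Diag) (hD : IsLongKnot D),
      JS N (ofDiag D hD) = φ ((Z N hN).val D (F N hN) [(true, ⟨0, hN⟩)]) := by
    intro N hN D hD
    simp only [JS, dif_pos hN]
    rfl
  -- closed braids
  have hcl : ∀ (N : ℕ) (_ : 1 ≤ N) (n : ℕ) (w : Word) (_ : LibH11.IsKnot (ev n w))
      (hl : IsLongKnot (cl n w)), Bd n w →
      toK (JS N (ofDiag (cl n w) hl)) * qn sQ N =
        sQ ^ (-(((N : ℤ) ^ 2 - 1) * wr w)) * Jfr (RD sQ (V sQ N)) n w := by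
    intro N hN n w h hl hb
    have e1 := (hjfd φ hφ N hN (Z N hN) (g N hN) (g' N hN) (h1 N hN) (h2 N hN) (h3 N hN)
      (F N hN) (fun l => rfl) n w hb h).1
    have e2 : ((-1 : KQ) ^ (N - 1)) ^ n * ((-1) ^ (N - 1)) ^ w.length = 1 := by
      rw [← pow_add, ← pow_mul]
      exact Even.neg_one_pow ((hpar n w hb h).mul_left _)
    rw [e2, mul_one] at e1
    rw [hJS N hN, ← brk_eq he N]
    exact e1
  refine ⟨v, JS, hv, ?_, ?_, ?_⟩
  · intro N hN K K' hu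
    simp only [JS, dif_pos hN]
    rw [hftz _ (Z N hN) (hZ N hN) (h4 N hN) (F N hN) (true, ⟨0, hN⟩) K K' hu]
  · intro N hN n w h hl hb
    apply toK_injective
    have e1 := hcl N hN n w h hl hb
    rw [← toK_J hjm he (hT N) (hθ N) n w, ← hf N n w h hb] at e1
    rw [map_mul, map_mul, ← e1, ← qn_mul he N]
    ring
  · intro e N hN
    obtain ⟨γ, hγ, hg⟩ := hgs KQ sQ hG N hN e
    refine ⟨fun j => (-1) ^ (N - 1) *
      sQ ^ (if e then 2 * ((N : ℤ) ^ 2 - 1) else -(2 * ((N : ℤ) ^ 2 - 1))) * γ j *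
        qn sQ (2 * j + 1) / qn sQ N, ?_, ?_⟩
    · simp only [cftop, hγ]
      have e1 : (2 * ((N - 1 : ℕ) : ℤ) + 1) = 2 * N - 1 := by
        push_cast [Nat.cast_sub hN]
        ring
      rw [e1]
    · intro m n w hl hd hb h
      have e1 := (hjfd φ hφ N hN (Z N hN) (g N hN) (g' N hN) (h1 N hN) (h2 N hN) (h3 N hN)
        (F N hN) (fun l => rfl) n w hb h).2 e m
      rw [hg m n w h] at e1
      have e2 : (∑ i, (RD sQ (V sQ N)).κ i) = qn sQ N := brk_eq he N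
      rw [e2] at e1
      rw [← hJS N hN _ hd] at e1
      have hq := qn_ne he hN
      apply mul_right_cancel₀ hq
      rw [e1, Finset.mul_sum, Finset.sum_mul]
      refine Finset.sum_congr rfl fun j _ => ?_
      have hM : 1 ≤ 2 * j + 1 := by omega
      have e3 := hcl (2 * j + 1) hM n w h hl hb
      have e4 : Jfr (RD sQ (V sQ (2 * j + 1))) n w =
          sQ ^ ((((2 * j + 1 : ℕ) : ℤ) ^ 2 - 1) * wr w) *
            (toK (JS (2 * j + 1) (ofDiag (cl n w) hl)) * qn sQ (2 * j + 1 : ℕ)) := by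
        rw [e3, ← mul_assoc, ← zpow_add₀ h0, add_neg_cancel, zpow_zero, one_mul]
      have e5 : toK (E (2 * j * (j + 1) * (m + wr w))) =
          sQ ^ ((((2 * j + 1 : ℕ) : ℤ) ^ 2 - 1) * (m + wr w)) :=
        toK_E he _ _ (by push_cast; ring)
      rw [e4, map_mul, e5]
      have e6 : sQ ^ ((2 * m + (if e then 2 else -2)) * ((N : ℤ) ^ 2 - 1)) *
          sQ ^ (m * ((2 * (j : ℤ) + 1) ^ 2 - 1 - 2 * ((N : ℤ) ^ 2 - 1))) *
          sQ ^ ((((2 * j + 1 : ℕ) : ℤ) ^ 2 - 1) * wr w) =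
          sQ ^ (if e then 2 * ((N : ℤ) ^ 2 - 1) else -(2 * ((N : ℤ) ^ 2 - 1))) *
            sQ ^ ((((2 * j + 1 : ℕ) : ℤ) ^ 2 - 1) * (m + wr w)) := by
        rw [← zpow_add₀ h0, ← zpow_add₀ h0, ← zpow_add₀ h0]
        congr 1
        cases e
        · simp only [Bool.false_eq_true, if_false]
          push_cast
          ring
        · simp only [if_true]
          push_cast
          ring
      have e7 : qn sQ ((2 * j + 1 : ℕ) : ℤ) = qn sQ (2 * (j : ℤ) + 1) := by push_cast; rfl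
      rw [e7]
      have e8 : ∀ x y : KQ, x / qn sQ N * y * qn sQ N = x * y := by
        intro x y
        field_simp
      rw [e8]
      linear_combination ((-1 : KQ) ^ (N - 1) * γ j *
        toK (JS (2 * j + 1) (ofDiag (cl n w) hl)) * qn sQ (2 * (j : ℤ) + 1)) * e6

end Pool.Agent.WD
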