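import Pool.Agent.WD.StX
import Pool.Agent.WD.LKC

/-!
# KNB (helper85): if the closure of a braid is a diagram of a long knot then its permutation is a cycle
-/

set_option autoImplicit false

namespace Pool.Agent.WD

open Pool.Agent.LibH11 Pool.Agent.LibH11.Sliced Pool.Agent.IT Pool.Agent.TwoBr

namespace KNB

open LKC

/-- `τ` maps `{0, …, k}` injectively into itself -/
structure Inj (k : ℕ) (τ : ℕ → ℕ) : Prop where
  map : ∀ j ≤ k, τ j ≤ k
  inj : ∀ i ≤ k, ∀ j ≤ k, τ i = τ j → i = j

theorem Inj.surj {k : ℕ} {τ : ℕ → ℕ} (h : Inj k τ) (x : ℕ) (hx : x ≤ k) : ∃ j ≤ k, τ j = x := by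
  have h1 : Function.Injective
      (fun j : Fin (k + 1) => (⟨τ j, Nat.lt_succ_of_le (h.map j (by omega))⟩ : Fin (k + 1))) := by
    intro i j hij
    exact Fin.ext (h.inj i (by omega) j (by omega) (congrArg Fin.val hij))
  obtain ⟨j, hj⟩ := (Finite.injective_iff_surjective.1 h1) ⟨x, by omega⟩
  exact ⟨j, by omega, congrArg Fin.val hj⟩

theorem Inj.next {k : ℕ} {τ : ℕ → ℕ} (h : Inj (k + 1) τ) (hne : τ (k + 1) ≠ k + 1) :
    Inj k (nx k τ) := by
  have hle : τ (k + 1) ≤ k := by
    have := h.map (k + 1) le_rfl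
    omega
  refine ⟨?_, ?_⟩
  · intro j hj
    unfold nx
    split_ifs with h1
    · exact hle
    · have := h.map j (by omega)
      omega
  · intro i hi j hj he
    unfold nx at he
    split_ifs at he with h1 h2 h2
    · exact h.inj i (by omega) j (by omega) (by rw [h1, h2])
    · have := h.inj (k + 1) le_rfl j (by omega) he
      omega
    · have := h.inj i (by omega) (k + 1) le_rfl he
      omega
    · exact h.inj i (by omega) j (by omega) he

/-- powers of the next permutation are powers of the permutation -/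
theorem iter_nx (k : ℕ) (τ : ℕ → ℕ) (m : ℕ) : ∃ m' : ℕ, τ^[m'] 0 = (nx k τ)^[m] 0 := by
  induction m with
  | zero => exact ⟨0, rfl⟩
  | succ m ih =>
    obtain ⟨m', hm'⟩ := ih
    rw [Function.iterate_succ_apply', ← hm']
    unfold nx
    split_ifs with h1
    · refine ⟨m' + 1 + 1, ?_⟩
      rw [Function.iterate_succ_apply', Function.iterate_succ_apply', h1]
    · exact ⟨m' + 1, Function.iterate_succ_apply' _ _ _⟩

theorem orb (k : ℕ) : ∀ (τ lab : ℕ → ℕ) (c : ℕ), Inj k τ → (∀ j ≤ k, lab j = τ j) →
    (∀ j, 1 ≤ j → j ≤ k → lab (2 * k + 1 - j) = j) → run (caps k) (2 * k + 1, lab, c) ≠ none →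
    ∀ x ≤ k, ∃ m : ℕ, τ^[m] 0 = x := by
  induction k with
  | zero =>
    intro τ lab c _ _ _ _ x hx
    exact ⟨0, by simp; omega⟩
  | succ k ih =>
    intro τ lab c h h1 h2 hr
    have e1 : lab (k + 1) = τ (k + 1) := h1 _ le_rfl
    have e2 : lab (k + 1 + 1) = k + 1 := by
      have := h2 (k + 1) (by omega) le_rfl
      rwa [show 2 * (k + 1) + 1 - (k + 1) = k + 1 + 1 by omega] at this
    rw [caps_succ] at hr
    simp only [run, step] at hr
    have hne : τ (k + 1) ≠ k + 1 := by
      intro he
      rw [if_neg (fun hh => hh.2 (by rw [e1, e2, he]))] at hr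
      exact hr rfl
    rw [if_pos ⟨by omega, by rw [e1, e2]; exact hne⟩] at hr
    simp only [Option.bind_some] at hr
    rw [show 2 * (k + 1) + 1 - 2 = 2 * k + 1 by omega] at hr
    have key := ih (nx k τ) (fun j =>
          if lab (if j < k + 1 then j else j + 2) = lab (k + 1 + 1) then lab (k + 1)
          else lab (if j < k + 1 then j else j + 2)) c (h.next hne) (by
        intro j hj
        rw [if_pos (show j < k + 1 by omega), e1, e2, h1 j (by omega)]
        rfl) (by
        intro j hj1 hj2
        rw [if_neg (show ¬ 2 * k + 1 - j < k + 1 by omega)]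
        have := h2 j hj1 (by omega)
        rw [show 2 * k + 1 - j + 2 = 2 * (k + 1) + 1 - j by omega, this, e2,
          if_neg (by omega)]) hr
    have key' : ∀ x ≤ k, ∃ m : ℕ, τ^[m] 0 = x := by
      intro x hx
      obtain ⟨m, hm⟩ := key x hx
      obtain ⟨m', hm'⟩ := iter_nx k τ m
      exact ⟨m', hm'.trans hm⟩
    intro x hx
    by_cases hx' : x ≤ k
    · exact key' x hx'
    · obtain ⟨j, hj, hjx⟩ := h.surj x hx
      have hjk : j ≤ k := by
        by_contra hh
        have : j = k + 1 := by omega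
        rw [this] at hjx
        omega
      obtain ⟨m, hm⟩ := key' j hjk
      exact ⟨m + 1, by rw [Function.iterate_succ_apply', hm, hjx]⟩

end KNB

open LKC KNB in
theorem t_KNB : KNB_Stmt := by
  intro n w hw hk
  rw [isLongKnot_iff] at hk
  obtain ⟨lab', c', hl⟩ := hk
  unfold cl at hl
  rw [List.append_assoc, run_append, run_cups, Option.bind_some, run_append,
    run_bw w hw (by omega), Option.bind_some] at hl
  have hm : ∀ j ≤ n, pw w j ≤ n := by
    intro j hj
    have := perm_ev w hw (⟨j, by omega⟩ : Fin (n + 1))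
    simp only at this
    rw [← this]
    omega
  have ho := orb n (pw w) (fun j => Lb n (pw w j)) (n + 1)
    ⟨hm, fun i _ j _ he => (pw w).injective he⟩ (by
      intro j hj
      simp only [Lb]
      rw [if_pos (hm j hj)]) (by
      intro j hj1 hj2
      rw [pw_fix w hw (show n < 2 * n + 1 - j by omega)]
      unfold Lb
      rw [if_neg (by omega)]
      omega) (by
      rw [hl]
      exact Option.some_ne_none _)
  have h0 : ∀ x : Fin (n + 1), (perm (ev n w)).SameCycle 0 x := by
    intro x
    obtain ⟨m, hm'⟩ := ho x (by omega)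
    refine ⟨(m : ℤ), ?_⟩
    rw [zpow_natCast]
    apply Fin.ext
    rw [perm_ev_pow w hw]
    exact hm'
  intro x y
  exact (h0 x).symm.trans (h0 y)

end Pool.Agent.WD
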