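import Pool.Agent.WD.StX

/-!
# One slice of an oriented diagram (module LSX, MP_31fd3b_gt, helper54)
-/

set_option autoImplicit false

namespace Pool.Agent.WD

open Pool.Agent.LibH11 Pool.Agent.LibH11.Sliced Pool.Agent.IT Pool.Agent.TwoBr

namespace LSX

theorem cnt_shT (c : Bool) (b : List Bool) (k : ℕ) :
    cnt (k + b.length) (sh k (T c b)) = some (k + b.length) := by
  rw [add_comm k, cnt_sh, cnt_T]
  rfl

/-- a slice at the place `0` passes the sorting of the strands to its right -/
theorem red (c : Bool) (κ : Kind) (b : List Bool) {X X' v : Diag}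
    (h : EqD (κ.ins + b.length) ((κ, 0) :: X') (X ++ v))
    (hc : cnt (κ.ins + b.length) ((κ, 0) :: X') ≠ none) :
    EqD (κ.ins + b.length) ((κ, 0) :: (sh κ.outs (T c b) ++ X'))
      (sh κ.ins (T c b) ++ X ++ v) := by
  have c1 : cnt κ.ins [(κ, 0)] = some κ.outs := by
    rw [cnt_one (by omega)]
    exact congrArg some (by omega)
  have F := far_words [(κ, 0)] (T c b) κ.ins κ.outs b.length c1
    (by rw [cnt_T]; exact Option.some_ne_none _)
  have s1 := F.symm.right X' (by
    rw [List.append_assoc, cnt_app (cnt_shT c b κ.ins)]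
    exact hc)
  have s2 := h.left (sh κ.ins (T c b)) (cnt_shT c b κ.ins)
  simp only [List.append_assoc, List.cons_append, List.nil_append] at s1 s2 ⊢
  exact s1.symm.trans s2

theorem red' {c : Bool} {κ : Kind} {b o o' : List Bool} (X X' : Diag) {v : Diag}
    (hOS : OS (κ, 0) o o') (ho : o.length = κ.ins + b.length)
    (ho' : o'.length = κ.outs + b.length) (e : T c o = sh κ.ins (T c b) ++ X)
    (e' : T c o' = sh κ.outs (T c b) ++ X')
    (h : EqD (κ.ins + b.length) ((κ, 0) :: X') (X ++ v)) :
    EqD o.length ((κ, 0) :: T c o') (T c o ++ v) := by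
  have c1 : cnt (κ.outs + b.length) X' = some (κ.outs + b.length) := by
    have := cnt_T c o'
    rw [e', ho', cnt_app (cnt_shT c b κ.outs)] at this
    exact this
  have c2 : cnt (κ.ins + b.length) [(κ, 0)] = some (κ.outs + b.length) := by
    have := hOS.cnt
    rw [ho, ho'] at this
    exact this
  rw [e, e', ho]
  exact red c κ b h (by
    rw [← List.singleton_append, cnt_app c2, c1]
    exact Option.some_ne_none _)

theorem xs_s (c : Bool) (a : ℕ) : xs c (a + 1) = (.crs c, 0) :: sh 1 (xs c a) := by
  rw [add_comm, NAT.xs_add]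
  rfl

theorem T_tt (c : Bool) (b : List Bool) : T c (true :: true :: b) = sh 2 (T c b) ++ [] := by
  rw [T_true, T_true, sh_sh, List.append_nil]

theorem T_tf (c : Bool) (b : List Bool) :
    T c (true :: false :: b) = sh 2 (T c b) ++ sh 1 (xs c (ups b)) := by
  rw [T_true, T_false, sh_append, sh_sh]

theorem T_ft (c : Bool) (b : List Bool) :
    T c (false :: true :: b) = sh 2 (T c b) ++ ((.crs c, 0) :: sh 1 (xs c (ups b))) := by
  rw [T_false, T_true, sh_sh, ups_true, xs_s]

theorem T_ff (c : Bool) (b : List Bool) :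
    T c (false :: false :: b) = sh 2 (T c b) ++ (sh 1 (xs c (ups b)) ++ xs c (ups b)) := by
  rw [T_false, T_false, sh_append, sh_sh, ups_false, List.append_assoc]

theorem cnt_sx (c : Bool) (a M : ℕ) (h : a + 2 ≤ M) : cnt M (sh 1 (xs c a)) = some M := by
  obtain ⟨M, rfl⟩ : ∃ N, M = N + 1 := ⟨M - 1, by omega⟩
  rw [cnt_sh, NAT.cnt_xs c a M (by omega)]
  rfl

/-- two opposite crossings cancel -/
theorem canc (e : Bool) (N : ℕ) (h : 2 ≤ N) : EqD N [(.crs e, 0), (.crs (!e), 0)] [] := by
  refine EqD.move (Move.r2 0 e) ?_ (by simp [cnt])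
  rw [← List.singleton_append, cnt_app (cnt_crs h), cnt_crs h]
  exact Option.some_ne_none _

theorem canc' (e : Bool) (N : ℕ) (h : 2 ≤ N) : EqD N [(.crs (!e), 0), (.crs e, 0)] [] := by
  have := canc (!e) N h
  rwa [Bool.not_not] at this

/-! ### The local statements -/

theorem cup_t (h2 : CUT_Stmt) (c : Bool) (a d : ℕ) :
    EqD (a + d) ((.cup, 0) :: sh 1 (xs c a)) ((.cup, a) :: ys (!c) a) := (h2 c a).widen d

theorem cup_f (h2 : CUT_Stmt) (c : Bool) (a d : ℕ) :
    EqD (a + d) ((.cup, 0) :: (.crs c, 0) :: sh 1 (xs c a)) ((.cup, a) :: ys (!c) a) := by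
  have m1 : EqD 0 [(.cup, 0), (.crs c, 0)] [(.cup, 0)] :=
    EqD.move (Move.r1Cup 0 c) (by simp [cnt, Kind.ins, Kind.outs])
      (by simp [cnt, Kind.ins, Kind.outs])
  have m2 := m1.widen (a + d)
  rw [zero_add] at m2
  have q : cnt (a + d) [(.cup, 0), (.crs c, 0)] = some (a + d + 2) := by
    rw [m2.cnt_eq, cnt_cup (Nat.zero_le _)]
  have m3 := m2.right (sh 1 (xs c a)) (by
    rw [cnt_app q, cnt_sx c a _ (by omega)]
    exact Option.some_ne_none _)
  exact m3.trans (cup_t h2 c a d)

theorem cap_t (h3 : CAT_Stmt) (c : Bool) (a d : ℕ) :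
    EqD (a + 2 + d) [(.cap, 0)] (sh 1 (xs c a) ++ (xs c a ++ [(.cap, a)])) := by
  have := ((h3 c a).widen d).symm
  rwa [List.append_assoc] at this

theorem cap_f (h3 : CAT_Stmt) (c : Bool) (a d : ℕ) :
    EqD (a + 2 + d) [(.cap, 0)]
      (((.crs c, 0) :: sh 1 (xs c a)) ++ (xs c a ++ [(.cap, a)])) := by
  have m1 : EqD 2 [(.crs c, 0), (.cap, 0)] [(.cap, 0)] :=
    EqD.move (Move.r1Cap 0 c) (by simp [cnt, Kind.ins, Kind.outs])
      (by simp [cnt, Kind.ins, Kind.outs])
  have m2 := m1.widen (a + d)
  rw [show 2 + (a + d) = a + 2 + d by omega] at m2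
  have m3 := (cap_t h3 c a d).left [(.crs c, 0)] (cnt_crs (by omega))
  exact m2.symm.trans m3

theorem ff (h4 : LTR_Stmt) (e c : Bool) (a d : ℕ) :
    EqD (a + 2 + d) ((.crs e, 0) :: (sh 1 (xs c a) ++ xs c a))
      ((sh 1 (xs c a) ++ xs c a) ++ [(.crs e, a)]) := (h4 e c a).widen d

/-- a crossing of an upward strand with a downward strand to its right -/
theorem tf (h5 : TWL_Stmt) (e c : Bool) (a d : ℕ) : ∃ v : Diag,
    SW (a + 1) (d + 1) (a + 1) (d + 1) v ∧
    EqD (a + d + 2) ((.crs e, 0) :: (.crs c, 0) :: sh 1 (xs c a)) (sh 1 (xs c a) ++ v) := by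
  by_cases h : e = c
  · subst h
    exact h5 e e a d
  · have he : e = !c := by
      cases e <;> cases c <;> simp_all
    subst he
    refine ⟨[], SW.nil _ _, ?_⟩
    have m := (canc' c (a + d + 2) (by omega)).right (sh 1 (xs c a)) (by
      rw [cnt_app (M := a + d + 2) ?_, cnt_sx c a _ (by omega)]
      · exact Option.some_ne_none _
      · rw [← List.singleton_append, cnt_app (cnt_crs (by omega)), cnt_crs (by omega)])
    rw [List.append_nil]
    exact m

/-- a crossing of a downward strand with an upward strand to its right -/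
theorem ft (h5 : TWL_Stmt) (e c : Bool) (a d : ℕ) : ∃ v : Diag,
    SW (a + 1) (d + 1) (a + 1) (d + 1) v ∧
    EqD (a + d + 2) ((.crs e, 0) :: sh 1 (xs c a)) (((.crs c, 0) :: sh 1 (xs c a)) ++ v) := by
  by_cases h : e = c
  · subst h
    refine ⟨[], SW.nil _ _, ?_⟩
    rw [List.append_nil]
    exact EqD.refl _
  · have he : e = !c := by
      cases e <;> cases c <;> simp_all
    subst he
    obtain ⟨v, hv, hE⟩ := h5 (!c) c a d
    refine ⟨v, hv, ?_⟩
    have c1 : ∀ f : Bool, cnt (a + d + 2) [(.crs f, 0)] = some (a + d + 2) :=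
      fun f => cnt_crs (by omega)
    have m := (canc c (a + d + 2) (by omega)).right ((.crs (!c), 0) :: sh 1 (xs c a)) (by
      rw [cnt_app (M := a + d + 2) ?_, ← List.singleton_append, cnt_app (c1 _),
        cnt_sx c a _ (by omega)]
      · exact Option.some_ne_none _
      · rw [← List.singleton_append, cnt_app (c1 _), c1])
    have m2 := hE.left [(.crs c, 0)] (c1 c)
    exact m.symm.trans m2

end LSX

open LSX in
theorem t_LSX (h1 : PAS_Stmt) (h2 : CUT_Stmt) (h3 : CAT_Stmt) (h4 : LTR_Stmt)
    (h5 : TWL_Stmt) : LSX_Stmt := by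
  intro c p o o' h
  induction h with
  | cup x b =>
    have hab := ups_add_dns b
    refine ⟨(.cup, ups b) :: ys (!c) (ups b), ?_, ?_⟩
    · have hs : SW (ups b) (dns b) (ups b + 1) (dns b + 1)
          ((.cup, ups b) :: ys (!c) (ups b)) := SW.cup (sw_ys _ _ _ _ (Nat.lt_succ_self _))
      cases x
      · simpa using hs
      · simpa using hs
    · cases x
      · refine red' [] ((.crs c, 0) :: sh 1 (xs c (ups b))) (OS.cup false b) (by
          show b.length = 0 + b.length
          omega) (by
          show b.length + 1 + 1 = 2 + b.length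
          omega) (by
          show T c b = sh 0 (T c b) ++ []
          rw [sh_zero, List.append_nil]) (T_ft c b) ?_
        show EqD (0 + b.length) _ _
        rw [zero_add, ← hab]
        exact cup_f h2 c _ _
      · refine red' [] (sh 1 (xs c (ups b))) (OS.cup true b) (by
          show b.length = 0 + b.length
          omega) (by
          show b.length + 1 + 1 = 2 + b.length
          omega) (by
          show T c b = sh 0 (T c b) ++ []
          rw [sh_zero, List.append_nil]) (T_tf c b) ?_
        show EqD (0 + b.length) _ _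
        rw [zero_add, ← hab]
        exact cup_t h2 c _ _
  | cap x b =>
    have hab := ups_add_dns b
    refine ⟨xs c (ups b) ++ [(.cap, ups b)], ?_, ?_⟩
    · have hs : SW (ups b + 1) (dns b + 1) (ups b) (dns b)
          (xs c (ups b) ++ [(.cap, ups b)]) :=
        (sw_xs c (ups b) _ _ (Nat.lt_succ_self _)).append (SW.cap (SW.nil _ _))
      cases x
      · simpa using hs
      · simpa using hs
    · cases x
      · refine red' ((.crs c, 0) :: sh 1 (xs c (ups b))) [] (OS.cap false b) (by
          show b.length + 1 + 1 = 2 + b.length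
          omega) (by
          show b.length = 0 + b.length
          omega) (T_ft c b) (by
          show T c b = sh 0 (T c b) ++ []
          rw [sh_zero, List.append_nil]) ?_
        show EqD (2 + b.length) _ _
        rw [show 2 + b.length = ups b + 2 + dns b by omega]
        exact cap_f h3 c _ _
      · refine red' (sh 1 (xs c (ups b))) [] (OS.cap true b) (by
          show b.length + 1 + 1 = 2 + b.length
          omega) (by
          show b.length = 0 + b.length
          omega) (T_tf c b) (by
          show T c b = sh 0 (T c b) ++ []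
          rw [sh_zero, List.append_nil]) ?_
        show EqD (2 + b.length) _ _
        rw [show 2 + b.length = ups b + 2 + dns b by omega]
        exact cap_t h3 c _ _
  | crs e x y b =>
    have hab := ups_add_dns b
    have hl : ∀ x y : Bool, (x :: y :: b).length = 2 + b.length := fun x y => by
      show b.length + 1 + 1 = 2 + b.length
      omega
    cases x <;> cases y
    · refine ⟨[(.crs e, ups b)], ?_, ?_⟩
      · have hs : SW (ups b) (dns b + 1 + 1) (ups b) (dns b + 1 + 1) [(.crs e, ups b + 0)] :=
          SW.dn e 0 (by omega) (SW.nil _ _)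
        simpa using hs
      · refine red' _ _ (OS.crs e false false b) (hl _ _) (hl _ _) (T_ff c b) (T_ff c b) ?_
        show EqD (2 + b.length) _ _
        rw [show 2 + b.length = ups b + 2 + dns b by omega]
        exact ff h4 e c _ _
    · obtain ⟨v, hv, hE⟩ := ft h5 e c (ups b) (dns b)
      refine ⟨v, by simpa using hv, ?_⟩
      refine red' _ _ (OS.crs e false true b) (hl _ _) (hl _ _) (T_ft c b) (T_tf c b) ?_
      show EqD (2 + b.length) _ _
      rw [show 2 + b.length = ups b + dns b + 2 by omega]
      exact hE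
    · obtain ⟨v, hv, hE⟩ := tf h5 e c (ups b) (dns b)
      refine ⟨v, by simpa using hv, ?_⟩
      refine red' _ _ (OS.crs e true false b) (hl _ _) (hl _ _) (T_tf c b) (T_ft c b) ?_
      show EqD (2 + b.length) _ _
      rw [show 2 + b.length = ups b + dns b + 2 by omega]
      exact hE
    · refine ⟨[(.crs e, 0)], ?_, ?_⟩
      · have hs : SW (ups b + 1 + 1) (dns b) (ups b + 1 + 1) (dns b) [(.crs e, 0)] :=
          SW.up e 0 (by omega) (SW.nil _ _)
        simpa using hs
      · refine red' _ _ (OS.crs e true true b) (hl _ _) (hl _ _) (T_tt c b) (T_tt c b) ?_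
        exact EqD.refl _
  | @cons x κ i o o' h ih =>
    obtain ⟨v1, hv, hE⟩ := ih
    have hs := hE.sh 1
    rw [sh_cons, sh_append] at hs
    cases x
    · obtain ⟨v', hv', hE'⟩ := h1 c _ _ _ _ v1 hv
      refine ⟨v', ?_, ?_⟩
      · simpa using hv'
      · have c1 : cnt (o.length + 1) [(κ, i + 1)] = some (o'.length + 1) :=
          (OS.cons false h).cnt
        have c2 : cnt (o'.length + 1) (sh 1 (T c o') ++ xs c (ups o')) =
            some (o'.length + 1) := cnt_T c (false :: o')
        have s1 := hs.right (xs c (ups o')) (by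
          rw [List.cons_append, ← List.singleton_append, cnt_app c1, c2]
          exact Option.some_ne_none _)
        rw [ups_add_dns] at hE'
        have c3 : cnt (o.length + 1) (sh 1 (T c o)) = some (o.length + 1) := by
          rw [cnt_sh, cnt_T]
          rfl
        have s2 := hE'.left (sh 1 (T c o)) c3
        rw [T_false, T_false, List.length_cons]
        simp only [List.append_assoc, List.cons_append] at s1 s2 ⊢
        exact s1.trans s2
    · refine ⟨TwoBr.sh 1 v1, ?_, hs⟩
      simpa using hv.sh_one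

end Pool.Agent.WD
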