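import Pool.Agent.WD.StX

/-!
LTR: a crossing passes under (over) some strands.
-/

set_option autoImplicit false

namespace Pool.Agent.WD.LTR

open Pool.Agent.LibH11 Pool.Agent.LibH11.Sliced Pool.Agent.IT Pool.Agent.TwoBr
open Pool.Agent.WD

/-- two parallel strands crossing `a + 1` strands: the last two crossings at the end -/
theorem last (c : Bool) (a : ℕ) :
    EqD (a + 3) (sh 1 (xs c (a + 1)) ++ xs c (a + 1))
      (sh 1 (xs c a) ++ xs c a ++ [(.crs c, a + 1), (.crs c, a)]) := by
  have c1 : cnt (a + 3) (sh 1 (xs c a)) = some (a + 3) := by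
    have := cnt_sh 1 (xs c a) (a + 2)
    rw [NAT.cnt_xs c a _ (by omega)] at this
    exact this
  have h1 : EqD (a + 3) ([(.crs c, a + 1)] ++ xs c a) (xs c a ++ [(.crs c, a + 1)]) := by
    have := (far_words (xs c a) [(.crs c, 0)] (a + 1) (a + 1) 2 (NAT.cnt_xs c _ _ le_rfl)
      (by rw [cnt_crs le_rfl]; simp)).symm
    simpa using this
  have e1 : sh 1 (xs c (a + 1)) ++ xs c (a + 1) =
      sh 1 (xs c a) ++ ([(.crs c, a + 1)] ++ xs c a) ++ [(.crs c, a)] := by
    rw [NAT.xs_succ, sh_append]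
    simp
  have e2 : sh 1 (xs c a) ++ xs c a ++ [(.crs c, a + 1), (.crs c, a)] =
      sh 1 (xs c a) ++ (xs c a ++ [(.crs c, a + 1)]) ++ [(.crs c, a)] := by
    simp
  rw [e1, e2]
  refine h1.ctx _ _ c1 ?_
  rw [← e1, cnt_app (M := a + 3), NAT.cnt_xs c _ _ (by omega)]
  · simp
  · have := cnt_sh 1 (xs c (a + 1)) (a + 2)
    rw [NAT.cnt_xs c (a + 1) _ (by omega)] at this
    exact this

end Pool.Agent.WD.LTR

namespace Pool.Agent.WD

open Pool.Agent.LibH11 Pool.Agent.LibH11.Sliced Pool.Agent.IT Pool.Agent.TwoBr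

/-- **LTR**: a crossing passes under (over) `a` strands. -/
theorem t_LTR : LTR_Stmt := by
  intro e c a
  induction a with
  | zero => exact EqD.refl _
  | succ a ih =>
    have hF := LTR.last c a
    have c1 : cnt (a + 3) (sh 1 (xs c a)) = some (a + 3) := by
      have := cnt_sh 1 (xs c a) (a + 2)
      rw [NAT.cnt_xs c a _ (by omega)] at this
      exact this
    have c2 : cnt (a + 3) (sh 1 (xs c a) ++ xs c a) = some (a + 3) := by
      rw [cnt_app c1, NAT.cnt_xs c _ _ (by omega)]
    have c3 : cnt (a + 3) [((.crs e : Kind), 0)] = some (a + 3) := cnt_crs (by omega)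
    have c4 : cnt (a + 3) [((.crs c : Kind), a + 1), (.crs c, a)] = some (a + 3) := by
      rw [show [((.crs c : Kind), a + 1), ((.crs c : Kind), a)] =
        [((.crs c : Kind), a + 1)] ++ [((.crs c : Kind), a)] by rfl, cnt_app (cnt_crs (by omega))]
      exact cnt_crs (by omega)
    have c5 : cnt (a + 3) [((.crs e : Kind), a)] = some (a + 3) := cnt_crs (by omega)
    have c6 : cnt (a + 3) [((.crs e : Kind), a + 1)] = some (a + 3) := cnt_crs (by omega)
    -- the last two crossings at the end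
    have s1 : EqD (a + 3) ((.crs e, 0) :: (sh 1 (xs c (a + 1)) ++ xs c (a + 1)))
        ((.crs e, 0) :: (sh 1 (xs c a) ++ xs c a ++ [(.crs c, a + 1), (.crs c, a)])) :=
      hF.left [(.crs e, 0)] c3
    -- the induction hypothesis
    have s2 : EqD (a + 3) ((.crs e, 0) :: (sh 1 (xs c a) ++ xs c a ++ [(.crs c, a + 1), (.crs c, a)]))
        (sh 1 (xs c a) ++ xs c a ++ [(.crs e, a)] ++ [(.crs c, a + 1), (.crs c, a)]) := by
      have h := (ih.widen 1).right [(.crs c, a + 1), (.crs c, a)] (by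
        rw [show (.crs e, 0) :: (sh 1 (xs c a) ++ xs c a) ++ [(.crs c, a + 1), (.crs c, a)] =
          [(.crs e, 0)] ++ ((sh 1 (xs c a) ++ xs c a) ++ [(.crs c, a + 1), (.crs c, a)]) by simp,
          show a + 2 + 1 = a + 3 by rfl, cnt_app c3, cnt_app c2, c4]
        simp)
      simpa using h
    -- the third Reidemeister move
    have s3 : EqD (a + 3) (sh 1 (xs c a) ++ xs c a ++ [(.crs e, a)] ++ [(.crs c, a + 1), (.crs c, a)])
        (sh 1 (xs c a) ++ xs c a ++ [(.crs c, a + 1), (.crs c, a)] ++ [(.crs e, a + 1)]) := by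
      have h := (c_l3 e c).sh a
      rw [show 3 + a = a + 3 by omega] at h
      have h' := h.left (sh 1 (xs c a) ++ xs c a) c2
      simpa [add_comm] using h'
    -- back
    have s4 : EqD (a + 3) (sh 1 (xs c a) ++ xs c a ++ [(.crs c, a + 1), (.crs c, a)] ++
        [(.crs e, a + 1)]) (sh 1 (xs c (a + 1)) ++ xs c (a + 1) ++ [(.crs e, a + 1)]) :=
      hF.symm.right _ (by
        rw [List.append_assoc, cnt_app c2, cnt_app c4, c6]
        simp)
    exact ((s1.trans s2).trans s3).trans s4

end Pool.Agent.WD
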