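import Pool.Agent.WD.StQ

/-!
# WD: module MPM (ring homomorphisms and state models)
-/

set_option autoImplicit false

namespace Pool.Agent.WD

open Pool.Agent.LibH11 Pool.Agent.IT Pool.Agent.GK Pool.Agent.TwoBr
open Pool.Agent.LibH11.Sliced (Diag Kind cnt IsLongKnot ofDiag braidWord)
open scoped BigOperators

namespace MPM

variable {A C ι : Type} [CommRing A] [CommRing C] [Fintype ι] (φ : A →+* C) (M : Mats A ι)

theorem loc_map (k : Kind) (F : List ι → A) (l : List ι) :
    (mapM φ M).loc k (fun l' => φ (F l')) l = φ (M.loc k F l) := by
  cases k with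
  | cup => simp only [Mats.loc, mapM, map_sum, map_mul]
  | cap =>
    rcases l with _ | ⟨x, _ | ⟨y, l⟩⟩
    · simp only [Mats.loc, map_zero]
    · simp only [Mats.loc, map_zero]
    · simp only [Mats.loc, mapM, map_mul]
  | crs e =>
    rcases l with _ | ⟨x, _ | ⟨y, l⟩⟩
    · simp only [Mats.loc, map_zero]
    · simp only [Mats.loc, map_zero]
    · simp only [Mats.loc, mapM, map_sum, map_mul]

theorem act_map (k : Kind) (i : ℕ) : ∀ (F : List ι → A) (l : List ι),
    (mapM φ M).act k i (fun l' => φ (F l')) l = φ (M.act k i F l) := by
  induction i with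
  | zero =>
    intro F l
    exact loc_map φ M k F l
  | succ i ih =>
    intro F l
    rcases l with _ | ⟨x, l⟩
    · simp only [Mats.act, map_zero]
    · simp only [Mats.act]
      exact ih (fun l' => F (x :: l')) l

theorem val_map (D : Diag) (F : List ι → A) : ∀ l : List ι,
    (mapM φ M).val D (fun l' => φ (F l')) l = φ (M.val D F l) := by
  induction D with
  | nil =>
    intro l
    rfl
  | cons p D ih =>
    intro l
    obtain ⟨k, i⟩ := p
    simp only [Mats.val]
    have h : (mapM φ M).val D (fun l' => φ (F l')) = fun l' => φ (M.val D F l') :=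
      funext ih
    rw [h]
    exact act_map φ M k i _ l

theorem ok_of_map [DecidableEq ι] (hφ : Function.Injective φ) (h : (mapM φ M).Ok) : M.Ok where
  zigzag := fun x a => hφ (by
    have := h.zigzag x a
    simp only [mapM] at this
    simp only [map_sum, map_mul, this]
    split_ifs <;> simp)
  zagzig := fun x b => hφ (by
    have := h.zagzig x b
    simp only [mapM] at this
    simp only [map_sum, map_mul, this]
    split_ifs <;> simp)
  slideCap := fun e x y z t => hφ (by
    have := h.slideCap e x y z t
    simp only [mapM] at this
    simp only [map_sum, map_mul, this])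
  slideCup := fun e x p q r => hφ (by
    have := h.slideCup e x p q r
    simp only [mapM] at this
    simp only [map_sum, map_mul, this])
  r1Cap := fun e x y => hφ (by
    have := h.r1Cap e x y
    simp only [mapM] at this
    simp only [map_sum, map_mul, this])
  r1Cup := fun e c d => hφ (by
    have := h.r1Cup e c d
    simp only [mapM] at this
    simp only [map_sum, map_mul, this])
  r2 := fun e x y p q => hφ (by
    have := h.r2 e x y p q
    simp only [mapM] at this
    simp only [map_sum, map_mul, this]
    split_ifs <;> simp)
  r3 := fun x y z p q r => hφ (by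
    have := h.r3 x y z p q r
    simp only [mapM] at this
    simp only [map_sum, map_mul, this])

end MPM

/-- Module MPM. -/
theorem t_MPM : MPM_Stmt := by
  intro A C _ _ ι _ _ φ M
  exact ⟨fun D F l => MPM.val_map φ M D F l, fun hφ h => MPM.ok_of_map φ M hφ h⟩

end Pool.Agent.WD
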