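import Pool.Agent.WD.StX

/-!
NFC: a minimum on top of a normal form.
-/

set_option autoImplicit false

namespace Pool.Agent.WD.NFC

open Pool.Agent.LibH11 Pool.Agent.LibH11.Sliced Pool.Agent.IT Pool.Agent.TwoBr
open Pool.Agent.WD

theorem bd_mono {N M : ℕ} {w : Word} (h : Bd N w) (hNM : N ≤ M) : Bd M w :=
  fun x hx => lt_of_lt_of_le (h x hx) hNM

/-- no maxima -/
theorem base (b : ℕ) (w : Word) (hw : Bd b w) :
    NFP (b + 1) (cups b ++ braidWord w ++ [(.cup, b + 1)]) := by
  refine ⟨0, w, bd_mono hw (by omega), ?_⟩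
  have h1 : EqD (b + 1 + b) (braidWord w ++ sh (b + 1) [(.cup, 0)])
      (sh (b + 1) [(.cup, 0)] ++ braidWord w) :=
    far_words (braidWord w) [(.cup, 0)] (b + 1) (b + 1) b (cnt_bwd hw le_rfl)
      (by rw [cnt_cup (Nat.zero_le _)]; simp)
  have e1 : sh (b + 1) [(Kind.cup, 0)] = [(Kind.cup, b + 1)] := by
    simp
  rw [e1] at h1
  have c1 : cnt 1 (cups b) = some (b + 1 + b) := by
    have := cnt_cups b 0
    rw [show 2 * b + 1 + 0 = b + 1 + b by omega] at this
    exact this
  have h2 := h1.left (cups b) c1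
  have e2 : cups (b + 1 + 0) ++ braidWord w ++ sh (b + 1) (caps 0) =
      cups b ++ ([(.cup, b + 1)] ++ braidWord w) := by
    rw [Nat.add_zero, cups_succ, caps_zero, sh_nil, List.append_nil, List.append_assoc]
  rw [e2, List.append_assoc]
  exact h2

/-- a maximum and a minimum on top of `x` -/
theorem turn (b : ℕ) (x : Diag) (hx : cnt 1 x = some (2 * (b + 1) + 1)) :
    EqD 1 (x ++ [(.cap, b + 1)] ++ [(.cup, b + 1)])
      (x ++ [(.cup, b + 2)] ++ [(.crs true, b + 1)] ++ [(.crs false, b + 2 + 1 + 0)] ++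
        [(.cap, b + 2)]) := by
  have h1 := (c_tb.sh (b + 1)).widen b
  rw [show 2 + (b + 1) + b = 2 * (b + 1) + 1 by omega] at h1
  have h2 := h1.left x hx
  have e1 : x ++ sh (b + 1) [(.cap, 0), (.cup, 0)] = x ++ [(.cap, b + 1)] ++ [(.cup, b + 1)] := by
    simp
  have e2 : x ++ sh (b + 1) [(.cup, 1), (.crs true, 0), (.crs false, 2), (.cap, 1)] =
      x ++ [(.cup, b + 2)] ++ [(.crs true, b + 1)] ++ [(.crs false, b + 2 + 1 + 0)] ++
        [(.cap, b + 2)] := by
    simp only [sh_cons, sh_nil, List.append_assoc, List.cons_append, List.nil_append]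
    rw [show 1 + (b + 1) = b + 2 by omega, show 0 + (b + 1) = b + 1 by omega,
      show 2 + (b + 1) = b + 2 + 1 + 0 by omega]
  rw [e1, e2] at h2
  exact h2

theorem key (h1 : NFU_Stmt) (h2 : NFD_Stmt) : ∀ (m b : ℕ) (w : Word), Bd (b + m) w →
    NFP (b + 1) (cups (b + m) ++ braidWord w ++ sh b (caps m) ++ [(.cup, b + 1)]) := by
  intro m
  induction m with
  | zero =>
    intro b w hw
    rw [Nat.add_zero] at hw
    have := base b w hw
    rw [Nat.add_zero, caps_zero, sh_nil, List.append_nil]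
    exact this
  | succ m ih =>
    intro b w hw
    have e1 : b + (m + 1) = b + 1 + m := by omega
    rw [e1] at hw ⊢
    have e2 : sh b (caps (m + 1)) = sh (b + 1) (caps m) ++ [(.cap, b + 1)] := by
      rw [caps_snoc, sh_append, sh_sh]
      simp [add_comm]
    have h3 := ih (b + 1) w hw
    have h4 := h1 (b + 2) _ true (b + 1) h3 (by omega)
    have h5 := h2 (b + 2) _ false 0 h4 (by omega)
    have h6 := NFP.cap (b := b + 1) h5
    refine h6.congr ?_
    rw [e2, ← List.append_assoc]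
    exact turn b _ (cnt_nf hw)

end Pool.Agent.WD.NFC

namespace Pool.Agent.WD

open Pool.Agent.LibH11 Pool.Agent.LibH11.Sliced Pool.Agent.IT Pool.Agent.TwoBr

/-- **NFC**: a minimum on top of a normal form. -/
theorem t_NFC (h1 : NFU_Stmt) (h2 : NFD_Stmt) : NFC_Stmt := by
  intro b v hv
  have hc := hv.cnt
  obtain ⟨m, w, hw, hE⟩ := hv
  refine (NFC.key h1 h2 m b w hw).congr (hE.right _ ?_)
  rw [cnt_app hc, cnt_cup (by omega)]
  simp

end Pool.Agent.WD
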