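import Pool.Agent.WD.StX

/-!
NFD: a crossing of downward strands on top of a normal form.
-/

set_option autoImplicit false

namespace Pool.Agent.WD

open Pool.Agent.LibH11 Pool.Agent.LibH11.Sliced Pool.Agent.IT Pool.Agent.TwoBr

theorem t_NFD : NFD_Stmt := by
  intro b v e j hv hj
  have hc := hv.cnt
  obtain ⟨m, w, hw, hE⟩ := hv
  obtain ⟨i, hi⟩ : ∃ i, i + j + 1 = b := ⟨b - 1 - j, by omega⟩
  have hi1 : 1 ≤ i := by omega
  have hi2 : i < b + m := by omega
  have hw' : Bd (b + m) ((i, e) :: w) := by
    intro x hx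
    rcases List.mem_cons.1 hx with rfl | hx
    · exact hi2
    · exact hw x hx
  refine ⟨m, (i, e) :: w, hw', ?_⟩
  have hcups : cnt 1 (cups (b + m)) = some (2 * (b + m) + 1) := SLC.cnt_c (b + m)
  have hbw : cnt (2 * (b + m) + 1) (braidWord w) = some (2 * (b + m) + 1) :=
    cnt_bwd hw (by omega)
  have hcap : cnt (2 * m + b + 1) (sh b (caps m)) = some (b + 1) := by
    have h1 := cnt_caps m 0
    have h2 := cnt_sh b (caps m) (2 * m + 1 + 0)
    rw [h1] at h2
    rw [show 2 * m + b + 1 = 2 * m + 1 + 0 + b by omega, h2]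
    simp only [Option.map_some]
    exact congrArg some (by omega)
  have hcapN : cnt (2 * (b + m) + 1) (sh b (caps m)) = some (2 * b + 1) := by
    have h1 := cnt_widen b _ _ _ hcap
    rw [show 2 * (b + m) + 1 = 2 * m + b + 1 + b by omega, h1]
    exact congrArg some (by omega)
  -- the new crossing on top of the normal form
  have hA := hE.right [(.crs e, b + 1 + j)] (by
    rw [cnt_app hc, cnt_crs (by omega)]
    simp)
  -- below the maxima
  have hB := far_words (sh b (caps m)) [(.crs e, j)] (2 * m + b + 1) (b + 1) b hcap (by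
    rw [cnt_crs (by omega)]
    simp)
  rw [show 2 * m + b + 1 + b = 2 * (b + m) + 1 by omega] at hB
  have hB' := (hB.left (braidWord w) hbw).left (cups (b + m)) hcups
  -- below the braid word
  have hC := far_words (braidWord w) [(.crs e, m + j)] (b + m + 1) (b + m + 1) (b + m)
    (cnt_bwd hw (by omega)) (by
      rw [cnt_crs (by omega)]
      simp)
  rw [show b + m + 1 + (b + m) = 2 * (b + m) + 1 by omega] at hC
  simp only [sh_cons, sh_nil] at hB' hC
  rw [show m + j + (b + m + 1) = 2 * (b + m) - i by omega] at hC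
  rw [show j + (2 * m + b + 1) = 2 * (b + m) - i by omega,
    show j + (b + 1) = b + 1 + j by omega] at hB'
  have hx : cnt (2 * (b + m) + 1) [(Kind.crs e, 2 * (b + m) - i)] = some (2 * (b + m) + 1) :=
    cnt_crs (by omega)
  have hC' := (hC.right (sh b (caps m)) (by
    rw [List.append_assoc, cnt_app hbw, cnt_app hx, hcapN]
    simp)).left (cups (b + m)) hcups
  -- around the minima
  have hD := (SLC.partA e (b + m) i hi1 hi2).right (braidWord w ++ sh b (caps m)) (by
    rw [List.append_assoc, cnt_app hcups,
      cnt_app (show cnt (2 * (b + m) + 1) [(Kind.crs e, i)] = _ from cnt_crs (by omega)),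
      cnt_app hbw, hcapN]
    simp)
  rw [braidWord_cons]
  simp only [List.append_assoc, List.cons_append, List.nil_append] at hA hB' hC' hD ⊢
  exact ((hA.trans hB').trans hC').trans hD.symm

end Pool.Agent.WD
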