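import Pool.Agent.WD.StX

/-!
# WX_NFS: sorted diagrams are equivalent to closed braids (MP_31fd3b_gt)
-/

set_option autoImplicit false

namespace Pool.Agent.WD

open Pool.Agent.LibH11 Pool.Agent.LibH11.Sliced Pool.Agent.IT Pool.Agent.TwoBr

namespace NFS

theorem claim (h1 : NFU_Stmt) (h2 : NFD_Stmt) (h3 : NFC_Stmt) {a b a' b' : ℕ} {v : Diag}
    (h : SW a b a' b' v) : a = b + 1 → ∀ u : Diag, NFP b u → a' = b' + 1 ∧ NFP b' (u ++ v) := by
  induction h with
  | nil a b =>
    intro hab u hu
    exact ⟨hab, by rw [List.append_nil]; exact hu⟩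
  | @up a b a' b' v e j hj _ ih =>
    intro hab u hu
    have h4 := ih hab (u ++ [(.crs e, j)]) (h1 b u e j hu (by omega))
    rwa [List.append_assoc, List.singleton_append] at h4
  | @dn a b a' b' v e j hj _ ih =>
    intro hab u hu
    subst hab
    have h4 := ih rfl (u ++ [(.crs e, b + 1 + j)]) (h2 b u e j hu hj)
    rwa [List.append_assoc, List.singleton_append] at h4
  | @cup a b a' b' v _ ih =>
    intro hab u hu
    subst hab
    have h4 := ih rfl (u ++ [(.cup, b + 1)]) (h3 b u hu)
    rwa [List.append_assoc, List.singleton_append] at h4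
  | @cap a b a' b' v _ ih =>
    intro hab u hu
    have hab' : a = b + 1 := by omega
    subst hab'
    have h4 := ih rfl (u ++ [(.cap, b + 1)]) hu.cap
    rwa [List.append_assoc, List.singleton_append] at h4

end NFS

theorem t_NFS (h1 : NFU_Stmt) (h2 : NFD_Stmt) (h3 : NFC_Stmt) : NFS_Stmt := by
  intro v hv
  have h := (NFS.claim h1 h2 h3 hv rfl [] nfp_nil).2
  rw [List.nil_append] at h
  exact h.closed

end Pool.Agent.WD
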