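import Pool.Agent.WD.StX

/-!
# Module NFU: a crossing of upward strands on top of a normal form
-/

set_option autoImplicit false

namespace Pool.Agent.WD.NFU

open Pool.Agent.LibH11 Pool.Agent.LibH11.Sliced Pool.Agent.IT Pool.Agent.TwoBr
open Pool.Agent.WD

/-- `m` nested maxima, the last one at the place `0` -/
def cx (m : ℕ) : Diag := (List.range m).reverse.map fun j => (Kind.cap, j)

theorem cx_succ (m : ℕ) : cx (m + 1) = (.cap, m) :: cx m := by
  simp [cx, List.range_succ]

theorem sh_caps (b m : ℕ) : sh b (caps m) = sh (b + 1) (cx m) := by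
  induction m with
  | zero => rfl
  | succ m ih =>
    rw [caps_succ, cx_succ, sh_cons, sh_cons, ih, show m + 1 + b = m + (b + 1) by omega]

theorem cnt_cx (k : ℕ) : ∀ m : ℕ, cnt (2 * m + k) (cx m) = some k := by
  intro m
  induction m with
  | zero =>
    rw [Nat.mul_zero, Nat.zero_add]
    rfl
  | succ m ih =>
    rw [cx_succ, ← List.singleton_append, show 2 * (m + 1) + k = 2 * m + k + 2 by omega,
      cnt_app (cnt_cap (by omega)), ih]

/-- the crossing passes the maxima -/
theorem pass (b m j : ℕ) (e : Bool) (h : j < b) :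
    EqD (2 * (b + m) + 1) (sh b (caps m) ++ [(.crs e, j)]) ([(.crs e, j)] ++ sh b (caps m)) := by
  have h1 := far_words [(.crs e, j)] (cx m) (b + 1) (b + 1) (2 * m + b) (cnt_crs (by omega))
    (by rw [cnt_cx]; simp)
  rw [sh_caps, show 2 * (b + m) + 1 = b + 1 + (2 * m + b) by omega]
  exact h1.symm

end Pool.Agent.WD.NFU

namespace Pool.Agent.WD

open Pool.Agent.LibH11 Pool.Agent.LibH11.Sliced Pool.Agent.IT Pool.Agent.TwoBr

/-- **NFU**: a crossing of upward strands on top of a normal form. -/
theorem t_NFU : NFU_Stmt := by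
  intro b v e j h hj
  obtain ⟨m, w, hw, hE⟩ := h
  have hw' : Bd (b + m) (w ++ [(j, e)]) := by
    intro x hx
    rcases List.mem_append.1 hx with hx | hx
    · exact hw x hx
    · rw [List.mem_singleton.1 hx]
      exact Nat.lt_of_lt_of_le hj (Nat.le_add_right b m)
  refine ⟨m, w ++ [(j, e)], hw', ?_⟩
  have hv : cnt 1 v = some (2 * b + 1) := by rw [hE.cnt_eq, cnt_nf hw]
  have s1 := hE.right [(.crs e, j)] (by
    rw [cnt_app hv, cnt_crs (by omega)]
    simp)
  have hc : cnt 1 (cups (b + m) ++ braidWord w) = some (2 * (b + m) + 1) := by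
    rw [cnt_app (cnt_cups (b + m) 0), cnt_bwd hw (by omega)]
  have s2 := (NFU.pass b m j e hj).left (cups (b + m) ++ braidWord w) hc
  rw [List.append_assoc (cups (b + m) ++ braidWord w)] at s1
  have e1 : cups (b + m) ++ braidWord (w ++ [(j, e)]) ++ sh b (caps m) =
      cups (b + m) ++ braidWord w ++ ([(.crs e, j)] ++ sh b (caps m)) := by
    rw [braidWord_append, braidWord_cons, braidWord_nil]
    simp only [List.append_assoc]
  rw [e1]
  exact s1.trans s2

end Pool.Agent.WD
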