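import Pool.Agent.WD.StQ

/-!
# WD, module NRC: the framing factor of a closed braid
-/

namespace Pool.Agent.WD

open Pool.Agent.LibH11 Pool.Agent.IT Pool.Agent.GK Pool.Agent.TwoBr
open scoped BigOperators

namespace NRC

theorem piv_nrm {A ι : Type} [CommRing A] [Fintype ι] [DecidableEq ι] {M : Mats A ι} {ε : A}
    {κ : ι → A} (h : Piv M ε κ) (θ : Bool → A) :
    Piv (M.nrm θ) ε (fun x : Bool × ι => κ x.2) := by
  rintro ⟨o, a⟩ ⟨o', a'⟩
  have h1 := h a a'
  simp only [Fintype.sum_prod_type, Fintype.sum_bool, Mats.nrm, Prod.mk.injEq]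
  rcases o with _ | _ <;> rcases o' with _ | _ <;> simp [h1]

end NRC

theorem t_NRC (hTRC : TRC_Stmt) (hTYP : TYP_Stmt) : NRC_Stmt := by
  intro A _ ι _ _ M ε κ θ hP n w hB hK F a
  have e1 := hTRC A (Bool × ι) (M.nrm θ) ε (fun x : Bool × ι => κ x.2) (NRC.piv_nrm hP θ) n w hB F
    (true, a)
  have e2 := hTRC A ι M ε κ hP n w hB (fun l => F (l.map fun x => (true, x))) a
  obtain ⟨t1, t2⟩ := hTYP A (Bool × ι) Bool ι
    (rdM (M.nrm θ) (fun x : Bool × ι => κ x.2)) (rdM M κ) Prod.fst (fun a => (true, a)) true θ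
    (fun x y hxy => (Prod.mk.inj hxy).2)
    (by
      rintro ⟨o, b⟩
      constructor
      · rintro h
        exact ⟨b, by simpa using h⟩
      · rintro ⟨c, hc⟩
        rw [hc])
    (by
      intro x y h
      by_contra hne
      apply h
      simp only [rdM, Mats.nrm]
      rw [if_neg]
      rintro ⟨h1, h2⟩
      exact hne ⟨h2.symm, h1.symm⟩)
    (by
      intro x y h
      by_contra hne
      apply h
      simp only [rdM, Mats.nrm]
      rw [if_neg]
      rintro ⟨h1, h2⟩
      exact hne ⟨h2.symm, h1.symm⟩)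
    (by
      intro a b c d
      simp [rdM, Mats.nrm])
    (by
      intro a b c d
      simp [rdM, Mats.nrm])
    (fun _ => rfl) n w hB hK
  rw [e1, e2, Fintype.sum_prod_type, Fintype.sum_bool]
  have z : ∑ y : ι, ptr (rdM (M.nrm θ) (fun x : Bool × ι => κ x.2)) n w (true, a) (false, y) *
      F [(false, y)] = 0 := by
    apply Finset.sum_eq_zero
    intro y _
    rw [t1 a (false, y) (by simp), zero_mul]
  rw [z, add_zero]
  have s : ∑ y : ι, ptr (rdM (M.nrm θ) (fun x : Bool × ι => κ x.2)) n w (true, a) (true, y) *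
      F [(true, y)] = (w.map fun p => θ p.2).prod *
        ∑ y : ι, ptr (rdM M κ) n w a y * F ([y].map fun x => (true, x)) := by
    rw [Finset.mul_sum]
    apply Finset.sum_congr rfl
    intro y _
    rw [t2 a y, mul_assoc]
    rfl
  rw [s]
  ring

end Pool.Agent.WD
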