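import Pool.Agent.WD.StQ

/-!
# WD, module NRD: the framing factor of a double
-/

set_option autoImplicit false

namespace Pool.Agent.WD

open Pool.Agent.LibH11 Pool.Agent.IT Pool.Agent.GK Pool.Agent.TwoBr
open Pool.Agent.LibH11.Sliced (Diag Kind cnt IsLongKnot ofDiag braidWord)
open scoped BigOperators

namespace NRD

/-! ### Labels with orientations -/

/-- labels with orientations -/
def lft {ι : Type} {k : ℕ} (o : Fin k → Bool) (s : Fin k → ι) : Fin k → Bool × ι :=
  fun i => (o i, s i)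

theorem lft_inj {ι : Type} {k : ℕ} {o o' : Fin k → Bool} {s s' : Fin k → ι} :
    lft o s = lft o' s' ↔ o = o' ∧ s = s' := by
  constructor
  · intro h
    constructor
    · funext i
      exact congrArg Prod.fst (congrFun h i)
    · funext i
      exact congrArg Prod.snd (congrFun h i)
  · rintro ⟨rfl, rfl⟩
    rfl

theorem eta {ι : Type} {k : ℕ} (y : Fin k → Bool × ι) :
    lft (fun i => (y i).1) (fun i => (y i).2) = y := rfl

theorem sum_lft {A ι : Type} [CommRing A] [Fintype ι] {k : ℕ} (f : (Fin k → Bool × ι) → A) :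
    ∑ y, f y = ∑ o : Fin k → Bool, ∑ s : Fin k → ι, f (lft o s) := by
  rw [← Equiv.sum_comp (Equiv.arrowProdEquivProdArrow (Fin k) (fun _ => Bool)
    (fun _ => ι)).symm, Fintype.sum_prod_type]
  rfl

/-- the orientations after a letter -/
def st (n : ℕ) (o : Fin (n + 1) → Bool) (p : ℕ × Bool) : Fin (n + 1) → Bool :=
  if h : p.1 < n then
    o ∘ Equiv.swap ⟨p.1, Nat.lt_succ_of_lt h⟩ ⟨p.1 + 1, Nat.succ_lt_succ h⟩ else o

/-- the sign of a crossing -/
def sn (n : ℕ) (o : Fin (n + 1) → Bool) (p : ℕ × Bool) : Bool :=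
  if h : p.1 < n then
    (if o ⟨p.1, Nat.lt_succ_of_lt h⟩ = o ⟨p.1 + 1, Nat.succ_lt_succ h⟩ then p.2 else !p.2)
  else p.2

/-- the orientations after a word -/
def tr (n : ℕ) : (Fin (n + 1) → Bool) → Word → Fin (n + 1) → Bool
  | o, [] => o
  | o, p :: w => tr n (st n o p) w

/-- the signs of the crossings of a word -/
def sns (n : ℕ) : (Fin (n + 1) → Bool) → Word → List Bool
  | _, [] => []
  | o, p :: w => sn n o p :: sns n (st n o p) w

section

variable {A ι : Type} [CommRing A] [Fintype ι] [DecidableEq ι]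

theorem op_cons {L : Type} [Fintype L] [DecidableEq L] (T : RData A L) (n : ℕ) (y : ℕ × Bool)
    (w : Word) : op T n (y :: w) = opl T n y * op T n w := by
  unfold op
  rw [List.map_cons, List.prod_cons]

theorem atp_lft {n : ℕ} (x y : Fin (n + 1)) (Q' : Matrix ((Bool × ι) × (Bool × ι))
    ((Bool × ι) × (Bool × ι)) A) (Q : Matrix (ι × ι) (ι × ι) A) (c : Bool → Bool → A)
    (hQ : ∀ a b a' b' : Bool × ι, Q' (a, b) (a', b') = if a'.1 = b.1 ∧ b'.1 = a.1 then
      c a.1 b.1 * Q (a.2, b.2) (a'.2, b'.2) else 0) (o o' : Fin (n + 1) → Bool)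
    (s t : Fin (n + 1) → ι) :
    atp Q' x y (lft o s) (lft o' t) =
      if o' = o ∘ Equiv.swap x y then c (o x) (o y) * atp Q x y s t else 0 := by
  unfold atp
  by_cases h : o' = o ∘ Equiv.swap x y
  · rw [if_pos h]
    have hz : ∀ z, z ≠ x → z ≠ y → o' z = o z := by
      intro z h1 h2
      rw [h, Function.comp_apply, Equiv.swap_apply_of_ne_of_ne h1 h2]
    by_cases h3 : ∀ z, z ≠ x → z ≠ y → s z = t z
    · rw [if_pos h3, if_pos (by
        intro z h1 h2
        change (o z, s z) = (o' z, t z)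
        rw [hz z h1 h2, h3 z h1 h2])]
      rw [hQ, if_pos]
      · rfl
      · constructor
        · change o' x = o y
          rw [h, Function.comp_apply, Equiv.swap_apply_left]
        · change o' y = o x
          rw [h, Function.comp_apply, Equiv.swap_apply_right]
    · rw [if_neg h3, if_neg (by
        intro h4
        exact h3 fun z h1 h2 => congrArg Prod.snd (h4 z h1 h2)), mul_zero]
  · rw [if_neg h]
    by_cases h4 : ∀ z, z ≠ x → z ≠ y → lft o s z = lft o' t z
    · rw [if_pos h4, hQ, if_neg]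
      rintro ⟨h5, h6⟩
      apply h
      funext z
      change o' x = o y at h5
      change o' y = o x at h6
      rw [Function.comp_apply]
      by_cases hzx : z = x
      · rw [hzx, Equiv.swap_apply_left, h5]
      · by_cases hzy : z = y
        · rw [hzy, Equiv.swap_apply_right, h6]
        · rw [Equiv.swap_apply_of_ne_of_ne hzx hzy]
          exact (congrArg Prod.fst (h4 z hzx hzy)).symm
    · rw [if_neg h4]

theorem opl_lft (M : Mats A ι) (κ : ι → A) (κ' : Bool × ι → A) (θ : Bool → A) {n : ℕ}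
    {p : ℕ × Bool} (hp : p.1 < n) (o o' : Fin (n + 1) → Bool) (s t : Fin (n + 1) → ι) :
    opl (rdM (M.nrm θ) κ') n p (lft o s) (lft o' t) =
      if o' = st n o p then θ (sn n o p) * opl (rdM M κ) n p s t else 0 := by
  unfold opl st sn
  rw [dif_pos hp, dif_pos hp, dif_pos hp, dif_pos hp]
  refine atp_lft (⟨p.1, Nat.lt_succ_of_lt hp⟩ : Fin (n + 1)) ⟨p.1 + 1, Nat.succ_lt_succ hp⟩
    _ _ (fun a b => θ (if a = b then p.2 else !p.2)) ?_ o o' s t
  intro a b a' b'
  obtain ⟨i, e⟩ := p
  cases e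
  · rfl
  · rfl

theorem op_lft (M : Mats A ι) (κ : ι → A) (κ' : Bool × ι → A) (θ : Bool → A) (n : ℕ) :
    ∀ (w : Word), Bd n w → ∀ (o o' : Fin (n + 1) → Bool) (s t : Fin (n + 1) → ι),
    op (rdM (M.nrm θ) κ') n w (lft o s) (lft o' t) =
      if o' = tr n o w then ((sns n o w).map θ).prod * op (rdM M κ) n w s t else 0 := by
  intro w
  induction w with
  | nil =>
    intro _ o o' s t
    change (1 : Matrix (Fin (n + 1) → Bool × ι) (Fin (n + 1) → Bool × ι) A) (lft o s) (lft o' t) =
      if o' = o then 1 * (1 : Matrix (Fin (n + 1) → ι) (Fin (n + 1) → ι) A) s t else 0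
    rw [Matrix.one_apply, Matrix.one_apply, one_mul]
    by_cases h : o' = o
    · rw [if_pos h]
      by_cases h1 : s = t
      · rw [if_pos h1, if_pos (lft_inj.2 ⟨h.symm, h1⟩)]
      · rw [if_neg h1, if_neg fun h2 => h1 (lft_inj.1 h2).2]
    · rw [if_neg h, if_neg fun h2 => h (lft_inj.1 h2).1.symm]
  | cons p w ih =>
    intro hw o o' s t
    have hw' : Bd n w := fun x hx => hw x (List.mem_cons_of_mem _ hx)
    have hp : p.1 < n := hw p List.mem_cons_self
    have e1 : op (rdM (M.nrm θ) κ') n (p :: w) (lft o s) (lft o' t) =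
        ∑ y, opl (rdM (M.nrm θ) κ') n p (lft o s) y *
          op (rdM (M.nrm θ) κ') n w y (lft o' t) := by
      rw [op_cons, Matrix.mul_apply]
    have e2 : op (rdM M κ) n (p :: w) s t =
        ∑ y, opl (rdM M κ) n p s y * op (rdM M κ) n w y t := by
      rw [op_cons, Matrix.mul_apply]
    rw [e1, e2, sum_lft, Finset.sum_eq_single (st n o p)]
    · change _ = if o' = tr n (st n o p) w then
        (θ (sn n o p) * ((sns n (st n o p) w).map θ).prod) * _ else 0
      have e3 : ∀ u : Fin (n + 1) → ι,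
          opl (rdM (M.nrm θ) κ') n p (lft o s) (lft (st n o p) u) *
            op (rdM (M.nrm θ) κ') n w (lft (st n o p) u) (lft o' t) =
          if o' = tr n (st n o p) w then
            (θ (sn n o p) * ((sns n (st n o p) w).map θ).prod) *
              (opl (rdM M κ) n p s u * op (rdM M κ) n w u t) else 0 := by
        intro u
        rw [opl_lft M κ κ' θ hp, ih hw', if_pos rfl]
        by_cases h : o' = tr n (st n o p) w
        · rw [if_pos h, if_pos h]
          ring
        · rw [if_neg h, if_neg h, mul_zero]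
      rw [Finset.sum_congr rfl fun u _ => e3 u]
      by_cases h : o' = tr n (st n o p) w
      · rw [if_pos h, Finset.mul_sum]
        refine Finset.sum_congr rfl fun u _ => ?_
        rw [if_pos h]
      · rw [if_neg h]
        refine Finset.sum_eq_zero fun u _ => ?_
        rw [if_neg h]
    · intro o'' _ h
      refine Finset.sum_eq_zero fun u _ => ?_
      rw [opl_lft M κ κ' θ hp, if_neg h, zero_mul]
    · intro h
      exact absurd (Finset.mem_univ _) h

/-! ### The blocks -/

theorem tr_blk (e : Bool) : ∀ a b : Fin 2 → Bool,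
    tr 3 (Fin.append a b : Fin (2 + 2) → Bool) (blk 2 (0, e)) = Fin.append b a := by
  cases e <;> decide

theorem sns_tt (e : Bool) : sns 3 (Fin.append ![true, true] ![true, true] : Fin (2 + 2) → Bool)
    (blk 2 (0, e)) = [e, e, e, e] := by
  cases e <;> decide

theorem sns_tf (e : Bool) : sns 3 (Fin.append ![true, false] ![true, false] : Fin (2 + 2) → Bool)
    (blk 2 (0, e)) = [!e, e, e, !e] := by
  cases e <;> decide

theorem bd_blk (e : Bool) : Bd 3 (blk 2 (0, e)) := by
  cases e <;> (unfold Bd; decide)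

theorem app_lft (a b : Fin 2 → Bool) (s t : Fin 2 → ι) :
    (Fin.append (lft a s) (lft b t) : Fin (2 + 2) → Bool × ι) =
      lft (Fin.append a b : Fin (2 + 2) → Bool) (Fin.append s t : Fin (2 + 2) → ι) := by
  funext i
  fin_cases i <;> rfl

theorem app_inj {L : Type} {a b c d : Fin 2 → L}
    (h : (Fin.append a b : Fin (2 + 2) → L) = Fin.append c d) : a = c ∧ b = d := by
  constructor
  · funext i
    have := congrFun h (Fin.castAdd 2 i)
    rwa [Fin.append_left, Fin.append_left] at this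
  · funext i
    have := congrFun h (Fin.natAdd 2 i)
    rwa [Fin.append_right, Fin.append_right] at this

theorem blk_lft (M : Mats A ι) (κ : ι → A) (κ' : Bool × ι → A) (θ : Bool → A) (e : Bool)
    (a b a' b' : Fin 2 → Bool) (s t s' t' : Fin 2 → ι) :
    op (rdM (M.nrm θ) κ') 3 (blk 2 (0, e))
      (Fin.append (lft a s) (lft b t) : Fin (2 + 2) → Bool × ι)
      (Fin.append (lft a' s') (lft b' t') : Fin (2 + 2) → Bool × ι) =
    if a' = b ∧ b' = a then
      ((sns 3 (Fin.append a b : Fin (2 + 2) → Bool) (blk 2 (0, e))).map θ).prod *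
        op (rdM M κ) 3 (blk 2 (0, e)) (Fin.append s t : Fin (2 + 2) → ι)
          (Fin.append s' t' : Fin (2 + 2) → ι) else 0 := by
  rw [app_lft, app_lft, op_lft M κ κ' θ 3 _ (bd_blk e), tr_blk e a b]
  by_cases h : a' = b ∧ b' = a
  · rw [if_pos h, if_pos (by rw [h.1, h.2])]
  · rw [if_neg h, if_neg fun h1 => h (app_inj h1)]

/-! ### The twists -/

theorem bd_rep (k : ℕ) (e : Bool) : Bd 1 (List.replicate k (0, e)) := by
  intro x hx
  rw [(List.mem_replicate.1 hx).2]
  exact Nat.one_pos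

theorem st_st (e : Bool) : ∀ o : Fin 2 → Bool, st 1 (st 1 o (0, e)) (0, e) = o := by
  cases e <;> decide

theorem tr_rep (e : Bool) (k : ℕ) (o : Fin 2 → Bool) :
    tr 1 o (List.replicate (2 * k) (0, e)) = o := by
  induction k with
  | zero => rfl
  | succ k ih =>
    have h : 2 * (k + 1) = 2 * k + 1 + 1 := by ring
    rw [h, List.replicate_succ, List.replicate_succ]
    change tr 1 (st 1 (st 1 o (0, e)) (0, e)) (List.replicate (2 * k) (0, e)) = o
    rw [st_st, ih]

theorem st_ne (e : Bool) : ∀ o : Fin 2 → Bool, o 0 ≠ o 1 →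
    st 1 o (0, e) 0 ≠ st 1 o (0, e) 1 ∧ sn 1 o (0, e) = !e := by
  cases e <;> decide

theorem sns_rep (e : Bool) (k : ℕ) : ∀ o : Fin 2 → Bool, o 0 ≠ o 1 →
    sns 1 o (List.replicate k (0, e)) = List.replicate k (!e) := by
  induction k with
  | zero =>
    intro o _
    rfl
  | succ k ih =>
    intro o ho
    obtain ⟨h1, h2⟩ := st_ne e o ho
    rw [List.replicate_succ, List.replicate_succ]
    change sn 1 o (0, e) :: sns 1 (st 1 o (0, e)) (List.replicate k (0, e)) = _
    rw [h2, ih _ h1]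

theorem tw_zero (M : Mats A ι) (κ' : Bool × ι → A) (θ : Bool → A) (m : ℤ)
    {o o' : Fin 2 → Bool} (h : o' ≠ o) (s t : Fin 2 → ι) :
    tw (rdM (M.nrm θ) κ') m (lft o s) (lft o' t) = 0 := by
  unfold tw
  rw [op_lft M 0 κ' θ 1 _ (bd_rep _ _), tr_rep, if_neg h]

theorem tw_lft (M : Mats A ι) (κ : ι → A) (κ' : Bool × ι → A) (θ : Bool → A) (m : ℤ)
    {o : Fin 2 → Bool} (h : o 0 ≠ o 1) (s t : Fin 2 → ι) :
    tw (rdM (M.nrm θ) κ') m (lft o s) (lft o t) =
      θ (!(decide (0 < m))) ^ (2 * m.natAbs) * tw (rdM M κ) m s t := by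
  unfold tw
  rw [op_lft M κ κ' θ 1 _ (bd_rep _ _), tr_rep, if_pos rfl, sns_rep _ _ o h,
    List.map_replicate, List.prod_replicate]

/-! ### The clasp -/

theorem clasp_zero (M : Mats A ι) (θ : Bool → A) (e : Bool) (x y : Fin 2 → Bool × ι)
    (h : (x 0).1 = (x 1).1) : clasp (M.nrm θ) e x y = 0 := by
  unfold clasp
  refine Finset.sum_eq_zero fun c _ => Finset.sum_eq_zero fun z _ => ?_
  by_cases hz : (x 0).1 = z.1
  · have h1 : (M.nrm θ).cap (x 0) z = 0 := if_pos hz
    rw [h1, mul_zero]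
  · have h2 : (∑ p, ∑ r, (M.nrm θ).X e (x 1) c p r * (M.nrm θ).X e p r z (y 0)) = 0 := by
      refine Finset.sum_eq_zero fun p _ => Finset.sum_eq_zero fun r _ => ?_
      by_cases h3 : p.1 = c.1 ∧ r.1 = (x 1).1
      · have h4 : (M.nrm θ).X e p r z (y 0) = 0 := by
          refine if_neg ?_
          rintro ⟨h5, _⟩
          exact hz (by rw [h5, h3.2, h])
        rw [h4, mul_zero]
      · have h4 : (M.nrm θ).X e (x 1) c p r = 0 := if_neg h3
        rw [h4, zero_mul]
    rw [h2, mul_zero, zero_mul]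

theorem clasp_zero' (M : Mats A ι) (θ : Bool → A) (e : Bool) (x y : Fin 2 → Bool × ι)
    (h : (y 0).1 = (y 1).1) : clasp (M.nrm θ) e x y = 0 := by
  unfold clasp
  refine Finset.sum_eq_zero fun c _ => Finset.sum_eq_zero fun z _ => ?_
  by_cases hz : c.1 = (y 1).1
  · have h1 : (M.nrm θ).cup c (y 1) = 0 := if_pos hz
    rw [h1, zero_mul, zero_mul]
  · have h2 : (∑ p, ∑ r, (M.nrm θ).X e (x 1) c p r * (M.nrm θ).X e p r z (y 0)) = 0 := by
      refine Finset.sum_eq_zero fun p _ => Finset.sum_eq_zero fun r _ => ?_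
      by_cases h3 : p.1 = c.1 ∧ r.1 = (x 1).1
      · have h4 : (M.nrm θ).X e p r z (y 0) = 0 := by
          refine if_neg ?_
          rintro ⟨_, h5⟩
          exact hz (by rw [← h3.1, ← h5, h])
        rw [h4, mul_zero]
      · have h4 : (M.nrm θ).X e (x 1) c p r = 0 := if_neg h3
        rw [h4, zero_mul]
    rw [h2, mul_zero, zero_mul]

theorem clasp_tf (M : Mats A ι) (θ : Bool → A) (e : Bool) (s t : Fin 2 → ι) :
    clasp (M.nrm θ) e (lft ![true, false] s) (lft ![true, false] t) =
      θ (!e) ^ 2 * clasp M e s t := by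
  unfold clasp
  simp only [Fintype.sum_prod_type, Fintype.sum_bool, Mats.nrm, lft, Matrix.cons_val_zero,
    Matrix.cons_val_one]
  simp
  rw [Finset.mul_sum]
  refine Finset.sum_congr rfl fun c _ => ?_
  rw [Finset.mul_sum]
  refine Finset.sum_congr rfl fun z _ => ?_
  have h : (∑ p, ∑ r, θ (!e) * M.X e (s 1) c p r * (θ (!e) * M.X e p r z (t 0))) =
      θ (!e) ^ 2 * ∑ p, ∑ r, M.X e (s 1) c p r * M.X e p r z (t 0) := by
    rw [Finset.mul_sum]
    refine Finset.sum_congr rfl fun p _ => ?_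
    rw [Finset.mul_sum]
    refine Finset.sum_congr rfl fun r _ => ?_
    ring
  rw [h]
  ring

/-! ### Types -/

/-- the vanishing of the sum for parallel strands -/
theorem sum_one {k : ℕ} (o : Fin k → Bool) (f : (Fin k → Bool × ι) → A)
    (hf : ∀ y : Fin k → Bool × ι, (fun i => (y i).1) ≠ o → f y = 0) :
    ∑ y, f y = ∑ s : Fin k → ι, f (lft o s) := by
  rw [sum_lft, Finset.sum_eq_single o]
  · intro o' _ h
    refine Finset.sum_eq_zero fun s _ => ?_
    exact hf _ h
  · intro h
    exact absurd (Finset.mem_univ _) h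

theorem ptr_ty (hTYP : TYP_Stmt) (M : Mats A ι) (κ : ι → A) (θ : Bool → A) (o : Fin 2 → Bool)
    (χ : Bool → A)
    (hχ : ∀ e, ((sns 3 (Fin.append o o : Fin (2 + 2) → Bool) (blk 2 (0, e))).map θ).prod = χ e)
    (n : ℕ) (w : Word) (hB : Bd n w) (hK : LibH11.IsKnot (ev n w)) :
    (∀ (a : Fin 2 → ι) (l : Fin 2 → Bool × ι), (fun i => (l i).1) ≠ o →
      ptr (blkD (rdM (M.nrm θ) fun x : Bool × ι => κ x.2) 1) n w (lft o a) l = 0) ∧
    (∀ a c : Fin 2 → ι,
      ptr (blkD (rdM (M.nrm θ) fun x : Bool × ι => κ x.2) 1) n w (lft o a) (lft o c) =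
      (w.map fun p => χ p.2).prod * ptr (blkD (rdM M κ) 1) n w a c) := by
  have hty : ∀ (e : Bool) (x y : (Fin 2 → Bool × ι) × (Fin 2 → Bool × ι)),
      op (rdM (M.nrm θ) fun x : Bool × ι => κ x.2) 3 (blk 2 (0, e))
        (Fin.append x.1 x.2 : Fin (2 + 2) → Bool × ι)
        (Fin.append y.1 y.2 : Fin (2 + 2) → Bool × ι) ≠ 0 →
      (fun i => (x.1 i).1) = (fun i => (y.2 i).1) ∧
        (fun i => (x.2 i).1) = (fun i => (y.1 i).1) := by
    intro e x y h
    rw [← eta x.1, ← eta x.2, ← eta y.1, ← eta y.2, blk_lft M κ] at h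
    by_contra hne
    apply h
    rw [if_neg]
    rintro ⟨h1, h2⟩
    exact hne ⟨h2.symm, h1.symm⟩
  have hj : ∀ (e : Bool) (a b c d : Fin 2 → ι),
      op (rdM (M.nrm θ) fun x : Bool × ι => κ x.2) 3 (blk 2 (0, e))
        (Fin.append (lft o a) (lft o b) : Fin (2 + 2) → Bool × ι)
        (Fin.append (lft o c) (lft o d) : Fin (2 + 2) → Bool × ι) =
      χ e * op (rdM M κ) 3 (blk 2 (0, e)) (Fin.append a b : Fin (2 + 2) → ι)
          (Fin.append c d : Fin (2 + 2) → ι) := by
    intro e a b c d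
    rw [blk_lft M κ, if_pos ⟨rfl, rfl⟩, hχ]
  exact hTYP A (Fin 2 → Bool × ι) (Fin 2 → Bool) (Fin 2 → ι)
    (blkD (rdM (M.nrm θ) fun x : Bool × ι => κ x.2) 1) (blkD (rdM M κ) 1)
    (fun l i => (l i).1) (lft o) o χ
    (fun x y hxy => (lft_inj.1 hxy).2)
    (by
      intro l
      constructor
      · intro h
        refine ⟨fun i => (l i).2, ?_⟩
        rw [← h]
        rfl
      · rintro ⟨c, hc⟩
        rw [hc]
        rfl)
    (fun x y h => hty true x y h) (fun x y h => hty false x y h)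
    (fun a b c d => hj true a b c d) (fun a b c d => hj false a b c d)
    (fun _ => rfl) n w hB hK

end

theorem piv_nrm {A ι : Type} [CommRing A] [Fintype ι] [DecidableEq ι] {M : Mats A ι} {ε : A}
    {κ : ι → A} (h : Piv M ε κ) (θ : Bool → A) :
    Piv (M.nrm θ) ε (fun x : Bool × ι => κ x.2) := by
  rintro ⟨o, a⟩ ⟨o', a'⟩
  have h1 := h a a'
  simp only [Fintype.sum_prod_type, Fintype.sum_bool, Mats.nrm, Prod.mk.injEq]
  rcases o with _ | _ <;> rcases o' with _ | _ <;> simp [h1]

theorem zig_nrm {A ι : Type} [CommRing A] [Fintype ι] [DecidableEq ι] {M : Mats A ι}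
    (h : Zig M) (θ : Bool → A) : Zig (M.nrm θ) := by
  rintro ⟨o, x⟩ ⟨o', a⟩
  have h1 := h x a
  simp only [Fintype.sum_prod_type, Fintype.sum_bool, Mats.nrm, Prod.mk.injEq]
  rcases o with _ | _ <;> rcases o' with _ | _ <;> simp [h1]

section

variable {A ι : Type} [CommRing A] [Fintype ι] [DecidableEq ι]

theorem vec_lft (o o' : Bool) (a b : ι) :
    (![(o, a), (o', b)] : Fin 2 → Bool × ι) = lft ![o, o'] ![a, b] := by
  funext i
  fin_cases i <;> rfl

/-- the product of the three matrices, parallel strands -/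
theorem mat_tt (hTYP : TYP_Stmt) (M : Mats A ι) (κ : ι → A) (θ : Bool → A) (e : Bool) (m : ℤ)
    (n : ℕ) (w : Word) (hB : Bd n w) (hK : LibH11.IsKnot (ev n w)) (a : Fin 2 → ι)
    (y : Fin 2 → Bool × ι) :
    (ptr (blkD (rdM (M.nrm θ) fun x : Bool × ι => κ x.2) 1) n w *
      tw (rdM (M.nrm θ) fun x : Bool × ι => κ x.2) m * clasp (M.nrm θ) e)
      (lft ![true, true] a) y = 0 := by
  obtain ⟨h1, -⟩ := ptr_ty hTYP M κ θ ![true, true]
    (fun e => (([e, e, e, e] : List Bool).map θ).prod)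
    (fun e => by rw [sns_tt]) n w hB hK
  rw [Matrix.mul_apply]
  refine Finset.sum_eq_zero fun z _ => ?_
  by_cases hz : (fun i => (z i).1) = ![true, true]
  · rw [clasp_zero M θ e z y, mul_zero]
    have h2 := congrFun hz 0
    have h3 := congrFun hz 1
    simp only [Matrix.cons_val_zero, Matrix.cons_val_one] at h2 h3
    rw [h2, h3]
  · rw [Matrix.mul_apply, Finset.sum_eq_zero, zero_mul]
    intro u _
    by_cases hu : (fun i => (u i).1) = ![true, true]
    · rw [← eta u, ← eta z, tw_zero M _ θ m, mul_zero]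
      rw [hu]
      exact hz
    · rw [h1 a u hu, zero_mul]

/-- the product of the three matrices, antiparallel strands -/
theorem mat_tf (hTYP : TYP_Stmt) (M : Mats A ι) (κ : ι → A) (θ : Bool → A)
    (hθ : ∀ e, θ e * θ (!e) = 1) (e : Bool) (m : ℤ)
    (n : ℕ) (w : Word) (hB : Bd n w) (hK : LibH11.IsKnot (ev n w)) (a : Fin 2 → ι)
    (y : Fin 2 → Bool × ι) (g : (Fin 2 → ι) → A) (hg : ∀ c : Fin 2 → ι,
      clasp (M.nrm θ) e (lft ![true, false] c) y = g c) :
    (ptr (blkD (rdM (M.nrm θ) fun x : Bool × ι => κ x.2) 1) n w *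
      tw (rdM (M.nrm θ) fun x : Bool × ι => κ x.2) m * clasp (M.nrm θ) e)
      (lft ![true, false] a) y = θ (!(decide (0 < m))) ^ (2 * m.natAbs) *
      ∑ c, (ptr (blkD (rdM M κ) 1) n w * tw (rdM M κ) m) a c * g c := by
  obtain ⟨h1, h2⟩ := ptr_ty hTYP M κ θ ![true, false] (fun _ => 1)
    (fun e => by
      rw [sns_tf]
      simp only [List.map_cons, List.map_nil, List.prod_cons, List.prod_nil, mul_one]
      have h3 := hθ e
      calc θ (!e) * (θ e * (θ e * θ (!e))) = (θ e * θ (!e)) * (θ e * θ (!e)) := by ring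
        _ = 1 := by rw [h3, one_mul]) n w hB hK
  have hne : (![true, false] : Fin 2 → Bool) 0 ≠ (![true, false] : Fin 2 → Bool) 1 := by decide
  have h3 : ∀ (z : Fin 2 → Bool × ι),
      (ptr (blkD (rdM (M.nrm θ) fun x : Bool × ι => κ x.2) 1) n w *
        tw (rdM (M.nrm θ) fun x : Bool × ι => κ x.2) m) (lft ![true, false] a) z =
      ∑ c : Fin 2 → ι, ptr (blkD (rdM M κ) 1) n w a c *
        tw (rdM (M.nrm θ) fun x : Bool × ι => κ x.2) m (lft ![true, false] c) z := by
    intro z
    rw [Matrix.mul_apply, sum_one ![true, false]]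
    · refine Finset.sum_congr rfl fun c _ => ?_
      rw [h2, List.map_const', List.prod_replicate, one_pow, one_mul]
    · intro u hu
      rw [h1 a u hu, zero_mul]
  rw [Matrix.mul_apply, sum_one ![true, false], Finset.mul_sum]
  · refine Finset.sum_congr rfl fun c _ => ?_
    rw [h3, hg, ← mul_assoc]
    congr 1
    rw [Matrix.mul_apply, Finset.mul_sum]
    refine Finset.sum_congr rfl fun d _ => ?_
    rw [tw_lft M κ _ θ m hne]
    ring
  · intro z hz
    rw [h3, Finset.sum_eq_zero, zero_mul]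
    intro c _
    rw [← eta z, tw_zero M _ θ m hz, mul_zero]

end

end NRD

open NRD in
theorem t_NRD (hDVF : DVF_Stmt) (hTYP : TYP_Stmt) : NRD_Stmt := by
  intro A _ ι _ _ M ε κ θ hP hZ hθ e m n w hB hK F a
  rw [hDVF A (Bool × ι) (M.nrm θ) ε (fun x : Bool × ι => κ x.2) (piv_nrm hP θ) (zig_nrm hZ θ)
    e m n w hB F (true, a), hDVF A ι M ε κ hP hZ e m n w hB _ a]
  have key : ∀ u : Bool × ι, (∑ b : Bool × ι, κ b.2 *
      (ptr (blkD (rdM (M.nrm θ) fun x : Bool × ι => κ x.2) 1) n w *
        tw (rdM (M.nrm θ) fun x : Bool × ι => κ x.2) m * clasp (M.nrm θ) e)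
        ![(true, a), b] ![u, b]) =
      if u.1 = true then θ (!e) ^ 2 * θ (!(decide (0 < m))) ^ (2 * m.natAbs) *
        ∑ b : ι, κ b * (ptr (blkD (rdM M κ) 1) n w * tw (rdM M κ) m * clasp M e)
          ![a, b] ![u.2, b] else 0 := by
    intro u
    obtain ⟨o, u⟩ := u
    rw [Fintype.sum_prod_type, Fintype.sum_bool]
    have e1 : ∑ b : ι, κ ((true, b) : Bool × ι).2 *
        (ptr (blkD (rdM (M.nrm θ) fun x : Bool × ι => κ x.2) 1) n w *
          tw (rdM (M.nrm θ) fun x : Bool × ι => κ x.2) m * clasp (M.nrm θ) e)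
          ![(true, a), (true, b)] ![(o, u), (true, b)] = 0 := by
      refine Finset.sum_eq_zero fun b _ => ?_
      rw [vec_lft true true a b, mat_tt hTYP M κ θ e m n w hB hK, mul_zero]
    rw [e1, zero_add]
    cases o with
    | false =>
      rw [if_neg (fun h : false = true => Bool.false_ne_true h)]
      refine Finset.sum_eq_zero fun b _ => ?_
      rw [vec_lft true false a b, mat_tf hTYP M κ θ hθ e m n w hB hK _ _ (fun _ => 0)]
      · rw [Finset.sum_eq_zero (fun c _ => mul_zero _), mul_zero, mul_zero]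
      · intro c
        exact clasp_zero' M θ e _ _ rfl
    | true =>
      rw [if_pos rfl, Finset.mul_sum]
      refine Finset.sum_congr rfl fun b _ => ?_
      rw [vec_lft true false a b, vec_lft true false u b,
        mat_tf hTYP M κ θ hθ e m n w hB hK _ _ (fun c => θ (!e) ^ 2 * clasp M e c ![u, b])]
      · rw [Matrix.mul_apply]
        change κ b * (_ * _) = _ * (κ b * _)
        have e2 : ∑ c, (ptr (blkD (rdM M κ) 1) n w * tw (rdM M κ) m) ![a, b] c *
            (θ (!e) ^ 2 * clasp M e c ![u, b]) = θ (!e) ^ 2 *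
            ∑ c, (ptr (blkD (rdM M κ) 1) n w * tw (rdM M κ) m) ![a, b] c *
              clasp M e c ![u, b] := by
          rw [Finset.mul_sum]
          refine Finset.sum_congr rfl fun c _ => ?_
          ring
        rw [e2]
        ring
      · intro c
        exact clasp_tf M θ e c ![u, b]
  rw [Finset.sum_congr rfl fun u _ => congrArg (· * F [u]) (key u)]
  rw [Fintype.sum_prod_type, Fintype.sum_bool]
  have z : ∑ y : ι, (if ((false, y) : Bool × ι).1 = true then
      θ (!e) ^ 2 * θ (!(decide (0 < m))) ^ (2 * m.natAbs) *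
        ∑ b : ι, κ b * (ptr (blkD (rdM M κ) 1) n w * tw (rdM M κ) m * clasp M e)
          ![a, b] ![((false, y) : Bool × ι).2, b] else 0) * F [(false, y)] = 0 := by
    refine Finset.sum_eq_zero fun y _ => ?_
    rw [if_neg (fun h : false = true => Bool.false_ne_true h), zero_mul]
  rw [z, add_zero, Finset.mul_sum, Finset.mul_sum, Finset.mul_sum]
  refine Finset.sum_congr rfl fun y _ => ?_
  rw [if_pos rfl]
  change _ = _ * (_ * (_ * F [(true, y)]))
  ring

end Pool.Agent.WD
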