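import Pool.Agent.WD.StQ

/-!
# OKF: the model satisfies the relations
-/

set_option autoImplicit false

namespace Pool.Agent.WD

open Pool.Agent.LibH11 Pool.Agent.IT Pool.Agent.GK Pool.Agent.TwoBr
open scoped BigOperators

theorem t_OKF (hCUPM : CUPM_Stmt) (hSLI : SLI_Stmt) (hRON : RON_Stmt)
    (hRINV : Pool.Agent.IT.RINV_Stmt) (hYBE : Pool.Agent.IT.YBE_Stmt)
    (hVOK : Pool.Agent.IT.VOK_Stmt) : OKF_Stmt := by
  intro K _ s hs N hN
  obtain ⟨-, hzig, hzag, -, -, -⟩ := hCUPM K s hs N hN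
  obtain ⟨hsc, hsu⟩ := hSLI K s hs N hN
  obtain ⟨hrc, hru⟩ := hRON K s hs N hN
  have hV := (hVOK K s hs).1 N
  obtain ⟨hR1, hR2⟩ := hRINV K s hs (Fin N) (Fin N) (V s N) (V s N) hV hV
  refine ⟨hzig, hzag, hsc, hsu, hrc, hru, ?_, ?_, ?_⟩
  · intro e x y p q
    cases e with
    | true =>
      have h := congrFun (congrFun hR2 (x, y)) (p, q)
      rw [Matrix.mul_apply, Fintype.sum_prod_type, Matrix.one_apply] at h
      refine h.trans ?_
      by_cases hpq : p = x ∧ q = y
      · rw [if_pos hpq, if_pos (by rw [hpq.1, hpq.2])]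
      · rw [if_neg hpq, if_neg fun h' => hpq ⟨(congrArg Prod.fst h').symm, (congrArg Prod.snd h').symm⟩]
    | false =>
      have h := congrFun (congrFun hR1 (x, y)) (p, q)
      rw [Matrix.mul_apply, Fintype.sum_prod_type, Matrix.one_apply] at h
      refine h.trans ?_
      by_cases hpq : p = x ∧ q = y
      · rw [if_pos hpq, if_pos (by rw [hpq.1, hpq.2])]
      · rw [if_neg hpq, if_neg fun h' => hpq ⟨(congrArg Prod.fst h').symm, (congrArg Prod.snd h').symm⟩]
  · intro x y z p q r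
    have h := hYBE K s hs (Fin N) (V s N) hV x y z p q r
    refine h.trans ?_
    rw [Finset.sum_comm]
    exact Finset.sum_congr rfl fun a _ => Finset.sum_comm
  · have hs0 : s ≠ 0 := hs.1
    have h1 : ((-1 : K) ^ (N - 1)) * (-1) ^ (N - 1) = 1 := by
      rw [← mul_pow, neg_one_mul, neg_neg, one_pow]
    have h2 : s ^ (-((N : ℤ) ^ 2 - 1)) * s ^ ((N : ℤ) ^ 2 - 1) = 1 := by
      rw [← zpow_add₀ hs0, neg_add_cancel, zpow_zero]
    have h3 : th s N true * th s N false = 1 := by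
      show ((-1) ^ (N - 1) * s ^ (-((N : ℤ) ^ 2 - 1))) * ((-1) ^ (N - 1) * s ^ ((N : ℤ) ^ 2 - 1)) = 1
      rw [mul_mul_mul_comm, h1, h2, one_mul]
    intro e
    cases e with
    | true => exact h3
    | false =>
      show th s N false * th s N true = 1
      rw [mul_comm]
      exact h3

end Pool.Agent.WD
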