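import Pool.Agent.WD.StA

/-!
OPPA: the exact relations between two doubles with opposite clasps.
-/

set_option autoImplicit false

namespace Pool.Agent.WD

open Pool.Agent.LibH11 Pool.Agent.IT Pool.Agent.GK
open PowerSeries

namespace OPPA

/-- the first relation, for the variables `x = E 1`, `y = E (-1)` -/
theorem step1 {R : Type*} [CommRing R] [IsDomain R] (x y D G G' : R) (hxy : x * y = 1)
    (hZ : (x - y) * (x ^ 2 + 1 + y ^ 2) ≠ 0)
    (hA : (x + y) * (D - 1) = -(x ^ 2 * (x - y) * (x ^ 2 + 1 + y ^ 2) * G))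
    (hA' : (x + y) * (D - 1) = y ^ 2 * (x - y) * (x ^ 2 + 1 + y ^ 2) * G') :
    G' = -(x ^ 4 * G) := by
  apply mul_left_cancel₀ hZ
  linear_combination x ^ 2 * (hA - hA') -
    (x * y + 1) * ((x - y) * (x ^ 2 + 1 + y ^ 2)) * G' * hxy

/-- the common factor -/
def W {R : Type*} [CommRing R] (x y : R) : R :=
  (x - y) ^ 2 * (x + y) * (x ^ 4 + x ^ 2 + 1 + y ^ 2 + y ^ 4)

theorem ident {R : Type*} [CommRing R] (x y : R) (hxy : x * y = 1) :
    x ^ 5 * ((x ^ 2 + 1 + y ^ 2 - x ^ 8 * (x ^ 6 + 1 + y ^ 6) - x ^ 5 * W x y) +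
      x ^ 4 * (x ^ 2 + 1 + y ^ 2 - y ^ 8 * (x ^ 6 + 1 + y ^ 6) - y ^ 5 * W x y)) =
    -(W x y * (x ^ 2 * (1 + x ^ 6) * (1 + x ^ 2 + x ^ 4))) := by
  unfold W
  linear_combination (-x^17 - x^16*y - x^15*y^4 + x^15*y^2 - 2*x^15 - x^14*y^7 + x^14*y^5 + x^14*y - x^13*y^4 -
      x^13 - x^12*y^7 - x^12*y^5 - 2*x^12*y^3 - 2*x^12*y - x^11*y^8 - x^11*y^4 - 4*x^11 +
      x^10*y^9 - x^10*y^7 + x^10*y^5 - x^10*y + x^9*y^10 + 2*x^9*y^8 + x^9*y^2 - 4*x^9 -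
      x^8*y^13 - x^8*y^11 - x^8*y^5 - x^7*y^12 - x^7*y^10 + x^7*y^6 - x^7*y^4 + 2*x^7*y^2 -
      3*x^7 - x^6*y^11 - x^6*y^9 - x^6*y^3 - x^5*y^10 - x^5*y^8 + x^5*y^6 + x^5*y^2 - 2*x^5 -
      x^4*y^9 - x^4*y^7 + x^4*y - x^3*y^8 + x^3*y^2 - x^2*y^7 - x^2*y^5 - x^2*y^3) * hxy

theorem step2 {R : Type*} [CommRing R] [IsDomain R] (x y D G G' H H' : R) (hxy : x * y = 1)
    (hW : W x y ≠ 0) (hG : G' = -(x ^ 4 * G))
    (hB : (x ^ 2 + 1 + y ^ 2) * (D - 1) =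
      (x ^ 2 + 1 + y ^ 2 - x ^ 8 * (x ^ 6 + 1 + y ^ 6) - x ^ 5 * W x y) * G + x ^ 5 * W x y * H)
    (hB' : (x ^ 2 + 1 + y ^ 2) * (D - 1) =
      (x ^ 2 + 1 + y ^ 2 - y ^ 8 * (x ^ 6 + 1 + y ^ 6) - y ^ 5 * W x y) * G' +
        y ^ 5 * W x y * H') :
    H' = x ^ 10 * H - x ^ 2 * (1 + x ^ 6) * (1 + x ^ 2 + x ^ 4) * G := by
  apply mul_left_cancel₀ hW
  have hi := ident x y hxy
  generalize W x y = w at *
  linear_combination x ^ 5 * (hB - hB') -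
    (x ^ 4 * y ^ 4 + x ^ 3 * y ^ 3 + x ^ 2 * y ^ 2 + x * y + 1) * w * H' * hxy -
    x ^ 5 * (x ^ 2 + 1 + y ^ 2 - y ^ 8 * (x ^ 6 + 1 + y ^ 6) - y ^ 5 * w) * hG + G * hi

end OPPA

theorem t_OPPA (hE : ESER_Stmt) : OPPA_Stmt := by
  obtain ⟨h0, hadd, hc, -⟩ := hE
  intro t t' D2 D3 J3 J5 J3' J5' hA hB hA' hB'
  have hpn : ∀ n : ℕ, E (n : ℚ) = E 1 ^ n := by
    intro n
    induction n with
    | zero => simpa using h0
    | succ n ih => rw [Nat.cast_succ, hadd, ih, pow_succ]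
  have hmn : ∀ n : ℕ, E (-(n : ℚ)) = E (-1) ^ n := by
    intro n
    induction n with
    | zero => simpa using h0
    | succ n ih =>
      have e1 : (-((n + 1 : ℕ) : ℚ)) = -(n : ℚ) + -1 := by
        push_cast
        ring
      rw [e1, hadd, ih, pow_succ]
  have p (c : ℚ) (n : ℕ) (h : c = n) : E c = E 1 ^ n := by rw [h, hpn]
  have q (c : ℚ) (n : ℕ) (h : c = -(n : ℚ)) : E c = E (-1) ^ n := by rw [h, hmn]
  have hxy : E 1 * E (-1) = 1 := by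
    rw [← hadd, ← h0]
    norm_num
  have hx := hc 1
  have hy := hc (-1)
  have hd : E 1 - E (-1) ≠ 0 := by
    intro h
    have h1 := congrArg (coeff 1) h
    simp [E, coeff_mk] at h1
  have hZ2 : E 1 ^ 2 + 1 + E (-1) ^ 2 ≠ 0 := by
    intro h
    have h1 := congrArg constantCoeff h
    simp only [map_add, map_pow, map_one, hx, hy, map_zero] at h1
    norm_num at h1
  have hs : E 1 + E (-1) ≠ 0 := by
    intro h
    have h1 := congrArg constantCoeff h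
    simp only [map_add, hx, hy, map_zero] at h1
    norm_num at h1
  have hP : E 1 ^ 4 + E 1 ^ 2 + 1 + E (-1) ^ 2 + E (-1) ^ 4 ≠ 0 := by
    intro h
    have h1 := congrArg constantCoeff h
    simp only [map_add, map_pow, map_one, hx, hy, map_zero] at h1
    norm_num at h1
  have hW : OPPA.W (E 1) (E (-1)) ≠ 0 := mul_ne_zero (mul_ne_zero (pow_ne_zero 2 hd) hs) hP
  unfold D2E at hA hA'
  unfold D3E cf1 cf2 at hB hB'
  rw [p (2 * 1) 2 (by norm_num), p 2 2 (by norm_num), q (-2) 2 (by norm_num), map_one, one_mul]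
    at hA
  rw [q (2 * -1) 2 (by norm_num), p 2 2 (by norm_num), q (-2) 2 (by norm_num), map_neg, map_one,
    neg_one_mul, neg_neg] at hA'
  rw [p (8 * 1) 8 (by norm_num), p (5 * 1) 5 (by norm_num), p 2 2 (by norm_num),
    q (-2) 2 (by norm_num), p 6 6 (by norm_num), q (-6) 6 (by norm_num), p 4 4 (by norm_num),
    q (-4) 4 (by norm_num)] at hB
  rw [q (8 * -1) 8 (by norm_num), q (5 * -1) 5 (by norm_num), p 2 2 (by norm_num),
    q (-2) 2 (by norm_num), p 6 6 (by norm_num), q (-6) 6 (by norm_num), p 4 4 (by norm_num),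
    q (-4) 4 (by norm_num)] at hB'
  rw [p 4 4 (by norm_num), p 10 10 (by norm_num), p 2 2 (by norm_num), p 6 6 (by norm_num)]
  have h1 := OPPA.step1 (E 1) (E (-1)) D2 _ _ hxy (mul_ne_zero hd hZ2) hA hA'
  refine ⟨h1, OPPA.step2 (E 1) (E (-1)) D3 _ _ _ _ hxy hW h1 ?_ ?_⟩
  · unfold OPPA.W
    linear_combination hB
  · unfold OPPA.W
    linear_combination hB'

end Pool.Agent.WD
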