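import Pool.Agent.WD.StX

/-!
# Module ORI: a long knot diagram can be oriented from bottom to top
-/

set_option autoImplicit false

namespace Pool.Agent.WD

open Pool.Agent.LibH11 Pool.Agent.LibH11.Sliced Pool.Agent.IT Pool.Agent.TwoBr

namespace ORI

/-- the list of the values of a function -/
def ol (n : ℕ) (f : ℕ → Bool) : List Bool := (List.range n).map f

theorem ol_succ (n : ℕ) (f : ℕ → Bool) : ol (n + 1) f = f 0 :: ol n (fun j => f (j + 1)) := by
  simp [ol, List.range_succ_eq_map, Function.comp_def]

theorem ol_congr {n : ℕ} {f f' : ℕ → Bool} (h : ∀ j, f j = f' j) : ol n f = ol n f' := by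
  have : f = f' := funext h
  rw [this]

theorem os_cup (k : ℕ) : ∀ (n : ℕ) (f f' : ℕ → Bool), k ≤ n → (∀ j < k, f' j = f j) →
    f' (k + 1) = !(f' k) → (∀ j, k ≤ j → f' (j + 2) = f j) →
    OS (.cup, k) (ol n f) (ol (n + 2) f') := by
  induction k with
  | zero =>
    intro n f f' _ _ h2 h3
    rw [ol_succ, ol_succ]
    have e1 : f' (0 + 1) = !(f' 0) := h2
    have e2 : ol n (fun j => f' (j + 1 + 1)) = ol n f := ol_congr fun j => h3 j (Nat.zero_le j)
    rw [e1, e2]
    exact OS.cup _ _
  | succ k ih =>
    intro n f f' hk h1 h2 h3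
    obtain ⟨m, rfl⟩ : ∃ m, n = m + 1 := ⟨n - 1, by omega⟩
    rw [ol_succ, show m + 1 + 2 = m + 2 + 1 by omega, ol_succ, h1 0 (Nat.succ_pos k)]
    refine OS.cons _ (ih m _ _ (by omega) (fun j hj => h1 (j + 1) (by omega)) h2
      (fun j hj => ?_))
    exact h3 (j + 1) (by omega)

theorem os_cap (k : ℕ) : ∀ (n : ℕ) (f f' : ℕ → Bool), k ≤ n → (∀ j < k, f' j = f j) →
    f (k + 1) = !(f k) → (∀ j, k ≤ j → f' j = f (j + 2)) →
    OS (.cap, k) (ol (n + 2) f) (ol n f') := by
  induction k with
  | zero =>
    intro n f f' _ _ h2 h3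
    rw [ol_succ, ol_succ]
    have e1 : f (0 + 1) = !(f 0) := h2
    have e2 : ol n (fun j => f (j + 1 + 1)) = ol n f' :=
      ol_congr fun j => (h3 j (Nat.zero_le j)).symm
    rw [e1, e2]
    exact OS.cap _ _
  | succ k ih =>
    intro n f f' hk h1 h2 h3
    obtain ⟨m, rfl⟩ : ∃ m, n = m + 1 := ⟨n - 1, by omega⟩
    rw [ol_succ m, show m + 1 + 2 = m + 2 + 1 by omega, ol_succ, h1 0 (Nat.succ_pos k)]
    refine OS.cons _ (ih m _ _ (by omega) (fun j hj => h1 (j + 1) (by omega)) h2
      (fun j hj => ?_))
    exact h3 (j + 1) (by omega)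

theorem os_crs (e : Bool) (k : ℕ) : ∀ (n : ℕ) (f f' : ℕ → Bool), k ≤ n →
    (∀ j < k, f' j = f j) → f' k = f (k + 1) → f' (k + 1) = f k →
    (∀ j, k ≤ j → f' (j + 2) = f (j + 2)) →
    OS (.crs e, k) (ol (n + 2) f) (ol (n + 2) f') := by
  induction k with
  | zero =>
    intro n f f' _ _ h2 h3 h4
    rw [ol_succ, ol_succ, ol_succ, ol_succ]
    have e1 : f' 0 = f (0 + 1) := h2
    have e2 : f' (0 + 1) = f 0 := h3
    have e3 : ol n (fun j => f' (j + 1 + 1)) = ol n (fun j => f (j + 1 + 1)) :=
      ol_congr fun j => h4 j (Nat.zero_le j)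
    rw [e1, e2, e3]
    exact OS.crs _ _ _ _
  | succ k ih =>
    intro n f f' hk h1 h2 h3 h4
    obtain ⟨m, rfl⟩ : ∃ m, n = m + 1 := ⟨n - 1, by omega⟩
    rw [show m + 1 + 2 = m + 2 + 1 by omega, ol_succ (m + 2) f, ol_succ (m + 2) f',
      h1 0 (Nat.succ_pos k)]
    refine OS.cons _ (ih m _ _ (by omega) (fun j hj => h1 (j + 1) (by omega)) h2 h3
      (fun j hj => ?_))
    exact h4 (j + 1) (by omega)

/-- the two strands that are joined by a maximum get opposite orientations -/
theorem cap_bool (a s t : Bool) :
    xor t (xor a (!(xor s t))) = !(xor s a) := by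
  cases a <;> cases s <;> cases t <;> rfl

theorem cap_bool2 (a s t : Bool) :
    xor t a = !(xor s (xor a (!(xor s t)))) := by
  cases a <;> cases s <;> cases t <;> rfl

theorem xor_swap (a b d : Bool) : xor (xor a d) b = xor a (xor b d) := by
  cases a <;> cases b <;> cases d <;> rfl

/-- the invariant -/
def Inv (u : Diag) (s : State) : Prop :=
  (∀ i < s.1, s.2.1 i < s.2.2) ∧ ∃ (σ : ℕ → Bool) (m0 : ℕ), m0 < s.2.2 ∧
    ∀ g : ℕ → Bool, g m0 = false →
      OD u [true] (ol s.1 fun i => xor (σ i) (g (s.2.1 i)))

theorem inv_cup {u : Diag} {n c k : ℕ} {lab : ℕ → ℕ} (h : Inv u (n, lab, c)) (hk : k ≤ n) :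
    Inv (u ++ [(.cup, k)]) (n + 2, fun j => if j < k then lab j else if j < k + 2 then c
      else lab (j - 2), c + 1) := by
  obtain ⟨h1, σ, m0, h2, h3⟩ := h
  refine ⟨?_, fun j => if j < k then σ j else if j < k + 1 then true else if j < k + 2 then false
    else σ (j - 2), m0, Nat.lt_succ_of_lt h2, fun g hg => (h3 g hg).snoc (os_cup k n _ _ hk
      ?_ ?_ ?_)⟩
  · intro i hi
    simp only at hi ⊢
    split_ifs with a b
    · exact Nat.lt_succ_of_lt (h1 i (by simp only; omega))
    · exact Nat.lt_succ_self c
    · exact Nat.lt_succ_of_lt (h1 (i - 2) (by simp only; omega))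
  · intro j hj
    simp only [if_pos hj]
  · simp only [if_neg (show ¬ k + 1 < k by omega), if_neg (show ¬ k + 1 < k + 1 by omega),
      if_pos (show k + 1 < k + 2 by omega), if_neg (show ¬ k < k by omega),
      if_pos (show k < k + 1 by omega), if_pos (show k < k + 2 by omega)]
    cases g c <;> rfl
  · intro j hj
    simp only [if_neg (show ¬ j + 2 < k by omega), if_neg (show ¬ j + 2 < k + 1 by omega),
      if_neg (show ¬ j + 2 < k + 2 by omega), Nat.add_sub_cancel]

theorem inv_crs {u : Diag} {n c k : ℕ} {lab : ℕ → ℕ} (e : Bool) (h : Inv u (n, lab, c))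
    (hk : k + 2 ≤ n) :
    Inv (u ++ [(.crs e, k)]) (n, fun j => lab (Equiv.swap k (k + 1) j), c) := by
  obtain ⟨h1, σ, m0, h2, h3⟩ := h
  obtain ⟨m, rfl⟩ : ∃ m, n = m + 2 := ⟨n - 2, by omega⟩
  refine ⟨?_, fun j => σ (Equiv.swap k (k + 1) j), m0, h2, fun g hg => (h3 g hg).snoc
    (os_crs e k m _ _ (by omega) ?_ ?_ ?_ ?_)⟩
  · intro i hi
    simp only at hi ⊢
    refine h1 _ ?_
    simp only
    rcases eq_or_ne i k with rfl | hik
    · rw [Equiv.swap_apply_left]
      omega
    · rcases eq_or_ne i (k + 1) with rfl | hik1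
      · rw [Equiv.swap_apply_right]
        omega
      · rw [Equiv.swap_apply_of_ne_of_ne hik hik1]
        exact hi
  · intro j hj
    simp only [Equiv.swap_apply_of_ne_of_ne (show j ≠ k by omega) (show j ≠ k + 1 by omega)]
  · simp only [Equiv.swap_apply_left]
  · simp only [Equiv.swap_apply_right]
  · intro j hj
    simp only [Equiv.swap_apply_of_ne_of_ne (show j + 2 ≠ k by omega)
      (show j + 2 ≠ k + 1 by omega)]

theorem inv_cap {u : Diag} {n c k : ℕ} {lab : ℕ → ℕ} (h : Inv u (n, lab, c))
    (hk : k + 2 ≤ n) (hAB : lab k ≠ lab (k + 1)) :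
    Inv (u ++ [(.cap, k)]) (n - 2, fun j =>
      if lab (if j < k then j else j + 2) = lab (k + 1) then lab k
      else lab (if j < k then j else j + 2), c) := by
  obtain ⟨h1, σ, m0, h2, h3⟩ := h
  obtain ⟨m, rfl⟩ : ∃ m, n = m + 2 := ⟨n - 2, by omega⟩
  rw [Nat.add_sub_cancel]
  have hlab : ∀ i < m, (fun j =>
      if lab (if j < k then j else j + 2) = lab (k + 1) then lab k
      else lab (if j < k then j else j + 2)) i < c := by
    intro i hi
    have hsi : (if i < k then i else i + 2) < m + 2 := by split_ifs <;> omega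
    simp only
    generalize (if i < k then i else i + 2) = r at hsi
    split_ifs with a
    · exact h1 k (by simp only; omega)
    · exact h1 r hsi
  have hs1 : ∀ j < k, (if j < k then j else j + 2) = j := fun j hj => if_pos hj
  have hs2 : ∀ j, k ≤ j → (if j < k then j else j + 2) = j + 2 := fun j hj =>
    if_neg (by omega)
  by_cases hB : lab (k + 1) = m0
  · -- the label of the right strand is that of the bottom strand
    refine ⟨hlab, fun j => if lab (if j < k then j else j + 2) = lab k then
        xor (σ (if j < k then j else j + 2)) (!(xor (σ k) (σ (k + 1))))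
      else σ (if j < k then j else j + 2), lab k, h1 k (by simp only; omega), fun g' hg' => ?_⟩
    have hg : (Function.update (Function.update g' (lab k)
        (xor (g' (lab k)) (!(xor (σ k) (σ (k + 1)))))) (lab (k + 1)) (g' (lab k))) m0 =
        false := by
      rw [← hB, Function.update_self, hg']
    have hgA : (Function.update (Function.update g' (lab k)
        (xor (g' (lab k)) (!(xor (σ k) (σ (k + 1)))))) (lab (k + 1)) (g' (lab k))) (lab k) =
        xor (g' (lab k)) (!(xor (σ k) (σ (k + 1)))) := by
      rw [Function.update_of_ne hAB, Function.update_self]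
    have hgB : (Function.update (Function.update g' (lab k)
        (xor (g' (lab k)) (!(xor (σ k) (σ (k + 1)))))) (lab (k + 1)) (g' (lab k)))
        (lab (k + 1)) = g' (lab k) := by
      rw [Function.update_self]
    have hgC : ∀ x, x ≠ lab k → x ≠ lab (k + 1) → (Function.update (Function.update g' (lab k)
        (xor (g' (lab k)) (!(xor (σ k) (σ (k + 1)))))) (lab (k + 1)) (g' (lab k))) x =
        g' x := by
      intro x h4 h5
      rw [Function.update_of_ne h5, Function.update_of_ne h4]
    generalize Function.update (Function.update g' (lab k)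
        (xor (g' (lab k)) (!(xor (σ k) (σ (k + 1)))))) (lab (k + 1)) (g' (lab k)) = g
      at hg hgA hgB hgC
    have key : ∀ i, xor (if lab i = lab k then xor (σ i) (!(xor (σ k) (σ (k + 1)))) else σ i)
        (g' (if lab i = lab (k + 1) then lab k else lab i)) = xor (σ i) (g (lab i)) := by
      intro i
      by_cases ha : lab i = lab (k + 1)
      · rw [if_pos ha, if_neg (by rw [ha]; exact hAB.symm), ha, hgB]
      · rw [if_neg ha]
        by_cases hb : lab i = lab k
        · rw [if_pos hb, hb, hgA]
          exact xor_swap _ _ _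
        · rw [if_neg hb, hgC _ hb ha]
    refine (h3 g hg).snoc (os_cap k m _ _ (by omega) ?_ ?_ ?_)
    · intro j hj
      simp only [hs1 j hj]
      exact key j
    · simp only
      rw [hgA, hgB]
      exact cap_bool2 _ _ _
    · intro j hj
      simp only [hs2 j hj]
      exact key (j + 2)
  · refine ⟨hlab, fun j => if lab (if j < k then j else j + 2) = lab (k + 1) then
        xor (σ (if j < k then j else j + 2)) (!(xor (σ k) (σ (k + 1))))
      else σ (if j < k then j else j + 2), m0, h2, fun g' hg' => ?_⟩
    have hg : (Function.update g' (lab (k + 1))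
        (xor (g' (lab k)) (!(xor (σ k) (σ (k + 1)))))) m0 = false := by
      rw [Function.update_of_ne (Ne.symm hB), hg']
    have hgB : (Function.update g' (lab (k + 1))
        (xor (g' (lab k)) (!(xor (σ k) (σ (k + 1)))))) (lab (k + 1)) =
        xor (g' (lab k)) (!(xor (σ k) (σ (k + 1)))) := by
      rw [Function.update_self]
    have hgC : ∀ x, x ≠ lab (k + 1) → (Function.update g' (lab (k + 1))
        (xor (g' (lab k)) (!(xor (σ k) (σ (k + 1)))))) x = g' x := by
      intro x h5
      rw [Function.update_of_ne h5]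
    generalize Function.update g' (lab (k + 1))
        (xor (g' (lab k)) (!(xor (σ k) (σ (k + 1))))) = g at hg hgB hgC
    have key : ∀ i, xor (if lab i = lab (k + 1) then xor (σ i) (!(xor (σ k) (σ (k + 1))))
        else σ i) (g' (if lab i = lab (k + 1) then lab k else lab i)) =
        xor (σ i) (g (lab i)) := by
      intro i
      by_cases ha : lab i = lab (k + 1)
      · rw [if_pos ha, if_pos ha, ha, hgB]
        exact xor_swap _ _ _
      · rw [if_neg ha, if_neg ha, hgC _ ha]
    refine (h3 g hg).snoc (os_cap k m _ _ (by omega) ?_ ?_ ?_)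
    · intro j hj
      simp only [hs1 j hj]
      exact key j
    · simp only
      rw [hgB, hgC _ hAB]
      exact cap_bool _ _ _
    · intro j hj
      simp only [hs2 j hj]
      exact key (j + 2)

theorem inv_run (u : Diag) : ∀ s : State, run u start = some s → Inv u s := by
  induction u using List.reverseRecOn with
  | nil =>
    intro s hs
    have e : s = start := by
      simp only [run, Option.some.injEq] at hs
      exact hs.symm
    rw [e]
    refine ⟨fun i _ => Nat.zero_lt_one, fun _ => true, 0, Nat.zero_lt_one, fun g hg => ?_⟩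
    have e1 : ol (start : State).1 (fun i => xor true (g ((start : State).2.1 i))) = [true] := by
      change [xor true (g 0)] = [true]
      rw [hg]
      rfl
    rw [e1]
    exact OD.nil _
  | append_singleton u p ih =>
    intro s hs
    rw [run_append] at hs
    cases hu : run u start with
    | none =>
      rw [hu] at hs
      cases hs
    | some t =>
      rw [hu] at hs
      have h0 := ih t hu
      obtain ⟨n, lab, c⟩ := t
      obtain ⟨κ, k⟩ := p
      simp only [Option.bind_some, run] at hs
      have hs' : step (κ, k) (n, lab, c) = some s := by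
        cases h9 : step (κ, k) (n, lab, c) with
        | none =>
          rw [h9] at hs
          cases hs
        | some r =>
          rw [h9] at hs
          exact hs
      cases κ with
      | cup =>
        simp only [step] at hs'
        split_ifs at hs' with hk
        cases hs'
        exact inv_cup h0 hk
      | cap =>
        simp only [step] at hs'
        split_ifs at hs' with hk
        cases hs'
        exact inv_cap h0 hk.1 hk.2
      | crs e =>
        simp only [step] at hs'
        split_ifs at hs' with hk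
        cases hs'
        exact inv_crs e h0 hk

theorem os_bal {p : Kind × ℕ} {o o' : List Bool} (h : OS p o o') :
    ups o + dns o' = ups o' + dns o := by
  induction h with
  | cup x b => cases x <;> simp <;> omega
  | cap x b => cases x <;> simp <;> omega
  | crs e x y b => cases x <;> cases y <;> simp
  | cons x _ ih => cases x <;> simp <;> omega

theorem od_bal {u : Diag} {o o' : List Bool} (h : OD u o o') :
    ups o + dns o' = ups o' + dns o := by
  induction h with
  | nil o => rfl
  | cons h _ ih =>
    have := os_bal h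
    omega

end ORI

open ORI in
theorem t_ORI : ORI_Stmt := by
  rintro D ⟨lab, c, hD⟩
  obtain ⟨-, σ, m0, -, h⟩ := inv_run D _ hD
  have h1 := h (fun _ => false) rfl
  obtain ⟨x, hx⟩ : ∃ x, ol 1 (fun i => xor (σ i) false) = [x] := ⟨_, rfl⟩
  have h2 : OD D [true] [x] := by
    rw [← hx]
    exact h1
  have h3 := od_bal h2
  cases x
  · simp at h3
  · exact h2

end Pool.Agent.WD
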