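import Pool.Agent.WD.StQ

/-!
# PAR: the parity of a knot
-/

namespace Pool.Agent.WD

open Pool.Agent.LibH11 Pool.Agent.IT

namespace PARx

theorem sign_gen (n : ℕ) (x : ℕ × Bool) (h : x.1 < n) :
    Equiv.Perm.sign (perm (gen n x)) = -1 := by
  have hne : (⟨x.1, h⟩ : Fin n).castSucc ≠ (⟨x.1, h⟩ : Fin n).succ := by
    intro h1
    have h2 := congrArg Fin.val h1
    simp at h2
  have h0 : Equiv.Perm.sign (perm (LibH11.sg (⟨x.1, h⟩ : Fin n))) = -1 := by
    have h1 : perm (LibH11.sg (⟨x.1, h⟩ : Fin n)) =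
        Equiv.swap (⟨x.1, h⟩ : Fin n).castSucc (⟨x.1, h⟩ : Fin n).succ := by
      unfold perm
      rw [liftBr_sg]
    rw [h1, Equiv.Perm.sign_swap hne]
  unfold gen
  rw [dif_pos h]
  by_cases hb : x.2 = true
  · rw [if_pos hb, h0]
  · rw [if_neg hb, map_inv, Equiv.Perm.sign_inv, h0]

theorem sign_ev (n : ℕ) : ∀ w : Word, Bd n w →
    Equiv.Perm.sign (perm (ev n w)) = (-1) ^ w.length
  | [], _ => by
    unfold ev
    simp
  | x :: w, h => by
    have h1 := sign_ev n w fun y hy => h y (List.mem_cons_of_mem _ hy)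
    have h2 := sign_gen n x (h x List.mem_cons_self)
    unfold ev at h1 ⊢
    rw [List.map_cons, List.prod_cons, map_mul, Equiv.Perm.sign_mul, h1, h2, List.length_cons,
      pow_succ]
    exact mul_comm _ _

end PARx

open PARx

theorem t_PAR : PAR_Stmt := by
  intro n w hw hk
  rcases Nat.eq_zero_or_pos n with rfl | hn
  · have h1 : w = [] := by
      match w, hw with
      | [], _ => rfl
      | x :: w, hw => exact absurd (hw x List.mem_cons_self) (Nat.not_lt_zero _)
    subst h1
    exact ⟨0, rfl⟩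
  · set σ := perm (ev n w) with hσ
    have hmv : ∀ y : Fin (n + 1), σ y ≠ y := by
      intro y hy
      have hz : ∀ z, z = y := by
        intro z
        obtain ⟨i, hi⟩ := hk y z
        rw [← hi]
        exact Equiv.Perm.zpow_apply_eq_self_of_apply_eq_self hy i
      have h0 := hz ⟨0, by omega⟩
      have h1 := hz ⟨1, by omega⟩
      have h2 := h0.trans h1.symm
      have h3 := congrArg Fin.val h2
      simp at h3
    have hc : σ.IsCycle := ⟨⟨0, by omega⟩, hmv _, fun y _ => hk _ y⟩
    have hs : σ.support = Finset.univ := by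
      ext y
      simp only [Equiv.Perm.mem_support, Finset.mem_univ, iff_true]
      exact hmv y
    have h1 := hc.sign
    rw [hs, Finset.card_univ, Fintype.card_fin, hσ, sign_ev n w hw, pow_succ, mul_neg_one,
      neg_neg] at h1
    have h2 : (-1 : ℤˣ) ^ (n + w.length) = 1 := by
      rw [pow_add, h1, ← pow_add, ← two_mul, pow_mul]
      simp
    exact (neg_one_pow_eq_one_iff_even (by decide)).1 h2

end Pool.Agent.WD
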