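import Pool.Agent.WD.StX

/-!
# PAS: one more downward strand passes over (under) the upward strands
-/

set_option autoImplicit false

namespace Pool.Agent.WD

open Pool.Agent.LibH11 Pool.Agent.LibH11.Sliced Pool.Agent.IT Pool.Agent.TwoBr

namespace PAS

/-- one letter and the rest -/
theorem comb {c : Bool} {a b a1 b1 a' b' : ℕ} {p : Kind × ℕ} {p' v v1 : Diag}
    (hp : cnt (a + b + 1) (sh 1 [p]) = some (a1 + b1 + 1))
    (hE : EqD (a + b + 1) (sh 1 [p] ++ xs c a1) (xs c a ++ p'))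
    (hv : SW a1 (b1 + 1) a' (b' + 1) v1)
    (ih : EqD (a1 + b1 + 1) (sh 1 v ++ xs c a') (xs c a1 ++ v1)) :
    EqD (a + b + 1) (sh 1 (p :: v) ++ xs c a') (xs c a ++ (p' ++ v1)) := by
  have s1 := ih.left (sh 1 [p]) hp
  have hc : cnt (a + b + 1) (sh 1 [p] ++ xs c a1 ++ v1) ≠ none := by
    rw [List.append_assoc, cnt_app hp, cnt_app (NAT.cnt_xs c a1 (a1 + b1 + 1) (by omega)),
      show a1 + b1 + 1 = a1 + (b1 + 1) by omega, hv.cnt]
    simp
  have s2 := hE.right v1 hc
  have e1 : sh 1 (p :: v) ++ xs c a' = sh 1 [p] ++ (sh 1 v ++ xs c a') := by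
    simp
  have e2 : xs c a ++ (p' ++ v1) = xs c a ++ p' ++ v1 := by
    rw [List.append_assoc]
  rw [e1, e2]
  rw [List.append_assoc] at s2
  exact s1.trans s2

theorem up (c e : Bool) (a b j : ℕ) (hj : j + 1 < a) :
    EqD (a + b + 1) (sh 1 [(.crs e, j)] ++ xs c a) (xs c a ++ [(.crs e, j)]) := by
  have h := ((t_NAT c [(.crs e, j)] a a (cnt_crs (by omega))).symm).widen b
  rw [show a + b + 1 = a + 1 + b by omega]
  exact h

theorem dn (c e : Bool) (a b j : ℕ) (hj : j + 1 < b) :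
    EqD (a + b + 1) (sh 1 [(.crs e, a + j)] ++ xs c a) (xs c a ++ [(.crs e, a + (j + 1))]) := by
  have h := (far_words (xs c a) [(.crs e, j)] (a + 1) (a + 1) b (NAT.cnt_xs c a _ le_rfl)
    (by rw [cnt_crs (by omega)]; simp)).symm
  rw [show a + b + 1 = a + 1 + b by omega]
  simp only [sh_cons, sh_nil] at h ⊢
  rw [show a + j + 1 = j + (a + 1) by omega, show a + (j + 1) = j + (a + 1) by omega]
  exact h

theorem cup (c : Bool) (a b : ℕ) :
    EqD (a + b + 1) (sh 1 [(.cup, a)] ++ xs c (a + 1)) (xs c a ++ [(.cup, a), (.crs (!c), a + 1)]) := by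
  have h := (far_words (xs c a) [(.cup, 0)] (a + 1) (a + 1) b (NAT.cnt_xs c a _ le_rfl)
    (by rw [cnt_cup (by omega)]; simp)).symm
  rw [show a + b + 1 = a + 1 + b by omega, NAT.xs_succ, ← List.append_assoc]
  simp only [sh_cons, sh_nil, Nat.zero_add] at h ⊢
  have hcx : cnt (a + 1 + b) (xs c a) = some (a + 1 + b) := NAT.cnt_xs c a _ (by omega)
  have s1 := h.right [(.crs c, a)] (by
    rw [List.append_assoc, cnt_app (cnt_cup (by omega)), cnt_app (NAT.cnt_xs c a _ (by omega)),
      cnt_crs (by omega)]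
    simp)
  have hm := Move.slideCup a (!c)
  rw [Bool.not_not] at hm
  have s2 := (EqD.move (N := a + 1 + b) hm (by
      rw [← List.singleton_append, cnt_app (cnt_cup (by omega)), cnt_crs (by omega)]
      simp) (by
      rw [← List.singleton_append, cnt_app (cnt_cup (by omega)), cnt_crs (by omega)]
      simp)).symm.left (xs c a) hcx
  refine s1.trans ?_
  rw [List.append_assoc]
  exact s2

theorem cap (c : Bool) (a b : ℕ) :
    EqD (a + 1 + (b + 1) + 1) (sh 1 [(.cap, a)] ++ xs c a)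
      (xs c (a + 1) ++ [(.crs c, a + 1), (.cap, a)]) := by
  have h := (far_words (xs c a) [(.cap, 0)] (a + 1) (a + 1) (b + 2) (NAT.cnt_xs c a _ le_rfl)
    (by rw [cnt_cap (by omega)]; simp)).symm
  rw [show a + 1 + (b + 1) + 1 = a + 1 + (b + 2) by omega, NAT.xs_succ]
  simp only [sh_cons, sh_nil, Nat.zero_add] at h ⊢
  have hcx : cnt (a + 1 + (b + 2)) (xs c a) = some (a + 1 + (b + 2)) := NAT.cnt_xs c a _ (by omega)
  have hcap : cnt (a + 1 + (b + 2)) [(.cap, a + 1)] = some (a + 1 + b) := by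
    rw [show a + 1 + (b + 2) = a + 1 + b + 2 by omega]
    exact cnt_cap (by omega)
  have hcap' : cnt (a + 1 + (b + 2)) [(.cap, a)] = some (a + 1 + b) := by
    rw [show a + 1 + (b + 2) = a + 1 + b + 2 by omega]
    exact cnt_cap (by omega)
  -- a crossing and its inverse
  have r := (EqD.move (N := a + 1 + (b + 2)) (Move.r2 a c) (by
      rw [← List.singleton_append, cnt_app (cnt_crs (by omega)), cnt_crs (by omega)]
      simp) (by simp [Sliced.cnt])).symm
  have r1 := r.right [(.cap, a + 1)] (by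
    rw [List.nil_append, hcap]
    simp)
  have m := (EqD.move (N := a + 1 + (b + 2)) (Move.slideCap a c) (by
      rw [← List.singleton_append, cnt_app (cnt_crs (by omega)), hcap']
      simp) (by
      rw [← List.singleton_append, cnt_app (cnt_crs (by omega)), hcap]
      simp)).symm
  have m1 := m.left [(.crs c, a)] (cnt_crs (by omega))
  have s2 : EqD (a + 1 + (b + 2)) [(.cap, a + 1)] ([(.crs c, a)] ++ [(.crs c, a + 1), (.cap, a)]) :=
    r1.trans m1
  have s3 := s2.left (xs c a) hcx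
  refine h.trans ?_
  rw [List.append_assoc]
  exact s3

end PAS

open PAS in
theorem t_PAS : PAS_Stmt := by
  intro c a b a' b' v h
  induction h with
  | nil a b =>
    refine ⟨[], SW.nil _ _, ?_⟩
    simp only [sh_nil, List.nil_append, List.append_nil]
    exact EqD.refl _
  | @up a b a' b' v e j hj _ ih =>
    obtain ⟨v1, h1, h2⟩ := ih
    refine ⟨[(.crs e, j)] ++ v1, SW.up e j hj h1, ?_⟩
    exact comb (cnt_crs (by omega)) (PAS.up c e a b j hj) h1 h2
  | @dn a b a' b' v e j hj _ ih =>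
    obtain ⟨v1, h1, h2⟩ := ih
    refine ⟨[(.crs e, a + (j + 1))] ++ v1, SW.dn e (j + 1) (by omega) h1, ?_⟩
    exact comb (cnt_crs (by omega)) (PAS.dn c e a b j hj) h1 h2
  | @cup a b a' b' v _ ih =>
    obtain ⟨v1, h1, h2⟩ := ih
    refine ⟨[(.cup, a), (.crs (!c), a + 1)] ++ v1,
      SW.cup (SW.dn (a := a + 1) (!c) 0 (by omega) h1), ?_⟩
    refine comb (b := b) ?_ (PAS.cup c a b) h1 h2
    simp only [sh_cons, sh_nil]
    rw [cnt_cup (by omega)]
    exact congrArg some (by omega)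
  | @cap a b a' b' v _ ih =>
    obtain ⟨v1, h1, h2⟩ := ih
    refine ⟨[(.crs c, a + 1), (.cap, a)] ++ v1,
      SW.dn (a := a + 1) c 0 (by omega) (SW.cap h1), ?_⟩
    refine comb (b := b + 1) ?_ (PAS.cap c a b) h1 h2
    simp only [sh_cons, sh_nil]
    rw [show a + 1 + (b + 1) + 1 = a + b + 1 + 2 by omega]
    exact cnt_cap (by omega)

end Pool.Agent.WD
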