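import Pool.Agent.WD.StQ

/-!
# Whitehead doubles of graph knots: partial closures of braids are morphisms (helper39)
-/

namespace Pool.Agent.WD

open Pool.Agent.LibH11 Pool.Agent.IT Pool.Agent.GK Pool.Agent.TwoBr
open scoped BigOperators

namespace PTM

variable {K : Type} [Field K] {s : K} {ι : Type}

/-- powers with a sum as exponent -/
theorem zpow_sum (hs : s ≠ 0) {α : Type} (t : Finset α) (f : α → ℤ) :
    s ^ (∑ i ∈ t, f i) = ∏ i ∈ t, s ^ f i := by
  classical
  induction t using Finset.induction_on with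
  | empty => simp
  | insert a t ha ih => rw [Finset.sum_insert ha, Finset.prod_insert ha, zpow_add₀ hs, ih]

theorem cons_zero_iff {n : ℕ} (a b : ι) (x y : Fin n → ι) :
    (∀ l : Fin (n + 1), l ≠ 0 → (Fin.cons a x : Fin (n + 1) → ι) l =
      (Fin.cons b y : Fin (n + 1) → ι) l) ↔ x = y := by
  constructor
  · intro h
    funext j
    have h1 := h j.succ (Fin.succ_ne_zero j)
    simpa only [Fin.cons_succ] using h1
  · rintro rfl l hl
    obtain ⟨j, rfl⟩ := Fin.exists_succ_eq.2 hl
    simp only [Fin.cons_succ]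

theorem cons_succ_iff {n : ℕ} (a b : ι) (x y : Fin n → ι) (j : Fin n) :
    (∀ l : Fin (n + 1), l ≠ j.succ → (Fin.cons a x : Fin (n + 1) → ι) l =
      (Fin.cons b y : Fin (n + 1) → ι) l) ↔ a = b ∧ ∀ l, l ≠ j → x l = y l := by
  constructor
  · intro h
    refine ⟨?_, fun l hl => ?_⟩
    · have h1 := h 0 (Fin.succ_ne_zero j).symm
      simpa only [Fin.cons_zero] using h1
    · have h1 := h l.succ (fun h2 => hl (Fin.succ_injective n h2))
      simpa only [Fin.cons_succ] using h1
  · rintro ⟨rfl, h⟩ l hl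
    refine Fin.cases (fun _ => ?_) (fun i hi => ?_) l hl
    · simp only [Fin.cons_zero]
    · simp only [Fin.cons_succ]
      exact h i (fun h2 => hi (by rw [h2]))

theorem sum_gt_zero {n : ℕ} (f : Fin (n + 1) → ℤ) :
    ∑ l ∈ Finset.univ.filter (fun l : Fin (n + 1) => 0 < l), f l = ∑ i : Fin n, f i.succ := by
  rw [Finset.sum_filter, Fin.sum_univ_succ, if_neg (lt_irrefl _), zero_add]
  exact Finset.sum_congr rfl fun i _ => if_pos (Fin.succ_pos i)

theorem sum_gt_succ {n : ℕ} (f : Fin (n + 1) → ℤ) (j : Fin n) :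
    ∑ l ∈ Finset.univ.filter (fun l : Fin (n + 1) => j.succ < l), f l =
      ∑ i ∈ Finset.univ.filter (fun i : Fin n => j < i), f i.succ := by
  rw [Finset.sum_filter, Fin.sum_univ_succ, Finset.sum_filter,
    if_neg (not_lt.2 (Fin.zero_le _)), zero_add]
  exact Finset.sum_congr rfl fun i _ => by simp only [Fin.succ_lt_succ_iff]

theorem sum_lt_zero {n : ℕ} (f : Fin (n + 1) → ℤ) :
    ∑ l ∈ Finset.univ.filter (fun l : Fin (n + 1) => l < 0), f l = 0 := by
  rw [Finset.sum_filter]
  exact Finset.sum_eq_zero fun i _ => if_neg (not_lt.2 (Fin.zero_le _))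

theorem sum_lt_succ {n : ℕ} (f : Fin (n + 1) → ℤ) (j : Fin n) :
    ∑ l ∈ Finset.univ.filter (fun l : Fin (n + 1) => l < j.succ), f l =
      f 0 + ∑ i ∈ Finset.univ.filter (fun i : Fin n => i < j), f i.succ := by
  rw [Finset.sum_filter, Fin.sum_univ_succ, Finset.sum_filter, if_pos (Fin.succ_pos j)]
  congr 1
  exact Finset.sum_congr rfl fun i _ => by simp only [Fin.succ_lt_succ_iff]

section

variable [DecidableEq ι] (M : WM K ι) (n : ℕ)

theorem wt_cons (a : ι) (x : Fin n → ι) :
    (fpow s M (n + 1)).wt (Fin.cons a x : Fin (n + 1) → ι) = (tens s M (fpow s M n)).wt (a, x) := by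
  simp only [fpow, tens]
  rw [Fin.sum_univ_succ]
  simp only [Fin.cons_zero, Fin.cons_succ]

theorem E_cons (a b : ι) (x y : Fin n → ι) :
    (fpow s M (n + 1)).E (Fin.cons a x : Fin (n + 1) → ι) (Fin.cons b y : Fin (n + 1) → ι) =
      (tens s M (fpow s M n)).E (a, x) (b, y) := by
  simp only [fpow, tens]
  rw [Fin.sum_univ_succ]
  congr 1
  · simp only [cons_zero_iff, sum_gt_zero, Fin.cons_zero, Fin.cons_succ]
  · simp only [cons_succ_iff, sum_gt_succ, Fin.cons_succ]
    by_cases h : a = b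
    · simp only [h, true_and, if_true]
    · simp only [h, false_and, if_false, Finset.sum_const_zero]

theorem F_cons (hs : s ≠ 0) (a b : ι) (x y : Fin n → ι) :
    (fpow s M (n + 1)).F (Fin.cons a x : Fin (n + 1) → ι) (Fin.cons b y : Fin (n + 1) → ι) =
      (tens s M (fpow s M n)).F (a, x) (b, y) := by
  simp only [fpow, tens]
  rw [Fin.sum_univ_succ]
  congr 1
  · simp only [cons_zero_iff, sum_lt_zero, Fin.cons_zero, mul_zero, neg_zero, zpow_zero, one_mul]
  · simp only [cons_succ_iff, sum_lt_succ, Fin.cons_succ, Fin.cons_zero]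
    by_cases h : a = b
    · simp only [h, true_and, if_true]
      rw [Finset.mul_sum]
      refine Finset.sum_congr rfl fun j _ => ?_
      rw [mul_ite, mul_zero]
      congr 1
      rw [mul_add, neg_add, zpow_add₀ hs, mul_assoc]
    · simp only [h, false_and, if_false, Finset.sum_const_zero]

end

end PTM

open PTM in
theorem t_PTM (h1 : MOP_Stmt) (_ : TENSOK_Stmt) (h3 : FPOWOK_Stmt) (h4 : PTR_Stmt) :
    PTM_Stmt := by
  intro K _ s hs ι _ _ M hM n w
  have hX := h1 K s hs ι M hM n w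
  let e : ι × (Fin n → ι) ≃ (Fin (n + 1) → ι) := Fin.consEquiv (fun _ => ι)
  have he : ∀ z : ι × (Fin n → ι), e z = (Fin.cons z.1 z.2 : Fin (n + 1) → ι) := fun z => rfl
  have hE : (tens s M (fpow s M n)).E = ((fpow s M (n + 1)).E).submatrix e e := by
    ext ⟨a, x⟩ ⟨b, y⟩
    exact (E_cons M n a b x y).symm
  have hF : (tens s M (fpow s M n)).F = ((fpow s M (n + 1)).F).submatrix e e := by
    ext ⟨a, x⟩ ⟨b, y⟩
    exact (F_cons M n hs.1 a b x y).symm
  have hm : Mor (tens s M (fpow s M n)) (tens s M (fpow s M n))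
      ((op (RD s M) n w).submatrix e e) := by
    refine ⟨?_, ?_, ?_⟩
    · rintro ⟨a, x⟩ ⟨b, y⟩ h
      rw [← wt_cons, ← wt_cons]
      exact hX.wt _ _ h
    · rw [hE, Matrix.submatrix_mul_equiv, Matrix.submatrix_mul_equiv, hX.E]
    · rw [hF, Matrix.submatrix_mul_equiv, Matrix.submatrix_mul_equiv, hX.F]
  have h5 := h4 K s hs ι (Fin n → ι) M (fpow s M n) hM (h3 K s hs ι M hM n) _ hm
  have h6 : ptr (RD s M) n w = fun a c => ∑ b, ((op (RD s M) n w).submatrix e e) (a, b) (c, b) *
      s ^ (2 * (fpow s M n).wt b) := by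
    funext a c
    unfold ptr
    refine Finset.sum_congr rfl fun b _ => ?_
    congr 1
    have h7 : (2 : ℤ) * (fpow s M n).wt b = ∑ i, 2 * M.wt (b i) := by
      simp only [fpow]
      rw [Finset.mul_sum]
    rw [h7, zpow_sum hs.1]
    rfl
  rw [h6]
  exact h5

end Pool.Agent.WD
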