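import Pool.Agent.WD.StQ

/-!
# QBI: quantum binomial coefficients are integral
-/

namespace Pool.Agent.WD

open Pool.Agent.LibH11 Pool.Agent.IT
open LaurentPolynomial
open PowerSeries

namespace QBIx

theorem pascal (hq : QNUM_Stmt) (hs : Gen sQ) (a b : ℕ) :
    qfac sQ (a + 1 + (b + 1)) / (qfac sQ (a + 1) * qfac sQ (b + 1)) =
      sQ ^ (2 * ((b : ℤ) + 1)) * (qfac sQ (a + (b + 1)) / (qfac sQ a * qfac sQ (b + 1))) +
      sQ ^ (-(2 * ((a : ℤ) + 1))) * (qfac sQ (a + 1 + b) / (qfac sQ (a + 1) * qfac sQ b)) := by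
  obtain ⟨-, hn, -, -, -, -, hadd⟩ := hq KQ sQ hs
  have hsucc : ∀ n : ℕ, qfac sQ (n + 1) = qfac sQ n * qn sQ ((n : ℤ) + 1) := by
    intro n
    rw [qfac, Finset.prod_range_succ, ← qfac]
  have hne : ∀ n : ℕ, qfac sQ n ≠ 0 := by
    intro n
    rw [qfac, Finset.prod_ne_zero_iff]
    intro i _
    apply hn
    omega
  have h1 : qfac sQ (a + 1 + (b + 1)) = qfac sQ (a + (b + 1)) *
      (qn sQ ((a : ℤ) + 1) * sQ ^ (2 * ((b : ℤ) + 1)) +
        sQ ^ (-(2 * ((a : ℤ) + 1))) * qn sQ ((b : ℤ) + 1)) := by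
    rw [show a + 1 + (b + 1) = (a + (b + 1)) + 1 by ring, hsucc, ← hadd]
    congr 2
    push_cast
    ring
  have h2 : qfac sQ (a + 1 + b) = qfac sQ (a + (b + 1)) := by
    congr 1
    ring
  have ha := hne a
  have hb := hne b
  have ha1 : qn sQ ((a : ℤ) + 1) ≠ 0 := hn _ (by omega)
  have hb1 : qn sQ ((b : ℤ) + 1) ≠ 0 := hn _ (by omega)
  rw [h1, h2, hsucc a, hsucc b]
  generalize sQ ^ (2 * ((b : ℤ) + 1)) = x
  generalize sQ ^ (-(2 * ((a : ℤ) + 1))) = y
  generalize qfac sQ (a + (b + 1)) = z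
  field_simp

end QBIx

open QBIx

theorem t_QBI (hq : QNUM_Stmt) (he : ESER_Stmt) : QBI_Stmt := by
  intro φ hφ
  obtain ⟨-, -, -, hz, hs, -⟩ := he
  obtain ⟨-, hn, -, -, -, -, -⟩ := hq KQ sQ hs
  have hne : ∀ n : ℕ, qfac sQ n ≠ 0 := by
    intro n
    rw [qfac, Finset.prod_ne_zero_iff]
    intro i _
    apply hn
    omega
  have h0 : qfac sQ 0 = 1 := by
    rw [qfac, Finset.prod_range_zero]
  have hT : ∀ k : ℤ, toK (φ (T k)) = sQ ^ k := by
    intro k
    rw [hz k, hφ k]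
  have main : ∀ n a b : ℕ, a + b = n →
      ∃ z : ℤ[T;T⁻¹], toK (φ z) = qfac sQ (a + b) / (qfac sQ a * qfac sQ b) := by
    intro n
    induction n with
    | zero =>
      intro a b hab
      obtain ⟨rfl, rfl⟩ : a = 0 ∧ b = 0 := by omega
      refine ⟨1, ?_⟩
      rw [map_one, map_one, h0]
      simp [h0]
    | succ n ih =>
      intro a b hab
      match a, b, hab with
      | 0, b, _ =>
        refine ⟨1, ?_⟩
        rw [map_one, map_one, h0, zero_add, one_mul, div_self (hne b)]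
      | a + 1, 0, _ =>
        refine ⟨1, ?_⟩
        rw [map_one, map_one, h0, add_zero, mul_one, div_self (hne _)]
      | a + 1, b + 1, hab =>
        obtain ⟨z1, hz1⟩ := ih a (b + 1) (by omega)
        obtain ⟨z2, hz2⟩ := ih (a + 1) b (by omega)
        refine ⟨T (2 * ((b : ℤ) + 1)) * z1 + T (-(2 * ((a : ℤ) + 1))) * z2, ?_⟩
        rw [map_add, map_add, map_mul, map_mul, map_mul, map_mul, hz1, hz2, hT, hT,
          pascal hq hs a b]
  intro a b
  exact main (a + b) a b rfl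

end Pool.Agent.WD
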