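import Pool.Agent.WD.StA

/-!
# Project WD, module QCAB: the property is inherited by cables (helper68)
-/

namespace Pool.Agent.WD

open Pool.Agent.LibH11 Pool.Agent.IT Pool.Agent.GK
open scoped BigOperators
open PowerSeries

namespace QCABx

lemma sq_cast {q : ℤ} {m : ℤ} (h : |q| = m) : ((q : ℚ)) ^ 2 = (m : ℚ) ^ 2 := by
  have h1 : |(q : ℚ)| = (m : ℚ) := by exact_mod_cast h
  rw [← h1, sq_abs]

lemma four_cast {q : ℤ} {m : ℤ} (h : |q| = m) : ((q : ℚ)) ^ 4 = (m : ℚ) ^ 4 := by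
  have h1 := sq_cast h
  calc (q : ℚ) ^ 4 = ((q : ℚ) ^ 2) ^ 2 := by ring
    _ = ((m : ℚ) ^ 2) ^ 2 := by rw [h1]
    _ = _ := by ring

/-- a unit -/
lemma unit {p : ℕ} {q : ℤ} (h : |q| = 1) : tA p q = 0 ∧ tB p q = 0 := by
  unfold tA tB
  rw [sq_cast h, four_cast h]
  constructor <;> norm_num

lemma tref1 {q : ℤ} (h : |q| = 3) : tA 2 q = 24 ∧ tB 2 q = 1200 := by
  unfold tA tB
  rw [sq_cast h, four_cast h]
  constructor <;> norm_num

lemma tref2 {q : ℤ} (h : |q| = 2) : tA 3 q = 24 ∧ tB 3 q = 1200 := by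
  unfold tA tB
  rw [sq_cast h, four_cast h]
  constructor <;> norm_num

lemma ab_nonneg (hT : TORF_Stmt) {p : ℕ} {q : ℤ} (hp : 2 ≤ p) (hq : q ≠ 0)
    (hg : Int.gcd p q = 1) : 0 ≤ tA p q ∧ 0 ≤ fAB (tA p q) (tB p q) := by
  have h0 : 1 ≤ |q| := Int.one_le_abs hq
  rcases eq_or_lt_of_le h0 with h1 | h1
  · obtain ⟨e1, e2⟩ := unit (p := p) h1.symm
    rw [e1, e2]
    unfold fAB
    norm_num
  · obtain ⟨h2, h3⟩ := hT p q hp (by omega) hg
    refine ⟨h2.le, ?_⟩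
    rcases h3 with ⟨rfl, h4⟩ | ⟨rfl, h4⟩ | h4
    · obtain ⟨e1, e2⟩ := tref1 h4
      rw [e1, e2]
      unfold fAB
      norm_num
    · obtain ⟨e1, e2⟩ := tref2 h4
      rw [e1, e2]
      unfold fAB
      norm_num
    · exact h4.le

lemma step {A B a b P : ℚ} (hA : 0 < A) (hf : 0 ≤ fAB A B) (ha : 0 ≤ a) (hb : 0 ≤ fAB a b)
    (hP : 2 ≤ P) : 0 < P ^ 2 * A + a ∧ 0 < fAB (P ^ 2 * A + a) (P ^ 4 * B + b) := by
  have e : fAB (P ^ 2 * A + a) (P ^ 4 * B + b) = P ^ 4 * fAB A B +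
      20 * P ^ 2 * (P ^ 2 - 1) * A + 10 * P ^ 2 * A * a + fAB a b := by
    unfold fAB
    ring
  have h1 : 0 < P ^ 2 - 1 := by nlinarith
  have h2 : 0 < P := by linarith
  refine ⟨by positivity, ?_⟩
  rw [e]
  have h3 : 0 < 20 * P ^ 2 * (P ^ 2 - 1) * A := by positivity
  have h4 : 0 ≤ P ^ 4 * fAB A B := by positivity
  have h5 : 0 ≤ 10 * P ^ 2 * A * a := by positivity
  linarith

end QCABx

open QCABx in
theorem t_QCAB (hT : TORF_Stmt) : QCAB_Stmt := by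
  intro M cb hO p q K A B' hp hq hg hK
  rcases Nat.lt_or_ge p 2 with h1 | h2
  · obtain rfl : p = 1 := by omega
    have e1 : tA 1 q = 0 := by unfold tA; norm_num
    have e2 : tB 1 q = 0 := by unfold tB; norm_num
    rw [hO.cab_one, e1, e2]
    simpa using hK
  have hP : (2 : ℚ) ≤ p := by exact_mod_cast h2
  obtain ⟨ha, hb⟩ := ab_nonneg hT h2 hq hg
  rcases hK with ⟨rfl, rfl, rfl⟩ | ⟨-, rfl, rfl⟩ | ⟨hA, hf⟩
  · have h0 : 1 ≤ |q| := Int.one_le_abs hq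
    rw [mul_zero, zero_add, mul_zero, zero_add]
    rcases eq_or_lt_of_le h0 with h3 | h3
    · obtain ⟨e1, e2⟩ := unit (p := p) h3.symm
      left
      refine ⟨hO.cab_unit p q hp ?_, e1, e2⟩
      have := Int.abs_eq_natAbs q
      omega
    · obtain ⟨h4, h5⟩ := hT p q h2 (by omega) hg
      rcases h5 with ⟨rfl, h6⟩ | ⟨rfl, h6⟩ | h6
      · obtain ⟨e1, e2⟩ := tref1 h6
        right; left
        refine ⟨?_, e1, e2⟩
        rcases (abs_eq (by norm_num : (0 : ℤ) ≤ 3)).1 h6 with rfl | rfl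
        · exact Or.inl rfl
        · exact Or.inr rfl
      · obtain ⟨e1, e2⟩ := tref2 h6
        right; left
        refine ⟨?_, e1, e2⟩
        obtain ⟨s1, s2⟩ := hO.cab_swap 3 2 (by norm_num) (by norm_num) (by norm_num)
        rcases (abs_eq (by norm_num : (0 : ℤ) ≤ 2)).1 h6 with rfl | rfl
        · exact Or.inl s1
        · exact Or.inr s2
      · exact Or.inr (Or.inr ⟨h4, h6⟩)
  · right; right
    refine step (by norm_num) ?_ ha hb hP
    unfold fAB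
    norm_num
  · exact Or.inr (Or.inr (step hA hf.le ha hb hP))

end Pool.Agent.WD
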