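import Pool.Agent.WD.StQ

/-!
# Whitehead doubles of graph knots: the first Reidemeister move of the model `MV`

The invariant vector is determined by its entry at `(0, N - 1)`; the braiding maps it to an
invariant vector, and the entry at `(0, N - 1)` of the image is computed directly. The same for the
invariant form.
-/

set_option autoImplicit false

namespace Pool.Agent.WD

open Pool.Agent.LibH11 Pool.Agent.IT Pool.Agent.GK Pool.Agent.TwoBr
open scoped BigOperators

namespace RON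

variable {K : Type} [Field K] (s : K)

/-- the column equation of `E` on the tensor square -/
theorem colE {N : ℕ} (u : Fin N × Fin N → K) (a : Fin N) (b : Fin N) (a' b' : Fin N)
    (ha : (a' : ℕ) = a + 1) (hb : (b' : ℕ) = b + 1) :
    ∑ y, (tens s (V s N) (V s N)).E (a, b) y * u y =
      qn s ((N : ℤ) - (a' : ℕ)) * s ^ (2 * ((N : ℤ) - 1 - 2 * (b : ℕ))) * u (a', b) +
        qn s ((N : ℤ) - (b' : ℕ)) * u (a, b') := by
  have h : ∀ y : Fin N × Fin N, (tens s (V s N) (V s N)).E (a, b) y * u y =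
      (if y = (a', b) then
        qn s ((N : ℤ) - (a' : ℕ)) * s ^ (2 * ((N : ℤ) - 1 - 2 * (b : ℕ))) * u (a', b) else 0) +
      (if y = (a, b') then qn s ((N : ℤ) - (b' : ℕ)) * u (a, b') else 0) := by
    rintro ⟨c, d⟩
    have hac : (a : ℕ) + 1 = c ↔ c = a' := by rw [Fin.ext_iff]; omega
    have hbd : (b : ℕ) + 1 = d ↔ d = b' := by rw [Fin.ext_iff]; omega
    simp only [tens, V, Prod.mk.injEq, hac, hbd]
    rw [add_mul]
    congr 1
    · by_cases h1 : c = a'
      · by_cases h2 : b = d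
        · subst h1 h2
          simp
        · rw [if_neg h2, if_neg (fun h : c = a' ∧ d = b => h2 h.2.symm), zero_mul]
      · rw [if_neg h1, if_neg (fun h : c = a' ∧ d = b => h1 h.1), zero_mul, ite_self, zero_mul]
    · by_cases h1 : a = c
      · by_cases h2 : d = b'
        · subst h1 h2
          simp
        · rw [if_neg h2, if_neg (fun h : c = a ∧ d = b' => h2 h.2), ite_self, zero_mul]
      · rw [if_neg h1, if_neg (fun h : c = a ∧ d = b' => h1 h.1.symm), zero_mul]
  rw [Finset.sum_congr rfl fun y _ => h y, Finset.sum_add_distrib, Finset.sum_ite_eq',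
    Finset.sum_ite_eq', if_pos (Finset.mem_univ _), if_pos (Finset.mem_univ _)]

/-- the row equation of `E` on the tensor square -/
theorem rowE {N : ℕ} (u : Fin N × Fin N → K) (a : Fin N) (b : Fin N) (a' b' : Fin N)
    (ha : (a' : ℕ) = a + 1) (hb : (b' : ℕ) = b + 1) :
    ∑ x, u x * (tens s (V s N) (V s N)).E x (a', b') =
      u (a, b') * (qn s ((N : ℤ) - (a' : ℕ)) * s ^ (2 * ((N : ℤ) - 1 - 2 * (b' : ℕ)))) +
        u (a', b) * qn s ((N : ℤ) - (b' : ℕ)) := by
  have h : ∀ x : Fin N × Fin N, u x * (tens s (V s N) (V s N)).E x (a', b') =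
      (if x = (a, b') then
        u (a, b') * (qn s ((N : ℤ) - (a' : ℕ)) * s ^ (2 * ((N : ℤ) - 1 - 2 * (b' : ℕ)))) else 0) +
      (if x = (a', b) then u (a', b) * qn s ((N : ℤ) - (b' : ℕ)) else 0) := by
    rintro ⟨c, d⟩
    have hac : (c : ℕ) + 1 = a' ↔ c = a := by rw [Fin.ext_iff]; omega
    have hbd : (d : ℕ) + 1 = b' ↔ d = b := by rw [Fin.ext_iff]; omega
    simp only [tens, V, Prod.mk.injEq, hac, hbd]
    rw [mul_add]
    congr 1
    · by_cases h1 : c = a
      · by_cases h2 : d = b'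
        · subst h1 h2
          simp
        · rw [if_neg h2, if_neg (fun h : c = a ∧ d = b' => h2 h.2), mul_zero]
      · rw [if_neg h1, if_neg (fun h : c = a ∧ d = b' => h1 h.1), zero_mul, ite_self, mul_zero]
    · by_cases h1 : c = a'
      · by_cases h2 : d = b
        · subst h1 h2
          simp
        · rw [if_neg h2, if_neg (fun h : c = a' ∧ d = b => h2 h.2), ite_self, mul_zero]
      · rw [if_neg h1, if_neg (fun h : c = a' ∧ d = b => h1 h.1), mul_zero]
  rw [Finset.sum_congr rfl fun y _ => h y, Finset.sum_add_distrib, Finset.sum_ite_eq',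
    Finset.sum_ite_eq', if_pos (Finset.mem_univ _), if_pos (Finset.mem_univ _)]

/-- a vector of weight zero killed by `E` that vanishes at `(0, N - 1)` is zero -/
theorem uniqC (hs : s ≠ 0) (hq : ∀ w : ℤ, w ≠ 0 → qn s w ≠ 0) {N : ℕ} (hN : 1 ≤ N)
    (u : Fin N × Fin N → K) (hw : ∀ x, u x ≠ 0 → (x.1 : ℕ) + x.2 + 1 = N)
    (hE : ∀ x, ∑ y, (tens s (V s N) (V s N)).E x y * u y = 0)
    (h0 : u (⟨0, by omega⟩, ⟨N - 1, by omega⟩) = 0) : ∀ x, u x = 0 := by
  have key : ∀ (i : ℕ) (hi : i < N), u (⟨i, hi⟩, ⟨N - 1 - i, by omega⟩) = 0 := by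
    intro i
    induction i with
    | zero => intro _; exact h0
    | succ i ih =>
      intro hi
      have h := hE (⟨i, by omega⟩, ⟨N - 1 - (i + 1), by omega⟩)
      rw [colE s u ⟨i, by omega⟩ ⟨N - 1 - (i + 1), by omega⟩ ⟨i + 1, hi⟩ ⟨N - 1 - i, by omega⟩ rfl
        (by simp only; omega), ih (by omega), mul_zero, add_zero] at h
      have hne : qn s ((N : ℤ) - ((i + 1 : ℕ) : ℤ)) *
          s ^ (2 * ((N : ℤ) - 1 - 2 * ((N - 1 - (i + 1) : ℕ) : ℤ))) ≠ 0 :=
        mul_ne_zero (hq _ (by omega)) (zpow_ne_zero _ hs)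
      exact (mul_eq_zero.1 h).resolve_left hne
  intro x
  by_contra hx
  have h1 := hw x hx
  apply hx
  have h2 := key x.1 x.1.2
  have h3 : x = (⟨x.1, x.1.2⟩, ⟨N - 1 - x.1, by omega⟩) := by
    ext
    · rfl
    · simp only; omega
  rw [h3]
  exact h2

/-- a row vector of weight zero killed by `E` that vanishes at `(0, N - 1)` is zero -/
theorem uniqR (hq : ∀ w : ℤ, w ≠ 0 → qn s w ≠ 0) {N : ℕ} (hN : 1 ≤ N)
    (u : Fin N × Fin N → K) (hw : ∀ x, u x ≠ 0 → (x.1 : ℕ) + x.2 + 1 = N)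
    (hE : ∀ y, ∑ x, u x * (tens s (V s N) (V s N)).E x y = 0)
    (h0 : u (⟨0, by omega⟩, ⟨N - 1, by omega⟩) = 0) : ∀ x, u x = 0 := by
  have key : ∀ (i : ℕ) (hi : i < N), u (⟨i, hi⟩, ⟨N - 1 - i, by omega⟩) = 0 := by
    intro i
    induction i with
    | zero => intro _; exact h0
    | succ i ih =>
      intro hi
      have h := hE (⟨i + 1, hi⟩, ⟨N - 1 - i, by omega⟩)
      rw [rowE s u ⟨i, by omega⟩ ⟨N - 1 - (i + 1), by omega⟩ ⟨i + 1, hi⟩ ⟨N - 1 - i, by omega⟩ rfl
        (by simp only; omega), ih (by omega), zero_mul, zero_add] at h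
      have hne : qn s ((N : ℤ) - ((N - 1 - i : ℕ) : ℤ)) ≠ 0 := hq _ (by omega)
      exact (mul_eq_zero.1 h).resolve_right hne
  intro x
  by_contra hx
  have h1 := hw x hx
  apply hx
  have h2 := key x.1 x.1.2
  have h3 : x = (⟨x.1, x.1.2⟩, ⟨N - 1 - x.1, by omega⟩) := by
    ext
    · rfl
    · simp only; omega
  rw [h3]
  exact h2

theorem EV1 : (V s 1).E = 0 := by
  ext a b
  simp only [V, Matrix.zero_apply]
  rw [if_neg (by omega)]

theorem wV1 (a : Fin 1) : (V s 1).wt a = 0 := by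
  simp only [V]
  omega

/-- the invariant vectors are proportional -/
theorem propC (hs : s ≠ 0) (hq : ∀ w : ℤ, w ≠ 0 → qn s w ≠ 0) {N : ℕ} (hN : 1 ≤ N)
    (v w : Matrix (Fin N × Fin N) (Fin 1) K) (hv : Mor (V s 1) (tens s (V s N) (V s N)) v)
    (hw : Mor (V s 1) (tens s (V s N) (V s N)) w) (t : K)
    (h0 : w (⟨0, by omega⟩, ⟨N - 1, by omega⟩) 0 = t * v (⟨0, by omega⟩, ⟨N - 1, by omega⟩) 0) :
    w = t • v := by
  have hwt : ∀ (z : Matrix (Fin N × Fin N) (Fin 1) K), Mor (V s 1) (tens s (V s N) (V s N)) z →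
      ∀ x, z x 0 ≠ 0 → (x.1 : ℕ) + x.2 + 1 = N := by
    intro z hz x hx
    have h := hz.wt x 0 hx
    rw [wV1] at h
    simp only [tens, V] at h
    omega
  have hE : ∀ (z : Matrix (Fin N × Fin N) (Fin 1) K), Mor (V s 1) (tens s (V s N) (V s N)) z →
      ∀ x, ∑ y, (tens s (V s N) (V s N)).E x y * z y 0 = 0 := by
    intro z hz x
    have h := congrFun (congrFun hz.E x) 0
    rw [EV1, Matrix.mul_zero, Matrix.mul_apply] at h
    exact h
  have h := uniqC s hs hq hN (fun x => w x 0 - t * v x 0) (by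
    intro x hx
    by_contra hc
    apply hx
    have h1 : w x 0 = 0 := by
      by_contra h; exact hc (hwt w hw x h)
    have h2 : v x 0 = 0 := by
      by_contra h; exact hc (hwt v hv x h)
    rw [h1, h2, mul_zero, sub_zero]) (by
    intro x
    have h1 := hE w hw x
    have h2 := hE v hv x
    have h3 : ∑ y, (tens s (V s N) (V s N)).E x y * (w y 0 - t * v y 0) =
        ∑ y, (tens s (V s N) (V s N)).E x y * w y 0 -
          t * ∑ y, (tens s (V s N) (V s N)).E x y * v y 0 := by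
      rw [Finset.mul_sum, ← Finset.sum_sub_distrib]
      exact Finset.sum_congr rfl fun y _ => by ring
    rw [h3, h1, h2, mul_zero, sub_zero]) (by
    rw [h0, sub_self])
  ext x y
  rw [Subsingleton.elim y 0, Matrix.smul_apply, smul_eq_mul]
  exact sub_eq_zero.1 (h x)

/-- the invariant forms are proportional -/
theorem propR (hq : ∀ w : ℤ, w ≠ 0 → qn s w ≠ 0) {N : ℕ} (hN : 1 ≤ N)
    (v w : Matrix (Fin 1) (Fin N × Fin N) K) (hv : Mor (tens s (V s N) (V s N)) (V s 1) v)
    (hw : Mor (tens s (V s N) (V s N)) (V s 1) w) (t : K)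
    (h0 : w 0 (⟨0, by omega⟩, ⟨N - 1, by omega⟩) = t * v 0 (⟨0, by omega⟩, ⟨N - 1, by omega⟩)) :
    w = t • v := by
  have hwt : ∀ (z : Matrix (Fin 1) (Fin N × Fin N) K), Mor (tens s (V s N) (V s N)) (V s 1) z →
      ∀ x, z 0 x ≠ 0 → (x.1 : ℕ) + x.2 + 1 = N := by
    intro z hz x hx
    have h := hz.wt 0 x hx
    rw [wV1] at h
    simp only [tens, V] at h
    omega
  have hE : ∀ (z : Matrix (Fin 1) (Fin N × Fin N) K), Mor (tens s (V s N) (V s N)) (V s 1) z →
      ∀ y, ∑ x, z 0 x * (tens s (V s N) (V s N)).E x y = 0 := by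
    intro z hz y
    have h := congrFun (congrFun hz.E 0) y
    rw [EV1, Matrix.zero_mul, Matrix.mul_apply] at h
    exact h.symm
  have h := uniqR s hq hN (fun x => w 0 x - t * v 0 x) (by
    intro x hx
    by_contra hc
    apply hx
    have h1 : w 0 x = 0 := by
      by_contra h; exact hc (hwt w hw x h)
    have h2 : v 0 x = 0 := by
      by_contra h; exact hc (hwt v hv x h)
    rw [h1, h2, mul_zero, sub_zero]) (by
    intro y
    have h1 := hE w hw y
    have h2 := hE v hv y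
    have h3 : ∑ x, (w 0 x - t * v 0 x) * (tens s (V s N) (V s N)).E x y =
        ∑ x, w 0 x * (tens s (V s N) (V s N)).E x y -
          t * ∑ x, v 0 x * (tens s (V s N) (V s N)).E x y := by
      rw [Finset.mul_sum, ← Finset.sum_sub_distrib]
      exact Finset.sum_congr rfl fun x _ => by ring
    rw [h3, h1, h2, mul_zero, sub_zero]) (by
    rw [h0, sub_self])
  ext y x
  rw [Subsingleton.elim y 0, Matrix.smul_apply, smul_eq_mul]
  exact sub_eq_zero.1 (h x)

/-- composition of morphisms -/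
theorem morComp {ι κ ν : Type} [Fintype ι] [Fintype κ] [Fintype ν] {L : WM K ι} {M : WM K κ}
    {P : WM K ν} {f : Matrix κ ι K} {g : Matrix ν κ K} (hf : Mor L M f) (hg : Mor M P g) :
    Mor L P (g * f) where
  wt := by
    intro b a h
    rw [Matrix.mul_apply] at h
    obtain ⟨c, -, hc⟩ := Finset.exists_ne_zero_of_sum_ne_zero h
    rw [hg.wt b c (left_ne_zero_of_mul hc), hf.wt c a (right_ne_zero_of_mul hc)]
  E := by rw [← Matrix.mul_assoc, hg.E, Matrix.mul_assoc, hf.E, Matrix.mul_assoc]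
  F := by rw [← Matrix.mul_assoc, hg.F, Matrix.mul_assoc, hf.F, Matrix.mul_assoc]

theorem Fpow {N : ℕ} (hN : 1 ≤ N) (n : ℕ) (b : Fin N) :
    ((V s N).F ^ (n + 1)) ⟨0, by omega⟩ b = 0 := by
  rw [pow_succ', Matrix.mul_apply]
  apply Finset.sum_eq_zero
  intro c _
  simp only [V]
  rw [if_neg (by omega), zero_mul]

theorem Epow {N : ℕ} (hN : 1 ≤ N) (n : ℕ) (a : Fin N) :
    ((V s N).E ^ (n + 1)) a ⟨0, by omega⟩ = 0 := by
  rw [pow_succ, Matrix.mul_apply]
  apply Finset.sum_eq_zero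
  intro c _
  simp only [V]
  rw [if_neg (by omega), mul_zero]

theorem aq0 : aq s 0 = 1 := by
  simp [aq, qfac]

/-- the row `(0, N - 1)` of the braiding -/
theorem Rrow {N : ℕ} (hN : 1 ≤ N) (y : Fin N × Fin N) :
    Rm s (V s N) (V s N) (⟨0, by omega⟩, ⟨N - 1, by omega⟩) y =
      if y = (⟨N - 1, by omega⟩, ⟨0, by omega⟩) then s ^ (-((N : ℤ) - 1) ^ 2) else 0 := by
  simp only [Rm]
  rw [Finset.sum_eq_single 0]
  · rw [aq0, pow_zero, pow_zero, Matrix.one_apply, Matrix.one_apply, one_mul]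
    have hw : (V s N).wt ⟨N - 1, by omega⟩ * (V s N).wt ⟨0, by omega⟩ = -((N : ℤ) - 1) ^ 2 := by
      simp only [V]
      rw [Nat.cast_sub hN]
      push_cast
      ring
    rw [hw]
    obtain ⟨c, d⟩ := y
    simp only [Prod.mk.injEq]
    by_cases h1 : c = ⟨N - 1, by omega⟩
    · by_cases h2 : d = ⟨0, by omega⟩
      · rw [if_pos h1.symm, if_pos h2.symm, if_pos ⟨h1, h2⟩, mul_one, mul_one]
      · rw [if_neg (Ne.symm h2), mul_zero, mul_zero,
          if_neg (fun h : c = (⟨N - 1, by omega⟩ : Fin N) ∧ d = (⟨0, by omega⟩ : Fin N) => h2 h.2)]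
    · rw [if_neg (Ne.symm h1), zero_mul, mul_zero,
        if_neg (fun h : c = (⟨N - 1, by omega⟩ : Fin N) ∧ d = (⟨0, by omega⟩ : Fin N) => h1 h.1)]
  · intro n _ hn
    obtain ⟨m, rfl⟩ := Nat.exists_eq_succ_of_ne_zero hn
    rw [Nat.succ_eq_add_one, Fpow s hN, mul_zero]
  · intro h
    exact absurd (Finset.mem_range.2 (by rw [Fintype.card_fin]; omega)) h

/-- the column `(0, N - 1)` of the braiding -/
theorem Rcol {N : ℕ} (hN : 1 ≤ N) (x : Fin N × Fin N) :
    Rm s (V s N) (V s N) x (⟨0, by omega⟩, ⟨N - 1, by omega⟩) =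
      if x = (⟨N - 1, by omega⟩, ⟨0, by omega⟩) then s ^ (-((N : ℤ) - 1) ^ 2) else 0 := by
  simp only [Rm]
  rw [Finset.sum_eq_single 0]
  · rw [aq0, pow_zero, pow_zero, Matrix.one_apply, Matrix.one_apply, one_mul]
    obtain ⟨c, d⟩ := x
    simp only [Prod.mk.injEq]
    by_cases h1 : c = ⟨N - 1, by omega⟩
    · by_cases h2 : d = ⟨0, by omega⟩
      · subst h1 h2
        have hw : (V s N).wt ⟨0, by omega⟩ * (V s N).wt ⟨N - 1, by omega⟩ =
            -((N : ℤ) - 1) ^ 2 := by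
          simp only [V]
          rw [Nat.cast_sub hN]
          push_cast
          ring
        rw [hw, if_pos rfl, if_pos rfl, if_pos ⟨rfl, rfl⟩, mul_one, mul_one]
      · rw [if_neg h2, zero_mul, mul_zero,
          if_neg (fun h : c = (⟨N - 1, by omega⟩ : Fin N) ∧ d = (⟨0, by omega⟩ : Fin N) => h2 h.2)]
    · rw [if_neg h1, mul_zero, mul_zero,
        if_neg (fun h : c = (⟨N - 1, by omega⟩ : Fin N) ∧ d = (⟨0, by omega⟩ : Fin N) => h1 h.1)]
  · intro n _ hn
    obtain ⟨m, rfl⟩ := Nat.exists_eq_succ_of_ne_zero hn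
    rw [Nat.succ_eq_add_one, Epow s hN, mul_zero, zero_mul]
  · intro h
    exact absurd (Finset.mem_range.2 (by rw [Fintype.card_fin]; omega)) h

/-- the ratio of the two extreme entries of the form -/
theorem ratio (hs : s ≠ 0) (hq : ∀ w : ℤ, w ≠ 0 → qn s w ≠ 0) {N : ℕ} (hN : 1 ≤ N) :
    s ^ (-((N : ℤ) - 1) ^ 2) * vcup s N ⟨N - 1, by omega⟩ ⟨0, by omega⟩ =
      th s N true * vcup s N ⟨0, by omega⟩ ⟨N - 1, by omega⟩ := by
  have hf : ∀ n : ℕ, qfac s n ≠ 0 := by
    intro n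
    unfold qfac
    exact Finset.prod_ne_zero_iff.2 fun i _ => hq _ (by omega)
  have hf0 : qfac s 0 = 1 := by simp [qfac]
  have h1 : vcup s N ⟨N - 1, by omega⟩ ⟨0, by omega⟩ =
      (-1) ^ (N - 1) * s ^ (2 * ((N : ℤ) - 1) * ((N : ℤ) - 1 - N)) := by
    unfold vcup
    rw [if_pos (by simp only; omega)]
    simp only [hf0, mul_one]
    rw [div_self (hf _), mul_one, Nat.cast_sub hN, Nat.cast_one]
  have h2 : vcup s N ⟨0, by omega⟩ ⟨N - 1, by omega⟩ = 1 := by
    unfold vcup
    rw [if_pos (by simp only; omega)]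
    simp only [pow_zero, Nat.cast_zero, mul_zero, zero_mul, zpow_zero, hf0, one_mul]
    rw [div_self (hf _)]
  rw [h1, h2, mul_one, th, if_pos rfl, mul_left_comm, ← zpow_add₀ hs]
  congr 2
  ring

theorem th_mul (hs : s ≠ 0) (N : ℕ) : th s N false * th s N true = 1 := by
  unfold th
  rw [if_neg (by simp), if_pos rfl]
  have h1 : ((-1 : K) ^ (N - 1)) * (-1) ^ (N - 1) = 1 := by
    rw [← mul_pow]; simp
  have h2 : s ^ ((N : ℤ) ^ 2 - 1) * s ^ (-((N : ℤ) ^ 2 - 1)) = 1 := by
    rw [← zpow_add₀ hs, add_neg_cancel, zpow_zero]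
  calc _ = ((-1 : K) ^ (N - 1) * (-1) ^ (N - 1)) *
      (s ^ ((N : ℤ) ^ 2 - 1) * s ^ (-((N : ℤ) ^ 2 - 1))) := by ring
    _ = 1 := by rw [h1, h2, mul_one]

end RON

/-- **RON**: the first Reidemeister move. -/
theorem t_RON (hc : CUPM_Stmt) (hqt : QT_Stmt) (hri : RINV_Stmt) (hvo : VOK_Stmt)
    (hqn : QNUM_Stmt) : RON_Stmt := by
  intro K _ s hs N hN
  obtain ⟨hne, -, -, -, hcup, hcap⟩ := hc K s hs N hN
  obtain ⟨-, hq, -⟩ := hqn K s hs
  have hok : Ok s (V s N) := (hvo K s hs).1 N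
  have hR := (hqt K s hs (Fin N) (Fin N) (V s N) (V s N) hok hok).1
  obtain ⟨hinv, hinv'⟩ := hri K s hs (Fin N) (Fin N) (V s N) (V s N) hok hok
  have hs0 : s ≠ 0 := hs.1
  have hth := RON.th_mul s hs0 N
  have h0 := RON.ratio s hs0 hq hN
  have hn1 : vcup s N ⟨0, by omega⟩ ⟨N - 1, by omega⟩ ≠ 0 := hne _ _ (by simp only; omega)
  have hn2 : vcup s N ⟨N - 1, by omega⟩ ⟨0, by omega⟩ ≠ 0 := hne _ _ (by simp only; omega)
  -- the vector
  let v : Matrix (Fin N × Fin N) (Fin 1) K := fun x _ => vcap s N x.1 x.2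
  have hcap' : Mor (V s 1) (tens s (V s N) (V s N)) v := hcap
  have hv1 : Rm s (V s N) (V s N) * v = th s N true • v := by
    refine RON.propC s hs0 hq hN v _ hcap' (RON.morComp hcap' hR) _ ?_
    rw [Matrix.mul_apply]
    rw [Finset.sum_congr rfl fun y _ => by rw [RON.Rrow s hN y]]
    rw [Finset.sum_eq_single ((⟨N - 1, by omega⟩, ⟨0, by omega⟩) : Fin N × Fin N)
      (fun y _ hy => by rw [if_neg hy, zero_mul])
      (fun h => absurd (Finset.mem_univ _) h), if_pos rfl]
    change s ^ (-((N : ℤ) - 1) ^ 2) * vcap s N ⟨N - 1, by omega⟩ ⟨0, by omega⟩ =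
      th s N true * vcap s N ⟨0, by omega⟩ ⟨N - 1, by omega⟩
    unfold vcap
    rw [if_pos (by simp only; omega), if_pos (by simp only; omega)]
    field_simp
    exact h0.trans (mul_comm _ _)
  have hv2 : Rm' s (V s N) (V s N) * v = th s N false • v := by
    have h : Rm' s (V s N) (V s N) * (Rm s (V s N) (V s N) * v) = v := by
      rw [← Matrix.mul_assoc, hinv, Matrix.one_mul]
    rw [hv1, Matrix.mul_smul] at h
    calc Rm' s (V s N) (V s N) * v =
        (th s N false * th s N true) • (Rm' s (V s N) (V s N) * v) := by rw [hth, one_smul]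
      _ = th s N false • v := by rw [mul_smul, h]
  -- the form
  let f : Matrix (Fin 1) (Fin N × Fin N) K := fun _ y => vcup s N y.1 y.2
  have hcup' : Mor (tens s (V s N) (V s N)) (V s 1) f := hcup
  have hf1 : f * Rm s (V s N) (V s N) = th s N true • f := by
    refine RON.propR s hq hN f _ hcup' (RON.morComp hR hcup') _ ?_
    rw [Matrix.mul_apply]
    rw [Finset.sum_congr rfl fun y _ => by rw [RON.Rcol s hN y]]
    rw [Finset.sum_eq_single ((⟨N - 1, by omega⟩, ⟨0, by omega⟩) : Fin N × Fin N)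
      (fun y _ hy => by rw [if_neg hy, mul_zero])
      (fun h => absurd (Finset.mem_univ _) h), if_pos rfl]
    change vcup s N ⟨N - 1, by omega⟩ ⟨0, by omega⟩ * s ^ (-((N : ℤ) - 1) ^ 2) =
      th s N true * vcup s N ⟨0, by omega⟩ ⟨N - 1, by omega⟩
    rw [mul_comm]
    exact h0
  have hf2 : f * Rm' s (V s N) (V s N) = th s N false • f := by
    have h : f * Rm s (V s N) (V s N) * Rm' s (V s N) (V s N) = f := by
      rw [Matrix.mul_assoc, hinv', Matrix.mul_one]
    rw [hf1, Matrix.smul_mul] at h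
    calc f * Rm' s (V s N) (V s N) =
        (th s N false * th s N true) • (f * Rm' s (V s N) (V s N)) := by rw [hth, one_smul]
      _ = th s N false • f := by rw [mul_smul, h]
  constructor
  · intro e x y
    have hsum : ∀ (R : Matrix (Fin N × Fin N) (Fin N × Fin N) K),
        ∑ c, ∑ d, R (x, y) (c, d) * vcap s N c d = (R * v) (x, y) 0 := by
      intro R
      rw [Matrix.mul_apply, Fintype.sum_prod_type]
    cases e
    · exact (hsum (Rm' s (V s N) (V s N))).trans (congrFun (congrFun hv2 (x, y)) 0)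
    · exact (hsum (Rm s (V s N) (V s N))).trans (congrFun (congrFun hv1 (x, y)) 0)
  · intro e c d
    have hsum : ∀ (R : Matrix (Fin N × Fin N) (Fin N × Fin N) K),
        ∑ a, ∑ b, vcup s N a b * R (a, b) (c, d) = (f * R) 0 (c, d) := by
      intro R
      rw [Matrix.mul_apply, Fintype.sum_prod_type]
    cases e
    · exact (hsum (Rm' s (V s N) (V s N))).trans (congrFun (congrFun hf2 0) (c, d))
    · exact (hsum (Rm s (V s N) (V s N))).trans (congrFun (congrFun hf1 0) (c, d))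

end Pool.Agent.WD
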