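import Pool.Agent.WD.StQ

/-!
# Module S1: two doubles with the same clasp
-/

namespace Pool.Agent.WD

open Pool.Agent.LibH11 Pool.Agent.IT Pool.Agent.GK Pool.Agent.TwoBr
open Pool.Agent.LibH11.Sliced (Diag Kind cnt IsLongKnot ofDiag braidWord)
open scoped BigOperators
open PowerSeries

namespace S1

/-- `exp X - exp (-X)` is not zero -/
theorem den_ne : (E 1 - E (-1) : ℚ⟦X⟧) ≠ 0 := by
  intro h
  have h3 := congrArg (fun f : ℚ⟦X⟧ => coeff 1 f) h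
  simp [E] at h3

section Gen

variable {K : Type} [Field K] {s : K}

theorem sub_ne (hs : Gen s) (m : ℕ) (hm : 0 < m) :
    s ^ (2 * (m : ℤ)) - s ^ (-(2 * (m : ℤ))) ≠ 0 := by
  intro h
  rw [sub_eq_zero] at h
  apply hs.2 m hm
  have h1 : s ^ (2 * (m : ℤ)) * s ^ (2 * (m : ℤ)) = s ^ (-(2 * (m : ℤ))) * s ^ (2 * (m : ℤ)) := by
    rw [← h]
  rw [← zpow_add₀ hs.1, ← zpow_add₀ hs.1, neg_add_cancel, zpow_zero] at h1
  rw [← h1, ← zpow_natCast]
  congr 1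
  push_cast
  ring

theorem qn_ne (hs : Gen s) (w : ℤ) (hw : 0 < w) : qn s w ≠ 0 := by
  obtain ⟨n, rfl⟩ := Int.eq_ofNat_of_zero_le hw.le
  have hn : 0 < n := by exact_mod_cast hw
  unfold qn
  refine div_ne_zero (sub_ne hs n hn) ?_
  have h2 := sub_ne hs 1 one_pos
  simpa using h2

theorem qfac_ne (hs : Gen s) (n : ℕ) : qfac s n ≠ 0 := by
  rw [qfac, Finset.prod_ne_zero_iff]
  intro i _
  exact qn_ne hs _ (by omega)

theorem gtop_ne (hs : Gen s) (N : ℕ) (e : Bool) : gtop s N e ≠ 0 := by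
  have h1 : s ^ (2 : ℤ) - s ^ (-2 : ℤ) ≠ 0 := by
    have h2 := sub_ne hs 1 one_pos
    simpa using h2
  have h2 : s ^ (-2 : ℤ) - s ^ (2 : ℤ) ≠ 0 := by
    rw [← neg_sub]
    exact neg_ne_zero.2 h1
  unfold gtop
  split_ifs
  · exact mul_ne_zero (mul_ne_zero (zpow_ne_zero _ hs.1) (pow_ne_zero _ h1)) (qfac_ne hs _)
  · exact mul_ne_zero (mul_ne_zero (zpow_ne_zero _ hs.1) (pow_ne_zero _ h2)) (qfac_ne hs _)

end Gen

theorem cftop_ne (hs : Gen sQ) (N : ℕ) (hN : 1 ≤ N) (e : Bool) : cftop N e ≠ 0 := by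
  unfold cftop
  refine div_ne_zero (mul_ne_zero (mul_ne_zero (mul_ne_zero ?_ ?_) (gtop_ne hs _ _)) ?_) ?_
  · exact pow_ne_zero _ (neg_ne_zero.2 one_ne_zero)
  · exact zpow_ne_zero _ hs.1
  · exact qn_ne hs _ (by omega)
  · exact qn_ne hs _ (by omega)

/-- The expansion of the invariants of a graph knot. -/
theorem expand (hG : GAB_Stmt) (hE : EXP4_Stmt) {M : CommMonoid Knot} {cb : ℕ → ℤ → Knot → Knot}
    (hops : Ops M cb) {v : ℕ → Knot → ℚ⟦X⟧} {JS : ℕ → SKnot → ℚ⟦X⟧} (hv : VOk M cb v)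
    (hj : JOk v JS) {n : ℕ} {w : Word} (h : LibH11.IsKnot (ev n w)) (hl : IsLongKnot (cl n w))
    (hb : Bd n w) (hg : GraphKnot (closure (ev n w) h)) :
    ∃ a b : ℚ, ∀ N : ℕ, 1 ≤ N → Ex3 a b N (JS N (ofDiag (cl n w) hl)) := by
  obtain ⟨G, A, B', hS, hH, -⟩ := hG M cb v hops hv _ hg
  have h1 : evB 1 G = E 1 - E (-1) := by
    have h2 := hS.2 1
    rw [Nat.cast_one, hv.one, mul_one] at h2
    exact h2
  obtain ⟨b, β, hb'⟩ := hE G A B' (fun N => JS N (ofDiag (cl n w) hl)) h1 hH (fun N hN => by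
    rw [hS.2 N]
    exact hj.br N hN n w h hl hb)
  exact ⟨_, b, fun N hN => (hb' N hN).1⟩

/-- The invariant of dimension 1. -/
theorem one_eq {M : CommMonoid Knot} {cb : ℕ → ℤ → Knot → Knot}
    {v : ℕ → Knot → ℚ⟦X⟧} {JS : ℕ → SKnot → ℚ⟦X⟧} (hv : VOk M cb v)
    (hj : JOk v JS) {n : ℕ} {w : Word} (h : LibH11.IsKnot (ev n w)) (hl : IsLongKnot (cl n w))
    (hb : Bd n w) : JS 1 (ofDiag (cl n w) hl) = 1 := by
  have h1 := hj.br 1 le_rfl n w h hl hb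
  rw [Nat.cast_one, hv.one] at h1
  exact mul_left_cancel₀ den_ne h1

end S1

open S1 in
theorem t_S1 (hO : OPS_Stmt) (hJ : JSX_Stmt) (hL : LONG_Stmt) (hT : TRIA_Stmt) (hA : GAB_Stmt)
    (hX : EXP4_Stmt) (hG : GKO_Stmt) (hE : ESER_Stmt) : S1_Stmt := by
  intro e m m' n n' w w' h h' hd hd' hb hb' hg hg' hs
  have hgen : Gen sQ := hE.2.2.2.2.1
  obtain ⟨M, cb, hops⟩ := hO
  obtain ⟨v, JS, hv, hj⟩ := hJ M cb hops
  have hl : IsLongKnot (cl n w) := (hL n w hb h).1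
  have hl' : IsLongKnot (cl n' w') := (hL n' w' hb' h').1
  have hC : ∀ N : ℕ, ∃ Cf : ℕ → KQ, 1 ≤ N → Cf (N - 1) = cftop N e ∧
      ∀ (m : ℤ) (n : ℕ) (w : Word) (hl : IsLongKnot (cl n w))
        (hd : IsLongKnot (double e m (cl n w))), Bd n w → LibH11.IsKnot (ev n w) →
        toK (JS N (ofDiag (double e m (cl n w)) hd)) = ∑ j ∈ Finset.range N,
          Cf j * toK (E (2 * j * (j + 1) * (m + wr w)) * JS (2 * j + 1) (ofDiag (cl n w) hl)) := by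
    intro N
    by_cases hN : 1 ≤ N
    · obtain ⟨Cf, h1, h2⟩ := hj.dbl e N hN
      exact ⟨Cf, fun _ => ⟨h1, h2⟩⟩
    · exact ⟨0, fun h1 => absurd h1 hN⟩
  choose Cf hCf using hC
  obtain ⟨a, b, hab⟩ := expand hA hX hops hv hj h hl hb hg
  obtain ⟨a', b', hab'⟩ := expand hA hX hops hv hj h' hl' hb' hg'
  have key := hT Cf (m + wr w) (m' + wr w') (fun N => JS N (ofDiag (cl n w) hl))
    (fun N => JS N (ofDiag (cl n' w') hl'))
    (fun j => by
      have h1 := (hCf (j + 1) (by omega)).1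
      rw [Nat.add_sub_cancel] at h1
      rw [h1]
      exact cftop_ne hgen _ (by omega) e)
    (one_eq hv hj h hl hb) (one_eq hv hj h' hl' hb')
    (hab 3 (by omega)).c0 (hab' 3 (by omega)).c0 (hab 3 (by omega)).c1 (hab' 3 (by omega)).c1
    (fun N hN => by
      have h1 := (hCf N hN).2 m n w hl hd hb h
      have h2 := (hCf N hN).2 m' n' w' hl' hd' hb' h'
      have h3 := hj.ft N hN _ _ hs
      rw [Int.cast_add m (wr w), Int.cast_add m' (wr w')]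
      exact h1.symm.trans ((congrArg toK h3).trans h2))
  refine ⟨key.1, ?_⟩
  refine hG M cb v hops hv _ _ hg hg' fun N hN => ?_
  have h1 : 1 ≤ N := hN.pos
  have h3 := hj.br N h1 n w h hl hb
  have h4 := hj.br N h1 n' w' h' hl' hb'
  apply mul_left_cancel₀ den_ne
  rw [← h3, ← h4]
  obtain ⟨j, rfl⟩ := hN
  have h5 := key.2 j
  rw [h5]

end Pool.Agent.WD
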