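import Pool.Agent.WD.StQ

/-!
# S2: two doubles with opposite clasps
-/

namespace Pool.Agent.WD

open Pool.Agent.LibH11 Pool.Agent.IT Pool.Agent.GK Pool.Agent.TwoBr
open Pool.Agent.LibH11.Sliced (Diag Kind cnt IsLongKnot ofDiag braidWord)
open PowerSeries

namespace S2x

theorem nonneg {cb : ℕ → ℤ → Knot → Knot} {K : Knot} {A B' : ℚ} (h : QAB cb K A B') : 0 ≤ A := by
  rcases h with ⟨-, h, -⟩ | ⟨-, h, -⟩ | ⟨h, -⟩
  · rw [h]
  · rw [h]; norm_num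
  · exact h.le

theorem unk {cb : ℕ → ℤ → Knot → Knot} {K : Knot} {A B' : ℚ} (h : QAB cb K A B') (hA : A = 0) :
    K = unknot := by
  rcases h with ⟨h, -, -⟩ | ⟨-, h, -⟩ | ⟨h, -⟩
  · exact h
  · rw [hA] at h
    norm_num at h
  · exact absurd hA h.ne'

theorem exq (hgab : GAB_Stmt) (hexp : EXP4_Stmt) {M : CommMonoid Knot}
    {cb : ℕ → ℤ → Knot → Knot} {v : ℕ → Knot → ℚ⟦X⟧} {JS : ℕ → SKnot → ℚ⟦X⟧} (ho : Ops M cb)
    (hv : VOk M cb v) (hJ : JOk v JS) (n : ℕ) (w : Word) (h : LibH11.IsKnot (ev n w))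
    (hl : IsLongKnot (cl n w)) (hw : Bd n w) (hg : GraphKnot (closure (ev n w) h)) :
    ∃ a b : ℚ, a ≤ 0 ∧ (a = 0 → closure (ev n w) h = unknot) ∧
      ∀ N : ℕ, 1 ≤ N → Ex3 a b N (JS N (ofDiag (cl n w) hl)) := by
  obtain ⟨G, A, B', hS, hH, hQ⟩ := hgab M cb v ho hv _ hg
  obtain ⟨b, β, hb⟩ := hexp G A B' (fun N => JS N (ofDiag (cl n w) hl)) (by
      have h1 := hS.2 1
      rw [hv.one, mul_one, Nat.cast_one] at h1
      exact h1) hH (fun N hN => by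
      rw [hJ.br N hN n w h hl hw, hS.2 N])
  refine ⟨-(A / 6), b, by have := nonneg hQ; linarith, fun h0 => unk hQ (by linarith),
    fun N hN => (hb N hN).1⟩

end S2x

open S2x

theorem t_S2 (hops : OPS_Stmt) (hjsx : JSX_Stmt) (hlong : LONG_Stmt) (hcfv : CFV_Stmt)
    (hoa : OPPA_Stmt) (hob : OPPB_Stmt) (hgab : GAB_Stmt) (hexp : EXP4_Stmt) : S2_Stmt := by
  intro m m' n n' w w' h h' hd hd' hw hw' hg hg' hsame
  obtain ⟨M, cb, ho⟩ := hops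
  obtain ⟨v, JS, hv, hJ⟩ := hjsx M cb ho
  have hl := (hlong n w hw h).1
  have hl' := (hlong n' w' hw' h').1
  obtain ⟨d2, d3⟩ := hcfv M cb v JS ho hv hJ true m n w hl hd hw h
  obtain ⟨d2', d3'⟩ := hcfv M cb v JS ho hv hJ false m' n' w' hl' hd' hw' h'
  rw [if_pos rfl] at d2 d3
  rw [if_neg (by decide)] at d2' d3'
  rw [← hJ.ft 2 (by norm_num) _ _ hsame] at d2'
  rw [← hJ.ft 3 (by norm_num) _ _ hsame] at d3'
  obtain ⟨a, b, ha, hK, hx⟩ := exq hgab hexp ho hv hJ n w h hl hw hg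
  obtain ⟨a', b', ha', hK', hx'⟩ := exq hgab hexp ho hv hJ n' w' h' hl' hw' hg'
  obtain ⟨e1, e2⟩ := hoa _ _ _ _ _ _ _ _ d2 d3 d2' d3'
  have hc : ((m : ℚ) + (wr w : ℚ)) = ((m + wr w : ℤ) : ℚ) := by push_cast; ring
  have hc' : ((m' : ℚ) + (wr w' : ℚ)) = ((m' + wr w' : ℤ) : ℚ) := by push_cast; ring
  rw [hc, hc'] at e1 e2
  obtain ⟨h1, h2, h3, h4⟩ := hob (m + wr w) (m' + wr w') a b a' b' _ _ _ _ ha ha'
    (hx 3 (by norm_num)) (hx 5 (by norm_num)) (hx' 3 (by norm_num)) (hx' 5 (by norm_num)) e1 e2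
  exact ⟨h2, h1, hK h3, hK' h4⟩

end Pool.Agent.WD
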