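import Pool.Agent.WD.StQ

/-!
# S3: a graph knot and a double
-/

namespace Pool.Agent.WD

open Pool.Agent.LibH11 Pool.Agent.IT Pool.Agent.GK Pool.Agent.TwoBr
open Pool.Agent.LibH11.Sliced (Diag Kind cnt IsLongKnot ofDiag braidWord)
open scoped BigOperators
open PowerSeries

namespace MS3

theorem perm_tref (e : Bool) : LibH11.perm (ev 1 [(0, e), (0, e), (0, e)]) =
    Equiv.swap (0 : Fin 2) 1 := by
  have h1 : LibH11.perm (sg (0 : Fin 1)) = Equiv.swap (0 : Fin 2) 1 := by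
    unfold LibH11.perm
    rw [liftBr_sg]
    rfl
  have h2 : ev 1 [(0, e), (0, e), (0, e)] =
      gen 1 (0, e) * (gen 1 (0, e) * gen 1 (0, e)) := by
    simp [ev]
  have h3 : LibH11.perm (gen 1 (0, e)) = Equiv.swap (0 : Fin 2) 1 := by
    cases e
    · have : gen 1 (0, false) = (sg (0 : Fin 1))⁻¹ := rfl
      rw [this, map_inv, h1, Equiv.swap_inv]
    · have : gen 1 (0, true) = sg (0 : Fin 1) := rfl
      rw [this, h1]
  rw [h2, map_mul, map_mul, h3, Equiv.swap_mul_self, mul_one]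

theorem isKnot_tref (e : Bool) : LibH11.IsKnot (ev 1 [(0, e), (0, e), (0, e)]) := by
  intro x y
  rw [perm_tref]
  have h : ∀ x y : Fin 2, (Equiv.swap (0 : Fin 2) 1).SameCycle x y := by
    intro x y
    by_cases hxy : x = y
    · exact ⟨0, by simp [hxy]⟩
    · refine ⟨1, ?_⟩
      rw [zpow_one]
      revert hxy
      revert x y
      decide
  exact h x y

theorem cab_tref (e : Bool) : cab 2 (if e then 3 else -3) [] = [(0, e), (0, e), (0, e)] := by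
  cases e <;> rfl

theorem cb_tref {M : CommMonoid Knot} {cb : ℕ → ℤ → Knot → Knot} (hO : Ops M cb) (e : Bool) :
    cb 2 (if e then 3 else -3) unknot =
      closure (ev 1 [(0, e), (0, e), (0, e)]) (isKnot_tref e) := by
  have h := hO.cab 0 [] (isKnot_zero 1) 2 (if e then 3 else -3)
    (by rw [cab_tref]; exact isKnot_tref e) (by intro x hx; simp at hx) (by norm_num)
    (by cases e <;> rfl)
  have h1 : closure (ev 0 []) (isKnot_zero 1) = unknot := rfl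
  rw [h1] at h
  rw [h]
  congr 1
  rw [cab_tref]

theorem expand (hE : EXP4_Stmt) {M : CommMonoid Knot} {cb : ℕ → ℤ → Knot → Knot}
    {v : ℕ → Knot → ℚ⟦X⟧} {JS : ℕ → SKnot → ℚ⟦X⟧} (hV : VOk M cb v) (hJ : JOk v JS) {n : ℕ}
    {w : Word} (h : LibH11.IsKnot (ev n w)) (hl : IsLongKnot (cl n w)) (hb : Bd n w) {G : B}
    {A B' : ℚ} (hG : Ser v (closure (ev n w) h) G) (hA : HAB G A B') :
    ∃ b β : ℚ, ∀ N : ℕ, 1 ≤ N → Ex3 (-(A / 6)) b N (JS N (ofDiag (cl n w) hl)) ∧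
      coeff 4 (JS N (ofDiag (cl n w) hl)) =
        ((N : ℚ) ^ 2 - 1) * ((A ^ 2 / 72 + B' / 180) * (N : ℚ) ^ 2 + β) := by
  refine hE G A B' (fun N => JS N (ofDiag (cl n w) hl)) ?_ hA ?_
  · have h1 := hG.2 1
    rw [hV.one, mul_one] at h1
    simpa using h1
  · intro N hN
    rw [hJ.br N hN n w h hl hb, ← hG.2 N]

end MS3

theorem t_S3 (hOPS : OPS_Stmt) (hJSX : JSX_Stmt) (hLONG : LONG_Stmt) (hCFV : CFV_Stmt)
    (hCGK : CGK_Stmt) (hGAB : GAB_Stmt) (hEXP : EXP4_Stmt) : S3_Stmt := by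
  intro e m n n' w w' h h' hd hl' bd bd' gr gr' hs
  obtain ⟨M, cb, hO⟩ := hOPS
  obtain ⟨v, JS, hV, hJ⟩ := hJSX M cb hO
  have hl := (hLONG n w bd h).1
  obtain ⟨hD2, hD3⟩ := hCFV M cb v JS hO hV hJ e m n w hl hd bd h
  obtain ⟨G, A, B', hG, hA, -⟩ := hGAB M cb v hO hV _ gr
  obtain ⟨G2, A2, B2, hG2, hA2, hQ⟩ := hGAB M cb v hO hV _ gr'
  obtain ⟨b, β, hx⟩ := MS3.expand hEXP hV hJ h hl bd hG hA
  obtain ⟨b2, β2, hx2⟩ := MS3.expand hEXP hV hJ h' hl' bd' hG2 hA2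
  rw [hJ.ft 2 (by norm_num) _ _ hs] at hD2
  rw [hJ.ft 3 (by norm_num) _ _ hs] at hD3
  have h3 := (hx 3 (by norm_num)).1
  have h5 := (hx 5 (by norm_num)).1
  obtain ⟨g2, c2⟩ := hx2 2 (by norm_num)
  obtain ⟨-, c3⟩ := hx2 3 (by norm_num)
  obtain ⟨-, hα⟩ := hCGK (if e then 1 else -1) (m + wr w) (-(A / 6)) b (-(A2 / 6))
    (A2 ^ 2 / 72 + B2 / 180) β2 _ _ _ _ (by cases e <;> simp) hD2 hD3 h3 h5
    (by rw [g2.c2]; push_cast; ring) (by rw [c2]; push_cast; ring)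
    (by rw [c3]; push_cast; ring)
  have hf : fAB A2 B2 = 0 := by
    unfold fAB
    linear_combination (-360 : ℚ) * hα
  rcases hQ with ⟨hK, -, -⟩ | ⟨hK, -, -⟩ | ⟨-, hpos⟩
  · exact Or.inl hK
  · rcases hK with hK | hK
    · exact Or.inr (Or.inl ⟨MS3.isKnot_tref true, hK.trans (MS3.cb_tref hO true)⟩)
    · exact Or.inr (Or.inr ⟨MS3.isKnot_tref false, hK.trans (MS3.cb_tref hO false)⟩)
  · exact absurd hf hpos.ne'

end Pool.Agent.WD
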