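import Pool.Agent.WD.StQ

/-!
# Module S4: two graph knots
-/

namespace Pool.Agent.WD

open Pool.Agent.LibH11 Pool.Agent.IT Pool.Agent.GK Pool.Agent.TwoBr
open Pool.Agent.LibH11.Sliced (Diag Kind cnt IsLongKnot ofDiag braidWord)
open scoped BigOperators
open PowerSeries

namespace S4

/-- `exp X - exp (-X)` is not zero -/
theorem den_ne : (E 1 - E (-1) : ℚ⟦X⟧) ≠ 0 := by
  intro h
  have h3 := congrArg (fun f : ℚ⟦X⟧ => coeff 1 f) h
  simp [E] at h3

end S4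

theorem t_S4 (hO : OPS_Stmt) (hJ : JSX_Stmt) (_hL : LONG_Stmt) (hG : GKO_Stmt) : S4_Stmt := by
  intro n n' w w' h h' hl hl' hb hb' hg hg' hs
  obtain ⟨M, cb, hops⟩ := hO
  obtain ⟨v, JS, hv, hj⟩ := hJ M cb hops
  refine hG M cb v hops hv _ _ hg hg' fun N hN => ?_
  have h1 : 1 ≤ N := hN.pos
  have h2 := hj.ft N h1 _ _ hs
  have h3 := hj.br N h1 n w h hl hb
  have h4 := hj.br N h1 n' w' h' hl' hb'
  apply mul_left_cancel₀ S4.den_ne
  rw [← h3, ← h4, h2]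

end Pool.Agent.WD
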