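import Pool.Agent.WD.StQ

/-!
# WD, module SCC (helper72): the value of a closed braid
-/

namespace Pool.Agent.WD

open Pool.Agent.LibH11 Pool.Agent.IT Pool.Agent.GK Pool.Agent.TwoBr
open scoped BigOperators

theorem SCCx.rd {K : Type} [Field K] (s : K) (N : ℕ) :
    rdM (MV s N) (kap s N) = RD s (V s N) := by
  have h1 : (fun x y : Fin N × Fin N => (MV s N).X true x.1 x.2 y.1 y.2) =
      Rm s (V s N) (V s N) := by
    funext x y
    rfl
  have h2 : (fun x y : Fin N × Fin N => (MV s N).X false x.1 x.2 y.1 y.2) =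
      Rm' s (V s N) (V s N) := by
    funext x y
    rfl
  unfold rdM
  rw [h1, h2]
  rfl

/-- (SCC) -/
theorem t_SCC (hT : TRC_Stmt) (hC : CUPM_Stmt) (hP : PTM_Stmt) (hG : GPT_Stmt)
    (hS : IT.SCHUR_Stmt) (hV : IT.VOK_Stmt) : SCC_Stmt := by
  intro K _ s hs N hN n w hw
  obtain ⟨-, -, -, hpiv, -, -⟩ := hC K s hs N hN
  obtain ⟨x, hx⟩ := hS K s hs N _ (hP K s hs (Fin N) (V s N) ((hV K s hs).1 N) n w)
  refine ⟨((-1) ^ (N - 1)) ^ n * x, ?_, ?_⟩
  · intro F a
    have h := hT K (Fin N) (MV s N) _ _ hpiv n w hw F a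
    rw [h, SCCx.rd, hx]
    have h2 : ∑ c, (x • (1 : Matrix (Fin N) (Fin N) K)) a c * F [c] = x * F [a] := by
      rw [Finset.sum_eq_single a]
      · rw [Matrix.smul_apply, Matrix.one_apply_eq, smul_eq_mul, mul_one]
      · intro c _ hc
        rw [Matrix.smul_apply, Matrix.one_apply_ne hc.symm, smul_zero, zero_mul]
      · intro h; exact absurd (Finset.mem_univ _) h
    rw [h2]
    ring
  · have h := (hG K (Fin N) (RD s (V s N)) n w).2
    rw [h, hx, mul_assoc, Finset.mul_sum]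
    congr 1
    refine Finset.sum_congr rfl fun a _ => ?_
    rw [Matrix.smul_apply, Matrix.one_apply_eq, smul_eq_mul, mul_one]
    ring

end Pool.Agent.WD
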