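import Pool.Agent.WD.StQ

/-!
# Whitehead doubles of graph knots: the value of a double (module SCD)
-/

namespace Pool.Agent.WD

open Pool.Agent.LibH11 Pool.Agent.IT Pool.Agent.GK Pool.Agent.TwoBr
open scoped BigOperators

namespace SCDM

theorem rd {K : Type} [Field K] (s : K) (N : ℕ) :
    rdM (MV s N) (kap s N) = RD s (V s N) := by
  have h1 : (fun x y : Fin N × Fin N => (MV s N).X true x.1 x.2 y.1 y.2) =
      Rm s (V s N) (V s N) := by
    funext x y
    rfl
  have h2 : (fun x y : Fin N × Fin N => (MV s N).X false x.1 x.2 y.1 y.2) =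
      Rm' s (V s N) (V s N) := by
    funext x y
    rfl
  unfold rdM
  rw [h1, h2]
  rfl

/-- morphisms can be multiplied -/
theorem mor_mul {K : Type} [Field K] {α : Type} [Fintype α] {A : WM K α}
    {f g : Matrix α α K} (hf : Mor A A f) (hg : Mor A A g) : Mor A A (f * g) := by
  refine ⟨?_, ?_, ?_⟩
  · intro b a hab
    rw [Matrix.mul_apply] at hab
    obtain ⟨c, -, hc⟩ := Finset.exists_ne_zero_of_sum_ne_zero hab
    rw [hf.wt b c (left_ne_zero_of_mul hc), hg.wt c a (right_ne_zero_of_mul hc)]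
  · rw [← Matrix.mul_assoc, hf.E, Matrix.mul_assoc, hg.E, Matrix.mul_assoc]
  · rw [← Matrix.mul_assoc, hf.F, Matrix.mul_assoc, hg.F, Matrix.mul_assoc]

section Two

variable {K : Type} [Field K] (s : K) {ι : Type} [Fintype ι] [DecidableEq ι] (M : WM K ι)

/-- pairs as lists of length two -/
def ψ (ι : Type) : ι × ι ≃ (Fin 2 → ι) := (finTwoArrowEquiv ι).symm

omit [Fintype ι] [DecidableEq ι] in
theorem ψ_apply (x : ι × ι) : ψ ι x = ![x.1, x.2] := rfl

theorem wt_two (x : ι × ι) : (fpow s M 2).wt (ψ ι x) = (tens s M M).wt x := by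
  change ∑ i, M.wt ((ψ ι x) i) = M.wt x.1 + M.wt x.2
  rw [Fin.sum_univ_two]
  rfl

omit [Fintype ι] [DecidableEq ι] in
theorem iff_zero (x y : ι × ι) : (∀ l : Fin 2, l ≠ 0 → ψ ι x l = ψ ι y l) ↔ x.2 = y.2 := by
  constructor
  · intro h
    exact h 1 (by decide)
  · intro h l hl
    have hl' : l = 1 := by omega
    rw [hl']
    exact h

omit [Fintype ι] [DecidableEq ι] in
theorem iff_one (x y : ι × ι) : (∀ l : Fin 2, l ≠ 1 → ψ ι x l = ψ ι y l) ↔ x.1 = y.1 := by
  constructor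
  · intro h
    exact h 0 (by decide)
  · intro h l hl
    have hl' : l = 0 := by omega
    rw [hl']
    exact h

theorem E_two : (tens s M M).E = ((fpow s M 2).E).submatrix (ψ ι) (ψ ι) := by
  ext x y
  change (if x.2 = y.2 then M.E x.1 y.1 * s ^ (2 * M.wt y.2) else 0) +
    (if x.1 = y.1 then M.E x.2 y.2 else 0) =
    (∑ k : Fin 2, if ∀ l, l ≠ k → ψ ι x l = ψ ι y l then
      M.E (ψ ι x k) (ψ ι y k) *
        s ^ (2 * ∑ l ∈ Finset.univ.filter (fun l => k < l), M.wt (ψ ι y l)) else 0)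
  rw [Fin.sum_univ_two]
  have f0 : (Finset.univ.filter fun l : Fin 2 => (0 : Fin 2) < l) = {1} := by decide
  have f1 : (Finset.univ.filter fun l : Fin 2 => (1 : Fin 2) < l) = ∅ := by decide
  rw [f0, f1, Finset.sum_singleton, Finset.sum_empty, mul_zero, zpow_zero, mul_one]
  congr 1
  · by_cases h : x.2 = y.2
    · rw [if_pos ((iff_zero x y).mpr h), if_pos h]
      rfl
    · rw [if_neg (fun h' => h ((iff_zero x y).mp h')), if_neg h]
  · by_cases h : x.1 = y.1
    · rw [if_pos ((iff_one x y).mpr h), if_pos h]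
      rfl
    · rw [if_neg (fun h' => h ((iff_one x y).mp h')), if_neg h]

theorem F_two : (tens s M M).F = ((fpow s M 2).F).submatrix (ψ ι) (ψ ι) := by
  ext x y
  change (if x.2 = y.2 then M.F x.1 y.1 else 0) +
    (if x.1 = y.1 then s ^ (-(2 * M.wt y.1)) * M.F x.2 y.2 else 0) =
    (∑ k : Fin 2, if ∀ l, l ≠ k → ψ ι x l = ψ ι y l then
      s ^ (-(2 * ∑ l ∈ Finset.univ.filter (fun l => l < k), M.wt (ψ ι y l))) *
        M.F (ψ ι x k) (ψ ι y k) else 0)
  rw [Fin.sum_univ_two]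
  have f0 : (Finset.univ.filter fun l : Fin 2 => l < (0 : Fin 2)) = ∅ := by decide
  have f1 : (Finset.univ.filter fun l : Fin 2 => l < (1 : Fin 2)) = {0} := by decide
  rw [f0, f1, Finset.sum_singleton, Finset.sum_empty, mul_zero, neg_zero, zpow_zero, one_mul]
  congr 1
  · by_cases h : x.2 = y.2
    · rw [if_pos ((iff_zero x y).mpr h), if_pos h]
      rfl
    · rw [if_neg (fun h' => h ((iff_zero x y).mp h')), if_neg h]
  · by_cases h : x.1 = y.1
    · rw [if_pos ((iff_one x y).mpr h), if_pos h]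
      rfl
    · rw [if_neg (fun h' => h ((iff_one x y).mp h')), if_neg h]

variable {s M}

theorem mor_two {Y : Matrix (Fin 2 → ι) (Fin 2 → ι) K}
    (hY : Mor (fpow s M 2) (fpow s M 2) Y) :
    Mor (tens s M M) (tens s M M) (Y.submatrix (ψ ι) (ψ ι)) := by
  refine ⟨?_, ?_, ?_⟩
  · intro x y h
    rw [← wt_two, ← wt_two]
    exact hY.wt _ _ h
  · rw [E_two, Matrix.submatrix_mul_equiv, Matrix.submatrix_mul_equiv, hY.E]
  · rw [F_two, Matrix.submatrix_mul_equiv, Matrix.submatrix_mul_equiv, hY.F]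

end Two

theorem eps {K : Type} [Field K] (N n : ℕ) :
    (((-1 : K) ^ (N - 1)) ^ (2 * n + 1)) = (-1) ^ (N - 1) := by
  rw [pow_succ, pow_mul, ← pow_mul (-1 : K) (N - 1) 2, mul_comm (N - 1) 2, pow_mul, neg_one_sq,
    one_pow, one_pow, one_mul]

end SCDM

open SCDM in
/-- (SCD) -/
theorem t_SCD (h1 : DVF_Stmt) (h2 : CUPM_Stmt) (h3 : PTM_Stmt) (h4 : CLM_Stmt) (h5 : GPT_Stmt)
    (h6 : BLKD_Stmt) (h7 : MOP_Stmt) (h8 : PTR_Stmt) (h9 : IT.SCHUR_Stmt) (_ : TENSOK_Stmt)
    (h11 : FPOWOK_Stmt) (h12 : IT.VOK_Stmt) : SCD_Stmt := by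
  intro K _ s hs N hN e m n w hw
  obtain ⟨-, hzig, -, hpiv, -, -⟩ := h2 K s hs N hN
  have hV : IT.Ok s (V s N) := (h12 K s hs).1 N
  have hW : IT.Ok s (fpow s (V s N) 2) := h11 K s hs (Fin N) (V s N) hV 2
  have hB : blkD (RD s (V s N)) 1 = RD s (fpow s (V s N) 2) :=
    h6 K s hs (Fin N) (V s N) hV 1
  have hP : Mor (fpow s (V s N) 2) (fpow s (V s N) 2) (ptr (blkD (RD s (V s N)) 1) n w) := by
    rw [hB]
    exact h3 K s hs (Fin 2 → Fin N) (fpow s (V s N) 2) hW n w
  have hT : Mor (fpow s (V s N) 2) (fpow s (V s N) 2) (tw (RD s (V s N)) m) :=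
    h7 K s hs (Fin N) (V s N) hV 1 _
  have hC := h4 K s hs N hN e
  obtain ⟨Y, hYd⟩ : ∃ Y : Matrix (Fin 2 → Fin N) (Fin 2 → Fin N) K,
      Y = ptr (blkD (RD s (V s N)) 1) n w * tw (RD s (V s N)) m * clasp (MV s N) e := ⟨_, rfl⟩
  have hY : Mor (fpow s (V s N) 2) (fpow s (V s N) 2) Y := by
    rw [hYd]
    exact mor_mul (mor_mul hP hT) hC
  obtain ⟨x, hx⟩ := h9 K s hs N _
    (h8 K s hs (Fin N) (Fin N) (V s N) (V s N) hV hV _ (mor_two hY))
  have hx' : ∀ a u : Fin N, ∑ b, kap s N b * Y ![a, b] ![u, b] = if a = u then x else 0 := by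
    intro a u
    have h := congrFun (congrFun hx a) u
    have hr : (x • (1 : Matrix (Fin N) (Fin N) K)) a u = if a = u then x else 0 := by
      rw [Matrix.smul_apply, Matrix.one_apply, smul_eq_mul, mul_ite, mul_one, mul_zero]
    rw [← hr, ← h]
    refine Finset.sum_congr rfl fun b _ => ?_
    rw [mul_comm]
    rfl
  refine ⟨(-1) ^ (N - 1) * x, ?_, ?_⟩
  · intro F a
    have h := h1 K (Fin N) (MV s N) _ _ hpiv hzig e m n w hw F a
    rw [rd, ← hYd, eps] at h
    rw [h, mul_assoc]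
    congr 1
    rw [Finset.sum_congr rfl fun u _ => by rw [hx' a u], Finset.sum_eq_single a]
    · rw [if_pos rfl]
    · intro u _ hu
      rw [if_neg hu.symm, zero_mul]
    · intro ha
      exact absurd (Finset.mem_univ a) ha
  · have hG := (h5 K (Fin (1 + 1) → Fin N) (blkD (RD s (V s N)) 1) n w).1
      (tw (RD s (V s N)) m * clasp (MV s N) e)
    rw [hG, mul_assoc]
    congr 1
    have hs1 : ∑ a : Fin (1 + 1) → Fin N, (blkD (RD s (V s N)) 1).κ a *
        (ptr (blkD (RD s (V s N)) 1) n w *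
          (tw (RD s (V s N)) m * clasp (MV s N) e)) a a =
        ∑ a : Fin 2 → Fin N, (kap s N (a 0) * kap s N (a 1)) * Y a a := by
      refine Finset.sum_congr rfl fun a _ => ?_
      rw [hYd, Matrix.mul_assoc]
      congr 1
      change ∏ i, (RD s (V s N)).κ (a i) = _
      rw [Fin.prod_univ_two]
      rfl
    rw [hs1, ← (ψ (Fin N)).sum_comp, Fintype.sum_prod_type, Finset.mul_sum]
    refine Finset.sum_congr rfl fun a _ => ?_
    have h3 := hx' a a
    rw [if_pos rfl] at h3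
    rw [← h3, mul_comm, Finset.mul_sum]
    refine Finset.sum_congr rfl fun b _ => ?_
    change kap s N a * (kap s N b * Y ![a, b] ![a, b]) =
      kap s N a * kap s N b * Y ![a, b] ![a, b]
    ring

end Pool.Agent.WD
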