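import Pool.Agent.WD.StQ

/-!
SLI: a strand slides across a minimum or a maximum.
-/

namespace Pool.Agent.WD

open Pool.Agent.LibH11 Pool.Agent.IT Pool.Agent.GK Pool.Agent.TwoBr
open scoped BigOperators

section SLI

variable {K : Type} [Field K] (s : K)

theorem sli_wt (i : Fin 1) : (V s 1).wt i = 0 := by
  simp [V]

theorem sli_E : (V s 1).E = 0 := by
  ext a b
  simp [V]

theorem sli_F : (V s 1).F = 0 := by
  ext a b
  simp [V]

theorem sli_aq0 : aq s 0 = 1 := by
  simp [aq, qfac]

variable {ι : Type} [Fintype ι] [DecidableEq ι]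

theorem sli_R1 (M : WM K ι) (z w : Fin 1) (a b : ι) :
    Rm s M (V s 1) (z, a) (b, w) = if a = b then 1 else 0 := by
  unfold Rm
  simp only [sli_wt, mul_zero, zpow_zero, one_mul, sli_F]
  rw [Finset.sum_eq_single 0]
  · simp [sli_aq0, Matrix.one_apply, Subsingleton.elim z w]
  · intro n _ hn
    rw [zero_pow hn]
    simp
  · intro h
    exact absurd (Finset.mem_range.mpr (Fintype.card_pos_iff.mpr ⟨a⟩)) h

theorem sli_R2 (M : WM K ι) (z w : Fin 1) (a b : ι) :
    Rm s (V s 1) M (a, z) (w, b) = if a = b then 1 else 0 := by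
  unfold Rm
  simp only [sli_wt, zero_mul, zpow_zero, one_mul, Fintype.card_fin, Finset.sum_range_one, pow_zero,
    sli_aq0]
  simp [Matrix.one_apply, Subsingleton.elim z w]

theorem sli_vm {R R' : Matrix (ι × ι) (ι × ι) K} (h : R * R' = 1) (w u : ι × ι → K)
    (hw : ∀ x, ∑ y, w y * R y x = u x) (x : ι × ι) : w x = ∑ y, u y * R' y x := by
  have h1 : Matrix.vecMul w R = u := by
    funext z
    rw [← hw z]
    rfl
  have h2 : Matrix.vecMul u R' = w := by rw [← h1, Matrix.vecMul_vecMul, h, Matrix.vecMul_one]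
  exact (congrFun h2 x).symm

theorem sli_mv {R R' : Matrix (ι × ι) (ι × ι) K} (h : R' * R = 1) (w u : ι × ι → K)
    (hw : ∀ x, ∑ y, R x y * w y = u x) (x : ι × ι) : w x = ∑ y, R' x y * u y := by
  have h1 : Matrix.mulVec R w = u := by
    funext z
    rw [← hw z]
    rfl
  have h2 : Matrix.mulVec R' u = w := by rw [← h1, Matrix.mulVec_mulVec, h, Matrix.one_mulVec]
  exact (congrFun h2 x).symm

theorem sli_s3 (f : ι → ι → ι → K) : ∑ a, ∑ b, ∑ c, f a b c = ∑ c, ∑ b, ∑ a, f a b c := by
  calc _ = ∑ b, ∑ a, ∑ c, f a b c := Finset.sum_comm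
    _ = ∑ b, ∑ c, ∑ a, f a b c := Finset.sum_congr rfl fun b _ => Finset.sum_comm
    _ = _ := Finset.sum_comm

theorem sli_s2 (f : ι → ι → ι → K) : ∑ a, ∑ b, ∑ c, f a b c = ∑ a, ∑ c, ∑ b, f a b c :=
  Finset.sum_congr rfl fun _ _ => Finset.sum_comm

theorem sli_c3 {f g : ι → ι → ι → K} (h : ∀ a b c, f a b c = g a b c) :
    ∑ a, ∑ b, ∑ c, f a b c = ∑ a, ∑ b, ∑ c, g a b c :=
  Finset.sum_congr rfl fun a _ => Finset.sum_congr rfl fun b _ => Finset.sum_congr rfl
    fun c _ => h a b c

end SLI

theorem t_SLI (h1 : CUPM_Stmt) (h2 : NAT_Stmt) (h3 : HEX1_Stmt) (h4 : HEX2_Stmt) (h5 : RINV_Stmt)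
    (h6 : VOK_Stmt) (h7 : TENSOK_Stmt) : SLI_Stmt := by
  intro K _ s hs N hN
  obtain ⟨_, _, _, _, hf, hv⟩ := h1 K s hs N hN
  have hV : IT.Ok s (V s N) := (h6 K s hs).1 N
  have hV1 : IT.Ok s (V s 1) := (h6 K s hs).1 1
  have hT : IT.Ok s (tens s (V s N) (V s N)) :=
    (h7 K s hs (Fin N) (Fin N) (Fin N) (Fin N) (V s N) (V s N) (V s N) (V s N) hV hV).1
  have hid : Mor (V s N) (V s N) (1 : Matrix (Fin N) (Fin N) K) := by
    refine ⟨?_, by rw [mul_one, one_mul], by rw [mul_one, one_mul]⟩
    intro b a hab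
    rw [Matrix.one_apply] at hab
    split_ifs at hab with h
    · rw [h]
    · exact absurd rfl hab
  obtain ⟨i1, i2⟩ := h5 K s hs (Fin N) (Fin N) (V s N) (V s N) hV hV
  -- the four relations
  have A1 : ∀ a m n0 l0 : Fin N, ∑ n, ∑ l, vcup s N n l * ∑ m', Rm s (V s N) (V s N) (l, a) (m', l0) *
      Rm s (V s N) (V s N) (n, m') (m, n0) = if a = m then vcup s N n0 l0 else 0 := by
    intro a m n0 l0
    have h := (h2 K s hs (Fin N) (Fin N × Fin N) (Fin N) (Fin 1) (V s N) (tens s (V s N) (V s N))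
      (V s N) (V s 1) hV hT hV hV1 1 (fun _ y => vcup s N y.1 y.2) hid hf).1
    have h' := congrFun (congrFun h (0, a)) (m, (n0, l0))
    rw [Matrix.mul_apply, Matrix.mul_apply] at h'
    simp only [Fintype.sum_prod_type, kr, sli_R1, Matrix.one_apply, Finset.univ_unique,
      Finset.sum_singleton, ite_mul, mul_ite, mul_one, one_mul, mul_zero, zero_mul,
      Finset.sum_ite_eq, Finset.sum_ite_eq', Finset.mem_univ, if_true,
      h4 K s hs (Fin N) (Fin N) (Fin N) (V s N) (V s N) (V s N) hV hV hV] at h'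
    rw [← h']
  have A2 : ∀ l k m n : Fin N, ∑ a, ∑ b, vcup s N a b * ∑ k', Rm s (V s N) (V s N) (l, a) (m, k') *
      Rm s (V s N) (V s N) (k', b) (n, k) = if l = k then vcup s N m n else 0 := by
    intro l k m n
    have h := (h2 K s hs (Fin N × Fin N) (Fin N) (Fin 1) (Fin N) (tens s (V s N) (V s N)) (V s N)
      (V s 1) (V s N) hT hV hV1 hV (fun _ y => vcup s N y.1 y.2) 1 hf hid).1
    have h' := congrFun (congrFun h (l, 0)) ((m, n), k)
    rw [Matrix.mul_apply, Matrix.mul_apply] at h'
    simp only [Fintype.sum_prod_type, kr, sli_R2, Matrix.one_apply, Finset.univ_unique,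
      Finset.sum_singleton, ite_mul, mul_ite, mul_one, one_mul, mul_zero, zero_mul,
      Finset.sum_ite_eq, Finset.sum_ite_eq', Finset.sum_const_zero, Finset.mem_univ, if_true,
      h3 K s hs (Fin N) (Fin N) (Fin N) (V s N) (V s N) (V s N) hV hV hV] at h'
    have e : ∀ x : Fin N, (∑ a, ∑ b, if l = x then vcup s N a b * ∑ k', Rm s (V s N) (V s N) (x, a)
        (m, k') * Rm s (V s N) (V s N) (k', b) (n, k) else 0) = if l = x then
        ∑ a, ∑ b, vcup s N a b * ∑ k', Rm s (V s N) (V s N) (x, a)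
        (m, k') * Rm s (V s N) (V s N) (k', b) (n, k) else 0 := by
      intro x
      split_ifs with hx
      · rfl
      · simp
    simp only [e, Finset.sum_ite_eq, Finset.mem_univ, if_true] at h'
    rw [← h']
  have B1 : ∀ n l a m : Fin N, ∑ n0, ∑ l0, (∑ m', Rm s (V s N) (V s N) (l, a) (m', l0) *
      Rm s (V s N) (V s N) (n, m') (m, n0)) * vcap s N n0 l0 =
      if a = m then vcap s N n l else 0 := by
    intro n l a m
    have h := (h2 K s hs (Fin N) (Fin 1) (Fin N) (Fin N × Fin N) (V s N) (V s 1)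
      (V s N) (tens s (V s N) (V s N)) hV hV1 hV hT 1 (fun x _ => vcap s N x.1 x.2) hid hv).1
    have h' := congrFun (congrFun h ((n, l), a)) (m, 0)
    rw [Matrix.mul_apply, Matrix.mul_apply] at h'
    simp only [Fintype.sum_prod_type, kr, sli_R1, Matrix.one_apply, Finset.univ_unique,
      Finset.sum_singleton, ite_mul, mul_ite, mul_one, one_mul, mul_zero, zero_mul,
      Finset.sum_ite_eq, Finset.sum_ite_eq', Finset.sum_const_zero, Finset.mem_univ, if_true,
      h4 K s hs (Fin N) (Fin N) (Fin N) (V s N) (V s N) (V s N) hV hV hV] at h'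
    have e : ∀ x : Fin N, (∑ x1, ∑ x2, if x = m then (∑ x3, Rm s (V s N) (V s N) (l, a) (x3, x2) *
        Rm s (V s N) (V s N) (n, x3) (x, x1)) * vcap s N x1 x2 else 0) = if x = m then
        ∑ x1, ∑ x2, (∑ x3, Rm s (V s N) (V s N) (l, a) (x3, x2) *
        Rm s (V s N) (V s N) (n, x3) (x, x1)) * vcap s N x1 x2 else 0 := by
      intro x
      split_ifs with hx
      · rfl
      · simp
    simp only [e, Finset.sum_ite_eq', Finset.mem_univ, if_true] at h'
    rw [h']
  have B2 : ∀ l k a b : Fin N, ∑ m, ∑ n, (∑ k', Rm s (V s N) (V s N) (l, a) (m, k') *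
      Rm s (V s N) (V s N) (k', b) (n, k)) * vcap s N m n =
      if l = k then vcap s N a b else 0 := by
    intro l k a b
    have h := (h2 K s hs (Fin 1) (Fin N) (Fin N × Fin N) (Fin N) (V s 1) (V s N)
      (tens s (V s N) (V s N)) (V s N) hV1 hV hT hV (fun x _ => vcap s N x.1 x.2) 1 hv hid).1
    have h' := congrFun (congrFun h (l, (a, b))) (0, k)
    rw [Matrix.mul_apply, Matrix.mul_apply] at h'
    simp only [Fintype.sum_prod_type, kr, sli_R2, Matrix.one_apply, Finset.univ_unique,
      Finset.sum_singleton, ite_mul, mul_ite, mul_one, one_mul, mul_zero, zero_mul,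
      Finset.sum_ite_eq, Finset.sum_ite_eq', Finset.sum_const_zero, Finset.mem_univ, if_true,
      h3 K s hs (Fin N) (Fin N) (Fin N) (V s N) (V s N) (V s N) hV hV hV] at h'
    rw [h']
  constructor
  · intro e x y z t
    cases e
    · have h := sli_mv i1 (fun c => ∑ n0, Rm s (V s N) (V s N) (x, c.1) (t, n0) * vcap s N n0 c.2)
        (fun c => if c.2 = t then vcap s N x c.1 else 0) (fun c => by
          obtain ⟨c1, c2⟩ := c
          rw [← B1 x c1 c2 t]
          simp only [Fintype.sum_prod_type, Finset.mul_sum, Finset.sum_mul]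
          rw [sli_s3]
          exact sli_c3 fun _ _ _ => by ring) (y, z)
      simp only [Fintype.sum_prod_type, mul_ite, mul_zero, Finset.sum_ite_eq',
        Finset.mem_univ, if_true] at h
      exact h.symm
    · have h := sli_mv i1 (fun c => ∑ n, Rm s (V s N) (V s N) (c.2, z) (n, t) * vcap s N c.1 n)
        (fun c => if c.1 = t then vcap s N c.2 z else 0) (fun c => by
          obtain ⟨c1, c2⟩ := c
          rw [← B2 c1 t c2 z]
          simp only [Fintype.sum_prod_type, Finset.mul_sum, Finset.sum_mul]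
          rw [sli_s2]
          exact sli_c3 fun _ _ _ => by ring) (x, y)
      simp only [Fintype.sum_prod_type, mul_ite, mul_zero] at h
      rw [Finset.sum_comm] at h
      simp only [Finset.sum_ite_eq', Finset.mem_univ, if_true] at h
      exact h
  · intro e x p q r
    cases e
    · have h := sli_vm i2 (fun c => ∑ a, vcup s N a c.2 * Rm s (V s N) (V s N) (x, a) (p, c.1))
        (fun c => if x = c.2 then vcup s N p c.1 else 0) (fun c => by
          obtain ⟨c1, c2⟩ := c
          rw [← A2 x c2 p c1]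
          simp only [Fintype.sum_prod_type, Finset.mul_sum, Finset.sum_mul]
          rw [sli_s3]
          exact sli_c3 fun _ _ _ => by ring) (q, r)
      simp only [Fintype.sum_prod_type, ite_mul, zero_mul, Finset.sum_ite_eq,
        Finset.mem_univ, if_true] at h
      exact h.symm
    · have h := sli_vm i2 (fun c => ∑ l, vcup s N c.1 l * Rm s (V s N) (V s N) (l, x) (c.2, r))
        (fun c => if x = c.1 then vcup s N c.2 r else 0) (fun c => by
          obtain ⟨c1, c2⟩ := c
          rw [← A1 x c1 c2 r]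
          simp only [Fintype.sum_prod_type, Finset.mul_sum, Finset.sum_mul]
          rw [sli_s2]
          exact sli_c3 fun _ _ _ => by ring) (p, q)
      simp only [Fintype.sum_prod_type, ite_mul, zero_mul] at h
      rw [Finset.sum_comm] at h
      simp only [Finset.sum_ite_eq, Finset.mem_univ, if_true] at h
      exact h

end Pool.Agent.WD
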