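import Pool.Agent.WD.StQ
import Pool.Agent.IT.QQnum
import Pool.Agent.IT.QQbin

/-!
# WD, module TOPV: the clasp on the highest weight vector
-/

set_option autoImplicit false

namespace Pool.Agent.WD

open Pool.Agent.LibH11 Pool.Agent.IT Pool.Agent.GK Pool.Agent.TwoBr
open scoped BigOperators

namespace TOPV

variable {K : Type} [Field K] (s : K)

theorem E_ne {N n : ℕ} {a b : Fin N} (h : ((V s N).E ^ n) a b ≠ 0) : (a : ℕ) + n = b := by
  induction n generalizing b with
  | zero =>
    rw [pow_zero, Matrix.one_apply] at h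
    by_cases hab : a = b
    · rw [hab, add_zero]
    · rw [if_neg hab] at h
      exact absurd rfl h
  | succ n ih =>
    rw [pow_succ, Matrix.mul_apply] at h
    obtain ⟨c, -, hc⟩ := Finset.exists_ne_zero_of_sum_ne_zero h
    have h1 := ih (left_ne_zero_of_mul hc)
    have h2 : (c : ℕ) + 1 = b := by
      by_contra h3
      exact right_ne_zero_of_mul hc (if_neg h3)
    omega

theorem F_ne {N n : ℕ} {a b : Fin N} (h : ((V s N).F ^ n) a b ≠ 0) : (a : ℕ) = b + n := by
  induction n generalizing b with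
  | zero =>
    rw [pow_zero, Matrix.one_apply] at h
    by_cases hab : a = b
    · rw [hab, add_zero]
    · rw [if_neg hab] at h
      exact absurd rfl h
  | succ n ih =>
    rw [pow_succ, Matrix.mul_apply] at h
    obtain ⟨c, -, hc⟩ := Finset.exists_ne_zero_of_sum_ne_zero h
    have h1 := ih (left_ne_zero_of_mul hc)
    have h2 : (c : ℕ) = b + 1 := by
      by_contra h3
      exact right_ne_zero_of_mul hc (if_neg h3)
    omega

theorem E_val (N n : ℕ) (hn : n < N) :
    ((V s N).E ^ n) ⟨0, by omega⟩ ⟨n, hn⟩ =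
      ∏ i ∈ Finset.range n, qn s ((N : ℤ) - ((i : ℤ) + 1)) := by
  induction n with
  | zero => simp
  | succ n ih =>
    rw [pow_succ, Matrix.mul_apply, Finset.sum_eq_single (⟨n, by omega⟩ : Fin N), ih (by omega),
      Finset.prod_range_succ]
    · congr 1
      change (if n + 1 = n + 1 then qn s ((N : ℤ) - ((n + 1 : ℕ) : ℤ)) else 0) = _
      rw [if_pos rfl, Nat.cast_succ]
    · intro c _ hc
      have h1 : (V s N).E c ⟨n + 1, hn⟩ = 0 :=
        if_neg fun h => hc (Fin.ext (Nat.succ_injective h))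
      rw [h1, mul_zero]
    · intro h
      exact absurd (Finset.mem_univ _) h

theorem F_val (N n : ℕ) (hn : n < N) :
    ((V s N).F ^ n) ⟨n, hn⟩ ⟨0, by omega⟩ = qfac s n := by
  induction n with
  | zero => simp [qfac]
  | succ n ih =>
    rw [pow_succ', Matrix.mul_apply, Finset.sum_eq_single (⟨n, by omega⟩ : Fin N), ih (by omega),
      QBIN.qfac_succ, mul_comm]
    · congr 1
      change (if n + 1 = n + 1 then qn s ((n + 1 : ℕ) : ℤ) else 0) = _
      rw [if_pos rfl, Nat.cast_succ]
    · intro c _ hc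
      have h1 : (V s N).F ⟨n + 1, hn⟩ c = 0 :=
        if_neg fun h => hc (Fin.ext (Nat.succ_injective h).symm)
      rw [h1, zero_mul]
    · intro h
      exact absurd (Finset.mem_univ _) h

/-- the first label -/
abbrev o (L : ℕ) : Fin (L + 1) := ⟨0, by omega⟩

/-- the last label -/
abbrev t (L : ℕ) : Fin (L + 1) := ⟨L, by omega⟩

theorem E_top (L : ℕ) : ((V s (L + 1)).E ^ L) (o L) (t L) = qfac s L := by
  rw [E_val s (L + 1) L (by omega), qfac,
    ← Finset.prod_range_reflect (fun i : ℕ => qn s ((i : ℤ) + 1)) L]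
  refine Finset.prod_congr rfl fun i hi => ?_
  have h := Finset.mem_range.1 hi
  congr 1
  omega

theorem aq0 : aq s 0 = 1 := by simp [aq, qfac]

theorem aq0' : aq' s 0 = 1 := by simp [aq', qfac]

theorem wo (L : ℕ) : (V s (L + 1)).wt (o L) = L := by
  change ((L + 1 : ℕ) : ℤ) - 1 - 2 * ((0 : ℕ) : ℤ) = L
  push_cast
  ring

theorem wt (L : ℕ) : (V s (L + 1)).wt (t L) = -L := by
  change ((L + 1 : ℕ) : ℤ) - 1 - 2 * ((L : ℕ) : ℤ) = -L
  push_cast
  ring

/-- the first factor, positive crossing -/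
theorem X1 (L : ℕ) (p r : Fin (L + 1)) : (MV s (L + 1)).X true (o L) (t L) p r =
    if p = t L ∧ r = o L then s ^ (-((L : ℤ) * L)) else 0 := by
  change s ^ ((V s (L + 1)).wt (t L) * (V s (L + 1)).wt (o L)) *
    ∑ n ∈ Finset.range (Fintype.card (Fin (L + 1))),
      aq s n * ((V s (L + 1)).E ^ n) (t L) p * ((V s (L + 1)).F ^ n) (o L) r = _
  rw [Fintype.card_fin, Finset.sum_eq_single 0, wo, wt]
  · rw [pow_zero, pow_zero, Matrix.one_apply, Matrix.one_apply, aq0, one_mul]
    by_cases h : p = t L ∧ r = o L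
    · rw [if_pos h.1.symm, if_pos h.2.symm, if_pos h, mul_one, mul_one]
      congr 1
      ring
    · rw [if_neg h]
      rcases not_and_or.1 h with h | h
      · rw [if_neg (Ne.symm h), zero_mul, mul_zero]
      · rw [if_neg (Ne.symm h), mul_zero, mul_zero]
  · intro n _ hn
    by_contra h
    have h1 := E_ne s (right_ne_zero_of_mul (left_ne_zero_of_mul h))
    have h2 := p.2
    change L + n = (p : ℕ) at h1
    omega
  · intro h
    exact absurd (Finset.mem_range.2 (Nat.succ_pos L)) h

/-- the second factor, positive crossing -/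
theorem X2 (L : ℕ) : (MV s (L + 1)).X true (t L) (o L) (t L) (o L) =
    s ^ (-((L : ℤ) * L)) * (aq s L * qfac s L * qfac s L) := by
  change s ^ ((V s (L + 1)).wt (o L) * (V s (L + 1)).wt (t L)) *
    ∑ n ∈ Finset.range (Fintype.card (Fin (L + 1))),
      aq s n * ((V s (L + 1)).E ^ n) (o L) (t L) * ((V s (L + 1)).F ^ n) (t L) (o L) = _
  rw [Fintype.card_fin, Finset.sum_eq_single L, wo, wt, E_top, F_val s (L + 1) L (by omega)]
  · congr 2
    ring
  · intro n _ hn
    by_contra h
    have h1 := E_ne s (right_ne_zero_of_mul (left_ne_zero_of_mul h))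
    change 0 + n = L at h1
    omega
  · intro h
    exact absurd (Finset.mem_range.2 (Nat.lt_succ_self L)) h

/-- the second factor, negative crossing -/
theorem Y1 (L : ℕ) (p r : Fin (L + 1)) : (MV s (L + 1)).X false p r (t L) (o L) =
    if p = o L ∧ r = t L then s ^ ((L : ℤ) * L) else 0 := by
  change (∑ n ∈ Finset.range (Fintype.card (Fin (L + 1))),
      aq' s n * ((V s (L + 1)).E ^ n) p (o L) * ((V s (L + 1)).F ^ n) r (t L)) *
    s ^ (-((V s (L + 1)).wt (o L) * (V s (L + 1)).wt (t L))) = _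
  rw [Fintype.card_fin, Finset.sum_eq_single 0, wo, wt]
  · rw [pow_zero, pow_zero, Matrix.one_apply, Matrix.one_apply, aq0', one_mul]
    by_cases h : p = o L ∧ r = t L
    · rw [if_pos h.1, if_pos h.2, if_pos h, one_mul, one_mul]
      congr 1
      ring
    · rw [if_neg h]
      rcases not_and_or.1 h with h | h
      · rw [if_neg h, zero_mul, zero_mul]
      · rw [if_neg h, mul_zero, zero_mul]
  · intro n _ hn
    by_contra h
    have h1 := E_ne s (right_ne_zero_of_mul (left_ne_zero_of_mul h))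
    change (p : ℕ) + n = 0 at h1
    omega
  · intro h
    exact absurd (Finset.mem_range.2 (Nat.succ_pos L)) h

/-- the first factor, negative crossing -/
theorem Y2 (L : ℕ) : (MV s (L + 1)).X false (o L) (t L) (o L) (t L) =
    aq' s L * qfac s L * qfac s L * s ^ ((L : ℤ) * L) := by
  change (∑ n ∈ Finset.range (Fintype.card (Fin (L + 1))),
      aq' s n * ((V s (L + 1)).E ^ n) (o L) (t L) * ((V s (L + 1)).F ^ n) (t L) (o L)) *
    s ^ (-((V s (L + 1)).wt (t L) * (V s (L + 1)).wt (o L))) = _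
  rw [Fintype.card_fin, Finset.sum_eq_single L, wo, wt, E_top, F_val s (L + 1) L (by omega)]
  · congr 2
    ring
  · intro n _ hn
    by_contra h
    have h1 := E_ne s (right_ne_zero_of_mul (left_ne_zero_of_mul h))
    change 0 + n = L at h1
    omega
  · intro h
    exact absurd (Finset.mem_range.2 (Nat.lt_succ_self L)) h

variable {s}

theorem cup_ne (hs : IT.Gen s) (L : ℕ) : vcup s (L + 1) (t L) (o L) ≠ 0 := by
  have hf := fun n => QBIN.qfac_ne s (qnum K s hs).2.1 n
  rw [vcup, if_pos (by simp)]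
  refine mul_ne_zero (mul_ne_zero (pow_ne_zero _ (neg_ne_zero.2 one_ne_zero))
    (zpow_ne_zero _ hs.1)) (div_ne_zero (hf _) (mul_ne_zero (hf _) (hf _)))

/-- the value of the clasp -/
theorem val (hs : IT.Gen s) (L : ℕ) (e : Bool) :
    clasp (MV s (L + 1)) e (fun _ => o L) (fun _ => o L) =
      ∑ p, ∑ r, (MV s (L + 1)).X e (o L) (t L) p r * (MV s (L + 1)).X e p r (t L) (o L) := by
  have hz : ∀ c : Fin (L + 1), c ≠ t L → vcup s (L + 1) c (o L) = 0 := fun c hc => by
    rw [vcup, if_neg]
    intro h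
    apply hc
    apply Fin.ext
    change (c : ℕ) + 0 + 1 = L + 1 at h
    change (c : ℕ) = L
    omega
  have hz' : ∀ c : Fin (L + 1), c ≠ t L → vcap s (L + 1) (o L) c = 0 := fun c hc => by
    rw [vcap, if_neg]
    intro h
    apply hc
    apply Fin.ext
    change 0 + (c : ℕ) + 1 = L + 1 at h
    change (c : ℕ) = L
    omega
  have h1 : vcap s (L + 1) (o L) (t L) = (vcup s (L + 1) (t L) (o L))⁻¹ := by
    rw [vcap, if_pos]
    change 0 + L + 1 = L + 1
    omega
  change ∑ c, ∑ z, vcup s (L + 1) c (o L) *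
    (∑ p, ∑ r, (MV s (L + 1)).X e (o L) c p r * (MV s (L + 1)).X e p r z (o L)) *
      vcap s (L + 1) (o L) z = _
  rw [Finset.sum_eq_single (t L), Finset.sum_eq_single (t L), h1]
  · rw [mul_comm, ← mul_assoc, inv_mul_cancel₀ (cup_ne hs L), one_mul]
  · intro c _ hc
    rw [hz' c hc, mul_zero]
  · intro h
    exact absurd (Finset.mem_univ _) h
  · intro c _ hc
    refine Finset.sum_eq_zero fun z _ => ?_
    rw [hz c hc, zero_mul, zero_mul]
  · intro h
    exact absurd (Finset.mem_univ _) h

end TOPV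

open TOPV in
theorem t_TOPV : TOPV_Stmt := by
  intro K _ s hs N hN e
  obtain ⟨L, rfl⟩ : ∃ L, N = L + 1 := ⟨N - 1, by omega⟩
  have hf : qfac s L ≠ 0 := QBIN.qfac_ne s (qnum K s hs).2.1 L
  have h := val hs L e
  refine h.trans ?_
  cases e with
  | true =>
    rw [Finset.sum_eq_single (t L), Finset.sum_eq_single (o L), X1, if_pos ⟨rfl, rfl⟩, X2]
    · rw [gtop, if_pos rfl, aq, Nat.add_sub_cancel]
      have e1 : (-(((L + 1 : ℕ) : ℤ) * (((L + 1 : ℕ) : ℤ) - 1))) =
          -((L : ℤ) * L) + (-((L : ℤ) * L) + (L : ℤ) * (L - 1)) := by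
        push_cast
        ring
      rw [e1, zpow_add₀ hs.1, zpow_add₀ hs.1]
      field_simp
    · intro r _ hr
      rw [X1, if_neg (fun h => hr h.2), zero_mul]
    · intro h
      exact absurd (Finset.mem_univ _) h
    · intro p _ hp
      refine Finset.sum_eq_zero fun r _ => ?_
      rw [X1, if_neg (fun h => hp h.1), zero_mul]
    · intro h
      exact absurd (Finset.mem_univ _) h
  | false =>
    rw [Finset.sum_eq_single (o L), Finset.sum_eq_single (t L), Y1, if_pos ⟨rfl, rfl⟩, Y2]
    · rw [gtop, if_neg Bool.false_ne_true, aq', Nat.add_sub_cancel]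
      have e1 : (((L + 1 : ℕ) : ℤ) * (((L + 1 : ℕ) : ℤ) - 1)) =
          (L : ℤ) * L + ((L : ℤ) * L + -((L : ℤ) * (L - 1))) := by
        push_cast
        ring
      rw [e1, zpow_add₀ hs.1, zpow_add₀ hs.1]
      field_simp
    · intro r _ hr
      rw [Y1, if_neg (fun h => hr h.2), mul_zero]
    · intro h
      exact absurd (Finset.mem_univ _) h
    · intro p _ hp
      refine Finset.sum_eq_zero fun r _ => ?_
      rw [Y1, if_neg (fun h => hp h.1), mul_zero]
    · intro h
      exact absurd (Finset.mem_univ _) h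

end Pool.Agent.WD
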