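import Pool.Agent.WD.StA

/-!
# WD, module TORF: the numbers of torus knots
-/

namespace Pool.Agent.WD

theorem t_TORF : TORF_Stmt := by
  intro p q hp hq hg
  obtain ⟨m, hm⟩ : ∃ m : ℕ, m = q.natAbs := ⟨_, rfl⟩
  have hab : |q| = (m : ℤ) := by rw [hm, Int.abs_eq_natAbs]
  have hm2 : 2 ≤ m := by omega
  have hq2 : (q : ℚ) ^ 2 = (m : ℚ) ^ 2 := by
    have h : (m : ℤ) ^ 2 = q ^ 2 := by rw [hm, Int.natAbs_sq]
    exact_mod_cast h.symm
  have hg' : Nat.gcd p m = 1 := by
    rw [hm]
    simpa [Int.gcd] using hg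
  obtain ⟨P, hP⟩ : ∃ P : ℚ, P = (p : ℚ) ^ 2 := ⟨_, rfl⟩
  obtain ⟨Q, hQ⟩ : ∃ Q : ℚ, Q = (m : ℚ) ^ 2 := ⟨_, rfl⟩
  have hpQ : (2 : ℚ) ≤ p := by exact_mod_cast hp
  have hmQ : (2 : ℚ) ≤ m := by exact_mod_cast hm2
  have hP4 : 4 ≤ P := by rw [hP]; nlinarith
  have hQ4 : 4 ≤ Q := by rw [hQ]; nlinarith
  have eA : tA p q = (P - 1) * (Q - 1) := by
    unfold tA
    rw [hq2, hP, hQ]
  have eB : tB p q = (P ^ 2 - 1) * (Q ^ 2 - 1) := by
    unfold tB
    have h4 : (q : ℚ) ^ 4 = ((q : ℚ) ^ 2) ^ 2 := by ring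
    rw [h4, hq2, hP, hQ]
    ring
  have h1 : 0 < (P - 1) * (Q - 1) := mul_pos (by linarith) (by linarith)
  have ef : fAB (tA p q) (tB p q) =
      (P - 1) * (Q - 1) * (3 * P * Q - 7 * P - 7 * Q - 17) := by
    unfold fAB
    rw [eA, eB]
    ring
  refine ⟨by rw [eA]; exact h1, ?_⟩
  rw [ef, hab]
  by_cases hp2 : p = 2
  · by_cases hm3 : m = 3
    · left
      exact ⟨hp2, by rw [hm3]; norm_num⟩
    · right
      right
      have hm5 : 5 ≤ m := by
        have h2 : m ≠ 2 := by
          rintro h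
          rw [hp2, h] at hg'
          norm_num at hg'
        have h4 : m ≠ 4 := by
          rintro h
          rw [hp2, h] at hg'
          norm_num at hg'
        omega
      have hmQ5 : (5 : ℚ) ≤ m := by exact_mod_cast hm5
      have hQ25 : 25 ≤ Q := by rw [hQ]; nlinarith
      have hPe : P = 4 := by rw [hP, hp2]; norm_num
      apply mul_pos h1
      rw [hPe]
      linarith
  · by_cases hm2' : m = 2
    · by_cases hp3 : p = 3
      · right
        left
        exact ⟨hp3, by rw [hm2']; norm_num⟩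
      · right
        right
        have hp5 : 5 ≤ p := by
          have h4 : p ≠ 4 := by
            rintro h
            rw [hm2', h] at hg'
            norm_num at hg'
          omega
        have hpQ5 : (5 : ℚ) ≤ p := by exact_mod_cast hp5
        have hP25 : 25 ≤ P := by rw [hP]; nlinarith
        have hQe : Q = 4 := by rw [hQ, hm2']; norm_num
        apply mul_pos h1
        rw [hQe]
        linarith
    · right
      right
      have hp3 : 3 ≤ p := by omega
      have hm3 : 3 ≤ m := by omega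
      have hpQ3 : (3 : ℚ) ≤ p := by exact_mod_cast hp3
      have hmQ3 : (3 : ℚ) ≤ m := by exact_mod_cast hm3
      have hP9 : 9 ≤ P := by rw [hP]; nlinarith
      have hQ9 : 9 ≤ Q := by rw [hQ]; nlinarith
      apply mul_pos h1
      have e : 3 * P * Q - 7 * P - 7 * Q - 17 =
          3 * ((P - 9) * (Q - 9)) + 20 * (P - 9) + 20 * (Q - 9) + 100 := by ring
      rw [e]
      have h3 : 0 ≤ (P - 9) * (Q - 9) := mul_nonneg (by linarith) (by linarith)
      linarith

end Pool.Agent.WD
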