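import Pool.Agent.WD.StQ

/-!
# Whitehead doubles of graph knots: the state sum of a closed braid
-/

set_option autoImplicit false

namespace Pool.Agent.WD

open Pool.Agent.LibH11 Pool.Agent.IT Pool.Agent.TwoBr
open Pool.Agent.LibH11.Sliced (Diag Kind cnt braidWord)
open scoped BigOperators

namespace TRCx

variable {A ι : Type} [CommRing A] [Fintype ι]

theorem sum_cons (n : ℕ) (f : (Fin (n + 1) → ι) → A) :
    ∑ x, f x = ∑ a, ∑ x : Fin n → ι, f (Fin.cons a x : Fin (n + 1) → ι) := by
  rw [← Fintype.sum_prod_type'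
    (f := fun (a : ι) (x : Fin n → ι) => f (Fin.cons a x : Fin (n + 1) → ι))]
  exact (Fintype.sum_equiv (Fin.consEquiv fun _ => ι) _ _ fun p => rfl).symm

omit [Fintype ι] in
theorem ofFn_cons (n : ℕ) (a : ι) (x : Fin n → ι) :
    List.ofFn (Fin.cons a x : Fin (n + 1) → ι) = a :: List.ofFn x := by
  rw [List.ofFn_succ]
  simp only [Fin.cons_zero, Fin.cons_succ]

/-- Nested minima. -/
theorem cups_val (M : Mats A ι) : ∀ (n : ℕ) (F : List ι → A) (a : ι) (l : List ι),
    M.val (cups n) F (a :: l) = ∑ x : Fin n → ι, ∑ y : Fin n → ι, (∏ i, M.cup (x i) (y i)) *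
      F (a :: (List.ofFn x ++ ((List.ofFn y).reverse ++ l))) := by
  intro n
  induction n with
  | zero =>
    intro F a l
    simp [cups_zero, Mats.val]
  | succ n ih =>
    intro F a l
    rw [cups_cons]
    have h1 : M.val ((Kind.cup, 1) :: TwoBr.sh 1 (cups n)) F (a :: l) =
        ∑ b, ∑ c, M.cup b c * M.val (shD (cups n)) F (a :: b :: c :: l) := rfl
    rw [h1, sum_cons]
    refine Finset.sum_congr rfl fun b _ => ?_
    have h2 : ∀ x : Fin n → ι, (∑ y : Fin (n + 1) → ι,
        (∏ i, M.cup ((Fin.cons b x : Fin (n + 1) → ι) i) (y i)) *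
          F (a :: (List.ofFn (Fin.cons b x : Fin (n + 1) → ι) ++ ((List.ofFn y).reverse ++ l)))) =
        ∑ c, ∑ y : Fin n → ι, M.cup b c * ((∏ i, M.cup (x i) (y i)) *
          F (a :: b :: (List.ofFn x ++ ((List.ofFn y).reverse ++ (c :: l))))) := by
      intro x
      rw [sum_cons]
      refine Finset.sum_congr rfl fun c _ => Finset.sum_congr rfl fun y _ => ?_
      rw [Fin.prod_univ_succ, ofFn_cons, ofFn_cons]
      simp only [Fin.cons_zero, Fin.cons_succ, List.reverse_cons, List.append_assoc,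
        List.cons_append, List.nil_append, mul_assoc]
    simp only [h2]
    rw [Finset.sum_comm]
    refine Finset.sum_congr rfl fun c _ => ?_
    rw [M.val_sh, ih, Finset.mul_sum]
    refine Finset.sum_congr rfl fun x _ => ?_
    rw [Finset.mul_sum]

/-- Nested maxima. -/
theorem caps_val (M : Mats A ι) : ∀ (n : ℕ) (F : List ι → A) (a : ι) (x y : Fin n → ι)
    (l : List ι), M.val (caps n) F (a :: (List.ofFn x ++ ((List.ofFn y).reverse ++ l))) =
      (∏ i, M.cap (x i) (y i)) * F (a :: l) := by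
  intro n
  induction n with
  | zero =>
    intro F a x y l
    simp [caps_zero, Mats.val]
  | succ n ih =>
    intro F a x y l
    rw [caps_snoc, M.val_append, List.ofFn_succ, List.ofFn_succ, List.reverse_cons,
      List.append_assoc, List.cons_append, List.singleton_append]
    have h1 : M.val (TwoBr.sh 1 (caps n)) (M.val [(Kind.cap, 1)] F)
        (a :: x 0 :: (List.ofFn (fun i : Fin n => x i.succ) ++
          ((List.ofFn (fun i : Fin n => y i.succ)).reverse ++ (y 0 :: l)))) =
        M.val (caps n) (fun l' => M.val [(Kind.cap, 1)] F (a :: l'))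
        (x 0 :: (List.ofFn (fun i : Fin n => x i.succ) ++
          ((List.ofFn (fun i : Fin n => y i.succ)).reverse ++ (y 0 :: l)))) :=
      M.val_sh (caps n) _ _ _
    rw [h1, ih, Fin.prod_univ_succ]
    have h2 : M.val [(Kind.cap, 1)] F (a :: x 0 :: y 0 :: l) = M.cap (x 0) (y 0) * F (a :: l) := rfl
    rw [h2]
    ring

theorem pair [DecidableEq ι] (M : Mats A ι) (ε : A) (κ : ι → A) (h : Piv M ε κ) (n : ℕ)
    (x x' : Fin n → ι) :
    ∑ y : Fin n → ι, (∏ i, M.cup (x i) (y i)) * (∏ i, M.cap (x' i) (y i)) =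
      if x = x' then ε ^ n * ∏ i, κ (x i) else 0 := by
  have h1 : ∀ y : Fin n → ι, (∏ i, M.cup (x i) (y i)) * (∏ i, M.cap (x' i) (y i)) =
      ∏ i, M.cup (x i) (y i) * M.cap (x' i) (y i) := fun y => Finset.prod_mul_distrib.symm
  simp only [h1]
  have h2 := Finset.prod_univ_sum (fun _ : Fin n => (Finset.univ : Finset ι))
    (fun i b => M.cup (x i) b * M.cap (x' i) b)
  rw [Fintype.piFinset_univ] at h2
  rw [← h2]
  have h3 : ∀ i : Fin n, ∑ b, M.cup (x i) b * M.cap (x' i) b =
      if x i = x' i then ε * κ (x i) else 0 := fun i => h (x i) (x' i)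
  simp only [h3]
  by_cases hx : x = x'
  · rw [if_pos hx, hx]
    simp only [if_true]
    rw [Finset.prod_mul_distrib, Finset.prod_const, Finset.card_univ, Fintype.card_fin]
  · rw [if_neg hx]
    obtain ⟨i, hi⟩ := Function.ne_iff.1 hx
    exact Finset.prod_eq_zero (Finset.mem_univ i) (if_neg hi)

end TRCx

/-- TRC. -/
theorem t_TRC (hVOP : VOP_Stmt) (_ : VRI_Stmt) : TRC_Stmt := by
  intro A _ ι _ _ M ε κ hP n w hw F a
  unfold cl
  rw [M.val_append, M.val_append, TRCx.cups_val]
  have h1 : ∀ x y : Fin n → ι, M.val (braidWord w) (M.val (caps n) F)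
      (a :: (List.ofFn x ++ ((List.ofFn y).reverse ++ []))) =
      ∑ c, ∑ x' : Fin n → ι, op (rdM M κ) n w (Fin.cons a x : Fin (n + 1) → ι)
        (Fin.cons c x' : Fin (n + 1) → ι) * ((∏ i, M.cap (x' i) (y i)) * F [c]) := by
    intro x y
    have h2 := hVOP A ι M κ n w hw (M.val (caps n) F) (Fin.cons a x : Fin (n + 1) → ι)
      ((List.ofFn y).reverse ++ [])
    rw [TRCx.ofFn_cons, List.cons_append] at h2
    rw [h2, TRCx.sum_cons]
    refine Finset.sum_congr rfl fun c _ => Finset.sum_congr rfl fun x' _ => ?_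
    rw [TRCx.ofFn_cons, List.cons_append, TRCx.caps_val]
  simp only [h1]
  have h3 : ∀ x : Fin n → ι, (∑ y : Fin n → ι, (∏ i, M.cup (x i) (y i)) *
      ∑ c, ∑ x' : Fin n → ι, op (rdM M κ) n w (Fin.cons a x : Fin (n + 1) → ι)
        (Fin.cons c x' : Fin (n + 1) → ι) * ((∏ i, M.cap (x' i) (y i)) * F [c])) =
      ∑ c, op (rdM M κ) n w (Fin.cons a x : Fin (n + 1) → ι) (Fin.cons c x : Fin (n + 1) → ι) *
        ((ε ^ n * ∏ i, κ (x i)) * F [c]) := by
    intro x
    simp only [Finset.mul_sum]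
    rw [Finset.sum_comm]
    refine Finset.sum_congr rfl fun c _ => ?_
    rw [Finset.sum_comm]
    have h4 : ∀ x' : Fin n → ι, (∑ y : Fin n → ι, (∏ i, M.cup (x i) (y i)) *
        (op (rdM M κ) n w (Fin.cons a x : Fin (n + 1) → ι) (Fin.cons c x' : Fin (n + 1) → ι) *
          ((∏ i, M.cap (x' i) (y i)) * F [c]))) =
        if x = x' then
          op (rdM M κ) n w (Fin.cons a x : Fin (n + 1) → ι) (Fin.cons c x' : Fin (n + 1) → ι) *
            ((ε ^ n * ∏ i, κ (x i)) * F [c]) else 0 := by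
      intro x'
      have h5 : ∀ y : Fin n → ι, (∏ i, M.cup (x i) (y i)) *
          (op (rdM M κ) n w (Fin.cons a x : Fin (n + 1) → ι) (Fin.cons c x' : Fin (n + 1) → ι) *
            ((∏ i, M.cap (x' i) (y i)) * F [c])) =
          op (rdM M κ) n w (Fin.cons a x : Fin (n + 1) → ι) (Fin.cons c x' : Fin (n + 1) → ι) *
            F [c] * ((∏ i, M.cup (x i) (y i)) * (∏ i, M.cap (x' i) (y i))) := by
        intro y
        ring
      simp only [h5]
      rw [← Finset.mul_sum, TRCx.pair M ε κ hP]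
      split_ifs with hx
      · ring
      · ring
    simp only [h4]
    rw [Finset.sum_ite_eq, if_pos (Finset.mem_univ _)]
  simp only [h3]
  rw [Finset.sum_comm, Finset.mul_sum]
  refine Finset.sum_congr rfl fun c _ => ?_
  unfold ptr
  rw [Finset.sum_mul, Finset.mul_sum]
  refine Finset.sum_congr rfl fun x _ => ?_
  show _ = ε ^ n * (op (rdM M κ) n w (Fin.cons a x : Fin (n + 1) → ι)
    (Fin.cons c x : Fin (n + 1) → ι) * (∏ i, κ (x i)) * F [c])
  ring

end Pool.Agent.WD
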