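import Pool.Agent.WD.StA

/-!
# WD, module TRIA: two doubles with the same clasp
-/

set_option autoImplicit false

namespace Pool.Agent.WD

open Pool.Agent.LibH11 Pool.Agent.IT Pool.Agent.GK
open scoped BigOperators
open PowerSeries

namespace TRIAAux

theorem coeff0_E (a : ℚ) : coeff 0 (E a) = 1 := by
  unfold E
  rw [coeff_mk]
  norm_num

theorem coeff1_E (a : ℚ) : coeff 1 (E a) = a := by
  unfold E
  rw [coeff_mk]
  norm_num

theorem E_ne (a : ℚ) : E a ≠ 0 := by
  intro h
  have h1 := coeff0_E a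
  rw [h] at h1
  simp at h1

theorem coeff1_mul (f g : ℚ⟦X⟧) :
    coeff 1 (f * g) = coeff 0 f * coeff 1 g + coeff 1 f * coeff 0 g := by
  rw [coeff_mul]
  rw [show (1 : ℕ) = 0 + 1 from rfl, Finset.Nat.antidiagonal_succ]
  simp

theorem toK_inj {f g : ℚ⟦X⟧} (h : toK f = toK g) : f = g :=
  IsFractionRing.injective ℚ⟦X⟧ KQ h

end TRIAAux

open TRIAAux in
theorem t_TRIA : TRIA_Stmt := by
  intro Cf t t' J J' hC hJ hJ' h3 h3' h31 h31' h
  have key : ∀ j : ℕ, (∀ i < j, Cf (j + 1) i * toK (E (2 * i * (i + 1) * t) * J (2 * i + 1)) =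
      Cf (j + 1) i * toK (E (2 * i * (i + 1) * t') * J' (2 * i + 1))) →
      E (2 * j * (j + 1) * t) * J (2 * j + 1) = E (2 * j * (j + 1) * t') * J' (2 * j + 1) := by
    intro j hj
    have h1 := h (j + 1) (Nat.succ_le_succ (Nat.zero_le j))
    rw [Finset.sum_range_succ, Finset.sum_range_succ] at h1
    have h2 : (∑ x ∈ Finset.range j, Cf (j + 1) x *
        toK (E (2 * x * (x + 1) * t) * J (2 * x + 1))) =
        ∑ x ∈ Finset.range j, Cf (j + 1) x *
          toK (E (2 * x * (x + 1) * t') * J' (2 * x + 1)) :=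
      Finset.sum_congr rfl fun i hi => hj i (Finset.mem_range.1 hi)
    rw [h2] at h1
    exact toK_inj (mul_left_cancel₀ (hC j) (add_left_cancel h1))
  have ht : t = t' := by
    have h1 := key 1 (by
      intro i hi
      have hi0 : i = 0 := by omega
      subst hi0
      simp [hJ, hJ'])
    have h2 := congrArg (coeff 1) h1
    rw [coeff1_mul, coeff1_mul, coeff0_E, coeff0_E, coeff1_E, coeff1_E] at h2
    have e3 : 2 * 1 + 1 = 3 := rfl
    rw [e3, h3, h3', h31, h31'] at h2
    have h4 : (t : ℚ) = (t' : ℚ) := by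
      push_cast at h2
      linarith
    exact_mod_cast h4
  refine ⟨ht, ?_⟩
  subst ht
  intro j
  induction j using Nat.strong_induction_on with
  | _ j ih =>
    have h1 := key j (fun i hi => by rw [ih i hi])
    exact mul_left_cancel₀ (E_ne _) h1

end Pool.Agent.WD
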