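import Pool.Agent.WD.StQ
import Pool.Agent.IT.Prm

/-!
# Project WD, module TYP: labels with types
-/

set_option autoImplicit false

namespace Pool.Agent.WD

open Pool.Agent.LibH11 Pool.Agent.IT Pool.Agent.GK Pool.Agent.TwoBr
open scoped BigOperators

namespace TYP

theorem perm_gen {N : ℕ} (y : ℕ × Bool) (hy : y.1 < N) :
    perm (gen N y) = Equiv.swap (⟨y.1, Nat.lt_succ_of_lt hy⟩ : Fin (N + 1))
      ⟨y.1 + 1, Nat.succ_lt_succ hy⟩ := by
  rcases y with ⟨i, e⟩
  simp only at hy
  have h2 : perm (gen N (i, true)) =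
      Equiv.swap (⟨i, Nat.lt_succ_of_lt hy⟩ : Fin (N + 1)) ⟨i + 1, Nat.succ_lt_succ hy⟩ := by
    rw [gen_true hy, LibH11.perm_sg]
    rfl
  cases e
  · rw [gen_false, map_inv, h2, Equiv.swap_inv]
  · exact h2

section

variable {A : Type} [CommRing A] {L τ ι : Type} [Fintype L] [DecidableEq L] [Fintype ι]
  [DecidableEq ι]

theorem op_cons (T : RData A L) (n : ℕ) (y : ℕ × Bool) (w : Word) :
    op T n (y :: w) = opl T n y * op T n w := by
  unfold op
  rw [List.map_cons, List.prod_cons]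

omit [Fintype L] [DecidableEq L] in
theorem atp_ty {P : Type} [DecidableEq P] {Q : Matrix (L × L) (L × L) A} {ty : L → τ}
    (hQ : ∀ x y, Q x y ≠ 0 → ty x.1 = ty y.2 ∧ ty x.2 = ty y.1) (a b : P) (s t : P → L)
    (h : atp Q a b s t ≠ 0) : ∀ z, ty (s (Equiv.swap a b z)) = ty (t z) := by
  unfold atp at h
  split_ifs at h with h1
  · obtain ⟨h2, h3⟩ := hQ _ _ h
    intro z
    by_cases hza : z = a
    · rw [hza, Equiv.swap_apply_left]
      exact h3
    · by_cases hzb : z = b
      · rw [hzb, Equiv.swap_apply_right]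
        exact h2
      · rw [Equiv.swap_apply_of_ne_of_ne hza hzb, h1 z hza hzb]
  · exact absurd rfl h

/-- the types are transported along the strands -/
theorem op_ty {T : RData A L} {ty : L → τ}
    (hR : ∀ x y, T.R x y ≠ 0 → ty x.1 = ty y.2 ∧ ty x.2 = ty y.1)
    (hR' : ∀ x y, T.R' x y ≠ 0 → ty x.1 = ty y.2 ∧ ty x.2 = ty y.1) (n : ℕ) :
    ∀ (w : Word), Bd n w → ∀ (s t : Fin (n + 1) → L), op T n w s t ≠ 0 →
      ∀ z, ty (s (perm (ev n w) z)) = ty (t z) := by
  intro w
  induction w with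
  | nil =>
    intro _ s t h z
    have h1 : op T n [] s t = (1 : Matrix (Fin (n + 1) → L) (Fin (n + 1) → L) A) s t := rfl
    rw [h1, Matrix.one_apply] at h
    split_ifs at h with h2
    · rw [ev_nil, map_one, Equiv.Perm.one_apply, h2]
    · exact absurd rfl h
  | cons y w ih =>
    intro hw s t h z
    have hw' : Bd n w := fun x hx => hw x (List.mem_cons_of_mem _ hx)
    have hy : y.1 < n := hw y List.mem_cons_self
    rw [op_cons, Matrix.mul_apply] at h
    obtain ⟨u, -, hu⟩ := Finset.exists_ne_zero_of_sum_ne_zero h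
    have hu1 : opl T n y s u ≠ 0 := left_ne_zero_of_mul hu
    have hu2 : op T n w u t ≠ 0 := right_ne_zero_of_mul hu
    unfold opl at hu1
    rw [dif_pos hy] at hu1
    have h3 := atp_ty (ty := ty) (by
      intro x x' hx
      split_ifs at hx with h4
      · exact hR _ _ hx
      · exact hR' _ _ hx) _ _ s u hu1
    rw [ev_cons, map_mul, Equiv.Perm.mul_apply, perm_gen y hy, h3, ih hw' u t hu2]

omit [Fintype L] [Fintype ι] in
theorem atp_j {P : Type} {Q' : Matrix (L × L) (L × L) A} {Q : Matrix (ι × ι) (ι × ι) A}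
    {j : ι → L} (hj : Function.Injective j) {c : A}
    (hQ : ∀ a b a' b', Q' (j a, j b) (j a', j b') = c * Q (a, b) (a', b')) (x y : P)
    (s t : P → ι) : atp Q' x y (j ∘ s) (j ∘ t) = c * atp Q x y s t := by
  unfold atp
  by_cases h : ∀ z, z ≠ x → z ≠ y → s z = t z
  · have h' : ∀ z, z ≠ x → z ≠ y → (j ∘ s) z = (j ∘ t) z :=
      fun z h1 h2 => congrArg j (h z h1 h2)
    rw [if_pos h, if_pos h']
    exact hQ _ _ _ _
  · have h' : ¬ ∀ z, z ≠ x → z ≠ y → (j ∘ s) z = (j ∘ t) z :=
      fun h3 => h (fun z h1 h2 => hj (h3 z h1 h2))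
    rw [if_neg h, if_neg h', mul_zero]

omit [DecidableEq ι] in
/-- the sum over the labels in the image of `j` -/
theorem sum_j {P : Type} [Fintype P] [DecidableEq P] {j : ι → L} (hj : Function.Injective j)
    (F : (P → L) → A) (hF : ∀ u, (∃ z, ∀ a, u z ≠ j a) → F u = 0) :
    ∑ u : P → L, F u = ∑ u : P → ι, F (j ∘ u) := by
  symm
  refine Finset.sum_of_injOn (fun u : P → ι => j ∘ u) ?_ ?_ ?_ ?_
  · intro u _ v _ h
    funext z
    exact hj (congrFun h z)
  · intro u _
    exact Finset.mem_coe.2 (Finset.mem_univ _)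
  · intro u _ hu
    apply hF
    by_contra hcon
    apply hu
    have h1 : ∀ z, ∃ a, u z = j a := by
      intro z
      by_contra h2
      exact hcon ⟨z, fun a e => h2 ⟨a, e⟩⟩
    choose v hv using h1
    exact ⟨v, Finset.mem_coe.2 (Finset.mem_univ _), funext fun z => (hv z).symm⟩
  · intro u _
    rfl

theorem op_j {T' : RData A L} {T : RData A ι} {ty : L → τ} {j : ι → L} {t0 : τ} {χ : Bool → A}
    (hj : Function.Injective j) (ht : ∀ l, ty l = t0 ↔ ∃ a, l = j a)
    (hR : ∀ x y, T'.R x y ≠ 0 → ty x.1 = ty y.2 ∧ ty x.2 = ty y.1)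
    (hR' : ∀ x y, T'.R' x y ≠ 0 → ty x.1 = ty y.2 ∧ ty x.2 = ty y.1)
    (hc : ∀ a b c d, T'.R (j a, j b) (j c, j d) = χ true * T.R (a, b) (c, d))
    (hc' : ∀ a b c d, T'.R' (j a, j b) (j c, j d) = χ false * T.R' (a, b) (c, d)) (n : ℕ) :
    ∀ (w : Word), Bd n w → ∀ (s t : Fin (n + 1) → ι),
      op T' n w (j ∘ s) (j ∘ t) = (w.map fun p => χ p.2).prod * op T n w s t := by
  intro w
  induction w with
  | nil =>
    intro _ s t
    have h1 : op T' n [] (j ∘ s) (j ∘ t) =
      (1 : Matrix (Fin (n + 1) → L) (Fin (n + 1) → L) A) (j ∘ s) (j ∘ t) := rfl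
    have h2 : op T n [] s t = (1 : Matrix (Fin (n + 1) → ι) (Fin (n + 1) → ι) A) s t := rfl
    rw [h1, h2, Matrix.one_apply, Matrix.one_apply, List.map_nil, List.prod_nil, one_mul]
    by_cases h : s = t
    · rw [if_pos h, if_pos (by rw [h])]
    · have h' : ¬ j ∘ s = j ∘ t := fun h3 => h (funext fun z => hj (congrFun h3 z))
      rw [if_neg h, if_neg h']
  | cons y w ih =>
    intro hw s t
    have hw' : Bd n w := fun x hx => hw x (List.mem_cons_of_mem _ hx)
    have hy : y.1 < n := hw y List.mem_cons_self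
    rw [op_cons, op_cons, Matrix.mul_apply, Matrix.mul_apply, sum_j hj, List.map_cons,
      List.prod_cons, Finset.mul_sum]
    · refine Finset.sum_congr rfl fun u _ => ?_
      rw [ih hw' u t]
      have h1 : opl T' n y (j ∘ s) (j ∘ u) = χ y.2 * opl T n y s u := by
        unfold opl
        rw [dif_pos hy, dif_pos hy]
        rcases y with ⟨i, e⟩
        cases e
        · exact atp_j hj hc' _ _ s u
        · exact atp_j hj hc _ _ s u
      rw [h1]
      ring
    · rintro u ⟨z, hz⟩
      by_contra hne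
      have hu2 : op T' n w u (j ∘ t) ≠ 0 := right_ne_zero_of_mul hne
      have h3 := op_ty hR hR' n w hw' u (j ∘ t) hu2
      obtain ⟨z', hz'⟩ := (perm (ev n w)).surjective z
      have h4 := h3 z'
      rw [hz'] at h4
      have h5 : ty ((j ∘ t) z') = t0 := (ht _).2 ⟨t z', rfl⟩
      obtain ⟨a, ha⟩ := (ht _).1 (h4.trans h5)
      exact hz a ha

omit [Fintype L] [DecidableEq L] in
/-- the types on the two sides of the closed strands -/
theorem ty_zero {n : ℕ} {ty : L → τ} [DecidableEq τ] {t0 : τ} (π : Equiv.Perm (Fin (n + 1)))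
    (s t : Fin (n + 1) → L)
    (h : ∀ z, ty (s (π z)) = ty (t z)) (hst : ∀ z, z ≠ 0 → s z = t z) (h0 : ty (s 0) = t0) :
    ty (t 0) = t0 := by
  by_contra hne
  have h1 : (Finset.univ.filter fun z => ty (t z) = t0).card =
      (Finset.univ.filter fun z => ty (s z) = t0).card := by
    refine Finset.card_bij (fun z _ => π z) ?_ ?_ ?_
    · intro z hz
      rw [Finset.mem_filter] at hz ⊢
      exact ⟨Finset.mem_univ _, (h z).trans hz.2⟩
    · intro z _ z' _ e
      exact π.injective e
    · intro z hz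
      rw [Finset.mem_filter] at hz
      refine ⟨π.symm z, ?_, π.apply_symm_apply z⟩
      rw [Finset.mem_filter]
      refine ⟨Finset.mem_univ _, ?_⟩
      rw [← h, π.apply_symm_apply]
      exact hz.2
  have h2 : (Finset.univ.filter fun z => ty (t z) = t0) ⊂
      (Finset.univ.filter fun z => ty (s z) = t0) := by
    rw [Finset.ssubset_iff_of_subset]
    · refine ⟨0, ?_, ?_⟩
      · rw [Finset.mem_filter]
        exact ⟨Finset.mem_univ _, h0⟩
      · rw [Finset.mem_filter]
        exact fun h3 => hne h3.2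
    · intro z hz
      rw [Finset.mem_filter] at hz ⊢
      refine ⟨Finset.mem_univ _, ?_⟩
      by_cases hz0 : z = 0
      · subst hz0
        exact absurd hz.2 hne
      · rw [hst z hz0]
        exact hz.2
  exact absurd h1 (Finset.card_lt_card h2).ne

/-- a function that is invariant under one cycle is constant -/
theorem cycle_const {n : ℕ} {f : Fin (n + 1) → τ} (π : Equiv.Perm (Fin (n + 1)))
    (hπ : ∀ x y, π.SameCycle x y) (h : ∀ z, f (π z) = f z) (z : Fin (n + 1)) : f z = f 0 := by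
  obtain ⟨k, -, hk⟩ := (hπ 0 z).exists_pow_eq'
  rw [← hk]
  clear hk
  induction k with
  | zero => rw [pow_zero, Equiv.Perm.one_apply]
  | succ k ih => rw [pow_succ', Equiv.Perm.mul_apply, h, ih]

end

end TYP

theorem t_TYP : TYP_Stmt := by
  intro A _ L τ ι _ _ _ _ _ T' T ty j t0 χ hj ht hR hR' hc hc' hκ n w hw hk
  constructor
  · intro a l hl
    unfold ptr
    refine Finset.sum_eq_zero fun x _ => ?_
    by_contra hne
    have h1 := left_ne_zero_of_mul hne
    have h2 := TYP.op_ty hR hR' n w hw _ _ h1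
    have h3 := TYP.ty_zero (t0 := t0) (perm (ev n w)) _ _ h2 (by
      intro z hz
      obtain ⟨z', rfl⟩ := Fin.exists_succ_eq.2 hz
      rw [Fin.cons_succ, Fin.cons_succ]) (by
      rw [Fin.cons_zero]
      exact (ht _).2 ⟨a, rfl⟩)
    rw [Fin.cons_zero] at h3
    exact hl h3
  · intro a c
    unfold ptr
    rw [TYP.sum_j hj, Finset.mul_sum]
    · refine Finset.sum_congr rfl fun x _ => ?_
      have e1 : ∀ b : ι, (Fin.cons (j b) (j ∘ x) : Fin (n + 1) → L) =
          j ∘ (Fin.cons b x : Fin (n + 1) → ι) := by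
        intro b
        funext z
        refine Fin.cases ?_ (fun z => ?_) z
        · rw [Fin.cons_zero, Function.comp_apply, Fin.cons_zero]
        · rw [Fin.cons_succ, Function.comp_apply, Function.comp_apply, Fin.cons_succ]
      have e2 : ∏ i, T'.κ ((j ∘ x) i) = ∏ i, T.κ (x i) :=
        Finset.prod_congr rfl fun i _ => hκ (x i)
      rw [e1, e1, TYP.op_j hj ht hR hR' hc hc' n w hw, e2]
      ring
    · rintro x ⟨z, hz⟩
      by_contra hne
      have h1 := left_ne_zero_of_mul hne
      have h2 := TYP.op_ty hR hR' n w hw _ _ h1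
      have h3 : ∀ z, ty ((Fin.cons (j a) x : Fin (n + 1) → L) z) =
          ty ((Fin.cons (j c) x : Fin (n + 1) → L) z) := by
        intro z
        refine Fin.cases ?_ (fun z => ?_) z
        · rw [Fin.cons_zero, Fin.cons_zero, (ht _).2 ⟨a, rfl⟩, (ht _).2 ⟨c, rfl⟩]
        · rw [Fin.cons_succ, Fin.cons_succ]
      have h4 := TYP.cycle_const (f := fun z => ty ((Fin.cons (j a) x : Fin (n + 1) → L) z))
        (perm (ev n w)) hk (fun z => (h2 z).trans (h3 z).symm) z.succ
      rw [Fin.cons_succ, Fin.cons_zero] at h4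
      obtain ⟨b, hb⟩ := (ht _).1 (h4.trans ((ht _).2 ⟨a, rfl⟩))
      exact hz b hb

end Pool.Agent.WD
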