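import Pool.Agent.WD.StQ

/-!
# VRI: labels to the right of a diagram
-/

namespace Pool.Agent.WD

open Pool.Agent.LibH11 Pool.Agent.IT Pool.Agent.GK Pool.Agent.TwoBr
open Pool.Agent.LibH11.Sliced (Diag Kind cnt IsLongKnot ofDiag braidWord)
open scoped BigOperators

namespace VRI

variable {A ι : Type} [CommRing A] [Fintype ι]

lemma loc_app (M : Mats A ι) (k : Kind) (F : List ι → A) (l r : List ι) (h : k.ins ≤ l.length) :
    M.loc k F (l ++ r) = M.loc k (fun l' => F (l' ++ r)) l := by
  cases k with
  | cup => rfl
  | cap =>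
    match l, h with
    | x :: y :: l, _ => rfl
    | [_], h => simp [Kind.ins] at h
    | [], h => simp [Kind.ins] at h
  | crs e =>
    match l, h with
    | x :: y :: l, _ => rfl
    | [_], h => simp [Kind.ins] at h
    | [], h => simp [Kind.ins] at h

lemma act_app (M : Mats A ι) (k : Kind) : ∀ (i : ℕ) (F : List ι → A) (l r : List ι),
    i + k.ins ≤ l.length → M.act k i F (l ++ r) = M.act k i (fun l' => F (l' ++ r)) l
  | 0, F, l, r, h => loc_app M k F l r (by omega)
  | i + 1, F, [], r, h => by simp at h
  | i + 1, F, x :: l, r, h => by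
    have := act_app M k i (fun l' => F (x :: l')) l r (by
      simp only [List.length_cons] at h
      omega)
    exact this

end VRI

/-- **VRI** -/
theorem t_VRI : VRI_Stmt := by
  intro A _ ι _ M D
  induction D with
  | nil => intro N N' _ F l r _; rfl
  | cons p w ih =>
    obtain ⟨k, i⟩ := p
    intro N N' hc F l r hl
    simp only [cnt] at hc
    split_ifs at hc with hi
    show M.act k i (M.val w F) (l ++ r) = M.act k i (M.val w fun l' => F (l' ++ r)) l
    rw [VRI.act_app M k i _ l r (by omega)]
    obtain ⟨j, hj⟩ : ∃ j, N = i + j + k.ins := ⟨N - i - k.ins, by omega⟩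
    refine Mats.act_congr M k i (n := j) (fun l' hl' => ?_) l (by omega)
    exact ih _ _ hc F l' r (by omega)

end Pool.Agent.WD
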