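import Pool.Agent.GK.Final
import Pool.Agent.WD.CGK
import Pool.Agent.WD.CJF
import Pool.Agent.WD.CLM
import Pool.Agent.WD.DBV
import Pool.Agent.WD.DCL
import Pool.Agent.WD.DVF
import Pool.Agent.WD.EVO
import Pool.Agent.WD.EVT
import Pool.Agent.WD.FTZ
import Pool.Agent.WD.GAB
import Pool.Agent.WD.GAU
import Pool.Agent.WD.GKO
import Pool.Agent.WD.GPT
import Pool.Agent.WD.GSUM
import Pool.Agent.WD.HABC
import Pool.Agent.WD.HABS
import Pool.Agent.WD.HABU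
import Pool.Agent.WD.INT
import Pool.Agent.WD.INX
import Pool.Agent.WD.JFD
import Pool.Agent.WD.JSX
import Pool.Agent.WD.LONG
import Pool.Agent.WD.LKC
import Pool.Agent.WD.LKD
import Pool.Agent.WD.MPM
import Pool.Agent.WD.NRC
import Pool.Agent.WD.NRD
import Pool.Agent.WD.OKF
import Pool.Agent.WD.OPPA
import Pool.Agent.WD.OPPB
import Pool.Agent.WD.PAR
import Pool.Agent.WD.PTM
import Pool.Agent.WD.QBI
import Pool.Agent.WD.QCAB
import Pool.Agent.WD.QSUM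
import Pool.Agent.WD.S1
import Pool.Agent.WD.S2
import Pool.Agent.WD.S3
import Pool.Agent.WD.S4
import Pool.Agent.WD.SCC
import Pool.Agent.WD.SCD
import Pool.Agent.WD.SLI
import Pool.Agent.WD.TOPV
import Pool.Agent.WD.CUPM
import Pool.Agent.WD.RON
import Pool.Agent.WD.CFV
import Pool.Agent.WD.TU
import Pool.Agent.WD.EXP4
import Pool.Agent.WD.TORF
import Pool.Agent.WD.TRC
import Pool.Agent.WD.TRIA
import Pool.Agent.WD.TYP
import Pool.Agent.WD.VOP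
import Pool.Agent.WD.VRI

/-!
The algebraic and quantum modules, assembled: the statements `S1`, `S2`, `S3`, `S4`.
-/

set_option autoImplicit false

namespace Pool.Agent.WD

namespace QA

open Pool.Agent.IT.Fin Pool.Agent.GK.Fin

theorem qVRI : VRI_Stmt := t_VRI
theorem qVOP : VOP_Stmt := t_VOP
theorem qTRC : TRC_Stmt := t_TRC qVOP qVRI
theorem qDBV : DBV_Stmt := t_DBV qVOP fATP
theorem qDCL : DCL_Stmt := t_DCL qDBV qTRC
theorem qDVF : DVF_Stmt := t_DVF qVRI qDCL qVOP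
theorem qTYP : TYP_Stmt := t_TYP
theorem qNRC : NRC_Stmt := t_NRC qTRC qTYP
theorem qNRD : NRD_Stmt := t_NRD qDVF qTYP
theorem qGPT : GPT_Stmt := t_GPT
theorem qGAU : GAU_Stmt := t_GAU
theorem qMPM : MPM_Stmt := t_MPM
theorem qCUPM : CUPM_Stmt := t_CUPM
theorem qSLI : SLI_Stmt := t_SLI qCUPM fNAT fHEX1 fHEX2 fRINV fVOK fTENSOK
theorem qRON : RON_Stmt := t_RON qCUPM fQT fRINV fVOK fQNUM
theorem qOKF : OKF_Stmt := t_OKF qCUPM qSLI qRON fRINV fYBE fVOK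
theorem qCLM : CLM_Stmt := t_CLM qCUPM fMOP fTENSOK fFPOWOK fVOK fFPOWT fATP
theorem qPTM : PTM_Stmt := t_PTM fMOP fTENSOK fFPOWOK fPTR
theorem qSCC : SCC_Stmt := t_SCC qTRC qCUPM qPTM qGPT fSCHUR fVOK
theorem qSCD : SCD_Stmt := t_SCD qDVF qCUPM qPTM qCLM qGPT fBLKD fMOP fPTR fSCHUR fTENSOK fFPOWOK fVOK
theorem qTOPV : TOPV_Stmt := t_TOPV
theorem qGSUM : GSUM_Stmt :=
  t_GSUM qCLM qTOPV fBLKD fCABSUM fMULT fDBL fMOP fFPOWOK fVOK fRINV
theorem qEVT : EVT_Stmt := t_EVT fESER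
theorem qQBI : QBI_Stmt := t_QBI fQNUM fESER
theorem qINX : INX_Stmt := t_INX qQBI fESER
theorem qINT : INT_Stmt := t_INT qINX qSLI qCUPM fESER
theorem qFTZ : FTZ_Stmt := t_FTZ
theorem qCJF : CJF_Stmt := t_CJF gKSUM gSUMJ
theorem qJFD : JFD_Stmt := t_JFD qMPM qGAU qNRC qNRD qSCC qSCD qCUPM fESER
theorem qPAR : PAR_Stmt := t_PAR
theorem qJSX : JSX_Stmt :=
  t_JSX qEVT qINT qMPM qOKF qGAU qFTZ qJFD qCJF qGSUM qPAR fJMAP fESER
theorem qLONG : LONG_Stmt := t_LONG t_LKC t_LKD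
theorem qCFV : CFV_Stmt := t_CFV fESER unknot_double trefoil_true trefoil_false
theorem qEVO : EVO_Stmt := t_EVO
theorem qGKO : GKO_Stmt := t_GKO gGNF gFAM gCTX fESER qEVO
theorem qGAB : GAB_Stmt :=
  t_GAB gSERU gSERC gSERS t_HABU (t_HABC fLEADEQ) t_HABS (t_QCAB t_TORF) t_QSUM
theorem qEXP4 : EXP4_Stmt := t_EXP4
theorem qTRIA : TRIA_Stmt := t_TRIA
theorem qOPPA : OPPA_Stmt := t_OPPA fESER
theorem qOPPB : OPPB_Stmt := t_OPPB
theorem qCGK : CGK_Stmt := t_CGK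

end QA

open QA Pool.Agent.IT.Fin Pool.Agent.GK.Fin

theorem s1_all : S1_Stmt := t_S1 gOPS qJSX qLONG qTRIA qGAB qEXP4 qGKO fESER
theorem s2_all : S2_Stmt := t_S2 gOPS qJSX qLONG qCFV qOPPA qOPPB qGAB qEXP4
theorem s3_all : S3_Stmt := t_S3 gOPS qJSX qLONG qCFV qCGK qGAB qEXP4
theorem s4_all : S4_Stmt := t_S4 gOPS qJSX qLONG qGKO

end Pool.Agent.WD
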