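import Pool.Agent.WD.StA

/-!
# WD, module QSUM: the property of the numbers `A`, `B` is inherited by connected sums
-/

namespace Pool.Agent.WD

open Pool.Agent.LibH11 Pool.Agent.IT Pool.Agent.GK

namespace QSUM

theorem weak {cb : ℕ → ℤ → Knot → Knot} {K : Knot} {A B' : ℚ} (h : QAB cb K A B') :
    (K = unknot ∧ A = 0 ∧ B' = 0) ∨ (0 < A ∧ 0 ≤ fAB A B') := by
  rcases h with h | ⟨_, hA, hB⟩ | ⟨hA, hf⟩
  · exact Or.inl h
  · refine Or.inr ⟨by rw [hA]; norm_num, ?_⟩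
    rw [hA, hB]
    unfold fAB
    norm_num
  · exact Or.inr ⟨hA, hf.le⟩

theorem fAB_add (A B' A' B'' : ℚ) :
    fAB (A + A') (B' + B'') = fAB A B' + fAB A' B'' + 10 * (A * A') := by
  unfold fAB
  ring

end QSUM

theorem t_QSUM : QSUM_Stmt := by
  intro M cb hO K K' A B' A' B'' h h'
  rcases QSUM.weak h with ⟨hK, hA, hB⟩ | ⟨hA, hf⟩
  · have h1 : M.mul K K' = K' := by
      rw [hK, ← hO.one]
      exact M.one_mul K'
    rw [h1, hA, hB, zero_add, zero_add]
    exact h'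
  rcases QSUM.weak h' with ⟨hK, hA', hB'⟩ | ⟨hA', hf'⟩
  · have h1 : M.mul K K' = K := by
      rw [hK, ← hO.one]
      exact M.mul_one K
    rw [h1, hA', hB', add_zero, add_zero]
    exact h
  · refine Or.inr (Or.inr ⟨by linarith, ?_⟩)
    rw [QSUM.fAB_add]
    have h2 := mul_pos hA hA'
    linarith

end Pool.Agent.WD
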