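import Pool.Agent.GK.JStmts

/-!
# Whitehead doubles of graph knots: statements of the algebraic modules

`E c = exp (c X)`; `q = exp X`. `J M` is the coloured Jones polynomial of the module of dimension
`M`, normalised to be `1` on the unknot. A graph knot has a series `G` in `z` and `h` with
`evB N G = (E N - E (-N)) J N` (`z = N X`, `h = X`), see `Pool/Agent/GK`.

All modules take the statements they need as hypotheses. The rational numbers `A`, `B` of a graph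
knot are the first two coefficients of the logarithm of the leading term of the series.
-/

namespace Pool.Agent.WD

open Pool.Agent.LibH11 Pool.Agent.IT Pool.Agent.GK
open scoped BigOperators
open PowerSeries

/-! ## Definitions -/

/-- The first coefficients of the leading term
`(E 1 - E (-1)) (1 - A z² / 6 + (A² / 72 + B / 180) z⁴ + …)` of a series that is odd in `z`. -/
structure HAB (G : B) (A B' : ℚ) : Prop where
  odd : OddB G
  c1 : coeff 1 (coeff 0 G) = 2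
  c3 : coeff 3 (coeff 0 G) = (1 - A) / 3
  c5 : coeff 5 (coeff 0 G) = 1 / 60 - A / 18 + A ^ 2 / 36 + B' / 90

/-- The quadratic function that vanishes on the unknot and the trefoils. -/
def fAB (A B' : ℚ) : ℚ := 5 * A ^ 2 - 20 * A - 2 * B'

/-- `(p² - 1) (q² - 1)` -/
def tA (p : ℕ) (q : ℤ) : ℚ := ((p : ℚ) ^ 2 - 1) * ((q : ℚ) ^ 2 - 1)

/-- `(p⁴ - 1) (q⁴ - 1)` -/
def tB (p : ℕ) (q : ℤ) : ℚ := ((p : ℚ) ^ 4 - 1) * ((q : ℚ) ^ 4 - 1)

/-- The property of the numbers `A`, `B` of a graph knot `K` that is proved by induction: `K` is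
the unknot, or a trefoil, or `0 < A` and `0 < f (A, B)`. -/
def QAB (cb : ℕ → ℤ → Knot → Knot) (K : Knot) (A B' : ℚ) : Prop :=
  (K = unknot ∧ A = 0 ∧ B' = 0) ∨
  ((K = cb 2 3 unknot ∨ K = cb 2 (-3) unknot) ∧ A = 24 ∧ B' = 1200) ∨
  (0 < A ∧ 0 < fAB A B')

/-- The expansion to order 3 of the normalised coloured Jones polynomial of dimension `M`. -/
structure Ex3 (a b : ℚ) (M : ℕ) (J : ℚ⟦X⟧) : Prop where
  c0 : coeff 0 J = 1
  c1 : coeff 1 J = 0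
  c2 : coeff 2 J = a * ((M : ℚ) ^ 2 - 1)
  c3 : coeff 3 J = b * ((M : ℚ) ^ 2 - 1)

/-- The relation between `J 2` of the `t`-twisted double of a knot and `J 3` of the knot; `σ = 1`
or `-1` is the sign of the clasp: with `[k] = (E k - E (-k)) / (E 1 - E (-1))`,
`[2] (D2 - 1) = -σ q^(2 σ) (q - 1 / q) [3] (q ^ (4 t) J3 - 1)`. -/
def D2E (σ t : ℚ) (D2 J3 : ℚ⟦X⟧) : Prop :=
  (E 1 + E (-1)) * (D2 - 1) =
    -(C σ * (E (2 * σ) * (E 1 - E (-1)) * (E 2 + 1 + E (-2)) * (E (4 * t) * J3 - 1)))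

/-- `[3]` times the coefficient of the summand of dimension 5 in `J 3` of a double -/
noncomputable def cf2 (σ : ℚ) : ℚ⟦X⟧ :=
  E (5 * σ) * (E 1 - E (-1)) ^ 2 * (E 1 + E (-1)) * (E 4 + E 2 + 1 + E (-2) + E (-4))

/-- `[3]` times the coefficient of the summand of dimension 3 in `J 3` of a double -/
noncomputable def cf1 (σ : ℚ) : ℚ⟦X⟧ :=
  (E 2 + 1 + E (-2)) - E (8 * σ) * (E 6 + 1 + E (-6)) - cf2 σ

/-- The relation between `J 3` of the `t`-twisted double of a knot and `J 3`, `J 5` of the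
knot. -/
def D3E (σ t : ℚ) (D3 J3 J5 : ℚ⟦X⟧) : Prop :=
  (E 2 + 1 + E (-2)) * (D3 - 1) = cf1 σ * (E (4 * t) * J3 - 1) + cf2 σ * (E (12 * t) * J5 - 1)

/-! ## Series -/

/-- EVO: a series in two variables is determined by its values at the odd natural numbers.

Proof: as the proof of `EVI_Stmt` (`Pool/Agent/IT/QEvi.lean`): the coefficient of `X ^ m` in
`evB N F` is a polynomial in `N` of degree at most `m` whose coefficients are the coefficients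
`coeff j (coeff (m - j) F)`; a polynomial over `ℚ` that vanishes at all odd numbers is zero
(infinitely many zeros). -/
def EVO_Stmt : Prop := ∀ F F' : B, (∀ N : ℕ, Odd N → evB N F = evB N F') → F = F'

/-- GKO: the coloured Jones polynomials of odd dimension separate graph knots.

Proof: copy the proof of `GK.main_thm'` (`Pool/Agent/GK/Main.lean`) with `EVO` in the place of
`EVI`; the hypotheses there are `gOPS`, `gGNF`, `gFAM`, `gCTX` of `Pool/Agent/GK/Final.lean` and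
`IT.Fin.fESER`. -/
def GKO_Stmt : Prop :=
  ∀ (M : CommMonoid Knot) (cb : ℕ → ℤ → Knot → Knot) (v : ℕ → Knot → ℚ⟦X⟧), Ops M cb →
    VOk M cb v → ∀ K K' : Knot, GraphKnot K → GraphKnot K' →
    (∀ N : ℕ, Odd N → v N K = v N K') → K = K'

/-- HABU: the unknot. Proof: `fu = zB (E 1 - E (-1))`, so `coeff 0 fu = E 1 - E (-1)`, whose
coefficients are `2 / n!` for odd `n` and `0` for even `n`. -/
def HABU_Stmt : Prop := HAB fu 0 0

/-- HABC: cables.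

Proof: by `LEADEQ` (`IT.Fin.fLEADEQ`), `Lead1.zero`: with `f = coeff 0 G`, `g = coeff 0 G'`,
`(E (pq) - E (-pq)) g = (E q - E (-q)) (dl p f)`. Compare the coefficients of `z²`, `z⁴`, `z⁶`
(the even coefficients of `f`, `g` and the even coefficients of `E c - E (-c)` vanish):
`2 p q g₁ = 2 q (p f₁)`, `2 p q g₃ + (p³q³/3) g₁ = 2 q p³ f₃ + (q³/3) p f₁`,
`2 p q g₅ + (p³q³/3) g₃ + (p⁵q⁵/60) g₁ = 2 q p⁵ f₅ + (q³/3) p³ f₃ + (q⁵/60) p f₁`. -/
def HABC_Stmt : Prop :=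
  ∀ (p : ℕ) (q : ℤ) (G G' : B) (A B' : ℚ), 1 ≤ p → q ≠ 0 → OddB G' → FunEq p q G G' →
    HAB G A B' → HAB G' ((p : ℚ) ^ 2 * A + tA p q) ((p : ℚ) ^ 4 * B' + tB p q)

/-- HABS: connected sums.

Proof: `coeff 0` is a ring homomorphism, so `g'' (E 1 - E (-1)) = g g'` for the leading terms;
compare the coefficients of `z²`, `z⁴`, `z⁶`. -/
def HABS_Stmt : Prop :=
  ∀ (G G' G'' : B) (A B' A' B'' : ℚ), OddB G'' → G'' * fu = G * G' → HAB G A B' →
    HAB G' A' B'' → HAB G'' (A + A') (B' + B'')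

/-- TORF: the numbers of torus knots.

Proof: put `P = p²`, `Q = q²`; `f = (P - 1) (Q - 1) (3 P Q - 7 P - 7 Q - 17)`. If `p = 2` then
`|q|` is odd, `|q| = 3` or `Q ≥ 25`, and `3 P Q - 7 P - 7 Q - 17 = 5 (Q - 9)`. If `|q| = 2`, the
same with `p` and `q` interchanged. Otherwise `P, Q ≥ 9`, not both `9` (coprime), and
`3 P Q - 7 P - 7 Q - 17 = 3 (P - 9) (Q - 9) + 20 (P - 9) + 20 (Q - 9) + 100 > 0`. -/
def TORF_Stmt : Prop :=
  ∀ (p : ℕ) (q : ℤ), 2 ≤ p → 2 ≤ |q| → Int.gcd p q = 1 → 0 < tA p q ∧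
    ((p = 2 ∧ |q| = 3) ∨ (p = 3 ∧ |q| = 2) ∨ 0 < fAB (tA p q) (tB p q))

/-- QCAB: the property is inherited by cables.

Proof. `p = 1`: `cb 1 q K = K` (`Ops.cab_one`) and `tA 1 q = tB 1 q = 0`. `2 ≤ p`, `K` the unknot:
if `|q| = 1`, `Ops.cab_unit`; if `{p, |q|} = {2, 3}`, a trefoil (`Ops.cab_swap`: `cb 3 2 unknot =
cb 2 3 unknot`, `cb 3 (-2) unknot = cb 2 (-3) unknot`), `A = 24`, `B = 1200`; else `TORF`.
`2 ≤ p`, `K` not the unknot: `0 < A` and `0 ≤ f (A, B)` (`f (24, 1200) = 0`), and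
`f (p² A + a, p⁴ B + b) = p⁴ f (A, B) + 20 p² (p² - 1) A + 10 p² A a + f (a, b)` with `a = tA p q`,
`b = tB p q`, `0 ≤ a`, `0 ≤ f (a, b)` (for `|q| = 1` both are `0`; `TORF` otherwise). -/
def QCAB_Stmt : Prop :=
  ∀ (M : CommMonoid Knot) (cb : ℕ → ℤ → Knot → Knot), Ops M cb →
    ∀ (p : ℕ) (q : ℤ) (K : Knot) (A B' : ℚ), 1 ≤ p → q ≠ 0 → Int.gcd p q = 1 → QAB cb K A B' →
    QAB cb (cb p q K) ((p : ℚ) ^ 2 * A + tA p q) ((p : ℚ) ^ 4 * B' + tB p q)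

/-- QSUM: the property is inherited by connected sums.

Proof: if one of the knots is the unknot, it is `M.one` (`Ops.one`). Otherwise `0 < A`, `0 < A'`,
`0 ≤ f (A, B)`, `0 ≤ f (A', B')` and `f (A + A', B + B') = f (A, B) + f (A', B') + 10 A A'`. -/
def QSUM_Stmt : Prop :=
  ∀ (M : CommMonoid Knot) (cb : ℕ → ℤ → Knot → Knot), Ops M cb →
    ∀ (K K' : Knot) (A B' A' B'' : ℚ), QAB cb K A B' → QAB cb K' A' B'' →
    QAB cb (M.mul K K') (A + A') (B' + B'')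

/-- GAB: every graph knot has a series and the numbers `A`, `B`.

Proof: induction over `GraphKnot`. Unknot: `SERU` (`gSERU`), `HABU`. Cable: rewrite with `Ops.cab`;
for `q = 0` the gcd condition gives `p = 1` and `cb 1 0 K = K`; for `q ≠ 0` use `SERC` (`gSERC`),
`HABC`, `QCAB`. Sum: `Ops.sum`, `SERS` (`gSERS`), `HABS`, `QSUM`. -/
def GAB_Stmt : Prop :=
  ∀ (M : CommMonoid Knot) (cb : ℕ → ℤ → Knot → Knot) (v : ℕ → Knot → ℚ⟦X⟧), Ops M cb →
    VOk M cb v → ∀ K : Knot, GraphKnot K → ∃ (G : B) (A B' : ℚ), Ser v K G ∧ HAB G A B' ∧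
      QAB cb K A B'

/-- EXP4: the expansion of the normalised coloured Jones polynomials.

Proof: `coeff r (evB N G) = ∑_{k + m = r} g_{k,m} N ^ m` with `g_{k,m} = coeff m (coeff k G)`, and
`g_{k,m} = 0` for even `m`. For `N = 1` these are the coefficients of `E 1 - E (-1)`:
`g₁₁ = 0`, `g₂₁ = 1/3 - g₀₃`, `g₃₁ = -g₁₃`, `g₄₁ = 1/60 - g₀₅ - g₂₃` (here `g₂₃ = coeff 3
(coeff 2 G)` etc.). The coefficients of `X`, …, `X⁵` of the equation, with `J N = ∑ jₖ X ^ k`, are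
`2 N j₀ = 2 N`, `2 N j₁ = 0`, `2 N j₂ + (N³/3) j₀ = g₀₃ N³ + g₂₁ N`,
`2 N j₃ + (N³/3) j₁ = g₁₃ N³ + g₃₁ N`,
`2 N j₄ + (N³/3) j₂ + (N⁵/60) j₀ = g₀₅ N⁵ + g₂₃ N³ + g₄₁ N`.
With `g₀₃ = (1 - A)/3`, `g₀₅ = 1/60 - A/18 + A²/36 + B/90` this gives the claim with
`b = g₁₃ / 2`, and the coefficient of `N⁴` in `j₄` is `(g₀₅ - 1/60 + A/18) / 2`; `j₄` is a
polynomial in `N²` of degree 2 that vanishes for `N = 1`. -/
def EXP4_Stmt : Prop :=
  ∀ (G : B) (A B' : ℚ) (J : ℕ → ℚ⟦X⟧), evB 1 G = E 1 - E (-1) → HAB G A B' →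
    (∀ N : ℕ, 1 ≤ N → (E N - E (-N)) * J N = evB N G) →
    ∃ b β : ℚ, ∀ N : ℕ, 1 ≤ N → Ex3 (-(A / 6)) b N (J N) ∧
      coeff 4 (J N) = ((N : ℚ) ^ 2 - 1) * ((A ^ 2 / 72 + B' / 180) * (N : ℚ) ^ 2 + β)

/-! ## Comparison -/

/-- TRIA: two doubles with the same clasp.

Proof. `N = 2`: `Cf 2 0 J 1 + Cf 2 1 E (4 t) J 3` on both sides, so (`Cf 2 1 ≠ 0`, `toK` injective)
`E (4 t) J 3 = E (4 t') J' 3`; the coefficient of `X` gives `4 t = 4 t'`, so `t = t'` (integers).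
Then by strong induction on `j`: in the equation for `N = j + 1` all terms except the last agree,
`Cf (j + 1) j ≠ 0`, and `E (2 j (j + 1) t)` is invertible. -/
def TRIA_Stmt : Prop :=
  ∀ (Cf : ℕ → ℕ → KQ) (t t' : ℤ) (J J' : ℕ → ℚ⟦X⟧), (∀ j : ℕ, Cf (j + 1) j ≠ 0) →
    J 1 = 1 → J' 1 = 1 → coeff 0 (J 3) = 1 → coeff 0 (J' 3) = 1 → coeff 1 (J 3) = 0 →
    coeff 1 (J' 3) = 0 →
    (∀ N : ℕ, 1 ≤ N → (∑ j ∈ Finset.range N, Cf N j * toK (E (2 * j * (j + 1) * t) * J (2 * j + 1))) =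
      ∑ j ∈ Finset.range N, Cf N j * toK (E (2 * j * (j + 1) * t') * J' (2 * j + 1))) →
    t = t' ∧ ∀ j : ℕ, J (2 * j + 1) = J' (2 * j + 1)

/-- OPPA: the exact relations between two doubles with opposite clasps.

Proof: put `G1 = E (4 t) J3 - 1`, `G1' = E (4 t') J3' - 1`, `G2 = E (12 t) J5 - 1`,
`G2' = E (12 t') J5' - 1`. The two relations `D2E` have the same left side; cancel the nonzero
series `(E 1 - E (-1)) (E 2 + 1 + E (-2))` and multiply by `E 2`: `G1' = - E 4 G1`. Insert this in the two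
relations `D3E`: `cf2 (-1) G2' = cf2 1 G2 + (cf1 1 + E 4 cf1 (-1)) G1`, and
`E 5 (cf1 1 + E 4 cf1 (-1)) = -(E 1 - E (-1))² (E 1 + E (-1)) (E 4 + E 2 + 1 + E (-2) + E (-4))
(E 2 (1 + E 6) (1 + E 2 + E 4))` (an identity of Laurent polynomials in `E 1`; checked by
computer); cancel. -/
def OPPA_Stmt : Prop :=
  ∀ (t t' : ℚ) (D2 D3 J3 J5 J3' J5' : ℚ⟦X⟧), D2E 1 t D2 J3 → D3E 1 t D3 J3 J5 →
    D2E (-1) t' D2 J3' → D3E (-1) t' D3 J3' J5' →
    E (4 * t') * J3' - 1 = -(E 4 * (E (4 * t) * J3 - 1)) ∧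
    E (12 * t') * J5' - 1 = E 10 * (E (12 * t) * J5 - 1) -
      E 2 * (1 + E 6) * (1 + E 2 + E 4) * (E (4 * t) * J3 - 1)

/-- OPPB: two doubles with opposite clasps, expansions.

Proof: coefficient of `X` of the first equation: `4 t' = -4 t`. Coefficient of `X²`:
`8 a + 8 a' = -16 t (t + 1)`. Coefficient of `X³` of the two equations: eliminate `b'` (three times
the first minus the second; `b` drops out as well) and insert `t' = -t`, `a' = -a - 2 t (t + 1)`: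
`32 t (4 t² + 3 t - 1) = 32 t (4 t - 1) (t + 1) = 0`, so `t = 0` or `t = -1` (`t` is an integer),
hence `a + a' = 0` and `a = a' = 0`. (Coefficients of `G1 = E (4 t) J3 - 1`:
`4 t`, `8 t² + 8 a`, `32 t³ / 3 + 32 t a + 8 b`; of `G2 = E (12 t) J5 - 1`: `12 t`,
`72 t² + 24 a`, `288 t³ + 288 t a + 24 b`.) -/
def OPPB_Stmt : Prop :=
  ∀ (t t' : ℤ) (a b a' b' : ℚ) (J3 J5 J3' J5' : ℚ⟦X⟧), a ≤ 0 → a' ≤ 0 →
    Ex3 a b 3 J3 → Ex3 a b 5 J5 → Ex3 a' b' 3 J3' → Ex3 a' b' 5 J5' →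
    E (4 * t') * J3' - 1 = -(E 4 * (E (4 * t) * J3 - 1)) →
    E (12 * t') * J5' - 1 = E 10 * (E (12 * t) * J5 - 1) -
      E 2 * (1 + E 6) * (1 + E 2 + E 4) * (E (4 * t) * J3 - 1) →
    t' = -t ∧ (t = 0 ∨ t = -1) ∧ a = 0 ∧ a' = 0

/-- CGK: the expansion of the coloured Jones polynomials of a double.

Proof: compare the coefficients of `X²`, `X³`, `X⁴` in `D2E` and `D3E`. All unknown coefficients of
`D2`, `D3` are determined; one finds `coeff 2 D2 = 3 a₁`, `coeff 2 D3 = 8 a₁` with `a₁ = -4 σ t`,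
and with `c₂ = coeff 4 D2 = 3 (4 α + β)`, `c₃ = coeff 4 D3 = 8 (9 α + β)`:
`α = (c₃ / 8 - c₂ / 3) / 5 = a₁ / 3 + a₁²` (checked by computer). -/
def CGK_Stmt : Prop :=
  ∀ (σ t a b a₁ α β : ℚ) (D2 D3 J3 J5 : ℚ⟦X⟧), (σ = 1 ∨ σ = -1) → D2E σ t D2 J3 →
    D3E σ t D3 J3 J5 → Ex3 a b 3 J3 → Ex3 a b 5 J5 → coeff 2 D2 = 3 * a₁ →
    coeff 4 D2 = 3 * (4 * α + β) → coeff 4 D3 = 8 * (9 * α + β) →
    a₁ = -(4 * σ * t) ∧ α = a₁ / 3 + a₁ ^ 2

end Pool.Agent.WD
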