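import Pool.Agent.WD.StA
import Pool.Agent.WD.Base
import Pool.Agent.TwoBr.Framing

/-!
# Whitehead doubles of graph knots: statements of the quantum modules

`op T n w`, `G`, `Jfr`, `J`, `blkD`, `RD`, `V`, `tens`, `fpow`, `Rm`, `Mor`, … are those of
`Pool/Agent/IT/Defs.lean`; `Mats`, `val`, `Ok`, `OkFr`, `nrm` those of `Pool/Agent/TwoBr`.
In a matrix of a diagram the row is the list of labels below, the column the list above.

All modules take the statements they need as hypotheses (also `…_Stmt` of `Pool/Agent/IT/Stmts`).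
-/

namespace Pool.Agent.WD

open Pool.Agent.LibH11 Pool.Agent.IT Pool.Agent.GK Pool.Agent.TwoBr
open Pool.Agent.LibH11.Sliced (Diag Kind cnt IsLongKnot ofDiag braidWord)
open scoped BigOperators
open PowerSeries

/-- Oriented knots as long knots in Morse position. -/
abbrev SKnot : Type := Pool.Agent.LibH11.Sliced.Knot

/-! ## 1. State models, closed braids, parallels: over a commutative ring -/

section General

variable {A ι : Type} [CommRing A] [Fintype ι] [DecidableEq ι]

/-- The braiding data of a model, with closing weights `κ`. -/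
def rdM (M : Mats A ι) (κ : ι → A) : RData A ι where
  R := fun x y => M.X true x.1 x.2 y.1 y.2
  R' := fun x y => M.X false x.1 x.2 y.1 y.2
  κ := κ

/-- A minimum followed by a maximum with the same right end. -/
def Piv (M : Mats A ι) (ε : A) (κ : ι → A) : Prop :=
  ∀ a a', ∑ b, M.cup a b * M.cap a' b = if a = a' then ε * κ a else 0

/-- The first relation of `Mats.Ok`. -/
def Zig (M : Mats A ι) : Prop := ∀ x a, ∑ b, M.cup a b * M.cap b x = if a = x then 1 else 0

/-- The matrix of the braid with all strands except the first closed. -/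
noncomputable def ptr (T : RData A ι) (n : ℕ) (w : Word) : Matrix ι ι A := fun a c =>
  ∑ x : Fin n → ι, op T n w (Fin.cons a x : Fin (n + 1) → ι) (Fin.cons c x : Fin (n + 1) → ι) *
    ∏ i, T.κ (x i)

/-- The full twists. -/
noncomputable def tw (T : RData A ι) (m : ℤ) : Matrix (Fin 2 → ι) (Fin 2 → ι) A :=
  op T 1 (List.replicate (2 * m.natAbs) (0, decide (0 < m)))

/-- The clasp: the diagram `(cup, 2), (crs e, 1), (crs e, 1), (cap, 0)` on two strands. -/
def clasp (M : Mats A ι) (e : Bool) : Matrix (Fin 2 → ι) (Fin 2 → ι) A := fun x y =>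
  ∑ c, ∑ z, M.cup c (y 1) * (∑ p, ∑ r, M.X e (x 1) c p r * M.X e p r z (y 0)) * M.cap (x 0) z

/-- The model on pairs of labels: every strand is replaced by two parallel strands. -/
noncomputable def dblM (M : Mats A ι) : Mats A (ι × ι) where
  cup := fun x y => M.cup x.1 y.2 * M.cup x.2 y.1
  cap := fun x y => M.cap x.1 y.2 * M.cap x.2 y.1
  X := fun e x y z t => op (rdM M 0) 3 (blk 2 (0, e)) ![x.1, x.2, y.1, y.2] ![z.1, z.2, t.1, t.2]

/-- The list of the labels of the parallel strands. -/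
def flt (l : List (ι × ι)) : List ι := l.flatMap fun x => [x.1, x.2]

/-- Change of the basis vectors by factors: `g u * g' u = 1`. -/
def gau (M : Mats A ι) (g g' : ι → A) : Mats A ι where
  cup := fun u v => g u * g v * M.cup u v
  cap := fun u v => g' u * g' v * M.cap u v
  X := fun e u v u' v' => g' u * g' v * (g u' * g v') * M.X e u v u' v'

/-- The image of a model under a ring homomorphism. -/
def mapM {C : Type} [CommRing C] (φ : A →+* C) (M : Mats A ι) : Mats C ι where
  cup := fun u v => φ (M.cup u v)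
  cap := fun u v => φ (M.cap u v)
  X := fun e u v u' v' => φ (M.X e u v u' v')

end General

/-- VRI: labels to the right of a diagram.

Proof: induction on `D` (generalise `F`, `l`, `N`); for one slice induction on its position:
`M.act k i F (l ++ r) = M.act k i (fun l' => F (l' ++ r)) l` if `i + k.ins ≤ l.length`. -/
def VRI_Stmt : Prop :=
  ∀ (A : Type) [CommRing A] (ι : Type) [Fintype ι] (M : Mats A ι) (D : Diag) (N N' : ℕ),
    cnt N D = some N' → ∀ (F : List ι → A) (l r : List ι), l.length = N →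
    M.val D F (l ++ r) = M.val D (fun l' => F (l' ++ r)) l

/-- VOP: the action of a braid word.

Proof: induction on `w`; `op T n (p :: w) = opl T n p * op T n w`, and for a letter `(i, e)`,
`i < n`, `M.act (crs e) i F (List.ofFn s ++ r) = ∑ t, opl T n (i, e) s t * F (List.ofFn t ++ r)`:
both sides are `∑ c d, M.X e (s i) (s (i+1)) c d * F (ofFn (s with i ↦ c, i+1 ↦ d) ++ r)` (the left
side by induction on `i`; the matrix `atp` is zero unless `t` agrees with `s` outside `i`,
`i + 1`). -/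
def VOP_Stmt : Prop :=
  ∀ (A : Type) [CommRing A] (ι : Type) [Fintype ι] [DecidableEq ι] (M : Mats A ι) (κ : ι → A)
    (n : ℕ) (w : Word), Bd n w → ∀ (F : List ι → A) (s : Fin (n + 1) → ι) (r : List ι),
    M.val (braidWord w) F (List.ofFn s ++ r) =
      ∑ t : Fin (n + 1) → ι, op (rdM M κ) n w s t * F (List.ofFn t ++ r)

/-- TRC: closed braids.

Proof: `cl n w = cups n ++ braidWord w ++ caps n`. By induction on `n` (`cups_succ`, `caps_succ`
in `WD/Base`, or the general statement for nested minima and maxima)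
`M.val (cups n) F [a] = ∑ x y : Fin n → ι, (∏ i, M.cup (x i) (y i)) *
F (a :: (List.ofFn x ++ (List.ofFn y).reverse))` and `M.val (caps n) F (a :: (List.ofFn x ++
(List.ofFn y).reverse)) = (∏ i, M.cap (x i) (y i)) * F [a]`. Insert `VOP` with
`s = Fin.cons a x`, `r = (List.ofFn y).reverse`; the sum over `y` is
`∏ i, ∑ b, M.cup (x i) b * M.cap (x' i) b = ∏ i, (if x i = x' i then ε * κ (x i) else 0)`
(`Finset.prod_univ_sum`), so `x' = x`. -/
def TRC_Stmt : Prop :=
  ∀ (A : Type) [CommRing A] (ι : Type) [Fintype ι] [DecidableEq ι] (M : Mats A ι) (ε : A)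
    (κ : ι → A), Piv M ε κ → ∀ (n : ℕ) (w : Word), Bd n w → ∀ (F : List ι → A) (a : ι),
    M.val (cl n w) F [a] = ε ^ n * ∑ c, ptr (rdM M κ) n w a c * F [c]

/-- DBV: parallels.

Proof: induction on `D`; one slice `(k, i)` by induction on `i` (both sides are shifted by
`Mats.val_sh`, twice on the left). `i = 0`: for `cup`, `[(cup, 0), (cup, 1)]` inserts
`x, x', y', y` with the coefficient `cup x y * cup x' y'`, the pairs are `(x, x')`, `(y', y)`; for
`cap` the same; for `crs e` this is `VOP` with `n = 3` for the word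
`[(1, e), (0, e), (2, e), (1, e)]`, which is `blk 2 (0, true)` for `e = true` and for `e = false`
differs from `blk 2 (0, false) = [(1, f), (2, f), (0, f), (1, f)]` by the commutation of the letters
`0` and `2` (`ATP`: `Commute`). -/
def DBV_Stmt : Prop :=
  ∀ (A : Type) [CommRing A] (ι : Type) [Fintype ι] [DecidableEq ι] (M : Mats A ι) (D : Diag)
    (N N' : ℕ), cnt N D = some N' → ∀ (F : List ι → A) (l : List (ι × ι)), l.length = N →
    M.val (para D) F (flt l) = (dblM M).val D (fun l' => F (flt l')) l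

/-- DCL: the parallel of a closed braid.

Proof: `DBV` with `D = cl n w`, `l = [(a, b)]`, then `TRC` for `dblM M`, `ε ^ 2` and the weights
`κ₂ (a, b) = κ a * κ b` (`Piv (dblM M) (ε ^ 2) κ₂` from `Piv M ε κ`), and
`ptr (rdM (dblM M) κ₂) n w x y = ptr (blkD (rdM M κ) 1) n w ![x.1, x.2] ![y.1, y.2]`: the bijection
`x ↦ ![x.1, x.2]` from `ι × ι` to `Fin 2 → ι` identifies the two braiding data
(`Fin.append ![a, b] ![c, d] = ![a, b, c, d]`; `op` does not depend on the weights), hence their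
`op` and `ptr` (`finTwoArrowEquiv`). -/
def DCL_Stmt : Prop :=
  ∀ (A : Type) [CommRing A] (ι : Type) [Fintype ι] [DecidableEq ι] (M : Mats A ι) (ε : A)
    (κ : ι → A), Piv M ε κ → ∀ (n : ℕ) (w : Word), Bd n w → ∀ (F : List ι → A) (a b : ι),
    M.val (para (cl n w)) F [a, b] =
      ε ^ (2 * n) * ∑ y : Fin 2 → ι, ptr (blkD (rdM M κ) 1) n w ![a, b] y * F [y 0, y 1]

/-- DVF: the value of a double.

Proof: by `VRI` and `DCL` for the parallel, `VOP` with `n = 1` for the twists, the value at `[a]`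
is `ε ^ (2 n) ∑ b c, cup b c * ∑ y, (P * tw) ![a, b] y * ∑ u, Y y c u * F [u]`, where
`P = ptr (blkD (rdM M κ) 1) n w` and `Y y c u = ∑ z, (∑ p r, X e (y 1) c p r * X e p r z u) *
cap (y 0) z`. By `Zig`, `Y y c u = ∑ v, clasp M e y ![u, v] * cap v c`. Sum over `c` with `Piv`:
`∑ c, cup b c * cap v c = if b = v then ε * κ b else 0`. -/
def DVF_Stmt : Prop :=
  ∀ (A : Type) [CommRing A] (ι : Type) [Fintype ι] [DecidableEq ι] (M : Mats A ι) (ε : A)
    (κ : ι → A), Piv M ε κ → Zig M → ∀ (e : Bool) (m : ℤ) (n : ℕ) (w : Word), Bd n w →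
    ∀ (F : List ι → A) (a : ι),
    M.val (double e m (cl n w)) F [a] = ε ^ (2 * n + 1) * ∑ u,
      (∑ b, κ b * (ptr (blkD (rdM M κ) 1) n w * tw (rdM M κ) m * clasp M e) ![a, b] ![u, b]) * F [u]

/-- TYP: labels with types (for instance orientations) that are transported along the strands; the
labels of type `t0` are the `j a`.

Proof. If `op T' n w s t ≠ 0` then there is a permutation: with `π = perm (ev n w)` acting on the
positions, `ty (t (π i)) = ty (s i)` or `ty (t i) = ty (s (π i))` for all `i` (induction on `w`;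
choose the direction that makes the induction work; each letter is a transposition). For
`s = Fin.cons (j a) x`, `t = Fin.cons l x` the multisets of types of `s` and `t` agree, so
`ty l = ty (j a) = t0`, which gives the first claim; and then the function `i ↦ ty (s i)` is
invariant under `π`, which is a single cycle (`IsKnot`), so all types are `t0`. Hence in
`ptr T' n w (j a) (j c)` only the `x` of the form `j ∘ x₀` contribute, and
`op T' n w (j ∘ s) (j ∘ t) = (∏ χ) * op T n w s t` by induction on `w` (the intermediate labels also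
have type `t0`). -/
def TYP_Stmt : Prop :=
  ∀ (A : Type) [CommRing A] (L τ ι : Type) [Fintype L] [DecidableEq L] [DecidableEq τ]
    [Fintype ι] [DecidableEq ι] (T' : RData A L) (T : RData A ι) (ty : L → τ) (j : ι → L) (t0 : τ)
    (χ : Bool → A), Function.Injective j → (∀ l, ty l = t0 ↔ ∃ a, l = j a) →
    (∀ x y, T'.R x y ≠ 0 → ty x.1 = ty y.2 ∧ ty x.2 = ty y.1) →
    (∀ x y, T'.R' x y ≠ 0 → ty x.1 = ty y.2 ∧ ty x.2 = ty y.1) →
    (∀ a b c d, T'.R (j a, j b) (j c, j d) = χ true * T.R (a, b) (c, d)) →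
    (∀ a b c d, T'.R' (j a, j b) (j c, j d) = χ false * T.R' (a, b) (c, d)) →
    (∀ a, T'.κ (j a) = T.κ a) → ∀ (n : ℕ) (w : Word), Bd n w → LibH11.IsKnot (ev n w) →
    (∀ a l, ty l ≠ t0 → ptr T' n w (j a) l = 0) ∧
    (∀ a c, ptr T' n w (j a) (j c) = (w.map fun p => χ p.2).prod * ptr T n w a c)

/-- NRC: the framing factor of a closed braid.

Proof: `Piv (M.nrm θ) ε (fun x => κ x.2)` follows from `Piv M ε κ`. Apply `TRC` to `M.nrm θ` and to
`M`, and `TYP` with `ty = Prod.fst`, `t0 = true`, `j a = (true, a)`, `χ = θ`. -/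
def NRC_Stmt : Prop :=
  ∀ (A : Type) [CommRing A] (ι : Type) [Fintype ι] [DecidableEq ι] (M : Mats A ι) (ε : A)
    (κ : ι → A) (θ : Bool → A), Piv M ε κ → ∀ (n : ℕ) (w : Word), Bd n w →
    LibH11.IsKnot (ev n w) → ∀ (F : List (Bool × ι) → A) (a : ι),
    (M.nrm θ).val (cl n w) F [(true, a)] =
      (w.map fun p => θ p.2).prod * M.val (cl n w) (fun l => F (l.map fun x => (true, x))) [a]

/-- NRD: the framing factor of a double.

Proof: `DVF` for `M.nrm θ` (weights `fun x => κ x.2`) and for `M`. In the formula the sum is over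
`b = (o, b₀)`. The labels of `blkD (rdM (M.nrm θ) κ') 1` are functions `Fin 2 → Bool × ι`, of type
`(orientation of x 0, orientation of x 1)`; `tw` and `clasp` preserve the orientations of the two
strands, and `clasp (M.nrm θ) e x y = 0` if the two orientations of `x` agree (`cap (x 0) z = 0`:
the label `z` has the orientation of `x 1`, as it comes from `x 1` through two crossings). So by
`TYP` with `t0 = (true, true)` (`χ e = θ e ^ 4`) the terms with `o = true` vanish. For `o = false`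
use `TYP` with `t0 = (true, false)`, `j x = ![(true, x 0), (false, x 1)]`, `χ e = 1`: the four
crossings of `blk 2 (0, e)` of strands with orientations `true, false, true, false` have the factors
`θ (!e)`, `θ e`, `θ e`, `θ (!e)`, and `θ e * θ (!e) = 1`. In `tw` the strands are antiparallel:
`θ (!(0 < m))` for each of the `2 |m|` crossings; in the clasp the strands `x 1` (`false`) and `c`
(`true`, since `cup c (y 1) ≠ 0` and `y 1` has the orientation `false`) are antiparallel:
`θ (!e) ^ 2`. -/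
def NRD_Stmt : Prop :=
  ∀ (A : Type) [CommRing A] (ι : Type) [Fintype ι] [DecidableEq ι] (M : Mats A ι) (ε : A)
    (κ : ι → A) (θ : Bool → A), Piv M ε κ → Zig M → (∀ e, θ e * θ (!e) = 1) →
    ∀ (e : Bool) (m : ℤ) (n : ℕ) (w : Word), Bd n w → LibH11.IsKnot (ev n w) →
    ∀ (F : List (Bool × ι) → A) (a : ι),
    (M.nrm θ).val (double e m (cl n w)) F [(true, a)] =
      θ (!e) ^ 2 * θ (!(decide (0 < m))) ^ (2 * m.natAbs) *
        M.val (double e m (cl n w)) (fun l => F (l.map fun x => (true, x))) [a]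

/-- GPT: the closure of the first strand.

Proof: `Fin.consEquiv` / `Fin.cons` splits the sum over `Fin (n + 1) → ι`; `at1 X 0 t s` is zero
unless `t` and `s` agree outside `0`. -/
def GPT_Stmt : Prop :=
  ∀ (A : Type) [CommRing A] (ι : Type) [Fintype ι] [DecidableEq ι] (T : RData A ι) (n : ℕ)
    (w : Word), (∀ X : Matrix ι ι A, G T n w X = ∑ a, T.κ a * (ptr T n w * X) a a) ∧
    Jfr T n w = ∑ a, T.κ a * ptr T n w a a

/-- GAU: change of the basis vectors.

Proof: each relation of `Ok` is multiplied by a factor; `val` by induction on the diagram, one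
slice by induction on the position (`g' u * g u = 1` for the labels that are not changed). -/
def GAU_Stmt : Prop :=
  ∀ (A : Type) [CommRing A] (ι : Type) [Fintype ι] [DecidableEq ι] (M : Mats A ι) (g g' : ι → A),
    (∀ u, g u * g' u = 1) → (M.Ok → (gau M g g').Ok) ∧
    ∀ (D : Diag) (F : List ι → A) (l : List ι), (gau M g g').val D F l =
      (l.map g').prod * M.val D (fun l' => (l'.map g).prod * F l') l

/-- MPM: ring homomorphisms.

Proof: direct, `val` by induction on the diagram. For the last part apply the injective `φ` to each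
relation. -/
def MPM_Stmt : Prop :=
  ∀ (A C : Type) [CommRing A] [CommRing C] (ι : Type) [Fintype ι] [DecidableEq ι] (φ : A →+* C)
    (M : Mats A ι), (∀ (D : Diag) (F : List ι → A) (l : List ι),
      (mapM φ M).val D (fun l' => φ (F l')) l = φ (M.val D F l)) ∧
    (Function.Injective φ → (mapM φ M).Ok → M.Ok)

/-! ## 2. The model of the module of dimension `N`: over a field -/

section Model

variable {K : Type} [Field K] (s : K)

/-- The invariant form. -/
def vcup (N : ℕ) (x y : Fin N) : K :=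
  if (x : ℕ) + y + 1 = N then (-1) ^ (x : ℕ) * s ^ (2 * (x : ℤ) * ((x : ℤ) - N)) *
    (qfac s (N - 1) / (qfac s x * qfac s y)) else 0

/-- The invariant vector. -/
def vcap (N : ℕ) (x y : Fin N) : K := if (x : ℕ) + y + 1 = N then (vcup s N y x)⁻¹ else 0

/-- The model. -/
def MV (N : ℕ) : Mats K (Fin N) where
  cup := vcup s N
  cap := vcap s N
  X := fun e x y c d =>
    if e then Rm s (V s N) (V s N) (x, y) (c, d) else Rm' s (V s N) (V s N) (x, y) (c, d)

/-- The framing factors. -/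
def th (N : ℕ) (e : Bool) : K :=
  (-1) ^ (N - 1) * s ^ (if e then -((N : ℤ) ^ 2 - 1) else (N : ℤ) ^ 2 - 1)

/-- The weights. -/
def kap (N : ℕ) (i : Fin N) : K := s ^ (2 * (V s N).wt i)

/-- The value of the clasp on the summand of the largest dimension. -/
def gtop (N : ℕ) (e : Bool) : K :=
  if e then s ^ (-((N : ℤ) * (N - 1))) * (s ^ (2 : ℤ) - s ^ (-2 : ℤ)) ^ (N - 1) * qfac s (N - 1)
  else s ^ ((N : ℤ) * (N - 1)) * (s ^ (-2 : ℤ) - s ^ (2 : ℤ)) ^ (N - 1) * qfac s (N - 1)

end Model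

/-- CUPM: the form and the vector.

Proof. `qfac s k ≠ 0` (`qn s k ≠ 0` for `k ≠ 0` by `Gen`). For given `a` only `b = N - 1 - a`
contributes: `Zig` and its mirror image are `vcup a b * (vcup a b)⁻¹ = 1` (note
`vcap b a = (vcup a b)⁻¹`), `Piv` is `vcup a b / vcup b a = (-1)^(N-1) s^(2 (N - 1 - 2 a))`
(`(-1)^a / (-1)^b = (-1)^(a+b)`, exponents `2 a (a - N) - 2 b (b - N) = 2 (b - a)`). Invariance of
the form: with `c i = vcup i (N-1-i)`, `E`: `c (i-1) [N - i] s^(2 (2 i - N - 1)) + c i [i] = 0`, and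
`F`: `c i [i] + c (i-1) s^(-2 (N + 1 - 2 i)) [N - i] = 0`, the same equation. The vector: the same
computation with `k i = vcap i (N-1-i) = 1 / c (N-1-i)`:
`[N - i] s^(2 (2 i + 1 - N)) k i + [i] k (i-1) = 0`. -/
def CUPM_Stmt : Prop :=
  ∀ (K : Type) [Field K] (s : K), IT.Gen s → ∀ N : ℕ, 1 ≤ N →
    (∀ x y : Fin N, (x : ℕ) + y + 1 = N → vcup s N x y ≠ 0) ∧ Zig (MV s N) ∧
    (∀ x b, ∑ a, (MV s N).cup a b * (MV s N).cap x a = if b = x then 1 else 0) ∧
    Piv (MV s N) ((-1) ^ (N - 1)) (kap s N) ∧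
    Mor (tens s (V s N) (V s N)) (V s 1) (fun _ y => vcup s N y.1 y.2) ∧
    Mor (V s 1) (tens s (V s N) (V s N)) (fun x _ => vcap s N x.1 x.2)

/-- SLI: a strand slides across a minimum or a maximum.

Proof. `NAT` for `M = V N`, `N = tens V V`, `M' = V N`, `N' = V 1`, `f = 1`, `g` = the form
(`Rm s V (V 1)` and `Rm s (V 1) V` are the identity up to reindexing, since `E = F = 0` on `V 1`)
and `HEX2` give `∑ n l m', cup n l * X true (l, a; m', l0) * X true (n, m'; m, n0) =
(if a = m then cup n0 l0 else 0)`; multiply by `X false (m, n0; p, q)` and sum over `m`, `n0`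
(`RINV`): this is `slideCup` for `e = true`. `e = false`: the same with `Rm'` (`HEXI`), or multiply
by `X true` on the other side. `slideCap`: the same with the vector in the place of the form
(`Mor (V 1) (tens V V)`), and `HEX1`/`HEX2`. -/
def SLI_Stmt : Prop :=
  ∀ (K : Type) [Field K] (s : K), IT.Gen s → ∀ N : ℕ, 1 ≤ N →
    (∀ e x y z t, ∑ c, (MV s N).X e y z c t * (MV s N).cap x c =
      ∑ d, (MV s N).X (!e) x y t d * (MV s N).cap d z) ∧
    (∀ e x p q r, ∑ b, (MV s N).cup p b * (MV s N).X e b x q r =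
      ∑ a, (MV s N).cup a r * (MV s N).X (!e) x a p q)

/-- RON: the first Reidemeister move.

Proof. The vector `y x = ∑ c d, X e x.1 x.2 c d * cap c d` is again invariant (`QT`, `CUPM`): weight
zero and killed by `E` of `tens`. A vector of weight zero killed by `E` satisfies
`[N - i] s^(2 (2 i + 1 - N)) y (i, N-1-i) + [i] y (i-1, N-i) = 0`, so it is determined by
`y (0, N-1)`. For `e = true`: `X true 0 (N-1) c d = if c = N-1 ∧ d = 0 then s^(-(N-1)^2) else 0`
(only `n = 0` contributes), so `y (0, N-1) = s^(-(N-1)^2) * cap (N-1) 0` and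
`cap (N-1) 0 / cap 0 (N-1) = vcup (N-1) 0 / vcup 0 (N-1) = (-1)^(N-1) s^(-2 (N-1))`. `e = false`:
inverse (`RINV`). The form: the same, with row vectors. -/
def RON_Stmt : Prop :=
  ∀ (K : Type) [Field K] (s : K), IT.Gen s → ∀ N : ℕ, 1 ≤ N →
    (∀ e x y, ∑ c, ∑ d, (MV s N).X e x y c d * (MV s N).cap c d = th s N e * (MV s N).cap x y) ∧
    (∀ e c d, ∑ a, ∑ b, (MV s N).cup a b * (MV s N).X e a b c d = th s N e * (MV s N).cup c d)

/-- OKF: the model satisfies the relations.

Proof: `CUPM`, `SLI`, `RON`, `RINV` for `r2` (`∑ c d, X e x y c d * X (!e) c d p q` is an entry of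
`Rm * Rm'` or `Rm' * Rm`), `YBE` for `r3` (compare with `Mats.OkFr.r3`; rename the summation
variables), `th true * th false = 1`. -/
def OKF_Stmt : Prop :=
  ∀ (K : Type) [Field K] (s : K), IT.Gen s → ∀ N : ℕ, 1 ≤ N → (MV s N).OkFr (th s N)

/-- CLM: the clasp is a morphism.

Proof: the clasp is the product of the matrices (rows below) `A₁ x p = if x 0 = p 0 ∧ x 1 = p 1 then
cup (p 2) (p 3) else 0`, `op (RD s V) 3 [(1, e), (1, e)]` and `A₃ p y = if p 2 = y 0 ∧ p 3 = y 1
then cap (p 0) (p 1) else 0` (`p : Fin 4 → Fin N`). The middle one is a morphism by `MOP`; `A₁`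
is `1 ⊗ 1 ⊗ form` and `A₃` is `vector ⊗ 1 ⊗ 1` (`CUPM`; `TENSOK` for tensor products of morphisms
and for `fpow s M (2 + 2)` versus `tens`). -/
def CLM_Stmt : Prop :=
  ∀ (K : Type) [Field K] (s : K), IT.Gen s → ∀ N : ℕ, 1 ≤ N → ∀ e : Bool,
    Mor (fpow s (V s N) 2) (fpow s (V s N) 2) (clasp (MV s N) e)

/-- PTM: partial closures of braids are morphisms.

Proof: `op (RD s M) n w` is an endomorphism of `fpow s M (n + 1)` (`MOP`), which is
`tens s M (fpow s M n)` with `Fin.cons` (`TENSOK` for `1 + n`, or directly from the definitions);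
`PTR` with `N = fpow s M n`, and `s ^ (2 ∑ wt) = ∏ κ`. -/
def PTM_Stmt : Prop :=
  ∀ (K : Type) [Field K] (s : K), IT.Gen s → ∀ (ι : Type) [Fintype ι] [DecidableEq ι] (M : WM K ι),
    Ok s M → ∀ (n : ℕ) (w : Word), Mor M M (ptr (RD s M) n w)

/-- SCC: the value of a closed braid.

Proof: `rdM (MV s N) (kap s N) = RD s (V s N)`. `TRC` (with `Piv` of `CUPM`), `PTM`, `SCHUR`:
`ptr (RD s (V s N)) n w = c • 1`; `GPT`. -/
def SCC_Stmt : Prop :=
  ∀ (K : Type) [Field K] (s : K), IT.Gen s → ∀ N : ℕ, 1 ≤ N → ∀ (n : ℕ) (w : Word), Bd n w →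
    ∃ c : K, (∀ (F : List (Fin N) → K) (a : Fin N), (MV s N).val (cl n w) F [a] = c * F [a]) ∧
      c * (∑ i, (RD s (V s N)).κ i) = ((-1) ^ (N - 1)) ^ n * Jfr (RD s (V s N)) n w

/-- SCD: the value of a double.

Proof: `DVF` (with `Piv`, `Zig` of `CUPM`). The matrix `Y = ptr (blkD (RD s V) 1) n w * tw * clasp`
is an endomorphism of `fpow s V 2` (`BLKD` and `PTM` for `fpow s V 2`, `MOP`, `CLM`), so
`fun a u => ∑ b, κ b * Y ![a, b] ![u, b]` is an endomorphism of `V s N` (`PTR`, `TENSOK` for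
`1 + 1`), a scalar (`SCHUR`). Its trace with the weights is `∑ a b, κ a κ b Y ![a, b] ![a, b] =
G (blkD (RD s V) 1) n w (tw * clasp)` by `GPT`. -/
def SCD_Stmt : Prop :=
  ∀ (K : Type) [Field K] (s : K), IT.Gen s → ∀ N : ℕ, 1 ≤ N → ∀ (e : Bool) (m : ℤ) (n : ℕ)
    (w : Word), Bd n w →
    ∃ c : K, (∀ (F : List (Fin N) → K) (a : Fin N),
      (MV s N).val (double e m (cl n w)) F [a] = c * F [a]) ∧
      c * (∑ i, (RD s (V s N)).κ i) = (-1) ^ (N - 1) *
        G (blkD (RD s (V s N)) 1) n w (tw (RD s (V s N)) m * clasp (MV s N) e)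

/-- TOPV: the clasp on the highest weight vector.

Proof: `cup c 0 ≠ 0` only for `c = N - 1`, `cap 0 z ≠ 0` only for `z = N - 1`, and
`cup (N-1) 0 * cap 0 (N-1) = 1`. It remains `∑ p r, X e 0 (N-1) p r * X e p r (N-1) 0`.
`e = true`: the first factor is `s^(-(N-1)^2)` for `(p, r) = (N-1, 0)` and zero otherwise, the second
`X true (N-1) 0 (N-1) 0 = s^(-(N-1)^2) aq (N-1) [N-1]!²` (only `n = N - 1` contributes).
`e = false`: `X false p r (N-1) 0 ≠ 0` only for `(p, r) = (0, N-1)`, value `s^((N-1)^2)`, and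
`X false 0 (N-1) 0 (N-1) = aq' (N-1) [N-1]!² s^((N-1)^2)`. -/
def TOPV_Stmt : Prop :=
  ∀ (K : Type) [Field K] (s : K), IT.Gen s → ∀ (N : ℕ) (hN : 1 ≤ N) (e : Bool),
    clasp (MV s N) e (fun _ => ⟨0, hN⟩) (fun _ => ⟨0, hN⟩) = gtop s N e

/-- GSUM: the closure with twists and clasp.

Proof: `BLKD`, then `CABSUM` for the module `W = fpow s V 2`, `X = tw m * clasp e` (a morphism:
`MOP`, `CLM`), `b = 2 N - 1`. Put `γ j = wtr W (2 j) (clasp e) - wtr W (2 j + 2) (clasp e)`. Weights
of `W` are even, so only `k = 2 j` contributes. `MULT` for `k = 2 j` gives `P`, `Q` with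
`wtr W k Y - wtr W (k + 2) Y = trace (Q * Y * P)` for all morphisms `Y`; the columns of `P` are
highest weight vectors of weight `k`, so `R² P = r P` with `r = s^((2 j + 1)² - 1 - 2 (N² - 1))` by
`DBL` (`op (RD s V) 1 [(0, true), (0, true)]` is `R²` with `Fin 2 → Fin N` for `Fin N × Fin N`),
`tw m * P = r ^ m P`, and `Q * (tw m * clasp) * P = Q * tw m * P * (Q * clasp * P) =
r ^ m (Q * clasp * P)` (`Q * P = 1`). `γ (N - 1)`: the only label of weight `2 N - 2` is `(0, 0)`,
there is none of weight `2 N`; `TOPV`. -/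
def GSUM_Stmt : Prop :=
  ∀ (K : Type) [Field K] (s : K), IT.Gen s → ∀ (N : ℕ), 1 ≤ N → ∀ (e : Bool), ∃ γ : ℕ → K,
    γ (N - 1) = gtop s N e ∧ ∀ (m : ℤ) (n : ℕ) (w : Word), LibH11.IsKnot (ev n w) →
    G (blkD (RD s (V s N)) 1) n w (tw (RD s (V s N)) m * clasp (MV s N) e) =
      ∑ j ∈ Finset.range N, γ j * s ^ (m * ((2 * (j : ℤ) + 1) ^ 2 - 1 - 2 * ((N : ℤ) ^ 2 - 1))) *
        Jfr (RD s (V s (2 * j + 1))) n w

/-! ## 3. The invariants -/

open LaurentPolynomial in
/-- The evaluation `T = exp (X / 2)`. -/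
def IsEv (φ : ℤ[T;T⁻¹] →+* ℚ⟦X⟧) : Prop := ∀ n : ℤ, φ (T n) = E (n / 2)

open LaurentPolynomial in
/-- EVT: the evaluation exists and is injective.

Proof: `LaurentPolynomial.eval₂` at the unit `E (1/2)` (`ESER`). Injective: `∑ cₙ exp (n X / 2) = 0`
implies `∑ cₙ n^k = 0` for all `k`; multiply by a power of `T`, then a nonzero polynomial `f` with
`f (exp (X / 2)) = 0`, i.e. `f = (T - 1)^k g` with `g 1 ≠ 0`, gives `(E (1/2) - 1)^k g (E (1/2))`,
the second factor has constant coefficient `g 1 ≠ 0`; contradiction. -/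
def EVT_Stmt : Prop := ∃ φ : ℤ[T;T⁻¹] →+* ℚ⟦X⟧, IsEv φ ∧ Function.Injective φ

open LaurentPolynomial in
/-- QBI: `q`-binomial coefficients are integral.

Proof: induction on `a + b` with Pascal's rule
`[a + b choose a] = s^(2 b) [a + b - 1 choose a - 1] + s^(-2 a) [a + b - 1 choose a]`
(`qn (a + b) = s^(2 b) qn a + s^(-2 a) qn b`), `φ (T n) = E (n / 2)`, `sQ ^ n = toK (E (n / 2))`
(`ESER`). -/
def QBI_Stmt : Prop :=
  ∀ (φ : ℤ[T;T⁻¹] →+* ℚ⟦X⟧), IsEv φ → ∀ a b : ℕ,
    ∃ z : ℤ[T;T⁻¹], toK (φ z) = qfac sQ (a + b) / (qfac sQ a * qfac sQ b)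

open LaurentPolynomial in
/-- INX: the normalised crossings are integral and congruent modulo `T - 1`.

Proof: the entries of `X e` are sums over `n` of `s^k aq n (E^n) (F^n)` (`aq'` for `e = false`) with
`(F^n) a b = [b + 1] ⋯ [b + n] = [n]! * [b + n choose n]` for `a = b + n` and `0` otherwise,
`(E^n) a b` a product of quantum integers, and `aq n * [n]! = s^(n (n-1)) (s² - s^(-2))^n`; so every
summand is integral by `QBI` (`qn s k`, `k` an integer, is `±` the sum of `s^(2 (k - 1 - 2 i))`).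
The summand for `n = 0` is a power of `s` times the flip, the summands for `n ≥ 1` contain
`(s² - s^(-2))^n`, which is divisible by `s - 1`, and `s^k - 1` is divisible by `s - 1`:
`th true * X true` and `th false * X false` are both congruent to `(-1)^(N-1)` times the flip. -/
def INX_Stmt : Prop :=
  ∀ (φ : ℤ[T;T⁻¹] →+* ℚ⟦X⟧), IsEv φ → ∀ N : ℕ, 1 ≤ N →
    ∃ Y : Bool → Fin N → Fin N → Fin N → Fin N → ℤ[T;T⁻¹],
      (∀ e x y c d, toK (φ (Y e x y c d)) = th sQ N e * (MV sQ N).X e x y c d) ∧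
      ∀ x y c d, (T 1 - 1) ∣ Y true x y c d - Y false x y c d

open LaurentPolynomial in
/-- INT: the integral model.

Proof. Let `M = (MV sQ N).nrm (th sQ N)`, labels `(o, i)`. Put `g (true, i) = 1`,
`g (false, i) = (vcup sQ N (N-1-i) i)⁻¹`, `g' = g⁻¹`, and let `Y` be as in `INX`. Minima and maxima of
`gau M g g'` are `0`, `1`, or `vcup a b / vcup b a = (-1)^(N-1) s^(2 (b - a))` or its inverse.
Crossings, with `x̄ = N - 1 - x`: two strands `true`: `Y e x y c d`. Mixed: by the slide relations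
`SLI`, `X e p̄ x q r * cup p p̄ / cup r̄ r = X (!e) x r̄ p q` (`false p̄`, `true x` below, `true q`,
`false r` above: the entry of `gau M g g'` is `Y (!e) x r̄ p q`) and
`X e y z x̄ t * cap x x̄ / cap z̄ z = X (!e) x y t z̄` (`true y`, `false z` below, `false x̄`,
`true t` above: the entry of `gau M g g'` is `Y (!e) x y t z̄` times a factor that is a power of `s`
independent of `e`). Two strands `false`: apply this twice; again an entry of `Y e` times a power
of `s` independent of `e`. So all entries are images of elements of `ℤ[T;T⁻¹]`, and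
`Z.X true - Z.X false` is a multiple of a difference of entries of `Y true`, `Y false`. -/
def INT_Stmt : Prop :=
  ∀ (φ : ℤ[T;T⁻¹] →+* ℚ⟦X⟧), IsEv φ → ∀ N : ℕ, 1 ≤ N →
    ∃ (Z : Mats ℤ[T;T⁻¹] (Bool × Fin N)) (g g' : Bool × Fin N → KQ),
      (∀ u, g u * g' u = 1) ∧ (∀ i, g (true, i) = 1) ∧
      mapM (toK.comp φ) Z = gau ((MV sQ N).nrm (th sQ N)) g g' ∧
      ∀ x y c d, (T 1 - 1) ∣ Z.X true x y c d - Z.X false x y c d

open LaurentPolynomial in
/-- FTZ: integral models give invariants determined by finite type invariants.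

Proof: `Mats.hasOrderLE` with `h = T 1 - 1` and the additive map `φ_k : ℤ[T;T⁻¹] → ℤ`,
`∑ cₙ Tⁿ ↦ ∑ cₙ (Ring.choose n k)` (the coefficient of `(T - 1)^k`), which kills the multiples of
`(T - 1)^(k + 1)` (`Ring.choose` and Pascal: `φ_(k+1) ((T - 1) r) = φ_k r`, `φ_0 ((T - 1) r) = 0`).
If all `φ_k` vanish on `r` then `r = 0` (`(T - 1)^k ∣ r` for all `k`, or: a Laurent polynomial whose
expansion at `1` is zero). -/
def FTZ_Stmt : Prop :=
  ∀ (L : Type) [Fintype L] [DecidableEq L] (Z : Mats ℤ[T;T⁻¹] L) (hZ : Z.Ok),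
    (∀ x y c d, (T 1 - 1) ∣ Z.X true x y c d - Z.X false x y c d) →
    ∀ (F : List L → ℤ[T;T⁻¹]) (a : L) (K K' : SKnot),
    (∀ v : SKnot → ℤ, Sliced.IsFiniteType v → v K = v K') → Z.inv hZ F a K = Z.inv hZ F a K'

/-- The leading coefficient of the formula for doubles. -/
noncomputable def cftop (N : ℕ) (e : Bool) : KQ :=
  (-1) ^ (N - 1) * sQ ^ (if e then 2 * ((N : ℤ) ^ 2 - 1) else -(2 * ((N : ℤ) ^ 2 - 1))) *
    gtop sQ N e * qn sQ (2 * N - 1) / qn sQ N

/-- The coloured Jones polynomials of long knots, normalised to be `1` on the unknot: they are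
determined by the finite type invariants, agree with those of `Pool/Agent/GK` on closed braids, and
satisfy the formula for doubles. -/
structure JOk (v : ℕ → Knot → ℚ⟦X⟧) (JS : ℕ → SKnot → ℚ⟦X⟧) : Prop where
  ft : ∀ N : ℕ, 1 ≤ N → ∀ K K' : SKnot, (∀ u : SKnot → ℤ, Sliced.IsFiniteType u → u K = u K') →
    JS N K = JS N K'
  br : ∀ N : ℕ, 1 ≤ N → ∀ (n : ℕ) (w : Word) (h : LibH11.IsKnot (ev n w))
    (hl : IsLongKnot (cl n w)), Bd n w →
    (E N - E (-N)) * JS N (ofDiag (cl n w) hl) = (E 1 - E (-1)) * v N (closure (ev n w) h)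
  dbl : ∀ (e : Bool) (N : ℕ), 1 ≤ N → ∃ Cf : ℕ → KQ, Cf (N - 1) = cftop N e ∧
    ∀ (m : ℤ) (n : ℕ) (w : Word) (hl : IsLongKnot (cl n w))
      (hd : IsLongKnot (double e m (cl n w))), Bd n w → LibH11.IsKnot (ev n w) →
      toK (JS N (ofDiag (double e m (cl n w)) hd)) = ∑ j ∈ Finset.range N,
        Cf j * toK (E (2 * j * (j + 1) * (m + wr w)) * JS (2 * j + 1) (ofDiag (cl n w) hl))

/-- CJF: the coloured Jones polynomials of `Pool/Agent/GK` with their formula.

Proof: copy the proofs of `GK.CJK.cj'` and `GK.cjk` (`Pool/Agent/GK/CJK.lean`), where `θ N` is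
`uE _ ((N² - 1) / 2)`, keeping the formulas for `T`, `θ` and `v`. -/
def CJF_Stmt : Prop :=
  ∀ (M : CommMonoid Knot) (cb : ℕ → ℤ → Knot → Knot), Ops M cb →
    ∃ (T : (N : ℕ) → RData ℚ⟦X⟧ (Fin N)) (θ : ℕ → ℚ⟦X⟧ˣ) (v : ℕ → Knot → ℚ⟦X⟧), VOk M cb v ∧
      (∀ N, (T N).map toK = RD sQ (V sQ N)) ∧
      (∀ N, ((θ N : ℚ⟦X⟧ˣ) : ℚ⟦X⟧) = E (((N : ℚ) ^ 2 - 1) / 2)) ∧
      ∀ (N n : ℕ) (w : Word) (h : LibH11.IsKnot (ev n w)), Bd n w →
        v N (closure (ev n w) h) = J (T N) (θ N) n w

open LaurentPolynomial in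
/-- JFD: the values of the invariants of the integral model.

Proof: `MPM` for `Z` and `toK ∘ φ`, `GAU` (the factors are `1` on the labels `(true, _)`; `F` is
zero on the other lists of one label), `NRC` and `SCC`, respectively `NRD` and `SCD`.
`ε ^ n * ∏ θ = θ' ^ wr * ε ^ (n + wr)` with `ε = (-1)^(N-1)`, `θ' = s^(-(N²-1))`. -/
def JFD_Stmt : Prop :=
  ∀ (φ : ℤ[T;T⁻¹] →+* ℚ⟦X⟧), IsEv φ → ∀ (N : ℕ) (hN : 1 ≤ N)
    (Z : Mats ℤ[T;T⁻¹] (Bool × Fin N)) (g g' : Bool × Fin N → KQ), (∀ u, g u * g' u = 1) →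
    (∀ i, g (true, i) = 1) → mapM (toK.comp φ) Z = gau ((MV sQ N).nrm (th sQ N)) g g' →
    ∀ F : List (Bool × Fin N) → ℤ[T;T⁻¹], (∀ l, F l = if l = [(true, ⟨0, hN⟩)] then 1 else 0) →
    ∀ (n : ℕ) (w : Word), Bd n w → LibH11.IsKnot (ev n w) →
      toK (φ (Z.val (cl n w) F [(true, ⟨0, hN⟩)])) * (∑ i, (RD sQ (V sQ N)).κ i) =
        sQ ^ (-(((N : ℤ) ^ 2 - 1) * wr w)) * (((-1) ^ (N - 1)) ^ n * ((-1) ^ (N - 1)) ^ w.length) *
          Jfr (RD sQ (V sQ N)) n w ∧
      ∀ (e : Bool) (m : ℤ),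
        toK (φ (Z.val (double e m (cl n w)) F [(true, ⟨0, hN⟩)])) *
          (∑ i, (RD sQ (V sQ N)).κ i) =
        sQ ^ ((2 * m + (if e then 2 else -2)) * ((N : ℤ) ^ 2 - 1)) * (-1) ^ (N - 1) *
          G (blkD (RD sQ (V sQ N)) 1) n w (tw (RD sQ (V sQ N)) m * clasp (MV sQ N) e)

/-- PAR: the parity of a knot.

Proof: the sign of the permutation of `ev n w` is `(-1) ^ w.length` (each letter is a
transposition), and the sign of an `(n + 1)`-cycle is `(-1) ^ n`. -/
def PAR_Stmt : Prop :=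
  ∀ (n : ℕ) (w : Word), Bd n w → LibH11.IsKnot (ev n w) → Even (n + w.length)

/-- JSX: the invariants exist.

Proof: `EVT`, `INT`, `MPM` (`Ok`), `OKF` (`Mats.OkFr.nrm`), `GAU` (`Ok`): `Z N` is `Ok` for `1 ≤ N`.
`JS N K = φ ((Z N).inv _ F (true, 0) K)` for `1 ≤ N` (`F` as in `JFD`), `JS 0 K = 0`. `ft`: `FTZ`.
`br`: first part of `JFD` with `PAR`; `CJF`: `J (T N) (θ N) n w = θ^(-wr) Jfr`, mapped by `toK`
(`JMAP`, `Pool/Agent/IT/QJmap.lean`); and `∑ κ = [N]`: `(E 1 - E (-1)) ∑ κ = E N - E (-N)`. `dbl`: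
second part of `JFD` and `GSUM` with `Cf j = ε s^(2 σ (N² - 1)) γ j [2 j + 1] / [N]` (`σ = 1` for
`e = true`, `-1` for `false`, `ε = (-1)^(N-1)`):
`s^(m ((2j+1)² - 1 - 2 (N² - 1))) * s^(2 m (N² - 1)) = s^(m ((2j+1)² - 1))`, and
`Jfr (V M) = θ_M^(wr w) [M] JS M (cl n w)` with `θ_M = s^(M² - 1)` (`M = 2 j + 1`), and
`s^(((2 j + 1)² - 1) (m + wr w)) = E (2 j (j + 1) (m + wr w))`. -/
def JSX_Stmt : Prop :=
  ∀ (M : CommMonoid Knot) (cb : ℕ → ℤ → Knot → Knot), Ops M cb →
    ∃ (v : ℕ → Knot → ℚ⟦X⟧) (JS : ℕ → SKnot → ℚ⟦X⟧), VOk M cb v ∧ JOk v JS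

/-- Closed braids of knots, and doubles of them, are long knots (topological part). -/
def LONG_Stmt : Prop :=
  ∀ (n : ℕ) (w : Word), Bd n w → LibH11.IsKnot (ev n w) → IsLongKnot (cl n w) ∧
    ∀ (e : Bool) (m : ℤ), IsLongKnot (double e m (cl n w))

/-- CFV: the formulas for dimension 2 and 3.

Proof. Unknot: `cl 0 [] = []`, `JS M (ofDiag []) = 1` (`br`, `VOk.unit`). `N = 2`: `Cf 1` is `cftop`,
and `Cf 0 + Cf 1 = 1` from `dbl` for `n = 0`, `w = []`, `m = 0` and `unknot_double` (`TU.lean`: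
`double e 0 [] ~ []`, `JS` is an invariant). `N = 3`: `Cf 2` is `cftop`, `Cf 0 + Cf 1 + Cf 2 = 1`
in the same way, and `trefoil_true` (`double true 1 [] ~ cl 1 [(0, false)^3]`), `trefoil_false`
(`double false (-1) [] ~ cl 1 [(0, true)^3]`) give
`Cf 0 + Cf 1 E (4 σ) + Cf 2 E (12 σ) = JS 3 (trefoil)`, and `[3] JS 3 (trefoil) = E (24 σ) +
E (6 σ) [5] - E (18 σ) [3]` with `[3] = E 2 + 1 + E (-2)`, `[5] = E 4 + E 2 + 1 + E (-2) + E (-4)`:
`br`, `VOk.cab` (`Recur`) with `p = 2`, `q = -3 σ`, `N = 2`, `K = unknot` (`Ops.cab` for `n = 0`,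
`w = []`: `cab 2 q [] = tor 2 q`). So `Cf 1 (E (4 σ) - 1) = JS 3 (trefoil) - 1 - Cf 2 (E (12 σ) - 1)`,
and `cf1 σ (E (4 σ) - 1) = E (24 σ) + E (6 σ) [5] - E (18 σ) [3] - [3] - cf2 σ (E (12 σ) - 1)`
(identity of Laurent polynomials, checked by computer), so `[3] Cf 1 = cf1 σ` (cancel
`E (4 σ) - 1 ≠ 0`), `[3] Cf 2 = cf2 σ`, `[2] Cf 1 = -σ E (2 σ) (E 1 - E (-1)) [3]` for `N = 2`. -/
def CFV_Stmt : Prop :=
  ∀ (M : CommMonoid Knot) (cb : ℕ → ℤ → Knot → Knot) (v : ℕ → Knot → ℚ⟦X⟧)
    (JS : ℕ → SKnot → ℚ⟦X⟧), Ops M cb → VOk M cb v → JOk v JS →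
    ∀ (e : Bool) (m : ℤ) (n : ℕ) (w : Word) (hl : IsLongKnot (cl n w))
      (hd : IsLongKnot (double e m (cl n w))), Bd n w → LibH11.IsKnot (ev n w) →
    D2E (if e then 1 else -1) (m + wr w) (JS 2 (ofDiag (double e m (cl n w)) hd))
      (JS 3 (ofDiag (cl n w) hl)) ∧
    D3E (if e then 1 else -1) (m + wr w) (JS 3 (ofDiag (double e m (cl n w)) hd))
      (JS 3 (ofDiag (cl n w) hl)) (JS 5 (ofDiag (cl n w) hl))

/-! ## 4. The conclusions -/

/-- All finite type invariants with integer values agree. -/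
def Same0 (K K' : SKnot) : Prop := ∀ u : SKnot → ℤ, Sliced.IsFiniteType u → u K = u K'

/-- S1: two doubles with the same clasp.

Proof: `gOPS`, `JSX`, `LONG`; `JOk.ft` gives equality of all `JS N` of the doubles; `dbl` and `TRIA`
(`cftop N e ≠ 0`; `Cf` from `choose`; `JS 1 = 1`, and `coeff 0`, `coeff 1` of `JS 3` from `GAB`,
`br`, `EXP4`: `Ser v K G` gives `(E N - E (-N)) JS N = evB N G`): `t = t'`, and `JS (2 j + 1)` agree,
so by `br` the `v N` agree for odd `N`; `GKO`. -/
def S1_Stmt : Prop :=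
  ∀ (e : Bool) (m m' : ℤ) (n n' : ℕ) (w w' : Word) (h : LibH11.IsKnot (ev n w))
    (h' : LibH11.IsKnot (ev n' w')) (hd : IsLongKnot (double e m (cl n w)))
    (hd' : IsLongKnot (double e m' (cl n' w'))), Bd n w → Bd n' w' →
    GraphKnot (closure (ev n w) h) → GraphKnot (closure (ev n' w') h') →
    Same0 (ofDiag (double e m (cl n w)) hd) (ofDiag (double e m' (cl n' w')) hd') →
    m + wr w = m' + wr w' ∧ closure (ev n w) h = closure (ev n' w') h'

/-- S2: two doubles with opposite clasps.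

Proof: as `S1`, with `CFV`, `OPPA`, `GAB`, `EXP4` (`a = -A / 6 ≤ 0` as `0 ≤ A`), `OPPB`;
`a = 0` gives `A = 0`, so the companion is the unknot by `QAB`. -/
def S2_Stmt : Prop :=
  ∀ (m m' : ℤ) (n n' : ℕ) (w w' : Word) (h : LibH11.IsKnot (ev n w))
    (h' : LibH11.IsKnot (ev n' w')) (hd : IsLongKnot (double true m (cl n w)))
    (hd' : IsLongKnot (double false m' (cl n' w'))), Bd n w → Bd n' w' →
    GraphKnot (closure (ev n w) h) → GraphKnot (closure (ev n' w') h') →
    Same0 (ofDiag (double true m (cl n w)) hd) (ofDiag (double false m' (cl n' w')) hd') →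
    (m + wr w = 0 ∨ m + wr w = -1) ∧ m' + wr w' = -(m + wr w) ∧
      closure (ev n w) h = unknot ∧ closure (ev n' w') h' = unknot

/-- S3: a graph knot and a double.

Proof: `CFV` for the double, `GAB`, `EXP4` for the graph knot (`a₁ = -A / 6`,
`α = A² / 72 + B / 180`) and for the companion, `CGK`: `A² / 72 + B / 180 = -A / 18 + A² / 36`, so
`f (A, B) = 0`, and `QAB` leaves the unknot and the trefoils; `Ops.cab` identifies `cb 2 (±3) unknot`
with the closure of `tor 2 (±3)`. -/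
def S3_Stmt : Prop :=
  ∀ (e : Bool) (m : ℤ) (n n' : ℕ) (w w' : Word) (h : LibH11.IsKnot (ev n w))
    (h' : LibH11.IsKnot (ev n' w')) (hd : IsLongKnot (double e m (cl n w)))
    (hl' : IsLongKnot (cl n' w')), Bd n w → Bd n' w' →
    GraphKnot (closure (ev n w) h) → GraphKnot (closure (ev n' w') h') →
    Same0 (ofDiag (double e m (cl n w)) hd) (ofDiag (cl n' w') hl') →
    closure (ev n' w') h' = unknot ∨
    (∃ ht : LibH11.IsKnot (ev 1 [(0, true), (0, true), (0, true)]),
      closure (ev n' w') h' = closure (ev 1 [(0, true), (0, true), (0, true)]) ht) ∨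
    (∃ ht : LibH11.IsKnot (ev 1 [(0, false), (0, false), (0, false)]),
      closure (ev n' w') h' = closure (ev 1 [(0, false), (0, false), (0, false)]) ht)

/-- S4: two graph knots.

Proof: `JSX`, `LONG`, `JOk.ft`, `br`: the `v N` agree; `GKO`. -/
def S4_Stmt : Prop :=
  ∀ (n n' : ℕ) (w w' : Word) (h : LibH11.IsKnot (ev n w)) (h' : LibH11.IsKnot (ev n' w'))
    (hl : IsLongKnot (cl n w)) (hl' : IsLongKnot (cl n' w')), Bd n w → Bd n' w' →
    GraphKnot (closure (ev n w) h) → GraphKnot (closure (ev n' w') h') →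
    Same0 (ofDiag (cl n w) hl) (ofDiag (cl n' w') hl') →
    closure (ev n w) h = closure (ev n' w') h'

end Pool.Agent.WD
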