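import Pool.Agent.WD.BaseX

/-!
# Alexander's theorem for diagrams in Morse position: statements (MP_31fd3b_gt, project WD, part X)

Every long knot diagram is equivalent to a closed braid `cl n w`. The module `WX_XXX` is the file
`Pool/Agent/WD/XXX.lean` with `theorem t_XXX : XXX_Stmt` (with the statements that the text names as
hypotheses, in the order of the text) in the namespace `Pool.Agent.WD`, helper lemmas in the
namespace `Pool.Agent.WD.XXX`.

Tools: `WD/BaseX.lean` (`OS`, `OD`, `ups`, `dns`, `T`, `SW`, `ys`, `NFP` and their basic facts,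
certificates `c_l3`, `c_tw`, `c_tb`), `WD/NAT.lean` (`NAT.xs_succ`, `NAT.xs_add`, `NAT.cnt_xs`,
`t_NAT`), `WD/SLC.lean` (`SLC.partA`), `WD/Base.lean` (`bwe`: equal braids have equivalent diagrams;
`cnt_crs`, `cnt_bwd`, `cnt_cups`, `cnt_caps`, `cups_succ`, `caps_snoc`), `TwoBr/EqD.lean` (`EqD.sh`,
`EqD.widen`, `EqD.ctx`, `EqD.left`, `EqD.right`, `EqD.move`, `far_words`, `cnt_app`, `cnt_sh`, `cnt_widen`,
`cnt_one`, `EqD.cnt_eq`). `NAT.one` is a model for the moves in a context.

A certificate `h : EqD N x y` at the place `i` on `M` strands is `(h.sh i).widen k`, where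
`M = N + i + k`.
-/

set_option autoImplicit false

namespace Pool.Agent.WD

open Pool.Agent.LibH11 Pool.Agent.LibH11.Sliced Pool.Agent.IT Pool.Agent.TwoBr

/-! ## Orientations -/

/-- ORI (150 lines): a long knot diagram can be oriented from bottom to top.
Proof. Claim, by induction on `u` from the top (`List.reverseRecOn`, `run_append`, `OD.snoc`): if
`run u start = some (n, lab, c)` then all labels `lab i`, `i < n`, are `< c`, and there are
`σ : ℕ → Bool` and `m0 < c` such that for every `g : ℕ → Bool` with `g m0 = false`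
`OD u [true] ((List.range n).map fun i => xor (σ i) (g (lab i)))` (the strands of one arc can be
reversed together, `m0` is the label of the arc of the bottom strand).
`u = []`: `σ = true`, `m0 = 0`. Append `(cup, k)`: the new label is `c`; `σ' j = σ j` for `j < k`,
`true`, `false` for `j = k, k + 1`, `σ (j - 2)` for `j ≥ k + 2`; same `m0` (`x = xor true (g c)`).
Append `(crs e, k)`: `σ' = σ ∘ swap k (k + 1)`. Append `(cap, k)`: `A = lab k ≠ B = lab (k + 1)`, the new
labels are `A` for `A` and `B`. Let `δ = not (xor (σ k) (σ (k + 1)))`, i.e. `xor (xor (σ k) (σ (k+1))) δ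
= true`. If `B ≠ m0` use for `g'` (with `g' m0' = false`) the function `g = g'` except
`g B = xor (g' A) δ`, new `σ'` at the strands with old label `B` changed by `δ`, `m0' = m0`. If `B = m0`,
then `A ≠ m0`: `m0' = A` (the merged label), `g = g'` except `g B = g' A (= false)`,
`g A = xor (g' A) δ`, `σ'` at the strands with old label `A` changed by `δ`.
In both cases the orientations at `k`, `k + 1` are opposite: `OS` for `cap`.
A lemma: `OS (κ, k)` for lists `(List.range n).map f`, `(List.range n').map f'` with the obvious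
relations between `f` and `f'` (induction on `k`, `List.range_succ_eq_map`, generalise `f`).
For a long knot `n = 1`: `OD D [true] [x]`, and `ups - dns` does not change under `OS` (induction), so
`x = true`. -/
def ORI_Stmt : Prop := ∀ D : Diag, IsLongKnot D → OD D [true] [true]

/-! ## Sorting -/

/-- PAS (130 lines), uses nothing (`t_NAT` is on main): one more downward strand on the left, which
passes over (under) the upward strands.
Proof. Induction on `SW`. `nil`: `v' = []`. In the other cases `v = p :: v1` and `v1` has `v1'`; then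
`sh 1 v ++ xs c a'' = sh 1 [p] ++ (sh 1 v1 ++ xs c a'') ~ sh 1 [p] ++ xs c a1 ++ v1'`, and it remains
`sh 1 [p] ++ xs c a1 ~ xs c a ++ p'` with a sorted `p'` (on `a + b + 1` strands).
`up e j`: `a1 = a`, `p' = [(crs e, j)]`: `NAT` for `t = [(crs e, j)]` on `a` strands, widened by `b`.
`dn e j`: `sh 1 [p] = [(crs e, a + j + 1)]` commutes with `xs c a` (`far_words` with `u = xs c a`,
`N = M = a + 1`), `p' = [(crs e, a + (j + 1))]`.
`cup`: `a1 = a + 1`: `[(cup, a+1)] ++ xs c a ++ [(crs c, a)] ~ xs c a ++ [(cup, a+1), (crs c, a)]`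
(`far_words`) `~ xs c a ++ [(cup, a), (crs (!c), a+1)]` (slideCup), `p' = [(cup, a), (crs (!c), a+1)]`
(`SW.cup`, `SW.dn` with `j = 0`).
`cap` (from `(a+1, b+1)` to `(a, b)`): `[(cap, a+1)] ++ xs c a ~ xs c a ++ [(cap, a+1)]` (`far_words`)
`~ xs c a ++ [(crs c, a), (crs (!c), a), (cap, a+1)]` (r2) `~ xs c (a+1) ++ [(crs c, a+1), (cap, a)]`
(slideCap), `p' = [(crs c, a+1), (cap, a)]` (`SW.dn` with `j = 0`, `SW.cap`). -/
def PAS_Stmt : Prop := ∀ (c : Bool) (a b a' b' : ℕ) (v : Diag), SW a b a' b' v →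
  ∃ v' : Diag, SW a (b + 1) a' (b' + 1) v' ∧
    EqD (a + b + 1) (sh 1 v ++ xs c a') (xs c a ++ v')

/-- CUT (60 lines): a minimum moves to the right.
Proof. Induction on `a`. `sh 1 (xs c (a+1)) = sh 1 (xs c a) ++ [(crs c, a+1)]`; by the induction
hypothesis (widened by 1) it remains `(cup, a) :: ys (!c) a ++ [(crs c, a+1)] ~
(cup, a) :: (crs c, a+1) :: ys (!c) a` (`far_words` with `u = ys (!c) a` on `a + 1` strands; `cnt_ys`)
`~ (cup, a+1) :: (crs (!c), a) :: ys (!c) a` (slideCup) `= (cup, a+1) :: ys (!c) (a+1)` (`ys_succ`). -/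
def CUT_Stmt : Prop := ∀ (c : Bool) (a : ℕ),
  EqD a ((.cup, 0) :: sh 1 (xs c a)) ((.cup, a) :: ys (!c) a)

/-- CAT (60 lines): a maximum moves to the right.
Proof. Induction on `a`. `sh 1 (xs c (a+1)) ++ xs c (a+1) ++ [(cap, a+1)] = sh 1 (xs c a) ++
[(crs c, a+1)] ++ xs c a ++ [(crs c, a), (cap, a+1)] ~ sh 1 (xs c a) ++ xs c a ++ [(crs c, a+1),
(crs c, a), (cap, a+1)]` (`far_words` with `u = xs c a` on `a + 1` strands) and
`[(crs c, a+1), (crs c, a), (cap, a+1)] ~ [(crs c, a+1), (crs (!c), a+1), (cap, a)] ~ [(cap, a)]`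
(slideCap backwards, r2). -/
def CAT_Stmt : Prop := ∀ (c : Bool) (a : ℕ),
  EqD (a + 2) (sh 1 (xs c a) ++ xs c a ++ [(.cap, a)]) [(.cap, 0)]

/-- LTR (60 lines): a crossing passes under (over) `a` strands.
Proof. Induction on `a`. As in CAT, `sh 1 (xs c (a+1)) ++ xs c (a+1) ~ sh 1 (xs c a) ++ xs c a ++
[(crs c, a+1), (crs c, a)]` (`far_words`); by the induction hypothesis the crossing becomes
`(crs e, a)` before these two, and `c_l3` (shifted by `a`) moves it behind them as `(crs e, a+1)`. -/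
def LTR_Stmt : Prop := ∀ (e c : Bool) (a : ℕ),
  EqD (a + 2) ((.crs e, 0) :: (sh 1 (xs c a) ++ xs c a))
    (sh 1 (xs c a) ++ xs c a ++ [(.crs e, a)])

/-- TWL (100 lines), uses LTR: a full twist of an upward and a downward strand.
Proof. `xs c a ++ ys (!c) a ~ []` on `a + 1` strands (induction: `xs c (a+1) ++ ys (!c) (a+1) =
xs c a ++ [(crs c, a), (crs (!c), a)] ++ ys (!c) a`, r2). So `[(crs e,0), (crs e,0)] ++ sh 1 (xs c a) ~
[(crs e,0), (crs e,0)] ++ sh 1 (xs c a) ++ xs c a ++ ys (!c) a ~ (LTR twice) sh 1 (xs c a) ++ xs c a ++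
[(crs e,a), (crs e,a)] ++ ys (!c) a ~ sh 1 (xs c a) ++ v` with `v = xs c a ++ [(cup, a+1), (crs (!e), a),
(crs (!e), a), (crs e, a+2), (cap, a+1)] ++ ys (!c) a` (`c_tw (!e)` shifted by `a`). `SW`: `sw_xs`,
`SW.cup`, `SW.up` twice, `SW.dn` with `j = 0`, `SW.cap`, `sw_ys`. Everything is widened by `b`. -/
def TWL_Stmt : Prop := ∀ (e c : Bool) (a b : ℕ), ∃ v : Diag,
  SW (a + 1) (b + 1) (a + 1) (b + 1) v ∧
    EqD (a + b + 2) ((.crs e, 0) :: (.crs e, 0) :: sh 1 (xs c a)) (sh 1 (xs c a) ++ v)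

/-- LSX (250 lines), uses PAS, CUT, CAT, LTR, TWL: one slice.
Proof. Induction on `OS`. `cons x`: `h : OS (κ, i) o o'` with `v1`. `x = true`: `v = sh 1 v1`
(`EqD.sh`, `SW.sh_one`, `T_true`). `x = false`: `[(κ, i+1)] ++ sh 1 (T c o') ++ xs c (ups o') ~
sh 1 (T c o) ++ sh 1 v1 ++ xs c (ups o') ~ sh 1 (T c o) ++ xs c (ups o) ++ v'` (PAS).
Now `i = 0`; put `a = ups b`, `sh 1 (sh 1 (T c b)) = sh 2 (T c b)`. A slice `(κ, 0)` passes `T c b`:
`[(κ, 0)] ++ sh κ.outs (T c b) ~ sh κ.ins (T c b) ++ [(κ, 0)]` (`far_words` with `u = [(κ, 0)]`,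
`N = κ.ins`, `M = κ.outs`, `v = T c b`, `N' = b.length`).
`cup true`: `T c (true :: false :: b) = sh 2 (T c b) ++ sh 1 (xs c a)`; `v = (cup, a) :: ys (!c) a`
(CUT, widened by `dns b`). `cup false`: `T c (false :: true :: b) = sh 2 (T c b) ++ (crs c, 0) ::
sh 1 (xs c a)` (`xs c (a+1) = (crs c, 0) :: sh 1 (xs c a)`, `NAT.xs_add`), r1Cup, then the same.
`cap true`: `T c (true :: false :: b) = sh 2 (T c b) ++ sh 1 (xs c a)`, `v = xs c a ++ [(cap, a)]`
(CAT). `cap false`: `T c (false :: true :: b) = sh 2 (T c b) ++ (crs c, 0) :: sh 1 (xs c a)`, the same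
`v`: `(crs c, 0) :: (sh 1 (xs c a) ++ v) ~ [(crs c, 0), (cap, 0)] ~ [(cap, 0)]` (CAT, r1Cap).
`crs e true true`: `v = [(crs e, 0)]`. `crs e false false`: both `T` are `sh 2 (T c b) ++
sh 1 (xs c a) ++ xs c a`, `v = [(crs e, a)]` (LTR). `crs e true false`: below `T c (true :: false ::
b) = sh 2 (T c b) ++ sh 1 (xs c a)`, above `T c (false :: true :: b) = sh 2 (T c b) ++ (crs c, 0) ::
sh 1 (xs c a)`: for `e = !c` r2 and `v = []`; for `e = c` TWL. `crs e false true`: below
`sh 2 (T c b) ++ (crs c, 0) :: sh 1 (xs c a)`, above `sh 2 (T c b) ++ sh 1 (xs c a)`: for `e = c`,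
`v = []`; for `e = !c`: `[(crs (!c), 0)] ++ sh 1 (xs c a) ~ (crs c, 0) :: (crs (!c), 0) :: (crs (!c), 0) ::
sh 1 (xs c a) ~ (crs c, 0) :: (sh 1 (xs c a) ++ v)` (r2, TWL). -/
def LSX_Stmt : Prop := ∀ (c : Bool) (p : Kind × ℕ) (o o' : List Bool), OS p o o' →
  ∃ v : Diag, SW (ups o) (dns o) (ups o') (dns o') v ∧
    EqD o.length (p :: T c o') (T c o ++ v)

/-- FLO (50 lines), uses LSX: an oriented diagram is equivalent to a sorted one.
Proof. Claim: `OD D o o'` implies that there is `v` with `SW (ups o) (dns o) (ups o') (dns o') v`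
and `EqD o.length (D ++ T true o') (T true o ++ v)`. Induction on `OD`: `D = p :: D'`:
`p :: D' ++ T o2 ~ p :: T o1 ++ v2 ~ T o ++ v1 ++ v2` (`SW.append`, `OS.cnt`, `OD.cnt`, `cnt_T`).
`T true [true] = []`. -/
def FLO_Stmt : Prop := ∀ D : Diag, OD D [true] [true] → ∃ v : Diag, SW 1 0 1 0 v ∧ EqD 1 D v

/-! ## Normal forms -/

/-- NFU (60 lines): a crossing of upward strands on top of a normal form.
Proof. `sh b (caps m) = sh (b + 1) x` (all maxima are at places `≥ b + 1`), so
`sh b (caps m) ++ [(crs e, j)] ~ [(crs e, j)] ++ sh b (caps m)` (`far_words` with `u = [(crs e, j)]`,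
`N = M = b + 1`, `v = x`), and `braidWord w ++ [(crs e, j)] = braidWord (w ++ [(j, e)])`, `j < b + m`. -/
def NFU_Stmt : Prop := ∀ (b : ℕ) (v : Diag) (e : Bool) (j : ℕ), NFP b v → j < b →
  NFP b (v ++ [(.crs e, j)])

/-- NFD (100 lines): a crossing of downward strands on top of a normal form.
Proof. `sh b (caps m) ++ [(crs e, b + 1 + j)] ~ [(crs e, 2 m + b + 1 + j)] ++ sh b (caps m)`
(`far_words` with `u = sh b (caps m)`, `N = 2 m + b + 1`, `M = b + 1`, `v = [(crs e, j)]`);
`2 m + b + 1 + j ≥ (b + m) + 1`, so the crossing commutes with `braidWord w` (`far_words` with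
`u = braidWord w`, `N = M = b + m + 1`); `2 m + b + 1 + j = 2 (b + m) - i` with `i = b - 1 - j`,
`1 ≤ i < b + m`, and `SLC.partA` replaces it by `(crs e, i)`; the new word is `(i, e) :: w`. -/
def NFD_Stmt : Prop := ∀ (b : ℕ) (v : Diag) (e : Bool) (j : ℕ), NFP b v → j + 1 < b →
  NFP b (v ++ [(.crs e, b + 1 + j)])

/-- NFC (120 lines), uses NFU, NFD: a minimum on top of a normal form.
Proof. It suffices to treat `v = cups (b + m) ++ braidWord w ++ sh b (caps m)`, `Bd (b + m) w`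
(`NFP.congr`, `EqD.right`), by induction on `m` for all `b`. `m = 0`: `braidWord w ++ [(cup, b+1)] ~
[(cup, b+1)] ++ braidWord w` (`far_words` with `u = braidWord w`, `N = M = b + 1`, `v = [(cup, 0)]`),
`cups (b+1) = cups b ++ [(cup, b+1)]`, normal form for `b + 1`, `m = 0`, the same word.
`m + 1`: `sh b (caps (m+1)) = sh (b+1) (caps m) ++ [(cap, b+1)]` (see `NFP.cap`). Let
`x = cups (b+1+m) ++ braidWord w ++ sh (b+1) (caps m)` (`b + (m+1) = b + 1 + m`), so `v = x ++
[(cap, b+1)]` and `v ++ [(cup, b+1)] ~ x ++ [(cup, b+2), (crs true, b+1), (crs false, b+3),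
(cap, b+2)]` (`c_tb` shifted by `b + 1`, widened). By the induction hypothesis for `b + 1`, `m`:
`NFP (b+2) (x ++ [(cup, b+2)])`; NFU with `j = b + 1 < b + 2`; NFD with `j = 0`
(`(b + 2) + 1 + 0 = b + 3`, `0 + 1 < b + 2`); `NFP.cap`. -/
def NFC_Stmt : Prop := ∀ (b : ℕ) (v : Diag), NFP b v → NFP (b + 1) (v ++ [(.cup, b + 1)])

/-- NFS (50 lines), uses NFU, NFD, NFC: a sorted diagram from one strand to one strand is equivalent
to a closed braid.
Proof. Claim: if `SW a b a' b' v`, `a = b + 1` and `NFP b u`, then `a' = b' + 1` and `NFP b' (u ++ v)`.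
Induction on `SW` for all `u` (the first letter of `v` goes to the end of `u`): NFU (`j + 1 < b + 1`),
NFD (`a + j = b + 1 + j`), NFC (`(cup, a) = (cup, b + 1)`), `NFP.cap` (`(cap, a)` with `a + 1 = (b + 1) + 1`).
Then `nfp_nil`, `NFP.closed`. -/
def NFS_Stmt : Prop := ∀ v : Diag, SW 1 0 1 0 v → ∃ (n : ℕ) (w : Word), Bd n w ∧ EqD 1 v (cl n w)

/-- KNB (150 lines): the converse of LKC.
Proof. See `WD/LKC.lean`: `run_cups`, `run_bw`, `perm_ev` show that before `caps n` the labels are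
`lab j = pw w j` for `j ≤ n` and `lab (2 n + 1 - j) = j` for `1 ≤ j ≤ n`. Claim for all `k` and
`τ : ℕ → ℕ` mapping `{0, …, k}` injectively into itself: if `lab j = τ j` for `j ≤ k`,
`lab (2 k + 1 - j) = j` for `1 ≤ j ≤ k`, and `run (caps k) (2 k + 1, lab, c) ≠ none`, then every `x ≤ k`
is `τ^[m] 0` for some `m`. Induction on `k`: the first step of `caps (k+1)` is `(cap, k+1)` and does
not fail, so `τ (k+1) ≠ k + 1`; the new labels are given by `τ' j = if τ j = k+1 then τ (k+1) else τ j`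
(`nx k τ` in LKC), injective on `{0, …, k}`, and a power `τ'^[m] 0` is a power of `τ`; `k + 1` is
`τ j` for some `j ≤ k` (injectivity: `τ` is onto `{0, …, k+1}`, and `τ (k+1) ≠ k+1`), `j = τ^[m] 0`.
Then all `x` are in the cycle of `0` of `perm (ev n w)`: `IsKnot (ev n w)` (compare the definition of
`LibH11.IsKnot`; `perm_ev_pow`). -/
def KNB_Stmt : Prop := ∀ (n : ℕ) (w : Word), Bd n w → IsLongKnot (cl n w) → IsKnot (ev n w)

/-- Alexander's theorem. -/
def ALX_Stmt : Prop := ∀ D : Diag, IsLongKnot D →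
  ∃ (n : ℕ) (w : Word), Bd n w ∧ IsKnot (ev n w) ∧ EqD 1 D (cl n w)

theorem t_ALX (h1 : ORI_Stmt) (h2 : FLO_Stmt) (h3 : NFS_Stmt) (h4 : KNB_Stmt) : ALX_Stmt := by
  intro D hD
  obtain ⟨v, hv, hE⟩ := h2 D (h1 D hD)
  obtain ⟨n, w, hw, hE'⟩ := h3 v hv
  have h := hE.trans hE'
  exact ⟨n, w, hw, h4 n w hw (h.isLongKnot hD), h⟩

end Pool.Agent.WD
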