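import Pool.Agent.WD.StX

/-!
# WX_TWL: a full twist of an upward and a downward strand (helper10)
-/

set_option autoImplicit false

namespace Pool.Agent.WD

open Pool.Agent.LibH11 Pool.Agent.LibH11.Sliced Pool.Agent.IT Pool.Agent.TwoBr

namespace TWL

theorem cnt_shxs (c : Bool) (a : ℕ) : cnt (a + 2) (sh 1 (xs c a)) = some (a + 2) := by
  have h := cnt_sh 1 (xs c a) (a + 1)
  rw [NAT.cnt_xs c a (a + 1) le_rfl] at h
  exact h

theorem cnt_two {M i j : ℕ} (e f : Bool) (h : i + 2 ≤ M) (h' : j + 2 ≤ M) :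
    cnt M [(.crs e, i), (.crs f, j)] = some M := by
  rw [← List.singleton_append, cnt_app (cnt_crs h), cnt_crs h']

/-- a strand passes `a` strands and comes back -/
theorem xy (c : Bool) : ∀ (a M : ℕ), a + 1 ≤ M → EqD M (xs c a ++ ys (!c) a) [] := by
  intro a
  induction a with
  | zero => intro M _; exact EqD.refl _
  | succ a ih =>
    intro M h
    have c1 : cnt M [(.crs c, a), (.crs (!c), a)] = some M := cnt_two _ _ (by omega) (by omega)
    have h1 : EqD M [(.crs c, a), (.crs (!c), a)] [] :=
      EqD.move (Move.r2 a c) (by rw [c1]; simp) (by simp [cnt])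
    have h2 : cnt M (xs c a ++ [(.crs c, a), (.crs (!c), a)] ++ ys (!c) a) ≠ none := by
      rw [List.append_assoc, cnt_app (NAT.cnt_xs c a M (by omega)), cnt_app c1,
        cnt_ys _ _ _ (by omega)]
      simp
    have s1 := h1.ctx (xs c a) (ys (!c) a) (NAT.cnt_xs c a M (by omega)) h2
    have e1 : xs c (a + 1) ++ ys (!c) (a + 1) =
        xs c a ++ [(.crs c, a), (.crs (!c), a)] ++ ys (!c) a := by
      rw [NAT.xs_succ, ys_succ]
      simp
    rw [e1]
    rw [List.append_nil] at s1
    exact s1.trans (ih M (by omega))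

end TWL

open TWL in
theorem t_TWL (h1 : LTR_Stmt) : TWL_Stmt := by
  intro e c a b
  refine ⟨xs c a ++ [(.cup, a + 1), (.crs (!e), a), (.crs (!e), a), (.crs e, a + 2), (.cap, a + 1)]
    ++ ys (!c) a, ?_, ?_⟩
  · refine ((sw_xs c a (a + 1) (b + 1) (by omega)).append ?_).append
      (sw_ys (!c) a (a + 1) (b + 1) (by omega))
    exact SW.cup (SW.up _ a (by omega) (SW.up _ a (by omega)
      (SW.dn e 0 (by omega) (SW.cap (SW.nil _ _)))))
  · have hx := NAT.cnt_xs c a (a + 2) (by omega)
    have hy := cnt_ys (!c) a (a + 2) (by omega)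
    have hs := cnt_shxs c a
    have he : cnt (a + 2) [(.crs e, 0)] = some (a + 2) := cnt_crs (by omega)
    have hea : cnt (a + 2) [(.crs e, a)] = some (a + 2) := cnt_crs (by omega)
    -- insert the two passages
    have s1 : EqD (a + 2) ([(.crs e, 0), (.crs e, 0)] ++ sh 1 (xs c a))
        ([(.crs e, 0), (.crs e, 0)] ++ sh 1 (xs c a) ++ (xs c a ++ ys (!c) a)) := by
      have h2 := (xy c a (a + 2) (by omega)).symm.left ([(.crs e, 0), (.crs e, 0)] ++ sh 1 (xs c a))
        (by rw [cnt_app (cnt_two (M := a + 2) e e (by omega) (by omega)), hs])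
      rw [List.append_nil] at h2
      exact h2
    -- both crossings pass
    have s2 : EqD (a + 2) ([(.crs e, 0), (.crs e, 0)] ++ (sh 1 (xs c a) ++ xs c a))
        (sh 1 (xs c a) ++ xs c a ++ [(.crs e, a), (.crs e, a)]) := by
      have h2 := (h1 e c a).left [(.crs e, 0)] he
      have h3 := (h1 e c a).right [(.crs e, a)] (by
        rw [← List.singleton_append, List.append_assoc, cnt_app he, List.append_assoc, cnt_app hs,
          cnt_app hx, hea]
        simp)
      have e2 : ([(.crs e, 0)] : Diag) ++ (sh 1 (xs c a) ++ xs c a ++ [(.crs e, a)]) =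
          (.crs e, 0) :: (sh 1 (xs c a) ++ xs c a) ++ [(.crs e, a)] := by simp
      rw [e2] at h2
      have h4 := h2.trans h3
      have e3 : ([(.crs e, 0)] : Diag) ++ (.crs e, 0) :: (sh 1 (xs c a) ++ xs c a) =
          [(.crs e, 0), (.crs e, 0)] ++ (sh 1 (xs c a) ++ xs c a) := by simp
      have e4 : sh 1 (xs c a) ++ xs c a ++ [(.crs e, a)] ++ [(.crs e, a)] =
          sh 1 (xs c a) ++ xs c a ++ [(.crs e, a), (.crs e, a)] := by simp
      rw [e3, e4] at h4
      exact h4
    have s2' := s2.right (ys (!c) a) (by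
      rw [List.append_assoc, cnt_app (cnt_two (M := a + 2) e e (by omega) (by omega)), List.append_assoc,
        cnt_app hs, cnt_app hx, hy]
      simp)
    -- the certificate
    have h5 := (c_tw (!e)).sh a
    rw [Bool.not_not, show 2 + a = a + 2 by omega] at h5
    simp only [sh_cons, sh_nil, Nat.zero_add] at h5
    rw [show 1 + a = a + 1 by omega, show 2 + a = a + 2 by omega] at h5
    have s3 := h5.ctx (sh 1 (xs c a) ++ xs c a) (ys (!c) a) (by rw [cnt_app hs, hx]) (by
      rw [List.append_assoc, List.append_assoc, cnt_app hs, cnt_app hx,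
        cnt_app (cnt_two (M := a + 2) e e (by omega) (by omega)), hy]
      simp)
    have e5 : ([(.crs e, 0), (.crs e, 0)] : Diag) ++ sh 1 (xs c a) ++ (xs c a ++ ys (!c) a) =
        [(.crs e, 0), (.crs e, 0)] ++ (sh 1 (xs c a) ++ xs c a) ++ ys (!c) a := by simp
    rw [e5] at s1
    have s4 := ((s1.trans s2').trans s3).widen b
    rw [show a + 2 + b = a + b + 2 by omega] at s4
    simp only [List.append_assoc, List.cons_append, List.nil_append] at s4 ⊢
    exact s4

end Pool.Agent.WD
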