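import Pool.Agent.WD.StQ

/-!
# VOP: the action of a braid word
-/

namespace Pool.Agent.WD

open Pool.Agent.LibH11 Pool.Agent.IT Pool.Agent.GK Pool.Agent.TwoBr
open Pool.Agent.LibH11.Sliced (Diag Kind cnt IsLongKnot ofDiag braidWord)
open scoped BigOperators
open PowerSeries

namespace VOP

variable {A ι : Type} [CommRing A] [Fintype ι]

/-- A sum with the matrix that acts on two positions. -/
theorem sum_atp [DecidableEq ι] {P : Type} [Fintype P] [DecidableEq P]
    (R : Matrix (ι × ι) (ι × ι) A) {x y : P} (hxy : x ≠ y) (s : P → ι) (g : (P → ι) → A) :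
    ∑ t, atp R x y s t * g t = ∑ c, ∑ d,
      R (s x, s y) (c, d) * g (Function.update (Function.update s x c) y d) := by
  classical
  have hx : ∀ p : ι × ι, Function.update (Function.update s x p.1) y p.2 x = p.1 := fun p => by
    rw [Function.update_of_ne hxy, Function.update_self]
  have hy : ∀ p : ι × ι, Function.update (Function.update s x p.1) y p.2 y = p.2 := fun p => by
    rw [Function.update_self]
  rw [← Fintype.sum_prod_type (f := fun p : ι × ι =>
    R (s x, s y) (p.1, p.2) * g (Function.update (Function.update s x p.1) y p.2))]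
  symm
  refine Finset.sum_of_injOn (fun p : ι × ι => Function.update (Function.update s x p.1) y p.2)
    ?_ (fun _ _ => Finset.mem_coe.2 (Finset.mem_univ _)) ?_ ?_
  · intro p _ q _ h
    have h1 := congrFun h x
    have h2 := congrFun h y
    simp only [hx, hy] at h1 h2
    exact Prod.ext h1 h2
  · intro t _ ht
    unfold atp
    rw [if_neg, zero_mul]
    intro h
    refine ht ⟨(t x, t y), Finset.mem_coe.2 (Finset.mem_univ _), ?_⟩
    funext z
    by_cases hzy : z = y
    · subst hzy
      exact hy (t x, t z)
    · by_cases hzx : z = x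
      · subst hzx
        exact hx (t z, t y)
      · show Function.update (Function.update s x (t x)) y (t y) z = t z
        rw [Function.update_of_ne hzy, Function.update_of_ne hzx]
        exact h z hzx hzy
  · intro p _
    unfold atp
    rw [if_pos, hx, hy]
    intro z hzx hzy
    rw [Function.update_of_ne hzy, Function.update_of_ne hzx]

/-- The action of a crossing. -/
theorem act_crs (M : Mats A ι) (e : Bool) (a b : ι) (r : List ι) : ∀ (i : ℕ) (F : List ι → A)
    (l : List ι), l.length = i →
    M.act (.crs e) i F (l ++ a :: b :: r) = ∑ c, ∑ d, M.X e a b c d * F (l ++ c :: d :: r)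
  | 0, F, [], _ => rfl
  | i + 1, F, x :: l, h => by
    have h' : l.length = i := by simpa using h
    exact act_crs M e a b r i (fun l' => F (x :: l')) l h'

theorem split {n i : ℕ} (hi : i < n) (s : Fin (n + 1) → ι) :
    List.ofFn s = (List.ofFn s).take i ++ s ⟨i, Nat.lt_succ_of_lt hi⟩ ::
      s ⟨i + 1, Nat.succ_lt_succ hi⟩ :: (List.ofFn s).drop (i + 2) := by
  have h1 : i < (List.ofFn s).length := by rw [List.length_ofFn]; omega
  have h2 : i + 1 < (List.ofFn s).length := by rw [List.length_ofFn]; omega
  have e1 : (List.ofFn s)[i] = s ⟨i, Nat.lt_succ_of_lt hi⟩ := by rw [List.getElem_ofFn]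
  have e2 : (List.ofFn s)[i + 1] = s ⟨i + 1, Nat.succ_lt_succ hi⟩ := by rw [List.getElem_ofFn]
  rw [← e1, ← e2, ← List.drop_eq_getElem_cons h2, ← List.drop_eq_getElem_cons h1,
    List.take_append_drop]

theorem split_upd {n i : ℕ} (hi : i < n) (s : Fin (n + 1) → ι) (c d : ι) :
    List.ofFn (Function.update (Function.update s ⟨i, Nat.lt_succ_of_lt hi⟩ c)
      ⟨i + 1, Nat.succ_lt_succ hi⟩ d) =
      (List.ofFn s).take i ++ c :: d :: (List.ofFn s).drop (i + 2) := by
  rw [split hi]
  have e0 : (⟨i, Nat.lt_succ_of_lt hi⟩ : Fin (n + 1)) ≠ ⟨i + 1, Nat.succ_lt_succ hi⟩ := by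
    intro h
    have := congrArg Fin.val h
    simp at this
  rw [Function.update_self, Function.update_of_ne e0, Function.update_self]
  congr 1
  · refine List.ext_getElem (by simp) fun j h1 h2 => ?_
    have hj : j < i := by
      have := List.length_take_le i (List.ofFn s)
      omega
    rw [List.getElem_take, List.getElem_take, List.getElem_ofFn, List.getElem_ofFn,
      Function.update_of_ne, Function.update_of_ne]
    · intro h
      have := congrArg Fin.val h
      simp at this
      omega
    · intro h
      have := congrArg Fin.val h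
      simp at this
      omega
  · congr 2
    refine List.ext_getElem (by simp) fun j h1 h2 => ?_
    rw [List.getElem_drop, List.getElem_drop, List.getElem_ofFn, List.getElem_ofFn,
      Function.update_of_ne, Function.update_of_ne]
    · intro h
      have := congrArg Fin.val h
      simp at this
      omega
    · intro h
      have := congrArg Fin.val h
      simp at this
      omega

theorem letter [DecidableEq ι] (M : Mats A ι) (κ : ι → A) {n i : ℕ} (hi : i < n) (e : Bool)
    (F : List ι → A) (s : Fin (n + 1) → ι) (r : List ι) :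
    M.act (.crs e) i F (List.ofFn s ++ r) =
      ∑ t : Fin (n + 1) → ι, opl (rdM M κ) n (i, e) s t * F (List.ofFn t ++ r) := by
  have e0 : (⟨i, Nat.lt_succ_of_lt hi⟩ : Fin (n + 1)) ≠ ⟨i + 1, Nat.succ_lt_succ hi⟩ := by
    intro h
    have := congrArg Fin.val h
    simp at this
  have e1 : opl (rdM M κ) n (i, e) = atp (if e then (rdM M κ).R else (rdM M κ).R')
      (⟨i, Nat.lt_succ_of_lt hi⟩ : Fin (n + 1)) ⟨i + 1, Nat.succ_lt_succ hi⟩ := by
    unfold opl
    rw [dif_pos hi]
  rw [e1, sum_atp _ e0 s (fun t => F (List.ofFn t ++ r))]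
  have e2 : ∀ x y z t : ι, (if e then (rdM M κ).R else (rdM M κ).R') (x, y) (z, t) =
      M.X e x y z t := by
    intro x y z t
    cases e <;> rfl
  have hl : ((List.ofFn s).take i).length = i := by
    rw [List.length_take, List.length_ofFn]
    omega
  rw [split hi s, List.append_assoc, List.cons_append, List.cons_append,
    act_crs M e _ _ _ i F _ hl]
  refine Finset.sum_congr rfl fun c _ => Finset.sum_congr rfl fun d _ => ?_
  rw [e2, split_upd hi, List.append_assoc, List.cons_append, List.cons_append]

end VOP

theorem t_VOP : VOP_Stmt := by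
  intro A _ ι _ _ M κ n w hw F
  induction w with
  | nil =>
    intro s r
    show F (List.ofFn s ++ r) = ∑ t : Fin (n + 1) → ι,
      (1 : Matrix (Fin (n + 1) → ι) (Fin (n + 1) → ι) A) s t * F (List.ofFn t ++ r)
    simp [Matrix.one_apply]
  | cons p w ih =>
    intro s r
    obtain ⟨i, e⟩ := p
    have hi : i < n := hw (i, e) List.mem_cons_self
    have hw' : Bd n w := fun x hx => hw x (List.mem_cons_of_mem _ hx)
    show M.act (.crs e) i (M.val (braidWord w) F) (List.ofFn s ++ r) =
      ∑ t : Fin (n + 1) → ι, (opl (rdM M κ) n (i, e) * op (rdM M κ) n w) s t *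
        F (List.ofFn t ++ r)
    rw [VOP.letter M κ hi]
    simp_rw [ih hw', Matrix.mul_apply, Finset.sum_mul, Finset.mul_sum]
    rw [Finset.sum_comm]
    refine Finset.sum_congr rfl fun u _ => Finset.sum_congr rfl fun t _ => ?_
    ring

end Pool.Agent.WD
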